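import Pool.Graph.R_seed8.W424.NC.NearC
import Pool.Graph.R_seed8.H12R2.Sep.PlusFin

/-!
Sharp lower bound for the plus event in the near-critical window, at all scales.
-/

set_option maxHeartbeats 400000

namespace Pool.Agent.H953

open H974 Finset H12S

/-- The plus event has probability at least `c m ^ (-5/4)` in the window. -/
theorem plusS : ∃ (L M2 Mr : ℕ) (κ b c C : ℝ), 2 ≤ L ∧ 1 ≤ M2 ∧ 1 ≤ Mr ∧ 0 < κ ∧ 0 < b ∧ 0 < c ∧
    0 < C ∧ ∀ n : ℕ, 1 ≤ n → ∀ q : ℝ, |q - 1/2| ≤ b * (n:ℝ) ^ (-(3/4 : ℝ)) → Win q κ n ∧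
      (∀ k : ℕ, 1 ≤ k → k ≤ n → a4 q k ≤ C * (k:ℝ) ^ (-(5/4 : ℝ))) ∧
      ∀ r m : ℕ, Mr ≤ r → m = M2 * r → 16 * L * m ≤ n → ∃ β : Bool,
        c * (m:ℝ) ^ (-(5/4 : ℝ)) ≤ PQ q (boxE (16 * L * m))
          (fun F => Plus (4 * L * m) m (16 * L * m) (e0 β) ↑F) := by
  obtain ⟨κ, b, ca, Ca, hκ, hb, hca, hCa, hnear⟩ := Pool.Agent.W424.NC.nearS
  obtain ⟨C, c, hC, hc, hex⟩ := exit_prob2 κ hκ
  obtain ⟨L, hL, hLK⟩ := kc_choose_L (C * (Ca / ca)) c (5/4) hc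
  have hL0 : (0:ℝ) < (12 * L : ℕ) := by
    have : 0 < 12 * L := by omega
    exact_mod_cast this
  obtain ⟨K, hK⟩ : ∃ K : ℝ, K = (Ca / ca) * (64 * (12 * L : ℕ) : ℝ) ^ (5/4 : ℝ) := ⟨_, rfl⟩
  have hK0 : 0 < K := by rw [hK]; positivity
  have hLK' : C * Real.exp (-c * L) * K ≤ 1 / 32 := by
    rw [hK]
    calc C * Real.exp (-c * L) * ((Ca / ca) * (64 * (12 * L : ℕ) : ℝ) ^ (5/4 : ℝ))
        = C * (Ca / ca) * Real.exp (-c * L) * (64 * (12 * L : ℕ) : ℝ) ^ (5/4 : ℝ) := by ring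
      _ ≤ 1 / 32 := hLK
  obtain ⟨M1, M2, N, hM1, hM2, hex2⟩ := hex L (1 / (32 * K)) hL (by positivity)
  have hM2pos : 0 < M2 := by omega
  obtain ⟨cd, hcd⟩ : ∃ cd : ℕ, cd = (2 * (2 * N + 1)) * (2 * (2 * N + 1)) := ⟨_, rfl⟩
  have hcdpos : 0 < cd := by rw [hcd]; positivity
  have hcd0 : (0:ℝ) < cd := by exact_mod_cast hcdpos
  obtain ⟨Mr, c2, hMr, hc2, hglue⟩ := plus_glue κ hκ L M1 M2 hL hM1 hM2
    (1 / (2 * (4 * cd) * K)) (by positivity)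
  obtain ⟨cf, hcf⟩ : ∃ cf : ℝ, cf = c2 * (1 / 2 * (1 / (4 * cd) * (ca * (4 * (L:ℝ)) ^ (-(5/4 : ℝ))))) :=
    ⟨_, rfl⟩
  have hLr : (0:ℝ) < L := by
    have : 0 < L := by omega
    exact_mod_cast this
  refine ⟨L, M2, Mr, κ, b, cf, Ca, hL, by omega, hMr, hκ, hb, by rw [hcf]; positivity, hCa, ?_⟩
  intro n hn q hq
  obtain ⟨hW, ha⟩ := hnear n hn q hq
  refine ⟨hW, fun k h1 h2 => (ha k h1 h2).2, ?_⟩
  intro r m hr hm hmn
  have h0 : 0 ≤ q := by linarith [hW.lo]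
  have h1 : q ≤ 1 := by linarith [hW.hi]
  have ha0 : ∀ j, 0 ≤ a4 q j := fun j => a4_nonneg h0 h1 j
  have hrpos : 0 < r := by omega
  have hmM : M2 ≤ m := by rw [hm]; exact Nat.le_mul_of_pos_right _ hrpos
  have hm64 : 64 ≤ m := by omega
  have hmr : m / M2 = r := by
    rw [hm]
    exact Nat.mul_div_cancel_left _ hM2pos
  obtain ⟨t, ht⟩ : ∃ t : ℕ, t = L * m := ⟨_, rfl⟩
  have e4 : 4 * L * m = 4 * t := by rw [ht]; ring
  have e16 : 16 * L * m = 16 * t := by rw [ht]; ring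
  have htm : m ≤ t := by
    rw [ht]
    exact Nat.le_mul_of_pos_left _ (by omega)
  have htpos : 1 ≤ t := by omega
  have h4n : 4 * L * m ≤ n := by omega
  have hm0 : (0:ℝ) < m := by exact_mod_cast (by omega : 0 < m)
  have hlow : ca * (4 * (L:ℝ)) ^ (-(5/4 : ℝ)) * (m:ℝ) ^ (-(5/4 : ℝ)) ≤ a4 q (4 * L * m) := by
    have h := (ha (4 * L * m) (by omega) h4n).1
    have e : (((4 * L * m : ℕ) : ℝ)) ^ (-(5/4 : ℝ)) =
        (4 * (L:ℝ)) ^ (-(5/4 : ℝ)) * (m:ℝ) ^ (-(5/4 : ℝ)) := by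
      push_cast
      rw [Real.mul_rpow (by positivity) hm0.le]
    rw [e] at h
    linarith
  have h8 : a4 q (m / 8) ≤ K * a4 q (4 * L * m) := by
    have h := (ha (m / 8) (by omega) (by omega)).2
    have hx : (0:ℝ) < ((m / 8 : ℕ) : ℝ) := by exact_mod_cast (by omega : 0 < m / 8)
    have hx2 : (m:ℝ) / 16 ≤ ((m / 8 : ℕ) : ℝ) := by
      have : m ≤ 16 * (m / 8) := by omega
      have h' : (m:ℝ) ≤ 16 * ((m / 8 : ℕ) : ℝ) := by exact_mod_cast this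
      linarith
    have h2 : ((m / 8 : ℕ) : ℝ) ^ (-(5/4 : ℝ)) ≤ ((m:ℝ) / 16) ^ (-(5/4 : ℝ)) :=
      Real.rpow_le_rpow_of_nonpos (by positivity) hx2 (by norm_num)
    have e : ((m:ℝ) / 16) ^ (-(5/4 : ℝ)) = (64 * (L:ℝ)) ^ (5/4 : ℝ) *
        ((4 * (L:ℝ)) ^ (-(5/4 : ℝ)) * (m:ℝ) ^ (-(5/4 : ℝ))) := by
      rw [← Real.mul_rpow (by positivity) hm0.le]
      have e2 : (m:ℝ) / 16 = (4 * (L:ℝ) * m) / (64 * L) := by field_simp; ring
      rw [e2, Real.div_rpow (by positivity) (by positivity), Real.rpow_neg (by positivity : 0 ≤ 64 * (L:ℝ)),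
        div_inv_eq_mul, mul_comm]
    have h3 : (64 * (L:ℝ)) ^ (5/4 : ℝ) ≤ (64 * (12 * L : ℕ) : ℝ) ^ (5/4 : ℝ) := by
      apply Real.rpow_le_rpow (by positivity) _ (by norm_num)
      push_cast
      nlinarith
    have hnn : 0 ≤ (4 * (L:ℝ)) ^ (-(5/4 : ℝ)) * (m:ℝ) ^ (-(5/4 : ℝ)) := by positivity
    calc a4 q (m / 8) ≤ Ca * ((m / 8 : ℕ) : ℝ) ^ (-(5/4 : ℝ)) := h
      _ ≤ Ca * ((64 * (L:ℝ)) ^ (5/4 : ℝ) *
          ((4 * (L:ℝ)) ^ (-(5/4 : ℝ)) * (m:ℝ) ^ (-(5/4 : ℝ)))) := by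
            rw [← e]; exact mul_le_mul_of_nonneg_left h2 hCa.le
      _ ≤ Ca * ((64 * (12 * L : ℕ) : ℝ) ^ (5/4 : ℝ) *
          ((4 * (L:ℝ)) ^ (-(5/4 : ℝ)) * (m:ℝ) ^ (-(5/4 : ℝ)))) := by
            apply mul_le_mul_of_nonneg_left _ hCa.le
            exact mul_le_mul_of_nonneg_right h3 hnn
      _ = K * (ca * (4 * (L:ℝ)) ^ (-(5/4 : ℝ)) * (m:ℝ) ^ (-(5/4 : ℝ))) := by
            rw [hK]
            field_simp
      _ ≤ K * a4 q (4 * L * m) := mul_le_mul_of_nonneg_left hlow hK0.le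
  set T : Bool → (Bool × ℤ) × (Bool × ℤ) → ℝ := fun β p => PQ q (SR L m) (fun F =>
      Sev L m r (m / M1) p.1.1 (2 * r * p.1.2) p.2.1 (2 * r * p.2.2) (e0 β) ↑F) with hT
  set a : ℝ := a4 q (4 * L * m) with hadef
  have hT0 : ∀ β p, 0 ≤ T β p := fun β p => Pr_nonneg (okq h0 h1) _ _
  have hη : (1 / (32 * K) + C * Real.exp (-c * L)) * K ≤ 1 / 16 := by
    have e1 : 1 / (32 * K) * K = 1 / 32 := by field_simp
    calc (1 / (32 * K) + C * Real.exp (-c * L)) * K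
        = 1 / (32 * K) * K + C * Real.exp (-c * L) * K := by ring
      _ ≤ 1 / 32 + 1 / 32 := by rw [e1]; linarith
      _ = 1 / 16 := by norm_num
  have hη0 : 0 ≤ 1 / (32 * K) + C * Real.exp (-c * L) := by positivity
  have hβ : ∀ β : Bool, a4b q (4 * L * m) β ≤ ∑ p ∈ prs L m r N, T β p + 1 / 16 * a := by
    intro β
    have s1 : a4b q (4 * L * m) β ≤ PQ q (SR L m)
        (fun F => A4 (-(2 * L * m : ℕ)) (2 * L * m : ℕ) (-m) m (e0 β) ↑F) :=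
      thin_ge h0 h1 hL hm64 (x := 0) (y := 0) (b := β) (kc_e0_mem hm64 β)
    have s2 := hex2 q n hW m hmM h4n (e0 β) (kc_e0_mem hm64 β)
    rw [hmr] at s2
    refine s1.trans (s2.trans (add_le_add le_rfl ?_))
    calc (1 / (32 * K) + C * Real.exp (-c * L)) * a4 q (m / 8)
        ≤ (1 / (32 * K) + C * Real.exp (-c * L)) * (K * a) :=
          mul_le_mul_of_nonneg_left h8 hη0
      _ = ((1 / (32 * K) + C * Real.exp (-c * L)) * K) * a := by ring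
      _ ≤ 1 / 16 * a := mul_le_mul_of_nonneg_right hη (ha0 _)
  obtain ⟨pt, hpt, hmt⟩ := Finset.exists_max_image (prs L m r N) (T true) (kc_prs_ne _ _ _ _)
  obtain ⟨pf, hpf, hmf⟩ := Finset.exists_max_image (prs L m r N) (T false) (kc_prs_ne _ _ _ _)
  have hcard : ((prs L m r N).card : ℝ) ≤ cd := by
    rw [hcd]
    exact_mod_cast kc_prs_card L m r N
  have hst : ∑ p ∈ prs L m r N, T true p ≤ cd * T true pt := by
    refine (Finset.sum_le_card_nsmul _ _ _ hmt).trans ?_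
    rw [nsmul_eq_mul]
    exact mul_le_mul_of_nonneg_right hcard (hT0 _ _)
  have hsf : ∑ p ∈ prs L m r N, T false p ≤ cd * T false pf := by
    refine (Finset.sum_le_card_nsmul _ _ _ hmf).trans ?_
    rw [nsmul_eq_mul]
    exact mul_le_mul_of_nonneg_right hcard (hT0 _ _)
  have ha2 : a ≤ cd * T true pt + cd * T false pf + 1 / 8 * a := by
    have h3 := hβ true
    have h4 := hβ false
    have h5 : a = a4b q (4 * L * m) true + a4b q (4 * L * m) false := a4_eq q _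
    linarith
  have hcell : ∀ p ∈ prs L m r N, |2 * p.1.2| ≤ (L:ℤ) * M2 + 1 ∧ |2 * p.2.2| ≤ (L:ℤ) * M2 + 1 := by
    intro p hp
    unfold prs at hp
    rw [Finset.mem_filter] at hp
    obtain ⟨-, g1, g2⟩ := hp
    have hrz : (0:ℤ) < r := by exact_mod_cast hrpos
    have key : ∀ x : ℤ, |2 * (r:ℤ) * x| ≤ ((L * m : ℕ) : ℤ) + (r:ℤ) → |2 * x| ≤ (L:ℤ) * M2 + 1 := by
      intro x hx
      have e1 : |2 * (r:ℤ) * x| = (r:ℤ) * |2 * x| := by
        rw [show 2 * (r:ℤ) * x = (r:ℤ) * (2 * x) by ring, abs_mul, abs_of_pos hrz]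
      have e2 : ((L * m : ℕ) : ℤ) + (r:ℤ) = (r:ℤ) * ((L:ℤ) * M2 + 1) := by
        rw [hm]; push_cast; ring
      rw [e1, e2] at hx
      exact le_of_mul_le_mul_left hx hrz
    exact ⟨key _ g1, key _ g2⟩
  -- conclusion from one pair of cells
  have fin : ∀ (β : Bool) (p : (Bool × ℤ) × (Bool × ℤ)), p ∈ prs L m r N → a ≤ 4 * cd * T β p →
      cf * (m:ℝ) ^ (-(5/4 : ℝ)) ≤ PQ q (boxE (16 * L * m))
          (fun F => Plus (4 * L * m) m (16 * L * m) (e0 β) ↑F) := by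
    intro β p hp hap
    have hgl := hglue q n hW r m hr hm hmn p.1.1 p.2.1 p.1.2 p.2.2 (hcell p hp).1 (hcell p hp).2 β
    have h3 : 1 / (2 * (4 * cd) * K) * a4 q (m / 8) ≤ T β p / 2 := by
      calc 1 / (2 * (4 * cd) * K) * a4 q (m / 8) ≤ 1 / (2 * (4 * cd) * K) * (K * (4 * cd * T β p)) := by
            apply mul_le_mul_of_nonneg_left _ (by positivity)
            exact h8.trans (mul_le_mul_of_nonneg_left hap hK0.le)
        _ = T β p / 2 := by field_simp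
    have h4 : c2 * (T β p / 2) ≤ PQ q (boxE (16 * L * m))
          (fun F => Plus (4 * L * m) m (16 * L * m) (e0 β) ↑F) :=
      le_trans (mul_le_mul_of_nonneg_left (by linarith) hc2.le) hgl
    refine le_trans ?_ h4
    rw [hcf]
    have h5 : 1 / (4 * cd) * (ca * (4 * (L:ℝ)) ^ (-(5/4 : ℝ)) * (m:ℝ) ^ (-(5/4 : ℝ))) ≤ T β p := by
      rw [one_div, inv_mul_le_iff₀ (by positivity)]
      exact hlow.trans hap
    calc c2 * (1 / 2 * (1 / (4 * cd) * (ca * (4 * (L:ℝ)) ^ (-(5/4 : ℝ))))) * (m:ℝ) ^ (-(5/4 : ℝ))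
        = c2 * ((1 / (4 * cd) * (ca * (4 * (L:ℝ)) ^ (-(5/4 : ℝ)) * (m:ℝ) ^ (-(5/4 : ℝ)))) / 2) := by
          ring
      _ ≤ c2 * (T β p / 2) := by
          apply mul_le_mul_of_nonneg_left _ hc2.le
          linarith
  rcases le_total (T false pf) (T true pt) with hle | hle
  · refine ⟨true, fin true pt hpt ?_⟩
    have h3 : cd * T false pf ≤ cd * T true pt := mul_le_mul_of_nonneg_left hle hcd0.le
    have h5 := ha0 (4 * L * m)
    nlinarith [mul_nonneg hcd0.le (hT0 true pt)]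
  · refine ⟨false, fin false pf hpf ?_⟩
    have h3 : cd * T true pt ≤ cd * T false pf := mul_le_mul_of_nonneg_left hle hcd0.le
    have h5 := ha0 (4 * L * m)
    nlinarith [mul_nonneg hcd0.le (hT0 false pf)]

end Pool.Agent.H953
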