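import Pool.Agent.H953.PivLow
import Pool.Agent.H953.PlusS
import Pool.Graph.R_seed8.Y554.NC.Theta

/-!
Lower bound for the derivative of the one-arm probability above the critical point.
-/

set_option maxHeartbeats 1000000

namespace Pool.Agent.H953

open H974 Finset H12S

/-- The arm to distance `n` splits at distance `r`. -/
theorem arm_X {q : ℝ} {r n : ℕ} (hr : r ≤ n) :
    arm q n ≤ arm q r * Pr (fun _ => q) (boxE n) (XArm r n) ∨ q < 0 ∨ 1 < q := by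
  by_cases h0 : 0 ≤ q
  · by_cases h1 : q ≤ 1
    · left
      have ok := okq h0 h1
      have hsub : boxE r ⊆ boxE n := boxE_mono hr
      have m : arm q n ≤ Pr (fun _ => q) (boxE n) (fun F => Arm r F ∧ XArm r n F) := by
        apply Pr_mono ok
        rintro F hF ⟨w, hw, h⟩
        have hr' : (r:ℤ) ≤ n := by exact_mod_cast hr
        refine ⟨?_, ?_⟩
        · obtain ⟨z, k1, k2, k3⟩ := first_exit (a := -r) (b := r) (c := -r) (d := r)
            (by unfold inR; simp) h (by unfold onB at hw; omega)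
          refine ⟨z, ⟨k1, k2⟩, k3.mono ?_⟩
          rintro g ⟨⟨k4, -⟩, k5⟩
          exact ⟨k4, k5⟩
        · obtain ⟨z, k1, k2, k3⟩ := first_entry (a := -r) (b := r) (c := -r) (d := r)
            (w := w) (v := (0, 0)) (by unfold onB inR at hw; unfold inR; omega) h.symm
            (by unfold inR; simp)
          refine ⟨z, w, ⟨k1, k2⟩, hw, k3.symm.mono ?_⟩
          rintro g ⟨⟨k4, k5⟩, k6⟩
          refine ⟨k4, ?_⟩
          rw [Finset.mem_coe, Finset.mem_sdiff]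
          exact ⟨k5, fun h => k6 (Finset.mem_coe.mpr h)⟩
      have i1 := Pr_indep (p := fun _ : Edg => q) hsub (Finset.sdiff_subset : boxE n \ boxE r ⊆ boxE n)
        Finset.disjoint_sdiff (A := Arm r) (B := XArm r n)
        (fun F _ => Arm_local (Finset.Subset.refl _)) (fun F _ => XArm_local (Finset.Subset.refl _))
      rw [i1, pr_Arm q hsub] at m
      exact m
    · right; right; linarith
  · right; left; linarith

/-- The sum of the pivotal probabilities over a far box. -/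
theorem dArm_ge {q : ℝ} (h0 : 0 ≤ q) (h1 : q ≤ 1) {w N n : ℕ} (β : Bool) (hn : 32 * N ≤ n)
    (hwN : w ≤ N) {x : ℝ}
    (h : ∀ c : ℤ × ℤ, 0 ≤ c.1 → c.1 < w → 12 * (N:ℤ) ≤ c.2 → c.2 < 12 * N + w →
      x ≤ Pr (fun _ => q) ((boxE n).erase (c.1, c.2, β)) (PivA n (c.1, c.2, β))) :
    (w:ℝ) ^ 2 * x ≤ H31K.dArm q n := by
  have ok := okq h0 h1
  unfold H31K.dArm
  obtain ⟨T, hT⟩ : ∃ T : Finset Edg, T = (range w ×ˢ range w).image
    (fun t : ℕ × ℕ => ((t.1 : ℤ), (12 * (N:ℤ) + t.2, β))) := ⟨_, rfl⟩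
  have hcard : T.card = w * w := by
    rw [hT, Finset.card_image_of_injective, Finset.card_product, Finset.card_range]
    rintro ⟨a, b⟩ ⟨a', b'⟩ hab
    simp only [Prod.mk.injEq] at hab ⊢
    omega
  have hsub : T ⊆ boxE n := by
    intro e he
    rw [hT, Finset.mem_image] at he
    obtain ⟨⟨a, b⟩, hab, rfl⟩ := he
    rw [Finset.mem_product, Finset.mem_range, Finset.mem_range] at hab
    simp only at hab
    unfold boxE
    cases β
    · rw [mem_RE_false]; simp only; omega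
    · rw [mem_RE_true]; simp only; omega
  calc (w:ℝ) ^ 2 * x = ∑ _e ∈ T, x := by
        rw [Finset.sum_const, nsmul_eq_mul, hcard]; push_cast; ring
    _ ≤ ∑ e ∈ T, Pr (fun _ => q) ((boxE n).erase e) (PivA n e) := by
        apply Finset.sum_le_sum
        intro e he
        rw [hT, Finset.mem_image] at he
        obtain ⟨⟨a, b⟩, hab, rfl⟩ := he
        rw [Finset.mem_product, Finset.mem_range, Finset.mem_range] at hab
        simp only at hab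
        exact h ((a:ℤ), 12 * (N:ℤ) + b) (by simp only; omega) (by simp only; omega)
          (by simp only; omega) (by simp only; omega)
    _ ≤ _ := Finset.sum_le_sum_of_subset_of_nonneg hsub (fun e _ _ => Pr_nonneg ok _ _)

/-- Lower bound for the derivative close to the critical point. -/
theorem dlow : ∃ c h : ℝ, 0 < c ∧ 0 < h ∧ ∀ p : unitInterval, (1/2 : ℝ) < p → (p:ℝ) ≤ 1/2 + h →
    ∃ n0 : ℕ, ∀ n : ℕ, n0 ≤ n → c * ((p:ℝ) - 1/2) ^ (-(31/36) : ℝ) ≤ H31K.dArm p n := by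
  obtain ⟨L, M2, Mr, κ, b0, cp, C, hL, hM2, hMr, hκ, hb0, hcp, -, hplus⟩ := plusS
  obtain ⟨κ1, b1, hκ1, hb1, harm⟩ := Pool.Agent.W424.NC.armS
  obtain ⟨cc, Cc, hcc, hCc, hcrit⟩ := Pool.Agent.W424.NC.arm_crit
  obtain ⟨ct, hct, hth⟩ := Pool.Agent.Y554.NC.theta_lower'
  obtain ⟨b, hbd⟩ : ∃ b : ℝ, b = min b0 b1 := ⟨_, rfl⟩
  have hb : 0 < b := by rw [hbd]; exact lt_min hb0 hb1
  have hbb0 : b ≤ b0 := by rw [hbd]; exact min_le_left _ _
  have hbb1 : b ≤ b1 := by rw [hbd]; exact min_le_right _ _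
  obtain ⟨Q, hQ⟩ : ∃ Q : ℕ, Q = 256 * L * M2 := ⟨_, rfl⟩
  have hQpos : 0 < Q := by rw [hQ]; positivity
  have hQr : (0:ℝ) < Q := by exact_mod_cast hQpos
  have hLr : (0:ℝ) < L := by
    have : 0 < L := by omega
    exact_mod_cast this
  -- the constants
  obtain ⟨K, hK⟩ : ∃ K : ℝ, K = (((κ ^ (2 * (16 * L) + 1) * κ) * (κ * κ ^ (2 * (16 * L) + 1))) *
      κ ^ 4) * κ ^ 4 * (((κ * κ) * (κ ^ (2 * (16 * L) + 1) * κ ^ (2 * (16 * L) + 1))) *
        ((κ * κ) * κ)) := ⟨_, rfl⟩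
  have hK0 : 0 < K := by rw [hK]; positivity
  obtain ⟨cx, hcx⟩ : ∃ cx : ℝ, cx = ct / (3 * Cc * (4 * b ^ (-(4/3) : ℝ)) ^ (5/48 : ℝ)) := ⟨_, rfl⟩
  have hcx0 : 0 < cx := by rw [hcx]; positivity
  obtain ⟨cf, hcf⟩ : ∃ cf : ℝ, cf = cp * (cc / 3 * (128 * (L:ℝ)) ^ (-(5/48) : ℝ)) * K * cx *
      ((1 / (2 * (512 * (L:ℝ)))) * b ^ (4/3 : ℝ)) ^ (31/48 : ℝ) := ⟨_, rfl⟩
  have hcf0 : 0 < cf := by rw [hcf]; positivity
  refine ⟨cf, b * ((2 * (Q * Mr) : ℕ) : ℝ) ^ (-(3/4) : ℝ), hcf0, ?_, ?_⟩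
  · have : (0:ℝ) < ((2 * (Q * Mr) : ℕ) : ℝ) := by
      have : 0 < 2 * (Q * Mr) := by positivity
      exact_mod_cast this
    positivity
  intro p hp hp2
  obtain ⟨s, hs⟩ : ∃ s : ℝ, s = (p:ℝ) - 1/2 := ⟨_, rfl⟩
  rw [← hs]
  have hs0 : 0 < s := by rw [hs]; linarith
  have hQM : 0 < 2 * (Q * Mr) := by positivity
  have hQMr : (0:ℝ) < ((2 * (Q * Mr) : ℕ) : ℝ) := by exact_mod_cast hQM
  have hsh : s ≤ b * ((2 * (Q * Mr) : ℕ) : ℝ) ^ (-(3/4) : ℝ) := by rw [hs]; linarith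
  have hsb : s ≤ b := by
    refine hsh.trans ?_
    have : ((2 * (Q * Mr) : ℕ) : ℝ) ^ (-(3/4) : ℝ) ≤ 1 :=
      Real.rpow_le_one_of_one_le_of_nonpos (by exact_mod_cast hQM) (by norm_num)
    nlinarith
  obtain ⟨M, hM1, hM2', hM3, hM4⟩ := Pool.Agent.Y554.NC.scale_exists hb hs0 hsb
  have hM0 : (0:ℝ) < M := by exact_mod_cast hM1
  -- `M` is large
  have hbig : ((2 * (Q * Mr) : ℕ) : ℝ) ≤ (b / s) ^ (4/3 : ℝ) := by
    have h1 : ((2 * (Q * Mr) : ℕ) : ℝ) ^ (3/4 : ℝ) ≤ b / s := by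
      rw [le_div_iff₀ hs0]
      have h2 : ((2 * (Q * Mr) : ℕ) : ℝ) ^ (3/4 : ℝ) * ((2 * (Q * Mr) : ℕ) : ℝ) ^ (-(3/4) : ℝ) = 1 := by
        rw [← Real.rpow_add hQMr]; norm_num
      calc ((2 * (Q * Mr) : ℕ) : ℝ) ^ (3/4 : ℝ) * s
          ≤ ((2 * (Q * Mr) : ℕ) : ℝ) ^ (3/4 : ℝ) * (b * ((2 * (Q * Mr) : ℕ) : ℝ) ^ (-(3/4) : ℝ)) :=
            mul_le_mul_of_nonneg_left hsh (by positivity)
        _ = b * (((2 * (Q * Mr) : ℕ) : ℝ) ^ (3/4 : ℝ) * ((2 * (Q * Mr) : ℕ) : ℝ) ^ (-(3/4) : ℝ)) := by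
            ring
        _ = b := by rw [h2, mul_one]
    have h3 := Real.rpow_le_rpow (by positivity) h1 (by norm_num : (0:ℝ) ≤ 4/3)
    rw [← Real.rpow_mul hQMr.le] at h3
    norm_num at h3
    push_cast
    convert h3 using 1
  have hMQ : Q * Mr ≤ M := by
    have h1 : ((2 * (Q * Mr) : ℕ) : ℝ) ≤ ((2 * M : ℕ) : ℝ) := by
      refine hbig.trans ?_
      push_cast
      exact hM4
    have h2 : 2 * (Q * Mr) ≤ 2 * M := by exact_mod_cast h1
    omega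
  obtain ⟨r, hr⟩ : ∃ r : ℕ, r = M / Q := ⟨_, rfl⟩
  have hrMr : Mr ≤ r := by
    rw [hr, Nat.le_div_iff_mul_le hQpos]
    rwa [mul_comm]
  have hrQ : r * Q ≤ M := by rw [hr]; exact Nat.div_mul_le_self M Q
  have hMr2 : M < 2 * (r * Q) := by
    have h1 : M < Q * (r + 1) := by
      rw [hr]
      exact Nat.lt_mul_div_succ M hQpos
    have h2 : Q ≤ r * Q := Nat.le_mul_of_pos_left _ (by omega)
    nlinarith
  obtain ⟨w, hw⟩ : ∃ w : ℕ, w = M2 * r := ⟨_, rfl⟩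
  have hwpos : 1 ≤ w := by rw [hw]; exact Nat.mul_pos (by omega) (by omega)
  have hrQw : r * Q = 256 * L * w := by rw [hQ, hw]; ring
  obtain ⟨N, hN⟩ : ∃ N : ℕ, N = 16 * L * w := ⟨_, rfl⟩
  have h16N : 16 * N = 256 * L * w := by rw [hN]; ring
  have h16M : 16 * N ≤ M := by omega
  have hM16 : M < 2 * (16 * N) := by omega
  have hwr : (1:ℝ) ≤ w := by exact_mod_cast hwpos
  have hw0 : (0:ℝ) < w := by linarith
  have hLw : w ≤ L * w := Nat.le_mul_of_pos_left _ (by omega)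
  have hLw2 : 2 * w ≤ L * w := Nat.mul_le_mul_right w hL
  have hNpos : 1 ≤ N := by
    have : N = 16 * (L * w) := by rw [hN]; ring
    omega
  have hN0 : (0:ℝ) < N := by exact_mod_cast hNpos
  -- windows
  have hqM : |(p:ℝ) - 1/2| ≤ b * (M:ℝ) ^ (-(3/4) : ℝ) := by
    rw [← hs, abs_of_pos hs0]; exact hM2'
  have win : ∀ k : ℕ, 1 ≤ k → k ≤ M → ∀ b' : ℝ, b ≤ b' →
      |(p:ℝ) - 1/2| ≤ b' * (k:ℝ) ^ (-(3/4) : ℝ) := by
    intro k hk1 hkM b' hbb'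
    refine hqM.trans ?_
    have hk0 : (0:ℝ) < k := by exact_mod_cast hk1
    have h1 : (M:ℝ) ^ (-(3/4) : ℝ) ≤ (k:ℝ) ^ (-(3/4) : ℝ) :=
      Real.rpow_le_rpow_of_nonpos hk0 (by exact_mod_cast hkM) (by norm_num)
    exact mul_le_mul hbb' h1 (by positivity) (by linarith)
  obtain ⟨hW, -, hpl⟩ := hplus (16 * N) (by omega) p (win (16 * N) (by omega) h16M b0 hbb0)
  obtain ⟨β, hβ⟩ := hpl r w hrMr hw (by
    have : 16 * L * w = N := hN.symm
    omega)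
  have e16 : 16 * L * w = N := hN.symm
  rw [e16] at hβ
  refine ⟨32 * N, fun n hn => ?_⟩
  have hp0 : (0:ℝ) ≤ p := p.2.1
  have hp1 : (p:ℝ) ≤ 1 := p.2.2
  -- the one-arm probability at scale `8 N`
  have a8 : cc / 3 * (128 * (L:ℝ)) ^ (-(5/48) : ℝ) * (w:ℝ) ^ (-(5/48) : ℝ) ≤ arm p (8 * N) := by
    obtain ⟨-, -, h2⟩ := harm (8 * N) (by omega) p (win (8 * N) (by omega) (by omega) b1 hbb1)
    have h3 := (hcrit (8 * N) (by omega)).1
    have e : (((8 * N : ℕ) : ℝ)) = 128 * (L:ℝ) * w := by rw [hN]; push_cast; ring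
    rw [e, Real.mul_rpow (by positivity) hw0.le] at h3
    nlinarith
  -- the crossing from scale `16 N`
  have x16 : cx ≤ Pr (fun _ => (p:ℝ)) (boxE n) (XArm (16 * N) n) := by
    obtain ⟨-, h1, -⟩ := harm (16 * N) (by omega) p (win (16 * N) (by omega) h16M b1 hbb1)
    have h3 := (hcrit (16 * N) (by omega)).2
    have h4 := (hth p hp).trans (theta_le_arm p n)
    rw [← hs] at h4
    have h5 : arm p n ≤ arm p (16 * N) * Pr (fun _ => (p:ℝ)) (boxE n) (XArm (16 * N) n) := by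
      rcases arm_X (q := (p:ℝ)) (show 16 * N ≤ n by omega) with h | h | h
      · exact h
      · linarith
      · linarith
    have hP0 : 0 ≤ Pr (fun _ => (p:ℝ)) (boxE n) (XArm (16 * N) n) := Pr_nonneg (okq hp0 hp1) _ _
    -- the scale
    have h6 : (((16 * N : ℕ) : ℝ)) ^ (-(5/48) : ℝ) ≤ (4 * b ^ (-(4/3) : ℝ)) ^ (5/48 : ℝ) *
        s ^ (5/36 : ℝ) := by
      have h7 : (1/4 : ℝ) * (b / s) ^ (4/3 : ℝ) ≤ ((16 * N : ℕ) : ℝ) := by
        have : (M:ℝ) ≤ 2 * ((16 * N : ℕ) : ℝ) := by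
          have : M ≤ 2 * (16 * N) := hM16.le
          exact_mod_cast this
        linarith
      have h8 : (0:ℝ) < (1/4 : ℝ) * (b / s) ^ (4/3 : ℝ) := by positivity
      have h9 := Real.rpow_le_rpow_of_nonpos h8 h7 (by norm_num : (-(5/48) : ℝ) ≤ 0)
      refine h9.trans (le_of_eq ?_)
      have e1 : (1/4 : ℝ) * (b / s) ^ (4/3 : ℝ) = (4 * b ^ (-(4/3) : ℝ) * s ^ (4/3 : ℝ))⁻¹ := by
        rw [Real.div_rpow hb.le hs0.le, Real.rpow_neg hb.le]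
        field_simp
      rw [e1, Real.inv_rpow (by positivity), ← Real.rpow_neg (by positivity), neg_neg,
        Real.mul_rpow (by positivity) (by positivity), ← Real.rpow_mul hs0.le]
      norm_num
    have h10 : arm p (16 * N) ≤ 3 * Cc * (4 * b ^ (-(4/3) : ℝ)) ^ (5/48 : ℝ) * s ^ (5/36 : ℝ) := by
      calc arm p (16 * N) ≤ 3 * (Cc * (((16 * N : ℕ) : ℝ)) ^ (-(5/48) : ℝ)) := by linarith
        _ ≤ 3 * (Cc * ((4 * b ^ (-(4/3) : ℝ)) ^ (5/48 : ℝ) * s ^ (5/36 : ℝ))) := by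
            apply mul_le_mul_of_nonneg_left _ (by norm_num)
            exact mul_le_mul_of_nonneg_left h6 hCc.le
        _ = _ := by ring
    have h11 := h4.trans (h5.trans (mul_le_mul_of_nonneg_right h10 hP0))
    have hs36 : 0 < s ^ (5/36 : ℝ) := by positivity
    rw [hcx, div_le_iff₀ (by positivity)]
    have h12 : ct * s ^ (5/36 : ℝ) ≤ (Pr (fun _ => (p:ℝ)) (boxE n) (XArm (16 * N) n) *
        (3 * Cc * (4 * b ^ (-(4/3) : ℝ)) ^ (5/48 : ℝ))) * s ^ (5/36 : ℝ) := by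
      calc ct * s ^ (5/36 : ℝ) ≤ _ := h11
        _ = _ := by ring
    exact le_of_mul_le_mul_right h12 hs36
  -- the bound for one edge
  have one : ∀ c : ℤ × ℤ, 0 ≤ c.1 → c.1 < w → 12 * (N:ℤ) ≤ c.2 → c.2 < 12 * N + w →
      (cp * (w:ℝ) ^ (-(5/4) : ℝ)) * ((cc / 3 * (128 * (L:ℝ)) ^ (-(5/48) : ℝ) *
        (w:ℝ) ^ (-(5/48) : ℝ)) * cx * K) ≤
      Pr (fun _ => (p:ℝ)) ((boxE n).erase (c.1, c.2, β)) (PivA n (c.1, c.2, β)) := by
    intro c g1 g2 g3 g4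
    have H : Geo (4 * L * w) w N n c := by
      refine ⟨hwpos, ?_, ?_, g1, g2.le, g3, g4.le, hn⟩
      · have : 4 * L * w = 4 * (L * w) := by ring
        omega
      · have e1 : 4 * L * w = 4 * (L * w) := by ring
        have e2 : N = 16 * (L * w) := by rw [hN]; ring
        omega
    have h1 := piv_low hW H (L := L) hN β
    refine le_trans ?_ h1
    have hP0 : 0 ≤ Pr (fun _ => (p:ℝ)) (boxE n) (XArm (16 * N) n) := Pr_nonneg (okq hp0 hp1) _ _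
    have hA0 : 0 ≤ arm p (8 * N) := arm_nonneg hp0 hp1 _
    apply mul_le_mul hβ _ (by positivity) (Pr_nonneg (okq hp0 hp1) _ _)
    have h2 : (cc / 3 * (128 * (L:ℝ)) ^ (-(5/48) : ℝ) * (w:ℝ) ^ (-(5/48) : ℝ)) * cx ≤
        arm p (8 * N) * Pr (fun _ => (p:ℝ)) (boxE n) (XArm (16 * N) n) :=
      mul_le_mul a8 x16 hcx0.le hA0
    calc (cc / 3 * (128 * (L:ℝ)) ^ (-(5/48) : ℝ) * (w:ℝ) ^ (-(5/48) : ℝ)) * cx * K
        ≤ (arm p (8 * N) * Pr (fun _ => (p:ℝ)) (boxE n) (XArm (16 * N) n)) * K :=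
          mul_le_mul_of_nonneg_right h2 hK0.le
      _ = _ := by rw [hK]; ring
  have hsum := dArm_ge hp0 hp1 β hn (by
    have : N = 16 * (L * w) := by rw [hN]; ring
    omega) one
  refine le_trans ?_ hsum
  -- arithmetic
  have hwpow : (w:ℝ) ^ 2 * ((cp * (w:ℝ) ^ (-(5/4) : ℝ)) * ((cc / 3 * (128 * (L:ℝ)) ^ (-(5/48) : ℝ) *
        (w:ℝ) ^ (-(5/48) : ℝ)) * cx * K)) =
      cp * (cc / 3 * (128 * (L:ℝ)) ^ (-(5/48) : ℝ)) * K * cx * (w:ℝ) ^ (31/48 : ℝ) := by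
    have e1 : (w:ℝ) ^ (31/48 : ℝ) = (w:ℝ) ^ 2 * (w:ℝ) ^ (-(5/4) : ℝ) * (w:ℝ) ^ (-(5/48) : ℝ) := by
      rw [← Real.rpow_natCast (w:ℝ) 2, ← Real.rpow_add hw0, ← Real.rpow_add hw0]
      norm_num
    rw [e1]
    ring
  rw [hwpow, hcf]
  have hw2 : (1 / (2 * (512 * (L:ℝ)))) * b ^ (4/3 : ℝ) * s ^ (-(4/3) : ℝ) ≤ w := by
    have h1 : (M:ℝ) ≤ 512 * (L:ℝ) * w := by
      have h2 : M ≤ 2 * (256 * L * w) := by omega
      have h3 : (M:ℝ) ≤ ((2 * (256 * L * w) : ℕ) : ℝ) := by exact_mod_cast h2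
      push_cast at h3
      linarith
    have h2 : b ^ (4/3 : ℝ) * s ^ (-(4/3) : ℝ) ≤ 2 * M := by
      have e : b ^ (4/3 : ℝ) * s ^ (-(4/3) : ℝ) = (b / s) ^ (4/3 : ℝ) := by
        rw [Real.div_rpow hb.le hs0.le, Real.rpow_neg hs0.le]
        exact (div_eq_mul_inv _ _).symm
      rw [e]; exact hM4
    rw [mul_assoc, one_div, inv_mul_le_iff₀ (by positivity)]
    nlinarith
  have h3 := Real.rpow_le_rpow (by positivity) hw2 (by norm_num : (0:ℝ) ≤ 31/48)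
  rw [Real.mul_rpow (by positivity) (by positivity), ← Real.rpow_mul hs0.le] at h3
  have e3 : (-(4/3) : ℝ) * (31/48) = -(31/36) := by norm_num
  rw [e3] at h3
  calc cp * (cc / 3 * (128 * (L:ℝ)) ^ (-(5/48) : ℝ)) * K * cx *
      ((1 / (2 * (512 * (L:ℝ)))) * b ^ (4/3 : ℝ)) ^ (31/48 : ℝ) * s ^ (-(31/36) : ℝ)
      = cp * (cc / 3 * (128 * (L:ℝ)) ^ (-(5/48) : ℝ)) * K * cx *
        (((1 / (2 * (512 * (L:ℝ)))) * b ^ (4/3 : ℝ)) ^ (31/48 : ℝ) * s ^ (-(31/36) : ℝ)) := by ring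
    _ ≤ _ := mul_le_mul_of_nonneg_left h3 (by positivity)

end Pool.Agent.H953
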