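import Pool.Graph.R_pool_sql_team_seeded_3dad9d7b.NH39.W.Key

/-!
Abstract induction over the scales, with a marked point which carries another weight.
-/

set_option autoImplicit false
set_option linter.unusedSectionVars false
set_option maxHeartbeats 1000000

namespace Pool.Agent.H953.K1

open H974 Finset
open Pool.Agent.NH39.W (psi dm conn kstp kcmp kcmp_sub mem_kcmp self_kcmp kcmp_step kcmp_far
  kcmp_ind dm_le_of' ds_le_dm' dm_mono')

/-! ### the setup -/

/-- The hypotheses. -/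
structure KS {E : Type} [DecidableEq E] [Fintype E] (ds : E → E → ℕ) (N : ℕ) (q : ℝ)
    (w v : ℕ → ℝ) (o : E) (Ds : Finset E → Finset E → Prop) (C W : ℝ) : Prop where
  d0 : ∀ a, ds a a = 0
  dc : ∀ a b, ds a b = ds b a
  dt : ∀ a b c, ds a c ≤ ds a b + ds b c
  hN : 1 ≤ N
  q0 : 0 ≤ q
  q1 : q ≤ 1
  w1 : w 1 = 1
  wp : ∀ r, 1 ≤ r → 0 < w r
  wm : ∀ r s, 1 ≤ r → r ≤ s → w s ≤ w r
  wd : ∀ r s, 1 ≤ r → r ≤ s → s ≤ 8 * r → w r ≤ W * w s
  v1 : v 1 = 1
  vp : ∀ r, 1 ≤ r → 0 < v r
  vm : ∀ r s, 1 ≤ r → r ≤ s → v s ≤ v r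
  vd : ∀ r s, 1 ≤ r → r ≤ s → s ≤ 8 * r → v r ≤ W * v s
  wv : ∀ r s, 1 ≤ r → r ≤ s → w s * v r ≤ w r * v s
  annF : ∀ (x : E) (r D : ℕ), 1 ≤ r → r ≤ D → D ≤ N → ∃ Ch : Finset E → Prop,
      (∀ F F' : Finset E, (∀ e, r ≤ ds e x → ds e x ≤ D → (e ∈ F ↔ e ∈ F')) → (Ch F ↔ Ch F')) ∧
      (∀ S F : Finset E, o ∈ S → x ∈ S → (∀ y ∈ S, ds y x < r ∨ D < ds y x) → D < ds o x →
        Ds S F → Ch F) ∧
      Pr (fun _ => q) Finset.univ Ch ≤ C * (w D / w r)
  annO : ∀ (r D : ℕ), 1 ≤ r → r ≤ D → D ≤ N → ∃ Ch : Finset E → Prop,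
      (∀ F F' : Finset E, (∀ e, r ≤ ds e o → ds e o ≤ D → (e ∈ F ↔ e ∈ F')) → (Ch F ↔ Ch F')) ∧
      (∀ S F : Finset E, o ∈ S → (∀ y ∈ S, ds y o < r ∨ D < ds y o) → Ds S F → Ch F) ∧
      Pr (fun _ => q) Finset.univ Ch ≤ C * (v D / v r)
  hC : 1 ≤ C
  hW : 1 ≤ W

/-- The weight of a component. -/
noncomputable def om {E : Type} [DecidableEq E] (w v : ℕ → ℝ) (N : ℕ) (o : E) (S : Finset E)
    (s : ℕ) : ℝ := if o ∈ S then psi v N s else psi w N s

/-- `Gd t τ s k S x`: there are an event and a tree on `S` with root `x`. -/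
def Gd {E : Type} [DecidableEq E] [Fintype E] (ds : E → E → ℕ) (N : ℕ) (q : ℝ)
    (w v : ℕ → ℝ) (o : E) (Ds : Finset E → Finset E → Prop) (a : ℝ) (t τ s k : ℕ)
    (S : Finset E) (x : E) : Prop :=
  ∃ (Ev : Finset E → Prop) (par : E → E) (rk : E → ℕ),
    (∀ F F' : Finset E, (∀ e, (∃ v ∈ S, ds e v ≤ t / 2) → (e ∈ F ↔ e ∈ F')) → (Ev F ↔ Ev F')) ∧
    (∀ S' : Finset E, S ⊆ S' → o ∈ S' → (∀ v ∈ S, ∀ w ∈ S' \ S, t < ds v w) →
      ∀ F : Finset E, Ds S' F → Ev F) ∧
    (∀ y ∈ S, y ≠ x → par y ∈ S ∧ rk (par y) < rk y ∧ ds y (par y) ≤ τ) ∧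
    Pr (fun _ => q) Finset.univ Ev ≤
      a ^ k * (∏ y ∈ S.erase x, psi w N (ds y (par y))) * om w v N o S s

section
variable {E : Type} [DecidableEq E] [Fintype E] {ds : E → E → ℕ} {N : ℕ} {q : ℝ}
  {w v : ℕ → ℝ} {o : E} {Ds : Finset E → Finset E → Prop} {C W a : ℝ}

theorem KS.ok (H : KS ds N q w v o Ds C W) : Ok (fun _ : E => q) := fun _ => ⟨H.q0, H.q1⟩

theorem KS.ppos (H : KS ds N q w v o Ds C W) (s : ℕ) : 0 < psi w N s :=
  H.wp _ (le_max_left _ _)

theorem KS.opos (H : KS ds N q w v o Ds C W) (S : Finset E) (s : ℕ) : 0 < om w v N o S s := by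
  unfold om
  split_ifs
  · exact H.vp _ (le_max_left _ _)
  · exact H.wp _ (le_max_left _ _)

theorem KS.panti (H : KS ds N q w v o Ds C W) {s s' : ℕ} (h : s ≤ s') :
    psi w N s' ≤ psi w N s := by
  unfold psi
  exact H.wm _ _ (le_max_left _ _) (max_le_max le_rfl (min_le_min h le_rfl))

theorem KS.oanti (H : KS ds N q w v o Ds C W) (S : Finset E) {s s' : ℕ} (h : s ≤ s') :
    om w v N o S s' ≤ om w v N o S s := by
  unfold om
  split_ifs
  · exact H.vm _ _ (le_max_left _ _) (max_le_max le_rfl (min_le_min h le_rfl))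
  · exact H.panti h

theorem KS.pdbl (H : KS ds N q w v o Ds C W) {s s' : ℕ} (h : s ≤ s') (h2 : s' ≤ 8 * max 1 s) :
    psi w N s ≤ W * psi w N s' := by
  unfold psi
  have := H.hN
  exact H.wd _ _ (le_max_left _ _) (max_le_max le_rfl (min_le_min h le_rfl)) (by omega)

theorem KS.odbl (H : KS ds N q w v o Ds C W) (S : Finset E) {s s' : ℕ} (h : s ≤ s')
    (h2 : s' ≤ 8 * max 1 s) : om w v N o S s ≤ W * om w v N o S s' := by
  unfold om
  split_ifs
  · have := H.hN
    exact H.vd _ _ (le_max_left _ _) (max_le_max le_rfl (min_le_min h le_rfl)) (by omega)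
  · exact H.pdbl h h2

theorem KS.pzero (H : KS ds N q w v o Ds C W) : psi w N 0 = 1 := by
  unfold psi
  simp [H.w1]

theorem KS.pmid (_H : KS ds N q w v o Ds C W) {f : ℕ → ℝ} {s : ℕ} (h1 : 1 ≤ s) (h2 : s ≤ N) :
    psi f N s = f s := by
  unfold psi
  rw [min_eq_left h2, max_eq_right h1]

theorem dm_union' (H : KS ds N q w v o Ds C W) {U R : Finset E} {b u : E} {t : ℕ} (hu : u ∈ U)
    (hb : b ∈ R) (hbu : ds b u ≤ t + 1) : dm ds (U ∪ R) ≤ dm ds U + (t + 1) + dm ds R := by
  have key : ∀ v ∈ U, ∀ w ∈ R, ds v w ≤ dm ds U + (t + 1) + dm ds R := by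
    intro v hv w hw
    have h1 := H.dt v u w
    have h2 := H.dt u b w
    have h3 := ds_le_dm' (ds := ds) hv hu
    have h4 := ds_le_dm' (ds := ds) hb hw
    rw [H.dc u b] at h2
    omega
  apply dm_le_of'
  intro v hv w hw
  rw [mem_union] at hv hw
  rcases hv with hv | hv <;> rcases hw with hw | hw
  · exact (ds_le_dm' hv hw).trans (by omega)
  · exact key v hv w hw
  · rw [H.dc]
    exact key w hw v hv
  · exact (ds_le_dm' hv hw).trans (by omega)

theorem KS.prod_nn (H : KS ds N q w v o Ds C W) (ha : 1 ≤ a) (k : ℕ) (S : Finset E)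
    (f : E → ℕ) : 0 ≤ a ^ k * ∏ y ∈ S, psi w N (f y) :=
  mul_nonneg (pow_nonneg (by linarith) _) (Finset.prod_nonneg fun y _ => (H.ppos _).le)

/-- monotonicity -/
theorem gd_mono (H : KS ds N q w v o Ds C W) {t τ τ' s s' k k' : ℕ} {S : Finset E}
    {x : E} (h : Gd ds N q w v o Ds a t τ s k S x) (hτ : τ ≤ τ') (hs : s' ≤ s)
    (hk : k ≤ k') (ha : 1 ≤ a) : Gd ds N q w v o Ds a t τ' s' k' S x := by
  obtain ⟨Ev, par, rk, h1, h2, h3, h4⟩ := h
  refine ⟨Ev, par, rk, h1, h2, fun y hy hx => ?_, h4.trans ?_⟩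
  · obtain ⟨e1, e2, e3⟩ := h3 y hy hx
    exact ⟨e1, e2, e3.trans hτ⟩
  · refine mul_le_mul ?_ (H.oanti S hs) (H.opos _ _).le (H.prod_nn ha _ _ _)
    refine mul_le_mul_of_nonneg_right ?_ (Finset.prod_nonneg fun _ _ => (H.ppos _).le)
    exact pow_le_pow_right₀ ha hk

/-- comparison of the bounds -/
theorem KS.step (H : KS ds N q w v o Ds C W) {P : ℝ} {k : ℕ} {S : Finset E} {f : E → ℕ}
    {A B : ℝ} (ha : 1 ≤ a) (h : P ≤ a ^ k * (∏ y ∈ S, psi w N (f y)) * A)
    (h2 : A ≤ a * B) :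
    P ≤ a ^ (k + 1) * (∏ y ∈ S, psi w N (f y)) * B := by
  refine h.trans ?_
  calc a ^ k * (∏ y ∈ S, psi w N (f y)) * A
      ≤ a ^ k * (∏ y ∈ S, psi w N (f y)) * (a * B) :=
        mul_le_mul_of_nonneg_left h2 (H.prod_nn ha _ _ _)
    _ = _ := by rw [pow_succ]; ring

/-- BASE -/
theorem gd_base (H : KS ds N q w v o Ds C W) (ha : C * W ^ 2 ≤ a) {t' : ℕ} {S : Finset E} {x : E}
    (ht' : t' ≤ N) (hx : x ∈ S) (hxo : o ∈ S → x = o) (hall : ∀ y ∈ S, ds y x = 0) :
    Gd ds N q w v o Ds a t' 0 (max t' (dm ds S)) 1 S x := by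
  have hC := H.hC
  have hW := H.hW
  have hdm : dm ds S = 0 := by
    apply Nat.le_zero.mp
    apply dm_le_of'
    intro u hu v hv
    have h1 := H.dt u x v
    rw [H.dc x v, hall u hu, hall v hv] at h1
    exact h1
  rw [hdm, max_eq_left (Nat.zero_le _)]
  have hprod : ∏ y ∈ S.erase x, psi w N (ds y ((fun _ => x) y)) = 1 := by
    refine Finset.prod_eq_one fun y hy => ?_
    simp only [hall y (Finset.mem_of_mem_erase hy)]
    exact H.pzero
  have htree : ∀ y ∈ S, y ≠ x → (fun _ => x) y ∈ S ∧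
      (fun y => if y = x then 0 else 1) ((fun _ => x) y) < (fun y => if y = x then 0 else 1) y ∧
      ds y ((fun _ => x) y) ≤ 0 := by
    intro y hy hyx
    refine ⟨hx, ?_, (hall y hy).le⟩
    simp [hyx]
  by_cases hD : 1 ≤ t' / 2
  · -- one annulus
    have fin : ∀ (f : ℕ → ℝ), f 1 = 1 → (∀ r, 1 ≤ r → 0 < f r) →
        (∀ r s, 1 ≤ r → r ≤ s → s ≤ 8 * r → f r ≤ W * f s) → ∀ P : ℝ,
        P ≤ C * (f (t' / 2) / f 1) → P ≤ a * f t' := by
      intro f f1 fp fd P hP
      rw [f1, div_one] at hP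
      have h1 : f (t' / 2) ≤ W * f t' := fd _ _ hD (by omega) (by omega)
      have h2 := fp t' (by omega)
      calc P ≤ C * f (t' / 2) := hP
        _ ≤ C * (W * f t') := mul_le_mul_of_nonneg_left h1 (by linarith)
        _ = (C * W) * f t' := by ring
        _ ≤ a * f t' := by
            refine mul_le_mul_of_nonneg_right (le_trans ?_ ha) h2.le
            have : W ≤ W ^ 2 := by nlinarith
            exact mul_le_mul_of_nonneg_left this (by linarith)
    by_cases hoS : o ∈ S
    · have hxo' := hxo hoS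
      obtain ⟨Ch, hloc, himp, hpr⟩ := H.annO 1 (t' / 2) le_rfl hD (by omega)
      refine ⟨Ch, fun _ => x, fun y => if y = x then 0 else 1, ?_, ?_, htree, ?_⟩
      · intro F F' hFF
        exact hloc F F' fun e he he' => hFF e ⟨o, hoS, he'⟩
      · intro S' hSS' hoS' hfar F hF
        refine himp S' F hoS' ?_ hF
        intro y hy
        by_cases hyS : y ∈ S
        · left
          have := hall y hyS
          rw [hxo'] at this
          rw [this]
          exact Nat.one_pos
        · right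
          have := hfar o hoS y (mem_sdiff.mpr ⟨hy, hyS⟩)
          rw [H.dc]
          omega
      · rw [hprod, pow_one, mul_one]
        unfold om
        rw [if_pos hoS, H.pmid (by omega) ht']
        exact fin v H.v1 H.vp H.vd _ hpr
    · obtain ⟨Ch, hloc, himp, hpr⟩ := H.annF x 1 (t' / 2) le_rfl hD (by omega)
      refine ⟨Ch, fun _ => x, fun y => if y = x then 0 else 1, ?_, ?_, htree, ?_⟩
      · intro F F' hFF
        exact hloc F F' fun e he he' => hFF e ⟨x, hx, he'⟩
      · intro S' hSS' hoS' hfar F hF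
        refine himp S' F hoS' (hSS' hx) ?_ ?_ hF
        · intro y hy
          by_cases hyS : y ∈ S
          · left
            rw [hall y hyS]
            exact Nat.one_pos
          · right
            have := hfar x hx y (mem_sdiff.mpr ⟨hy, hyS⟩)
            rw [H.dc]
            omega
        · have := hfar x hx o (mem_sdiff.mpr ⟨hoS', hoS⟩)
          rw [H.dc]
          omega
      · rw [hprod, pow_one, mul_one]
        unfold om
        rw [if_neg hoS, H.pmid (by omega) ht']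
        exact fin w H.w1 H.wp H.wd _ hpr
  · refine ⟨fun _ => True, fun _ => x, fun y => if y = x then 0 else 1, fun _ _ _ => Iff.rfl,
      fun _ _ _ _ _ _ => trivial, htree, ?_⟩
    rw [hprod, pow_one, mul_one]
    have h1 : om w v N o S t' = 1 := by
      unfold om psi
      rw [show max 1 (min t' N) = 1 by omega, H.w1, H.v1]
      simp
    rw [h1, mul_one]
    refine (Pr_le_one H.ok _ _).trans (le_trans ?_ ha)
    nlinarith

/-- START -/
theorem gd_start (H : KS ds N q w v o Ds C W) (ha1 : 1 ≤ a) (ha : C * W ^ 2 ≤ a)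
    {t k : ℕ} {R : Finset E} {x : E}
    (h : Gd ds N q w v o Ds a t (t + 1) (max t (dm ds R)) k R x) :
    Gd ds N q w v o Ds a t (t + 1) (max (t + 1) (dm ds R)) (k + 1) R x := by
  obtain ⟨Ev, par, rk, h1, h2, h3, h4⟩ := h
  refine ⟨Ev, par, rk, h1, h2, h3, H.step ha1 h4 ?_⟩
  have hC := H.hC
  have hW := H.hW
  refine (H.odbl R (s' := max (t + 1) (dm ds R)) (by omega) (by omega)).trans ?_
  refine mul_le_mul_of_nonneg_right (le_trans ?_ ha) (H.opos _ _).le
  nlinarith

/-- the comparison of the products -/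
theorem gd_merge_psi (H : KS ds N q w v o Ds C W) {t : ℕ} {U R : Finset E} {b u : E}
    (hu : u ∈ U) (hb : b ∈ R) (hbu : ds b u ≤ t + 1) (hoR : o ∉ R) :
    om w v N o U (max (t + 1) (dm ds U)) * om w v N o R (max t (dm ds R)) ≤
      W ^ 2 * (psi w N (ds b u) * om w v N o (U ∪ R) (max (t + 1) (dm ds (U ∪ R)))) := by
  have hW := H.hW
  have h1 := dm_union' H hu hb hbu
  have h2 : dm ds U ≤ dm ds (U ∪ R) := dm_mono' subset_union_left
  have h3 : dm ds R ≤ dm ds (U ∪ R) := dm_mono' subset_union_right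
  have eR : ∀ s, om w v N o R s = psi w N s := fun s => by unfold om; rw [if_neg hoR]
  have eU : ∀ s, om w v N o (U ∪ R) s = om w v N o U s := by
    intro s
    unfold om
    by_cases h : o ∈ U
    · rw [if_pos h, if_pos (Finset.mem_union_left _ h)]
    · rw [if_neg h, if_neg (by rw [Finset.mem_union, not_or]; exact ⟨h, hoR⟩)]
  rw [eR, eU]
  obtain ⟨M, hM⟩ : ∃ M, M = max (t + 1) (dm ds U) := ⟨_, rfl⟩
  obtain ⟨M', hM'⟩ : ∃ M', M' = max (t + 1) (dm ds (U ∪ R)) := ⟨_, rfl⟩
  rw [← hM, ← hM']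
  have p0 := H.opos U M
  have p1 := H.ppos (ds b u)
  have p2 := H.opos U M'
  have p3 := H.ppos (max t (dm ds R))
  rcases le_total (dm ds R) M with hc | hc
  · have e1 : om w v N o U M ≤ W * om w v N o U M' := H.odbl U (by omega) (by omega)
    have e2 : psi w N (max t (dm ds R)) ≤ psi w N t := H.panti (le_max_left _ _)
    have e3 : psi w N t ≤ W * psi w N (t + 1) := H.pdbl (by omega) (by omega)
    have e4 : psi w N (t + 1) ≤ psi w N (ds b u) := H.panti hbu
    have e5 : psi w N (max t (dm ds R)) ≤ W * psi w N (ds b u) :=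
      (e2.trans e3).trans (mul_le_mul_of_nonneg_left e4 (by linarith))
    calc om w v N o U M * psi w N (max t (dm ds R)) ≤
        (W * om w v N o U M') * (W * psi w N (ds b u)) := mul_le_mul e1 e5 p3.le (by positivity)
      _ = _ := by ring
  · have e0 : max t (dm ds R) = dm ds R := max_eq_right (by omega)
    rw [e0]
    have e4 : psi w N M ≤ psi w N (ds b u) := H.panti (by omega)
    -- exchange of the scales
    have ex : om w v N o U M * psi w N (dm ds R) ≤ psi w N M * om w v N o U (dm ds R) := by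
      unfold om
      split_ifs with h
      · have := H.wv (max 1 (min M N)) (max 1 (min (dm ds R) N)) (le_max_left _ _)
          (max_le_max le_rfl (min_le_min hc le_rfl))
        unfold psi
        linarith
      · linarith [mul_comm (psi w N M) (psi w N (dm ds R))]
    have e5 : om w v N o U (dm ds R) ≤ W * om w v N o U M' := H.odbl U (by omega) (by omega)
    have e6 : W * om w v N o U M' ≤ W ^ 2 * om w v N o U M' :=
      mul_le_mul_of_nonneg_right (by nlinarith) p2.le
    calc om w v N o U M * psi w N (dm ds R) ≤ psi w N M * om w v N o U (dm ds R) := ex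
      _ ≤ psi w N (ds b u) * (W ^ 2 * om w v N o U M') :=
          mul_le_mul e4 (e5.trans e6) (H.opos _ _).le p1.le
      _ = _ := by ring

/-- MERGE -/
theorem gd_merge (H : KS ds N q w v o Ds C W) (ha1 : 1 ≤ a) (ha : C * W ^ 2 ≤ a)
    {t k k' : ℕ} {U R : Finset E} {x b u : E} (hx : x ∈ U) (hu : u ∈ U) (hb : b ∈ R)
    (hoR : o ∉ R) (hbu : ds b u ≤ t + 1) (hfar : ∀ v ∈ U, ∀ w ∈ R, t < ds v w)
    (hU : Gd ds N q w v o Ds a t (t + 1) (max (t + 1) (dm ds U)) k U x)
    (hR : Gd ds N q w v o Ds a t (t + 1) (max t (dm ds R)) k' R b) :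
    Gd ds N q w v o Ds a t (t + 1) (max (t + 1) (dm ds (U ∪ R))) (k + k' + 1) (U ∪ R) x := by
  classical
  have hC := H.hC
  have hW := H.hW
  obtain ⟨Ev, par, rk, g1, g2, g3, g4⟩ := hU
  obtain ⟨Ev', par', rk', g1', g2', g3', g4'⟩ := hR
  have hUR : ∀ v ∈ R, v ∉ U := by
    intro v hv hvU
    have := hfar v hvU v hv
    rw [H.d0] at this
    omega
  have hdisj : Disjoint U R := Finset.disjoint_right.mpr hUR
  have hxR : x ∉ R := fun h => hUR x h hx
  have hbU : b ∉ U := hUR b hb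
  refine ⟨fun F => Ev F ∧ Ev' F, fun y => if y ∈ U then par y else if y = b then u else par' y,
    fun y => if y ∈ U then rk y else rk u + 1 + rk' y, ?_, ?_, ?_, ?_⟩
  · intro F F' hFF
    refine and_congr (g1 F F' fun e he => hFF e ?_) (g1' F F' fun e he => hFF e ?_)
    · obtain ⟨v, hv, h⟩ := he
      exact ⟨v, mem_union_left _ hv, h⟩
    · obtain ⟨v, hv, h⟩ := he
      exact ⟨v, mem_union_right _ hv, h⟩
  · intro S' hSS' hoS' hfar' F hF
    constructor
    · refine g2 S' (subset_union_left.trans hSS') hoS' (fun v hv y hy => ?_) F hF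
      obtain ⟨hy1, hy2⟩ := mem_sdiff.mp hy
      by_cases hyR : y ∈ R
      · exact hfar v hv y hyR
      · refine hfar' v (mem_union_left _ hv) y (mem_sdiff.mpr ⟨hy1, ?_⟩)
        rw [mem_union, not_or]
        exact ⟨hy2, hyR⟩
    · refine g2' S' (subset_union_right.trans hSS') hoS' (fun v hv y hy => ?_) F hF
      obtain ⟨hy1, hy2⟩ := mem_sdiff.mp hy
      by_cases hyU : y ∈ U
      · rw [H.dc]
        exact hfar y hyU v hv
      · refine hfar' v (mem_union_right _ hv) y (mem_sdiff.mpr ⟨hy1, ?_⟩)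
        rw [mem_union, not_or]
        exact ⟨hyU, hy2⟩
  · intro y hy hyx
    by_cases hyU : y ∈ U
    · obtain ⟨e1, e2, e3⟩ := g3 y hyU hyx
      simp only [if_pos hyU, if_pos e1]
      exact ⟨mem_union_left _ e1, e2, e3⟩
    · have hyR : y ∈ R := (mem_union.mp hy).resolve_left hyU
      by_cases hyb : y = b
      · simp only [if_neg hyU, if_pos hyb, if_pos hu]
        exact ⟨mem_union_left _ hu, by omega, by rw [hyb]; exact hbu⟩
      · obtain ⟨e1, e2, e3⟩ := g3' y hyR hyb
        simp only [if_neg hyU, if_neg hyb, if_neg (hUR _ e1)]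
        exact ⟨mem_union_right _ e1, by omega, e3⟩
  · -- independence
    have hind : Pr (fun _ => q) Finset.univ (fun F => Ev F ∧ Ev' F) =
        Pr (fun _ => q) Finset.univ Ev * Pr (fun _ => q) Finset.univ Ev' := by
      refine Pr_indep (S := univ.filter fun e => ∃ v ∈ U, ds e v ≤ t / 2)
        (T := univ.filter fun e => ∃ v ∈ R, ds e v ≤ t / 2) (subset_univ _) (subset_univ _)
        ?_ ?_ ?_
      · rw [Finset.disjoint_left]
        intro e he1 he2
        obtain ⟨v, hv, h1⟩ := (mem_filter.mp he1).2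
        obtain ⟨y, hy, h2⟩ := (mem_filter.mp he2).2
        have h3 := hfar v hv y hy
        have h4 := H.dt v e y
        rw [H.dc v e] at h4
        omega
      · intro F _
        refine g1 _ _ fun e he => ?_
        rw [mem_inter, mem_filter]
        exact ⟨fun h => ⟨h, mem_univ _, he⟩, fun h => h.1⟩
      · intro F _
        refine g1' _ _ fun e he => ?_
        rw [mem_inter, mem_filter]
        exact ⟨fun h => ⟨h, mem_univ _, he⟩, fun h => h.1⟩
    rw [hind]
    have hprod : ∏ y ∈ (U ∪ R).erase x,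
        psi w N (ds y (if y ∈ U then par y else if y = b then u else par' y)) =
        (∏ y ∈ U.erase x, psi w N (ds y (par y))) *
          (psi w N (ds b u) * ∏ y ∈ R.erase b, psi w N (ds y (par' y))) := by
      have e1 : (U ∪ R).erase x = U.erase x ∪ R := by
        ext y
        simp only [mem_erase, mem_union]
        constructor
        · rintro ⟨h1, h2 | h2⟩
          · exact Or.inl ⟨h1, h2⟩
          · exact Or.inr h2
        · rintro (⟨h1, h2⟩ | h2)
          · exact ⟨h1, Or.inl h2⟩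
          · exact ⟨fun h => hxR (h ▸ h2), Or.inr h2⟩
      rw [e1, Finset.prod_union (hdisj.mono_left (erase_subset _ _))]
      congr 1
      · refine Finset.prod_congr rfl fun y hy => ?_
        rw [if_pos (mem_of_mem_erase hy)]
      · rw [← Finset.mul_prod_erase R _ hb]
        congr 1
        · rw [if_neg hbU, if_pos rfl]
        · refine Finset.prod_congr rfl fun y hy => ?_
          rw [mem_erase] at hy
          rw [if_neg (hUR y hy.2), if_neg hy.1]
    rw [hprod]
    have hm := gd_merge_psi H hu hb hbu hoR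
    have n1 := H.prod_nn ha1 k (U.erase x) fun y => ds y (par y)
    have n2 := H.prod_nn ha1 k' (R.erase b) fun y => ds y (par' y)
    have n3 := H.ppos (ds b u)
    have n4 := H.opos (U ∪ R) (max (t + 1) (dm ds (U ∪ R)))
    obtain ⟨P1, hP1⟩ : ∃ P1, P1 = ∏ y ∈ U.erase x, psi w N (ds y (par y)) := ⟨_, rfl⟩
    obtain ⟨P2, hP2⟩ : ∃ P2, P2 = ∏ y ∈ R.erase b, psi w N (ds y (par' y)) := ⟨_, rfl⟩
    rw [← hP1] at g4 n1 ⊢
    rw [← hP2] at g4' n2 ⊢
    have h5 : W ^ 2 ≤ a := le_trans (by nlinarith) ha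
    calc Pr (fun _ => q) Finset.univ Ev * Pr (fun _ => q) Finset.univ Ev'
        ≤ (a ^ k * P1 * om w v N o U (max (t + 1) (dm ds U))) *
          (a ^ k' * P2 * om w v N o R (max t (dm ds R))) :=
          mul_le_mul g4 g4' (Pr_nonneg H.ok _ _) (mul_nonneg n1 (H.opos _ _).le)
      _ = (a ^ k * P1) * (a ^ k' * P2) *
          (om w v N o U (max (t + 1) (dm ds U)) * om w v N o R (max t (dm ds R))) := by ring
      _ ≤ (a ^ k * P1) * (a ^ k' * P2) *
          (W ^ 2 * (psi w N (ds b u) * om w v N o (U ∪ R) (max (t + 1) (dm ds (U ∪ R))))) :=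
          mul_le_mul_of_nonneg_left hm (mul_nonneg n1 n2)
      _ ≤ (a ^ k * P1) * (a ^ k' * P2) *
          (a * (psi w N (ds b u) * om w v N o (U ∪ R) (max (t + 1) (dm ds (U ∪ R))))) := by
          refine mul_le_mul_of_nonneg_left ?_ (mul_nonneg n1 n2)
          exact mul_le_mul_of_nonneg_right h5 (by positivity)
      _ = _ := by rw [pow_succ, pow_add]; ring

/-- OUT -/
theorem gd_out (H : KS ds N q w v o Ds C W) (ha1 : 1 ≤ a) (ha : C * W ^ 2 ≤ a)
    {t t' k : ℕ} {S : Finset E} {x : E} (htt : t + 1 ≤ t') (ht' : t' ≤ N) (hx : x ∈ S)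
    (hxo : o ∈ S → x = o)
    (hG : Gd ds N q w v o Ds a t (t + 1) (max (t + 1) (dm ds S)) k S x) :
    Gd ds N q w v o Ds a t' (t + 1) (max t' (dm ds S)) (k + 1) S x := by
  classical
  have hC := H.hC
  have hW := H.hW
  have hWa : W ≤ a := le_trans (by nlinarith) ha
  obtain ⟨Ev, par, rk, g1, g2, g3, g4⟩ := hG
  obtain ⟨s, hs⟩ : ∃ s, s = max (t + 1) (dm ds S) := ⟨_, rfl⟩
  obtain ⟨r, hr⟩ : ∃ r, r = dm ds S + t / 2 + 1 := ⟨_, rfl⟩
  obtain ⟨D, hD⟩ : ∃ D, D = t' / 2 := ⟨_, rfl⟩
  rw [← hs] at g4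
  have hloc : ∀ F F' : Finset E, (∀ e, (∃ v ∈ S, ds e v ≤ t' / 2) → (e ∈ F ↔ e ∈ F')) →
      (Ev F ↔ Ev F') := by
    intro F F' hFF
    refine g1 F F' fun e he => hFF e ?_
    obtain ⟨v, hv, h⟩ := he
    exact ⟨v, hv, by omega⟩
  rcases le_or_gt r D with hrD | hrD
  · -- the annulus event, in both cases
    obtain ⟨f, Ch, hf1, hf2, hf3, hf4, hf5, c1, c2, c3⟩ : ∃ (f : ℕ → ℝ) (Ch : Finset E → Prop),
        (∀ s, om w v N o S s = psi f N s) ∧ (∀ r, 1 ≤ r → 0 < f r) ∧
        (∀ r s, 1 ≤ r → r ≤ s → f s ≤ f r) ∧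
        (∀ r s, 1 ≤ r → r ≤ s → s ≤ 8 * r → f r ≤ W * f s) ∧ True ∧
        (∀ F F' : Finset E, (∀ e, r ≤ ds e x → ds e x ≤ D → (e ∈ F ↔ e ∈ F')) → (Ch F ↔ Ch F')) ∧
        (∀ S' F : Finset E, S ⊆ S' → o ∈ S' → (∀ y ∈ S', ds y x < r ∨ D < ds y x) →
          (∀ y ∈ S', y ∉ S → D < ds y x) → Ds S' F → Ch F) ∧
        Pr (fun _ => q) Finset.univ Ch ≤ C * (f D / f r) := by
      by_cases hoS : o ∈ S
      · have hxo' := hxo hoS
        obtain ⟨Ch, c1, c2, c3⟩ := H.annO r D (by omega) hrD (by omega)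
        refine ⟨v, Ch, fun s => by unfold om; rw [if_pos hoS], H.vp, H.vm, H.vd, trivial, ?_, ?_, c3⟩
        · rw [hxo']; exact c1
        · intro S' F _ hoS' h1 _ hF
          rw [hxo'] at h1
          exact c2 S' F hoS' h1 hF
      · obtain ⟨Ch, c1, c2, c3⟩ := H.annF x r D (by omega) hrD (by omega)
        refine ⟨w, Ch, fun s => by unfold om; rw [if_neg hoS], H.wp, H.wm, H.wd, trivial, c1, ?_, c3⟩
        intro S' F hSS' hoS' h1 h2 hF
        exact c2 S' F hoS' (hSS' hx) h1 (h2 o hoS' hoS) hF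
    refine ⟨fun F => Ev F ∧ Ch F, par, rk, ?_, ?_, g3, ?_⟩
    · intro F F' hFF
      exact and_congr (hloc F F' hFF) (c1 F F' fun e _ he' => hFF e ⟨x, hx, by omega⟩)
    · intro S' hSS' hoS' hfar F hF
      have hout : ∀ y ∈ S', y ∉ S → D < ds y x := by
        intro y hy hyS
        have := hfar x hx y (mem_sdiff.mpr ⟨hy, hyS⟩)
        rw [H.dc]
        omega
      refine ⟨g2 S' hSS' hoS' (fun v hv y hy => ?_) F hF, c2 S' F hSS' hoS' ?_ hout hF⟩
      · have := hfar v hv y hy
        omega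
      · intro y hy
        by_cases hyS : y ∈ S
        · left
          have := ds_le_dm' (ds := ds) hyS hx
          omega
        · right
          exact hout y hy hyS
    · have hind : Pr (fun _ => q) Finset.univ (fun F => Ev F ∧ Ch F) =
          Pr (fun _ => q) Finset.univ Ev * Pr (fun _ => q) Finset.univ Ch := by
        refine Pr_indep (S := univ.filter fun e => ∃ v ∈ S, ds e v ≤ t / 2)
          (T := univ.filter fun e => r ≤ ds e x ∧ ds e x ≤ D) (subset_univ _) (subset_univ _)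
          ?_ ?_ ?_
        · rw [Finset.disjoint_left]
          intro e he1 he2
          obtain ⟨v, hv, h1⟩ := (mem_filter.mp he1).2
          have h2 := (mem_filter.mp he2).2
          have h3 := H.dt e v x
          have h4 := ds_le_dm' (ds := ds) hv hx
          omega
        · intro F _
          refine g1 _ _ fun e he => ?_
          rw [mem_inter, mem_filter]
          exact ⟨fun h => ⟨h, mem_univ _, he⟩, fun h => h.1⟩
        · intro F _
          refine c1 _ _ fun e he he' => ?_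
          rw [mem_inter, mem_filter]
          exact ⟨fun h => ⟨h, mem_univ _, he, he'⟩, fun h => h.1⟩
      rw [hind]
      have hmax : max t' (dm ds S) = t' := by omega
      rw [hmax, hf1, H.pmid (by omega) ht']
      rw [hf1, H.pmid (s := s) (by omega) (by omega)] at g4
      have zr := hf2 r (by omega)
      have zs := hf2 s (by omega)
      have zD := hf2 D (by omega)
      have zt := hf2 t' (by omega)
      have u1 : f s ≤ W * f r := by
        rcases le_total s r with h | h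
        · exact hf4 s r (by omega) h (by omega)
        · refine (hf3 r s (by omega) h).trans ?_
          nlinarith
      have u2 : f D ≤ W * f t' := hf4 D t' (by omega) (by omega) (by omega)
      have u3 : f s * (C * (f D / f r)) ≤ a * f t' := by
        calc f s * (C * (f D / f r)) ≤ (W * f r) * (C * (f D / f r)) :=
              mul_le_mul_of_nonneg_right u1 (by positivity)
          _ = C * W * f D := by field_simp
          _ ≤ C * W * (W * f t') := mul_le_mul_of_nonneg_left u2 (by positivity)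
          _ = (C * W ^ 2) * f t' := by ring
          _ ≤ a * f t' := mul_le_mul_of_nonneg_right ha zt.le
      have hprod := H.prod_nn ha1 k (S.erase x) fun y => ds y (par y)
      calc Pr (fun _ => q) Finset.univ Ev * Pr (fun _ => q) Finset.univ Ch
          ≤ (a ^ k * (∏ y ∈ S.erase x, psi w N (ds y (par y))) * f s) * (C * (f D / f r)) :=
            mul_le_mul g4 c3 (Pr_nonneg H.ok _ _) (mul_nonneg hprod zs.le)
        _ = a ^ k * (∏ y ∈ S.erase x, psi w N (ds y (par y))) * (f s * (C * (f D / f r))) := by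
            ring
        _ ≤ a ^ k * (∏ y ∈ S.erase x, psi w N (ds y (par y))) * (a * f t') :=
            mul_le_mul_of_nonneg_left u3 hprod
        _ = _ := by rw [pow_succ]; ring
  · refine ⟨Ev, par, rk, hloc, ?_, g3, H.step ha1 g4 ?_⟩
    · intro S' hSS' hoS' hfar F hF
      refine g2 S' hSS' hoS' (fun v hv y hy => ?_) F hF
      have := hfar v hv y hy
      omega
    · refine (H.odbl S (s' := max t' (dm ds S)) (by omega) (by omega)).trans ?_
      exact mul_le_mul_of_nonneg_right hWa (H.opos _ _).le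

/-! ### components -/

theorem kcmp_conn (H : KS ds N q w v o Ds C W) {t : ℕ} {S : Finset E} {y : E} (hy : y ∈ S) :
    conn ds t (kcmp ds t S y) := by
  intro A hA hne hne'
  by_contra hcon
  push Not at hcon
  by_cases hyA : y ∈ A
  · obtain ⟨z, hz⟩ := hne'
    rw [Finset.mem_sdiff] at hz
    refine hz.2 (kcmp_ind hy (P := fun z => z ∈ A) hyA ?_ z hz.1)
    intro u hu v hv huA huv
    by_contra hvA
    have := hcon u huA v (Finset.mem_sdiff.2 ⟨hv, hvA⟩)
    omega
  · obtain ⟨z, hz⟩ := hne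
    refine kcmp_ind hy (P := fun z => z ∉ A) hyA ?_ z (hA hz) hz
    intro u hu v hv huA huv hvA
    have := hcon v hvA u (Finset.mem_sdiff.2 ⟨hu, huA⟩)
    rw [H.dc] at this
    omega

/-- a `0`-connected set lies at one position -/
theorem conn_zero (H : KS ds N q w v o Ds C W) {S : Finset E} {x : E} (hx : x ∈ S)
    (hc : conn ds 0 S) : ∀ y ∈ S, ds y x = 0 := by
  by_contra hcon
  push Not at hcon
  obtain ⟨z, hz, hzx⟩ := hcon
  obtain ⟨u, hu, v, hv, huv⟩ := hc (S.filter (fun y => ds y x = 0)) (Finset.filter_subset _ _)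
    ⟨x, Finset.mem_filter.2 ⟨hx, H.d0 x⟩⟩
    ⟨z, Finset.mem_sdiff.2 ⟨hz, fun h => hzx (Finset.mem_filter.1 h).2⟩⟩
  rw [Finset.mem_filter] at hu
  rw [Finset.mem_sdiff, Finset.mem_filter] at hv
  refine hv.2 ⟨hv.1, ?_⟩
  have h1 := H.dt v u x
  rw [H.dc v u] at h1
  omega

/-- the growth of the component of `x` by merging the other components -/
theorem gd_grow (H : KS ds N q w v o Ds C W) (ha1 : 1 ≤ a) (ha : C * W ^ 2 ≤ a) {t : ℕ}
    {S : Finset E} {x : E} (hxo : o ∈ S → x = o) (hc : conn ds (t + 1) S)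
    (hcmp : ∀ b ∈ S, (o ∈ kcmp ds t S b → b = o) →
      Gd ds N q w v o Ds a t (t + 1) (max t (dm ds (kcmp ds t S b)))
      (4 * (kcmp ds t S b).card - 3) (kcmp ds t S b) b) :
    ∀ m : ℕ, ∀ U : Finset E, (S \ U).card = m → U ⊆ S → U ≠ S → x ∈ U →
      (∀ y ∈ U, ∀ z ∈ S, z ∉ U → t < ds y z) →
      Gd ds N q w v o Ds a t (t + 1) (max (t + 1) (dm ds U)) (4 * U.card - 2) U x →
      Gd ds N q w v o Ds a t (t + 1) (max (t + 1) (dm ds S)) (4 * S.card - 4) S x := by
  intro m
  induction m using Nat.strong_induction_on with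
  | _ m ihm =>
    intro U hUm hUS hUne hxU hcl hG
    have hne : (S \ U).Nonempty := by
      rw [Finset.sdiff_nonempty]
      intro h
      exact hUne (Finset.Subset.antisymm hUS h)
    obtain ⟨u, hu, b, hb', hub⟩ := hc U hUS ⟨x, hxU⟩ hne
    obtain ⟨hbS, hbU⟩ := Finset.mem_sdiff.1 hb'
    have hRS := kcmp_sub (ds := ds) t S b
    have hbR : b ∈ kcmp ds t S b := self_kcmp hbS
    have hRU : ∀ z ∈ kcmp ds t S b, z ∉ U := by
      refine kcmp_ind hbS hbU ?_
      intro v hv w hw hvU hvw hwU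
      have := hcl w hwU v (hRS hv) hvU
      rw [H.dc] at this
      omega
    have hdisj : Disjoint U (kcmp ds t S b) := by
      rw [Finset.disjoint_right]
      exact hRU
    have hfar : ∀ v ∈ U, ∀ w ∈ kcmp ds t S b, t < ds v w := fun v hv w hw =>
      hcl v hv w (hRS hw) (hRU w hw)
    have hoR : o ∉ kcmp ds t S b := by
      intro h
      have h1 := hxo (hRS h)
      exact hRU o h (h1 ▸ hxU)
    have hM := gd_merge H ha1 ha hxU hu hbR hoR (by rw [H.dc]; exact hub) hfar hG
      (hcmp b hbS (fun h => absurd h hoR))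
    have hcard : (U ∪ kcmp ds t S b).card = U.card + (kcmp ds t S b).card :=
      Finset.card_union_of_disjoint hdisj
    have hc1 : 1 ≤ U.card := Finset.card_pos.2 ⟨x, hxU⟩
    have hc2 : 1 ≤ (kcmp ds t S b).card := Finset.card_pos.2 ⟨b, hbR⟩
    have e : 4 * U.card - 2 + (4 * (kcmp ds t S b).card - 3) + 1 =
        4 * (U ∪ kcmp ds t S b).card - 4 := by omega
    rw [e] at hM
    have hU'S : U ∪ kcmp ds t S b ⊆ S := Finset.union_subset hUS hRS
    by_cases hfin : U ∪ kcmp ds t S b = S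
    · rw [hfin] at hM
      exact hM
    · refine ihm (S \ (U ∪ kcmp ds t S b)).card ?_ (U ∪ kcmp ds t S b) rfl hU'S hfin
        (Finset.mem_union_left _ hxU) ?_
        (gd_mono H hM le_rfl le_rfl (by omega) ha1)
      · rw [← hUm]
        apply Finset.card_lt_card
        rw [Finset.ssubset_iff_of_subset
          (Finset.sdiff_subset_sdiff (Finset.Subset.refl S) Finset.subset_union_left)]
        exact ⟨b, hb', fun h => (Finset.mem_sdiff.1 h).2 (Finset.mem_union_right _ hbR)⟩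
      · intro y hy z hz hzn
        rw [Finset.mem_union, not_or] at hzn
        rcases Finset.mem_union.1 hy with hy | hy
        · exact hcl y hy z hz hzn.1
        · exact kcmp_far hy hz hzn.2

/-- the whole set from its components -/
theorem gd_whole (H : KS ds N q w v o Ds C W) (ha1 : 1 ≤ a) (ha : C * W ^ 2 ≤ a) {t : ℕ}
    {S : Finset E} {x : E} (hx : x ∈ S) (hxo : o ∈ S → x = o) (hc : conn ds (t + 1) S)
    (hall : kcmp ds t S x ≠ S)
    (hcmp : ∀ b ∈ S, (o ∈ kcmp ds t S b → b = o) →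
      Gd ds N q w v o Ds a t (t + 1) (max t (dm ds (kcmp ds t S b)))
      (4 * (kcmp ds t S b).card - 3) (kcmp ds t S b) b) :
    Gd ds N q w v o Ds a t (t + 1) (max (t + 1) (dm ds S)) (4 * S.card - 4) S x := by
  have h1 := gd_start H ha1 ha (hcmp x hx (fun h => hxo (kcmp_sub t S x h)))
  have hc1 : 1 ≤ (kcmp ds t S x).card := Finset.card_pos.2 ⟨x, self_kcmp hx⟩
  have e1 : 4 * (kcmp ds t S x).card - 3 + 1 = 4 * (kcmp ds t S x).card - 2 := by omega
  rw [e1] at h1
  exact gd_grow H ha1 ha hxo hc hcmp _ (kcmp ds t S x) rfl (kcmp_sub t S x) hall (self_kcmp hx)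
    (fun y hy z hz hzn => kcmp_far hy hz hzn) h1

/-- KEY' -/
theorem gd_key (H : KS ds N q w v o Ds C W) (ha1 : 1 ≤ a) (ha : C * W ^ 2 ≤ a) :
    ∀ (t t' : ℕ) (S : Finset E) (x : E), t ≤ t' → t' ≤ N → x ∈ S → (o ∈ S → x = o) →
      conn ds t S →
      Gd ds N q w v o Ds a t' t (max t' (dm ds S)) (4 * S.card - 3) S x := by
  intro t
  induction t with
  | zero =>
    intro t' S x _ ht' hx hxo hc
    have h0 := conn_zero H hx hc
    have hcard : 1 ≤ S.card := Finset.card_pos.2 ⟨x, hx⟩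
    exact gd_mono H (gd_base H ha ht' hx hxo h0) le_rfl le_rfl (by omega) ha1
  | succ t ih =>
    intro t' S x htt' ht' hx hxo hc
    by_cases hall : kcmp ds t S x = S
    · have hct : conn ds t S := by
        rw [← hall]
        exact kcmp_conn H hx
      exact gd_mono H (ih t' S x (by omega) ht' hx hxo hct) (Nat.le_succ t) le_rfl
        le_rfl ha1
    · have hcmp : ∀ b ∈ S, (o ∈ kcmp ds t S b → b = o) →
          Gd ds N q w v o Ds a t (t + 1) (max t (dm ds (kcmp ds t S b)))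
          (4 * (kcmp ds t S b).card - 3) (kcmp ds t S b) b := by
        intro b hb' hbo
        exact gd_mono H (ih t (kcmp ds t S b) b le_rfl (by omega) (self_kcmp hb') hbo
          (kcmp_conn H hb')) (Nat.le_succ t) le_rfl le_rfl ha1
      have h2 := gd_whole H ha1 ha hx hxo hc hall hcmp
      have h3 := gd_out H ha1 ha htt' ht' hx hxo h2
      have hc3 : 1 ≤ S.card := Finset.card_pos.2 ⟨x, hx⟩
      exact gd_mono H h3 le_rfl le_rfl (by omega) ha1

/-- The bound for one set. -/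
theorem key (H : KS ds N q w v o Ds C W) {S : Finset E} (hoS : o ∈ S)
    (hN : ∀ y ∈ S, ds y o ≤ N) :
    ∃ (par : E → E) (rk : E → ℕ), (∀ y ∈ S, y ≠ o → par y ∈ S ∧ rk (par y) < rk y) ∧
      Pr (fun _ => q) Finset.univ (Ds S) ≤
        (C * W ^ 2) ^ (4 * S.card) * (∏ y ∈ S.erase o, psi w N (ds y (par y))) * v N := by
  have hC := H.hC
  have hW := H.hW
  have hN1 := H.hN
  have hconn : conn ds N S := by
    intro A hA hne hne'
    by_cases ho : o ∈ A
    · obtain ⟨z, hz⟩ := hne'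
      refine ⟨o, ho, z, hz, ?_⟩
      rw [H.dc]
      exact hN z (mem_sdiff.1 hz).1
    · obtain ⟨z, hz⟩ := hne
      exact ⟨z, hz, o, mem_sdiff.2 ⟨hoS, ho⟩, hN z (hA hz)⟩
  have ha1 : 1 ≤ C * W ^ 2 := by nlinarith [one_le_pow₀ hW (n := 2)]
  have h1 := gd_key H ha1 le_rfl N N S o le_rfl le_rfl hoS (fun _ => rfl) hconn
  obtain ⟨Ev, par, rk, -, g2, g3, g4⟩ := gd_mono H h1 le_rfl le_rfl
    (show 4 * S.card - 3 ≤ 4 * S.card by omega) ha1
  refine ⟨par, rk, fun y hy hyx => ⟨(g3 y hy hyx).1, (g3 y hy hyx).2.1⟩, ?_⟩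
  have hom : om w v N o S (max N (dm ds S)) = v N := by
    unfold om psi
    rw [if_pos hoS, min_eq_right (le_max_left _ _), max_eq_right hN1]
  rw [hom] at g4
  refine (Pr_mono H.ok (B := Ev) fun F _ hF => ?_).trans g4
  refine g2 S (Finset.Subset.refl S) hoS (fun v _ y hy => ?_) F hF
  rw [Finset.sdiff_self] at hy
  exact absurd hy (Finset.notMem_empty y)

end

end Pool.Agent.H953.K1
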