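import Pool.Graph.R_pool_sql_team_seeded_3dad9d7b.NH39.W.Key

/-!
Abstract induction over the scales, with two marked points which carry another weight.
-/

set_option autoImplicit false
set_option linter.unusedSectionVars false
set_option maxHeartbeats 1000000

namespace Pool.Agent.H953.K2

open H974 Finset
open Pool.Agent.NH39.W (psi dm conn kstp kcmp kcmp_sub mem_kcmp self_kcmp kcmp_step kcmp_far
  kcmp_ind dm_le_of' ds_le_dm' dm_mono')

/-! ### the setup -/

/-- The hypotheses. -/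
structure KS {E : Type} [DecidableEq E] [Fintype E] (ds : E → E → ℕ) (N : ℕ) (q : ℝ)
    (w v : ℕ → ℝ) (o z : E) (Ds : Finset E → Finset E → Prop) (C W : ℝ) : Prop where
  d0 : ∀ a, ds a a = 0
  dc : ∀ a b, ds a b = ds b a
  dt : ∀ a b c, ds a c ≤ ds a b + ds b c
  oz : 0 < ds o z
  hN : 1 ≤ N
  q0 : 0 ≤ q
  q1 : q ≤ 1
  w1 : w 1 = 1
  wp : ∀ r, 1 ≤ r → 0 < w r
  wm : ∀ r s, 1 ≤ r → r ≤ s → w s ≤ w r
  wd : ∀ r s, 1 ≤ r → r ≤ s → s ≤ 8 * r → w r ≤ W * w s
  v1 : v 1 = 1
  vp : ∀ r, 1 ≤ r → 0 < v r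
  vm : ∀ r s, 1 ≤ r → r ≤ s → v s ≤ v r
  vd : ∀ r s, 1 ≤ r → r ≤ s → s ≤ 8 * r → v r ≤ W * v s
  wv : ∀ r s, 1 ≤ r → r ≤ s → w s * v r ≤ w r * v s
  annF : ∀ (x : E) (r D : ℕ), 1 ≤ r → r ≤ D → D ≤ N → ∃ Ch : Finset E → Prop,
      (∀ F F' : Finset E, (∀ e, r ≤ ds e x → ds e x ≤ D → (e ∈ F ↔ e ∈ F')) → (Ch F ↔ Ch F')) ∧
      (∀ S F : Finset E, o ∈ S → z ∈ S → x ∈ S → (∀ y ∈ S, ds y x < r ∨ D < ds y x) →
        D < ds o x → D < ds z x → Ds S F → Ch F) ∧
      Pr (fun _ => q) Finset.univ Ch ≤ C * (w D / w r)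
  annO : ∀ (r D : ℕ), 1 ≤ r → r ≤ D → D ≤ N → ∃ Ch : Finset E → Prop,
      (∀ F F' : Finset E, (∀ e, r ≤ ds e o → ds e o ≤ D → (e ∈ F ↔ e ∈ F')) → (Ch F ↔ Ch F')) ∧
      (∀ S F : Finset E, o ∈ S → z ∈ S → (∀ y ∈ S, ds y o < r ∨ D < ds y o) → D < ds z o →
        Ds S F → Ch F) ∧
      Pr (fun _ => q) Finset.univ Ch ≤ C * (v D / v r)
  annZ : ∀ (r D : ℕ), 1 ≤ r → r ≤ D → D ≤ N → ∃ Ch : Finset E → Prop,
      (∀ F F' : Finset E, (∀ e, r ≤ ds e z → ds e z ≤ D → (e ∈ F ↔ e ∈ F')) → (Ch F ↔ Ch F')) ∧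
      (∀ S F : Finset E, o ∈ S → z ∈ S → (∀ y ∈ S, ds y z < r ∨ D < ds y z) → D < ds o z →
        Ds S F → Ch F) ∧
      Pr (fun _ => q) Finset.univ Ch ≤ C * (v D / v r)
  hC : 1 ≤ C
  hW : 1 ≤ W

/-- The weight function of a component. -/
noncomputable def cl {E : Type} [DecidableEq E] (w v : ℕ → ℝ) (o z : E) (S : Finset E) : ℕ → ℝ :=
  if o ∈ S then (if z ∈ S then (fun _ => 1) else v) else (if z ∈ S then v else w)

/-- The weight of a component. -/
noncomputable def om {E : Type} [DecidableEq E] (w v : ℕ → ℝ) (N : ℕ) (o z : E) (S : Finset E)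
    (s : ℕ) : ℝ := psi (cl w v o z S) N s

/-- The weight of an edge of the tree. -/
noncomputable def fc {E : Type} [DecidableEq E] (w v : ℕ → ℝ) (N : ℕ) (sp y : E) (d : ℕ) : ℝ :=
  if y = sp then psi v N d ^ 2 else psi w N d

/-- `Gd t τ s k S x`: there are an event and a tree on `S` with root `x`. -/
def Gd {E : Type} [DecidableEq E] [Fintype E] (ds : E → E → ℕ) (N : ℕ) (q : ℝ)
    (w v : ℕ → ℝ) (o z : E) (Ds : Finset E → Finset E → Prop) (a : ℝ) (t τ s k : ℕ)
    (S : Finset E) (x : E) : Prop :=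
  ∃ (Ev : Finset E → Prop) (par : E → E) (rk : E → ℕ) (sp : E),
    (∀ F F' : Finset E, (∀ e, (∃ v ∈ S, ds e v ≤ t / 2) → (e ∈ F ↔ e ∈ F')) → (Ev F ↔ Ev F')) ∧
    (∀ S' : Finset E, S ⊆ S' → o ∈ S' → z ∈ S' → (∀ v ∈ S, ∀ w ∈ S' \ S, t < ds v w) →
      ∀ F : Finset E, Ds S' F → Ev F) ∧
    (∀ y ∈ S, y ≠ x → par y ∈ S ∧ rk (par y) < rk y ∧ ds y (par y) ≤ τ) ∧
    (if o ∈ S ∧ z ∈ S then sp ∈ S ∧ sp ≠ x else sp = x) ∧
    Pr (fun _ => q) Finset.univ Ev ≤
      a ^ k * (∏ y ∈ S.erase x, fc w v N sp y (ds y (par y))) * om w v N o z S s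

section
variable {E : Type} [DecidableEq E] [Fintype E] {ds : E → E → ℕ} {N : ℕ} {q : ℝ}
  {w v : ℕ → ℝ} {o z : E} {Ds : Finset E → Finset E → Prop} {C W a : ℝ}

theorem KS.ok (H : KS ds N q w v o z Ds C W) : Ok (fun _ : E => q) := fun _ => ⟨H.q0, H.q1⟩

theorem KS.cp (H : KS ds N q w v o z Ds C W) (S : Finset E) :
    ∀ r, 1 ≤ r → 0 < cl w v o z S r := by
  intro r hr
  unfold cl
  split_ifs
  · exact one_pos
  · exact H.vp r hr
  · exact H.vp r hr
  · exact H.wp r hr

theorem KS.cm (H : KS ds N q w v o z Ds C W) (S : Finset E) :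
    ∀ r s, 1 ≤ r → r ≤ s → cl w v o z S s ≤ cl w v o z S r := by
  intro r s hr hs
  unfold cl
  split_ifs
  · exact le_rfl
  · exact H.vm r s hr hs
  · exact H.vm r s hr hs
  · exact H.wm r s hr hs

theorem KS.cd (H : KS ds N q w v o z Ds C W) (S : Finset E) :
    ∀ r s, 1 ≤ r → r ≤ s → s ≤ 8 * r → cl w v o z S r ≤ W * cl w v o z S s := by
  intro r s hr hs h8
  unfold cl
  split_ifs
  · have := H.hW
    simpa using this
  · exact H.vd r s hr hs h8
  · exact H.vd r s hr hs h8
  · exact H.wd r s hr hs h8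

theorem KS.ppos (H : KS ds N q w v o z Ds C W) (s : ℕ) : 0 < psi w N s :=
  H.wp _ (le_max_left _ _)

theorem KS.qpos (H : KS ds N q w v o z Ds C W) (s : ℕ) : 0 < psi v N s :=
  H.vp _ (le_max_left _ _)

theorem KS.opos (H : KS ds N q w v o z Ds C W) (S : Finset E) (s : ℕ) :
    0 < om w v N o z S s := H.cp S _ (le_max_left _ _)

theorem KS.fpos (H : KS ds N q w v o z Ds C W) (sp y : E) (d : ℕ) : 0 < fc w v N sp y d := by
  unfold fc
  split_ifs
  · exact pow_pos (H.qpos _) 2
  · exact H.ppos _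

theorem KS.panti (H : KS ds N q w v o z Ds C W) {s s' : ℕ} (h : s ≤ s') :
    psi w N s' ≤ psi w N s := by
  unfold psi
  exact H.wm _ _ (le_max_left _ _) (max_le_max le_rfl (min_le_min h le_rfl))

theorem KS.qanti (H : KS ds N q w v o z Ds C W) {s s' : ℕ} (h : s ≤ s') :
    psi v N s' ≤ psi v N s := by
  unfold psi
  exact H.vm _ _ (le_max_left _ _) (max_le_max le_rfl (min_le_min h le_rfl))

theorem KS.oanti (H : KS ds N q w v o z Ds C W) (S : Finset E) {s s' : ℕ} (h : s ≤ s') :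
    om w v N o z S s' ≤ om w v N o z S s := by
  unfold om psi
  exact H.cm S _ _ (le_max_left _ _) (max_le_max le_rfl (min_le_min h le_rfl))

theorem KS.pdbl (H : KS ds N q w v o z Ds C W) {s s' : ℕ} (h : s ≤ s')
    (h2 : s' ≤ 8 * max 1 s) : psi w N s ≤ W * psi w N s' := by
  unfold psi
  have := H.hN
  exact H.wd _ _ (le_max_left _ _) (max_le_max le_rfl (min_le_min h le_rfl)) (by omega)

theorem KS.qdbl (H : KS ds N q w v o z Ds C W) {s s' : ℕ} (h : s ≤ s')
    (h2 : s' ≤ 8 * max 1 s) : psi v N s ≤ W * psi v N s' := by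
  unfold psi
  have := H.hN
  exact H.vd _ _ (le_max_left _ _) (max_le_max le_rfl (min_le_min h le_rfl)) (by omega)

theorem KS.odbl (H : KS ds N q w v o z Ds C W) (S : Finset E) {s s' : ℕ} (h : s ≤ s')
    (h2 : s' ≤ 8 * max 1 s) : om w v N o z S s ≤ W * om w v N o z S s' := by
  unfold om psi
  have := H.hN
  exact H.cd S _ _ (le_max_left _ _) (max_le_max le_rfl (min_le_min h le_rfl)) (by omega)

theorem KS.pzero (H : KS ds N q w v o z Ds C W) : psi w N 0 = 1 := by
  unfold psi
  simp [H.w1]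

theorem KS.pmid (_H : KS ds N q w v o z Ds C W) {f : ℕ → ℝ} {s : ℕ} (h1 : 1 ≤ s) (h2 : s ≤ N) :
    psi f N s = f s := by
  unfold psi
  rw [min_eq_left h2, max_eq_right h1]

theorem dm_union' (H : KS ds N q w v o z Ds C W) {U R : Finset E} {b u : E} {t : ℕ} (hu : u ∈ U)
    (hb : b ∈ R) (hbu : ds b u ≤ t + 1) : dm ds (U ∪ R) ≤ dm ds U + (t + 1) + dm ds R := by
  have key : ∀ v ∈ U, ∀ w ∈ R, ds v w ≤ dm ds U + (t + 1) + dm ds R := by
    intro v hv w hw
    have h1 := H.dt v u w
    have h2 := H.dt u b w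
    have h3 := ds_le_dm' (ds := ds) hv hu
    have h4 := ds_le_dm' (ds := ds) hb hw
    rw [H.dc u b] at h2
    omega
  apply dm_le_of'
  intro v hv w hw
  rw [mem_union] at hv hw
  rcases hv with hv | hv <;> rcases hw with hw | hw
  · exact (ds_le_dm' hv hw).trans (by omega)
  · exact key v hv w hw
  · rw [H.dc]
    exact key w hw v hv
  · exact (ds_le_dm' hv hw).trans (by omega)

theorem KS.prod_nn (H : KS ds N q w v o z Ds C W) (ha : 1 ≤ a) (k : ℕ) (S : Finset E) (sp : E)
    (f : E → ℕ) : 0 ≤ a ^ k * ∏ y ∈ S, fc w v N sp y (f y) :=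
  mul_nonneg (pow_nonneg (by linarith) _) (Finset.prod_nonneg fun y _ => (H.fpos _ _ _).le)

/-- monotonicity -/
theorem gd_mono (H : KS ds N q w v o z Ds C W) {t τ τ' s s' k k' : ℕ} {S : Finset E}
    {x : E} (h : Gd ds N q w v o z Ds a t τ s k S x) (hτ : τ ≤ τ') (hs : s' ≤ s)
    (hk : k ≤ k') (ha : 1 ≤ a) : Gd ds N q w v o z Ds a t τ' s' k' S x := by
  obtain ⟨Ev, par, rk, sp, h1, h2, h3, h5, h4⟩ := h
  refine ⟨Ev, par, rk, sp, h1, h2, fun y hy hx => ?_, h5, h4.trans ?_⟩
  · obtain ⟨e1, e2, e3⟩ := h3 y hy hx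
    exact ⟨e1, e2, e3.trans hτ⟩
  · refine mul_le_mul ?_ (H.oanti S hs) (H.opos _ _).le (H.prod_nn ha _ _ _ _)
    refine mul_le_mul_of_nonneg_right ?_ (Finset.prod_nonneg fun _ _ => (H.fpos _ _ _).le)
    exact pow_le_pow_right₀ ha hk

/-- comparison of the bounds -/
theorem KS.step (H : KS ds N q w v o z Ds C W) {P : ℝ} {k : ℕ} {S : Finset E} {sp : E}
    {f : E → ℕ} {A B : ℝ} (ha : 1 ≤ a) (h : P ≤ a ^ k * (∏ y ∈ S, fc w v N sp y (f y)) * A)
    (h2 : A ≤ a * B) :
    P ≤ a ^ (k + 1) * (∏ y ∈ S, fc w v N sp y (f y)) * B := by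
  refine h.trans ?_
  calc a ^ k * (∏ y ∈ S, fc w v N sp y (f y)) * A
      ≤ a ^ k * (∏ y ∈ S, fc w v N sp y (f y)) * (a * B) :=
        mul_le_mul_of_nonneg_left h2 (H.prod_nn ha _ _ _ _)
    _ = _ := by rw [pow_succ]; ring

/-- the annulus around a component which does not hold both marked points -/
theorem KS.ann (H : KS ds N q w v o z Ds C W) {S : Finset E} {x : E} (hx : x ∈ S)
    (hb : ¬ (o ∈ S ∧ z ∈ S)) {r D t' : ℕ} (hr : 1 ≤ r) (hrD : r ≤ D) (hD : D ≤ N)
    (hdm : dm ds S < r) (hDt : D ≤ t') :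
    ∃ (c : E) (Ch : Finset E → Prop), c ∈ S ∧
      (∀ F F' : Finset E, (∀ e, r ≤ ds e c → ds e c ≤ D → (e ∈ F ↔ e ∈ F')) → (Ch F ↔ Ch F')) ∧
      (∀ S' F : Finset E, S ⊆ S' → o ∈ S' → z ∈ S' → (∀ v ∈ S, ∀ w ∈ S' \ S, t' < ds v w) →
        Ds S' F → Ch F) ∧
      Pr (fun _ => q) Finset.univ Ch ≤ C * (cl w v o z S D / cl w v o z S r) := by
  have gap : ∀ c ∈ S, ∀ S' : Finset E, (∀ v ∈ S, ∀ w ∈ S' \ S, t' < ds v w) →
      ∀ y ∈ S', ds y c < r ∨ D < ds y c := by
    intro c hc S' hfar y hy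
    by_cases hyS : y ∈ S
    · left
      have := ds_le_dm' (ds := ds) hyS hc
      omega
    · right
      have := hfar c hc y (mem_sdiff.mpr ⟨hy, hyS⟩)
      rw [H.dc]
      omega
  have far : ∀ c ∈ S, ∀ S' : Finset E, (∀ v ∈ S, ∀ w ∈ S' \ S, t' < ds v w) →
      ∀ y ∈ S', y ∉ S → D < ds y c := by
    intro c hc S' hfar y hy hyS
    have := hfar c hc y (mem_sdiff.mpr ⟨hy, hyS⟩)
    rw [H.dc]
    omega
  by_cases hoS : o ∈ S
  · have hzS : z ∉ S := fun h => hb ⟨hoS, h⟩
    obtain ⟨Ch, c1, c2, c3⟩ := H.annO r D hr hrD hD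
    refine ⟨o, Ch, hoS, c1, ?_, ?_⟩
    · intro S' F _ ho' hz' hfar hF
      exact c2 S' F ho' hz' (gap o hoS S' hfar) (far o hoS S' hfar z hz' hzS) hF
    · unfold cl
      rw [if_pos hoS, if_neg hzS]
      exact c3
  · by_cases hzS : z ∈ S
    · obtain ⟨Ch, c1, c2, c3⟩ := H.annZ r D hr hrD hD
      refine ⟨z, Ch, hzS, c1, ?_, ?_⟩
      · intro S' F _ ho' hz' hfar hF
        exact c2 S' F ho' hz' (gap z hzS S' hfar) (far z hzS S' hfar o ho' hoS) hF
      · unfold cl
        rw [if_neg hoS, if_pos hzS]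
        exact c3
    · obtain ⟨Ch, c1, c2, c3⟩ := H.annF x r D hr hrD hD
      refine ⟨x, Ch, hx, c1, ?_, ?_⟩
      · intro S' F hSS' ho' hz' hfar hF
        exact c2 S' F ho' hz' (hSS' hx) (gap x hx S' hfar) (far x hx S' hfar o ho' hoS)
          (far x hx S' hfar z hz' hzS) hF
      · unfold cl
        rw [if_neg hoS, if_neg hzS]
        exact c3

/-- BASE -/
theorem gd_base (H : KS ds N q w v o z Ds C W) (ha : C * W ^ 2 ≤ a) {t' : ℕ} {S : Finset E}
    {x : E} (ht' : t' ≤ N) (hx : x ∈ S) (hall : ∀ y ∈ S, ds y x = 0) :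
    Gd ds N q w v o z Ds a t' 0 (max t' (dm ds S)) 1 S x := by
  have hC := H.hC
  have hW := H.hW
  have hdm : dm ds S = 0 := by
    apply Nat.le_zero.mp
    apply dm_le_of'
    intro u hu v hv
    have h1 := H.dt u x v
    rw [H.dc x v, hall u hu, hall v hv] at h1
    exact h1
  have hb : ¬ (o ∈ S ∧ z ∈ S) := by
    rintro ⟨h1, h2⟩
    have h3 := H.dt o x z
    rw [H.dc x z, hall o h1, hall z h2] at h3
    have := H.oz
    omega
  rw [hdm, max_eq_left (Nat.zero_le _)]
  have hprod : ∏ y ∈ S.erase x, fc w v N x y (ds y ((fun _ => x) y)) = 1 := by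
    refine Finset.prod_eq_one fun y hy => ?_
    simp only [hall y (Finset.mem_of_mem_erase hy)]
    unfold fc
    rw [if_neg (Finset.ne_of_mem_erase hy)]
    exact H.pzero
  have htree : ∀ y ∈ S, y ≠ x → (fun _ => x) y ∈ S ∧
      (fun y => if y = x then 0 else 1) ((fun _ => x) y) < (fun y => if y = x then 0 else 1) y ∧
      ds y ((fun _ => x) y) ≤ 0 := by
    intro y hy hyx
    refine ⟨hx, ?_, (hall y hy).le⟩
    simp [hyx]
  have c1 : cl w v o z S 1 = 1 := by
    unfold cl
    split_ifs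
    · rfl
    · exact H.v1
    · exact H.v1
    · exact H.w1
  by_cases hD : 1 ≤ t' / 2
  · -- one annulus
    obtain ⟨c, Ch, hcS, hloc, himp, hpr⟩ := H.ann (t' := t') hx hb le_rfl hD (by omega)
      (by rw [hdm]; exact Nat.one_pos) (by omega)
    refine ⟨Ch, fun _ => x, fun y => if y = x then 0 else 1, x, ?_, ?_, htree, ?_, ?_⟩
    · intro F F' hFF
      exact hloc F F' fun e _ he' => hFF e ⟨c, hcS, he'⟩
    · intro S' hSS' ho' hz' hfar F hF
      exact himp S' F hSS' ho' hz' hfar hF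
    · rw [if_neg hb]
    · rw [hprod, pow_one, mul_one]
      unfold om
      rw [H.pmid (by omega) ht']
      rw [c1, div_one] at hpr
      have h1 : cl w v o z S (t' / 2) ≤ W * cl w v o z S t' := H.cd S _ _ hD (by omega) (by omega)
      have h2 := H.cp S t' (by omega)
      calc Pr (fun _ => q) Finset.univ Ch ≤ C * cl w v o z S (t' / 2) := hpr
        _ ≤ C * (W * cl w v o z S t') := mul_le_mul_of_nonneg_left h1 (by linarith)
        _ = (C * W) * cl w v o z S t' := by ring
        _ ≤ a * cl w v o z S t' := by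
            refine mul_le_mul_of_nonneg_right (le_trans ?_ ha) h2.le
            have : W ≤ W ^ 2 := by nlinarith
            exact mul_le_mul_of_nonneg_left this (by linarith)
  · refine ⟨fun _ => True, fun _ => x, fun y => if y = x then 0 else 1, x, fun _ _ _ => Iff.rfl,
      fun _ _ _ _ _ _ _ => trivial, htree, ?_, ?_⟩
    · rw [if_neg hb]
    rw [hprod, pow_one, mul_one]
    have h1 : om w v N o z S t' = 1 := by
      unfold om psi
      rw [show max 1 (min t' N) = 1 by omega, c1]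
    rw [h1, mul_one]
    refine (Pr_le_one H.ok _ _).trans (le_trans ?_ ha)
    nlinarith

/-- START -/
theorem gd_start (H : KS ds N q w v o z Ds C W) (ha1 : 1 ≤ a) (ha : C * W ^ 2 ≤ a)
    {t k : ℕ} {R : Finset E} {x : E}
    (h : Gd ds N q w v o z Ds a t (t + 1) (max t (dm ds R)) k R x) :
    Gd ds N q w v o z Ds a t (t + 1) (max (t + 1) (dm ds R)) (k + 1) R x := by
  obtain ⟨Ev, par, rk, sp, h1, h2, h3, h5, h4⟩ := h
  refine ⟨Ev, par, rk, sp, h1, h2, h3, h5, H.step ha1 h4 ?_⟩
  have hC := H.hC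
  have hW := H.hW
  refine (H.odbl R (s' := max (t + 1) (dm ds R)) (by omega) (by omega)).trans ?_
  refine mul_le_mul_of_nonneg_right (le_trans ?_ ha) (H.opos _ _).le
  nlinarith

/-- exchange of the scales -/
theorem KS.exch (H : KS ds N q w v o z Ds C W) {s s' : ℕ} (h : s ≤ s') :
    psi w N s' * psi v N s ≤ psi w N s * psi v N s' :=
  H.wv _ _ (le_max_left _ _) (max_le_max le_rfl (min_le_min h le_rfl))

/-- the comparison of the products, without both marked points in the union -/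
theorem gd_merge_psi (H : KS ds N q w v o z Ds C W) {t d M sR M' : ℕ}
    (hd : d ≤ t + 1) (hM : t + 1 ≤ M) (hsR : t ≤ sR) (h1 : M ≤ M') (h2 : sR ≤ M')
    (h3 : M' ≤ M + (t + 1) + sR) :
    psi w N M * psi w N sR ≤ W ^ 2 * (psi w N d * psi w N M') ∧
    psi v N M * psi w N sR ≤ W ^ 2 * (psi w N d * psi v N M') ∧
    psi w N M * psi v N sR ≤ W ^ 2 * (psi w N d * psi v N M') ∧
    psi w N sR ≤ W ^ 2 * psi w N d ∧
    psi w N M ≤ W ^ 2 * psi w N d ∧
    psi v N M * psi v N sR ≤ W ^ 2 * psi v N d ^ 2 := by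
  have hW := H.hW
  have p0 := H.ppos M
  have p1 := H.ppos d
  have p2 := H.ppos M'
  have p3 := H.ppos sR
  have q0 := H.qpos M
  have q1 := H.qpos d
  have q2 := H.qpos M'
  have q3 := H.qpos sR
  have hW2 : W ≤ W ^ 2 := by nlinarith
  have e1 : psi w N sR ≤ W * psi w N d := by
    have a1 : psi w N sR ≤ psi w N t := H.panti hsR
    have a2 : psi w N t ≤ W * psi w N (t + 1) := H.pdbl (by omega) (by omega)
    have a3 : psi w N (t + 1) ≤ psi w N d := H.panti hd
    exact (a1.trans a2).trans (mul_le_mul_of_nonneg_left a3 (by linarith))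
  have e1' : psi v N sR ≤ W * psi v N d := by
    have a1 : psi v N sR ≤ psi v N t := H.qanti hsR
    have a2 : psi v N t ≤ W * psi v N (t + 1) := H.qdbl (by omega) (by omega)
    have a3 : psi v N (t + 1) ≤ psi v N d := H.qanti hd
    exact (a1.trans a2).trans (mul_le_mul_of_nonneg_left a3 (by linarith))
  have e2 : psi w N M ≤ psi w N d := H.panti (by omega)
  have e2' : psi v N M ≤ psi v N d := H.qanti (by omega)
  rcases le_total sR M with hc | hc
  · -- `M'` and `M` are comparable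
    have m1 : psi w N M ≤ W * psi w N M' := H.pdbl h1 (by omega)
    have m2 : psi v N M ≤ W * psi v N M' := H.qdbl h1 (by omega)
    refine ⟨?_, ?_, ?_, ?_, ?_, ?_⟩
    · calc psi w N M * psi w N sR ≤ (W * psi w N M') * (W * psi w N d) :=
            mul_le_mul m1 e1 p3.le (by positivity)
        _ = _ := by ring
    · calc psi v N M * psi w N sR ≤ (W * psi v N M') * (W * psi w N d) :=
            mul_le_mul m2 e1 p3.le (by positivity)
        _ = _ := by ring
    · calc psi w N M * psi v N sR ≤ psi w N sR * psi v N M := H.exch hc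
        _ ≤ (W * psi w N d) * (W * psi v N M') := mul_le_mul e1 m2 q0.le (by positivity)
        _ = _ := by ring
    · exact e1.trans (mul_le_mul_of_nonneg_right hW2 p1.le)
    · exact e2.trans (by nlinarith)
    · calc psi v N M * psi v N sR ≤ psi v N d * (W * psi v N d) :=
            mul_le_mul e2' e1' q3.le q1.le
        _ = W * psi v N d ^ 2 := by ring
        _ ≤ _ := mul_le_mul_of_nonneg_right hW2 (by positivity)
  · have m1 : psi w N sR ≤ W * psi w N M' := H.pdbl h2 (by omega)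
    have m2 : psi v N sR ≤ W * psi v N M' := H.qdbl h2 (by omega)
    refine ⟨?_, ?_, ?_, ?_, ?_, ?_⟩
    · calc psi w N M * psi w N sR ≤ psi w N d * (W * psi w N M') :=
            mul_le_mul e2 m1 p3.le p1.le
        _ = W * (psi w N d * psi w N M') := by ring
        _ ≤ _ := mul_le_mul_of_nonneg_right hW2 (by positivity)
    · calc psi v N M * psi w N sR = psi w N sR * psi v N M := mul_comm _ _
        _ ≤ psi w N M * psi v N sR := H.exch hc
        _ ≤ psi w N d * (W * psi v N M') := mul_le_mul e2 m2 q3.le p1.le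
        _ = W * (psi w N d * psi v N M') := by ring
        _ ≤ _ := mul_le_mul_of_nonneg_right hW2 (by positivity)
    · calc psi w N M * psi v N sR ≤ psi w N d * (W * psi v N M') :=
            mul_le_mul e2 m2 q3.le p1.le
        _ = W * (psi w N d * psi v N M') := by ring
        _ ≤ _ := mul_le_mul_of_nonneg_right hW2 (by positivity)
    · exact e1.trans (mul_le_mul_of_nonneg_right hW2 p1.le)
    · exact e2.trans (by nlinarith)
    · calc psi v N M * psi v N sR ≤ psi v N d * (W * psi v N d) :=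
            mul_le_mul e2' e1' q3.le q1.le
        _ = W * psi v N d ^ 2 := by ring
        _ ≤ _ := mul_le_mul_of_nonneg_right hW2 (by positivity)

/-- MERGE -/
theorem gd_merge (H : KS ds N q w v o z Ds C W) (ha1 : 1 ≤ a) (ha : C * W ^ 2 ≤ a)
    {t k k' : ℕ} {U R : Finset E} {x b u : E} (hx : x ∈ U) (hu : u ∈ U) (hb : b ∈ R)
    (hbu : ds b u ≤ t + 1) (hfar : ∀ v ∈ U, ∀ w ∈ R, t < ds v w)
    (hU : Gd ds N q w v o z Ds a t (t + 1) (max (t + 1) (dm ds U)) k U x)
    (hR : Gd ds N q w v o z Ds a t (t + 1) (max t (dm ds R)) k' R b) :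
    Gd ds N q w v o z Ds a t (t + 1) (max (t + 1) (dm ds (U ∪ R))) (k + k' + 1) (U ∪ R) x := by
  classical
  have hC := H.hC
  have hW := H.hW
  obtain ⟨Ev, par, rk, sp, g1, g2, g3, g5, g4⟩ := hU
  obtain ⟨Ev', par', rk', sp', g1', g2', g3', g5', g4'⟩ := hR
  have hUR : ∀ v ∈ R, v ∉ U := by
    intro v hv hvU
    have := hfar v hvU v hv
    rw [H.d0] at this
    omega
  have hdisj : Disjoint U R := Finset.disjoint_right.mpr hUR
  have hxR : x ∉ R := fun h => hUR x h hx
  have hbU : b ∉ U := hUR b hb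
  have hbx : b ≠ x := fun h => hbU (h ▸ hx)
  -- the special element
  obtain ⟨sn, hsn⟩ : ∃ sn : E, sn = if o ∈ U ∪ R ∧ z ∈ U ∪ R then
      (if o ∈ U ∧ z ∈ U then sp else if o ∈ R ∧ z ∈ R then sp' else b) else x := ⟨_, rfl⟩
  refine ⟨fun F => Ev F ∧ Ev' F, fun y => if y ∈ U then par y else if y = b then u else par' y,
    fun y => if y ∈ U then rk y else rk u + 1 + rk' y, sn, ?_, ?_, ?_, ?_, ?_⟩
  · intro F F' hFF
    refine and_congr (g1 F F' fun e he => hFF e ?_) (g1' F F' fun e he => hFF e ?_)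
    · obtain ⟨v, hv, h⟩ := he
      exact ⟨v, mem_union_left _ hv, h⟩
    · obtain ⟨v, hv, h⟩ := he
      exact ⟨v, mem_union_right _ hv, h⟩
  · intro S' hSS' hoS' hzS' hfar' F hF
    constructor
    · refine g2 S' (subset_union_left.trans hSS') hoS' hzS' (fun v hv y hy => ?_) F hF
      obtain ⟨hy1, hy2⟩ := mem_sdiff.mp hy
      by_cases hyR : y ∈ R
      · exact hfar v hv y hyR
      · refine hfar' v (mem_union_left _ hv) y (mem_sdiff.mpr ⟨hy1, ?_⟩)
        rw [mem_union, not_or]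
        exact ⟨hy2, hyR⟩
    · refine g2' S' (subset_union_right.trans hSS') hoS' hzS' (fun v hv y hy => ?_) F hF
      obtain ⟨hy1, hy2⟩ := mem_sdiff.mp hy
      by_cases hyU : y ∈ U
      · rw [H.dc]
        exact hfar y hyU v hv
      · refine hfar' v (mem_union_right _ hv) y (mem_sdiff.mpr ⟨hy1, ?_⟩)
        rw [mem_union, not_or]
        exact ⟨hyU, hy2⟩
  · intro y hy hyx
    by_cases hyU : y ∈ U
    · obtain ⟨e1, e2, e3⟩ := g3 y hyU hyx
      simp only [if_pos hyU, if_pos e1]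
      exact ⟨mem_union_left _ e1, e2, e3⟩
    · have hyR : y ∈ R := (mem_union.mp hy).resolve_left hyU
      by_cases hyb : y = b
      · simp only [if_neg hyU, if_pos hyb, if_pos hu]
        exact ⟨mem_union_left _ hu, by omega, by rw [hyb]; exact hbu⟩
      · obtain ⟨e1, e2, e3⟩ := g3' y hyR hyb
        simp only [if_neg hyU, if_neg hyb, if_neg (hUR _ e1)]
        exact ⟨mem_union_right _ e1, by omega, e3⟩
  · -- the special element
    by_cases h1 : o ∈ U ∪ R ∧ z ∈ U ∪ R
    · rw [if_pos h1]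
      rw [if_pos h1] at hsn
      by_cases h2 : o ∈ U ∧ z ∈ U
      · rw [if_pos h2] at hsn g5
        rw [hsn]
        exact ⟨mem_union_left _ g5.1, g5.2⟩
      · rw [if_neg h2] at hsn
        by_cases h3 : o ∈ R ∧ z ∈ R
        · rw [if_pos h3] at hsn g5'
          rw [hsn]
          exact ⟨mem_union_right _ g5'.1, fun h => hxR (h ▸ g5'.1)⟩
        · rw [if_neg h3] at hsn
          rw [hsn]
          exact ⟨mem_union_right _ hb, hbx⟩
    · rw [if_neg h1]
      rw [if_neg h1] at hsn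
      exact hsn
  · -- independence
    have hind : Pr (fun _ => q) Finset.univ (fun F => Ev F ∧ Ev' F) =
        Pr (fun _ => q) Finset.univ Ev * Pr (fun _ => q) Finset.univ Ev' := by
      refine Pr_indep (S := univ.filter fun e => ∃ v ∈ U, ds e v ≤ t / 2)
        (T := univ.filter fun e => ∃ v ∈ R, ds e v ≤ t / 2) (subset_univ _) (subset_univ _)
        ?_ ?_ ?_
      · rw [Finset.disjoint_left]
        intro e he1 he2
        obtain ⟨v, hv, h1⟩ := (mem_filter.mp he1).2
        obtain ⟨y, hy, h2⟩ := (mem_filter.mp he2).2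
        have h3 := hfar v hv y hy
        have h4 := H.dt v e y
        rw [H.dc v e] at h4
        omega
      · intro F _
        refine g1 _ _ fun e he => ?_
        rw [mem_inter, mem_filter]
        exact ⟨fun h => ⟨h, mem_univ _, he⟩, fun h => h.1⟩
      · intro F _
        refine g1' _ _ fun e he => ?_
        rw [mem_inter, mem_filter]
        exact ⟨fun h => ⟨h, mem_univ _, he⟩, fun h => h.1⟩
    rw [hind]
    -- the product
    have hprod : ∏ y ∈ (U ∪ R).erase x,
        fc w v N sn y (ds y (if y ∈ U then par y else if y = b then u else par' y)) =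
        (∏ y ∈ U.erase x, fc w v N sp y (ds y (par y))) *
          (fc w v N sn b (ds b u) * ∏ y ∈ R.erase b, fc w v N sp' y (ds y (par' y))) := by
      have e1 : (U ∪ R).erase x = U.erase x ∪ R := by
        ext y
        simp only [mem_erase, mem_union]
        constructor
        · rintro ⟨h1, h2 | h2⟩
          · exact Or.inl ⟨h1, h2⟩
          · exact Or.inr h2
        · rintro (⟨h1, h2⟩ | h2)
          · exact ⟨h1, Or.inl h2⟩
          · exact ⟨fun h => hxR (h ▸ h2), Or.inr h2⟩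
      have fU : ∀ y ∈ U.erase x, (y = sn ↔ y = sp) := by
        intro y hy
        obtain ⟨hyx, hyU⟩ := mem_erase.mp hy
        by_cases h1 : o ∈ U ∪ R ∧ z ∈ U ∪ R
        · rw [if_pos h1] at hsn
          by_cases h2 : o ∈ U ∧ z ∈ U
          · rw [if_pos h2] at hsn
            rw [hsn]
          · rw [if_neg h2] at hsn g5
            rw [g5]
            refine ⟨fun h => ?_, fun h => absurd h hyx⟩
            exfalso
            by_cases h3 : o ∈ R ∧ z ∈ R
            · rw [if_pos h3] at hsn g5'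
              rw [hsn] at h
              exact hUR sp' g5'.1 (h ▸ hyU)
            · rw [if_neg h3] at hsn
              rw [hsn] at h
              exact hbU (h ▸ hyU)
        · rw [if_neg h1] at hsn
          have h2 : ¬ (o ∈ U ∧ z ∈ U) := fun h =>
            h1 ⟨mem_union_left _ h.1, mem_union_left _ h.2⟩
          rw [if_neg h2] at g5
          rw [hsn, g5]
      have fR : ∀ y ∈ R.erase b, (y = sn ↔ y = sp') := by
        intro y hy
        obtain ⟨hyb, hyR⟩ := mem_erase.mp hy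
        by_cases h1 : o ∈ U ∪ R ∧ z ∈ U ∪ R
        · rw [if_pos h1] at hsn
          by_cases h2 : o ∈ U ∧ z ∈ U
          · rw [if_pos h2] at hsn g5
            have h3 : ¬ (o ∈ R ∧ z ∈ R) := fun h => hUR o h.1 h2.1
            rw [if_neg h3] at g5'
            rw [g5', hsn]
            exact ⟨fun h => absurd g5.1 (h ▸ hUR y hyR), fun h => absurd h hyb⟩
          · rw [if_neg h2] at hsn
            by_cases h3 : o ∈ R ∧ z ∈ R
            · rw [if_pos h3] at hsn
              rw [hsn]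
            · rw [if_neg h3] at hsn g5'
              rw [hsn, g5']
        · rw [if_neg h1] at hsn
          have h2 : ¬ (o ∈ R ∧ z ∈ R) := fun h =>
            h1 ⟨mem_union_right _ h.1, mem_union_right _ h.2⟩
          rw [if_neg h2] at g5'
          rw [hsn, g5']
          exact ⟨fun h => absurd (h ▸ hyR) hxR, fun h => absurd h hyb⟩
      rw [e1, Finset.prod_union (hdisj.mono_left (erase_subset _ _))]
      congr 1
      · refine Finset.prod_congr rfl fun y hy => ?_
        rw [if_pos (mem_of_mem_erase hy)]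
        unfold fc
        rw [if_congr (fU y hy) rfl rfl]
      · rw [← Finset.mul_prod_erase R _ hb]
        congr 1
        · rw [if_neg hbU, if_pos rfl]
        · refine Finset.prod_congr rfl fun y hy => ?_
          have hy' := mem_erase.mp hy
          rw [if_neg (hUR y hy'.2), if_neg hy'.1]
          unfold fc
          rw [if_congr (fR y hy) rfl rfl]
    rw [hprod]
    -- the comparison of the weights
    have hd1 := dm_union' H hu hb hbu
    have hd2 : dm ds U ≤ dm ds (U ∪ R) := dm_mono' subset_union_left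
    have hd3 : dm ds R ≤ dm ds (U ∪ R) := dm_mono' subset_union_right
    have hm : om w v N o z U (max (t + 1) (dm ds U)) * om w v N o z R (max t (dm ds R)) ≤
        W ^ 2 * (fc w v N sn b (ds b u) * om w v N o z (U ∪ R) (max (t + 1) (dm ds (U ∪ R)))) := by
      obtain ⟨c1, c2, c3, c4, c5, c6⟩ := gd_merge_psi H (t := t) (d := ds b u)
        (M := max (t + 1) (dm ds U)) (sR := max t (dm ds R))
        (M' := max (t + 1) (dm ds (U ∪ R))) hbu (le_max_left _ _) (le_max_left _ _)
        (max_le_max le_rfl hd2) (by omega) (by omega)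
      have one : ∀ s, psi (fun _ : ℕ => (1:ℝ)) N s = 1 := fun _ => rfl
      by_cases hoU : o ∈ U <;> by_cases hzU : z ∈ U <;> by_cases hoR : o ∈ R <;>
        by_cases hzR : z ∈ R
      · exact absurd hoU (hUR o hoR)
      · exact absurd hoU (hUR o hoR)
      · exact absurd hzU (hUR z hzR)
      · -- both in U
        have h1 : o ∈ U ∪ R := mem_union_left _ hoU
        have h2 : z ∈ U ∪ R := mem_union_left _ hzU
        rw [if_pos ⟨h1, h2⟩, if_pos ⟨hoU, hzU⟩] at hsn
        rw [if_pos ⟨hoU, hzU⟩] at g5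
        have h3 : b ≠ sn := fun h => hbU (by rw [h, hsn]; exact g5.1)
        unfold om cl fc
        rw [if_pos hoU, if_pos hzU, if_neg hoR, if_neg hzR, if_pos h1, if_pos h2, if_neg h3,
          one, one, one_mul, mul_one]
        exact c4
      · exact absurd hoU (hUR o hoR)
      · exact absurd hoU (hUR o hoR)
      · -- o in U, z in R
        have h1 : o ∈ U ∪ R := mem_union_left _ hoU
        have h2 : z ∈ U ∪ R := mem_union_right _ hzR
        rw [if_pos ⟨h1, h2⟩, if_neg (fun h => hzU h.2), if_neg (fun h => hoR h.1)] at hsn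
        unfold om cl fc
        rw [if_pos hoU, if_neg hzU, if_neg hoR, if_pos hzR, if_pos h1, if_pos h2,
          if_pos hsn.symm, one, mul_one]
        exact c6
      · -- o in U
        have h1 : o ∈ U ∪ R := mem_union_left _ hoU
        have h2 : z ∉ U ∪ R := by rw [mem_union, not_or]; exact ⟨hzU, hzR⟩
        rw [if_neg (fun h => h2 h.2)] at hsn
        unfold om cl fc
        rw [if_pos hoU, if_neg hzU, if_neg hoR, if_neg hzR, if_pos h1, if_neg h2,
          if_neg (by rw [hsn]; exact hbx)]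
        exact c2
      · exact absurd hzU (hUR z hzR)
      · -- z in U, o in R
        have h1 : o ∈ U ∪ R := mem_union_right _ hoR
        have h2 : z ∈ U ∪ R := mem_union_left _ hzU
        rw [if_pos ⟨h1, h2⟩, if_neg (fun h => hoU h.1), if_neg (fun h => hzR h.2)] at hsn
        unfold om cl fc
        rw [if_neg hoU, if_pos hzU, if_pos hoR, if_neg hzR, if_pos h1, if_pos h2,
          if_pos hsn.symm, one, mul_one]
        exact c6
      · exact absurd hzU (hUR z hzR)
      · -- z in U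
        have h1 : o ∉ U ∪ R := by rw [mem_union, not_or]; exact ⟨hoU, hoR⟩
        have h2 : z ∈ U ∪ R := mem_union_left _ hzU
        rw [if_neg (fun h => h1 h.1)] at hsn
        unfold om cl fc
        rw [if_neg hoU, if_pos hzU, if_neg hoR, if_neg hzR, if_neg h1, if_pos h2,
          if_neg (by rw [hsn]; exact hbx)]
        exact c2
      · -- both in R
        have h1 : o ∈ U ∪ R := mem_union_right _ hoR
        have h2 : z ∈ U ∪ R := mem_union_right _ hzR
        rw [if_pos ⟨h1, h2⟩, if_neg (fun h => hoU h.1), if_pos ⟨hoR, hzR⟩] at hsn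
        rw [if_pos ⟨hoR, hzR⟩] at g5'
        have h3 : b ≠ sn := fun h => g5'.2 (by rw [← hsn, ← h])
        unfold om cl fc
        rw [if_neg hoU, if_neg hzU, if_pos hoR, if_pos hzR, if_pos h1, if_pos h2, if_neg h3,
          one, one, mul_one, mul_one]
        exact c5
      · -- o in R
        have h1 : o ∈ U ∪ R := mem_union_right _ hoR
        have h2 : z ∉ U ∪ R := by rw [mem_union, not_or]; exact ⟨hzU, hzR⟩
        rw [if_neg (fun h => h2 h.2)] at hsn
        unfold om cl fc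
        rw [if_neg hoU, if_neg hzU, if_pos hoR, if_neg hzR, if_pos h1, if_neg h2,
          if_neg (by rw [hsn]; exact hbx)]
        exact c3
      · -- z in R
        have h1 : o ∉ U ∪ R := by rw [mem_union, not_or]; exact ⟨hoU, hoR⟩
        have h2 : z ∈ U ∪ R := mem_union_right _ hzR
        rw [if_neg (fun h => h1 h.1)] at hsn
        unfold om cl fc
        rw [if_neg hoU, if_neg hzU, if_neg hoR, if_pos hzR, if_neg h1, if_pos h2,
          if_neg (by rw [hsn]; exact hbx)]
        exact c3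
      · -- none
        have h1 : o ∉ U ∪ R := by rw [mem_union, not_or]; exact ⟨hoU, hoR⟩
        have h2 : z ∉ U ∪ R := by rw [mem_union, not_or]; exact ⟨hzU, hzR⟩
        rw [if_neg (fun h => h1 h.1)] at hsn
        unfold om cl fc
        rw [if_neg hoU, if_neg hzU, if_neg hoR, if_neg hzR, if_neg h1, if_neg h2,
          if_neg (by rw [hsn]; exact hbx)]
        exact c1
    have n1 := H.prod_nn ha1 k (U.erase x) sp fun y => ds y (par y)
    have n2 := H.prod_nn ha1 k' (R.erase b) sp' fun y => ds y (par' y)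
    have n3 := H.fpos sn b (ds b u)
    have n4 := H.opos (U ∪ R) (max (t + 1) (dm ds (U ∪ R)))
    obtain ⟨P1, hP1⟩ : ∃ P1, P1 = ∏ y ∈ U.erase x, fc w v N sp y (ds y (par y)) := ⟨_, rfl⟩
    obtain ⟨P2, hP2⟩ : ∃ P2, P2 = ∏ y ∈ R.erase b, fc w v N sp' y (ds y (par' y)) := ⟨_, rfl⟩
    rw [← hP1] at g4 n1 ⊢
    rw [← hP2] at g4' n2 ⊢
    have h5 : W ^ 2 ≤ a := le_trans (by nlinarith) ha
    calc Pr (fun _ => q) Finset.univ Ev * Pr (fun _ => q) Finset.univ Ev'
        ≤ (a ^ k * P1 * om w v N o z U (max (t + 1) (dm ds U))) *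
          (a ^ k' * P2 * om w v N o z R (max t (dm ds R))) :=
          mul_le_mul g4 g4' (Pr_nonneg H.ok _ _) (mul_nonneg n1 (H.opos _ _).le)
      _ = (a ^ k * P1) * (a ^ k' * P2) *
          (om w v N o z U (max (t + 1) (dm ds U)) * om w v N o z R (max t (dm ds R))) := by ring
      _ ≤ (a ^ k * P1) * (a ^ k' * P2) *
          (W ^ 2 * (fc w v N sn b (ds b u) *
            om w v N o z (U ∪ R) (max (t + 1) (dm ds (U ∪ R))))) :=
          mul_le_mul_of_nonneg_left hm (mul_nonneg n1 n2)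
      _ ≤ (a ^ k * P1) * (a ^ k' * P2) *
          (a * (fc w v N sn b (ds b u) *
            om w v N o z (U ∪ R) (max (t + 1) (dm ds (U ∪ R))))) := by
          refine mul_le_mul_of_nonneg_left ?_ (mul_nonneg n1 n2)
          exact mul_le_mul_of_nonneg_right h5 (by positivity)
      _ = _ := by rw [pow_succ, pow_add]; ring

/-- OUT -/
theorem gd_out (H : KS ds N q w v o z Ds C W) (ha1 : 1 ≤ a) (ha : C * W ^ 2 ≤ a)
    {t t' k : ℕ} {S : Finset E} {x : E} (htt : t + 1 ≤ t') (ht' : t' ≤ N) (hx : x ∈ S)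
    (hG : Gd ds N q w v o z Ds a t (t + 1) (max (t + 1) (dm ds S)) k S x) :
    Gd ds N q w v o z Ds a t' (t + 1) (max t' (dm ds S)) (k + 1) S x := by
  classical
  have hC := H.hC
  have hW := H.hW
  have hWa : W ≤ a := le_trans (by nlinarith) ha
  obtain ⟨Ev, par, rk, sp, g1, g2, g3, g5, g4⟩ := hG
  obtain ⟨s, hs⟩ : ∃ s, s = max (t + 1) (dm ds S) := ⟨_, rfl⟩
  obtain ⟨r, hr⟩ : ∃ r, r = dm ds S + t / 2 + 1 := ⟨_, rfl⟩
  obtain ⟨D, hD⟩ : ∃ D, D = t' / 2 := ⟨_, rfl⟩
  rw [← hs] at g4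
  have hloc : ∀ F F' : Finset E, (∀ e, (∃ v ∈ S, ds e v ≤ t' / 2) → (e ∈ F ↔ e ∈ F')) →
      (Ev F ↔ Ev F') := by
    intro F F' hFF
    refine g1 F F' fun e he => hFF e ?_
    obtain ⟨v, hv, h⟩ := he
    exact ⟨v, hv, by omega⟩
  have g2s : ∀ S' : Finset E, S ⊆ S' → o ∈ S' → z ∈ S' → (∀ v ∈ S, ∀ w ∈ S' \ S, t' < ds v w) →
      ∀ F : Finset E, Ds S' F → Ev F := by
    intro S' hSS' hoS' hzS' hfar F hF
    refine g2 S' hSS' hoS' hzS' (fun v hv y hy => ?_) F hF
    have := hfar v hv y hy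
    omega
  by_cases hboth : o ∈ S ∧ z ∈ S
  · refine ⟨Ev, par, rk, sp, hloc, g2s, g3, g5, H.step ha1 g4 ?_⟩
    unfold om cl
    rw [if_pos hboth.1, if_pos hboth.2]
    unfold psi
    linarith
  rcases le_or_gt r D with hrD | hrD
  · -- the annulus event
    obtain ⟨c, Ch, hcS, c1, c2, c3⟩ := H.ann (t' := t') hx hboth (r := r) (D := D) (by omega) hrD
      (by omega) (by omega) (by omega)
    refine ⟨fun F => Ev F ∧ Ch F, par, rk, sp, ?_, ?_, g3, g5, ?_⟩
    · intro F F' hFF
      exact and_congr (hloc F F' hFF) (c1 F F' fun e _ he' => hFF e ⟨c, hcS, by omega⟩)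
    · intro S' hSS' hoS' hzS' hfar F hF
      exact ⟨g2s S' hSS' hoS' hzS' hfar F hF, c2 S' F hSS' hoS' hzS' hfar hF⟩
    · have hind : Pr (fun _ => q) Finset.univ (fun F => Ev F ∧ Ch F) =
          Pr (fun _ => q) Finset.univ Ev * Pr (fun _ => q) Finset.univ Ch := by
        refine Pr_indep (S := univ.filter fun e => ∃ v ∈ S, ds e v ≤ t / 2)
          (T := univ.filter fun e => r ≤ ds e c ∧ ds e c ≤ D) (subset_univ _) (subset_univ _)
          ?_ ?_ ?_
        · rw [Finset.disjoint_left]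
          intro e he1 he2
          obtain ⟨v, hv, h1⟩ := (mem_filter.mp he1).2
          have h2 := (mem_filter.mp he2).2
          have h3 := H.dt e v c
          have h4 := ds_le_dm' (ds := ds) hv hcS
          omega
        · intro F _
          refine g1 _ _ fun e he => ?_
          rw [mem_inter, mem_filter]
          exact ⟨fun h => ⟨h, mem_univ _, he⟩, fun h => h.1⟩
        · intro F _
          refine c1 _ _ fun e he he' => ?_
          rw [mem_inter, mem_filter]
          exact ⟨fun h => ⟨h, mem_univ _, he, he'⟩, fun h => h.1⟩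
      rw [hind]
      have hmax : max t' (dm ds S) = t' := by omega
      rw [hmax]
      unfold om at g4 ⊢
      obtain ⟨f, hf⟩ : ∃ f, f = cl w v o z S := ⟨_, rfl⟩
      have hf2 : ∀ r, 1 ≤ r → 0 < f r := by rw [hf]; exact H.cp S
      have hf3 : ∀ r s, 1 ≤ r → r ≤ s → f s ≤ f r := by rw [hf]; exact H.cm S
      have hf4 : ∀ r s, 1 ≤ r → r ≤ s → s ≤ 8 * r → f r ≤ W * f s := by rw [hf]; exact H.cd S
      rw [← hf] at g4 c3 ⊢
      rw [H.pmid (by omega) ht']
      rw [H.pmid (s := s) (by omega) (by omega)] at g4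
      have zr := hf2 r (by omega)
      have zs := hf2 s (by omega)
      have zD := hf2 D (by omega)
      have zt := hf2 t' (by omega)
      have u1 : f s ≤ W * f r := by
        rcases le_total s r with h | h
        · exact hf4 s r (by omega) h (by omega)
        · refine (hf3 r s (by omega) h).trans ?_
          nlinarith
      have u2 : f D ≤ W * f t' := hf4 D t' (by omega) (by omega) (by omega)
      have u3 : f s * (C * (f D / f r)) ≤ a * f t' := by
        calc f s * (C * (f D / f r)) ≤ (W * f r) * (C * (f D / f r)) :=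
              mul_le_mul_of_nonneg_right u1 (by positivity)
          _ = C * W * f D := by field_simp
          _ ≤ C * W * (W * f t') := mul_le_mul_of_nonneg_left u2 (by positivity)
          _ = (C * W ^ 2) * f t' := by ring
          _ ≤ a * f t' := mul_le_mul_of_nonneg_right ha zt.le
      have hprod := H.prod_nn ha1 k (S.erase x) sp fun y => ds y (par y)
      calc Pr (fun _ => q) Finset.univ Ev * Pr (fun _ => q) Finset.univ Ch
          ≤ (a ^ k * (∏ y ∈ S.erase x, fc w v N sp y (ds y (par y))) * f s) *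
            (C * (f D / f r)) :=
            mul_le_mul g4 c3 (Pr_nonneg H.ok _ _) (mul_nonneg hprod zs.le)
        _ = a ^ k * (∏ y ∈ S.erase x, fc w v N sp y (ds y (par y))) *
            (f s * (C * (f D / f r))) := by
            ring
        _ ≤ a ^ k * (∏ y ∈ S.erase x, fc w v N sp y (ds y (par y))) * (a * f t') :=
            mul_le_mul_of_nonneg_left u3 hprod
        _ = _ := by rw [pow_succ]; ring
  · refine ⟨Ev, par, rk, sp, hloc, g2s, g3, g5, H.step ha1 g4 ?_⟩
    refine (H.odbl S (s' := max t' (dm ds S)) (by omega) (by omega)).trans ?_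
    exact mul_le_mul_of_nonneg_right hWa (H.opos _ _).le

/-! ### components -/

theorem kcmp_conn (H : KS ds N q w v o z Ds C W) {t : ℕ} {S : Finset E} {y : E} (hy : y ∈ S) :
    conn ds t (kcmp ds t S y) := by
  intro A hA hne hne'
  by_contra hcon
  push Not at hcon
  by_cases hyA : y ∈ A
  · obtain ⟨z, hz⟩ := hne'
    rw [Finset.mem_sdiff] at hz
    refine hz.2 (kcmp_ind hy (P := fun z => z ∈ A) hyA ?_ z hz.1)
    intro u hu v hv huA huv
    by_contra hvA
    have := hcon u huA v (Finset.mem_sdiff.2 ⟨hv, hvA⟩)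
    omega
  · obtain ⟨z, hz⟩ := hne
    refine kcmp_ind hy (P := fun z => z ∉ A) hyA ?_ z (hA hz) hz
    intro u hu v hv huA huv hvA
    have := hcon v hvA u (Finset.mem_sdiff.2 ⟨hu, huA⟩)
    rw [H.dc] at this
    omega

/-- a `0`-connected set lies at one position -/
theorem conn_zero (H : KS ds N q w v o z Ds C W) {S : Finset E} {x : E} (hx : x ∈ S)
    (hc : conn ds 0 S) : ∀ y ∈ S, ds y x = 0 := by
  by_contra hcon
  push Not at hcon
  obtain ⟨z, hz, hzx⟩ := hcon
  obtain ⟨u, hu, v, hv, huv⟩ := hc (S.filter (fun y => ds y x = 0)) (Finset.filter_subset _ _)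
    ⟨x, Finset.mem_filter.2 ⟨hx, H.d0 x⟩⟩
    ⟨z, Finset.mem_sdiff.2 ⟨hz, fun h => hzx (Finset.mem_filter.1 h).2⟩⟩
  rw [Finset.mem_filter] at hu
  rw [Finset.mem_sdiff, Finset.mem_filter] at hv
  refine hv.2 ⟨hv.1, ?_⟩
  have h1 := H.dt v u x
  rw [H.dc v u] at h1
  omega

/-- the growth of the component of `x` by merging the other components -/
theorem gd_grow (H : KS ds N q w v o z Ds C W) (ha1 : 1 ≤ a) (ha : C * W ^ 2 ≤ a) {t : ℕ}
    {S : Finset E} {x : E} (hc : conn ds (t + 1) S)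
    (hcmp : ∀ b ∈ S, Gd ds N q w v o z Ds a t (t + 1) (max t (dm ds (kcmp ds t S b)))
      (4 * (kcmp ds t S b).card - 3) (kcmp ds t S b) b) :
    ∀ m : ℕ, ∀ U : Finset E, (S \ U).card = m → U ⊆ S → U ≠ S → x ∈ U →
      (∀ y ∈ U, ∀ z ∈ S, z ∉ U → t < ds y z) →
      Gd ds N q w v o z Ds a t (t + 1) (max (t + 1) (dm ds U)) (4 * U.card - 2) U x →
      Gd ds N q w v o z Ds a t (t + 1) (max (t + 1) (dm ds S)) (4 * S.card - 4) S x := by
  intro m
  induction m using Nat.strong_induction_on with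
  | _ m ihm =>
    intro U hUm hUS hUne hxU hcl hG
    have hne : (S \ U).Nonempty := by
      rw [Finset.sdiff_nonempty]
      intro h
      exact hUne (Finset.Subset.antisymm hUS h)
    obtain ⟨u, hu, b, hb', hub⟩ := hc U hUS ⟨x, hxU⟩ hne
    obtain ⟨hbS, hbU⟩ := Finset.mem_sdiff.1 hb'
    have hRS := kcmp_sub (ds := ds) t S b
    have hbR : b ∈ kcmp ds t S b := self_kcmp hbS
    have hRU : ∀ z ∈ kcmp ds t S b, z ∉ U := by
      refine kcmp_ind hbS hbU ?_
      intro v hv w hw hvU hvw hwU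
      have := hcl w hwU v (hRS hv) hvU
      rw [H.dc] at this
      omega
    have hdisj : Disjoint U (kcmp ds t S b) := by
      rw [Finset.disjoint_right]
      exact hRU
    have hfar : ∀ v ∈ U, ∀ w ∈ kcmp ds t S b, t < ds v w := fun v hv w hw =>
      hcl v hv w (hRS hw) (hRU w hw)
    have hM := gd_merge H ha1 ha hxU hu hbR (by rw [H.dc]; exact hub) hfar hG (hcmp b hbS)
    have hcard : (U ∪ kcmp ds t S b).card = U.card + (kcmp ds t S b).card :=
      Finset.card_union_of_disjoint hdisj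
    have hc1 : 1 ≤ U.card := Finset.card_pos.2 ⟨x, hxU⟩
    have hc2 : 1 ≤ (kcmp ds t S b).card := Finset.card_pos.2 ⟨b, hbR⟩
    have e : 4 * U.card - 2 + (4 * (kcmp ds t S b).card - 3) + 1 =
        4 * (U ∪ kcmp ds t S b).card - 4 := by omega
    rw [e] at hM
    have hU'S : U ∪ kcmp ds t S b ⊆ S := Finset.union_subset hUS hRS
    by_cases hfin : U ∪ kcmp ds t S b = S
    · rw [hfin] at hM
      exact hM
    · refine ihm (S \ (U ∪ kcmp ds t S b)).card ?_ (U ∪ kcmp ds t S b) rfl hU'S hfin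
        (Finset.mem_union_left _ hxU) ?_
        (gd_mono H hM le_rfl le_rfl (by omega) ha1)
      · rw [← hUm]
        apply Finset.card_lt_card
        rw [Finset.ssubset_iff_of_subset
          (Finset.sdiff_subset_sdiff (Finset.Subset.refl S) Finset.subset_union_left)]
        exact ⟨b, hb', fun h => (Finset.mem_sdiff.1 h).2 (Finset.mem_union_right _ hbR)⟩
      · intro y hy z hz hzn
        rw [Finset.mem_union, not_or] at hzn
        rcases Finset.mem_union.1 hy with hy | hy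
        · exact hcl y hy z hz hzn.1
        · exact kcmp_far hy hz hzn.2

/-- the whole set from its components -/
theorem gd_whole (H : KS ds N q w v o z Ds C W) (ha1 : 1 ≤ a) (ha : C * W ^ 2 ≤ a) {t : ℕ}
    {S : Finset E} {x : E} (hx : x ∈ S) (hc : conn ds (t + 1) S)
    (hall : kcmp ds t S x ≠ S)
    (hcmp : ∀ b ∈ S, Gd ds N q w v o z Ds a t (t + 1) (max t (dm ds (kcmp ds t S b)))
      (4 * (kcmp ds t S b).card - 3) (kcmp ds t S b) b) :
    Gd ds N q w v o z Ds a t (t + 1) (max (t + 1) (dm ds S)) (4 * S.card - 4) S x := by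
  have h1 := gd_start H ha1 ha (hcmp x hx)
  have hc1 : 1 ≤ (kcmp ds t S x).card := Finset.card_pos.2 ⟨x, self_kcmp hx⟩
  have e1 : 4 * (kcmp ds t S x).card - 3 + 1 = 4 * (kcmp ds t S x).card - 2 := by omega
  rw [e1] at h1
  exact gd_grow H ha1 ha hc hcmp _ (kcmp ds t S x) rfl (kcmp_sub t S x) hall (self_kcmp hx)
    (fun y hy z hz hzn => kcmp_far hy hz hzn) h1

/-- KEY' -/
theorem gd_key (H : KS ds N q w v o z Ds C W) (ha1 : 1 ≤ a) (ha : C * W ^ 2 ≤ a) :
    ∀ (t t' : ℕ) (S : Finset E) (x : E), t ≤ t' → t' ≤ N → x ∈ S →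
      conn ds t S →
      Gd ds N q w v o z Ds a t' t (max t' (dm ds S)) (4 * S.card - 3) S x := by
  intro t
  induction t with
  | zero =>
    intro t' S x _ ht' hx hc
    have h0 := conn_zero H hx hc
    have hcard : 1 ≤ S.card := Finset.card_pos.2 ⟨x, hx⟩
    exact gd_mono H (gd_base H ha ht' hx h0) le_rfl le_rfl (by omega) ha1
  | succ t ih =>
    intro t' S x htt' ht' hx hc
    by_cases hall : kcmp ds t S x = S
    · have hct : conn ds t S := by
        rw [← hall]
        exact kcmp_conn H hx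
      exact gd_mono H (ih t' S x (by omega) ht' hx hct) (Nat.le_succ t) le_rfl
        le_rfl ha1
    · have hcmp : ∀ b ∈ S, Gd ds N q w v o z Ds a t (t + 1) (max t (dm ds (kcmp ds t S b)))
          (4 * (kcmp ds t S b).card - 3) (kcmp ds t S b) b := by
        intro b hb'
        exact gd_mono H (ih t (kcmp ds t S b) b le_rfl (by omega) (self_kcmp hb')
          (kcmp_conn H hb')) (Nat.le_succ t) le_rfl le_rfl ha1
      have h2 := gd_whole H ha1 ha hx hc hall hcmp
      have h3 := gd_out H ha1 ha htt' ht' hx h2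
      have hc3 : 1 ≤ S.card := Finset.card_pos.2 ⟨x, hx⟩
      exact gd_mono H h3 le_rfl le_rfl (by omega) ha1

/-- The bound for one set. -/
theorem key (H : KS ds N q w v o z Ds C W) {S : Finset E} (hoS : o ∈ S) (hzS : z ∈ S)
    (hN : ∀ y ∈ S, ds y o ≤ N) :
    ∃ (par : E → E) (rk : E → ℕ) (sp : E), (∀ y ∈ S, y ≠ o → par y ∈ S ∧ rk (par y) < rk y) ∧
      sp ∈ S ∧ sp ≠ o ∧
      Pr (fun _ => q) Finset.univ (Ds S) ≤
        (C * W ^ 2) ^ (4 * S.card) * ∏ y ∈ S.erase o, fc w v N sp y (ds y (par y)) := by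
  have hC := H.hC
  have hW := H.hW
  have hN1 := H.hN
  have hconn : conn ds N S := by
    intro A hA hne hne'
    by_cases ho : o ∈ A
    · obtain ⟨z, hz⟩ := hne'
      refine ⟨o, ho, z, hz, ?_⟩
      rw [H.dc]
      exact hN z (mem_sdiff.1 hz).1
    · obtain ⟨z, hz⟩ := hne
      exact ⟨z, hz, o, mem_sdiff.2 ⟨hoS, ho⟩, hN z (hA hz)⟩
  have ha1 : 1 ≤ C * W ^ 2 := by nlinarith [one_le_pow₀ hW (n := 2)]
  have h1 := gd_key H ha1 le_rfl N N S o le_rfl le_rfl hoS hconn
  obtain ⟨Ev, par, rk, sp, -, g2, g3, g5, g4⟩ := gd_mono H h1 le_rfl le_rfl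
    (show 4 * S.card - 3 ≤ 4 * S.card by omega) ha1
  rw [if_pos ⟨hoS, hzS⟩] at g5
  refine ⟨par, rk, sp, fun y hy hyx => ⟨(g3 y hy hyx).1, (g3 y hy hyx).2.1⟩, g5.1, g5.2, ?_⟩
  have hom : om w v N o z S (max N (dm ds S)) = 1 := by
    unfold om cl
    rw [if_pos hoS, if_pos hzS]
    rfl
  rw [hom, mul_one] at g4
  refine (Pr_mono H.ok (B := Ev) fun F _ hF => ?_).trans g4
  refine g2 S (Finset.Subset.refl S) hoS hzS (fun v _ y hy => ?_) F hF
  rw [Finset.sdiff_self] at hy
  exact absurd hy (Finset.notMem_empty y)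

end

end Pool.Agent.H953.K2
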