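import Pool.Agent.H953.Pl6
import Pool.Agent.H953.DLow

/-!
The derivative of the percolation probability above the critical point: two-sided bounds.
-/

set_option autoImplicit false
set_option maxHeartbeats 1000000

namespace Pool.Agent.H953

open H974 Finset Filter Topology
open scoped ContDiff

/-- The square of the mean is at most the mean of the square. -/
theorem Ex_jensen {E : Type} [DecidableEq E] {p : E → ℝ} (hp : Ok p) (S : Finset E)
    (f : Finset E → ℝ) : (Ex p S f) ^ 2 ≤ Ex p S (fun F => f F ^ 2) := by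
  have h1 : 0 ≤ Ex p S (fun F => (f F - Ex p S f) ^ 2) := Ex_nonneg hp (fun F _ => sq_nonneg _)
  obtain ⟨m, hm⟩ : ∃ m, m = Ex p S f := ⟨_, rfl⟩
  rw [← hm] at h1 ⊢
  have h2 : Ex p S (fun F => (f F - m) ^ 2) = Ex p S (fun F => f F ^ 2) - 2 * m * Ex p S f + m^2 := by
    have e1 : (fun F : Finset E => (f F - m) ^ 2) =
        fun F => (f F ^ 2 - 2 * m * f F) + m ^ 2 := by
      funext F; ring
    rw [e1, Ex_add p S (fun F => f F ^ 2 - 2 * m * f F) (fun _ => m ^ 2), Ex_const,
      Ex_sub p S (fun F => f F ^ 2) (fun F => 2 * m * f F), Ex_mul_left]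
  rw [h2, ← hm] at h1
  nlinarith

/-- The spectral gap inequality for finite product measures. -/
theorem poinc {E : Type} [DecidableEq E] {p : E → ℝ} (hp : Ok p) (S : Finset E) :
    ∀ f : Finset E → ℝ, Ex p S (fun F => f F ^ 2) - (Ex p S f) ^ 2 ≤
      ∑ e ∈ S, p e * (1 - p e) * Ex p (S.erase e) (fun F => (f (insert e F) - f F) ^ 2) := by
  induction S using Finset.induction_on with
  | empty => intro f; simp [Ex_empty]
  | insert a S ha ih =>
    intro f
    have i1 := ih (fun F => f (insert a F))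
    have i0 := ih f
    have hpa := hp a
    have j := Ex_jensen hp S (fun F => f (insert a F) - f F)
    rw [Ex_sub] at j
    rw [Ex_insert p ha, Ex_insert p ha, Finset.sum_insert ha, Finset.erase_insert ha]
    have e1 : ∑ e ∈ S, p e * (1 - p e) * Ex p ((insert a S).erase e)
        (fun F => (f (insert e F) - f F) ^ 2) =
        p a * ∑ e ∈ S, p e * (1 - p e) * Ex p (S.erase e)
          (fun F => (f (insert a (insert e F)) - f (insert a F)) ^ 2) +
        (1 - p a) * ∑ e ∈ S, p e * (1 - p e) * Ex p (S.erase e)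
          (fun F => (f (insert e F) - f F) ^ 2) := by
      rw [Finset.mul_sum, Finset.mul_sum, ← Finset.sum_add_distrib]
      apply Finset.sum_congr rfl
      intro e he
      have hne : e ≠ a := fun h => ha (h ▸ he)
      have h2 : (insert a S).erase e = insert a (S.erase e) := by
        rw [Finset.erase_insert_of_ne hne.symm]
      have h3 : a ∉ S.erase e := fun h => ha (Finset.mem_of_mem_erase h)
      rw [h2, Ex_insert p h3]
      have h4 : (fun F : Finset E => (f (insert e (insert a F)) - f (insert a F)) ^ 2) =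
          fun F => (f (insert a (insert e F)) - f (insert a F)) ^ 2 := by
        funext F
        rw [Finset.insert_comm]
      rw [h4]
      ring
    rw [e1]
    have h5 := mul_le_mul_of_nonneg_left i1 hpa.1
    have h6 := mul_le_mul_of_nonneg_left i0 (show 0 ≤ 1 - p a by linarith [hpa.2])
    have h7 : 0 ≤ p a * (1 - p a) := mul_nonneg hpa.1 (by linarith [hpa.2])
    have h8 := mul_le_mul_of_nonneg_left j h7
    obtain ⟨x1, hx1⟩ : ∃ x, x = Ex p S (fun F => f (insert a F) ^ 2) := ⟨_, rfl⟩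
    obtain ⟨x0, hx0⟩ : ∃ x, x = Ex p S (fun F => f F ^ 2) := ⟨_, rfl⟩
    obtain ⟨y1, hy1⟩ : ∃ x, x = Ex p S (fun F => f (insert a F)) := ⟨_, rfl⟩
    obtain ⟨y0, hy0⟩ : ∃ x, x = Ex p S f := ⟨_, rfl⟩
    simp only [← hx1, ← hx0, ← hy1, ← hy0] at h5 h6 h8 ⊢
    have h10 : (p a * x1 + (1 - p a) * x0) - (p a * y1 + (1 - p a) * y0) ^ 2 =
        p a * (x1 - y1 ^ 2) + (1 - p a) * (x0 - y0 ^ 2) + p a * (1 - p a) * (y1 - y0) ^ 2 := by
      ring
    rw [h10]
    linarith

/-- The variance of the one-arm event is at most its derivative. -/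
theorem arm_var {p : ℝ} (h0 : 0 ≤ p) (h1 : p ≤ 1) (n : ℕ) :
    arm p n * (1 - arm p n) ≤ p * (1 - p) * H31K.dArm p n := by
  have h := poinc (okq h0 h1) (boxE n) (fun F => ind (Arm n F))
  have e1 : (fun F : Finset Edg => ind (Arm n F) ^ 2) = fun F => ind (Arm n F) := by
    funext F
    rw [sq, ind_sq]
  have e2 : ∑ e ∈ boxE n, p * (1 - p) * Ex (fun _ : Edg => p) ((boxE n).erase e)
      (fun F => (ind (Arm n (insert e F)) - ind (Arm n F)) ^ 2) = p * (1 - p) * H31K.dArm p n := by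
    unfold H31K.dArm
    rw [Finset.mul_sum]
    apply Finset.sum_congr rfl
    intro e _
    congr 1
    unfold Pr
    apply Ex_congr
    intro F _
    unfold PivA
    by_cases h3 : Arm n F
    · have h4 : Arm n (insert e F) := h3.mono (Finset.subset_insert _ _)
      rw [ind_of h3, ind_of h4, ind_not_of (fun h => h.2 h3)]
      norm_num
    · by_cases h4 : Arm n (insert e F)
      · rw [ind_not_of h3, ind_of h4, ind_of (⟨h4, h3⟩ : Arm n (insert e F) ∧ ¬ Arm n F)]
        norm_num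
      · rw [ind_not_of h3, ind_not_of h4, ind_not_of (fun h => h4 h.1)]
        norm_num
  simp only [e1] at h
  rw [e2] at h
  have e3 : Ex (fun _ => p) (boxE n) (fun F => ind (Arm n F)) = arm p n := rfl
  rw [e3] at h
  linarith

/-- The one-arm event can fail. -/
theorem arm_lt : ∃ δ : ℝ, 0 < δ ∧ ∀ p : ℝ, 1/2 ≤ p → p ≤ 3/4 → ∀ n : ℕ, 1 ≤ n →
    arm p n ≤ 1 - δ := by
  refine ⟨(1/4 : ℝ) ^ (boxE 1).card, by positivity, ?_⟩
  intro p hp hp1 n hn
  have h0 : 0 ≤ p := by linarith
  have h1 : p ≤ 1 := by linarith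
  have h2 := arm_anti h0 h1 hn
  have h3 := force (p := p) (δ := 1/4) (by norm_num) (by linarith) (by linarith) (boxE 1) (boxE 1)
    ∅ (fun F => ind (¬ Arm 1 F)) (Finset.Subset.refl _) (Finset.empty_subset _)
    (fun F => ind_nonneg _)
  have h4 : Ex (fun _ : Edg => p) (boxE 1) (fun F => ind (¬ Arm 1 ((F \ boxE 1) ∪ ∅))) = 1 := by
    have : Ex (fun _ : Edg => p) (boxE 1) (fun F => ind (¬ Arm 1 ((F \ boxE 1) ∪ ∅))) =
        Ex (fun _ : Edg => p) (boxE 1) (fun _ => (1:ℝ)) := by
      apply Ex_congr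
      intro F hF
      have h5 : (F \ boxE 1) ∪ ∅ = ∅ := by
        rw [Finset.union_empty, Finset.sdiff_eq_empty_iff_subset]
        exact hF
      rw [h5]
      apply ind_of
      rintro ⟨v, hv, hr⟩
      have h6 : ((0, 0) : Vtx) = v := by
        have h7 : ∀ w, Reach ((↑(∅ : Finset Edg) : Set Edg) ∩ ↑(boxE 1)) (0, 0) w →
            ((0,0) : Vtx) = w := by
          intro w hw
          induction hw with
          | refl => rfl
          | tail _ hs _ =>
            obtain ⟨e, he, _⟩ := hs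
            exact absurd he.1 (by simp)
        exact h7 v hr
      rw [← h6] at hv
      unfold onB inR at hv
      simp at hv
    rw [this, Ex_const]
  rw [h4, mul_one] at h3
  have h5 : Ex (fun _ : Edg => p) (boxE 1) (fun F => ind (¬ Arm 1 F)) = 1 - arm p 1 := by
    unfold arm Pr
    rw [← Ex_const (fun _ : Edg => p) (boxE 1) 1, ← Ex_sub]
    apply Ex_congr
    intro F _
    rw [ind_not]
  rw [h5] at h3
  linarith

/-- Lower bound for the derivative of the one-arm probability. -/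
theorem dlow2 : ∃ c : ℝ, 0 < c ∧ ∀ p : ℝ, 1/2 < p → p ≤ 3/4 →
    ∃ n0 : ℕ, ∀ n : ℕ, n0 ≤ n → c * (p - 1/2) ^ (-(31/36) : ℝ) ≤ H31K.dArm p n := by
  obtain ⟨c1, h, hc1, hh, hl⟩ := dlow
  obtain ⟨c2, hc2, hth⟩ := Pool.Agent.Y554.NC.theta_lower'
  obtain ⟨δ, hδ, hlt⟩ := arm_lt
  obtain ⟨h', hh'⟩ : ∃ h' : ℝ, h' = min h (1/4) := ⟨_, rfl⟩
  have hh0 : 0 < h' := by rw [hh']; exact lt_min hh (by norm_num)
  have hhh : h' ≤ h := by rw [hh']; exact min_le_left _ _
  obtain ⟨c3, hc3⟩ : ∃ c3 : ℝ, c3 = c2 * h' ^ (5/36 : ℝ) * δ := ⟨_, rfl⟩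
  have hc30 : 0 < c3 := by rw [hc3]; positivity
  obtain ⟨A, hA⟩ : ∃ A : ℝ, A = h' ^ (-(31/36) : ℝ) := ⟨_, rfl⟩
  have hA0 : 0 < A := by rw [hA]; positivity
  refine ⟨min c1 (c3 / A), lt_min hc1 (by positivity), ?_⟩
  intro p hp hp1
  have hs : 0 < p - 1/2 := by linarith
  have hsp : 0 < (p - 1/2) ^ (-(31/36) : ℝ) := Real.rpow_pos_of_pos hs _
  obtain ⟨q, hq⟩ : ∃ q : unitInterval, q = ⟨p, by linarith, by linarith⟩ := ⟨_, rfl⟩
  have hqp : (q:ℝ) = p := by rw [hq]
  rcases le_or_gt p (1/2 + h') with hcase | hcase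
  · obtain ⟨n0, hn0⟩ := hl q (by rw [hqp]; exact hp) (by rw [hqp]; linarith)
    refine ⟨n0, fun n hn => ?_⟩
    have := hn0 n hn
    rw [hqp] at this
    refine le_trans ?_ this
    exact mul_le_mul_of_nonneg_right (min_le_left _ _) hsp.le
  · refine ⟨1, fun n hn => ?_⟩
    have e1 := hth q (by rw [hqp]; exact hp)
    have e2 := theta_le_arm q n
    rw [hqp] at e1 e2
    have e3 : h' ^ (5/36 : ℝ) ≤ (p - 1/2) ^ (5/36 : ℝ) :=
      Real.rpow_le_rpow hh0.le (by linarith) (by norm_num)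
    have e4 : c2 * h' ^ (5/36 : ℝ) ≤ arm p n := by
      have := mul_le_mul_of_nonneg_left e3 hc2.le
      linarith
    have e5 := hlt p hp.le hp1 n hn
    have e6 := arm_var (p := p) (by linarith) (by linarith) n
    have e7 : c3 ≤ arm p n * (1 - arm p n) := by
      rw [hc3]
      exact mul_le_mul e4 (by linarith) hδ.le (by have : 0 < c2 * h' ^ (5/36 : ℝ) := by positivity
                                                  linarith)
    have e8 : 0 < p * (1 - p) := mul_pos (by linarith) (by linarith)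
    have e9 : p * (1 - p) ≤ 1 := by nlinarith
    have e10 : 0 < H31K.dArm p n := by
      by_contra hcon
      push Not at hcon
      nlinarith
    have e11 : c3 ≤ H31K.dArm p n := by nlinarith
    have e12 : (p - 1/2) ^ (-(31/36) : ℝ) ≤ A := by
      rw [hA]
      exact Real.rpow_le_rpow_of_nonpos hh0 (by linarith) (by norm_num)
    calc min c1 (c3 / A) * (p - 1/2) ^ (-(31/36) : ℝ) ≤ c3 / A * A :=
          mul_le_mul (min_le_right _ _) e12 hsp.le (by positivity)
      _ = c3 := by field_simp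
      _ ≤ _ := e11

/-- The derivative of the percolation probability. -/
theorem deriv_th : ∃ c C : ℝ, 0 < c ∧ 0 < C ∧ ∀ p : ℝ, 1/2 < p → p < 1 →
    DifferentiableAt ℝ th p ∧ deriv th p ≤ C * (p - 1/2) ^ (-(31/36) : ℝ) ∧
    (p ≤ 3/4 → c * (p - 1/2) ^ (-(31/36) : ℝ) ≤ deriv th p) := by
  obtain ⟨c, hc, hl⟩ := dlow2
  obtain ⟨C, hC, hs⟩ := th_smooth
  refine ⟨c, C, hc, by linarith, ?_⟩
  intro p hp hp1
  obtain ⟨h1, h2, N, hN, h3⟩ := hs p hp hp1
  refine ⟨h1.differentiableAt (by norm_num), ?_, ?_⟩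
  · have h4 := h2 1 le_rfl
    rw [iteratedDeriv_one] at h4
    have h5 : ((5:ℝ)/36 - (1:ℕ)) = -(31/36) := by norm_num
    rw [h5] at h4
    simp only [pow_one, Nat.factorial_one, Nat.cast_one, mul_one] at h4
    exact (le_abs_self _).trans h4
  · intro hp2
    obtain ⟨n0, hn0⟩ := hl p hp hp2
    have h4 := h3 1
    rw [iteratedDeriv_one] at h4
    apply ge_of_tendsto h4
    have h5 := (ms_tendsto hN).eventually_ge_atTop n0
    filter_upwards [h5] with j hj
    rw [iteratedDeriv_one, (H31K.stab_deriv p (ms N j)).deriv]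
    exact hn0 _ hj

end Pool.Agent.H953
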