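import Pool.Graph.R_seed8.H974R2.Block

/-!
A mixed form of Harris' inequality.
-/

namespace Pool.Agent.H953

open H974 Finset



/-- Harris' inequality for decreasing events. -/
theorem harris_dec {p : Edg → ℝ} (hp : Ok p) {S : Finset Edg} {A B : Finset Edg → Prop}
    (hA : ∀ F G, F ⊆ G → A G → A F) (hB : ∀ F G, F ⊆ G → B G → B F) :
    Pr p S A * Pr p S B ≤ Pr p S (fun F => A F ∧ B F) := by
  have h := Pr_harris_dd hp (S := S) (A := fun F => ¬ A F) (B := fun F => ¬ B F)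
    (fun F G h _ hF hG => hF (hA _ _ h hG)) (fun F G h _ hF hG => hF (hB _ _ h hG))
  rw [Pr_not, Pr_not] at h
  have e : Pr p S (fun F => ¬ ¬ A F ∧ ¬ ¬ B F) = Pr p S (fun F => A F ∧ B F) :=
    Pr_congr (fun F _ => by rw [not_not, not_not])
  rw [e] at h
  linarith [h, show (1 - (1 - Pr p S A)) * (1 - (1 - Pr p S B)) = Pr p S A * Pr p S B by ring]

/-- Mixed positive association: `A` and `I` are increasing, `B` and `D` are decreasing; `A` and `B`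
share the set `S0`, `I` depends only on `S1` and `D` only on `S2`. -/
theorem mixed {p : Edg → ℝ} (hp : Ok p) {S0 S1 S2 : Finset Edg} (h01 : Disjoint S0 S1)
    (h02 : Disjoint S0 S2) (h12 : Disjoint S1 S2) {A B I D : Finset Edg → Prop}
    (hA : ∀ F, A F ↔ A (F ∩ (S0 ∪ S1))) (hB : ∀ F, B F ↔ B (F ∩ (S0 ∪ S2)))
    (hI : ∀ F, I F ↔ I (F ∩ S1)) (hD : ∀ F, D F ↔ D (F ∩ S2))
    (mA : ∀ F G, F ⊆ G → A F → A G) (mB : ∀ F G, F ⊆ G → B G → B F)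
    (mI : ∀ F G, F ⊆ G → I F → I G) (mD : ∀ F G, F ⊆ G → D G → D F) :
    Pr p (S0 ∪ (S1 ∪ S2)) (fun F => A F ∧ B F) * (Pr p S1 I * Pr p S2 D) ≤
      Pr p (S0 ∪ (S1 ∪ S2)) (fun F => (A F ∧ B F) ∧ (I F ∧ D F)) := by
  have hd : Disjoint S0 (S1 ∪ S2) := Finset.disjoint_union_right.2 ⟨h01, h02⟩
  unfold Pr
  rw [Ex_union hd, Ex_union hd, mul_comm, ← Ex_mul_left]
  apply Ex_mono hp
  intro X hX
  -- the inner expectations
  have key : ∀ (P Q : Finset Edg → Prop), (∀ Y, Y ⊆ S1 → ∀ Z, Z ⊆ S2 →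
      (P (X ∪ (Y ∪ Z)) ↔ P (X ∪ Y)) ∧ (Q (X ∪ (Y ∪ Z)) ↔ Q (X ∪ Z))) →
      Ex p (S1 ∪ S2) (fun Y => ind (P (X ∪ Y) ∧ Q (X ∪ Y))) =
        Ex p S1 (fun Y => ind (P (X ∪ Y))) * Ex p S2 (fun Z => ind (Q (X ∪ Z))) := by
    intro P Q h
    rw [Ex_union h12, mul_comm, ← Ex_mul_left]
    apply Ex_congr
    intro Y hY
    rw [mul_comm, ← Ex_mul_left]
    apply Ex_congr
    intro Z hZ
    obtain ⟨h1, h2⟩ := h Y hY Z hZ
    rw [ind_and, ind_congr h1, ind_congr h2]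
  have i1 : ∀ Y, Y ⊆ S1 → ∀ Z, Z ⊆ S2 → (X ∪ (Y ∪ Z)) ∩ (S0 ∪ S1) = (X ∪ Y) ∩ (S0 ∪ S1) := by
    intro Y hY Z hZ
    ext x
    simp only [Finset.mem_inter, Finset.mem_union]
    constructor
    · rintro ⟨h | h | h, h'⟩
      · exact ⟨Or.inl h, h'⟩
      · exact ⟨Or.inr h, h'⟩
      · rcases h' with h' | h'
        · exact absurd (hZ h) (Finset.disjoint_left.1 h02 h')
        · exact absurd (hZ h) (Finset.disjoint_left.1 h12 h')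
    · rintro ⟨h | h, h'⟩
      · exact ⟨Or.inl h, h'⟩
      · exact ⟨Or.inr (Or.inl h), h'⟩
  have i2 : ∀ Y, Y ⊆ S1 → ∀ Z, Z ⊆ S2 → (X ∪ (Y ∪ Z)) ∩ (S0 ∪ S2) = (X ∪ Z) ∩ (S0 ∪ S2) := by
    intro Y hY Z hZ
    ext x
    simp only [Finset.mem_inter, Finset.mem_union]
    constructor
    · rintro ⟨h | h | h, h'⟩
      · exact ⟨Or.inl h, h'⟩
      · rcases h' with h' | h'
        · exact absurd (hY h) (Finset.disjoint_left.1 h01 h')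
        · exact absurd h' (Finset.disjoint_left.1 h12 (hY h))
      · exact ⟨Or.inr h, h'⟩
    · rintro ⟨h | h, h'⟩
      · exact ⟨Or.inl h, h'⟩
      · exact ⟨Or.inr (Or.inr h), h'⟩
  have j1 : ∀ Y, Y ⊆ S1 → ∀ Z, Z ⊆ S2 → (X ∪ (Y ∪ Z)) ∩ S1 = (X ∪ Y) ∩ S1 := by
    intro Y hY Z hZ
    ext x
    simp only [Finset.mem_inter, Finset.mem_union]
    constructor
    · rintro ⟨h | h | h, h'⟩
      · exact ⟨Or.inl h, h'⟩
      · exact ⟨Or.inr h, h'⟩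
      · exact absurd (hZ h) (Finset.disjoint_left.1 h12 h')
    · rintro ⟨h | h, h'⟩
      · exact ⟨Or.inl h, h'⟩
      · exact ⟨Or.inr (Or.inl h), h'⟩
  have j2 : ∀ Y, Y ⊆ S1 → ∀ Z, Z ⊆ S2 → (X ∪ (Y ∪ Z)) ∩ S2 = (X ∪ Z) ∩ S2 := by
    intro Y hY Z hZ
    ext x
    simp only [Finset.mem_inter, Finset.mem_union]
    constructor
    · rintro ⟨h | h | h, h'⟩
      · exact ⟨Or.inl h, h'⟩
      · exact absurd h' (Finset.disjoint_left.1 h12 (hY h))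
      · exact ⟨Or.inr h, h'⟩
    · rintro ⟨h | h, h'⟩
      · exact ⟨Or.inl h, h'⟩
      · exact ⟨Or.inr (Or.inr h), h'⟩
  have eA : ∀ Y, Y ⊆ S1 → ∀ Z, Z ⊆ S2 → (A (X ∪ (Y ∪ Z)) ↔ A (X ∪ Y)) := by
    intro Y hY Z hZ
    rw [hA (X ∪ (Y ∪ Z)), i1 Y hY Z hZ, ← hA]
  have eB : ∀ Y, Y ⊆ S1 → ∀ Z, Z ⊆ S2 → (B (X ∪ (Y ∪ Z)) ↔ B (X ∪ Z)) := by
    intro Y hY Z hZ
    rw [hB (X ∪ (Y ∪ Z)), i2 Y hY Z hZ, ← hB]
  have eI : ∀ Y, Y ⊆ S1 → ∀ Z, Z ⊆ S2 → (I (X ∪ (Y ∪ Z)) ↔ I (X ∪ Y)) := by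
    intro Y hY Z hZ
    rw [hI (X ∪ (Y ∪ Z)), j1 Y hY Z hZ, ← hI]
  have eD : ∀ Y, Y ⊆ S1 → ∀ Z, Z ⊆ S2 → (D (X ∪ (Y ∪ Z)) ↔ D (X ∪ Z)) := by
    intro Y hY Z hZ
    rw [hD (X ∪ (Y ∪ Z)), j2 Y hY Z hZ, ← hD]
  have hI' : Ex p S1 (fun F => ind (I F)) = Ex p S1 (fun F => ind (I (X ∪ F))) := by
    apply Ex_congr
    intro Y hY
    apply ind_congr
    rw [hI (X ∪ Y), hI Y]
    have : (X ∪ Y) ∩ S1 = Y ∩ S1 := by
      ext x
      simp only [Finset.mem_inter, Finset.mem_union]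
      constructor
      · rintro ⟨h | h, h'⟩
        · exact absurd h' (Finset.disjoint_left.1 h01 (hX h))
        · exact ⟨h, h'⟩
      · rintro ⟨h, h'⟩
        exact ⟨Or.inr h, h'⟩
    rw [this]
  have hD' : Ex p S2 (fun F => ind (D F)) = Ex p S2 (fun F => ind (D (X ∪ F))) := by
    apply Ex_congr
    intro Y hY
    apply ind_congr
    rw [hD (X ∪ Y), hD Y]
    have : (X ∪ Y) ∩ S2 = Y ∩ S2 := by
      ext x
      simp only [Finset.mem_inter, Finset.mem_union]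
      constructor
      · rintro ⟨h | h, h'⟩
        · exact absurd h' (Finset.disjoint_left.1 h02 (hX h))
        · exact ⟨h, h'⟩
      · rintro ⟨h, h'⟩
        exact ⟨Or.inr h, h'⟩
    rw [this]
  rw [key A B (fun Y hY Z hZ => ⟨eA Y hY Z hZ, eB Y hY Z hZ⟩)]
  have r : Ex p (S1 ∪ S2) (fun Y => ind ((A (X ∪ Y) ∧ B (X ∪ Y)) ∧ (I (X ∪ Y) ∧ D (X ∪ Y)))) =
      Ex p (S1 ∪ S2) (fun Y => ind ((A (X ∪ Y) ∧ I (X ∪ Y)) ∧ (B (X ∪ Y) ∧ D (X ∪ Y)))) := by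
    apply Ex_congr
    intro Y _
    apply ind_congr
    tauto
  rw [r, key (fun F => A F ∧ I F) (fun F => B F ∧ D F) (fun Y hY Z hZ =>
    ⟨and_congr (eA Y hY Z hZ) (eI Y hY Z hZ), and_congr (eB Y hY Z hZ) (eD Y hY Z hZ)⟩), hI', hD']
  have h1 : Ex p S1 (fun Y => ind (A (X ∪ Y))) * Ex p S1 (fun Y => ind (I (X ∪ Y))) ≤
      Ex p S1 (fun Y => ind (A (X ∪ Y) ∧ I (X ∪ Y))) :=
    Pr_harris hp (A := fun Y => A (X ∪ Y)) (B := fun Y => I (X ∪ Y))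
      (fun F G h _ hF => mA _ _ (Finset.union_subset_union_right h) hF)
      (fun F G h _ hF => mI _ _ (Finset.union_subset_union_right h) hF)
  have h2 : Ex p S2 (fun Y => ind (B (X ∪ Y))) * Ex p S2 (fun Y => ind (D (X ∪ Y))) ≤
      Ex p S2 (fun Y => ind (B (X ∪ Y) ∧ D (X ∪ Y))) :=
    harris_dec hp (A := fun Y => B (X ∪ Y)) (B := fun Y => D (X ∪ Y))
      (fun F G h hG => mB _ _ (Finset.union_subset_union_right h) hG)
      (fun F G h hG => mD _ _ (Finset.union_subset_union_right h) hG)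
  have n1 : 0 ≤ Ex p S1 (fun Y => ind (A (X ∪ Y))) := Ex_nonneg hp (fun _ _ => ind_nonneg _)
  have n2 : 0 ≤ Ex p S2 (fun Y => ind (B (X ∪ Y))) := Ex_nonneg hp (fun _ _ => ind_nonneg _)
  have n3 : 0 ≤ Ex p S1 (fun Y => ind (I (X ∪ Y))) := Ex_nonneg hp (fun _ _ => ind_nonneg _)
  have n4 : 0 ≤ Ex p S2 (fun Y => ind (D (X ∪ Y))) := Ex_nonneg hp (fun _ _ => ind_nonneg _)
  calc _ = (Ex p S1 (fun Y => ind (A (X ∪ Y))) * Ex p S1 (fun Y => ind (I (X ∪ Y)))) *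
        (Ex p S2 (fun Y => ind (B (X ∪ Y))) * Ex p S2 (fun Y => ind (D (X ∪ Y)))) := by ring
    _ ≤ _ := mul_le_mul h1 h2 (mul_nonneg n2 n4) ((mul_nonneg n1 n3).trans h1)

end Pool.Agent.H953
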