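import Pool.Graph.R_seed8.W38.EN.Cir
import Pool.Graph.R_seed8.W21.EN.Tr
import Pool.Graph.R_pool_sql_team_seeded_3dad9d7b.NH39.T1

/-!
Pivotal edges for the number of colour changes: a parity argument.
-/

set_option autoImplicit false

namespace Pool.Agent.H953.Nst

open H974 H906.Cyl Finset Pool.Agent.W819.EN

/-- antiderivatives on `ℤ` -/
theorem antid {A : Type*} [AddCommGroup A] (f : ℤ → A) :
    ∃ g : ℤ → A, g 0 = 0 ∧ ∀ n, g (n + 1) = g n + f n := by
  refine ⟨fun n => ∑ i ∈ Finset.Ico 0 n, f i - ∑ i ∈ Finset.Ico n 0, f i, by simp, ?_⟩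
  intro n
  simp only
  rcases le_or_gt 0 n with h | h
  · have e1 : Finset.Ico (0:ℤ) (n + 1) = insert n (Finset.Ico 0 n) := by
      ext i; simp only [Finset.mem_Ico, Finset.mem_insert]; omega
    have e2 : Finset.Ico (n + 1) (0:ℤ) = ∅ := Finset.Ico_eq_empty (by omega)
    have e3 : Finset.Ico n (0:ℤ) = ∅ := Finset.Ico_eq_empty (by omega)
    rw [e1, e2, e3, Finset.sum_insert (by simp)]
    simp only [Finset.sum_empty]
    abel
  · have e1 : Finset.Ico n (0:ℤ) = insert n (Finset.Ico (n + 1) 0) := by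
      ext i; simp only [Finset.mem_Ico, Finset.mem_insert]; omega
    have e2 : Finset.Ico (0:ℤ) (n + 1) = ∅ := Finset.Ico_eq_empty (by omega)
    have e3 : Finset.Ico (0:ℤ) n = ∅ := Finset.Ico_eq_empty (by omega)
    rw [e1, e2, e3, Finset.sum_insert (by simp)]
    simp only [Finset.sum_empty]
    abel

/-- functions without curl are gradients -/
theorem pot {A : Type*} [AddCommGroup A] (Hh Vv : ℤ → ℤ → A)
    (curl : ∀ a s, Hh a s + Vv (a + 1) s = Vv a s + Hh a (s + 1)) :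
    ∃ φ : ℤ → ℤ → A, (∀ a s, φ (a + 1) s = φ a s + Hh a s) ∧
      ∀ a s, φ a (s + 1) = φ a s + Vv a s := by
  obtain ⟨g0, _, hg0⟩ := antid (fun a => Hh a 0)
  choose g hg1 hg2 using fun a => antid (fun s => Vv a s)
  refine ⟨fun a s => g0 a + g a s, ?_, ?_⟩
  · intro a
    have key : ∀ s : ℤ, g0 (a + 1) + g (a + 1) s = g0 a + g a s + Hh a s := by
      intro s
      induction s using Int.induction_on with
      | zero => rw [hg1, hg1, hg0]; abel
      | succ i ih =>
        rw [hg2, hg2]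
        have h1 := curl a i
        have : g0 (a + 1) + (g (a + 1) i + Vv (a + 1) i) =
          (g0 (a + 1) + g (a + 1) i) + Vv (a + 1) i := by abel
        rw [this, ih]
        have h2 : g0 a + g a i + Hh a i + Vv (a + 1) i = g0 a + g a i + (Hh a i + Vv (a + 1) i) := by
          abel
        rw [h2, h1]; abel
      | pred i ih =>
        have h1 := curl a (-(i:ℤ) - 1)
        have e1 : -(i:ℤ) - 1 + 1 = -(i:ℤ) := by ring
        have e2 := hg2 (a + 1) (-(i:ℤ) - 1)
        have e3 := hg2 a (-(i:ℤ) - 1)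
        rw [e1] at h1 e2 e3
        rw [e2, e3] at ih
        have h3 : g0 (a + 1) + g (a + 1) (-(i:ℤ) - 1) + Vv (a + 1) (-(i:ℤ) - 1) =
            g0 a + g a (-(i:ℤ) - 1) + (Vv a (-(i:ℤ) - 1) + Hh a (-(i:ℤ))) := by
          rw [add_assoc, ih]; abel
        rw [← h1] at h3
        have h4 : g0 (a + 1) + g (a + 1) (-(i:ℤ) - 1) + Vv (a + 1) (-(i:ℤ) - 1) =
            g0 a + g a (-(i:ℤ) - 1) + Hh a (-(i:ℤ) - 1) + Vv (a + 1) (-(i:ℤ) - 1) := by
          rw [h3]; abel
        exact add_right_cancel h4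
    exact key
  · intro a s
    simp only
    rw [hg2]; abel

open Classical in
/-- indicator with values in `ZMod 2` -/
noncomputable def i2 (P : Prop) : ZMod 2 := if P then 1 else 0

theorem i2_congr {P Q : Prop} (h : P ↔ Q) : i2 P = i2 Q := by
  have : P = Q := propext h
  rw [this]

theorem i2_true {P : Prop} (h : P) : i2 P = 1 := by simp [i2, h]
theorem i2_false {P : Prop} (h : ¬ P) : i2 P = 0 := by simp [i2, h]

/-- the interface between `U` and `X` -/
def LL (U X : ℤ × ℤ → Prop) (p q : ℤ × ℤ) : Prop := (U p ∧ X q) ∨ (X p ∧ U q)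

theorem LL_symm {U X : ℤ × ℤ → Prop} {p q : ℤ × ℤ} : LL U X p q ↔ LL U X q p := by
  unfold LL; tauto

/-- free moves on one plaquette -/
theorem mv_cases (G : Set Edg) (a s : ℤ) : Mv G (a, s) (a + 1, s + 1) ∨ Mv G (a + 1, s) (a, s + 1) := by
  unfold Mv lnk
  simp only
  by_cases hp : (a + s) % 2 = 0
  · simp only [hp, if_true]
    by_cases h : edz a s ∈ G
    · left; left; simp [h]
    · right; left; simp [h]
  · simp only [hp, if_false]
    by_cases h : edz a s ∈ G
    · right; left; simp [h]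
    · left; left; simp [h]

/-- the potential of an interface -/
theorem pot_LL {G : Set Edg} {U X : ℤ × ℤ → Prop} (hU : ∀ p q, Mv G p q → (U p ↔ U q))
    (hX : ∀ p q, Mv G p q → (X p ↔ X q)) :
    ∃ φ : ℤ × ℤ → ZMod 2, ∀ p q, St p q → φ q = φ p + i2 (LL U X p q) := by
  have curl : ∀ a s : ℤ, i2 (LL U X (a, s) (a + 1, s)) + i2 (LL U X (a + 1, s) (a + 1, s + 1)) =
      i2 (LL U X (a, s) (a, s + 1)) + i2 (LL U X (a, s + 1) (a + 1, s + 1)) := by
    intro a s
    rcases mv_cases G a s with h | h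
    · have h1 := hU _ _ h
      have h2 := hX _ _ h
      have e1 : i2 (LL U X (a, s) (a + 1, s)) = i2 (LL U X (a + 1, s) (a + 1, s + 1)) := by
        apply i2_congr; unfold LL; tauto
      have e2 : i2 (LL U X (a, s) (a, s + 1)) = i2 (LL U X (a, s + 1) (a + 1, s + 1)) := by
        apply i2_congr; unfold LL; tauto
      rw [e1, e2, CharTwo.add_self_eq_zero, CharTwo.add_self_eq_zero]
    · have h1 := hU _ _ h
      have h2 := hX _ _ h
      have e1 : i2 (LL U X (a, s) (a + 1, s)) = i2 (LL U X (a, s) (a, s + 1)) := by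
        apply i2_congr; unfold LL; tauto
      have e2 : i2 (LL U X (a + 1, s) (a + 1, s + 1)) = i2 (LL U X (a, s + 1) (a + 1, s + 1)) := by
        apply i2_congr; unfold LL; tauto
      rw [e1, e2]
  obtain ⟨φ, h1, h2⟩ := pot (fun a s => i2 (LL U X (a, s) (a + 1, s)))
    (fun a s => i2 (LL U X (a, s) (a, s + 1))) curl
  refine ⟨fun p => φ p.1 p.2, ?_⟩
  rintro ⟨a, s⟩ ⟨b, r⟩ hst
  unfold St nb at hst
  simp only at hst ⊢
  rcases hst with ⟨rfl, rfl | rfl⟩ | ⟨rfl, rfl | rfl⟩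
  · exact h1 a s
  · rw [h1 b s, add_assoc, i2_congr (LL_symm (p := (b + 1, s)) (q := (b, s))),
      CharTwo.add_self_eq_zero, add_zero]
  · exact h2 a s
  · rw [h2 a r, add_assoc, i2_congr (LL_symm (p := (a, r + 1)) (q := (a, r))),
      CharTwo.add_self_eq_zero, add_zero]

/-- colour of a face -/
def par (p : ℤ × ℤ) : Prop := (p.1 + p.2) % 2 = 0

theorem mv_par {G : Set Edg} {p q : ℤ × ℤ} (h : Mv G p q) : par p ↔ par q := by
  have := Pool.Agent.W38.EN.mv_nb h
  unfold nb at this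
  unfold par
  omega

theorem st_par {p q : ℤ × ℤ} (h : St p q) : par p ↔ ¬ par q := by
  unfold St nb at h
  unfold par
  omega

theorem ch0_par {G : Set Edg} {k : ℕ} {p q : ℤ × ℤ} (h : Ch (Mv G) St k p q) (hk : k = 0) :
    par p ↔ par q := by
  induction h with
  | refl k a => exact Iff.rfl
  | rel _ h ih => exact (ih hk).trans (mv_par h)
  | step _ h ih => omega

theorem ch0_reach {G : Set Edg} {k : ℕ} {a : Vtx} {p q : ℤ × ℤ} (h : Ch (Mv G) St k p q)
    (hk : k = 0) (hp : p = fc a) : ∃ w, q = fc w ∧ Reach G a w := by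
  induction h with
  | refl k p => exact ⟨a, hp, Reach.refl _ _⟩
  | @rel k p b c hab h ih =>
    obtain ⟨w, hw, hr⟩ := ih hk hp
    have hpb : par b := by
      rw [hw]; unfold par fc; simp only; omega
    have hpc : par c := (mv_par h).1 hpb
    obtain ⟨c1, c2⟩ := c
    refine ⟨((c1 + c2) / 2, (c1 - c2) / 2), ?_, ?_⟩
    · unfold par at hpc
      unfold fc; simp only at hpc ⊢
      ext <;> simp only <;> omega
    · refine hr.trans ?_
      obtain ⟨x, y⟩ := w
      unfold fc at hw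
      simp only at hw
      unfold par at hpc
      simp only at hpc
      rw [hw] at h
      unfold Mv lnk at h
      simp only at h
      rcases h with ⟨h1, ⟨h2, h3⟩ | ⟨h2, h3⟩⟩ | ⟨h1, ⟨h2, h3⟩ | ⟨h2, h3⟩⟩
      · rw [if_pos (by omega)] at h3
        have e : edz (x + y) (x - y) = (x, y, true) := by
          unfold edz; rw [if_pos (by omega)]; simp only [Prod.mk.injEq, and_true]; omega
        rw [e] at h3
        refine Adj.reach ⟨_, h3, Or.inl ⟨rfl, ?_⟩⟩
        rw [tgt_true]; ext <;> simp only <;> omega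
      · rw [if_neg (by omega)] at h3
        have e : edz c1 (x - y) = (x, y - 1, false) := by
          unfold edz; rw [if_neg (by omega)]; simp only [Prod.mk.injEq, and_true]; omega
        rw [e] at h3
        refine Adj.reach ⟨_, h3, Or.inr ⟨?_, ?_⟩⟩
        · rw [src_mk]; ext <;> simp only <;> omega
        · rw [tgt_false]; ext <;> simp only <;> omega
      · rw [if_pos (by omega)] at h3
        have e : edz c1 c2 = (x - 1, y, true) := by
          unfold edz; rw [if_pos (by omega)]; simp only [Prod.mk.injEq, and_true]; omega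
        rw [e] at h3
        refine Adj.reach ⟨_, h3, Or.inr ⟨?_, ?_⟩⟩
        · rw [src_mk]; ext <;> simp only <;> omega
        · rw [tgt_true]; ext <;> simp only <;> omega
      · rw [if_neg (by omega)] at h3
        have e : edz (x + y) c2 = (x, y, false) := by
          unfold edz; rw [if_neg (by omega)]; simp only [Prod.mk.injEq, and_true]; omega
        rw [e] at h3
        refine Adj.reach ⟨_, h3, Or.inl ⟨rfl, ?_⟩⟩
        rw [tgt_false]; ext <;> simp only <;> omega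
  | step _ h ih => omega

/-! ### chains and the potential -/

/-- a common neighbour of two opposite faces of a plaquette -/
theorem mid {p q : ℤ × ℤ} (h : nb p.1 q.1 ∧ nb p.2 q.2) : St p (q.1, p.2) ∧ St (q.1, p.2) q := by
  obtain ⟨a, b⟩ := p
  obtain ⟨c, d⟩ := q
  unfold nb at h
  unfold St nb
  simp only at h ⊢
  obtain ⟨h1, h2⟩ := h
  exact ⟨Or.inl ⟨trivial, h1⟩, Or.inr ⟨trivial, h2⟩⟩

/-- a chain from `p` to `q` keeps the potential or comes to `X` -/
theorem walk {G : Set Edg} {U X : ℤ × ℤ → Prop} (hU : ∀ p q, Mv G p q → (U p ↔ U q))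
    {φ : ℤ × ℤ → ZMod 2}
    (hφ : ∀ p q, St p q → φ q = φ p + i2 (LL U X p q)) {K : ℕ} {p q : ℤ × ℤ}
    (h : Ch (Mv G) St K p q) :
    φ p = φ q ∨ ∃ b K1 K2, X b ∧ K1 + K2 = K ∧ Ch (Mv G) St K1 p b ∧ Ch (Mv G) St K2 b q := by
  induction h with
  | refl k a => exact Or.inl rfl
  | @rel k p b c hab h ih =>
    rcases ih with ih | ⟨d, K1, K2, h1, h2, h3, h4⟩
    · by_cases hb : X b
      · exact Or.inr ⟨b, k, 0, hb, rfl, hab, Ch.of_rel h⟩
      by_cases hc : X c
      · exact Or.inr ⟨c, k, 0, hc, rfl, Ch.rel hab h, Ch.refl _ _⟩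
      left
      rw [ih]
      obtain ⟨m1, m2⟩ := mid (Pool.Agent.W38.EN.mv_nb h)
      rw [hφ _ _ m2, hφ _ _ m1, add_assoc]
      have h1 := hU _ _ h
      have e : i2 (LL U X b (c.1, b.2)) = i2 (LL U X (c.1, b.2) c) := by
        apply i2_congr
        unfold LL
        tauto
      rw [e, CharTwo.add_self_eq_zero, add_zero]
    · exact Or.inr ⟨d, K1, K2, h1, h2, h3, Ch.rel h4 h⟩
  | @step k p b c hab h ih =>
    rcases ih with ih | ⟨d, K1, K2, h1, h2, h3, h4⟩
    · by_cases hb : X b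
      · exact Or.inr ⟨b, k, 1, hb, rfl, hab, Ch.of_step h⟩
      by_cases hc : X c
      · exact Or.inr ⟨c, k + 1, 0, hc, rfl, Ch.step hab h, Ch.refl _ _⟩
      left
      rw [ih, hφ _ _ h]
      have e : ¬ LL U X b c := by unfold LL; tauto
      rw [i2_false e, add_zero]
    · exact Or.inr ⟨d, K1, K2 + 1, h1, by omega, h3, Ch.step h4 h⟩

/-- a set of faces which is connected by steps -/
def StConn (Z : ℤ × ℤ → Prop) : Prop := ∀ φ : ℤ × ℤ → ZMod 2,
  (∀ p q, St p q → Z p → Z q → φ p = φ q) → ∀ p q, Z p → Z q → φ p = φ q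

/-- the part of a chain which crosses the edge `e` -/
theorem split {G : Set Edg} {u v : ℤ × ℤ} {R : ℤ × ℤ → ℤ × ℤ → Prop}
    (hR : ∀ a b, R a b → Mv G a b ∨ (a = u ∧ b = v) ∨ (a = v ∧ b = u)) {K : ℕ} {p q : ℤ × ℤ}
    (h : Ch R St K p q) : Ch (Mv G) St K p q ∨ ∃ K1 K2, K1 + K2 = K ∧
      ((Ch (Mv G) St K1 p u ∧ Ch (Mv G) St K2 v q) ∨
        (Ch (Mv G) St K1 p v ∧ Ch (Mv G) St K2 u q)) := by
  induction h with
  | refl k a => exact Or.inl (Ch.refl _ _)
  | @rel k p b c hab h ih =>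
    rcases hR _ _ h with h | ⟨rfl, rfl⟩ | ⟨rfl, rfl⟩
    · rcases ih with ih | ⟨K1, K2, hK, ⟨h1, h2⟩ | ⟨h1, h2⟩⟩
      · exact Or.inl (Ch.rel ih h)
      · exact Or.inr ⟨K1, K2, hK, Or.inl ⟨h1, Ch.rel h2 h⟩⟩
      · exact Or.inr ⟨K1, K2, hK, Or.inr ⟨h1, Ch.rel h2 h⟩⟩
    · rcases ih with ih | ⟨K1, K2, hK, ⟨h1, h2⟩ | ⟨h1, h2⟩⟩
      · exact Or.inr ⟨k, 0, rfl, Or.inl ⟨ih, Ch.refl _ _⟩⟩
      · exact Or.inr ⟨K1, K2, hK, Or.inl ⟨h1, Ch.refl _ _⟩⟩
      · exact Or.inl (h1.mono (by omega))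
    · rcases ih with ih | ⟨K1, K2, hK, ⟨h1, h2⟩ | ⟨h1, h2⟩⟩
      · exact Or.inr ⟨k, 0, rfl, Or.inr ⟨ih, Ch.refl _ _⟩⟩
      · exact Or.inl (h1.mono (by omega))
      · exact Or.inr ⟨K1, K2, hK, Or.inr ⟨h1, Ch.refl _ _⟩⟩
  | @step k p b c hab h ih =>
    rcases ih with ih | ⟨K1, K2, hK, ⟨h1, h2⟩ | ⟨h1, h2⟩⟩
    · exact Or.inl (Ch.step ih h)
    · exact Or.inr ⟨K1, K2 + 1, by omega, Or.inl ⟨h1, Ch.step h2 h⟩⟩
    · exact Or.inr ⟨K1, K2 + 1, by omega, Or.inr ⟨h1, Ch.step h2 h⟩⟩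

theorem Ch_sym {G : Set Edg} {K : ℕ} {p q : ℤ × ℤ} (h : Ch (Mv G) St K p q) :
    Ch (Mv G) St K q p := Pool.Agent.W38.EN.Ch_symm h

/-- the cluster of a face -/
def Cl (G : Set Edg) (u : ℤ × ℤ) (p : ℤ × ℤ) : Prop := Ch (Mv G) St 0 u p

theorem Cl_closed (G : Set Edg) (u : ℤ × ℤ) : ∀ p q, Mv G p q → (Cl G u p ↔ Cl G u q) :=
  fun _ _ h => ⟨fun h1 => Ch.rel h1 h, fun h1 => Ch.rel h1 h.symm⟩

/-- the core of the pivotality argument -/
theorem core {G : Set Edg} {u v x p q : ℤ × ℤ} {K K1 K2 : ℕ} (hu : par u) (hv : par v)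
    (hux : St u x) (hxv : St x v) (hK : K1 + K2 = K) (h1 : Ch (Mv G) St K1 p u)
    (h2 : Ch (Mv G) St K2 v q) (hn : ¬ Ch (Mv G) St K p q) :
    ¬ Cl G u v ∧ ∀ Z : ℤ × ℤ → Prop, StConn Z → Z p → Z q →
      (∃ w, Cl G u w ∧ Z w) ∧ ∃ w, Cl G v w ∧ Z w := by
  have hx : ¬ par x := (st_par hux).1 hu
  have huv : ¬ Cl G u v := by
    intro h
    apply hn
    have := (h1.trans h).trans h2
    exact this.mono (by omega)
  have hvu : ¬ Cl G v u := fun h => huv (Ch_sym h)
  have hlen : ∀ (k : ℕ) (a b : ℤ × ℤ), Ch (Mv G) St k a b → (par a ↔ ¬ par b) → 1 ≤ k := by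
    intro k a b h hp
    by_contra hk
    have hk0 : k = 0 := by omega
    have := ch0_par h hk0
    tauto
  have hXp : ∀ b, Cl G x b → ¬ par b := fun b hb hpb => hx ((ch0_par hb rfl).2 hpb)
  -- the two parts avoid the cluster of `x`
  have av1 : ∀ b K1' K1'', Cl G x b → K1' + K1'' = K1 → Ch (Mv G) St K1' p b →
      Ch (Mv G) St K1'' b u → False := by
    intro b K1' K1'' hb hK1 c1 c2
    have := hlen _ _ _ c2 (by have := hXp b hb; tauto)
    apply hn
    have c3 := ((c1.trans (Ch_sym hb)).trans (Ch.of_step (k := 0) hxv)).trans h2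
    exact c3.mono (by omega)
  have av2 : ∀ b K2' K2'', Cl G x b → K2' + K2'' = K2 → Ch (Mv G) St K2' v b →
      Ch (Mv G) St K2'' b q → False := by
    intro b K2' K2'' hb hK2 c1 c2
    have := hlen _ _ _ c1 (by have := hXp b hb; tauto)
    apply hn
    have c3 := ((h1.trans (Ch.of_step (k := 0) hux)).trans hb).trans c2
    exact c3.mono (by omega)
  refine ⟨huv, ?_⟩
  intro Z hZ hp hq
  have gen : ∀ c : ℤ × ℤ, par c → (c = u ∨ c = v) → ∃ w, Cl G c w ∧ Z w := by
    intro c hc hcuv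
    by_contra hno
    push Not at hno
    have hUp : ∀ p, Cl G c p → par p := fun p hp => (ch0_par hp rfl).1 hc
    obtain ⟨φ, hφ⟩ := pot_LL (Cl_closed G c) (Cl_closed G x)
    have e1 : φ p = φ u := by
      rcases walk (Cl_closed G c) hφ h1 with h | ⟨b, K1', K1'', hb, hK, c1, c2⟩
      · exact h
      · exact (av1 b K1' K1'' hb hK c1 c2).elim
    have e2 : φ v = φ q := by
      rcases walk (Cl_closed G c) hφ h2 with h | ⟨b, K1', K1'', hb, hK, c1, c2⟩
      · exact h
      · exact (av2 b K1' K1'' hb hK c1 c2).elim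
    have e3 : φ p = φ q := by
      apply hZ φ _ p q hp hq
      intro a b hab ha hb
      rw [hφ _ _ hab, i2_false, add_zero]
      unfold LL
      rintro (⟨h, -⟩ | ⟨-, h⟩)
      · exact hno a h ha
      · exact hno b h hb
    have e4 := hφ _ _ hux
    have e5 := hφ _ _ hxv
    have hxx : Cl G x x := Ch.refl _ _
    have hcx : ¬ Cl G c x := fun h => hx (hUp x h)
    have hXu : ¬ Cl G x u := fun h => hXp u h hu
    have hXv : ¬ Cl G x v := fun h => hXp v h hv
    rcases hcuv with rfl | rfl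
    · have h1 : LL (Cl G c) (Cl G x) c x := Or.inl ⟨Ch.refl _ _, hxx⟩
      have h2 : ¬ LL (Cl G c) (Cl G x) x v := by unfold LL; tauto
      rw [i2_true h1] at e4
      rw [i2_false h2, add_zero] at e5
      rw [e1, ← e2, e5, e4] at e3
      have : (1 : ZMod 2) = 0 := by
        have h3 : φ c + 0 = φ c + 1 := by rw [add_zero]; exact e3
        exact (add_left_cancel h3).symm
      exact one_ne_zero this
    · have h1 : LL (Cl G c) (Cl G x) x c := Or.inr ⟨hxx, Ch.refl _ _⟩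
      have h2 : ¬ LL (Cl G c) (Cl G x) u x := by unfold LL; tauto
      rw [i2_true h1] at e5
      rw [i2_false h2, add_zero] at e4
      rw [e1, ← e2, e5, e4] at e3
      have : (1 : ZMod 2) = 0 := by
        have h3 : φ u + 0 = φ u + 1 := by rw [add_zero]; exact e3
        exact (add_left_cancel h3).symm
      exact one_ne_zero this
  exact ⟨gen u hu (Or.inl rfl), gen v hv (Or.inr rfl)⟩

/-- free moves after opening an edge -/
theorem mv_insert {G : Set Edg} {e : Edg} {a b : ℤ × ℤ} (h : Mv (insert e G) a b) :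
    Mv G a b ∨ (a = fc (src e) ∧ b = fc (tgt e)) ∨ (a = fc (tgt e) ∧ b = fc (src e)) := by
  have key : ∀ a b : ℤ × ℤ, lnk (insert e G) a b → lnk G a b ∨
      (a = fc (src e) ∧ b = fc (tgt e)) ∨ (a = fc (tgt e) ∧ b = fc (src e)) := by
    rintro ⟨a1, a2⟩ ⟨b1, b2⟩ ⟨h1, h2⟩
    simp only at h1 h2
    rcases h2 with ⟨h2, h3⟩ | ⟨h2, h3⟩
    · by_cases hp : (a1 + a2) % 2 = 0
      · rw [if_pos hp] at h3
        rcases h3 with h3 | h3
        · right; left
          unfold edz at h3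
          rw [if_pos hp] at h3
          rw [← h3]
          unfold fc
          simp only [src_mk, tgt_true]
          refine ⟨?_, ?_⟩ <;> ext <;> simp only <;> omega
        · left
          exact ⟨h1, Or.inl ⟨h2, by simp only; rw [if_pos hp]; exact h3⟩⟩
      · rw [if_neg hp] at h3
        left
        refine ⟨h1, Or.inl ⟨h2, ?_⟩⟩
        simp only
        rw [if_neg hp]
        exact fun h => h3 (Or.inr h)
    · by_cases hp : (b1 + a2) % 2 = 0
      · rw [if_pos hp] at h3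
        left
        refine ⟨h1, Or.inr ⟨h2, ?_⟩⟩
        simp only
        rw [if_pos hp]
        exact fun h => h3 (Or.inr h)
      · rw [if_neg hp] at h3
        rcases h3 with h3 | h3
        · right; right
          unfold edz at h3
          rw [if_neg hp] at h3
          rw [← h3]
          unfold fc
          simp only [src_mk, tgt_false]
          refine ⟨?_, ?_⟩ <;> ext <;> simp only <;> omega
        · left
          exact ⟨h1, Or.inr ⟨h2, by simp only; rw [if_neg hp]; exact h3⟩⟩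
  rcases h with h | h
  · rcases key _ _ h with h | h | h
    · exact Or.inl (Or.inl h)
    · exact Or.inr (Or.inl h)
    · exact Or.inr (Or.inr h)
  · rcases key _ _ h with h | ⟨h, h'⟩ | ⟨h, h'⟩
    · exact Or.inl (Or.inr h)
    · exact Or.inr (Or.inr ⟨h', h⟩)
    · exact Or.inr (Or.inl ⟨h', h⟩)

/-- a dual face next to both ends of an edge -/
theorem dual_corner (e : Edg) : ∃ x : ℤ × ℤ, St (fc (src e)) x ∧ St x (fc (tgt e)) := by
  obtain ⟨a, b, _ | _⟩ := e
  · refine ⟨(a + b, a - b - 1), ?_, ?_⟩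
    · exact Or.inr ⟨rfl, Or.inr (by show a - b = a - b - 1 + 1; ring)⟩
    · rw [tgt_false]; unfold St nb fc; simp only; omega
  · refine ⟨(a + b, a - b + 1), ?_, ?_⟩
    · exact Or.inr ⟨rfl, Or.inl rfl⟩
    · rw [tgt_true]; unfold St nb fc; simp only; omega

/-- `B` can be reached from `A` with at most `K` changes of colour -/
def Cost (G : Set Edg) (A B : ℤ × ℤ → Prop) (K : ℕ) : Prop :=
  ∃ p q, A p ∧ B q ∧ Ch (Mv G) St K p q

/-- opening the edge `e` helps -/
theorem piv_open {G : Set Edg} {e : Edg} {A B : ℤ × ℤ → Prop} {K : ℕ}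
    (h1 : Cost (insert e G) A B K) (h2 : ¬ Cost G A B K) :
    ¬ Reach G (src e) (tgt e) ∧ ∀ Z : ℤ × ℤ → Prop, StConn Z → (∀ p, A p → Z p) →
      (∀ p, B p → Z p) → (∃ w, Reach G (src e) w ∧ Z (fc w)) ∧
        ∃ w, Reach G (tgt e) w ∧ Z (fc w) := by
  obtain ⟨p, q, hA, hB, hch⟩ := h1
  have hn : ¬ Ch (Mv G) St K p q := fun h => h2 ⟨p, q, hA, hB, h⟩
  obtain ⟨x, hx1, hx2⟩ := dual_corner e
  have hps : ∀ w : Vtx, par (fc w) := by
    intro w; unfold par fc; simp only; omega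
  have hs := split (G := G) (u := fc (src e)) (v := fc (tgt e)) (fun a b h => mv_insert h) hch
  have hr : ∀ a : Vtx, (∀ Z : ℤ × ℤ → Prop, (∃ w, Cl G (fc a) w ∧ Z w) →
      ∃ w, Reach G a w ∧ Z (fc w)) := by
    rintro a Z ⟨w, hw, hz⟩
    obtain ⟨w', rfl, h⟩ := ch0_reach hw rfl rfl
    exact ⟨w', h, hz⟩
  have hcl : ∀ a b : Vtx, ¬ Cl G (fc a) (fc b) → ¬ Reach G a b :=
    fun a b h h' => h (Pool.Agent.W38.EN.free_reach h')
  rcases hs with h | ⟨K1, K2, hK, ⟨c1, c2⟩ | ⟨c1, c2⟩⟩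
  · exact absurd h hn
  · obtain ⟨h3, h4⟩ := core (hps _) (hps _) hx1 hx2 hK c1 c2 hn
    refine ⟨hcl _ _ h3, ?_⟩
    intro Z hZ hZA hZB
    obtain ⟨h5, h6⟩ := h4 Z hZ (hZA p hA) (hZB q hB)
    exact ⟨hr _ _ h5, hr _ _ h6⟩
  · obtain ⟨h3, h4⟩ := core (hps _) (hps _) (Pool.Agent.W38.EN.St_symm hx2)
      (Pool.Agent.W38.EN.St_symm hx1) hK c1 c2 hn
    refine ⟨fun h => hcl _ _ h3 h.symm, ?_⟩
    intro Z hZ hZA hZB
    obtain ⟨h5, h6⟩ := h4 Z hZ (hZA p hA) (hZB q hB)
    exact ⟨hr _ _ h6, hr _ _ h5⟩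

end Pool.Agent.H953.Nst
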