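import Pool.Agent.H953.Nst9

/-!
The contribution of one edge to the derivative: the three regions.
-/

set_option autoImplicit false

namespace Pool.Agent.H953.Nst

open H974 H906.Cyl Finset Pool.Agent.W819.EN Pool.Agent.W819.NC
open H12S (bdB)
open H389NS (A4a)

/-- distance of an edge from a vertex -/
def dv (v : Vtx) (e : Edg) : ℕ := max (e.1 - v.1).natAbs (e.2.1 - v.2).natAbs

theorem blk_bx (v : Vtx) (k : ℕ) : H12S.blk v k = bx v k := rfl

theorem an_zero_bx (v : Vtx) (a : ℕ) : an v 0 a = bx v a := by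
  unfold an
  rw [Finset.sdiff_eq_self_iff_disjoint, Finset.disjoint_left]
  intro e _ h2
  unfold bx at h2
  obtain ⟨x, y, _ | _⟩ := e
  · rw [mem_RE_false] at h2; omega
  · rw [mem_RE_true] at h2; omega

theorem Gq_loc2 (q t : ℝ) {v : Vtx} {r R : ℕ} {S : Finset Edg} (hrR : r ≤ R) (hS : an v r R ⊆ S) :
    Ex (Pq q) S (fun F => t ^ NA F v r R) = Gq q t r R := by
  have hs : an v r R ⊆ bx v R := sdiff_subset
  rw [Ex_local hS (fun F _ => by rw [geoNA.loc F v r R hrR]),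
    ← Gq_loc q t hrR (Finset.Subset.refl (bx v R)),
    Ex_local hs (fun F _ => by rw [geoNA.loc F v r R hrR])]

theorem Ex_ann2 {q t : ℝ} {v : Vtx} {a b R : ℕ} (hab : a < b) (hbR : b ≤ R) {U : Finset Edg}
    (h1 : an v 0 a ⊆ U) (h2 : an v b R ⊆ U) :
    Ex (Pq q) U (fun F => t ^ (NA F v 0 a + NA F v b R)) = Gq q t 0 a * Gq q t b R := by
  have e1 : Ex (Pq q) U (fun F => t ^ (NA F v 0 a + NA F v b R)) =
      Ex (Pq q) U (fun F => t ^ NA F v 0 a * t ^ NA F v b R) := by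
    apply Ex_congr; intro F _; rw [pow_add]
  rw [e1, Ex_mul_indep (S := an v 0 a) (T := an v b R) h1 h2 (an_disj hab)
    (fun F _ => by rw [geoNA.loc F v 0 a (Nat.zero_le a)])
    (fun F _ => by rw [geoNA.loc F v b R hbR]),
    Gq_loc2 q t (Nat.zero_le a) h1, Gq_loc2 q t hbR h2]

theorem Ex_two2 {q t : ℝ} {v w : Vtx} {a : ℕ} (hd : Disjoint (bx v a) (bx w a)) {U : Finset Edg}
    (h1 : bx v a ⊆ U) (h2 : bx w a ⊆ U) :
    Ex (Pq q) U (fun F => t ^ (NA F v 0 a + NA F w 0 a)) = Gq q t 0 a * Gq q t 0 a := by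
  have e1 : Ex (Pq q) U (fun F => t ^ (NA F v 0 a + NA F w 0 a)) =
      Ex (Pq q) U (fun F => t ^ NA F v 0 a * t ^ NA F w 0 a) := by
    apply Ex_congr; intro F _; rw [pow_add]
  rw [e1, Ex_mul_indep h1 h2 hd
    (fun F _ => by rw [Pool.Agent.W672.NC.loc' geoNA (Nat.zero_le a) sdiff_subset F])
    (fun F _ => by rw [Pool.Agent.W672.NC.loc' geoNA (Nat.zero_le a) sdiff_subset F]),
    Gq_loc q t (Nat.zero_le a) h1, Gq_loc q t (Nat.zero_le a) h2]

/-- membership in a box, in terms of the distance -/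
theorem mem_bx_dv {v : Vtx} {a : ℕ} {e : Edg} (h : e ∈ bx v a) : dv v e ≤ a := by
  unfold bx at h
  unfold dv
  obtain ⟨x, y, _ | _⟩ := e
  · rw [mem_RE_false] at h; simp only; omega
  · rw [mem_RE_true] at h; simp only; omega

theorem bx_of_dv {v : Vtx} {a : ℕ} {e : Edg} (h : dv v e < a) : e ∈ bx v a := by
  unfold dv at h
  unfold bx
  obtain ⟨x, y, _ | _⟩ := e
  · rw [mem_RE_false]; simp only at h; omega
  · rw [mem_RE_true]; simp only at h; omega

theorem bx_disj2 {v w : Vtx} {a b : ℕ} (h : a + b < max (v.1 - w.1).natAbs (v.2 - w.2).natAbs) :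
    Disjoint (bx v a) (bx w b) := by
  rw [Finset.disjoint_left]
  intro e h1 h2
  have h3 := mem_bx_dv h1
  have h4 := mem_bx_dv h2
  unfold dv at h3 h4
  omega

/-- a box around a close edge is in a box -/
theorem bx_in {v w : Vtx} {a b : ℕ} (h : max (v.1 - w.1).natAbs (v.2 - w.2).natAbs + a ≤ b) :
    bx v a ⊆ bx w b := by
  unfold bx
  exact RE_subset (by omega) (by omega) (by omega) (by omega)

theorem not_an {v : Vtx} {a b : ℕ} {T : Finset Edg} (h : ∀ e ∈ T, e ∈ bx v (a - 1 : ℕ)) (ha : 1 ≤ a) :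
    Disjoint T (an v a b) := by
  rw [Finset.disjoint_left]
  intro e h1 h2
  unfold an at h2
  rw [Finset.mem_sdiff] at h2
  apply h2.2
  have := h e h1
  have e1 : ((a - 1 : ℕ) : ℤ) = (a:ℤ) - 1 := by omega
  rwa [e1] at this

/-- sup distance of two vertices -/
def ds (v w : Vtx) : ℕ := max (v.1 - w.1).natAbs (v.2 - w.2).natAbs

theorem ds_comm (v w : Vtx) : ds v w = ds w v := by unfold ds; omega

theorem ds_tri (v u w : Vtx) : ds v w ≤ ds v u + ds u w := by unfold ds; omega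

theorem dv_ds (v : Vtx) (e : Edg) : dv v e = ds (ps e) v := rfl

theorem ds_zz (m : ℕ) : ds (0, 0) (zz m) = 8 * m := by unfold ds; simp only; omega

theorem bx_in' {v w : Vtx} {a b : ℕ} (h : ds v w + a ≤ b) : bx v a ⊆ bx w b := bx_in h

theorem bx_disj' {v w : Vtx} {a b : ℕ} (h : a + b < ds v w) : Disjoint (bx v a) (bx w b) :=
  bx_disj2 h

/-- the support of the arms around an edge -/
noncomputable def TQ (e : Edg) (k : ℕ) : Finset Edg :=
  if k = 0 then ∅ else (bx (ps e) (k + 1 : ℕ)).erase e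

theorem Qk_loc2 (e : Edg) (k : ℕ) (F : Finset Edg) {T : Finset Edg} (hT : TQ e k ⊆ T) :
    Qk e k F ↔ Qk e k (F ∩ T) := by
  unfold TQ at hT
  by_cases hk : k = 0
  · subst hk
    unfold Qk
    constructor
    · intro _ h; omega
    · intro _ h; omega
  · rw [if_neg hk] at hT
    exact Qk_loc e k F hT

theorem TQ_sub {e : Edg} {k : ℕ} {S : Finset Edg} (h : 1 ≤ k → bx (ps e) (k + 1 : ℕ) ⊆ S) :
    TQ e k ⊆ S.erase e := by
  unfold TQ
  by_cases hk : k = 0
  · rw [if_pos hk]; exact Finset.empty_subset _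
  · rw [if_neg hk]
    exact Finset.erase_subset_erase _ (h (by omega))

theorem TQ_disj {e : Edg} {k : ℕ} {T : Finset Edg}
    (h : 1 ≤ k → Disjoint (bx (ps e) (k + 1 : ℕ)) T) : Disjoint (TQ e k) T := by
  unfold TQ
  by_cases hk : k = 0
  · rw [if_pos hk]; exact Finset.disjoint_empty_left _
  · rw [if_neg hk]
    exact Disjoint.mono_left (Finset.erase_subset _ _) (h (by omega))

theorem sub_erase {e : Edg} {S T : Finset Edg} (h1 : T ⊆ S) (h2 : e ∉ T) : T ⊆ S.erase e := by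
  intro f hf
  rw [Finset.mem_erase]
  exact ⟨fun h => h2 (h ▸ hf), h1 hf⟩

/-- the arms of a pivotal edge -/
theorem Pi_Qk {m : ℕ} {e : Edg} {k : ℕ} {F : Finset Edg} (heF : e ∉ F) (h : Pi m e F)
    (h0 : k + 1 ≤ dv (0, 0) e) (hz : k + 1 ≤ dv (zz m) e) : Qk e k F := by
  intro hk
  unfold dv at h0 hz
  have z1 : (zz m).1 = 8 * (m:ℤ) := rfl
  have z2 : (zz m).2 = 0 := rfl
  rw [z1, z2] at hz
  simp only at h0 hz
  have hs := self_blk e
  refine piv_out (k := k) (A := fun p => p = fc (0, 0)) (B := fun p => p = fc (zz m)) ?_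
    (Pi_Pvt h) hk hs.1 hs.2 ?_ ?_
  · intro h; exact heF (Finset.mem_coe.1 h)
  · rintro p rfl
    apply Zo_of_dist
    have a1 := abs_cases ((0:ℤ) - e.1)
    have a2 := abs_cases ((0:ℤ) - e.2.1)
    simp only
    push_cast
    omega
  · rintro p rfl
    apply Zo_of_dist
    have a1 := abs_cases (8 * (m:ℤ) - e.1)
    have a2 := abs_cases ((0:ℤ) - e.2.1)
    simp only
    push_cast
    omega

end Pool.Agent.H953.Nst
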