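import Pool.Agent.H953.Nst10

/-!
The contribution of one edge to the derivative: bounds.
-/

set_option autoImplicit false

namespace Pool.Agent.H953.Nst

open H974 H906.Cyl Finset Pool.Agent.W819.EN Pool.Agent.W819.NC
open H12S (bdB)
open H389NS (A4a)

theorem rp_le {x y c : ℝ} (hx : 0 < x) (hy : 0 < y) (hc : 1 ≤ c) (h : y ≤ c * x) :
    x ^ (-(5/4) : ℝ) ≤ c ^ 2 * y ^ (-(5/4) : ℝ) := by
  have h1 : y / c ≤ x := by rw [div_le_iff₀ (by linarith)]; linarith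
  have h2 : x ^ (-(5/4) : ℝ) ≤ (y / c) ^ (-(5/4) : ℝ) :=
    Real.rpow_le_rpow_of_nonpos (by positivity) h1 (by norm_num)
  refine h2.trans ?_
  rw [Real.div_rpow hy.le (by linarith), Real.rpow_neg (by linarith : (0:ℝ) ≤ c), div_inv_eq_mul,
    mul_comm]
  apply mul_le_mul_of_nonneg_right _ (by positivity)
  have : c ^ (5/4 : ℝ) ≤ c ^ (2:ℝ) := Real.rpow_le_rpow_of_exponent_le hc (by norm_num)
  rwa [Real.rpow_two] at this

/-- the positions of the two vertices -/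
structure Pos (m : ℕ) (v w : Vtx) : Prop where
  d : ds v w = 8 * m
  v0 : ds v (0, 0) ≤ 8 * m
  w0 : ds w (0, 0) ≤ 8 * m
  na : ∀ F : Finset Edg, NA F v 0 (2 * m) + NA F w 0 (2 * m) ≤ N2 F (0, 0) (zz m)
  pq : ∀ (e : Edg) (k : ℕ) (F : Finset Edg), e ∉ F → Pi m e F → k + 1 ≤ ds (ps e) v →
    k + 1 ≤ ds (ps e) w → Qk e k F

theorem pos1 {m : ℕ} (hm : 1 ≤ m) : Pos m (0, 0) (zz m) where
  d := ds_zz m
  v0 := by unfold ds; simp
  w0 := by rw [ds_comm, ds_zz]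
  na := fun F => N2_pieces F hm
  pq := fun _ _ _ heF h h1 h2 => Pi_Qk heF h h1 h2

theorem pos2 {m : ℕ} (hm : 1 ≤ m) : Pos m (zz m) (0, 0) where
  d := by rw [ds_comm, ds_zz]
  v0 := by rw [ds_comm, ds_zz]
  w0 := by unfold ds; simp
  na := fun F => by rw [add_comm]; exact N2_pieces F hm
  pq := fun _ _ _ heF h h1 h2 => Pi_Qk heF h h2 h1

/-- the set of the pieces near `v` -/
noncomputable def TL (m : ℕ) (v w : Vtx) (a b : ℕ) : Finset Edg :=
  (an v 0 a ∪ an v b (2 * m)) ∪ bx w (2 * m : ℕ)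

theorem near_geo {m M ρ : ℕ} {v w : Vtx} {e : Edg} (hp : Pos m v w) (hM : 10 * m ≤ M)
    (hρ : ds (ps e) v = ρ) (he : 4 * ρ + 4 ≤ m) :
    an v 0 (ρ / 2) ⊆ (bx (0, 0) M).erase e ∧ an v (2 * ρ + 2) (2 * m) ⊆ (bx (0, 0) M).erase e ∧
      bx w (2 * m : ℕ) ⊆ (bx (0, 0) M).erase e := by
  have h1 := hp.d
  have h2 := hp.v0
  have h3 := hp.w0
  have h4 := ds_tri v (ps e) w
  rw [ds_comm v (ps e)] at h4
  have bV : bx v (2 * m : ℕ) ⊆ bx (0, 0) M := bx_in' (by omega)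
  have bW : bx w (2 * m : ℕ) ⊆ bx (0, 0) M := bx_in' (by omega)
  have eV : e ∈ bx v (2 * ρ + 2 - 1 : ℕ) := bx_of_dv (by rw [dv_ds]; omega)
  refine ⟨sub_erase (sdiff_subset.trans ((bx_sub (by omega)).trans bV)) ?_,
    sub_erase (sdiff_subset.trans bV) ?_, sub_erase bW ?_⟩
  · intro h
    rw [an_zero_bx] at h
    have h5 := mem_bx_dv h
    rw [dv_ds] at h5
    by_cases h0 : ρ = 0
    · rw [h0] at h
      clear h1 h2 h3 h4 h5 hρ
      unfold bx at h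
      obtain ⟨x, y, _ | _⟩ := e
      · rw [mem_RE_false] at h; omega
      · rw [mem_RE_true] at h; omega
    · omega
  · intro h
    have h1 := not_an (v := v) (a := 2 * ρ + 2) (b := 2 * m) (T := {e})
      (fun f hf => by rw [Finset.mem_singleton] at hf; subst hf; exact eV) (by omega)
    rw [Finset.disjoint_singleton_left] at h1
    exact h1 h
  · intro h
    have := mem_bx_dv h
    rw [dv_ds] at this
    omega

theorem near_disj {m ρ k : ℕ} {v w : Vtx} {e : Edg} (hp : Pos m v w)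
    (hρ : ds (ps e) v = ρ) (he : 4 * ρ + 4 ≤ m) (hk : k = (ρ - 4) / 4) :
    Disjoint (TQ e k) (TL m v w (ρ / 2) (2 * ρ + 2)) := by
  have h1 := hp.d
  have h4 := ds_tri v (ps e) w
  rw [ds_comm v (ps e)] at h4
  apply TQ_disj
  intro hk1
  unfold TL
  rw [Finset.disjoint_union_right, Finset.disjoint_union_right]
  refine ⟨⟨?_, ?_⟩, ?_⟩
  · rw [an_zero_bx]
    apply bx_disj'
    omega
  · apply not_an _ (by omega)
    intro f hf
    exact bx_in' (by omega) hf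
  · apply bx_disj'
    omega

theorem near_Ex {q t : ℝ} {m M ρ : ℕ} {v w : Vtx} {e : Edg} (hp : Pos m v w) (hM : 10 * m ≤ M)
    (hρ : ds (ps e) v = ρ) (he : 4 * ρ + 4 ≤ m) :
    Ex (Pq q) ((bx (0, 0) M).erase e)
      (fun F => t ^ (NA F v 0 (ρ / 2) + NA F v (2 * ρ + 2) (2 * m) + NA F w 0 (2 * m))) =
      Gq q t 0 (ρ / 2) * Gq q t (2 * ρ + 2) (2 * m) * Gq q t 0 (2 * m) := by
  obtain ⟨sA, sB, sW⟩ := near_geo hp hM hρ he
  have h1 := hp.d
  have hdW : Disjoint (an v 0 (ρ / 2) ∪ an v (2 * ρ + 2) (2 * m)) (bx w (2 * m : ℕ)) := by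
    have h1 : an v 0 (ρ / 2) ∪ an v (2 * ρ + 2) (2 * m) ⊆ bx v (2 * m : ℕ) :=
      Finset.union_subset (sdiff_subset.trans (bx_sub (by omega))) sdiff_subset
    exact Disjoint.mono_left h1 (bx_disj' (by omega))
  have e1 : Ex (Pq q) ((bx (0, 0) M).erase e)
      (fun F => t ^ (NA F v 0 (ρ / 2) + NA F v (2 * ρ + 2) (2 * m) + NA F w 0 (2 * m))) =
      Ex (Pq q) ((bx (0, 0) M).erase e)
      (fun F => t ^ (NA F v 0 (ρ / 2) + NA F v (2 * ρ + 2) (2 * m)) * t ^ NA F w 0 (2 * m)) := by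
    apply Ex_congr; intro F _; rw [pow_add]
  rw [e1, Ex_mul_indep (Finset.union_subset sA sB) sW hdW
    (fun F _ => by
      rw [Pool.Agent.W672.NC.loc' geoNA (Nat.zero_le (ρ / 2)) Finset.subset_union_left F,
      Pool.Agent.W672.NC.loc' geoNA (by omega : 2 * ρ + 2 ≤ 2 * m) Finset.subset_union_right F])
    (fun F _ => by
      rw [Pool.Agent.W672.NC.loc' geoNA (Nat.zero_le (2 * m)) sdiff_subset F]),
    Ex_ann2 (by omega) (by omega) sA sB, Gq_loc q t (Nat.zero_le _) sW]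

theorem near_JJ {q t : ℝ} (q0 : 0 ≤ q) (q1 : q ≤ 1) (t0 : 0 < t) (t1 : t ≤ 1) {m M ρ k : ℕ}
    {v w : Vtx} {e : Edg} (hp : Pos m v w) (hM : 10 * m ≤ M)
    (hρ : ds (ps e) v = ρ) (he : 4 * ρ + 4 ≤ m) (hk : k = (ρ - 4) / 4) :
    JJ q t m (bx (0, 0) M) e ≤ Pr (Pq q) ((bx (0, 0) M).erase e) (Qk e k) *
      (Gq q t 0 (ρ / 2) * Gq q t (2 * ρ + 2) (2 * m) * Gq q t 0 (2 * m)) := by
  obtain ⟨sA, sB, sW⟩ := near_geo hp hM hρ he
  have h1 := hp.d
  have h2 := hp.v0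
  have h4 := ds_tri v (ps e) w
  have h5 := ds_tri (ps e) v (0, 0)
  rw [ds_comm v (ps e)] at h4
  have hk1 : 1 ≤ k → bx (ps e) (k + 1 : ℕ) ⊆ bx (0, 0) M := fun _ => bx_in' (by omega)
  rw [← near_Ex hp hM hρ he]
  refine JJ_le (TL := TL m v w (ρ / 2) (2 * ρ + 2)) (TQ := TQ e k) q0 q1 t0 t1
    (Finset.union_subset (Finset.union_subset sA sB) sW) (TQ_sub hk1) (near_disj hp hρ he hk)
    ?_ ?_ ?_ (fun F => Qk_loc2 e k F (Finset.Subset.refl _))
  · intro F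
    have h1 := hp.na F
    have h2 := geoNA.super F v 0 (ρ / 2) (2 * ρ + 2) (2 * m) (Nat.zero_le _) (by omega) (by omega)
    omega
  · intro F
    unfold TL
    rw [Pool.Agent.W672.NC.loc' geoNA (Nat.zero_le (ρ / 2))
        (Finset.subset_union_left.trans Finset.subset_union_left) F,
        Pool.Agent.W672.NC.loc' geoNA (by omega : 2 * ρ + 2 ≤ 2 * m)
        (Finset.subset_union_right.trans Finset.subset_union_left) F,
        Pool.Agent.W672.NC.loc' geoNA (Nat.zero_le (2 * m))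
        (sdiff_subset.trans Finset.subset_union_right) F]
  · intro F hF hpi
    by_cases hk0 : k = 0
    · intro h; omega
    · refine hp.pq e k F (fun h => ?_) hpi (by omega) (by omega)
      have := hF h; rw [Finset.mem_erase] at this; exact this.1 rfl

/-- edges near one of the two vertices -/
theorem near {t : ℝ} (t0 : 0 < t) (t1 : t ≤ 1) : ∃ C : ℝ, 1 ≤ C ∧ ∀ q : ℝ, 1/2 ≤ q → q ≤ 1 →
    ∀ (m M ρ : ℕ) (v w : Vtx) (e : Edg), 10 * m ≤ M → Pos m v w → ds (ps e) v = ρ →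
    4 * ρ + 4 ≤ m →
    JJ q t m (bx (0, 0) M) e ≤
      C * ((ρ : ℝ) + 1) ^ (-(5/4) : ℝ) * (Gq q t 0 (2 * m) * Gq q t 0 (2 * m)) := by
  obtain ⟨C1, hC1, hQ⟩ := Qk_pr
  obtain ⟨B, hB, hQM⟩ := QM t0 t1
  refine ⟨C1 * 64 * B, by nlinarith, ?_⟩
  intro q q0 q1 m M ρ v w e hM hp hρ he
  have q0' : (0:ℝ) ≤ q := by linarith
  obtain ⟨k, hk⟩ : ∃ k, k = (ρ - 4) / 4 := ⟨_, rfl⟩
  have main := near_JJ q0' q1 t0 t1 hp hM hρ he hk
  have h2 := hp.v0
  have h5 := ds_tri (ps e) v (0, 0)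
  have hq := hQ q q0' q1 e k (bx (0, 0) M) (fun _ => bx_in' (by omega))
  have hqm := hQM q q0 q1 (ρ / 2) (2 * ρ + 2) (2 * m) (by omega) (by omega) (by omega)
  have g0 : 0 < Gq q t 0 (2 * m) := Gq_pos q0' q1 t0 t1 _ _
  have g1 : 0 < Gq q t 0 (ρ / 2) := Gq_pos q0' q1 t0 t1 _ _
  have g2 : 0 < Gq q t (2 * ρ + 2) (2 * m) := Gq_pos q0' q1 t0 t1 _ _
  have hkρ : ((k:ℝ) + 1) ^ (-(5/4) : ℝ) ≤ 8 ^ 2 * ((ρ:ℝ) + 1) ^ (-(5/4) : ℝ) := by
    apply rp_le (by positivity) (by positivity) (by norm_num)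
    have : ρ + 1 ≤ 8 * (k + 1) := by omega
    exact_mod_cast this
  calc JJ q t m (bx (0, 0) M) e ≤ _ := main
    _ ≤ (C1 * ((k:ℝ) + 1) ^ (-(5/4) : ℝ)) * (B * Gq q t 0 (2 * m) * Gq q t 0 (2 * m)) := by
        apply mul_le_mul hq _ (by positivity) (by positivity)
        exact mul_le_mul_of_nonneg_right hqm g0.le
    _ ≤ (C1 * (8 ^ 2 * ((ρ:ℝ) + 1) ^ (-(5/4) : ℝ))) *
        (B * Gq q t 0 (2 * m) * Gq q t 0 (2 * m)) := by
        apply mul_le_mul_of_nonneg_right _ (by positivity)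
        exact mul_le_mul_of_nonneg_left hkρ (by linarith)
    _ = _ := by ring

end Pool.Agent.H953.Nst
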