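import Pool.Agent.H953.Nst11

/-!
The contribution of one edge to the derivative: far edges.
-/

set_option autoImplicit false

namespace Pool.Agent.H953.Nst

open H974 H906.Cyl Finset Pool.Agent.W819.EN Pool.Agent.W819.NC
open H12S (bdB)
open H389NS (A4a)

theorem dbl_pow {q t A : ℝ} (hA : 1 ≤ A)
    (h : ∀ r n : ℕ, 1 ≤ n → r ≤ n → Gq q t r n ≤ A * Gq q t r (2 * n)) (j : ℕ) :
    ∀ n : ℕ, 1 ≤ n → Gq q t 0 n ≤ A ^ j * Gq q t 0 (2 ^ j * n) := by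
  induction j with
  | zero => intro n _; simp
  | succ j ih =>
    intro n hn
    have h1 := ih n hn
    have h2 := h 0 (2 ^ j * n) (Nat.mul_pos (by positivity) hn) (Nat.zero_le _)
    have e : 2 * (2 ^ j * n) = 2 ^ (j + 1) * n := by ring
    rw [e] at h2
    calc Gq q t 0 n ≤ A ^ j * Gq q t 0 (2 ^ j * n) := h1
      _ ≤ A ^ j * (A * Gq q t 0 (2 ^ (j + 1) * n)) := mul_le_mul_of_nonneg_left h2 (by positivity)
      _ = _ := by ring

/-- edges at the distance of the two vertices -/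
theorem midd {t : ℝ} (t0 : 0 < t) (t1 : t ≤ 1) : ∃ C : ℝ, 1 ≤ C ∧ ∀ q : ℝ, 1/2 ≤ q → q ≤ 1 →
    ∀ (m M ρ ρ' : ℕ) (e : Edg), 64 ≤ m → 42 * m ≤ M → ds (ps e) (0, 0) = ρ →
    ds (ps e) (zz m) = ρ' → m < 4 * ρ + 4 → m < 4 * ρ' + 4 → ρ ≤ 40 * m →
    JJ q t m (bx (0, 0) M) e ≤
      C * ((ρ : ℝ) + 1) ^ (-(5/4) : ℝ) * (Gq q t 0 (2 * m) * Gq q t 0 (2 * m)) := by
  obtain ⟨C1, hC1, hQ⟩ := Qk_pr
  obtain ⟨A, hA, hdbl⟩ := dblO t0 t1
  have hA14 : 1 ≤ A ^ 14 := one_le_pow₀ hA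
  refine ⟨C1 * 2000 ^ 2 * A ^ 14, by nlinarith, ?_⟩
  intro q q0 q1 m M ρ ρ' e hm hM hρ hρ' h1 h2 h3
  have q0' : (0:ℝ) ≤ q := by linarith
  obtain ⟨a, ha⟩ : ∃ a, a = m / 32 := ⟨_, rfl⟩
  have hz0 : ds (zz m) (0, 0) = 8 * m := by rw [ds_comm, ds_zz]
  have hzz := ds_zz m
  have d0 : Disjoint (bx (0, 0) a) (bx (zz m) a) := bx_disj' (by omega)
  have nA : e ∉ bx (0, 0) a := by
    intro h
    have := mem_bx_dv h
    rw [dv_ds] at this
    omega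
  have nZ : e ∉ bx (zz m) a := by
    intro h
    have := mem_bx_dv h
    rw [dv_ds] at this
    omega
  have h00 : ds ((0, 0) : Vtx) (0, 0) = 0 := by unfold ds; simp
  have sA : bx (0, 0) a ⊆ (bx (0, 0) M).erase e := sub_erase (bx_sub (by omega)) nA
  have sZ : bx (zz m) a ⊆ (bx (0, 0) M).erase e := sub_erase (bx_in' (by omega)) nZ
  have hk1 : bx (ps e) (a + 1 : ℕ) ⊆ bx (0, 0) M := bx_in' (by omega)
  have main := JJ_le (q := q) (t := t) q0' q1 t0 t1 (m := m) (S := bx (0, 0) M) (e := e)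
    (L := fun F => NA F (0, 0) 0 a + NA F (zz m) 0 a) (Q := Qk e a)
    (TL := bx (0, 0) a ∪ bx (zz m) a) (TQ := TQ e a)
    (Finset.union_subset sA sZ) (TQ_sub (fun _ => hk1))
    (TQ_disj (fun _ => by
      rw [Finset.disjoint_union_right]
      exact ⟨bx_disj' (by omega), bx_disj' (by omega)⟩))
    (fun F => by
      have h1 := N2_pieces F (m := m) (by omega)
      have h2 := geoNA.mono F (0, 0) 0 0 a (2 * m) le_rfl (by omega)
      have h3 := geoNA.mono F (zz m) 0 0 a (2 * m) le_rfl (by omega)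
      omega)
    (fun F => by
      rw [Pool.Agent.W672.NC.loc' geoNA (Nat.zero_le a)
        (sdiff_subset.trans Finset.subset_union_left) F,
        Pool.Agent.W672.NC.loc' geoNA (Nat.zero_le a)
        (sdiff_subset.trans Finset.subset_union_right) F])
    (fun F hF hpi => by
      refine Pi_Qk (fun h => ?_) hpi (by rw [dv_ds]; omega) (by rw [dv_ds]; omega)
      have := hF h; rw [Finset.mem_erase] at this; exact this.1 rfl)
    (fun F => Qk_loc2 e a F (Finset.Subset.refl _))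
  rw [Ex_two2 d0 sA sZ] at main
  have hq := hQ q q0' q1 e a (bx (0, 0) M) (fun _ => hk1)
  have g0 : 0 < Gq q t 0 (2 * m) := Gq_pos q0' q1 t0 t1 _ _
  have g1 : 0 < Gq q t 0 a := Gq_pos q0' q1 t0 t1 _ _
  have g2 : Gq q t 0 a ≤ A ^ 7 * Gq q t 0 (2 * m) := by
    refine (dbl_pow hA (hdbl q q0 q1) 7 a (by omega)).trans ?_
    apply mul_le_mul_of_nonneg_left _ (by positivity)
    exact Gq_mono q0' q1 t0 t1 le_rfl (by omega) (by norm_num; omega)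
  have g3 : Gq q t 0 a * Gq q t 0 a ≤ A ^ 14 * (Gq q t 0 (2 * m) * Gq q t 0 (2 * m)) := by
    calc _ ≤ (A ^ 7 * Gq q t 0 (2 * m)) * (A ^ 7 * Gq q t 0 (2 * m)) :=
          mul_le_mul g2 g2 g1.le (by positivity)
      _ = _ := by ring
  have hkρ : ((a:ℝ) + 1) ^ (-(5/4) : ℝ) ≤ 2000 ^ 2 * ((ρ:ℝ) + 1) ^ (-(5/4) : ℝ) := by
    apply rp_le (by positivity) (by positivity) (by norm_num)
    have : ρ + 1 ≤ 2000 * (a + 1) := by omega
    exact_mod_cast this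
  calc JJ q t m (bx (0, 0) M) e ≤ _ := main
    _ ≤ (C1 * ((a:ℝ) + 1) ^ (-(5/4) : ℝ)) * (A ^ 14 * (Gq q t 0 (2 * m) * Gq q t 0 (2 * m))) := by
        exact mul_le_mul hq g3 (by positivity) (by positivity)
    _ ≤ (C1 * (2000 ^ 2 * ((ρ:ℝ) + 1) ^ (-(5/4) : ℝ))) *
        (A ^ 14 * (Gq q t 0 (2 * m) * Gq q t 0 (2 * m))) := by
        apply mul_le_mul_of_nonneg_right _ (by positivity)
        exact mul_le_mul_of_nonneg_left hkρ (by linarith)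
    _ = _ := by ring

/-- the far annulus -/
noncomputable def FA (m ρ : ℕ) : Finset Edg := bx (0, 0) (ρ / 2 + 1 : ℕ) \ bx (0, 0) (10 * m : ℕ)

theorem Pi_in {m ρ : ℕ} {e : Edg} {F : Finset Edg} (heF : e ∉ F) (h : Pi m e F)
    (hρ : ds (ps e) (0, 0) = ρ) (h1 : 40 * m < ρ) (hm : 64 ≤ m) :
    Ar (0, 0) (10 * m + 1) (ρ / 2) (↑F : Set Edg) := by
  refine piv_in (A := fun p => p = fc (0, 0)) (B := fun p => p = fc (zz m)) ?_
    (Pi_Pvt h) (by omega) (by omega) ?_ ?_ ?_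
  · intro h; exact heF (Finset.mem_coe.1 h)
  · intro h
    have h2 : e ∈ bx (0, 0) (ρ / 2 + 1 : ℕ) := h
    have := mem_bx_dv h2
    rw [dv_ds] at this
    omega
  · rintro p rfl
    rw [Zi_fc]
    unfold Pool.Agent.NH39.InB
    simp
  · rintro p rfl
    rw [Zi_fc]
    unfold Pool.Agent.NH39.InB
    simp only [sub_zero, abs_zero]
    have a1 := abs_cases (8 * (m:ℤ))
    push_cast
    omega

theorem far_Pr {C1 C2 q : ℝ} (hC1 : 1 ≤ C1) (hC2 : 1 ≤ C2) (q0 : 0 ≤ q) (q1 : q ≤ 1)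
    (hQ : ∀ (e : Edg) (k : ℕ) (S : Finset Edg), (1 ≤ k → H12S.blk (ps e) (k + 1) ⊆ S) →
      Pr (Pq q) (S.erase e) (Qk e k) ≤ C1 * ((k:ℝ) + 1) ^ (-(5/4) : ℝ))
    (hA : ∀ (c : Vtx) (r k : ℕ) (S : Finset Edg), 1 ≤ r → r ≤ k → H12S.blk c (k + 1) ⊆ S →
      Pr (fun _ => q) S (fun F => Ar c r k (↑F : Set Edg)) ≤ C2 * ((r:ℝ) / k) ^ (5/4 : ℝ))
    {m M ρ k : ℕ} {e : Edg} (hm : 64 ≤ m) (hρ : ds (ps e) (0, 0) = ρ) (h1 : 40 * m < ρ)
    (h2 : ρ ≤ M) (hk : k = min (ρ / 4) (M - ρ - 1)) :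
    Pr (Pq q) ((bx (0, 0) M).erase e) (fun F => Qk e k F ∧
      Ar (0, 0) (10 * m + 1) (ρ / 2) (↑F : Set Edg)) ≤
      C1 * ((k:ℝ) + 1) ^ (-(5/4) : ℝ) *
        (C2 * (((10 * m + 1 : ℕ):ℝ) / (ρ / 2 : ℕ)) ^ (5/4 : ℝ)) := by
  have ok := okP q0 q1
  have n1 : e ∉ bx (0, 0) (ρ / 2 + 1 : ℕ) := by
    intro h
    have := mem_bx_dv h
    rw [dv_ds] at this
    omega
  have s1 : bx (0, 0) (ρ / 2 + 1 : ℕ) ⊆ (bx (0, 0) M).erase e :=
    sub_erase (bx_sub (by omega)) n1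
  have s2 : 1 ≤ k → bx (ps e) (k + 1 : ℕ) ⊆ bx (0, 0) M := fun _ => bx_in' (by omega)
  have hind := Pr_indep (p := Pq q) (U := (bx (0, 0) M).erase e) (S := TQ e k) (T := FA m ρ)
    (A := Qk e k) (B := fun F => Ar (0, 0) (10 * m + 1) (ρ / 2) (↑F : Set Edg))
    (TQ_sub s2) (sdiff_subset.trans s1)
    (TQ_disj (fun _ => by
      refine Disjoint.mono_right sdiff_subset (bx_disj' ?_)
      omega))
    (fun F _ => Qk_loc2 e k F (Finset.Subset.refl _))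
    (fun F _ => Ar_loc F (by
      unfold FA
      have e1 : 10 * m + 1 - 1 = 10 * m := by omega
      rw [e1]
      exact Finset.Subset.refl _))
  rw [hind]
  have e1 := hQ e k (bx (0, 0) M) s2
  have e2 := hA (0, 0) (10 * m + 1) (ρ / 2) ((bx (0, 0) M).erase e) (by omega) (by omega) s1
  exact mul_le_mul e1 e2 (Pr_nonneg ok _ _) (by positivity)

/-- far edges -/
theorem farr {t : ℝ} (t0 : 0 < t) (t1 : t ≤ 1) : ∃ C : ℝ, 1 ≤ C ∧ ∀ q : ℝ, 1/2 ≤ q → q ≤ 1 →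
    ∀ (m M ρ : ℕ) (e : Edg), 64 ≤ m → ds (ps e) (0, 0) = ρ → 40 * m < ρ → ρ ≤ M →
    JJ q t m (bx (0, 0) M) e ≤
      C * ((((ρ : ℝ) + 1) ^ (-(5/4) : ℝ) + ((M : ℝ) - ρ + 1) ^ (-(5/4) : ℝ)) *
        ((m:ℝ) / (ρ + 1)) ^ (5/4 : ℝ)) * (Gq q t 0 (2 * m) * Gq q t 0 (2 * m)) := by
  obtain ⟨C1, hC1, hQ⟩ := Qk_pr
  obtain ⟨C2, hC2, hA⟩ := Ar_pr
  refine ⟨C1 * 4 ^ 2 * (C2 * 44 ^ 2), by nlinarith [mul_le_mul hC1 hC2 (by norm_num) (by linarith)], ?_⟩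
  intro q q0 q1 m M ρ e hm hρ h1 h2
  have q0' : (0:ℝ) ≤ q := by linarith
  have ok := okP q0' q1
  obtain ⟨k, hk⟩ : ∃ k, k = min (ρ / 4) (M - ρ - 1) := ⟨_, rfl⟩
  have hPr := far_Pr hC1 hC2 q0' q1 (hQ q q0' q1) (hA q q0' q1) hm hρ h1 h2 hk
  have hz0 : ds (zz m) (0, 0) = 8 * m := by rw [ds_comm, ds_zz]
  have hzz := ds_zz m
  have htr := ds_tri (ps e) (zz m) (0, 0)
  have hz10 : bx (zz m) (2 * m : ℕ) ⊆ bx (0, 0) (10 * m : ℕ) := bx_in' (by omega)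
  have h010 : bx (0, 0) (2 * m : ℕ) ⊆ bx (0, 0) (10 * m : ℕ) := bx_sub (by omega)
  have n10 : e ∉ bx (0, 0) (10 * m : ℕ) := by
    intro h
    have := mem_bx_dv h
    rw [dv_ds] at this
    omega
  have s10 : bx (0, 0) (10 * m : ℕ) ⊆ (bx (0, 0) M).erase e := sub_erase (bx_sub (by omega)) n10
  have n1 : e ∉ bx (0, 0) (ρ / 2 + 1 : ℕ) := by
    intro h
    have := mem_bx_dv h
    rw [dv_ds] at this
    omega
  have s1 : bx (0, 0) (ρ / 2 + 1 : ℕ) ⊆ (bx (0, 0) M).erase e :=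
    sub_erase (bx_sub (by omega)) n1
  have s2 : 1 ≤ k → bx (ps e) (k + 1 : ℕ) ⊆ bx (0, 0) M := fun _ => bx_in' (by omega)
  have d0 : Disjoint (bx (0, 0) (2 * m : ℕ)) (bx (zz m) (2 * m : ℕ)) := bx_disj' (by omega)
  have main := JJ_le (q := q) (t := t) q0' q1 t0 t1 (m := m) (S := bx (0, 0) M) (e := e)
    (L := fun F => NA F (0, 0) 0 (2 * m) + NA F (zz m) 0 (2 * m))
    (Q := fun F => Qk e k F ∧ Ar (0, 0) (10 * m + 1) (ρ / 2) (↑F : Set Edg))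
    (TL := bx (0, 0) (2 * m : ℕ) ∪ bx (zz m) (2 * m : ℕ)) (TQ := TQ e k ∪ FA m ρ)
    (Finset.union_subset (h010.trans s10) (hz10.trans s10))
    (Finset.union_subset (TQ_sub s2) (sdiff_subset.trans s1))
    (by
      rw [Finset.disjoint_union_left]
      constructor
      · apply TQ_disj
        intro _
        exact Disjoint.mono_right (Finset.union_subset h010 hz10) (bx_disj' (by omega))
      · unfold FA
        exact Disjoint.mono_right (Finset.union_subset h010 hz10) Finset.sdiff_disjoint)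
    (fun F => N2_pieces F (by omega))
    (fun F => by
      rw [Pool.Agent.W672.NC.loc' geoNA (Nat.zero_le (2 * m))
        (sdiff_subset.trans Finset.subset_union_left) F,
        Pool.Agent.W672.NC.loc' geoNA (Nat.zero_le (2 * m))
        (sdiff_subset.trans Finset.subset_union_right) F])
    (fun F hF hpi => by
      have heF : e ∉ F := fun h => by
        have := hF h; rw [Finset.mem_erase] at this; exact this.1 rfl
      refine ⟨Pi_Qk heF hpi (by rw [dv_ds]; omega) (by rw [dv_ds]; omega),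
        Pi_in heF hpi hρ h1 hm⟩)
    (fun F => by
      rw [← Qk_loc2 e k F Finset.subset_union_left, ← Ar_loc F (by
        have e1 : 10 * m + 1 - 1 = 10 * m := by omega
        rw [e1]
        exact Finset.subset_union_right)])
  rw [Ex_two2 d0 (h010.trans s10) (hz10.trans s10)] at main
  have g0 : 0 < Gq q t 0 (2 * m) := Gq_pos q0' q1 t0 t1 _ _
  have hM : (0:ℝ) < (M:ℝ) - ρ + 1 := by
    have : (ρ:ℝ) ≤ M := by exact_mod_cast h2
    linarith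
  have hkρ : ((k:ℝ) + 1) ^ (-(5/4) : ℝ) ≤
      4 ^ 2 * (((ρ : ℝ) + 1) ^ (-(5/4) : ℝ) + ((M : ℝ) - ρ + 1) ^ (-(5/4) : ℝ)) := by
    have p1 : 0 < ((ρ : ℝ) + 1) ^ (-(5/4) : ℝ) := by positivity
    have p2 : 0 < ((M : ℝ) - ρ + 1) ^ (-(5/4) : ℝ) := by positivity
    rcases le_total (ρ / 4) (M - ρ - 1) with h | h
    · have e1 : ((k:ℝ) + 1) ^ (-(5/4) : ℝ) ≤ 4 ^ 2 * ((ρ:ℝ) + 1) ^ (-(5/4) : ℝ) := by
        apply rp_le (by positivity) (by positivity) (by norm_num)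
        have : ρ + 1 ≤ 4 * (k + 1) := by omega
        exact_mod_cast this
      linarith
    · have e1 : ((k:ℝ) + 1) ^ (-(5/4) : ℝ) ≤ 4 ^ 2 * ((M:ℝ) - ρ + 1) ^ (-(5/4) : ℝ) := by
        apply rp_le (by positivity) hM (by norm_num)
        have : M + 1 ≤ 4 * (k + 1) + ρ := by omega
        have h3 : ((M:ℝ) + 1) ≤ 4 * (k + 1) + ρ := by exact_mod_cast this
        linarith
      linarith
  have hr : (((10 * m + 1 : ℕ):ℝ) / (ρ / 2 : ℕ)) ^ (5/4 : ℝ) ≤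
      44 ^ 2 * ((m:ℝ) / (ρ + 1)) ^ (5/4 : ℝ) := by
    have hm0 : (0:ℝ) < m := by exact_mod_cast (by omega : 0 < m)
    have hρ2 : (0:ℝ) < (ρ / 2 : ℕ) := by exact_mod_cast (by omega : 0 < ρ / 2)
    have e1 : ((10 * m + 1 : ℕ):ℝ) / (ρ / 2 : ℕ) ≤ 44 * ((m:ℝ) / (ρ + 1)) := by
      rw [mul_div_assoc', div_le_div_iff₀ hρ2 (by positivity)]
      have : (10 * m + 1) * (ρ + 1) ≤ 44 * m * (ρ / 2) := by
        have h3 : ρ + 1 ≤ 4 * (ρ / 2) := by omega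
        calc (10 * m + 1) * (ρ + 1) ≤ (11 * m) * (4 * (ρ / 2)) :=
              Nat.mul_le_mul (by omega) h3
          _ = _ := by ring
      exact_mod_cast this
    refine (Real.rpow_le_rpow (by positivity) e1 (by norm_num)).trans ?_
    rw [Real.mul_rpow (by norm_num) (by positivity)]
    apply mul_le_mul_of_nonneg_right _ (by positivity)
    have : (44:ℝ) ^ (5/4 : ℝ) ≤ 44 ^ (2:ℝ) :=
      Real.rpow_le_rpow_of_exponent_le (by norm_num) (by norm_num)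
    rwa [Real.rpow_two] at this
  have p3 : 0 ≤ ((m:ℝ) / (ρ + 1)) ^ (5/4 : ℝ) := by positivity
  calc JJ q t m (bx (0, 0) M) e ≤ _ := main
    _ ≤ (C1 * ((k:ℝ) + 1) ^ (-(5/4) : ℝ) *
        (C2 * (((10 * m + 1 : ℕ):ℝ) / (ρ / 2 : ℕ)) ^ (5/4 : ℝ))) *
        (Gq q t 0 (2 * m) * Gq q t 0 (2 * m)) := mul_le_mul_of_nonneg_right hPr (by positivity)
    _ ≤ (C1 * (4 ^ 2 * (((ρ : ℝ) + 1) ^ (-(5/4) : ℝ) + ((M : ℝ) - ρ + 1) ^ (-(5/4) : ℝ))) *
        (C2 * (44 ^ 2 * ((m:ℝ) / (ρ + 1)) ^ (5/4 : ℝ)))) *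
        (Gq q t 0 (2 * m) * Gq q t 0 (2 * m)) := by
        apply mul_le_mul_of_nonneg_right _ (by positivity)
        apply mul_le_mul _ _ (by positivity) (by positivity)
        · exact mul_le_mul_of_nonneg_left hkρ (by linarith)
        · exact mul_le_mul_of_nonneg_left hr (by linarith)
    _ = _ := by ring

end Pool.Agent.H953.Nst
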