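import Pool.Agent.H953.Nst12
import Pool.Graph.R_pool_sql_team_seeded_3dad9d7b.NH39.W.Sum1

/-!
Summation over the edges.
-/

set_option autoImplicit false

namespace Pool.Agent.H953.Nst

open H974 H906.Cyl Finset Pool.Agent.W819.EN Pool.Agent.W819.NC

theorem tang {p : ℝ} (hp0 : 0 < p) (hp1 : p ≤ 1) {n : ℝ} (hn : 0 < n) :
    (n + 1) ^ (-(1 + p)) ≤ 1 / p * (n ^ (-p) - (n + 1) ^ (-p)) := by
  have hn1 : 0 < n + 1 := by linarith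
  set u : ℝ := 1 / (n + 1) with hu
  have hu0 : 0 < u := by positivity
  have hu1 : u < 1 := by rw [hu, div_lt_one hn1]; linarith
  have h1 : (1 + (-u)) ^ p ≤ 1 + p * (-u) :=
    rpow_one_add_le_one_add_mul_self (by linarith) hp0.le hp1
  have e1 : n = (n + 1) * (1 + (-u)) := by rw [hu]; field_simp; ring
  have h2 : 0 < (1 + (-u)) ^ p := Real.rpow_pos_of_pos (by linarith) _
  have h3 : 1 + p * u ≤ ((1 + (-u)) ^ p)⁻¹ := by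
    rw [le_inv_comm₀ (by positivity) h2]
    refine h1.trans ?_
    rw [← one_div, le_div_iff₀ (by positivity)]
    nlinarith [mul_pos hp0 hu0]
  have e2 : n ^ (-p) = (n + 1) ^ (-p) * ((1 + (-u)) ^ p)⁻¹ := by
    conv_lhs => rw [e1]
    rw [Real.mul_rpow hn1.le (by linarith), Real.rpow_neg (by linarith : (0:ℝ) ≤ 1 + (-u))]
  have h4 : 0 < (n + 1) ^ (-p) := by positivity
  have h5 : (n + 1) ^ (-p) * (p * u) ≤ n ^ (-p) - (n + 1) ^ (-p) := by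
    rw [e2]
    nlinarith
  have e3 : (n + 1) ^ (-(1 + p)) = (n + 1) ^ (-p) * u := by
    rw [hu, show -(1 + p) = -p + (-1) by ring, Real.rpow_add hn1, Real.rpow_neg_one, one_div]
  rw [e3, one_div, ← div_eq_inv_mul, le_div_iff₀ hp0]
  linarith

theorem tail_sum {p : ℝ} (hp0 : 0 < p) (hp1 : p ≤ 1) {a : ℕ} (ha : 1 ≤ a) (n : ℕ) :
    ∑ b ∈ Finset.Ico a (a + n), ((b:ℝ) + 1) ^ (-(1 + p)) ≤
      1 / p * ((a:ℝ) ^ (-p) - ((a + n : ℕ) : ℝ) ^ (-p)) := by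
  induction n with
  | zero => simp
  | succ n ih =>
    rw [show a + (n + 1) = (a + n) + 1 by ring, Finset.sum_Ico_succ_top (by omega)]
    have h1 := tang hp0 hp1 (n := ((a + n : ℕ) : ℝ)) (by exact_mod_cast (by omega : 0 < a + n))
    have e : (((a + n) + 1 : ℕ) : ℝ) = ((a + n : ℕ) : ℝ) + 1 := by push_cast; ring
    rw [e]
    linarith

theorem tail_sum' {p : ℝ} (hp0 : 0 < p) (hp1 : p ≤ 1) {a : ℕ} (ha : 1 ≤ a) (n : ℕ) :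
    ∑ b ∈ Finset.Ico a n, ((b:ℝ) + 1) ^ (-(1 + p)) ≤ 1 / p * (a:ℝ) ^ (-p) := by
  have hpos : 0 ≤ 1 / p * (a:ℝ) ^ (-p) := by positivity
  rcases le_total n a with h | h
  · rw [Finset.Ico_eq_empty (by omega)]; simpa using hpos
  · obtain ⟨k, rfl⟩ := Nat.exists_eq_add_of_le h
    refine (tail_sum hp0 hp1 ha k).trans ?_
    apply mul_le_mul_of_nonneg_left _ (by positivity)
    have : 0 ≤ ((a + k : ℕ) : ℝ) ^ (-p) := by positivity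
    linarith

theorem sum54 (n : ℕ) : ∑ b ∈ Finset.range n, ((b:ℝ) + 1) ^ (-(5/4) : ℝ) ≤ 5 := by
  rcases Nat.eq_zero_or_pos n with rfl | hn
  · simp
  · rw [Finset.range_eq_Ico, Finset.sum_eq_sum_Ico_succ_bot hn]
    have h := tail_sum' (p := 1/4) (by norm_num) (by norm_num) (a := 1) le_rfl n
    have e : (-(1 + 1/4) : ℝ) = -(5/4) := by norm_num
    rw [e] at h
    simp only [Nat.cast_one, Real.one_rpow, Nat.cast_zero, zero_add] at h ⊢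
    linarith

theorem sum14 (n : ℕ) : ∑ b ∈ Finset.range n, ((b:ℝ) + 1) ^ (-(1/4) : ℝ) ≤ 2 * (n:ℝ) ^ (3/4 : ℝ) := by
  have := (Pool.Agent.NH39.W.sum1d (l := 0) le_rfl (by norm_num) n).1
  simpa using this

theorem mul_54 (b : ℕ) : ((b:ℝ) + 1) * ((b:ℝ) + 1) ^ (-(5/4) : ℝ) = ((b:ℝ) + 1) ^ (-(1/4) : ℝ) := by
  have h : (0:ℝ) < (b:ℝ) + 1 := by positivity
  conv_lhs => rw [← Real.rpow_one ((b:ℝ) + 1), ← Real.rpow_mul h.le]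
  rw [← Real.rpow_add h]
  norm_num

/-- the near weight -/
noncomputable def w1 (m b : ℕ) : ℝ := if b ≤ 48 * m then ((b:ℝ) + 1) ^ (-(5/4) : ℝ) else 0

/-- the far weight -/
noncomputable def w2 (m M b : ℕ) : ℝ := if 40 * m < b ∧ b ≤ M then
  (((b : ℝ) + 1) ^ (-(5/4) : ℝ) + ((M : ℝ) - b + 1) ^ (-(5/4) : ℝ)) *
        ((m:ℝ) / (b + 1)) ^ (5/4 : ℝ) else 0

theorem w1_sum (m M : ℕ) (hm : 1 ≤ m) :
    ∑ b ∈ Finset.range (M + 1), ((b:ℝ) + 1) * w1 m b ≤ 200 * (m:ℝ) ^ (3/4 : ℝ) := by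
  have h1 : ∑ b ∈ Finset.range (M + 1), ((b:ℝ) + 1) * w1 m b ≤
      ∑ b ∈ Finset.range (48 * m + 1), ((b:ℝ) + 1) ^ (-(1/4) : ℝ) := by
    have : ∀ b ∈ Finset.range (M + 1), ((b:ℝ) + 1) * w1 m b =
        if b ≤ 48 * m then ((b:ℝ) + 1) ^ (-(1/4) : ℝ) else 0 := by
      intro b _
      unfold w1
      by_cases h : b ≤ 48 * m
      · rw [if_pos h, if_pos h, mul_54]
      · rw [if_neg h, if_neg h, mul_zero]
    rw [Finset.sum_congr rfl this, ← Finset.sum_filter]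
    apply Finset.sum_le_sum_of_subset_of_nonneg
    · intro b hb
      rw [Finset.mem_filter] at hb
      rw [Finset.mem_range]
      omega
    · intro b _ _; positivity
  refine h1.trans ((sum14 _).trans ?_)
  have h2 : ((48 * m + 1 : ℕ) : ℝ) ≤ 49 * m := by exact_mod_cast (by omega : 48 * m + 1 ≤ 49 * m)
  have h3 : ((48 * m + 1 : ℕ) : ℝ) ^ (3/4 : ℝ) ≤ (49 * (m:ℝ)) ^ (3/4 : ℝ) :=
    Real.rpow_le_rpow (by positivity) h2 (by norm_num)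
  rw [Real.mul_rpow (by norm_num) (by positivity)] at h3
  have h4 : (49:ℝ) ^ (3/4 : ℝ) ≤ 49 ^ (1:ℝ) :=
    Real.rpow_le_rpow_of_exponent_le (by norm_num) (by norm_num)
  rw [Real.rpow_one] at h4
  have h5 : 0 ≤ (m:ℝ) ^ (3/4 : ℝ) := by positivity
  nlinarith

theorem w2_point {m M b : ℕ} (hm : 1 ≤ m) (hM : M = m * m) (hb : 40 * m < b) (hbM : b ≤ M) :
    ((b:ℝ) + 1) * w2 m M b ≤ (m:ℝ) ^ (5/4 : ℝ) * ((b:ℝ) + 1) ^ (-(3/2) : ℝ) +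
      (4 * (m:ℝ) ^ (3/4 : ℝ) * ((M:ℝ) - b + 1) ^ (-(5/4) : ℝ) +
        4 * (m:ℝ) ^ (-(5/4) : ℝ) * ((b:ℝ) + 1) ^ (-(1/4) : ℝ)) := by
  have hm0 : (0:ℝ) < m := by exact_mod_cast hm
  have hb0 : (0:ℝ) < (b:ℝ) + 1 := by positivity
  have hc0 : (0:ℝ) < (M:ℝ) - b + 1 := by
    have : (b:ℝ) ≤ M := by exact_mod_cast hbM
    linarith
  have hM' : (M:ℝ) = m * m := by rw [hM]; push_cast; ring
  unfold w2
  rw [if_pos ⟨hb, hbM⟩, Real.div_rpow hm0.le hb0.le, div_eq_mul_inv ((m:ℝ) ^ (5/4 : ℝ)),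
    ← Real.rpow_neg hb0.le]
  have e1 : ((b:ℝ) + 1) * ((((b : ℝ) + 1) ^ (-(5/4) : ℝ) + ((M : ℝ) - b + 1) ^ (-(5/4) : ℝ)) *
      ((m:ℝ) ^ (5/4 : ℝ) * ((b:ℝ) + 1) ^ (-(5/4) : ℝ))) =
      (m:ℝ) ^ (5/4 : ℝ) * ((((b:ℝ) + 1) * ((b:ℝ) + 1) ^ (-(5/4) : ℝ)) *
        ((b:ℝ) + 1) ^ (-(5/4) : ℝ)) +
      (m:ℝ) ^ (5/4 : ℝ) * ((((b:ℝ) + 1) * ((b:ℝ) + 1) ^ (-(5/4) : ℝ)) *
        ((M : ℝ) - b + 1) ^ (-(5/4) : ℝ)) := by ring
  rw [e1, mul_54, ← Real.rpow_add hb0, show (-(1/4) + -(5/4) : ℝ) = -(3/2) by norm_num]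
  refine add_le_add le_rfl ?_
  have key : ((b:ℝ) + 1) ^ (-(1/4) : ℝ) * ((M : ℝ) - b + 1) ^ (-(5/4) : ℝ) ≤
      4 * (m:ℝ) ^ (-(1/2) : ℝ) * ((M : ℝ) - b + 1) ^ (-(5/4) : ℝ) +
      4 * (m:ℝ) ^ (-(5/2) : ℝ) * ((b:ℝ) + 1) ^ (-(1/4) : ℝ) := by
    have p1 : 0 < ((b:ℝ) + 1) ^ (-(1/4) : ℝ) := by positivity
    have p2 : 0 < ((M : ℝ) - b + 1) ^ (-(5/4) : ℝ) := by positivity
    have p3 : 0 < (m:ℝ) ^ (-(1/2) : ℝ) := by positivity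
    have p4 : 0 < (m:ℝ) ^ (-(5/2) : ℝ) := by positivity
    have hmm : ∀ s : ℝ, ((m:ℝ) * m / 2) ^ (-s) = 2 ^ s * (m:ℝ) ^ (-(2 * s)) := by
      intro s
      rw [Real.div_rpow (by positivity) (by norm_num), Real.mul_rpow hm0.le hm0.le,
        ← Real.rpow_add hm0, Real.rpow_neg (by norm_num : (0:ℝ) ≤ 2), div_inv_eq_mul, mul_comm]
      congr 2
      ring
    rcases le_total ((m:ℝ) * m / 2) ((b:ℝ) + 1) with h | h
    · have h1 : ((b:ℝ) + 1) ^ (-(1/4) : ℝ) ≤ ((m:ℝ) * m / 2) ^ (-(1/4) : ℝ) :=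
        Real.rpow_le_rpow_of_nonpos (by positivity) h (by norm_num)
      rw [hmm (1/4)] at h1
      have h2 : (2:ℝ) ^ (1/4 : ℝ) ≤ 4 := by
        have : (2:ℝ) ^ (1/4 : ℝ) ≤ 2 ^ (1:ℝ) :=
          Real.rpow_le_rpow_of_exponent_le (by norm_num) (by norm_num)
        rw [Real.rpow_one] at this
        linarith
      have e : (-(2 * (1/4)) : ℝ) = -(1/2) := by norm_num
      rw [e] at h1
      have h3 : ((b:ℝ) + 1) ^ (-(1/4) : ℝ) ≤ 4 * (m:ℝ) ^ (-(1/2) : ℝ) := by nlinarith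
      have h4 := mul_le_mul_of_nonneg_right h3 p2.le
      have : 0 ≤ 4 * (m:ℝ) ^ (-(5/2) : ℝ) * ((b:ℝ) + 1) ^ (-(1/4) : ℝ) := by positivity
      linarith
    · have h' : (m:ℝ) * m / 2 ≤ (M : ℝ) - b + 1 := by rw [hM']; linarith
      have h1 : ((M : ℝ) - b + 1) ^ (-(5/4) : ℝ) ≤ ((m:ℝ) * m / 2) ^ (-(5/4) : ℝ) :=
        Real.rpow_le_rpow_of_nonpos (by positivity) h' (by norm_num)
      rw [hmm (5/4)] at h1
      have h2 : (2:ℝ) ^ (5/4 : ℝ) ≤ 4 := by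
        have : (2:ℝ) ^ (5/4 : ℝ) ≤ 2 ^ (2:ℝ) :=
          Real.rpow_le_rpow_of_exponent_le (by norm_num) (by norm_num)
        rw [Real.rpow_two] at this
        linarith
      have e : (-(2 * (5/4)) : ℝ) = -(5/2) := by norm_num
      rw [e] at h1
      have h3 : ((M : ℝ) - b + 1) ^ (-(5/4) : ℝ) ≤ 4 * (m:ℝ) ^ (-(5/2) : ℝ) := by nlinarith
      have h4 := mul_le_mul_of_nonneg_left h3 p1.le
      have : 0 ≤ 4 * (m:ℝ) ^ (-(1/2) : ℝ) * ((M : ℝ) - b + 1) ^ (-(5/4) : ℝ) := by positivity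
      linarith
  have hm5 : 0 < (m:ℝ) ^ (5/4 : ℝ) := by positivity
  have h5 := mul_le_mul_of_nonneg_left key hm5.le
  refine h5.trans (le_of_eq ?_)
  have e2 : (m:ℝ) ^ (5/4 : ℝ) * (m:ℝ) ^ (-(1/2) : ℝ) = (m:ℝ) ^ (3/4 : ℝ) := by
    rw [← Real.rpow_add hm0]; norm_num
  have e3 : (m:ℝ) ^ (5/4 : ℝ) * (m:ℝ) ^ (-(5/2) : ℝ) = (m:ℝ) ^ (-(5/4) : ℝ) := by
    rw [← Real.rpow_add hm0]; norm_num
  calc _ = 4 * ((m:ℝ) ^ (5/4 : ℝ) * (m:ℝ) ^ (-(1/2) : ℝ)) * ((M : ℝ) - b + 1) ^ (-(5/4) : ℝ) +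
      4 * ((m:ℝ) ^ (5/4 : ℝ) * (m:ℝ) ^ (-(5/2) : ℝ)) * ((b:ℝ) + 1) ^ (-(1/4) : ℝ) := by ring
    _ = _ := by rw [e2, e3]

theorem w2_sum {m M : ℕ} (hm : 1 ≤ m) (hM : M = m * m) :
    ∑ b ∈ Finset.range (M + 1), ((b:ℝ) + 1) * w2 m M b ≤ 100 * (m:ℝ) ^ (3/4 : ℝ) := by
  have hm0 : (0:ℝ) < m := by exact_mod_cast hm
  have hm1 : (1:ℝ) ≤ m := by exact_mod_cast hm
  have e0 : ∀ b ∈ Finset.range (M + 1), ((b:ℝ) + 1) * w2 m M b ≤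
      (if 40 * m ≤ b then (m:ℝ) ^ (5/4 : ℝ) * ((b:ℝ) + 1) ^ (-(1 + 1/2) : ℝ) else 0) +
      (4 * (m:ℝ) ^ (3/4 : ℝ) * ((M:ℝ) - b + 1) ^ (-(5/4) : ℝ) +
        4 * (m:ℝ) ^ (-(5/4) : ℝ) * ((b:ℝ) + 1) ^ (-(1/4) : ℝ)) := by
    intro b hb
    rw [Finset.mem_range] at hb
    have hc0 : (0:ℝ) < (M:ℝ) - b + 1 := by
      have : (b:ℝ) ≤ M := by exact_mod_cast (by omega : b ≤ M)
      linarith
    by_cases h : 40 * m < b
    · have := w2_point hm hM h (by omega)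
      rw [if_pos h.le, show (-(1 + 1/2) : ℝ) = -(3/2) by norm_num]
      exact this
    · have : w2 m M b = 0 := by unfold w2; rw [if_neg (fun h2 => h h2.1)]
      rw [this, mul_zero]
      split_ifs <;> positivity
  refine (Finset.sum_le_sum e0).trans ?_
  rw [Finset.sum_add_distrib, Finset.sum_add_distrib]
  have s1 : ∑ b ∈ Finset.range (M + 1),
      (if 40 * m ≤ b then (m:ℝ) ^ (5/4 : ℝ) * ((b:ℝ) + 1) ^ (-(1 + 1/2) : ℝ) else 0) ≤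
      2 * (m:ℝ) ^ (3/4 : ℝ) := by
    rw [← Finset.sum_filter, ← Finset.mul_sum]
    have h1 : ∑ b ∈ (Finset.range (M + 1)).filter (fun b => 40 * m ≤ b),
        ((b:ℝ) + 1) ^ (-(1 + 1/2) : ℝ) ≤ ∑ b ∈ Finset.Ico (40 * m) (M + 1),
        ((b:ℝ) + 1) ^ (-(1 + 1/2) : ℝ) := by
      apply Finset.sum_le_sum_of_subset_of_nonneg
      · intro b hb
        rw [Finset.mem_filter, Finset.mem_range] at hb
        rw [Finset.mem_Ico]; omega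
      · intro b _ _; positivity
    have h2 := tail_sum' (p := 1/2) (by norm_num) (by norm_num) (a := 40 * m) (by omega) (M + 1)
    have h3 : ((40 * m : ℕ) : ℝ) ^ (-(1/2) : ℝ) ≤ (m:ℝ) ^ (-(1/2) : ℝ) := by
      apply Real.rpow_le_rpow_of_nonpos hm0 _ (by norm_num)
      push_cast; linarith
    have h4 : 0 < (m:ℝ) ^ (5/4 : ℝ) := by positivity
    have e2 : (m:ℝ) ^ (5/4 : ℝ) * (m:ℝ) ^ (-(1/2) : ℝ) = (m:ℝ) ^ (3/4 : ℝ) := by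
      rw [← Real.rpow_add hm0]; norm_num
    calc _ ≤ (m:ℝ) ^ (5/4 : ℝ) * (2 * (m:ℝ) ^ (-(1/2) : ℝ)) := by
          apply mul_le_mul_of_nonneg_left _ h4.le
          norm_num at h2 h3 h1 ⊢
          linarith
      _ = _ := by rw [← e2]; ring
  have s2 : ∑ b ∈ Finset.range (M + 1), 4 * (m:ℝ) ^ (3/4 : ℝ) * ((M:ℝ) - b + 1) ^ (-(5/4) : ℝ) ≤
      20 * (m:ℝ) ^ (3/4 : ℝ) := by
    rw [← Finset.mul_sum]
    have h1 : ∑ b ∈ Finset.range (M + 1), ((M:ℝ) - b + 1) ^ (-(5/4) : ℝ) =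
        ∑ b ∈ Finset.range (M + 1), ((b:ℝ) + 1) ^ (-(5/4) : ℝ) := by
      rw [← Finset.sum_range_reflect]
      apply Finset.sum_congr rfl
      intro b hb
      rw [Finset.mem_range] at hb
      congr 1
      have : ((M + 1 - 1 - b : ℕ) : ℝ) = (M:ℝ) - b := by
        rw [Nat.add_sub_cancel, Nat.cast_sub (by omega)]
      rw [this]; ring
    rw [h1]
    have h2 := sum54 (M + 1)
    have h3 : 0 ≤ 4 * (m:ℝ) ^ (3/4 : ℝ) := by positivity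
    nlinarith
  have s3 : ∑ b ∈ Finset.range (M + 1), 4 * (m:ℝ) ^ (-(5/4) : ℝ) * ((b:ℝ) + 1) ^ (-(1/4) : ℝ) ≤
      16 * (m:ℝ) ^ (3/4 : ℝ) := by
    rw [← Finset.mul_sum]
    have h2 := sum14 (M + 1)
    have h3 : ((M + 1 : ℕ) : ℝ) ≤ 2 * ((m:ℝ) * m) := by
      rw [hM]
      exact_mod_cast (by nlinarith : m * m + 1 ≤ 2 * (m * m))
    have h4 : ((M + 1 : ℕ) : ℝ) ^ (3/4 : ℝ) ≤ (2 * ((m:ℝ) * m)) ^ (3/4 : ℝ) :=
      Real.rpow_le_rpow (by positivity) h3 (by norm_num)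
    rw [Real.mul_rpow (by norm_num) (by positivity), Real.mul_rpow hm0.le hm0.le,
      ← Real.rpow_add hm0] at h4
    have h5 : (2:ℝ) ^ (3/4 : ℝ) ≤ 2 := by
      have : (2:ℝ) ^ (3/4 : ℝ) ≤ 2 ^ (1:ℝ) :=
        Real.rpow_le_rpow_of_exponent_le (by norm_num) (by norm_num)
      rwa [Real.rpow_one] at this
    have e : (3/4 + 3/4 : ℝ) = 3/2 := by norm_num
    rw [e] at h4
    have h6 : 0 < (m:ℝ) ^ (3/2 : ℝ) := by positivity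
    have h7 : 0 < (m:ℝ) ^ (-(5/4) : ℝ) := by positivity
    have e2 : (m:ℝ) ^ (-(5/4) : ℝ) * (m:ℝ) ^ (3/2 : ℝ) = (m:ℝ) ^ (1/4 : ℝ) := by
      rw [← Real.rpow_add hm0]; norm_num
    have h8 : (m:ℝ) ^ (1/4 : ℝ) ≤ (m:ℝ) ^ (3/4 : ℝ) :=
      Real.rpow_le_rpow_of_exponent_le hm1 (by norm_num)
    calc _ ≤ 4 * (m:ℝ) ^ (-(5/4) : ℝ) * (2 * (2 * (m:ℝ) ^ (3/2 : ℝ))) := by
          apply mul_le_mul_of_nonneg_left _ (by positivity)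
          nlinarith
      _ = 16 * ((m:ℝ) ^ (-(5/4) : ℝ) * (m:ℝ) ^ (3/2 : ℝ)) := by ring
      _ ≤ _ := by rw [e2]; linarith
  have h0 : 0 ≤ (m:ℝ) ^ (3/4 : ℝ) := by positivity
  linarith

end Pool.Agent.H953.Nst
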