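import Pool.Agent.H953.Nst13

/-!
The derivative in the parameter.
-/

set_option autoImplicit false

namespace Pool.Agent.H953.Nst

open H974 H906.Cyl Finset Pool.Agent.W819.EN Pool.Agent.W819.NC

theorem w1_nonneg (m b : ℕ) : 0 ≤ w1 m b := by unfold w1; split_ifs <;> positivity

theorem w2_nonneg (m M b : ℕ) : 0 ≤ w2 m M b := by
  unfold w2
  split_ifs with h
  · have : (0:ℝ) < (M:ℝ) - b + 1 := by
      have : (b:ℝ) ≤ M := by exact_mod_cast h.2
      linarith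
    positivity
  · exact le_rfl

/-- the bound for one edge -/
theorem JJ_all {t : ℝ} (t0 : 0 < t) (t1 : t ≤ 1) : ∃ C : ℝ, 1 ≤ C ∧ ∀ q : ℝ, 1/2 ≤ q → q ≤ 1 →
    ∀ (m : ℕ), 64 ≤ m → ∀ e ∈ bx (0, 0) (m * m : ℕ),
    JJ q t m (bx (0, 0) (m * m : ℕ)) e ≤
      C * (Gq q t 0 (2 * m) * Gq q t 0 (2 * m)) *
        ((w1 m (ds (ps e) (0, 0)) + w1 m (ds (ps e) (zz m))) + w2 m (m * m) (ds (ps e) (0, 0))) := by
  obtain ⟨C1, hC1, h1⟩ := near t0 t1
  obtain ⟨C2, hC2, h2⟩ := midd t0 t1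
  obtain ⟨C3, hC3, h3⟩ := farr t0 t1
  refine ⟨C1 + C2 + C3, by linarith, ?_⟩
  intro q q0 q1 m hm e he
  have q0' : (0:ℝ) ≤ q := by linarith
  have hM : 64 * m ≤ m * m := Nat.mul_le_mul_right m hm
  obtain ⟨ρ, hρ⟩ : ∃ ρ, ρ = ds (ps e) (0, 0) := ⟨_, rfl⟩
  obtain ⟨ρ', hρ'⟩ : ∃ ρ', ρ' = ds (ps e) (zz m) := ⟨_, rfl⟩
  rw [← hρ, ← hρ']
  have hρM : ρ ≤ m * m := by
    have := mem_bx_dv he
    rw [dv_ds, ← hρ] at this
    exact this
  set g := Gq q t 0 (2 * m) * Gq q t 0 (2 * m) with hg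
  have g0 : 0 < g := by
    have := Gq_pos q0' q1 t0 t1 0 (2 * m)
    positivity
  have a1 := w1_nonneg m ρ
  have a2 := w1_nonneg m ρ'
  have a3 := w2_nonneg m (m * m) ρ
  have fin : ∀ (C x : ℝ), 0 ≤ C → C ≤ C1 + C2 + C3 →
      x ≤ (w1 m ρ + w1 m ρ') + w2 m (m * m) ρ → 0 ≤ x →
      JJ q t m (bx (0, 0) (m * m : ℕ)) e ≤ C * x * g →
      JJ q t m (bx (0, 0) (m * m : ℕ)) e ≤
        (C1 + C2 + C3) * g * ((w1 m ρ + w1 m ρ') + w2 m (m * m) ρ) := by
    intro C x hC hCC hx hx0 h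
    refine h.trans ?_
    calc C * x * g = C * g * x := by ring
      _ ≤ (C1 + C2 + C3) * g * x := by
          apply mul_le_mul_of_nonneg_right _ hx0
          exact mul_le_mul_of_nonneg_right hCC g0.le
      _ ≤ _ := mul_le_mul_of_nonneg_left hx (by positivity)
  by_cases hfar : 40 * m < ρ
  · have h := h3 q q0 q1 m (m * m) ρ e hm hρ.symm hfar hρM
    have e2 : w2 m (m * m) ρ = (((ρ : ℝ) + 1) ^ (-(5/4) : ℝ) +
        (((m * m : ℕ) : ℝ) - ρ + 1) ^ (-(5/4) : ℝ)) * ((m:ℝ) / (ρ + 1)) ^ (5/4 : ℝ) := by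
      unfold w2; rw [if_pos ⟨hfar, hρM⟩]
    rw [← e2] at h
    exact fin C3 _ (by linarith) (by linarith) (by linarith) a3 h
  · have hw : w1 m ρ = ((ρ:ℝ) + 1) ^ (-(5/4) : ℝ) := by
      unfold w1; rw [if_pos (by omega)]
    by_cases hn : 4 * ρ + 4 ≤ m
    · have h := h1 q q0 q1 m (m * m) ρ (0, 0) (zz m) e (by omega) (pos1 (by omega)) hρ.symm hn
      rw [← hw] at h
      exact fin C1 _ (by linarith) (by linarith) (by linarith) a1 h
    · by_cases hz : 4 * ρ' + 4 ≤ m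
      · have h := h1 q q0 q1 m (m * m) ρ' (zz m) (0, 0) e (by omega) (pos2 (by omega)) hρ'.symm hz
        have hw' : w1 m ρ' = ((ρ':ℝ) + 1) ^ (-(5/4) : ℝ) := by
          unfold w1; rw [if_pos (by omega)]
        rw [← hw'] at h
        exact fin C1 _ (by linarith) (by linarith) (by linarith) a2 h
      · have h := h2 q q0 q1 m (m * m) ρ ρ' e hm (by omega) hρ.symm hρ'.symm (by omega) (by omega)
          (by omega)
        rw [← hw] at h
        exact fin C2 _ (by linarith) (by linarith) (by linarith) a1 h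

theorem sum_ds (v : Vtx) (M : ℕ) (Q : Finset Edg) (hQ : ∀ f ∈ Q, ds (ps f) v ≤ M) (φ : ℕ → ℝ)
    (hφ : ∀ b, 0 ≤ φ b) :
    ∑ f ∈ Q, φ (ds (ps f) v) ≤ 18 * ∑ b ∈ range (M + 1), ((b:ℝ) + 1) * φ b := by
  have e : ∀ f : Edg, Pool.Agent.NH39.dd (v.1, v.2, true) f = ds (ps f) v := by
    intro f
    unfold Pool.Agent.NH39.dd ds
    simp only
    omega
  have h := Pool.Agent.NH39.sum_dist (v.1, v.2, true) M Q (by intro f hf; rw [e]; exact hQ f hf) φ hφ
  simp only [e] at h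
  exact h

/-- the sum over the edges -/
theorem JJ_sum {t : ℝ} (t0 : 0 < t) (t1 : t ≤ 1) : ∃ C : ℝ, 1 ≤ C ∧ ∀ q : ℝ, 1/2 ≤ q → q ≤ 1 →
    ∀ (m : ℕ), 64 ≤ m → ∑ e ∈ bx (0, 0) (m * m : ℕ), JJ q t m (bx (0, 0) (m * m : ℕ)) e ≤
      C * (m:ℝ) ^ (3/4 : ℝ) * (Gq q t 0 (2 * m) * Gq q t 0 (2 * m)) := by
  obtain ⟨C, hC, h⟩ := JJ_all t0 t1
  refine ⟨C * 9000, by linarith, ?_⟩
  intro q q0 q1 m hm
  have q0' : (0:ℝ) ≤ q := by linarith
  set g := Gq q t 0 (2 * m) * Gq q t 0 (2 * m) with hg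
  have g0 : 0 < g := by
    have := Gq_pos q0' q1 t0 t1 0 (2 * m)
    positivity
  refine (Finset.sum_le_sum (h q q0 q1 m hm)).trans ?_
  rw [← Finset.mul_sum, Finset.sum_add_distrib, Finset.sum_add_distrib]
  have hd : ∀ f ∈ bx (0, 0) (m * m : ℕ), ds (ps f) (0, 0) ≤ m * m := by
    intro f hf
    have := mem_bx_dv hf
    rwa [dv_ds] at this
  have hzd : ∀ f ∈ bx (0, 0) (m * m : ℕ), ds (ps f) (zz m) ≤ m * m + 8 * m := by
    intro f hf
    have h1 := hd f hf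
    have h2 := ds_tri (ps f) (0, 0) (zz m)
    rw [ds_zz] at h2
    omega
  have s1 := sum_ds (0, 0) (m * m) _ hd (w1 m) (w1_nonneg m)
  have s2 := sum_ds (zz m) (m * m + 8 * m) _ hzd (w1 m) (w1_nonneg m)
  have s3 := sum_ds (0, 0) (m * m) _ hd (w2 m (m * m)) (w2_nonneg m (m * m))
  have b1 := w1_sum m (m * m) (by omega)
  have b2 := w1_sum m (m * m + 8 * m) (by omega)
  have b3 := w2_sum (m := m) (M := m * m) (by omega) rfl
  have hm0 : 0 ≤ (m:ℝ) ^ (3/4 : ℝ) := by positivity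
  have tot : (∑ f ∈ bx (0, 0) (m * m : ℕ), w1 m (ds (ps f) (0, 0)) +
      ∑ f ∈ bx (0, 0) (m * m : ℕ), w1 m (ds (ps f) (zz m))) +
      ∑ f ∈ bx (0, 0) (m * m : ℕ), w2 m (m * m) (ds (ps f) (0, 0)) ≤
      9000 * (m:ℝ) ^ (3/4 : ℝ) := by linarith
  calc _ ≤ C * g * (9000 * (m:ℝ) ^ (3/4 : ℝ)) := mul_le_mul_of_nonneg_left tot (by positivity)
    _ = _ := by ring

/-- the two-point function -/
noncomputable def HH2 (q t : ℝ) (m : ℕ) : ℝ :=
  Ex (Pq q) (bx (0, 0) (m * m : ℕ)) (fun F => t ^ N2 F (0, 0) (zz m))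

theorem HH2_deriv (q t : ℝ) (m : ℕ) : HasDerivAt (fun q => HH2 q t m)
    (∑ e ∈ bx (0, 0) (m * m : ℕ), Ex (Pq q) ((bx (0, 0) (m * m : ℕ)).erase e)
      (fun F => t ^ N2 (insert e F) (0, 0) (zz m) - t ^ N2 F (0, 0) (zz m))) q := by
  have h := Ex_hasDerivAt (fun q (_ : Edg) => q) (fun _ => 1) q (fun _ => hasDerivAt_id q)
    (bx (0, 0) (m * m : ℕ)) (fun F => t ^ N2 F (0, 0) (zz m))
  simp only [one_mul] at h
  exact h

theorem diff_le {t : ℝ} (t0 : 0 < t) (t1 : t ≤ 1) (m : ℕ) (e : Edg) (F : Finset Edg) :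
    |t ^ N2 (insert e F) (0, 0) (zz m) - t ^ N2 F (0, 0) (zz m)| ≤ ind (Pi m e F) *
      t ^ min (N2 F (0, 0) (zz m)) (N2 (insert e F) (0, 0) (zz m)) := by
  by_cases h : Pi m e F
  · rw [ind_of h, one_mul]
    have a1 : 0 < t ^ N2 (insert e F) (0, 0) (zz m) := by positivity
    have a2 : 0 < t ^ N2 F (0, 0) (zz m) := by positivity
    have b1 : t ^ N2 (insert e F) (0, 0) (zz m) ≤
        t ^ min (N2 F (0, 0) (zz m)) (N2 (insert e F) (0, 0) (zz m)) :=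
      pow_le_pow_of_le_one t0.le t1 (min_le_right _ _)
    have b2 : t ^ N2 F (0, 0) (zz m) ≤
        t ^ min (N2 F (0, 0) (zz m)) (N2 (insert e F) (0, 0) (zz m)) :=
      pow_le_pow_of_le_one t0.le t1 (min_le_left _ _)
    rw [abs_le]
    constructor <;> linarith
  · rw [ind_not_of h, zero_mul]
    unfold Pi at h
    push Not at h
    rw [h, sub_self, abs_zero]

theorem Ex_abs {q : ℝ} (q0 : 0 ≤ q) (q1 : q ≤ 1) {S : Finset Edg} {f g : Finset Edg → ℝ}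
    (h : ∀ F, F ⊆ S → |f F| ≤ g F) : |Ex (Pq q) S f| ≤ Ex (Pq q) S g := by
  have ok := okP q0 q1
  rw [abs_le]
  constructor
  · have h1 : Ex (Pq q) S (fun F => -g F) ≤ Ex (Pq q) S f :=
      Ex_mono ok (fun F hF => (abs_le.1 (h F hF)).1)
    have h2 : Ex (Pq q) S (fun F => -g F) = -Ex (Pq q) S g := by
      have := Ex_mul_left (Pq q) S (-1) g
      simpa using this
    linarith
  · exact Ex_mono ok (fun F hF => (abs_le.1 (h F hF)).2)

/-- the logarithmic derivative is bounded -/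
theorem HH2_bound {t : ℝ} (t0 : 0 < t) (t1 : t ≤ 1) : ∃ C : ℝ, 1 ≤ C ∧ ∀ q : ℝ, 1/2 ≤ q → q ≤ 1 →
    ∀ (m : ℕ), 64 ≤ m →
    |∑ e ∈ bx (0, 0) (m * m : ℕ), Ex (Pq q) ((bx (0, 0) (m * m : ℕ)).erase e)
      (fun F => t ^ N2 (insert e F) (0, 0) (zz m) - t ^ N2 F (0, 0) (zz m))| ≤
      C * (m:ℝ) ^ (3/4 : ℝ) * HH2 q t m := by
  obtain ⟨C, hC, h⟩ := JJ_sum t0 t1
  obtain ⟨B, hB, hGL⟩ := GL2 t0 t1
  refine ⟨C * B, by nlinarith, ?_⟩
  intro q q0 q1 m hm
  have q0' : (0:ℝ) ≤ q := by linarith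
  have h1 := h q q0 q1 m hm
  have hM : 64 * m ≤ m * m := Nat.mul_le_mul_right m hm
  have h2 := hGL q q0 q1 m (bx (0, 0) (m * m : ℕ)) (by omega) (bx_sub (by omega))
  have h3 : |∑ e ∈ bx (0, 0) (m * m : ℕ), Ex (Pq q) ((bx (0, 0) (m * m : ℕ)).erase e)
      (fun F => t ^ N2 (insert e F) (0, 0) (zz m) - t ^ N2 F (0, 0) (zz m))| ≤
      ∑ e ∈ bx (0, 0) (m * m : ℕ), JJ q t m (bx (0, 0) (m * m : ℕ)) e := by
    refine (Finset.abs_sum_le_sum_abs _ _).trans (Finset.sum_le_sum fun e _ => ?_)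
    exact Ex_abs q0' q1 (fun F _ => diff_le t0 t1 m e F)
  refine h3.trans (h1.trans ?_)
  have hm0 : 0 ≤ (m:ℝ) ^ (3/4 : ℝ) := by positivity
  calc C * (m:ℝ) ^ (3/4 : ℝ) * (Gq q t 0 (2 * m) * Gq q t 0 (2 * m))
      ≤ C * (m:ℝ) ^ (3/4 : ℝ) * (B * HH2 q t m) :=
        mul_le_mul_of_nonneg_left h2 (by positivity)
    _ = _ := by ring

/-- comparison of two parameters -/
theorem ode {f f' : ℝ → ℝ} {L a b : ℝ} (hab : a ≤ b) (hf : ∀ x, HasDerivAt f (f' x) x)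
    (hb : ∀ x, a ≤ x → x ≤ b → |f' x| ≤ L * f x) :
    f b ≤ f a * Real.exp (L * (b - a)) ∧ f a * Real.exp (-(L * (b - a))) ≤ f b := by
  have hE : ∀ s x : ℝ, HasDerivAt (fun x => f x * Real.exp (s * x))
      (f' x * Real.exp (s * x) + f x * (Real.exp (s * x) * s)) x := by
    intro s x
    have h1 : HasDerivAt (fun x => Real.exp (s * x)) (Real.exp (s * x) * s) x := by
      have := ((hasDerivAt_id x).const_mul s).exp
      simpa using this
    exact (hf x).mul h1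
  have key : ∀ s : ℝ, Convex ℝ (Set.Icc a b) := fun _ => convex_Icc a b
  constructor
  · have hanti : AntitoneOn (fun x => f x * Real.exp (-L * x)) (Set.Icc a b) := by
      apply antitoneOn_of_deriv_nonpos (convex_Icc a b)
      · exact fun x _ => (hE (-L) x).continuousAt.continuousWithinAt
      · exact fun x _ => (hE (-L) x).differentiableAt.differentiableWithinAt
      · intro x hx
        rw [interior_Icc] at hx
        rw [(hE (-L) x).deriv]
        have h1 := (abs_le.1 (hb x hx.1.le hx.2.le)).2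
        have h2 := Real.exp_pos (-L * x)
        nlinarith
    have h := hanti (Set.left_mem_Icc.2 hab) (Set.right_mem_Icc.2 hab) hab
    simp only at h
    have h2 := mul_le_mul_of_nonneg_right h (Real.exp_pos (L * b)).le
    rw [mul_assoc, mul_assoc, ← Real.exp_add, ← Real.exp_add] at h2
    have e1 : -L * b + L * b = 0 := by ring
    have e2 : -L * a + L * b = L * (b - a) := by ring
    rwa [e1, e2, Real.exp_zero, mul_one] at h2
  · have hmono : MonotoneOn (fun x => f x * Real.exp (L * x)) (Set.Icc a b) := by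
      apply monotoneOn_of_deriv_nonneg (convex_Icc a b)
      · exact fun x _ => (hE L x).continuousAt.continuousWithinAt
      · exact fun x _ => (hE L x).differentiableAt.differentiableWithinAt
      · intro x hx
        rw [interior_Icc] at hx
        rw [(hE L x).deriv]
        have h1 := (abs_le.1 (hb x hx.1.le hx.2.le)).1
        have h2 := Real.exp_pos (L * x)
        nlinarith
    have h := hmono (Set.left_mem_Icc.2 hab) (Set.right_mem_Icc.2 hab) hab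
    simp only at h
    have h2 := mul_le_mul_of_nonneg_right h (Real.exp_pos (-L * b)).le
    rw [mul_assoc, mul_assoc, ← Real.exp_add, ← Real.exp_add] at h2
    have e1 : L * b + -L * b = 0 := by ring
    have e2 : L * a + -L * b = -(L * (b - a)) := by ring
    rwa [e1, e2, Real.exp_zero, mul_one] at h2

/-- the near-critical window: two-point function -/
theorem HH2_window {t : ℝ} (t0 : 0 < t) (t1 : t ≤ 1) : ∃ C : ℝ, 1 ≤ C ∧ ∀ p : ℝ, 1/2 ≤ p → p ≤ 1 →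
    ∀ (m : ℕ), 64 ≤ m → (p - 1/2) * (m:ℝ) ^ (3/4 : ℝ) ≤ 1 →
    HH2 p t m ≤ C * HH2 (1/2) t m ∧ HH2 (1/2) t m ≤ C * HH2 p t m := by
  obtain ⟨C, hC, h⟩ := HH2_bound t0 t1
  refine ⟨Real.exp C, Real.one_le_exp (by linarith), ?_⟩
  intro p p0 p1 m hm hw
  have h1 := ode p0 (fun x => HH2_deriv x t m)
    (fun x hx0 hx1 => h x hx0 (hx1.trans p1) m hm)
  have e : C * (m:ℝ) ^ (3/4 : ℝ) * (p - 1/2) ≤ C := by nlinarith
  have hH : ∀ q : ℝ, 0 ≤ q → q ≤ 1 → 0 ≤ HH2 q t m := fun q q0 q1 =>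
    Ex_nonneg (okP q0 q1) (fun F _ => by positivity)
  have hH0 := hH (1/2) (by norm_num) (by norm_num)
  have hHp := hH p (by linarith) p1
  constructor
  · refine h1.1.trans ?_
    rw [mul_comm]
    exact mul_le_mul_of_nonneg_right (Real.exp_le_exp.2 e) hH0
  · have h2 : HH2 (1/2) t m * Real.exp (-C) ≤ HH2 p t m := by
      refine le_trans ?_ h1.2
      apply mul_le_mul_of_nonneg_left _ hH0
      apply Real.exp_le_exp.2
      linarith
    have h3 := mul_le_mul_of_nonneg_left h2 (Real.exp_pos C).le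
    have e2 : Real.exp C * (HH2 (1/2) t m * Real.exp (-C)) = HH2 (1/2) t m := by
      rw [Real.exp_neg]; field_simp
    rwa [e2] at h3

end Pool.Agent.H953.Nst
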