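import Pool.Agent.H953.Nst14

/-!
The near-critical window: generating functions.
-/

set_option autoImplicit false

namespace Pool.Agent.H953.Nst

open H974 H906.Cyl Finset Pool.Agent.W819.EN Pool.Agent.W819.NC

theorem HH2_le {q t : ℝ} (q0 : 0 ≤ q) (q1 : q ≤ 1) (t0 : 0 < t) (t1 : t ≤ 1) {m : ℕ}
    (hm : 64 ≤ m) : HH2 q t m ≤ Gq q t 0 (2 * m) * Gq q t 0 (2 * m) := by
  have hM : 64 * m ≤ m * m := Nat.mul_le_mul_right m hm
  rw [← Ex_two (U := bx (0, 0) (m * m : ℕ)) (m := m) (a := 2 * m) (by omega) (by omega)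
    (bx_sub (by omega)) (bx_in' (by rw [ds_comm, ds_zz]; omega))]
  apply Ex_mono (okP q0 q1)
  intro F _
  exact pow_le_pow_of_le_one t0.le t1 (N2_pieces F (by omega))

theorem HH2_ge {t : ℝ} (t0 : 0 < t) (t1 : t ≤ 1) : ∃ B : ℝ, 1 ≤ B ∧ ∀ q : ℝ, 1/2 ≤ q → q ≤ 1 →
    ∀ m : ℕ, 64 ≤ m → Gq q t 0 (2 * m) * Gq q t 0 (2 * m) ≤ B * HH2 q t m := by
  obtain ⟨B, hB, hGL⟩ := GL2 t0 t1
  refine ⟨B, hB, ?_⟩
  intro q q0 q1 m hm
  have hM : 64 * m ≤ m * m := Nat.mul_le_mul_right m hm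
  exact hGL q q0 q1 m (bx (0, 0) (m * m : ℕ)) (by omega) (bx_sub (by omega))

theorem sq_cmp {x y C : ℝ} (hx : 0 ≤ x) (hy : 0 ≤ y) (hC : 1 ≤ C) (h : x * x ≤ C * (y * y)) :
    x ≤ C * y := by
  by_contra hc
  push Not at hc
  have h1 : (C * y) * (C * y) < x * x := mul_self_lt_mul_self (by positivity) hc
  have h2 : C * (y * y) ≤ (C * y) * (C * y) := by
    have : (C * y) * (C * y) = C * (C * (y * y)) := by ring
    rw [this]
    have h3 : 0 ≤ C * (y * y) := by positivity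
    nlinarith
  linarith

theorem Gq_window2 {t : ℝ} (t0 : 0 < t) (t1 : t ≤ 1) : ∃ C : ℝ, 1 ≤ C ∧ ∀ p : ℝ, 1/2 ≤ p → p ≤ 1 →
    ∀ (m : ℕ), 64 ≤ m → (p - 1/2) * (m:ℝ) ^ (3/4 : ℝ) ≤ 1 →
    Gq p t 0 (2 * m) ≤ C * Gq (1/2) t 0 (2 * m) ∧ Gq (1/2) t 0 (2 * m) ≤ C * Gq p t 0 (2 * m) := by
  obtain ⟨C1, hC1, h1⟩ := HH2_window t0 t1
  obtain ⟨B, hB, h2⟩ := HH2_ge t0 t1
  refine ⟨B * C1, by nlinarith, ?_⟩
  intro p p0 p1 m hm hw
  have hBC : 1 ≤ B * C1 := by nlinarith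
  obtain ⟨a1, a2⟩ := h1 p p0 p1 m hm hw
  have b1 := h2 p p0 p1 m hm
  have b2 := h2 (1/2) le_rfl (by norm_num) m hm
  have c1 := HH2_le (by linarith : (0:ℝ) ≤ p) p1 t0 t1 hm
  have c2 := HH2_le (q := 1/2) (by norm_num) (by norm_num) t0 t1 hm
  have g1 := Gq_pos (by linarith : (0:ℝ) ≤ p) p1 t0 t1 0 (2 * m)
  have g2 := Gq_pos (q := 1/2) (by norm_num) (by norm_num) t0 t1 0 (2 * m)
  constructor
  · apply sq_cmp g1.le g2.le hBC
    calc _ ≤ B * HH2 p t m := b1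
      _ ≤ B * (C1 * HH2 (1/2) t m) := mul_le_mul_of_nonneg_left a1 (by linarith)
      _ ≤ B * (C1 * (Gq (1/2) t 0 (2 * m) * Gq (1/2) t 0 (2 * m))) := by
          apply mul_le_mul_of_nonneg_left _ (by linarith)
          exact mul_le_mul_of_nonneg_left c2 (by linarith)
      _ = _ := by ring
  · apply sq_cmp g2.le g1.le hBC
    calc _ ≤ B * HH2 (1/2) t m := b2
      _ ≤ B * (C1 * HH2 p t m) := mul_le_mul_of_nonneg_left a2 (by linarith)
      _ ≤ B * (C1 * (Gq p t 0 (2 * m) * Gq p t 0 (2 * m))) := by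
          apply mul_le_mul_of_nonneg_left _ (by linarith)
          exact mul_le_mul_of_nonneg_left c1 (by linarith)
      _ = _ := by ring

theorem Psi_nonpos {t : ℝ} (t0 : 0 < t) (t1 : t ≤ 1) : Psi t ≤ 0 := by
  rw [Pool.Agent.W819.EN.OneP.Psi_le_one t1]
  unfold Pool.Agent.H863R2.NL.psi
  have h1 : Real.pi / 3 ≤ Real.arccos (t / 2) := by
    have : Real.arccos (1/2) = Real.pi / 3 := by
      rw [← Real.cos_pi_div_three, Real.arccos_cos (by positivity)]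
      have := Real.pi_pos
      linarith
    rw [← this]
    exact Real.arccos_le_arccos (by linarith)
  have h2 : Real.pi ^ 2 / 9 ≤ Real.arccos (t / 2) ^ 2 := by
    have := Real.pi_pos
    have h3 : (Real.pi / 3) ^ 2 ≤ Real.arccos (t / 2) ^ 2 :=
      pow_le_pow_left₀ (by positivity) h1 2
    have : (Real.pi / 3) ^ 2 = Real.pi ^ 2 / 9 := by ring
    linarith
  apply mul_nonpos_of_nonneg_of_nonpos
  · positivity
  · linarith

/-- the near-critical window -/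
theorem Gq_window {t : ℝ} (t0 : 0 < t) (t1 : t ≤ 1) : ∃ c C : ℝ, 0 < c ∧ 0 < C ∧ ∀ p : ℝ,
    1/2 ≤ p → p ≤ 1 → ∀ n : ℕ, 1 ≤ n → (p - 1/2) * (n:ℝ) ^ (3/4 : ℝ) ≤ 1 →
    c * (n:ℝ) ^ Psi t ≤ Gq p t 0 n ∧ Gq p t 0 n ≤ C * (n:ℝ) ^ Psi t := by
  obtain ⟨C1, hC1, h1⟩ := Gq_window2 t0 t1
  obtain ⟨c0, C0, hc0, hC0, h0⟩ := oneS t t0
  obtain ⟨A, hA, hdbl⟩ := dblO t0 t1
  have hψ := Psi_nonpos t0 t1
  have ht256 : 0 < t ^ 256 := by positivity
  refine ⟨min (t ^ 256) (c0 * C1⁻¹ * A⁻¹), max ((128:ℝ) ^ (-Psi t)) (C1 * C0 * 2 ^ (-Psi t)),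
    by positivity, by positivity, ?_⟩
  intro p p0 p1 n hn hw
  have p0' : (0:ℝ) ≤ p := by linarith
  have hn0 : (0:ℝ) < n := by exact_mod_cast hn
  have hn1 : (1:ℝ) ≤ n := by exact_mod_cast hn
  have hnψ : 0 < (n:ℝ) ^ Psi t := by positivity
  by_cases hbig : 128 ≤ n
  · obtain ⟨m, hm⟩ : ∃ m, m = n / 2 := ⟨_, rfl⟩
    have hm64 : 64 ≤ m := by omega
    have hmn : (m:ℝ) ≤ n := by exact_mod_cast (by omega : m ≤ n)
    have hw' : (p - 1/2) * (m:ℝ) ^ (3/4 : ℝ) ≤ 1 := by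
      refine le_trans ?_ hw
      apply mul_le_mul_of_nonneg_left _ (by linarith)
      exact Real.rpow_le_rpow (by positivity) hmn (by norm_num)
    obtain ⟨a1, a2⟩ := h1 p p0 p1 m hm64 hw'
    obtain ⟨b1, b2⟩ := h0 (2 * m) (by omega)
    rw [← Gq_half] at b1 b2
    have g1 := Gq_pos p0' p1 t0 t1 0 (2 * m)
    constructor
    · have m1 : Gq p t 0 (2 * (2 * m)) ≤ Gq p t 0 n :=
        Gq_mono p0' p1 t0 t1 le_rfl (by omega) (by omega)
      have d1 := hdbl p p0 p1 0 (2 * m) (by omega) (by omega)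
      have e1 : (n:ℝ) ^ Psi t ≤ ((2 * m : ℕ) : ℝ) ^ Psi t :=
        Real.rpow_le_rpow_of_nonpos (by exact_mod_cast (by omega : 0 < 2 * m))
          (by exact_mod_cast (by omega : 2 * m ≤ n)) hψ
      have e2 : c0 * (n:ℝ) ^ Psi t ≤ C1 * (A * Gq p t 0 n) := by
        calc c0 * (n:ℝ) ^ Psi t ≤ c0 * ((2 * m : ℕ) : ℝ) ^ Psi t :=
              mul_le_mul_of_nonneg_left e1 hc0.le
          _ ≤ Gq (1/2) t 0 (2 * m) := b1
          _ ≤ C1 * Gq p t 0 (2 * m) := a2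
          _ ≤ C1 * (A * Gq p t 0 (2 * (2 * m))) := mul_le_mul_of_nonneg_left d1 (by linarith)
          _ ≤ C1 * (A * Gq p t 0 n) := by
              apply mul_le_mul_of_nonneg_left _ (by linarith)
              exact mul_le_mul_of_nonneg_left m1 (by linarith)
      refine (mul_le_mul_of_nonneg_right (min_le_right _ _) hnψ.le).trans ?_
      have e3 : c0 * C1⁻¹ * A⁻¹ * (n:ℝ) ^ Psi t = (C1⁻¹ * A⁻¹) * (c0 * (n:ℝ) ^ Psi t) := by ring
      rw [e3]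
      refine (mul_le_mul_of_nonneg_left e2 (by positivity)).trans (le_of_eq ?_)
      field_simp
    · have m1 : Gq p t 0 n ≤ Gq p t 0 (2 * m) := Gq_mono p0' p1 t0 t1 le_rfl (by omega) (by omega)
      have e1 : ((2 * m : ℕ) : ℝ) ^ Psi t ≤ 2 ^ (-Psi t) * (n:ℝ) ^ Psi t := by
        have h2 : (n:ℝ) / 2 ≤ ((2 * m : ℕ) : ℝ) := by
          have : n ≤ 2 * (2 * m) := by omega
          have h3 : (n:ℝ) ≤ 2 * ((2 * m : ℕ) : ℝ) := by exact_mod_cast this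
          linarith
        have h3 := Real.rpow_le_rpow_of_nonpos (by positivity : (0:ℝ) < (n:ℝ) / 2) h2 hψ
        rw [Real.div_rpow hn0.le (by norm_num), div_eq_mul_inv, ← Real.rpow_neg (by norm_num)] at h3
        linarith
      refine le_trans ?_ (mul_le_mul_of_nonneg_right (le_max_right _ _) hnψ.le)
      calc Gq p t 0 n ≤ C1 * Gq (1/2) t 0 (2 * m) := m1.trans a1
        _ ≤ C1 * (C0 * ((2 * m : ℕ) : ℝ) ^ Psi t) := mul_le_mul_of_nonneg_left b2 (by linarith)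
        _ ≤ C1 * (C0 * (2 ^ (-Psi t) * (n:ℝ) ^ Psi t)) := by
            apply mul_le_mul_of_nonneg_left _ (by linarith)
            exact mul_le_mul_of_nonneg_left e1 hC0.le
        _ = _ := by ring
  · have hlt : n ≤ 128 := by omega
    constructor
    · have h2 := Gq_lower p0' p1 t0 t1 0 n
      have h3 : t ^ 256 ≤ t ^ (2 * n) := pow_le_pow_of_le_one t0.le t1 (by omega)
      have h4 : (n:ℝ) ^ Psi t ≤ 1 := Real.rpow_le_one_of_one_le_of_nonpos hn1 hψ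
      calc _ ≤ t ^ 256 * (n:ℝ) ^ Psi t := mul_le_mul_of_nonneg_right (min_le_left _ _) hnψ.le
        _ ≤ t ^ 256 * 1 := mul_le_mul_of_nonneg_left h4 ht256.le
        _ ≤ _ := by linarith
    · have h2 := Gq_le_one p0' p1 t0 t1 0 n
      refine le_trans ?_ (mul_le_mul_of_nonneg_right (le_max_left _ _) hnψ.le)
      refine h2.trans ?_
      rw [Real.rpow_neg (by norm_num), inv_mul_eq_div, le_div_iff₀ (by positivity), one_mul]
      exact Real.rpow_le_rpow_of_nonpos hn0 (by exact_mod_cast hlt) hψ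

end Pool.Agent.H953.Nst
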