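import Pool.Agent.H953.Nst15
import Pool.Graph.R_seed8.H31R3.Kes.Decay
import Pool.Graph.R_seed8.W424.NC.FarB

/-!
Beyond the correlation length: there are no colour changes.
-/

set_option autoImplicit false

namespace Pool.Agent.H953.Nst

open H974 H906.Cyl Finset Pool.Agent.W819.EN Pool.Agent.W819.NC

theorem NA_far {F : Finset Edg} {N : ℕ} (hN : 2 ≤ N) (hC : Circ N (2 * N : ℕ) F) (J : ℕ)
    (h : ∀ j ≤ J, Step N j F) {R : ℕ} (hR : R ≤ 2 * (2^J * N)) : NA F (0, 0) N R = 0 := by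
  have hN' : (2:ℤ) ≤ N := by exact_mod_cast hN
  obtain ⟨z, hz⟩ := circ_meet (R1 := (N:ℤ)) (R2 := ((2 * N : ℕ) : ℤ)) (by omega)
    (by push_cast; omega) hC
  obtain ⟨a, v, hv, hza, hst⟩ := chain_conn hN (F := F) (z := z) hz J h
  have h0 := h 0 (Nat.zero_le _)
  unfold Step at h0
  simp only [Even.zero, if_true, pow_zero, one_mul] at h0
  obtain ⟨y, y', hy, hy', hr⟩ := h0
  have hr' : Reach ((↑F : Set Edg) ∩ ↑(RE 0 (2 * (N:ℤ)) 0 (N - 1))) (0, y) (2 * (N:ℤ), y') :=
    hr.mono (Set.inter_subset_inter_right _ (by exact_mod_cast LRE_subset_RE))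
  have hsub : (↑F : Set Edg) ∩ ↑(RE 0 (2 * (N:ℤ)) 0 (N - 1)) ⊆ ↑F ∩ ↑(boxE (2 * N)) := by
    apply Set.inter_subset_inter_right
    have : RE 0 (2 * (N:ℤ)) 0 (N - 1) ⊆ boxE (2 * N) := by
      unfold boxE
      push_cast
      exact RE_subset (by omega) (by omega) (by omega) (by omega)
    exact_mod_cast this
  have hr'' := hr'.mono hsub
  have hzz := hz (0, y) (2 * (N:ℤ), y') (by unfold inR; simp only; omega)
    (by right; left; push_cast; ring) hr''
  have m1 : Reach (↑F : Set Edg) (0, y) z := hzz.mono Set.inter_subset_left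
  have m2 : Reach (↑F : Set Edg) z a := hza.mono Set.inter_subset_left
  have m3 : Reach (↑F : Set Edg) a v := by
    by_cases hev : Even J
    · rw [if_pos hev] at hst
      exact hst.2.2.mono Set.inter_subset_left
    · rw [if_neg hev] at hst
      exact hst.2.2.mono Set.inter_subset_left
  have m := Pool.Agent.W38.EN.free_reach (m1.trans (m2.trans m3))
  refine Nat.le_zero.mp (Pool.Agent.W21.EN.NA_le_iff.mpr ⟨fc (0, y), fc v, ?_, ?_, m⟩)
  · rw [nmv_fc]
    simp only [sub_zero, abs_zero]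
    have : |y| ≤ N := by rw [abs_le]; omega
    have h2 : max 0 |y| ≤ (N:ℤ) := max_le (by omega) this
    omega
  · rw [nmv_fc]
    simp only [sub_zero]
    have hRz : (R:ℤ) ≤ 2 * (2^J * N) := by exact_mod_cast hR
    unfold FarPt inR at hv
    push_cast at hv
    rcases hv.2 with h1 | h1
    · have := le_max_left |v.1| |v.2|
      have h3 := le_abs_self v.1
      omega
    · have := le_max_right |v.1| |v.2|
      have h3 := le_abs_self v.2
      omega

theorem pr_steps2 {p : ℝ} (h0 : 0 ≤ p) (h1 : p ≤ 1) {N : ℕ} {x : ℝ}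
    (hx : ∀ j : ℕ, eps p (2^j * N) ≤ x * (1/4)^j) (J : ℕ) {S : Finset Edg}
    (hS : boxE (2 * (2^J * N)) ⊆ S) :
    1 - (4/3) * x * (1 - (1/4 : ℝ)^(J + 1)) ≤ Pr (fun _ => p) S (fun F => ∀ j ≤ J, Step N j F) := by
  have ok := okq h0 h1
  induction J with
  | zero =>
    have e : Pr (fun _ => p) S (fun F => ∀ j ≤ 0, Step N j F) = Pr (fun _ => p) S (Step N 0) := by
      apply Pr_congr
      intro F _
      constructor
      · intro h; exact h 0 le_rfl
      · intro h j hj
        have : j = 0 := by omega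
        rw [this]; exact h
    rw [e, pr_step hS]
    have := hx 0
    norm_num at this ⊢
    linarith
  | succ J ih =>
    have hle : 2 * (2^J * N) ≤ 2 * (2^(J+1) * N) := by
      rw [pow_succ]
      nlinarith [Nat.zero_le (2^J * N)]
    have hS' : boxE (2 * (2^J * N)) ⊆ S := (boxE_mono hle).trans hS
    have i1 := ih hS'
    have i2 := Pr_and_ge ok S (fun F => ∀ j ≤ J, Step N j F) (Step N (J + 1))
    have i3 : Pr (fun _ => p) S (fun F => (∀ j ≤ J, Step N j F) ∧ Step N (J + 1) F) =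
        Pr (fun _ => p) S (fun F => ∀ j ≤ J + 1, Step N j F) := by
      apply Pr_congr
      intro F _
      constructor
      · rintro ⟨h, h'⟩ j hj
        rcases Nat.lt_or_ge j (J + 1) with hlt | hge
        · exact h j (by omega)
        · have : j = J + 1 := by omega
          rw [this]; exact h'
      · intro h
        exact ⟨fun j hj => h j (by omega), h _ le_rfl⟩
    rw [pr_step hS, i3] at i2
    have h3 := hx (J + 1)
    rw [pow_succ (1/4:ℝ) (J + 1)]
    linarith

theorem geo0 : Geo NA := geoNA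

theorem NA_le0 (F : Finset Edg) (v : Vtx) {r R : ℕ} (h : R ≤ r) : NA F v r R = 0 := by
  have h1 := geoNA.mono F v r r R r le_rfl h
  have h2 := sysG.zero F v r
  omega

/-- the probability of a colour change beyond the correlation length -/
theorem far_pr {p : ℝ} (h0 : 0 ≤ p) (h1 : p ≤ 1) {N : ℕ} (hN : 2 ≤ N) (he : eps p N ≤ 1/100)
    (i R : ℕ) {S : Finset Edg} (hS : bx (0, 0) R ⊆ S) :
    Pr (Pq p) S (fun F => 0 < NA F (0, 0) (2^i * N) R) ≤ (1/4)^(2^i) := by
  have ok := okP h0 h1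
  obtain ⟨N', hN'⟩ : ∃ N', N' = 2^i * N := ⟨_, rfl⟩
  rw [← hN']
  have h2i : 1 ≤ 2^i := Nat.one_le_two_pow
  have hN2 : 2 ≤ N' := by rw [hN']; nlinarith
  have hjR : R ≤ 2 * (2^R * N') := by
    have h2 : R < 2^R := Nat.lt_two_pow_self
    nlinarith [Nat.zero_le (2^R * N')]
  by_cases hRN : R ≤ N'
  · have : Pr (Pq p) S (fun F => 0 < NA F (0, 0) N' R) = 0 := by
      have e : Pr (Pq p) S (fun F => 0 < NA F (0, 0) N' R) = Pr (Pq p) S (fun _ => False) := by
        apply Pr_congr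
        intro F _
        rw [NA_le0 F (0, 0) hRN]
        simp
      rw [e]
      unfold Pr
      rw [show (fun F : Finset Edg => ind (False : Prop)) = fun _ => (0:ℝ) by
        funext F; simp [ind], Ex_const]
    rw [this]
    positivity
  push Not at hRN
  have hloc : ∀ S' : Finset Edg, bx (0, 0) R ⊆ S' →
      Pr (Pq p) S' (fun F => 0 < NA F (0, 0) N' R) =
        Pr (Pq p) (bx (0, 0) R) (fun F => 0 < NA F (0, 0) N' R) := by
    intro S' hS'
    exact Pr_local hS' (fun F _ => by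
      rw [Pool.Agent.W672.NC.loc' geoNA hRN.le (sdiff_subset : an (0, 0) N' R ⊆ bx (0, 0) R) F])
  have hbx : bx (0, 0) R ⊆ boxE (2 * (2^R * N')) := by
    rw [← bx_zero]
    exact bx_sub hjR
  rw [hloc S hS, ← hloc _ hbx]
  have hx : ∀ j : ℕ, eps p (2^j * N') ≤ (1/25) * (1/4)^(2^i) * (1/4)^j := by
    intro j
    have e1 := H31K.eps_pow2 h0 h1 hN he (i + j)
    have e2 : 2^j * N' = 2^(i+j) * N := by rw [hN', pow_add]; ring
    rw [e2]
    have e3 : 2^i + j ≤ 2^(i+j) := by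
      rw [pow_add]
      have : j + 1 ≤ 2^j := Nat.lt_two_pow_self
      nlinarith
    have e4 : ((1:ℝ)/4)^(2^(i+j)) ≤ (1/4)^(2^i + j) :=
      pow_le_pow_of_le_one (by norm_num) (by norm_num) e3
    rw [pow_add (1/4:ℝ) (2^i) j] at e4
    linarith
  have a1 := pr_steps2 h0 h1 hx R (Finset.Subset.refl (boxE (2 * (2^R * N'))))
  have hbox : boxE (2 * N') ⊆ boxE (2 * (2^R * N')) := by
    apply boxE_mono
    have : 1 ≤ 2^R := Nat.one_le_two_pow
    nlinarith
  have a2 := pr_circ_ge h0 h1 hN2 hbox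
  have a3 := Pr_and_ge ok (boxE (2 * (2^R * N'))) (Circ N' (2 * N' : ℕ))
    (fun F => ∀ j ≤ R, Step N' j F)
  have a4 : Pr (Pq p) (boxE (2 * (2^R * N'))) (fun F => 0 < NA F (0, 0) N' R) ≤
      Pr (Pq p) (boxE (2 * (2^R * N'))) (fun F => ¬ (Circ N' (2 * N' : ℕ) F ∧
        ∀ j ≤ R, Step N' j F)) := by
    apply Pr_mono ok
    intro F _ hF hh
    have := NA_far hN2 hh.1 R hh.2 hjR
    omega
  have a5 := Pr_not (p := Pq p) (boxE (2 * (2^R * N'))) (fun F => Circ N' (2 * N' : ℕ) F ∧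
        ∀ j ≤ R, Step N' j F)
  have a6 := hx 0
  rw [pow_zero, one_mul, pow_zero, mul_one] at a6
  have h5 : 0 ≤ (1/4:ℝ)^(R+1) := by positivity
  have h6 : 0 ≤ (1/4:ℝ)^(2^i) := by positivity
  have h7 : (4/3) * ((1/25) * (1/4)^(2^i)) * (1 - (1/4 : ℝ)^(R + 1)) ≤
      (4/3) * ((1/25) * (1/4)^(2^i)) := by
    apply mul_le_of_le_one_right (by positivity)
    linarith
  have a7 : Pr (Pq p) (boxE (2 * (2^R * N'))) (fun F => Circ N' (2 * N' : ℕ) F ∧
        ∀ j ≤ R, Step N' j F) = Pr (fun _ => p) (boxE (2 * (2^R * N')))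
        (fun F => Circ N' (2 * N' : ℕ) F ∧ ∀ j ≤ R, Step N' j F) := rfl
  rw [a7] at a5
  linarith

end Pool.Agent.H953.Nst
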