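import Pool.Agent.H953.Nst16

/-!
Generating functions beyond the correlation length, for the parameters above the critical point.
-/

set_option autoImplicit false

namespace Pool.Agent.H953.Nst

open H974 H906.Cyl Finset Pool.Agent.W819.EN Pool.Agent.W819.NC

theorem Wc_loc {v : Vtx} {b : ℕ} {T : Finset Edg} (hb : 1 ≤ b) (h1 : an v b (2 * b) ⊆ T)
    (F : Finset Edg) : Wc F v b = Wc (F ∩ T) v b := by
  have w := Pool.Agent.W405.NC.t_WLOC
  rw [w F v b hb, w (F ∩ T) v b hb, Finset.inter_assoc, Finset.inter_eq_right.2 h1]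

theorem NA_loc {v : Vtx} {r R : ℕ} {T : Finset Edg} (hr : r ≤ R) (h1 : an v r R ⊆ T)
    (F : Finset Edg) : NA F v r R = NA (F ∩ T) v r R :=
  Pool.Agent.W672.NC.loc' geoNA hr h1 F

theorem Pr_or_le {p : Edg → ℝ} (hp : Ok p) (S : Finset Edg) (A B : Finset Edg → Prop) :
    Pr p S (fun F => A F ∨ B F) ≤ Pr p S A + Pr p S B := by
  unfold Pr
  rw [← Ex_add]
  apply Ex_mono hp
  intro F _
  by_cases h1 : A F
  · rw [ind_of (Or.inl h1), ind_of h1]
    have := ind_nonneg (B F)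
    linarith
  · by_cases h2 : B F
    · rw [ind_of (Or.inr h2), ind_of h2]
      have := ind_nonneg (A F)
      linarith
    · rw [ind_not_of (by tauto), ind_not_of h1, ind_not_of h2]
      norm_num

/-- the generating function does not decay beyond the correlation length -/
theorem Gq_beyond {t : ℝ} (t0 : 0 < t) (t1 : t ≤ 1) : ∃ B : ℝ, 1 ≤ B ∧ ∀ q : ℝ, 1/2 ≤ q → q ≤ 1 →
    ∀ N : ℕ, 2 ≤ N → eps q N ≤ 1/100 → ∀ n : ℕ, Gq q t 0 N ≤ B * Gq q t 0 n := by
  obtain ⟨A, hA, hdbl⟩ := dblO t0 t1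
  -- the number of steps
  obtain ⟨i, hi⟩ : ∃ i : ℕ, A ^ 2 * (1/4:ℝ) ^ (2 ^ i) ≤ 1/4 := by
    obtain ⟨k, hk⟩ := exists_pow_lt_of_lt_one (show (0:ℝ) < 1 / (4 * A ^ 2) by positivity)
      (show (1/4:ℝ) < 1 by norm_num)
    refine ⟨k, ?_⟩
    have h1 : ((1:ℝ)/4) ^ (2 ^ k) ≤ (1/4) ^ k :=
      pow_le_pow_of_le_one (by norm_num) (by norm_num) Nat.lt_two_pow_self.le
    have h2 : A ^ 2 * (1/4:ℝ) ^ (2 ^ k) ≤ A ^ 2 * (1 / (4 * A ^ 2)) :=
      mul_le_mul_of_nonneg_left (h1.trans hk.le) (by positivity)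
    refine h2.trans (le_of_eq ?_)
    field_simp
  obtain ⟨C, hC, hW⟩ := tailW (1/2) (by norm_num) (by norm_num)
  obtain ⟨K, hK⟩ : ∃ K : ℕ, A ^ 2 * (C * (1/2:ℝ) ^ K) ≤ 1/4 := by
    obtain ⟨k, hk⟩ := exists_pow_lt_of_lt_one (show (0:ℝ) < 1 / (4 * A ^ 2 * C) by positivity)
      (show (1/2:ℝ) < 1 by norm_num)
    refine ⟨k, ?_⟩
    have h2 : A ^ 2 * (C * (1/2:ℝ) ^ k) ≤ A ^ 2 * (C * (1 / (4 * A ^ 2 * C))) := by
      apply mul_le_mul_of_nonneg_left _ (by positivity)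
      exact mul_le_mul_of_nonneg_left hk.le hC.le
    refine h2.trans (le_of_eq ?_)
    field_simp
  have htK : 0 < t ^ K := by positivity
  have hBK : 1 ≤ 2 / t ^ K := by
    rw [le_div_iff₀ htK]
    have := pow_le_one₀ (n := K) t0.le t1
    linarith
  refine ⟨A ^ (i + 1) * (2 / t ^ K), ?_, ?_⟩
  · have := one_le_pow₀ (n := i + 1) hA
    nlinarith
  intro q q0 q1 N hN he n
  have q0' : (0:ℝ) ≤ q := by linarith
  have ok := okP q0' q1
  obtain ⟨N', hN'⟩ : ∃ N', N' = 2^i * N := ⟨_, rfl⟩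
  have h2i : 1 ≤ 2^i := Nat.one_le_two_pow
  have hN2 : 2 ≤ N' := by rw [hN']; nlinarith
  have hpow : Gq q t 0 N ≤ A ^ (i + 1) * Gq q t 0 (2 * N') := by
    have := dbl_pow hA (fun r n hn hr => hdbl q q0 q1 r n hn hr) (i + 1) N (by omega)
    have e : 2 ^ (i + 1) * N = 2 * N' := by rw [hN']; ring
    rwa [e] at this
  have main : Gq q t 0 (2 * N') ≤ 2 / t ^ K * Gq q t 0 n := by
    have hg := Gq_pos q0' q1 t0 t1 0 n
    rcases Nat.lt_or_ge n (2 * N') with hn | hn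
    · have m1 : Gq q t 0 (2 * N') ≤ Gq q t 0 n :=
        Gq_mono q0' q1 t0 t1 le_rfl (by omega) hn.le
      nlinarith
    · set U := bx (0, 0) (n : ℕ) with hU
      have hsub : ∀ {a : ℕ}, a ≤ n → bx (0, 0) (a : ℕ) ⊆ U := fun h => bx_sub h
      have l1 : ∀ F : Finset Edg, NA F (0, 0) 0 n ≤ NA F (0, 0) 0 (2 * N') +
          (NA F (0, 0) N' n + Wc F (0, 0) N') := by
        intro F
        have j := Pool.Agent.W405.NC.t_JOIN F (0, 0) N' 0 n (by omega) (by omega) (by omega)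
        omega
      have l2 : ∀ F : Finset Edg, NA F (0, 0) 0 (N' - 1) ≤ NA F (0, 0) 0 (2 * N') := fun F =>
        geoNA.mono F _ _ _ _ _ le_rfl (by omega)
      have d := decoup (q := q) (t := t) q0' q1 t0 t1 (U := U) (T1 := an (0, 0) 0 (N' - 1))
        (T2 := an (0, 0) N' n) (sdiff_subset.trans (hsub (by omega))) sdiff_subset
        (an_disj (by omega))
        (N := fun F => NA F (0, 0) 0 n) (X := fun F => NA F (0, 0) 0 (2 * N'))
        (X' := fun F => NA F (0, 0) 0 (N' - 1)) (Y := fun F => NA F (0, 0) N' n + Wc F (0, 0) N')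
        (fun F _ => l1 F) (fun F _ => l2 F) (fun F _ => geoNA.loc F _ _ _ (by omega))
        (fun F _ => by
          show NA F (0, 0) N' n + Wc F (0, 0) N' = NA (F ∩ an (0, 0) N' n) (0, 0) N' n +
            Wc (F ∩ an (0, 0) N' n) (0, 0) N'
          rw [NA_loc (by omega) (Finset.Subset.refl _) F,
            Wc_loc (by omega) (an_sub le_rfl (by omega : 2 * N' ≤ n)) F]) K
      have g1 : Ex (Pq q) U (fun F => t ^ NA F (0, 0) 0 (2 * N')) = Gq q t 0 (2 * N') :=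
        Gq_loc q t (by omega) (hsub (by omega))
      have g2 : Ex (Pq q) U (fun F => t ^ NA F (0, 0) 0 (N' - 1)) = Gq q t 0 (N' - 1) :=
        Gq_loc q t (by omega) (hsub (by omega))
      have g3 : Ex (Pq q) U (fun F => t ^ NA F (0, 0) 0 n) = Gq q t 0 n :=
        Gq_loc q t (by omega) (by rw [hU])
      rw [g1, g2, g3] at d
      have i1 := hdbl q q0 q1 0 (N' - 1) (by omega) (by omega)
      have i2 := hdbl q q0 q1 0 (2 * (N' - 1)) (by omega) (by omega)
      have m1 : Gq q t 0 (2 * (2 * (N' - 1))) ≤ Gq q t 0 (2 * N') :=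
        Gq_mono q0' q1 t0 t1 le_rfl (by omega) (by omega)
      have i3 : Gq q t 0 (N' - 1) ≤ A ^ 2 * Gq q t 0 (2 * N') := by
        calc Gq q t 0 (N' - 1) ≤ A * Gq q t 0 (2 * (N' - 1)) := i1
          _ ≤ A * (A * Gq q t 0 (2 * (2 * (N' - 1)))) := mul_le_mul_of_nonneg_left i2 (by linarith)
          _ ≤ A * (A * Gq q t 0 (2 * N')) := by
              apply mul_le_mul_of_nonneg_left _ (by linarith)
              exact mul_le_mul_of_nonneg_left m1 (by linarith)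
          _ = _ := by ring
      have p1 := far_pr q0' q1 hN he i n (S := U) (by rw [hU])
      rw [← hN'] at p1
      have p2 := hW q q0 q1 (0, 0) N' U (by omega)
        (by rw [hU]; exact_mod_cast hsub (by omega : 2 * N' ≤ n)) K
      have p3 : Pr (Pq q) U (fun F => K < NA F (0, 0) N' n + Wc F (0, 0) N') ≤
          (1/4) ^ (2 ^ i) + C * (1/2) ^ K := by
        refine le_trans ?_ (add_le_add p1 p2)
        refine le_trans ?_ (Pr_or_le ok U _ _)
        apply Pr_mono ok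
        intro F _ h
        omega
      have hp0 := Pr_nonneg ok U (fun F => K < NA F (0, 0) N' n + Wc F (0, 0) N')
      have hGn := Gq_pos q0' q1 t0 t1 0 (2 * N')
      have i4 : Gq q t 0 (N' - 1) * Pr (Pq q) U (fun F => K < NA F (0, 0) N' n + Wc F (0, 0) N') ≤
          1/2 * Gq q t 0 (2 * N') := by
        calc Gq q t 0 (N' - 1) * Pr (Pq q) U (fun F => K < NA F (0, 0) N' n + Wc F (0, 0) N')
            ≤ A ^ 2 * Gq q t 0 (2 * N') * ((1/4) ^ (2 ^ i) + C * (1/2) ^ K) :=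
              mul_le_mul i3 p3 hp0 (by positivity)
          _ = (A ^ 2 * (1/4) ^ (2 ^ i) + A ^ 2 * (C * (1/2) ^ K)) * Gq q t 0 (2 * N') := by ring
          _ ≤ (1/4 + 1/4) * Gq q t 0 (2 * N') :=
              mul_le_mul_of_nonneg_right (add_le_add hi hK) hGn.le
          _ = _ := by ring
      have i5 : t ^ K * (1/2 * Gq q t 0 (2 * N')) ≤ Gq q t 0 n := by
        refine (mul_le_mul_of_nonneg_left ?_ htK.le).trans d
        linarith
      rw [div_mul_eq_mul_div, le_div_iff₀ htK]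
      linarith
  calc Gq q t 0 N ≤ A ^ (i + 1) * Gq q t 0 (2 * N') := hpow
    _ ≤ A ^ (i + 1) * (2 / t ^ K * Gq q t 0 n) := mul_le_mul_of_nonneg_left main (by positivity)
    _ = _ := by ring

/-- the correlation length -/
noncomputable def xi (p : ℝ) : ℝ := |p - 1/2| ^ (-(4/3) : ℝ)

/-- the smaller one of `n` and the correlation length -/
noncomputable def mn (p : ℝ) (n : ℕ) : ℝ := if p = 1/2 then n else min n (xi p)

theorem xi_two {p : ℝ} (p0 : 1/2 < p) (p1 : p ≤ 1) : 2 ≤ xi p := by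
  unfold xi
  rw [abs_of_pos (by linarith)]
  have h1 : (1/2:ℝ) ^ (-(4/3) : ℝ) ≤ (p - 1/2) ^ (-(4/3) : ℝ) :=
    Real.rpow_le_rpow_of_nonpos (by linarith) (by linarith) (by norm_num)
  refine le_trans ?_ h1
  have h2 : (1/2:ℝ) ^ (-(4/3) : ℝ) = 2 ^ (4/3 : ℝ) := by
    rw [one_div, Real.inv_rpow (by norm_num), Real.rpow_neg (by norm_num), inv_inv]
  rw [h2]
  calc (2:ℝ) = 2 ^ (1:ℝ) := by norm_num
    _ ≤ 2 ^ (4/3 : ℝ) := Real.rpow_le_rpow_of_exponent_le (by norm_num) (by norm_num)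

theorem win_iff {p : ℝ} (p0 : 1/2 < p) {x : ℝ} (hx : 0 < x) :
    (p - 1/2) * x ^ (3/4 : ℝ) ≤ 1 ↔ x ≤ xi p := by
  have hp : 0 < p - 1/2 := by linarith
  unfold xi
  rw [abs_of_pos hp]
  have e1 : (p - 1/2) = ((p - 1/2) ^ (-(4/3) : ℝ)) ^ (-(3/4) : ℝ) := by
    rw [← Real.rpow_mul hp.le]; norm_num
  have hxi : 0 < (p - 1/2) ^ (-(4/3) : ℝ) := by positivity
  constructor
  · intro h
    by_contra hc
    push Not at hc
    have h1 := Real.rpow_lt_rpow hxi.le hc (show (0:ℝ) < 3/4 by norm_num)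
    have h2 : (p - 1/2) * ((p - 1/2) ^ (-(4/3) : ℝ)) ^ (3/4 : ℝ) = 1 := by
      rw [← Real.rpow_mul hp.le]
      norm_num
      rw [Real.rpow_neg_one, mul_inv_cancel₀ hp.ne']
    have h3 := mul_lt_mul_of_pos_left h1 hp
    linarith
  · intro h
    have h1 := Real.rpow_le_rpow hx.le h (show (0:ℝ) ≤ 3/4 by norm_num)
    have h2 : (p - 1/2) * ((p - 1/2) ^ (-(4/3) : ℝ)) ^ (3/4 : ℝ) = 1 := by
      rw [← Real.rpow_mul hp.le]
      norm_num
      rw [Real.rpow_neg_one, mul_inv_cancel₀ hp.ne']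
    have h3 := mul_le_mul_of_nonneg_left h1 hp.le
    linarith

end Pool.Agent.H953.Nst
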