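import Pool.Agent.H953.Nst17

/-!
Two-sided estimates of the generating functions for the parameters above the critical point.
-/

set_option autoImplicit false

namespace Pool.Agent.H953.Nst

open H974 H906.Cyl Finset Pool.Agent.W819.EN Pool.Agent.W819.NC

theorem xi_pos {p : ℝ} (hp : p ≠ 1/2) : 0 < xi p := by
  unfold xi
  have : 0 < |p - 1/2| := abs_pos.2 (sub_ne_zero.2 hp)
  positivity

/-- the integer part of the correlation length -/
theorem xi_floor {p : ℝ} (p0 : 1/2 < p) (p1 : p ≤ 1) : ∃ k : ℕ, 2 ≤ k ∧ (k:ℝ) ≤ xi p ∧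
    xi p ≤ 2 * k := by
  have h2 := xi_two p0 p1
  refine ⟨⌊xi p⌋₊, Nat.le_floor (by exact_mod_cast h2), Nat.floor_le (by linarith), ?_⟩
  have h3 := Nat.lt_floor_add_one (xi p)
  have h4 : (2:ℝ) ≤ (⌊xi p⌋₊ : ℝ) := by
    exact_mod_cast Nat.le_floor (show ((2:ℕ):ℝ) ≤ xi p by exact_mod_cast h2)
  linarith

/-- a scale beyond the correlation length -/
theorem far_scale : ∃ j : ℕ, ∀ p : ℝ, 1/2 < p → p ≤ 1 → ∀ k : ℕ, xi p ≤ 2 * k →
    eps p (2 ^ j * k) ≤ 1/100 := by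
  obtain ⟨E, hE, hfar⟩ := Pool.Agent.W424.NC.farS
  obtain ⟨j, hj⟩ := pow_unbounded_of_one_lt (2 * E) (show (1:ℝ) < 2 by norm_num)
  refine ⟨j, ?_⟩
  intro p p0 p1 k hk
  apply hfar p p0 p1
  have e : (p - 1/2) ^ (-(4/3 : ℝ)) = xi p := by
    unfold xi
    rw [abs_of_pos (by linarith)]
  rw [e]
  push_cast
  have hk0 : (0:ℝ) ≤ k := Nat.cast_nonneg k
  calc E * xi p ≤ E * (2 * k) := mul_le_mul_of_nonneg_left hk (by linarith)
    _ = (2 * E) * k := by ring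
    _ ≤ 2 ^ j * k := mul_le_mul_of_nonneg_right hj.le hk0

theorem mn_half (n : ℕ) : mn (1/2) n = n := by unfold mn; simp

theorem mn_le {p : ℝ} {n : ℕ} (hp : p ≠ 1/2) (h : (n:ℝ) ≤ xi p) : mn p n = n := by
  unfold mn; rw [if_neg hp, min_eq_left h]

theorem mn_ge {p : ℝ} {n : ℕ} (hp : p ≠ 1/2) (h : xi p ≤ n) : mn p n = xi p := by
  unfold mn; rw [if_neg hp, min_eq_right h]

/-- two-sided estimates above the critical point -/
theorem Gq_all {t : ℝ} (t0 : 0 < t) (t1 : t ≤ 1) : ∃ c C : ℝ, 0 < c ∧ 0 < C ∧ ∀ p : ℝ,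
    1/2 ≤ p → p ≤ 1 → ∀ n : ℕ, 1 ≤ n →
    c * mn p n ^ Psi t ≤ Gq p t 0 n ∧ Gq p t 0 n ≤ C * mn p n ^ Psi t := by
  obtain ⟨c, C, hc, hC, hw⟩ := Gq_window t0 t1
  obtain ⟨B, hB, hbey⟩ := Gq_beyond t0 t1
  obtain ⟨A, hA, hdbl⟩ := dblO t0 t1
  obtain ⟨j, hj⟩ := far_scale
  have hψ := Psi_nonpos t0 t1
  refine ⟨min c (c * (A ^ j)⁻¹ * B⁻¹), max C (C * 2 ^ (-Psi t)), by positivity, by positivity, ?_⟩
  intro p p0 p1 n hn
  have p0' : (0:ℝ) ≤ p := by linarith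
  have hn0 : (0:ℝ) < n := by exact_mod_cast hn
  have small : (p - 1/2) * (n:ℝ) ^ (3/4 : ℝ) ≤ 1 →
      min c (c * (A ^ j)⁻¹ * B⁻¹) * (n:ℝ) ^ Psi t ≤ Gq p t 0 n ∧
      Gq p t 0 n ≤ max C (C * 2 ^ (-Psi t)) * (n:ℝ) ^ Psi t := by
    intro h
    obtain ⟨h1, h2⟩ := hw p p0 p1 n hn h
    have h3 : 0 < (n:ℝ) ^ Psi t := by positivity
    exact ⟨(mul_le_mul_of_nonneg_right (min_le_left _ _) h3.le).trans h1,
      h2.trans (mul_le_mul_of_nonneg_right (le_max_left _ _) h3.le)⟩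
  rcases eq_or_lt_of_le p0 with heq | hlt
  · rw [← heq, mn_half]
    have := small (by rw [← heq]; simp)
    rwa [← heq] at this
  · rcases le_total (n:ℝ) (xi p) with hnx | hnx
    · rw [mn_le hlt.ne' hnx]
      exact small ((win_iff hlt hn0).2 hnx)
    · rw [mn_ge hlt.ne' hnx]
      obtain ⟨k, hk2, hk, hk'⟩ := xi_floor hlt p1
      have hk0 : (0:ℝ) < k := by exact_mod_cast (by omega : 0 < k)
      have hxi := xi_pos hlt.ne'
      have hkn : k ≤ n := by exact_mod_cast hk.trans hnx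
      obtain ⟨h1, h2⟩ := hw p p0 p1 k (by omega) ((win_iff hlt hk0).2 hk)
      have h3 : 0 < (xi p) ^ Psi t := by positivity
      constructor
      · have e1 : (xi p) ^ Psi t ≤ (k:ℝ) ^ Psi t := Real.rpow_le_rpow_of_nonpos hk0 hk hψ
        have e2 : Gq p t 0 k ≤ A ^ j * Gq p t 0 (2 ^ j * k) :=
          dbl_pow hA (fun r n hn hr => hdbl p p0 p1 r n hn hr) j k (by omega)
        have e3 := hbey p p0 p1 (2 ^ j * k)
          (le_trans hk2 (Nat.le_mul_of_pos_left _ (by positivity))) (hj p hlt p1 k hk') n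
        refine (mul_le_mul_of_nonneg_right (min_le_right _ _) h3.le).trans ?_
        have e4 : c * (xi p) ^ Psi t ≤ A ^ j * (B * Gq p t 0 n) :=
          calc c * (xi p) ^ Psi t ≤ c * (k:ℝ) ^ Psi t := mul_le_mul_of_nonneg_left e1 hc.le
            _ ≤ Gq p t 0 k := h1
            _ ≤ A ^ j * Gq p t 0 (2 ^ j * k) := e2
            _ ≤ A ^ j * (B * Gq p t 0 n) := mul_le_mul_of_nonneg_left e3 (by positivity)
        have e5 : c * (A ^ j)⁻¹ * B⁻¹ * (xi p) ^ Psi t =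
          ((A ^ j)⁻¹ * B⁻¹) * (c * (xi p) ^ Psi t) := by ring
        rw [e5]
        refine (mul_le_mul_of_nonneg_left e4 (by positivity)).trans (le_of_eq ?_)
        field_simp
      · have e1 : (k:ℝ) ^ Psi t ≤ 2 ^ (-Psi t) * (xi p) ^ Psi t := by
          have h4 := Real.rpow_le_rpow_of_nonpos (by positivity : (0:ℝ) < xi p / 2)
            (by linarith : xi p / 2 ≤ k) hψ
          rw [Real.div_rpow hxi.le (by norm_num), div_eq_mul_inv,
            ← Real.rpow_neg (by norm_num)] at h4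
          linarith
        calc Gq p t 0 n ≤ Gq p t 0 k := Gq_mono p0' p1 t0 t1 le_rfl (by omega) hkn
          _ ≤ C * (k:ℝ) ^ Psi t := h2
          _ ≤ C * (2 ^ (-Psi t) * (xi p) ^ Psi t) := mul_le_mul_of_nonneg_left e1 hC.le
          _ = (C * 2 ^ (-Psi t)) * (xi p) ^ Psi t := by ring
          _ ≤ _ := mul_le_mul_of_nonneg_right (le_max_right _ _) h3.le

end Pool.Agent.H953.Nst
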