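import Pool.Agent.H953.Nst18

/-!
The mean number of colour changes: moments of the costs, the derivative in the parameter.
-/

set_option autoImplicit false

namespace Pool.Agent.H953.Nst

open H974 H906.Cyl Finset Pool.Agent.W819.EN Pool.Agent.W819.NC

/-- opening an edge saves at most two changes -/
theorem cost_ins {G : Set Edg} {e : Edg} {A B : ℤ × ℤ → Prop} {K : ℕ}
    (h : Cost (insert e G) A B K) : Cost G A B (K + 2) := by
  obtain ⟨p, q, hp, hq, hch⟩ := h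
  refine ⟨p, q, hp, hq, ?_⟩
  obtain ⟨x, hx1, hx2⟩ := dual_corner e
  have hx3 : St x (fc (src e)) := Pool.Agent.W38.EN.St_symm hx1
  have hx4 : St (fc (tgt e)) x := Pool.Agent.W38.EN.St_symm hx2
  rcases split (G := G) (u := fc (src e)) (v := fc (tgt e)) (fun a b hab => mv_insert hab) hch with
    h1 | ⟨K1, K2, hK, ⟨h1, h2⟩ | ⟨h1, h2⟩⟩
  · exact h1.mono (by omega)
  · have := (Ch.step (Ch.step h1 hx1) hx2).trans h2
    exact this.mono (by omega)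
  · have := (Ch.step (Ch.step h1 hx4) hx3).trans h2
    exact this.mono (by omega)

/-- closing an edge saves at most two changes -/
theorem cost_rem {G : Set Edg} {e : Edg} (he : e ∉ G) {A B : ℤ × ℤ → Prop} {K : ℕ}
    (h : Cost G A B K) : Cost (insert e G) A B (K + 2) := by
  rw [Cost_du] at h ⊢
  rw [du_insert he] at h
  exact cost_ins h

theorem N2_ins {F : Finset Edg} {e : Edg} (he : e ∉ F) (m : ℕ) :
    |(N2 (insert e F) (0, 0) (zz m) : ℝ) - N2 F (0, 0) (zz m)| ≤ 2 * ind (Pi m e F) := by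
  by_cases h : Pi m e F
  · rw [ind_of h]
    have hc : (↑(insert e F) : Set Edg) = insert e (↑F : Set Edg) := Finset.coe_insert _ _
    have h1 : N2 F (0, 0) (zz m) ≤ N2 (insert e F) (0, 0) (zz m) + 2 := by
      apply N2_le_iff.2
      apply cost_ins (e := e)
      rw [← hc]
      exact N2_le_iff.1 le_rfl
    have h2 : N2 (insert e F) (0, 0) (zz m) ≤ N2 F (0, 0) (zz m) + 2 := by
      apply N2_le_iff.2
      rw [hc]
      exact cost_rem (by simpa using he) (N2_le_iff.1 le_rfl)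
    have h3 : (N2 F (0, 0) (zz m) : ℝ) ≤ N2 (insert e F) (0, 0) (zz m) + 2 := by exact_mod_cast h1
    have h4 : (N2 (insert e F) (0, 0) (zz m) : ℝ) ≤ N2 F (0, 0) (zz m) + 2 := by exact_mod_cast h2
    rw [abs_le]
    constructor <;> linarith
  · rw [ind_not_of h, mul_zero]
    unfold Pi at h
    push Not at h
    rw [h, sub_self, abs_zero]

/-! ### moments -/

theorem mom_of {Y : Finset Edg → ℕ} {S : Finset Edg} {s C : ℝ} (hs : 1 ≤ s)
    (hY : ∀ F F' : Finset Edg, F ⊆ F' → Y F' ≤ Y F) (h : Ex P2 S (fun F => s ^ Y F) ≤ C)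
    {q : ℝ} (q0 : 1/2 ≤ q) (q1 : q ≤ 1) : Ex (Pq q) S (fun F => s ^ Y F) ≤ C := by
  have ok := okP (by linarith : (0:ℝ) ≤ q) q1
  have ok2 : Ok P2 := Pool.Agent.W672.NC.okP
  have hI : Incr S (fun F => -(s ^ Y F)) := by
    intro A B hAB _
    have := pow_le_pow_right₀ hs (hY A B hAB)
    simp only
    linarith
  have h2 := Ex_mono_param ok2 ok (fun e => q0) hI
  have e : ∀ p : Edg → ℝ, Ex p S (fun F => -(s ^ Y F)) = -Ex p S (fun F => s ^ Y F) := by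
    intro p
    have := Ex_mul_left p S (-1) (fun F => s ^ Y F)
    simpa using this
  rw [e, e] at h2
  linarith

theorem momW (s : ℝ) (hs : 1 ≤ s) : ∃ C : ℝ, 0 < C ∧ ∀ q : ℝ, 1/2 ≤ q → q ≤ 1 →
    ∀ (v : Vtx) (b : ℕ) (S : Finset Edg), 1 ≤ b → bx v (2 * b) ⊆ S →
    Ex (Pq q) S (fun F => s ^ Wc F v b) ≤ C := by
  obtain ⟨C, hC, h⟩ := sys.wmom s hs
  exact ⟨C, hC, fun q q0 q1 v b S hb hS =>
    mom_of hs (fun F F' hF => Wc_anti hF v b) (h v b S hb hS) q0 q1⟩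

theorem momK (s : ℝ) (hs : 1 ≤ s) (M : ℕ) : ∃ C : ℝ, 0 < C ∧ ∀ q : ℝ, 1/2 ≤ q → q ≤ 1 →
    ∀ (a b c d : ℤ) (S : Finset Edg), 1 ≤ d - c → a < b → b - a ≤ M * (d - c) → LRE a b c d ⊆ S →
    Ex (Pq q) S (fun F => s ^ Kc F a b c d) ≤ C := by
  obtain ⟨C, hC, h⟩ := sys.kmom s hs M
  exact ⟨C, hC, fun q q0 q1 a b c d S h1 h2 h3 hS =>
    mom_of hs (fun F F' hF => Kc_anti hF h2.le (by omega)) (h a b c d S h1 h2 h3 hS) q0 q1⟩

theorem p256 (k : ℕ) : (256:ℝ) ^ k = (4 ^ (2 * k)) ^ 2 := by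
  rw [← pow_mul, show 2 * k * 2 = 4 * k by ring, pow_mul]
  norm_num

theorem momY : ∃ C : ℝ, 0 < C ∧ ∀ q : ℝ, 1/2 ≤ q → q ≤ 1 →
    ∀ (v : Vtx) (b' b c : ℕ) (S : Finset Edg), 1 ≤ b' → 1 ≤ b → b < c → c ≤ 64 * b →
    bx v c ⊆ S → bx v (2 * b') ⊆ S → Ex (Pq q) S (fun F => (4:ℝ) ^ YY v b' b c F) ≤ C := by
  obtain ⟨C1, hC1, h1⟩ := momW 16 (by norm_num)
  obtain ⟨C2, hC2, h2⟩ := momK 256 (by norm_num) 64
  refine ⟨C1 + C2, by linarith, ?_⟩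
  intro q q0 q1 v b' b c S hb' hb hbc hc hS hS'
  have ok := okP (by linarith : (0:ℝ) ≤ q) q1
  have a1 := h1 q q0 q1 v b' S hb' hS'
  have a2 := h2 q q0 q1 (v.1 + b) (v.1 + c) (v.2 - b) (v.2 + b) S (by omega) (by omega)
    (by push_cast; omega) ((LRE_bx hbc.le).trans hS)
  refine le_trans ?_ (add_le_add a1 a2)
  rw [← Ex_add]
  apply Ex_mono ok
  intro F _
  unfold YY
  rw [pow_add]
  have e1 : (16:ℝ) ^ Wc F v b' = (4 ^ Wc F v b') ^ 2 := by rw [← pow_mul, mul_comm, pow_mul]; norm_num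
  have e2 : (256:ℝ) ^ Kc F (v.1 + b) (v.1 + c) (v.2 - b) (v.2 + b) =
      (4 ^ (2 * Kc F (v.1 + b) (v.1 + c) (v.2 - b) (v.2 + b))) ^ 2 := p256 _
  rw [e1, e2]
  nlinarith [sq_nonneg ((4:ℝ) ^ Wc F v b' - 4 ^ (2 * Kc F (v.1 + b) (v.1 + c) (v.2 - b) (v.2 + b))),
    sq_nonneg ((4:ℝ) ^ Wc F v b'),
    sq_nonneg ((4:ℝ) ^ (2 * Kc F (v.1 + b) (v.1 + c) (v.2 - b) (v.2 + b)))]

theorem nat_le4 (n : ℕ) : (n:ℝ) ^ 2 ≤ 4 ^ n := by
  have h : (n:ℝ) ≤ 2 ^ n := by exact_mod_cast Nat.lt_two_pow_self.le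
  calc (n:ℝ) ^ 2 ≤ (2 ^ n) ^ 2 := pow_le_pow_left₀ (by positivity) h 2
    _ = 4 ^ n := by rw [← pow_mul, mul_comm, pow_mul]; norm_num

theorem nat_le4' (n : ℕ) : (n:ℝ) ≤ 4 ^ n := by
  have h : (n:ℝ) ≤ 2 ^ n := by exact_mod_cast Nat.lt_two_pow_self.le
  exact h.trans (pow_le_pow_left₀ (by norm_num) (by norm_num) n)

/-! ### the mean -/

/-- the mean number of changes -/
noncomputable def E1 (q : ℝ) (r R : ℕ) : ℝ :=
  Ex (Pq q) (bx (0, 0) R) (fun F => (NA F (0, 0) r R : ℝ))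

theorem Eg_loc (q : ℝ) (g : ℕ → ℝ) {v : Vtx} {r R : ℕ} {S : Finset Edg} (hrR : r ≤ R)
    (hS : bx v R ⊆ S) : Ex (Pq q) S (fun F => g (NA F v r R)) =
      Ex (Pq q) (bx (0, 0) R) (fun F => g (NA F (0, 0) r R)) := by
  rw [Ex_local hS (fun F _ => by
    rw [Pool.Agent.W672.NC.loc' geoNA hrR (sdiff_subset : an v r R ⊆ bx v R) F])]
  rw [← Pool.Agent.W672.NC.trl_bx v, LSym.mp, Ex_map]
  apply Ex_congr
  intro F hF
  have h2 := geoNA.tr F v (0, 0) r R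
  have e : ((0 : ℤ) + v.1, (0 : ℤ) + v.2) = v := by simp
  simp only [LSym.mp] at h2
  rw [e] at h2
  rw [h2]

theorem E1_loc (q : ℝ) {v : Vtx} {r R : ℕ} {S : Finset Edg} (hrR : r ≤ R)
    (hS : bx v R ⊆ S) : Ex (Pq q) S (fun F => (NA F v r R : ℝ)) = E1 q r R :=
  Eg_loc q (fun n => (n:ℝ)) hrR hS

theorem E1_nonneg {q : ℝ} (q0 : 0 ≤ q) (q1 : q ≤ 1) (r R : ℕ) : 0 ≤ E1 q r R :=
  Ex_nonneg (okP q0 q1) (fun F _ => Nat.cast_nonneg _)

theorem E1_mono {q : ℝ} (q0 : 0 ≤ q) (q1 : q ≤ 1) {r r' R R' : ℕ}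
    (h1 : r' ≤ r) (h2 : r ≤ R) (h3 : R ≤ R') : E1 q r R ≤ E1 q r' R' := by
  rw [← E1_loc q h2 (bx_sub (v := (0, 0)) h3)]
  apply Ex_mono (okP q0 q1)
  intro F _
  exact_mod_cast geoNA.mono F _ _ _ _ _ h1 h3

/-- doubling of the outer radius -/
theorem E1_dbl : ∃ C : ℝ, 1 ≤ C ∧ ∀ q : ℝ, 1/2 ≤ q → q ≤ 1 → ∀ n : ℕ, 1 ≤ n →
    E1 q 0 (2 * n) ≤ E1 q 0 n + C := by
  obtain ⟨C, hC, h⟩ := momY
  refine ⟨max C 4, le_max_of_le_right (by norm_num), ?_⟩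
  intro q q0 q1 n hn
  have q0' : (0:ℝ) ≤ q := by linarith
  have ok := okP q0' q1
  rcases Nat.lt_or_ge n 2 with h2 | h2
  · have hn1 : n = 1 := by omega
    subst hn1
    have e0 := E1_nonneg q0' q1 0 1
    have e1 : E1 q 0 (2 * 1) ≤ 4 := by
      apply Ex_le_of_le ok
      intro F _
      have := geoNA.le F (0, 0) 0 (2 * 1)
      exact_mod_cast (by omega : NA F (0, 0) 0 (2 * 1) ≤ 4)
    have := le_max_right C 4
    linarith
  · obtain ⟨b, hb⟩ : ∃ b, b = n / 2 := ⟨_, rfl⟩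
    have l1 : ∀ F : Finset Edg, NA F (0, 0) 0 (2 * n) ≤ NA F (0, 0) 0 n +
        YY (0, 0) b b (2 * n) F := by
      intro F
      have j := Pool.Agent.W405.NC.t_JOIN F (0, 0) b 0 (2 * n) (by omega) (by omega) (by omega)
      have k := Pool.Agent.W12.NC.t_RIGHT F (0, 0) b b (2 * n) le_rfl (by omega)
      have m := geoNA.mono F (0, 0) 0 0 (2 * b) n le_rfl (by omega)
      unfold YY
      omega
    have hm := h q q0 q1 (0, 0) b b (2 * n) (bx (0, 0) (2 * n : ℕ)) (by omega) (by omega) (by omega)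
      (by omega) (Finset.Subset.refl _) (by exact_mod_cast bx_sub (v := (0, 0)) (by omega : 2 * b ≤ 2 * n))
    have e1 : E1 q 0 (2 * n) ≤ Ex (Pq q) (bx (0, 0) (2 * n : ℕ)) (fun F => (NA F (0, 0) 0 n : ℝ) +
        4 ^ YY (0, 0) b b (2 * n) F) := by
      apply Ex_mono ok
      intro F _
      have h1 : (NA F (0, 0) 0 (2 * n) : ℝ) ≤ NA F (0, 0) 0 n + YY (0, 0) b b (2 * n) F := by
        exact_mod_cast l1 F
      have h3 := nat_le4' (YY (0, 0) b b (2 * n) F)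
      linarith
    rw [Ex_add, E1_loc q (by omega) (bx_sub (by omega))] at e1
    have := le_max_left C 4
    linarith

end Pool.Agent.H953.Nst
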