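import Pool.Agent.H953.Nst1

/-!
Pivotal edges for the number of colour changes: four arms.
-/

set_option autoImplicit false

namespace Pool.Agent.H953.Nst

open H974 H906.Cyl Finset Pool.Agent.W819.EN
open H12S (bdB blk)
open H389NS (A4a)
open Pool.Agent.NH39 (InB OutB ann_cross blk_ends notblk_ends)

/-- faces at distance at least `k` -/
def Zo (c : Vtx) (k : ℕ) (p : ℤ × ℤ) : Prop := 2 * (k : ℤ) ≤ nmv c p

/-- faces at distance at most `d` -/
def Zi (c : Vtx) (d : ℕ) (p : ℤ × ℤ) : Prop := nmv c p ≤ 2 * (d : ℤ)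

theorem seg1 {Z : ℤ × ℤ → Prop} {φ : ℤ × ℤ → ZMod 2}
    (h : ∀ p q, St p q → Z p → Z q → φ p = φ q) {a b s : ℤ} (hab : a ≤ b)
    (hz : ∀ i, a ≤ i → i ≤ b → Z (i, s)) : φ (a, s) = φ (b, s) := by
  obtain ⟨n, rfl⟩ : ∃ n : ℕ, b = a + n := ⟨(b - a).toNat, by omega⟩
  clear hab
  induction n with
  | zero => simp
  | succ n ih =>
    rw [ih (fun i h1 h2 => hz i h1 (by push_cast; omega))]
    apply h
    · exact Or.inl ⟨rfl, Or.inl (by simp only; push_cast; ring)⟩
    · exact hz _ (by omega) (by push_cast; omega)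
    · exact hz _ (by push_cast; omega) le_rfl

theorem seg2 {Z : ℤ × ℤ → Prop} {φ : ℤ × ℤ → ZMod 2}
    (h : ∀ p q, St p q → Z p → Z q → φ p = φ q) {a b s : ℤ} (hab : a ≤ b)
    (hz : ∀ i, a ≤ i → i ≤ b → Z (s, i)) : φ (s, a) = φ (s, b) := by
  obtain ⟨n, rfl⟩ : ∃ n : ℕ, b = a + n := ⟨(b - a).toNat, by omega⟩
  clear hab
  induction n with
  | zero => simp
  | succ n ih =>
    rw [ih (fun i h1 h2 => hz i h1 (by push_cast; omega))]
    apply h
    · exact Or.inr ⟨rfl, Or.inl (by simp only; push_cast; ring)⟩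
    · exact hz _ (by omega) (by push_cast; omega)
    · exact hz _ (by push_cast; omega) le_rfl

theorem seg1' {Z : ℤ × ℤ → Prop} {φ : ℤ × ℤ → ZMod 2}
    (h : ∀ p q, St p q → Z p → Z q → φ p = φ q) (a b s : ℤ)
    (hz : ∀ i, min a b ≤ i → i ≤ max a b → Z (i, s)) : φ (a, s) = φ (b, s) := by
  rcases le_total a b with h1 | h1
  · exact seg1 h h1 (fun i h2 h3 => hz i (by omega) (by omega))
  · exact (seg1 h h1 (fun i h2 h3 => hz i (by omega) (by omega))).symm

theorem seg2' {Z : ℤ × ℤ → Prop} {φ : ℤ × ℤ → ZMod 2}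
    (h : ∀ p q, St p q → Z p → Z q → φ p = φ q) (a b s : ℤ)
    (hz : ∀ i, min a b ≤ i → i ≤ max a b → Z (s, i)) : φ (s, a) = φ (s, b) := by
  rcases le_total a b with h1 | h1
  · exact seg2 h h1 (fun i h2 h3 => hz i (by omega) (by omega))
  · exact (seg2 h h1 (fun i h2 h3 => hz i (by omega) (by omega))).symm

theorem conn_Zi (c : Vtx) (d : ℕ) : StConn (Zi c d) := by
  intro φ h
  have key : ∀ p, Zi c d p → φ p = φ (c.1 + c.2, c.1 - c.2) := by
    rintro ⟨a, s⟩ hp
    unfold Zi nmv at hp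
    simp only at hp
    have h1 : φ (a, s) = φ (c.1 + c.2, s) := by
      apply seg1' h
      intro i h1 h2
      unfold Zi nmv
      simp only
      have a1 := abs_cases (a - (c.1 + c.2))
      have a2 := abs_cases (i - (c.1 + c.2))
      omega
    rw [h1]
    apply seg2' h
    intro i h1 h2
    unfold Zi nmv
    simp only
    have a1 := abs_cases (a - (c.1 + c.2))
    have a2 := abs_cases (i - (c.1 - c.2))
    have a3 := abs_cases (s - (c.1 - c.2))
    have a4 := abs_cases (c.1 + c.2 - (c.1 + c.2))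
    omega
  intro p q hp hq
  rw [key p hp, key q hq]

theorem conn_Zo (c : Vtx) (k : ℕ) : StConn (Zo c k) := by
  intro φ h
  have big1 : ∀ a s s' : ℤ, 2 * (k:ℤ) ≤ |a - (c.1 + c.2)| → φ (a, s) = φ (a, s') := by
    intro a s s' ha
    apply seg2' h
    intro i _ _
    unfold Zo nmv
    simp only
    have := abs_nonneg (i - (c.1 - c.2))
    omega
  have big2 : ∀ a a' s : ℤ, 2 * (k:ℤ) ≤ |s - (c.1 - c.2)| → φ (a, s) = φ (a', s) := by
    intro a a' s ha
    apply seg1' h
    intro i _ _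
    unfold Zo nmv
    simp only
    have := abs_nonneg (i - (c.1 + c.2))
    omega
  have key1 : ∀ a s : ℤ, Zo c k (a, s) → c.1 + c.2 ≤ a →
      φ (a, s) = φ (c.1 + c.2 + 2 * k, c.1 - c.2) := by
    intro a s hp ha
    unfold Zo nmv at hp
    simp only at hp
    have h1 : φ (a, s) = φ (a + 2 * k, s) := by
      apply seg1 h (by omega)
      intro i h1 h2
      unfold Zo nmv
      simp only
      have a1 := abs_cases (a - (c.1 + c.2))
      have a2 := abs_cases (i - (c.1 + c.2))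
      omega
    have h2 : φ (a + 2 * k, s) = φ (a + 2 * k, c.1 - c.2) := by
      apply big1
      have a1 := abs_cases (a + 2 * k - (c.1 + c.2))
      omega
    have h3 : φ (c.1 + c.2 + 2 * k, c.1 - c.2) = φ (a + 2 * k, c.1 - c.2) := by
      apply seg1 h (by omega)
      intro i h1 h2
      unfold Zo nmv
      simp only
      have a1 := abs_cases (i - (c.1 + c.2))
      have a2 := abs_nonneg (c.1 - c.2 - (c.1 - c.2))
      omega
    rw [h1, h2, h3]
  have key : ∀ p, Zo c k p → φ p = φ (c.1 + c.2 + 2 * k, c.1 - c.2) := by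
    rintro ⟨a, s⟩ hp
    by_cases ha : c.1 + c.2 ≤ a
    · exact key1 a s hp ha
    have hp' := hp
    unfold Zo nmv at hp
    simp only at hp
    rcases le_total (c.1 - c.2) s with hs | hs
    · have h1 : φ (a, s) = φ (a, s + 2 * k) := by
        apply seg2 h (by omega)
        intro i h1 h2
        unfold Zo nmv
        simp only
        have a1 := abs_cases (s - (c.1 - c.2))
        have a2 := abs_cases (i - (c.1 - c.2))
        omega
      have h2 : φ (a, s + 2 * k) = φ (c.1 + c.2, s + 2 * k) := by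
        apply big2
        have a1 := abs_cases (s + 2 * k - (c.1 - c.2))
        omega
      rw [h1, h2]
      apply key1 _ _ _ le_rfl
      unfold Zo nmv
      simp only
      have a1 := abs_cases (s + 2 * k - (c.1 - c.2))
      have a2 := abs_nonneg (c.1 + c.2 - (c.1 + c.2))
      omega
    · have h1 : φ (a, s - 2 * k) = φ (a, s) := by
        apply seg2 h (by omega)
        intro i h1 h2
        unfold Zo nmv
        simp only
        have a1 := abs_cases (s - (c.1 - c.2))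
        have a2 := abs_cases (i - (c.1 - c.2))
        omega
      have h2 : φ (a, s - 2 * k) = φ (c.1 + c.2, s - 2 * k) := by
        apply big2
        have a1 := abs_cases (s - 2 * k - (c.1 - c.2))
        omega
      rw [← h1, h2]
      apply key1 _ _ _ le_rfl
      unfold Zo nmv
      simp only
      have a1 := abs_cases (s - 2 * k - (c.1 - c.2))
      have a2 := abs_nonneg (c.1 + c.2 - (c.1 + c.2))
      omega
  intro p q hp hq
  rw [key p hp, key q hq]

theorem nmv_fc (c w : Vtx) : nmv c (fc w) = 2 * max |w.1 - c.1| |w.2 - c.2| := by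
  unfold nmv fc
  simp only
  have a1 := abs_cases (w.1 + w.2 - (c.1 + c.2))
  have a2 := abs_cases (w.1 - w.2 - (c.1 - c.2))
  have a3 := abs_cases (w.1 - c.1)
  have a4 := abs_cases (w.2 - c.2)
  omega

theorem Zo_fc {c w : Vtx} {k : ℕ} : Zo c k (fc w) ↔ OutB c k w := by
  unfold Zo OutB
  rw [nmv_fc]
  omega

theorem Zi_fc {c w : Vtx} {d : ℕ} : Zi c d (fc w) ↔ InB c d w := by
  unfold Zi InB
  rw [nmv_fc]
  omega

/-- four arms around a pivotal edge -/
theorem A4a_out {G : Set Edg} {e : Edg} {A B : ℤ × ℤ → Prop} {K : ℕ}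
    (h1 : Cost (insert e G) A B K) (h2 : ¬ Cost G A B K) {c : Vtx} {r k : ℕ} (hrk : r ≤ k)
    (he : e ∈ blk c r) (hA : ∀ p, A p → Zo c k p) (hB : ∀ p, B p → Zo c k p) : A4a c r k G := by
  obtain ⟨h3, h4⟩ := piv_open h1 h2
  obtain ⟨⟨w1, r1, z1⟩, ⟨w2, r2, z2⟩⟩ := h4 _ (conn_Zo c k) hA hB
  rw [Zo_fc] at z1 z2
  obtain ⟨e1, e2⟩ := blk_ends he
  obtain ⟨u, hu, w, hw, r3, r4⟩ := ann_cross hrk e1 z1 r1
  obtain ⟨u', hu', w', hw', r3', r4'⟩ := ann_cross hrk e2 z2 r2
  refine ⟨u, hu, u', hu', ⟨w, hw, r3⟩, ⟨w', hw', r3'⟩, ?_⟩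
  intro hr
  apply h3
  have m : ∀ a b, Reach (G ∩ ↑(blk c k \ blk c r)) a b → Reach G a b :=
    fun a b h => h.mono Set.inter_subset_left
  exact (r4.trans (m _ _ r3).symm).trans ((m _ _ hr).trans ((m _ _ r3').trans r4'.symm))

/-- four arms in an annulus which separates the two sets from a pivotal edge -/
theorem A4a_in {G : Set Edg} {e : Edg} {A B : ℤ × ℤ → Prop} {K : ℕ}
    (h1 : Cost (insert e G) A B K) (h2 : ¬ Cost G A B K) {c : Vtx} {r k : ℕ} (hrk : r ≤ k)
    (he : e ∉ blk c k) (hA : ∀ p, A p → Zi c r p) (hB : ∀ p, B p → Zi c r p) : A4a c r k G := by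
  obtain ⟨h3, h4⟩ := piv_open h1 h2
  obtain ⟨⟨w1, r1, z1⟩, ⟨w2, r2, z2⟩⟩ := h4 _ (conn_Zi c r) hA hB
  rw [Zi_fc] at z1 z2
  obtain ⟨e1, e2⟩ := notblk_ends he
  obtain ⟨u, hu, w, hw, r3, r4⟩ := ann_cross hrk z1 e1 r1.symm
  obtain ⟨u', hu', w', hw', r3', r4'⟩ := ann_cross hrk z2 e2 r2.symm
  refine ⟨u, hu, u', hu', ⟨w, hw, r3⟩, ⟨w', hw', r3'⟩, ?_⟩
  intro hr
  apply h3
  have m : ∀ a b, Reach (G ∩ ↑(blk c k \ blk c r)) a b → Reach G a b :=
    fun a b h => h.mono Set.inter_subset_left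
  have s1 := ((m _ _ r3).symm.trans (m _ _ hr)).trans (m _ _ r3')
  exact (r1.trans r4).trans (s1.trans (r4'.symm.trans r2.symm))

/-! ### duality -/

/-- the dual edge, shifted by `(-1/2, -1/2)` -/
def sg (e : Edg) : Edg := if e.2.2 then (e.1 + 1, e.2.1, false) else (e.1, e.2.1 + 1, true)

/-- the inverse of `sg` -/
def gs (e : Edg) : Edg := if e.2.2 then (e.1, e.2.1 - 1, false) else (e.1 - 1, e.2.1, true)

theorem sg_gs (e : Edg) : sg (gs e) = e := by
  obtain ⟨a, b, _ | _⟩ := e <;> simp [sg, gs]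

theorem gs_sg (e : Edg) : gs (sg e) = e := by
  obtain ⟨a, b, _ | _⟩ := e <;> simp [sg, gs]

/-- the dual configuration -/
def du (G : Set Edg) : Set Edg := {e | sg e ∉ G}

theorem sg_edz (j d : ℤ) : sg (edz j d) = edz (j + 1) d := by
  by_cases h : (j + d) % 2 = 0
  · have e1 : edz j d = ((j + d) / 2, (j - d) / 2, true) := by unfold edz; rw [if_pos h]
    have e2 : edz (j + 1) d = ((j + 1 + d + 1) / 2, (j + 1 - d - 1) / 2, false) := by
      unfold edz; rw [if_neg (by omega)]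
    rw [e1, e2]
    show (((j + d) / 2 + 1, (j - d) / 2, false) : Edg) = _
    simp only [Prod.mk.injEq, and_true]
    omega
  · have e1 : edz j d = ((j + d + 1) / 2, (j - d - 1) / 2, false) := by unfold edz; rw [if_neg h]
    have e2 : edz (j + 1) d = ((j + 1 + d) / 2, (j + 1 - d) / 2, true) := by
      unfold edz; rw [if_pos (by omega)]
    rw [e1, e2]
    show (((j + d + 1) / 2, (j - d - 1) / 2 + 1, true) : Edg) = _
    simp only [Prod.mk.injEq, and_true]
    omega

theorem edz_du {G : Set Edg} {j d : ℤ} : edz j d ∈ du G ↔ edz (j + 1) d ∉ G := by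
  unfold du
  rw [Set.mem_setOf_eq, sg_edz]

/-- the shift of the faces -/
def s1 (p : ℤ × ℤ) : ℤ × ℤ := (p.1 + 1, p.2)

theorem lnk_du {G : Set Edg} {p q : ℤ × ℤ} : lnk (du G) p q ↔ lnk G (s1 p) (s1 q) := by
  obtain ⟨a, s⟩ := p
  obtain ⟨b, r⟩ := q
  have key : ∀ j : ℤ, ((if (j + s) % 2 = 0 then edz j s ∈ du G else edz j s ∉ du G) ↔
      (if (j + 1 + s) % 2 = 0 then edz (j + 1) s ∈ G else edz (j + 1) s ∉ G)) ∧
      ((if (j + s) % 2 = 0 then edz j s ∉ du G else edz j s ∈ du G) ↔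
      (if (j + 1 + s) % 2 = 0 then edz (j + 1) s ∉ G else edz (j + 1) s ∈ G)) := by
    intro j
    rw [edz_du]
    by_cases h : (j + s) % 2 = 0
    · rw [if_pos h, if_pos h, if_neg (by omega), if_neg (by omega)]
      tauto
    · rw [if_neg h, if_neg h, if_pos (by omega), if_pos (by omega)]
      tauto
  unfold lnk s1
  simp only
  rw [(key a).1, (key b).2]
  have e1 : b = a + 1 ↔ b + 1 = a + 1 + 1 := by omega
  have e2 : a = b + 1 ↔ a + 1 = b + 1 + 1 := by omega
  rw [e1, e2]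

theorem Mv_du {G : Set Edg} {p q : ℤ × ℤ} : Mv (du G) p q ↔ Mv G (s1 p) (s1 q) := by
  unfold Mv
  rw [lnk_du, lnk_du]

theorem St_s1 {p q : ℤ × ℤ} : St p q ↔ St (s1 p) (s1 q) := by
  unfold St nb s1
  simp only
  omega

theorem Ch_du {G : Set Edg} {K : ℕ} {p q : ℤ × ℤ} :
    Ch (Mv (du G)) St K p q ↔ Ch (Mv G) St K (s1 p) (s1 q) := by
  constructor
  · exact fun h => Ch.map s1 (fun a b h => Ch.of_rel (Mv_du.1 h)) (fun a b h => Ch.of_step
      (St_s1.1 h)) h
  · intro h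
    have h2 := Ch.map (RY := Mv (du G)) (SY := St) (fun p : ℤ × ℤ => ((p.1 - 1, p.2) : ℤ × ℤ))
      (fun a b h => Ch.of_rel (Mv_du.2 (by
        have : ∀ c : ℤ × ℤ, s1 (c.1 - 1, c.2) = c := by intro c; unfold s1; ext <;> simp
        rw [this, this]; exact h))) (fun a b h => Ch.of_step (St_s1.2 (by
        have : ∀ c : ℤ × ℤ, s1 (c.1 - 1, c.2) = c := by intro c; unfold s1; ext <;> simp
        rw [this, this]; exact h))) h
    have e : ∀ c : ℤ × ℤ, (((s1 c).1 - 1, (s1 c).2) : ℤ × ℤ) = c := by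
      intro c; unfold s1; ext <;> simp
    simp only [e] at h2
    exact h2

/-- duality for costs -/
theorem Cost_du {G : Set Edg} {A B : ℤ × ℤ → Prop} {K : ℕ} :
    Cost G A B K ↔ Cost (du G) (fun p => A (s1 p)) (fun p => B (s1 p)) K := by
  have e : ∀ c : ℤ × ℤ, s1 (c.1 - 1, c.2) = c := by intro c; unfold s1; ext <;> simp
  constructor
  · rintro ⟨p, q, h1, h2, h3⟩
    refine ⟨(p.1 - 1, p.2), (q.1 - 1, q.2), ?_, ?_, ?_⟩
    · show A (s1 _); rw [e]; exact h1
    · show B (s1 _); rw [e]; exact h2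
    · rw [Ch_du, e, e]; exact h3
  · rintro ⟨p, q, h1, h2, h3⟩
    exact ⟨s1 p, s1 q, h1, h2, Ch_du.1 h3⟩

theorem du_insert {G : Set Edg} {e : Edg} (he : e ∉ G) :
    du G = insert (gs e) (du (insert e G)) := by
  ext f
  unfold du
  simp only [Set.mem_setOf_eq, Set.mem_insert_iff]
  constructor
  · intro h
    by_cases hf : sg f = e
    · left; rw [← hf, gs_sg]
    · right; tauto
  · rintro (h | h)
    · rw [h, sg_gs]; exact he
    · tauto

end Pool.Agent.H953.Nst
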