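import Pool.Agent.H953.Nst19

/-!
The mean number of colour changes in the near-critical window.
-/

set_option autoImplicit false

namespace Pool.Agent.H953.Nst

open H974 H906.Cyl Finset Pool.Agent.W819.EN Pool.Agent.W819.NC

/-- the mean number of changes between the two vertices -/
noncomputable def MM (q : ℝ) (m : ℕ) : ℝ :=
  Ex (Pq q) (bx (0, 0) (m * m : ℕ)) (fun F => (N2 F (0, 0) (zz m) : ℝ))

theorem MM_deriv (q : ℝ) (m : ℕ) : HasDerivAt (fun q => MM q m)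
    (∑ e ∈ bx (0, 0) (m * m : ℕ), Ex (Pq q) ((bx (0, 0) (m * m : ℕ)).erase e)
      (fun F => (N2 (insert e F) (0, 0) (zz m) : ℝ) - N2 F (0, 0) (zz m))) q := by
  have h := Ex_hasDerivAt (fun q (_ : Edg) => q) (fun _ => 1) q (fun _ => hasDerivAt_id q)
    (bx (0, 0) (m * m : ℕ)) (fun F => (N2 F (0, 0) (zz m) : ℝ))
  simp only [one_mul] at h
  exact h

theorem Gq_one (q : ℝ) (r R : ℕ) : Gq q 1 r R = 1 := by
  unfold Gq
  simp only [one_pow]
  exact Ex_const _ _ _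

theorem MM_bound : ∃ C : ℝ, 1 ≤ C ∧ ∀ q : ℝ, 1/2 ≤ q → q ≤ 1 → ∀ (m : ℕ), 64 ≤ m →
    |∑ e ∈ bx (0, 0) (m * m : ℕ), Ex (Pq q) ((bx (0, 0) (m * m : ℕ)).erase e)
      (fun F => (N2 (insert e F) (0, 0) (zz m) : ℝ) - N2 F (0, 0) (zz m))| ≤
      C * (m:ℝ) ^ (3/4 : ℝ) := by
  obtain ⟨C, hC, h⟩ := JJ_sum (t := 1) one_pos le_rfl
  refine ⟨2 * C, by linarith, ?_⟩
  intro q q0 q1 m hm
  have q0' : (0:ℝ) ≤ q := by linarith
  have hs := h q q0 q1 m hm
  rw [Gq_one, mul_one, mul_one] at hs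
  refine (Finset.abs_sum_le_sum_abs _ _).trans ?_
  have e1 : ∀ e ∈ bx (0, 0) (m * m : ℕ), |Ex (Pq q) ((bx (0, 0) (m * m : ℕ)).erase e)
      (fun F => (N2 (insert e F) (0, 0) (zz m) : ℝ) - N2 F (0, 0) (zz m))| ≤
      2 * JJ q 1 m (bx (0, 0) (m * m : ℕ)) e := by
    intro e _
    unfold JJ
    rw [← Ex_mul_left]
    apply Ex_abs q0' q1
    intro F hF
    have heF : e ∉ F := fun he => by
      have := hF he
      rw [Finset.mem_erase] at this
      exact this.1 rfl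
    rw [one_pow, mul_one]
    exact N2_ins heF m
  refine (Finset.sum_le_sum e1).trans ?_
  rw [← Finset.mul_sum]
  linarith

/-- comparison of two parameters -/
theorem ode2 {f f' : ℝ → ℝ} {L a b : ℝ} (hab : a ≤ b) (hf : ∀ x, HasDerivAt f (f' x) x)
    (hb : ∀ x, a ≤ x → x ≤ b → |f' x| ≤ L) : |f b - f a| ≤ L * (b - a) := by
  have h := (convex_Icc a b).norm_image_sub_le_of_norm_hasDerivWithin_le (f := f) (f' := f')
    (C := L) (x := a) (y := b) (fun x _ => (hf x).hasDerivWithinAt)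
    (fun x hx => hb x hx.1 hx.2) (Set.left_mem_Icc.2 hab) (Set.right_mem_Icc.2 hab)
  rw [Real.norm_eq_abs, Real.norm_eq_abs, abs_of_nonneg (by linarith : 0 ≤ b - a)] at h
  exact h

theorem MM_window : ∃ C : ℝ, 1 ≤ C ∧ ∀ p : ℝ, 1/2 ≤ p → p ≤ 1 → ∀ (m : ℕ), 64 ≤ m →
    (p - 1/2) * (m:ℝ) ^ (3/4 : ℝ) ≤ 1 → |MM p m - MM (1/2) m| ≤ C := by
  obtain ⟨C, hC, h⟩ := MM_bound
  refine ⟨C, hC, ?_⟩
  intro p p0 p1 m hm hw
  have := ode2 (f := fun q => MM q m) (L := C * (m:ℝ) ^ (3/4 : ℝ)) p0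
    (fun x => MM_deriv x m) (fun x hx1 hx2 => h x hx1 (by linarith) m hm)
  refine this.trans ?_
  have e : C * (m:ℝ) ^ (3/4 : ℝ) * (p - 1/2) = C * ((p - 1/2) * (m:ℝ) ^ (3/4 : ℝ)) := by ring
  rw [e]
  nlinarith

theorem YT_mean : ∃ C : ℝ, 1 ≤ C ∧ ∀ q : ℝ, 1/2 ≤ q → q ≤ 1 → ∀ (m : ℕ), 64 ≤ m →
    Ex (Pq q) (bx (0, 0) (m * m : ℕ)) (fun F => (YT m F : ℝ)) ≤ C := by
  obtain ⟨C1, hC1, h1⟩ := momW 4 (by norm_num)
  obtain ⟨C2, hC2, h2⟩ := momK 4 (by norm_num) 3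
  refine ⟨max 1 (C1 + C1 + 2 * C2), le_max_left _ _, ?_⟩
  intro q q0 q1 m hm
  have ok := okP (by linarith : (0:ℝ) ≤ q) q1
  have hM : 64 * m ≤ m * m := Nat.mul_le_mul_right m hm
  have hMz : 64 * (m:ℤ) ≤ ((m * m : ℕ) : ℤ) := by exact_mod_cast hM
  have a1 := h1 q q0 q1 (0, 0) m (bx (0, 0) (m * m : ℕ)) (by omega)
    (by exact_mod_cast bx_sub (v := (0, 0)) (by omega : 2 * m ≤ m * m))
  have s2 : bx (8 * (m:ℤ), 0) (2 * m) ⊆ bx (0, 0) (m * m : ℕ) := by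
    unfold bx
    exact RE_subset (by simp only; omega) (by simp only; omega) (by simp only; omega)
      (by simp only; omega)
  have s3 : LRE (m:ℤ) (7 * m) (-m) m ⊆ bx (0, 0) (m * m : ℕ) := by
    refine LRE_subset_RE.trans ?_
    unfold bx
    exact RE_subset (by simp only; omega) (by simp only; omega) (by simp only; omega)
      (by simp only; omega)
  have a2 := h1 q q0 q1 (8 * m, 0) m (bx (0, 0) (m * m : ℕ)) (by omega) s2
  have a3 := h2 q q0 q1 m (7 * m) (-m) m (bx (0, 0) (m * m : ℕ)) (by omega) (by omega)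
    (by push_cast; omega) s3
  refine le_max_of_le_right ?_
  have e : Ex (Pq q) (bx (0, 0) (m * m : ℕ)) (fun F => (YT m F : ℝ)) ≤
      Ex (Pq q) (bx (0, 0) (m * m : ℕ)) (fun F => ((4:ℝ) ^ Wc F (0, 0) m + 4 ^ Wc F (8 * m, 0) m) +
        2 * 4 ^ Kc F m (7 * m) (-m) m) := by
    apply Ex_mono ok
    intro F _
    unfold YT
    push_cast
    have b1 := nat_le4' (Wc F (0, 0) m)
    have b2 := nat_le4' (Wc F (8 * m, 0) m)
    have b3 := nat_le4' (Kc F m (7 * m) (-m) m)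
    linarith
  rw [Ex_add, Ex_add, Ex_mul_left] at e
  linarith

theorem MM_E1 : ∃ C : ℝ, 1 ≤ C ∧ ∀ q : ℝ, 1/2 ≤ q → q ≤ 1 → ∀ (m : ℕ), 64 ≤ m →
    |MM q m - 2 * E1 q 0 (2 * m)| ≤ C := by
  obtain ⟨C, hC, h⟩ := YT_mean
  refine ⟨C, hC, ?_⟩
  intro q q0 q1 m hm
  have q0' : (0:ℝ) ≤ q := by linarith
  have ok := okP q0' q1
  have hM : 64 * m ≤ m * m := Nat.mul_le_mul_right m hm
  have e1 : Ex (Pq q) (bx (0, 0) (m * m : ℕ)) (fun F => (NA F (0, 0) 0 (2 * m) : ℝ)) =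
      E1 q 0 (2 * m) := E1_loc q (by omega) (bx_sub (by omega))
  have e2 : Ex (Pq q) (bx (0, 0) (m * m : ℕ)) (fun F => (NA F (zz m) 0 (2 * m) : ℝ)) =
      E1 q 0 (2 * m) := E1_loc q (by omega) (bx_in' (by rw [ds_comm, ds_zz]; omega))
  have l1 : Ex (Pq q) (bx (0, 0) (m * m : ℕ)) (fun F => (NA F (0, 0) 0 (2 * m) : ℝ) +
      NA F (zz m) 0 (2 * m)) ≤ MM q m := by
    apply Ex_mono ok
    intro F _
    exact_mod_cast N2_pieces F (by omega : 1 ≤ m)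
  have l2 : MM q m ≤ Ex (Pq q) (bx (0, 0) (m * m : ℕ)) (fun F => ((NA F (0, 0) 0 (2 * m) : ℝ) +
      NA F (zz m) 0 (2 * m)) + YT m F) := by
    apply Ex_mono ok
    intro F _
    exact_mod_cast N2_join F (by omega : 1 ≤ m)
  rw [Ex_add, e1, e2] at l1
  rw [Ex_add, Ex_add, e1, e2] at l2
  have := h q q0 q1 m hm
  rw [abs_le]
  constructor <;> linarith

theorem E1_crit : ∃ C : ℝ, ∀ n : ℕ, 1 ≤ n → |E1 (1/2) 0 n - nuc * Real.log n| ≤ C := by
  obtain ⟨C, h⟩ := Pool.Agent.H863R2.NL.ET_mean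
  refine ⟨C, ?_⟩
  intro n hn
  have := h n hn
  rw [Pool.Agent.W819.EN.ET_eq] at this
  exact this

/-- the mean in the near-critical window -/
theorem E1_window : ∃ C : ℝ, 1 ≤ C ∧ ∀ p : ℝ, 1/2 ≤ p → p ≤ 1 → ∀ n : ℕ, 1 ≤ n →
    (p - 1/2) * (n:ℝ) ^ (3/4 : ℝ) ≤ 1 → |E1 p 0 n - nuc * Real.log n| ≤ C := by
  obtain ⟨C0, h0⟩ := E1_crit
  obtain ⟨C1, hC1, h1⟩ := MM_window
  obtain ⟨C2, hC2, h2⟩ := MM_E1
  obtain ⟨C3, hC3, h3⟩ := E1_dbl
  have hnuc : 0 < nuc := by unfold nuc; positivity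
  have hC0 := abs_nonneg C0
  refine ⟨256 + |C0| + C1 + C2 + C3 + nuc * 10, by nlinarith, ?_⟩
  intro p p0 p1 n hn hw
  have p0' : (0:ℝ) ≤ p := by linarith
  have ok := okP p0' p1
  have hn0 : (0:ℝ) < n := by exact_mod_cast hn
  have hn1 : (1:ℝ) ≤ n := by exact_mod_cast hn
  by_cases hbig : 128 ≤ n
  · obtain ⟨m, hm⟩ : ∃ m, m = n / 2 := ⟨_, rfl⟩
    have hm64 : 64 ≤ m := by omega
    have hmn : (m:ℝ) ≤ n := by exact_mod_cast (by omega : m ≤ n)
    have hw' : (p - 1/2) * (m:ℝ) ^ (3/4 : ℝ) ≤ 1 := by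
      refine le_trans ?_ hw
      apply mul_le_mul_of_nonneg_left _ (by linarith)
      exact Real.rpow_le_rpow (by positivity) hmn (by norm_num)
    have a1 := h1 p p0 p1 m hm64 hw'
    have a2 := h2 p p0 p1 m hm64
    have a3 := h2 (1/2) le_rfl (by norm_num) m hm64
    have a4 := h0 (2 * m) (by omega)
    have a5 := h3 p p0 p1 (2 * m) (by omega)
    have a6 : E1 p 0 (2 * m) ≤ E1 p 0 n := E1_mono p0' p1 le_rfl (by omega) (by omega)
    have a7 : E1 p 0 n ≤ E1 p 0 (2 * (2 * m)) := E1_mono p0' p1 le_rfl (by omega) (by omega)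
    have b1 : Real.log ((2 * m : ℕ) : ℝ) ≤ Real.log n :=
      Real.log_le_log (by exact_mod_cast (by omega : 0 < 2 * m))
        (by exact_mod_cast (by omega : 2 * m ≤ n))
    have b2 : Real.log n ≤ Real.log ((2 * m : ℕ) : ℝ) + 1 := by
      have h5 : Real.log n ≤ Real.log (2 * ((2 * m : ℕ) : ℝ)) := by
        apply Real.log_le_log hn0
        exact_mod_cast (by omega : n ≤ 2 * (2 * m))
      rw [Real.log_mul (by norm_num) (by positivity)] at h5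
      have := Real.log_two_lt_d9
      linarith
    have b3 := mul_le_mul_of_nonneg_left b1 hnuc.le
    have b4 := mul_le_mul_of_nonneg_left b2 hnuc.le
    have b5 := le_abs_self C0
    rw [abs_le] at a1 a2 a3 a4 ⊢
    constructor
    · linarith [a1.1, a1.2, a2.1, a2.2, a3.1, a3.2, a4.1, a4.2]
    · linarith [a1.1, a1.2, a2.1, a2.2, a3.1, a3.2, a4.1, a4.2]
  · push Not at hbig
    have a1 := E1_nonneg p0' p1 0 n
    have a2 : E1 p 0 n ≤ 256 := by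
      apply Ex_le_of_le ok
      intro F _
      have := geoNA.le F (0, 0) 0 n
      exact_mod_cast (by omega : NA F (0, 0) 0 n ≤ 256)
    have a3 : 0 ≤ Real.log n := Real.log_nonneg hn1
    have a4 : Real.log n ≤ 10 := by
      have h5 : Real.log n ≤ Real.log (2 ^ 7) := by
        apply Real.log_le_log hn0
        have : (n:ℝ) ≤ 128 := by exact_mod_cast (by omega : n ≤ 128)
        linarith
      rw [Real.log_pow] at h5
      have := Real.log_two_lt_d9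
      push_cast at h5
      linarith
    have a5 := mul_nonneg hnuc.le a3
    have a6 := mul_le_mul_of_nonneg_left a4 hnuc.le
    rw [abs_le]
    constructor <;> linarith

end Pool.Agent.H953.Nst
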