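import Pool.Agent.H953.Nst20

/-!
The mean number of colour changes above the critical point, all scales.
-/

set_option autoImplicit false

namespace Pool.Agent.H953.Nst

open H974 H906.Cyl Finset Pool.Agent.W819.EN Pool.Agent.W819.NC

theorem step_far (F : Finset Edg) {b n : ℕ} (hb : 1 ≤ b) (hbn : b ≤ n) :
    NA F (0, 0) b n ≤ YY (0, 0) (2 * b) b (4 * b) F + NA F (0, 0) (2 * b) n := by
  have k := Pool.Agent.W12.NC.t_RIGHT F (0, 0) b b (4 * b) le_rfl (by omega)
  unfold YY
  rcases Nat.lt_or_ge n (4 * b) with h | h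
  · have m := geoNA.mono F (0, 0) b b n (4 * b) le_rfl h.le
    omega
  · have j := Pool.Agent.W405.NC.t_JOIN F (0, 0) (2 * b) b n (by omega) (by omega) (by omega)
    rw [show 2 * (2 * b) = 4 * b by ring] at j
    omega

/-- beyond the correlation length the mean is bounded -/
theorem E1_beyond : ∃ C : ℝ, 1 ≤ C ∧ ∀ p : ℝ, 1/2 ≤ p → p ≤ 1 → ∀ N : ℕ, 2 ≤ N →
    eps p N ≤ 1/100 → ∀ n : ℕ, N ≤ n → E1 p N n ≤ C := by
  obtain ⟨C, hC, hY⟩ := momY
  refine ⟨1 + C, by linarith, ?_⟩
  intro p p0 p1 N hN he n hn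
  have p0' : (0:ℝ) ≤ p := by linarith
  have ok := okP p0' p1
  set S := bx (0, 0) (4 * n : ℕ) with hS
  have hbS : bx (0, 0) (n : ℕ) ⊆ S := bx_sub (by omega)
  have key : ∀ k i : ℕ, n < 2 ^ (i + k) * N →
      Ex (Pq p) S (fun F => (NA F (0, 0) (2 ^ i * N) n : ℝ)) ≤ (1 + C) * (1/2) ^ i := by
    intro k
    induction k with
    | zero =>
      intro i hi
      have e : Ex (Pq p) S (fun F => (NA F (0, 0) (2 ^ i * N) n : ℝ)) =
          Ex (Pq p) S (fun _ => (0:ℝ)) := by
        apply Ex_congr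
        intro F _
        rw [NA_le0 F (0, 0) (by simpa using hi.le)]
        simp
      rw [e, Ex_const]
      positivity
    | succ k ih =>
      intro i hi
      obtain ⟨b, hb⟩ : ∃ b, b = 2 ^ i * N := ⟨_, rfl⟩
      rw [← hb]
      have hb2 : 2 ≤ b := by
        rw [hb]; exact le_trans hN (Nat.le_mul_of_pos_left _ (by positivity))
      rcases Nat.lt_or_ge n b with hnb | hnb
      · have e : Ex (Pq p) S (fun F => (NA F (0, 0) b n : ℝ)) = Ex (Pq p) S (fun _ => (0:ℝ)) := by
          apply Ex_congr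
          intro F _
          rw [NA_le0 F (0, 0) hnb.le]
          simp
        rw [e, Ex_const]
        positivity
      · have i1 := ih (i + 1) (by rw [show i + 1 + k = i + (k + 1) by ring]; exact hi)
        have e1 : 2 ^ (i + 1) * N = 2 * b := by rw [hb]; ring
        rw [e1] at i1
        have h2i : (0:ℝ) < 2 ^ i := by positivity
        have l1 : Ex (Pq p) S (fun F => (NA F (0, 0) b n : ℝ)) ≤ Ex (Pq p) S (fun F =>
            ((2 ^ i / 2) * ind (0 < NA F (0, 0) b n) +
              (1 / (2 * 2 ^ i)) * 4 ^ YY (0, 0) (2 * b) b (4 * b) F) +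
              (NA F (0, 0) (2 * b) n : ℝ)) := by
          apply Ex_mono ok
          intro F _
          have y4 := nat_le4 (YY (0, 0) (2 * b) b (4 * b) F)
          have y0 : (0:ℝ) < 4 ^ YY (0, 0) (2 * b) b (4 * b) F := by positivity
          have n0 : (0:ℝ) ≤ (NA F (0, 0) (2 * b) n : ℝ) := Nat.cast_nonneg _
          have t1 : 0 ≤ (1 / (2 * (2:ℝ) ^ i)) * 4 ^ YY (0, 0) (2 * b) b (4 * b) F := by positivity
          by_cases hF : 0 < NA F (0, 0) b n
          · rw [ind_of hF, mul_one]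
            have h3 : (NA F (0, 0) b n : ℝ) ≤ YY (0, 0) (2 * b) b (4 * b) F +
                NA F (0, 0) (2 * b) n := by exact_mod_cast step_far F (by omega) hnb
            have h4 : (YY (0, 0) (2 * b) b (4 * b) F : ℝ) ≤ 2 ^ i / 2 +
                (1 / (2 * 2 ^ i)) * (YY (0, 0) (2 * b) b (4 * b) F : ℝ) ^ 2 := by
              have h5 : 0 ≤ (1 / (2 * (2:ℝ) ^ i)) *
                  ((YY (0, 0) (2 * b) b (4 * b) F : ℝ) - 2 ^ i) ^ 2 := by positivity
              have h6 : (1 / (2 * (2:ℝ) ^ i)) * ((YY (0, 0) (2 * b) b (4 * b) F : ℝ) - 2 ^ i) ^ 2 =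
                  2 ^ i / 2 + (1 / (2 * 2 ^ i)) * (YY (0, 0) (2 * b) b (4 * b) F : ℝ) ^ 2 -
                  (YY (0, 0) (2 * b) b (4 * b) F : ℝ) := by
                field_simp
                ring
              linarith
            have h7 := mul_le_mul_of_nonneg_left y4
              (by positivity : 0 ≤ (1 / (2 * (2:ℝ) ^ i)))
            linarith
          · rw [ind_not_of hF, mul_zero]
            have h3 : NA F (0, 0) b n = 0 := by omega
            rw [h3, Nat.cast_zero]
            linarith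
        rw [Ex_add, Ex_add, Ex_mul_left, Ex_mul_left] at l1
        have p3 := far_pr p0' p1 hN he i n hbS
        rw [← hb] at p3
        have p4 : Ex (Pq p) S (fun F => ind (0 < NA F (0, 0) b n)) ≤ (1/4) ^ (2 ^ i) := p3
        have p5 : ((1:ℝ)/4) ^ (2 ^ i) ≤ (1/4) ^ i :=
          pow_le_pow_of_le_one (by norm_num) (by norm_num) Nat.lt_two_pow_self.le
        have y5 := hY p p0 p1 (0, 0) (2 * b) b (4 * b) S (by omega) (by omega) (by omega)
          (by omega) (bx_sub (by omega))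
          (by exact_mod_cast bx_sub (v := (0, 0)) (by omega : 2 * (2 * b) ≤ 4 * n))
        have q1 : (2:ℝ) ^ i / 2 * (1/4) ^ i = 1/2 * (1/2) ^ i := by
          have : (2:ℝ) ^ i * (1/4) ^ i = (1/2) ^ i := by rw [← mul_pow]; norm_num
          linarith
        have q2 : 1 / (2 * (2:ℝ) ^ i) = 1/2 * (1/2) ^ i := by
          rw [one_div_pow]; field_simp
        have r1 := mul_le_mul_of_nonneg_left (p4.trans p5) (by positivity : 0 ≤ (2:ℝ) ^ i / 2)
        have r2 := mul_le_mul_of_nonneg_left y5 (by positivity : 0 ≤ 1 / (2 * (2:ℝ) ^ i))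
        rw [q1] at r1
        have r3 : (1 / (2 * (2:ℝ) ^ i)) * C = 1/2 * (1/2) ^ i * C := by rw [q2]
        have r4 : ((1:ℝ)/2) ^ (i + 1) = 1/2 * (1/2) ^ i := by ring
        rw [r4] at i1
        nlinarith
  have hk := key n 0 (by
    rw [zero_add]
    have h2 : n < 2 ^ n := Nat.lt_two_pow_self
    nlinarith)
  rw [pow_zero, one_mul, pow_zero, mul_one, E1_loc p hn hbS] at hk
  exact hk

theorem E1_pow {C : ℝ} {q : ℝ} (h : ∀ n : ℕ, 1 ≤ n → E1 q 0 (2 * n) ≤ E1 q 0 n + C) (j : ℕ) :
    ∀ n : ℕ, 1 ≤ n → E1 q 0 (2 ^ j * n) ≤ E1 q 0 n + j * C := by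
  induction j with
  | zero => intro n _; simp
  | succ j ih =>
    intro n hn
    have h1 := ih n hn
    have h2 := h (2 ^ j * n) (Nat.mul_pos (by positivity) hn)
    have e : 2 ^ (j + 1) * n = 2 * (2 ^ j * n) := by ring
    rw [e]
    push_cast
    linarith

/-- the mean above the critical point -/
theorem E1_all : ∃ C : ℝ, 1 ≤ C ∧ ∀ p : ℝ, 1/2 ≤ p → p ≤ 1 → ∀ n : ℕ, 1 ≤ n →
    |E1 p 0 n - nuc * Real.log (mn p n)| ≤ C := by
  obtain ⟨C1, hC1, h1⟩ := E1_window
  obtain ⟨C2, hC2, h2⟩ := E1_beyond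
  obtain ⟨C3, hC3, h3⟩ := E1_dbl
  obtain ⟨C4, hC4, h4⟩ := momW 4 (by norm_num)
  obtain ⟨j, hj⟩ := far_scale
  have hnuc : 0 < nuc := by unfold nuc; positivity
  have hj0 : (0:ℝ) ≤ j := Nat.cast_nonneg j
  refine ⟨C1 + C2 + (j + 1) * C3 + C4 + nuc, by nlinarith, ?_⟩
  intro p p0 p1 n hn
  have p0' : (0:ℝ) ≤ p := by linarith
  have ok := okP p0' p1
  have hn0 : (0:ℝ) < n := by exact_mod_cast hn
  have hjC : 0 ≤ ((j:ℝ) + 1) * C3 := by positivity
  have small : (p - 1/2) * (n:ℝ) ^ (3/4 : ℝ) ≤ 1 → |E1 p 0 n - nuc * Real.log n| ≤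
      C1 + C2 + (j + 1) * C3 + C4 + nuc := by
    intro h
    have := h1 p p0 p1 n hn h
    linarith
  rcases eq_or_lt_of_le p0 with heq | hlt
  · rw [← heq, mn_half]
    have := small (by rw [← heq]; simp)
    rwa [← heq] at this
  · rcases le_total (n:ℝ) (xi p) with hnx | hnx
    · rw [mn_le hlt.ne' hnx]
      exact small ((win_iff hlt hn0).2 hnx)
    · rw [mn_ge hlt.ne' hnx]
      obtain ⟨k, hk2, hk, hk'⟩ := xi_floor hlt p1
      have hk0 : (0:ℝ) < k := by exact_mod_cast (by omega : 0 < k)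
      have hxi := xi_pos hlt.ne'
      have hkn : k ≤ n := by exact_mod_cast hk.trans hnx
      have a1 := h1 p p0 p1 k (by omega) ((win_iff hlt hk0).2 hk)
      have b1 : Real.log k ≤ Real.log (xi p) := Real.log_le_log hk0 hk
      have b2 : Real.log (xi p) ≤ Real.log k + 1 := by
        have h5 := Real.log_le_log hxi hk'
        rw [Real.log_mul (by norm_num) hk0.ne'] at h5
        have := Real.log_two_lt_d9
        linarith
      have b3 := mul_le_mul_of_nonneg_left b1 hnuc.le
      have b4 := mul_le_mul_of_nonneg_left b2 hnuc.le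
      have a2 : E1 p 0 k ≤ E1 p 0 n := E1_mono p0' p1 le_rfl (by omega) hkn
      obtain ⟨N, hN⟩ : ∃ N, N = 2 ^ j * k := ⟨_, rfl⟩
      have hN2 : 2 ≤ N := by
        rw [hN]; exact le_trans hk2 (Nat.le_mul_of_pos_left _ (by positivity))
      have heps : eps p N ≤ 1/100 := by rw [hN]; exact hj p hlt p1 k hk'
      have a3 : E1 p 0 (2 * N) ≤ E1 p 0 k + (j + 1) * C3 := by
        have := E1_pow (h3 p p0 p1) (j + 1) k (by omega)
        have e : 2 ^ (j + 1) * k = 2 * N := by rw [hN]; ring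
        rw [e] at this
        push_cast at this
        exact this
      have a4 : E1 p 0 n ≤ E1 p 0 (2 * N) + C2 + C4 := by
        rcases Nat.lt_or_ge n (2 * N) with h | h
        · have := E1_mono p0' p1 le_rfl (Nat.zero_le n) h.le
          linarith
        · have l1 : E1 p 0 n ≤ Ex (Pq p) (bx (0, 0) (n : ℕ)) (fun F =>
              ((NA F (0, 0) 0 (2 * N) : ℝ) + NA F (0, 0) N n) + 4 ^ Wc F (0, 0) N) := by
            apply Ex_mono ok
            intro F _
            have jn := Pool.Agent.W405.NC.t_JOIN F (0, 0) N 0 n (by omega) (by omega) (by omega)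
            have jn' : (NA F (0, 0) 0 n : ℝ) ≤ NA F (0, 0) 0 (2 * N) + NA F (0, 0) N n +
              Wc F (0, 0) N := by exact_mod_cast jn
            have := nat_le4' (Wc F (0, 0) N)
            linarith
          have w1 := h4 p p0 p1 (0, 0) N (bx (0, 0) (n : ℕ)) (by omega)
            (by exact_mod_cast bx_sub (v := (0, 0)) (by omega : 2 * N ≤ n))
          have w2 := h2 p p0 p1 N hN2 heps n (by omega)
          rw [Ex_add, Ex_add, E1_loc p (by omega) (bx_sub (by omega)),
            E1_loc p (by omega) (bx_sub le_rfl)] at l1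
          linarith
      rw [abs_le] at a1 ⊢
      constructor
      · linarith [a1.1, a1.2]
      · linarith [a1.1, a1.2]

end Pool.Agent.H953.Nst
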