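import Pool.Agent.H953.Nst21

/-!
Duality: all parameters.
-/

set_option autoImplicit false

namespace Pool.Agent.H953.Nst

open H974 H906.Cyl Finset Pool.Agent.W819.EN Pool.Agent.W819.NC

theorem NS_le_iff {G : Set Edg} {v : Vtx} {r R K : ℕ} : NS G v r R ≤ K ↔ DA G v r R K := by
  constructor
  · intro h
    have h1 : DA G v r R (NS G v r R) := Nat.sInf_mem (Pool.Agent.W38.EN.DA_ex G v r R)
    exact Pool.Agent.W21.EN.DA_mono le_rfl le_rfl h h1
  · intro h
    exact Nat.sInf_le h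

theorem NS_congr {G G' : Set Edg} {v : Vtx} {R : ℕ} (h : ∀ e ∈ bx v (R:ℤ), (e ∈ G ↔ e ∈ G')) :
    NS G v 0 R = NS G' v 0 R := by
  have hin : ∀ e ∈ an v 0 R, (e ∈ G ↔ e ∈ G') := by
    intro e he
    unfold an at he
    exact h e (mem_sdiff.1 he).1
  apply le_antisymm
  · exact NS_le_iff.2 (Pool.Agent.W918.EN.DA_imp (Nat.zero_le R) (fun e he => (hin e he).symm)
      (NS_le_iff.1 le_rfl))
  · exact NS_le_iff.2 (Pool.Agent.W918.EN.DA_imp (Nat.zero_le R) hin (NS_le_iff.1 le_rfl))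

theorem nmv_s1 (p : ℤ × ℤ) : nmv (0, 0) (s1 p) ≤ nmv (0, 0) p + 1 ∧
    nmv (0, 0) p ≤ nmv (0, 0) (s1 p) + 1 := by
  unfold nmv s1
  simp only
  have a1 := abs_cases (p.1 + 1 - (0 + 0))
  have a2 := abs_cases (p.1 - (0 + 0))
  constructor <;> omega

/-- the dual configuration has about as many layers -/
theorem NS_du1 (G : Set Edg) (R : ℕ) : NS (du G) (0, 0) 0 R ≤ NS G (0, 0) 0 (R + 1) + 1 := by
  rw [NS_le_iff]
  obtain ⟨p, q, hp, hq, hch⟩ := NS_le_iff.1 (le_refl (NS G (0, 0) 0 (R + 1)))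
  have hp' := start_eq hp
  subst hp'
  refine ⟨fc (0, 0), (q.1 - 1, q.2), by unfold nmv fc; simp, ?_, ?_⟩
  · have h1 := (nmv_s1 (q.1 - 1, q.2)).1
    have h2 : s1 (q.1 - 1, q.2) = q := by unfold s1; simp
    rw [h2] at h1
    push_cast at hq
    omega
  · rw [add_comm]
    refine Ch.trans (Ch.of_step (R := Mv (du G)) (k := 0) (b := (-1, 0)) ?_) ?_
    · unfold St nb fc
      left
      constructor
      · simp
      · right; simp
    · rw [Ch_du]
      have h2 : s1 (q.1 - 1, q.2) = q := by unfold s1; simp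
      have h3 : s1 (-1, 0) = fc (0, 0) := by unfold s1 fc; simp
      rw [h2, h3]
      exact hch

theorem NS_du2 (G : Set Edg) (R : ℕ) : NS G (0, 0) 0 R ≤ NS (du G) (0, 0) 0 (R + 1) + 1 := by
  rw [NS_le_iff]
  obtain ⟨p, q, hp, hq, hch⟩ := NS_le_iff.1 (le_refl (NS (du G) (0, 0) 0 (R + 1)))
  have hp' := start_eq hp
  subst hp'
  rw [Ch_du] at hch
  refine ⟨fc (0, 0), s1 q, by unfold nmv fc; simp, ?_, ?_⟩
  · have h1 := (nmv_s1 q).2
    push_cast at hq
    omega
  · rw [add_comm]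
    refine Ch.trans (Ch.of_step (R := Mv G) (k := 0) (b := s1 (fc (0, 0))) ?_) hch
    unfold St nb fc s1
    left
    constructor
    · simp
    · left; simp

/-- the law of the dual configuration -/
theorem dual_Eg (q : ℝ) (g : ℕ → ℝ) {R : ℕ} {S : Finset Edg}
    (hS : ∀ e ∈ bx (0, 0) (R:ℤ), sg e ∈ S) :
    Ex (Pq q) S (fun F => g (NS (du (↑F : Set Edg)) (0, 0) 0 R)) =
      Ex (Pq (1 - q)) (bx (0, 0) R) (fun F => g (NA F (0, 0) 0 R)) := by
  set S' : Finset Edg := S.map sgE.symm.toEmbedding with hS'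
  have e0 : S = S'.map sgE.toEmbedding := by
    ext e
    simp only [hS', Finset.mem_map_equiv]
    simp
  have hbS : bx (0, 0) (R:ℤ) ⊆ S' := by
    intro e he
    rw [hS', Finset.mem_map_equiv]
    exact hS e he
  rw [e0, Ex_map]
  have e1 : Ex (fun e : Edg => (Pq q) (sgE.toEmbedding e)) S'
      (fun F => g (NS (du (↑(F.map sgE.toEmbedding) : Set Edg)) (0, 0) 0 R)) =
      Ex (Pq q) S' (fun F => g (NA (S' \ F) (0, 0) 0 R)) := by
    apply Ex_congr
    intro F hF
    congr 1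
    rw [NA_eq]
    apply NS_congr
    intro e he
    simp only [du, Set.mem_ofPred_eq, Finset.mem_coe, Finset.mem_map_equiv, Finset.mem_sdiff]
    have h1 : sgE.symm (sg e) = e := gs_sg e
    rw [h1]
    exact ⟨fun h => ⟨hbS he, h⟩, fun h => h.2⟩
  rw [e1, ← Ex_compl (Pq q) S' (fun F => g (NA F (0, 0) 0 R))]
  exact Eg_loc (1 - q) g (Nat.zero_le _) hbS

theorem sg_bx {R : ℕ} {e : Edg} (he : e ∈ bx (0, 0) (R:ℤ)) : sg e ∈ bx (0, 0) ((R + 1 : ℕ):ℤ) := by
  obtain ⟨x, y, d⟩ := e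
  unfold bx at *
  cases d
  · unfold sg
    simp only [Bool.false_eq_true, if_false]
    rw [mem_RE_true]
    rw [mem_RE_false] at he
    push_cast
    omega
  · unfold sg
    simp only [if_true]
    rw [mem_RE_false]
    rw [mem_RE_true] at he
    push_cast
    omega

theorem xi_symm (p : ℝ) : xi (1 - p) = xi p := by
  unfold xi
  have : (1 - p) - 1/2 = -(p - 1/2) := by ring
  rw [this, abs_neg]

theorem mn_symm (p : ℝ) (n : ℕ) : mn (1 - p) n = mn p n := by
  unfold mn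
  rw [xi_symm]
  by_cases h : p = 1/2
  · rw [if_pos h, if_pos (by linarith)]
  · rw [if_neg h, if_neg (fun h' => h (by linarith))]

end Pool.Agent.H953.Nst
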