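import Pool.Agent.H953.Nst22

/-!
Two-sided estimates for all parameters.
-/

set_option autoImplicit false

namespace Pool.Agent.H953.Nst

open H974 H906.Cyl Finset Pool.Agent.W819.EN Pool.Agent.W819.NC

theorem NA_NS (F : Finset Edg) (R : ℕ) : NA F (0, 0) 0 R = NS (↑F : Set Edg) (0, 0) 0 R := rfl

/-- comparison of `p` and `1 - p` for a decreasing function -/
theorem dual_cmp {p : ℝ} (p0 : 0 ≤ p) (p1 : p ≤ 1) {g h : ℕ → ℝ}
    (hgh : ∀ k l : ℕ, k ≤ l + 1 → g l ≤ h k) (n : ℕ) :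
    Ex (Pq p) (bx (0, 0) (n + 1 : ℕ)) (fun F => g (NA F (0, 0) 0 (n + 1))) ≤
      Ex (Pq (1 - p)) (bx (0, 0) (n : ℕ)) (fun F => h (NA F (0, 0) 0 n)) := by
  have ok := okP p0 p1
  have hsub : bx (0, 0) (n + 1 : ℕ) ⊆ bx (0, 0) (n + 2 : ℕ) := bx_sub (by omega)
  rw [← Eg_loc p g (Nat.zero_le (n + 1)) (Finset.Subset.refl (bx (0, 0) (n + 1 : ℕ)))]
  have hS : ∀ e ∈ bx (0, 0) (n:ℤ), sg e ∈ bx (0, 0) ((n + 1 : ℕ):ℤ) := fun e he => sg_bx he
  rw [← dual_Eg p h hS]
  apply Ex_mono ok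
  intro F _
  apply hgh
  exact NS_du1 _ _

theorem Gq_dual {p t : ℝ} (p0 : 0 ≤ p) (p1 : p ≤ 1) (t0 : 0 < t) (t1 : t ≤ 1) (n : ℕ) :
    t * Gq p t 0 (n + 1) ≤ Gq (1 - p) t 0 n := by
  have h := dual_cmp p0 p1 (g := fun k => t * t ^ k) (h := fun k => t ^ k)
    (fun k l hkl => by
      rw [← pow_succ']
      exact pow_le_pow_of_le_one t0.le t1 hkl) n
  rw [Ex_mul_left] at h
  exact h

theorem E1_dual {p : ℝ} (p0 : 0 ≤ p) (p1 : p ≤ 1) (n : ℕ) :
    E1 (1 - p) 0 n ≤ E1 p 0 (n + 1) + 1 := by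
  have h := dual_cmp p0 p1 (g := fun k => -((k:ℝ) + 1)) (h := fun k => -(k:ℝ))
    (fun k l hkl => by
      have : (k:ℝ) ≤ l + 1 := by exact_mod_cast hkl
      linarith) n
  have e1 : Ex (Pq p) (bx (0, 0) (n + 1 : ℕ)) (fun F => -((NA F (0, 0) 0 (n + 1) : ℝ) + 1)) =
      -(E1 p 0 (n + 1) + 1) := by
    have := Ex_mul_left (Pq p) (bx (0, 0) (n + 1 : ℕ)) (-1) (fun F => (NA F (0, 0) 0 (n + 1) : ℝ) + 1)
    rw [Ex_add, Ex_const] at this
    have e : (fun F => -((NA F (0, 0) 0 (n + 1) : ℝ) + 1)) =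
      (fun F => -1 * ((NA F (0, 0) 0 (n + 1) : ℝ) + 1)) := by
        funext F; ring
    rw [e, this]
    unfold E1
    ring
  have e2 : Ex (Pq (1 - p)) (bx (0, 0) (n : ℕ)) (fun F => -(NA F (0, 0) 0 n : ℝ)) =
      -(E1 (1 - p) 0 n) := by
    have := Ex_mul_left (Pq (1 - p)) (bx (0, 0) (n : ℕ)) (-1) (fun F => (NA F (0, 0) 0 n : ℝ))
    have e : (fun F => -(NA F (0, 0) 0 n : ℝ)) = (fun F => -1 * (NA F (0, 0) 0 n : ℝ)) := by
        funext F; ring
    rw [e, this]
    unfold E1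
    ring
  rw [e1, e2] at h
  linarith

theorem mn_pos {p : ℝ} {n : ℕ} (hn : 1 ≤ n) : 0 < mn p n := by
  have hn0 : (0:ℝ) < n := by exact_mod_cast hn
  unfold mn
  split_ifs with h
  · exact hn0
  · exact lt_min hn0 (xi_pos h)

/-- two-sided estimates of the generating function, all parameters -/
theorem Gq_full {t : ℝ} (t0 : 0 < t) (t1 : t ≤ 1) : ∃ c C : ℝ, 0 < c ∧ 0 < C ∧ ∀ p : ℝ,
    0 ≤ p → p ≤ 1 → ∀ n : ℕ, 1 ≤ n →
    c * mn p n ^ Psi t ≤ Gq p t 0 n ∧ Gq p t 0 n ≤ C * mn p n ^ Psi t := by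
  obtain ⟨c, C, hc, hC, h⟩ := Gq_all t0 t1
  obtain ⟨A, hA, hdbl⟩ := dblO t0 t1
  obtain ⟨i, hi⟩ : ∃ i, i = t⁻¹ := ⟨_, rfl⟩
  have hi1 : 1 ≤ i := by rw [hi]; exact (one_le_inv₀ t0).2 t1
  refine ⟨c * t * A⁻¹, C * A * i + i, by positivity, by positivity, ?_⟩
  intro p p0 p1 n hn
  have hm := mn_pos (p := p) hn
  have hψ := Psi_nonpos t0 t1
  have hpw : 0 < mn p n ^ Psi t := by positivity
  have hA1 : A⁻¹ ≤ 1 := inv_le_one_of_one_le₀ hA
  have hA0 : 0 < A⁻¹ := by positivity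
  rcases le_total (1/2) p with hp | hp
  · obtain ⟨h1, h2⟩ := h p hp p1 n hn
    constructor
    · refine le_trans ?_ h1
      apply mul_le_mul_of_nonneg_right _ hpw.le
      have : c * t ≤ c := mul_le_of_le_one_right hc.le t1
      have h3 : c * t * A⁻¹ ≤ c * t := mul_le_of_le_one_right (by positivity) hA1
      linarith
    · refine h2.trans ?_
      apply mul_le_mul_of_nonneg_right _ hpw.le
      have h3 : C ≤ C * A := le_mul_of_one_le_right hC.le hA
      have h4 : C * A ≤ C * A * i := le_mul_of_one_le_right (by positivity) hi1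
      linarith
  · have q0 : 1/2 ≤ 1 - p := by linarith
    have q1 : 1 - p ≤ 1 := by linarith
    obtain ⟨h1, h2⟩ := h (1 - p) q0 q1 n hn
    rw [mn_symm] at h1 h2
    constructor
    · have d1 := Gq_dual (p := 1 - p) (by linarith) q1 t0 t1 n
      rw [sub_sub_cancel] at d1
      have d2 := hdbl (1 - p) q0 q1 0 n hn (Nat.zero_le _)
      have d3 : Gq (1 - p) t 0 (2 * n) ≤ Gq (1 - p) t 0 (n + 1) :=
        Gq_mono (by linarith) q1 t0 t1 le_rfl (by omega) (by omega)
      calc c * t * A⁻¹ * mn p n ^ Psi t = (t * A⁻¹) * (c * mn p n ^ Psi t) := by ring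
        _ ≤ (t * A⁻¹) * (A * Gq (1 - p) t 0 (n + 1)) := by
            apply mul_le_mul_of_nonneg_left _ (by positivity)
            exact (h1.trans d2).trans (mul_le_mul_of_nonneg_left d3 (by linarith))
        _ = t * Gq (1 - p) t 0 (n + 1) := by field_simp
        _ ≤ _ := d1
    · rcases Nat.lt_or_ge n 2 with hn2 | hn2
      · have hn1 : n = 1 := by omega
        have hx := Gq_le_one p0 p1 t0 t1 0 n
        have hm1 : mn p n ≤ 1 := by
          unfold mn
          split_ifs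
          · rw [hn1]; norm_num
          · refine (min_le_left _ _).trans ?_
            rw [hn1]; norm_num
        have h3 : 1 ≤ mn p n ^ Psi t := by
          have := Real.rpow_le_rpow_of_nonpos hm hm1 hψ
          rwa [Real.one_rpow] at this
        have h4 : 1 ≤ C * A * i + i := by
          have : 0 < C * A * i := by positivity
          linarith
        nlinarith
      · obtain ⟨m, hm'⟩ : ∃ m, n = m + 1 := ⟨n - 1, by omega⟩
        have d1 := Gq_dual p0 p1 t0 t1 m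
        rw [← hm'] at d1
        have d2 := hdbl (1 - p) q0 q1 0 m (by omega) (Nat.zero_le _)
        have d3 : Gq (1 - p) t 0 (2 * m) ≤ Gq (1 - p) t 0 n :=
          Gq_mono (by linarith) q1 t0 t1 le_rfl (by omega) (by omega)
        have e1 : Gq p t 0 n ≤ i * (A * (C * mn p n ^ Psi t)) := by
          calc Gq p t 0 n = i * (t * Gq p t 0 n) := by rw [hi]; field_simp
            _ ≤ i * (A * (C * mn p n ^ Psi t)) := by
                apply mul_le_mul_of_nonneg_left _ (by linarith)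
                refine (d1.trans d2).trans ?_
                exact mul_le_mul_of_nonneg_left (d3.trans h2) (by linarith)
        refine e1.trans ?_
        have : i * (A * (C * mn p n ^ Psi t)) = (C * A * i) * mn p n ^ Psi t := by ring
        rw [this]
        exact mul_le_mul_of_nonneg_right (by linarith) hpw.le

/-- the mean, all parameters -/
theorem E1_full : ∃ C : ℝ, 1 ≤ C ∧ ∀ p : ℝ, 0 ≤ p → p ≤ 1 → ∀ n : ℕ, 1 ≤ n →
    |E1 p 0 n - nuc * Real.log (mn p n)| ≤ C := by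
  obtain ⟨C1, hC1, h1⟩ := E1_all
  obtain ⟨C3, hC3, h3⟩ := E1_dbl
  refine ⟨C1 + C3 + 4, by linarith, ?_⟩
  intro p p0 p1 n hn
  rcases le_total (1/2) p with hp | hp
  · have := h1 p hp p1 n hn
    linarith
  · have q0 : 1/2 ≤ 1 - p := by linarith
    have q1 : 1 - p ≤ 1 := by linarith
    have a1 := h1 (1 - p) q0 q1 n hn
    rw [mn_symm] at a1
    have u1 : E1 p 0 n ≤ E1 (1 - p) 0 n + C3 + 1 := by
      have d1 := E1_dual (p := 1 - p) (by linarith) q1 n
      rw [sub_sub_cancel] at d1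
      have d2 := h3 (1 - p) q0 q1 n hn
      have d3 : E1 (1 - p) 0 (n + 1) ≤ E1 (1 - p) 0 (2 * n) :=
        E1_mono (by linarith) q1 le_rfl (by omega) (by omega)
      linarith
    have u2 : E1 (1 - p) 0 n ≤ E1 p 0 n + C3 + 3 := by
      rcases Nat.lt_or_ge n 2 with hn2 | hn2
      · have hn1 : n = 1 := by omega
        have e1 : E1 (1 - p) 0 n ≤ 2 := by
          apply Ex_le_of_le (okP (by linarith) q1)
          intro F _
          have := geoNA.le F (0, 0) 0 n
          exact_mod_cast (by omega : NA F (0, 0) 0 n ≤ 2)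
        have := E1_nonneg p0 p1 0 n
        linarith
      · obtain ⟨m, hm'⟩ : ∃ m, n = m + 1 := ⟨n - 1, by omega⟩
        have d1 := E1_dual p0 p1 m
        rw [← hm'] at d1
        have d2 := h3 (1 - p) q0 q1 m (by omega)
        have d3 : E1 (1 - p) 0 n ≤ E1 (1 - p) 0 (2 * m) :=
          E1_mono (by linarith) q1 le_rfl (by omega) (by omega)
        linarith
    rw [abs_le] at a1 ⊢
    constructor <;> linarith [a1.1, a1.2]

end Pool.Agent.H953.Nst
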