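import Pool.Agent.H953.Nst23
import Pool.Graph.R_seed8.H863R2.NL.Inf

/-!
The number of layers in the infinite lattice, all parameters.
-/

set_option autoImplicit false

namespace Pool.Agent.H953.Nst

open H974 H906.Cyl Finset Pool.Agent.W819.EN Pool.Agent.W819.NC
open Pool.Agent.H863R2.NL (changes changes_FF changes_mono meas_changes changes_eq TT TT_le_two)
open MeasureTheory Filter
open scoped Topology

theorem TT_NA (F : Finset Edg) (n : ℕ) : TT (↑F : Set Edg) n = NA F (0, 0) 0 n := by
  rw [NA_eq, NS_zero]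

/-- the expectation of a function of the number of changes -/
noncomputable def EE (p : ℝ) (n : ℕ) (g : ℕ → ℝ) : ℝ :=
  Ex (Pq p) (bx (0, 0) n) (fun F => g (NA F (0, 0) 0 n))

theorem prob_ch (p : unitInterval) (n : ℕ) (P : ℕ → Prop) :
    (bondLaw p).real {ω | P (changes n ω)} = EE p n (fun m => ind (P m)) := by
  have h : {ω | P (changes n ω)} = {ω | (fun F : Finset Edg => P (TT (↑F) n)) (FF (boxE n) ω)} := by
    ext ω
    show P (changes n ω) ↔ P (TT (↑(FF (boxE n) ω)) n)
    rw [changes_FF]
  rw [h, law_event p (boxE n) (fun F : Finset Edg => P (TT (↑F) n))]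
  unfold EE Pr
  rw [bx_zero]
  apply Ex_congr
  intro F _
  simp only [TT_NA]

theorem int_ch (p : unitInterval) (n : ℕ) (g : ℕ → ℝ) :
    ∫ ω, g (changes n ω) ∂(bondLaw p) = EE p n g := by
  have hle : ∀ ω, changes n ω ∈ range (2 * n + 1) := by
    intro ω
    rw [mem_range, changes_eq]
    have := TT_le_two (opn ω) n
    omega
  have h1 : ∀ ω, g (changes n ω) = ∑ m ∈ range (2 * n + 1),
      ({ω | changes n ω = m} : Set (sqLattice.edgeSet → Bool)).indicator (fun _ => g m) ω := by
    intro ω
    rw [Finset.sum_eq_single (changes n ω)]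
    · rw [Set.indicator_of_mem]
      rfl
    · intro m _ hm
      rw [Set.indicator_of_notMem]
      exact fun h => hm h.symm
    · intro h
      exact absurd (hle ω) h
  have hms : ∀ m, MeasurableSet {ω | changes n ω = m} := fun m =>
    meas_changes n (measurableSet_singleton m)
  simp only [h1]
  rw [integral_finsetSum]
  · have h2 : ∀ m ∈ range (2 * n + 1), ∫ ω, ({ω | changes n ω = m} :
        Set (sqLattice.edgeSet → Bool)).indicator (fun _ => g m) ω ∂(bondLaw p) =
        EE p n (fun j => g m * ind (j = m)) := by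
      intro m _
      rw [integral_indicator_const _ (hms m), prob_ch p n (fun j => j = m), smul_eq_mul, mul_comm]
      unfold EE
      rw [Ex_mul_left, mul_comm]
    rw [Finset.sum_congr rfl h2]
    unfold EE
    rw [← Ex_sum]
    apply Ex_congr
    intro F _
    rw [Finset.sum_eq_single (NA F (0, 0) 0 n)]
    · show g (NA F (0, 0) 0 n) * ind (NA F (0, 0) 0 n = NA F (0, 0) 0 n) = _
      rw [ind_of rfl, mul_one]
    · intro m _ hm
      show g m * ind (NA F (0, 0) 0 n = m) = 0
      rw [ind_not_of (fun h => hm h.symm), mul_zero]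
    · intro h
      have := geoNA.le F (0, 0) 0 n
      exact absurd (mem_range.2 (by omega)) h
  · intro m _
    exact (integrable_const _).indicator (hms m)

/-- the total number of changes -/
noncomputable def total (ω : sqLattice.edgeSet → Bool) : ℕ := ⨆ n, changes n ω

theorem total_le {ω : sqLattice.edgeSet → Bool} (h : BddAbove (Set.range fun n => changes n ω))
    (n : ℕ) : changes n ω ≤ total ω := le_ciSup h n

theorem total_ev {ω : sqLattice.edgeSet → Bool} (h : BddAbove (Set.range fun n => changes n ω)) :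
    ∃ n0, ∀ n, n0 ≤ n → changes n ω = total ω := by
  obtain ⟨n0, hn0⟩ := Nat.sSup_mem (Set.range_nonempty fun n => changes n ω) h
  refine ⟨n0, fun n hn => le_antisymm (total_le h n) ?_⟩
  have h1 : changes n0 ω = total ω := hn0
  rw [← h1]
  exact changes_mono hn ω

theorem meas_total : Measurable total :=
  Measurable.iSup (fun n => meas_changes n)

theorem lint_le {p : unitInterval} {C : ℝ} (h : ∀ n : ℕ, EE p n (fun k => (k:ℝ)) ≤ C) :
    ∫⁻ ω, (⨆ n, (changes n ω : ENNReal)) ∂(bondLaw p) ≤ ENNReal.ofReal C := by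
  have hm : ∀ n : ℕ, Measurable (fun ω => (changes n ω : ENNReal)) := fun n =>
    (measurable_from_top (f := fun k : ℕ => (k : ENNReal))).comp (meas_changes n)
  rw [lintegral_iSup hm (fun n m hnm ω => by
    show (changes n ω : ENNReal) ≤ changes m ω
    exact_mod_cast changes_mono hnm ω)]
  apply iSup_le
  intro n
  have hint : Integrable (fun ω => (changes n ω : ℝ)) (bondLaw p) := by
    apply Integrable.of_bound (C := ((2 * n : ℕ) : ℝ))
    · exact ((measurable_from_top (f := fun k : ℕ => (k : ℝ))).comp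
        (meas_changes n)).aestronglyMeasurable
    · apply Eventually.of_forall
      intro ω
      rw [Real.norm_eq_abs, abs_of_nonneg (Nat.cast_nonneg _)]
      rw [changes_eq]
      exact_mod_cast TT_le_two (opn ω) n
  have e1 : ∫⁻ ω, (changes n ω : ENNReal) ∂(bondLaw p) =
      ENNReal.ofReal (∫ ω, (changes n ω : ℝ) ∂(bondLaw p)) := by
    rw [ofReal_integral_eq_lintegral_ofReal hint (Eventually.of_forall fun ω =>
      Nat.cast_nonneg _)]
    apply lintegral_congr
    intro ω
    rw [ENNReal.ofReal_natCast]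
  rw [e1, int_ch p n (fun k => (k:ℝ))]
  exact ENNReal.ofReal_le_ofReal (h n)

theorem total_sup (ω : sqLattice.edgeSet → Bool) :
    (total ω : ENNReal) ≤ ⨆ n, (changes n ω : ENNReal) := by
  by_cases h : BddAbove (Set.range fun n => changes n ω)
  · obtain ⟨n0, hn0⟩ := total_ev h
    rw [← hn0 n0 le_rfl]
    exact le_iSup (fun n => (changes n ω : ENNReal)) n0
  · have : total ω = 0 := by
      unfold total
      exact Nat.iSup_of_not_bddAbove h
    rw [this, Nat.cast_zero]
    exact zero_le

/-- bounded means imply that the number of changes is bounded -/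
theorem ae_bdd {p : unitInterval} {C : ℝ} (h : ∀ n : ℕ, EE p n (fun k => (k:ℝ)) ≤ C) :
    ∀ᵐ ω ∂(bondLaw p), BddAbove (Set.range fun n => changes n ω) := by
  have hm : ∀ n : ℕ, Measurable (fun ω => (changes n ω : ENNReal)) := fun n =>
    (measurable_from_top (f := fun k : ℕ => (k : ENNReal))).comp (meas_changes n)
  have h1 := lint_le h
  have h2 : ∀ᵐ ω ∂(bondLaw p), (⨆ n, (changes n ω : ENNReal)) < ⊤ :=
    ae_lt_top (Measurable.iSup hm) (ne_top_of_le_ne_top ENNReal.ofReal_ne_top h1)
  filter_upwards [h2] with ω hω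
  obtain ⟨K, hK⟩ := ENNReal.exists_nat_gt hω.ne
  refine ⟨K, ?_⟩
  rintro _ ⟨n, rfl⟩
  have : (changes n ω : ENNReal) < K := lt_of_le_of_lt (le_iSup (fun n => (changes n ω : ENNReal)) n) hK
  exact_mod_cast this.le

/-- expectations of bounded functions of the total number of changes -/
theorem int_total {p : unitInterval} (hb : ∀ᵐ ω ∂(bondLaw p), BddAbove (Set.range fun n => changes n ω))
    {g : ℕ → ℝ} {B : ℝ} (hg : ∀ k, |g k| ≤ B) :
    Tendsto (fun n : ℕ => EE p n g) atTop (𝓝 (∫ ω, g (total ω) ∂(bondLaw p))) := by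
  have h : Tendsto (fun n : ℕ => ∫ ω, g (changes n ω) ∂(bondLaw p)) atTop
      (𝓝 (∫ ω, g (total ω) ∂(bondLaw p))) := by
    apply tendsto_integral_of_dominated_convergence (fun _ => B)
    · intro n
      exact ((measurable_from_top (f := g)).comp (meas_changes n)).aestronglyMeasurable
    · exact integrable_const _
    · intro n
      exact Eventually.of_forall fun ω => hg _
    · filter_upwards [hb] with ω hω
      obtain ⟨n0, hn0⟩ := total_ev hω
      apply tendsto_const_nhds.congr'
      filter_upwards [eventually_ge_atTop n0] with n hn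
      rw [hn0 n hn]
  simp only [int_ch] at h
  exact h

/-- the mean of the total number of changes -/
theorem mean_total {p : unitInterval} {C : ℝ} (hC : ∀ n : ℕ, EE p n (fun k => (k:ℝ)) ≤ C) :
    Integrable (fun ω => (total ω : ℝ)) (bondLaw p) ∧
    Tendsto (fun n : ℕ => EE p n (fun k => (k:ℝ))) atTop
      (𝓝 (∫ ω, (total ω : ℝ) ∂(bondLaw p))) := by
  have hb := ae_bdd hC
  have hm : ∀ n : ℕ, Measurable (fun ω => (changes n ω : ℝ)) := fun n =>
    (measurable_from_top (f := fun k : ℕ => (k : ℝ))).comp (meas_changes n)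
  have hmt : Measurable (fun ω => (total ω : ℝ)) :=
    (measurable_from_top (f := fun k : ℕ => (k : ℝ))).comp meas_total
  have hint : ∀ n : ℕ, Integrable (fun ω => (changes n ω : ℝ)) (bondLaw p) := by
    intro n
    apply Integrable.of_bound (C := ((2 * n : ℕ) : ℝ)) (hm n).aestronglyMeasurable
    apply Eventually.of_forall
    intro ω
    rw [Real.norm_eq_abs, abs_of_nonneg (Nat.cast_nonneg _)]
    rw [changes_eq]
    exact_mod_cast TT_le_two (opn ω) n
  have hlim : ∀ᵐ ω ∂(bondLaw p), Tendsto (fun n : ℕ => (changes n ω : ℝ)) atTop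
      (𝓝 (total ω : ℝ)) := by
    filter_upwards [hb] with ω hω
    obtain ⟨n0, hn0⟩ := total_ev hω
    apply tendsto_const_nhds.congr'
    filter_upwards [eventually_ge_atTop n0] with n hn
    rw [hn0 n hn]
  have hI : Integrable (fun ω => (total ω : ℝ)) (bondLaw p) := by
    refine ⟨hmt.aestronglyMeasurable, ?_⟩
    rw [hasFiniteIntegral_iff_enorm]
    refine lt_of_le_of_lt ?_ (ENNReal.ofReal_lt_top (r := C))
    refine le_trans ?_ (lint_le hC)
    apply lintegral_mono
    intro ω
    have : ‖(total ω : ℝ)‖ₑ = (total ω : ENNReal) := by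
      rw [Real.enorm_eq_ofReal (Nat.cast_nonneg _), ENNReal.ofReal_natCast]
    exact this.le.trans (total_sup ω)
  refine ⟨hI, ?_⟩
  have h : Tendsto (fun n : ℕ => ∫ ω, (changes n ω : ℝ) ∂(bondLaw p)) atTop
      (𝓝 (∫ ω, (total ω : ℝ) ∂(bondLaw p))) := by
    apply tendsto_integral_of_dominated_convergence (fun ω => (total ω : ℝ))
    · intro n
      exact (hm n).aestronglyMeasurable
    · exact hI
    · intro n
      filter_upwards [hb] with ω hω
      rw [Real.norm_eq_abs, abs_of_nonneg (Nat.cast_nonneg _)]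
      exact_mod_cast total_le hω n
    · exact hlim
  have e : ∀ n : ℕ, ∫ ω, (changes n ω : ℝ) ∂(bondLaw p) = EE p n (fun k => (k:ℝ)) := fun n =>
    int_ch p n (fun k => (k:ℝ))
  simp only [e] at h
  exact h

end Pool.Agent.H953.Nst
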