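import Pool.Agent.H953.Nst24

/-!
Few layers: large deviations, uniformly in the parameter.
-/

set_option autoImplicit false

namespace Pool.Agent.H953.Nst

open H974 H906.Cyl Finset Pool.Agent.W819.EN Pool.Agent.W819.NC
open Pool.Agent.H863R2.NL (psi)
open Filter
open scoped Topology

theorem EE_pow (p t : ℝ) (n : ℕ) : EE p n (fun k => t ^ k) = Gq p t 0 n := rfl

theorem EE_id (p : ℝ) (n : ℕ) : EE p n (fun k => (k:ℝ)) = E1 p 0 n := rfl

theorem EE_mono {p : ℝ} (p0 : 0 ≤ p) (p1 : p ≤ 1) (n : ℕ) {g g' : ℕ → ℝ} (h : ∀ k, g k ≤ g' k) :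
    EE p n g ≤ EE p n g' := Ex_mono (okP p0 p1) (fun _ _ => h _)

theorem EE_add (p : ℝ) (n : ℕ) (g g' : ℕ → ℝ) :
    EE p n (fun k => g k + g' k) = EE p n g + EE p n g' := Ex_add _ _ _ _

theorem EE_sub (p : ℝ) (n : ℕ) (g g' : ℕ → ℝ) :
    EE p n (fun k => g k - g' k) = EE p n g - EE p n g' := Ex_sub _ _ _ _

theorem EE_mul (p : ℝ) (n : ℕ) (c : ℝ) (g : ℕ → ℝ) :
    EE p n (fun k => c * g k) = c * EE p n g := Ex_mul_left _ _ _ _

theorem EE_const (p : ℝ) (n : ℕ) (c : ℝ) : EE p n (fun _ => c) = c := Ex_const _ _ _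

/-- exponential moments, `s ≤ 0` -/
theorem EE_exp {s : ℝ} (hs : s ≤ 0) : ∃ c C : ℝ, 0 < c ∧ 0 < C ∧ ∀ p : ℝ, 0 ≤ p → p ≤ 1 →
    ∀ n : ℕ, 1 ≤ n → c * mn p n ^ Lam s ≤ EE p n (fun k => Real.exp (s * k)) ∧
      EE p n (fun k => Real.exp (s * k)) ≤ C * mn p n ^ Lam s := by
  obtain ⟨c, C, hc, hC, h⟩ := Gq_full (t := Real.exp s) (Real.exp_pos s) (Real.exp_le_one_iff.2 hs)
  refine ⟨c, C, hc, hC, ?_⟩
  intro p p0 p1 n hn
  have e : EE p n (fun k => Real.exp (s * k)) = Gq p (Real.exp s) 0 n := by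
    rw [← EE_pow]
    congr 1
    funext k
    rw [← Real.exp_nat_mul]
    ring_nf
  rw [e]
  exact h p p0 p1 n hn

/-- the exponential change of measure -/
theorem ldp_pt {x s ν δ h L : ℝ} (hh : 0 < h) (hL : 0 < L) :
    Real.exp (s * x) - Real.exp (-(h * (ν + δ) * L)) * Real.exp ((s + h) * x)
      - Real.exp (h * (ν - δ) * L) * Real.exp ((s - h) * x) ≤
    Real.exp ((s * ν + |s| * δ) * L) * ind (|x - ν * L| ≤ δ * L) := by
  have p1 : 0 < Real.exp (-(h * (ν + δ) * L)) * Real.exp ((s + h) * x) := by positivity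
  have p2 : 0 < Real.exp (h * (ν - δ) * L) * Real.exp ((s - h) * x) := by positivity
  by_cases hc : |x - ν * L| ≤ δ * L
  · rw [ind_of hc, mul_one]
    have h1 : s * x ≤ (s * ν + |s| * δ) * L := by
      have h2 : s * (x - ν * L) ≤ |s| * |x - ν * L| := by
        rw [← abs_mul]; exact le_abs_self _
      have h3 := mul_le_mul_of_nonneg_left hc (abs_nonneg s)
      nlinarith
    have := Real.exp_le_exp.2 h1
    linarith
  · rw [ind_not_of hc, mul_zero]
    push Not at hc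
    rcases lt_or_ge (x - ν * L) 0 with h0 | h0
    · rw [abs_of_neg h0] at hc
      have h1 : s * x ≤ h * (ν - δ) * L + (s - h) * x := by nlinarith
      have h2 := Real.exp_le_exp.2 h1
      rw [Real.exp_add] at h2
      linarith
    · rw [abs_of_nonneg h0] at hc
      have h1 : s * x ≤ -(h * (ν + δ) * L) + (s + h) * x := by nlinarith
      have h2 := Real.exp_le_exp.2 h1
      rw [Real.exp_add] at h2
      linarith

theorem eventually_pow {c ε : ℝ} (hc : 0 < c) (hε : 0 < ε) :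
    ∃ S0 : ℝ, 1 < S0 ∧ ∀ S : ℝ, S0 ≤ S → c ≤ S ^ ε := by
  have h := (tendsto_rpow_atTop hε).eventually_ge_atTop c
  obtain ⟨S1, h1⟩ := eventually_atTop.1 h
  exact ⟨max S1 2, lt_max_of_lt_right (by norm_num), fun S hS => h1 S ((le_max_left _ _).trans hS)⟩

/-- few layers: upper bound -/
theorem few_up {s : ℝ} (hs : s ≤ 0) {ε : ℝ} (hε : 0 < ε) : ∃ S0 : ℝ, 1 < S0 ∧ ∀ p : ℝ, 0 ≤ p →
    p ≤ 1 → ∀ n : ℕ, 1 ≤ n → S0 ≤ mn p n →
    EE p n (fun k => ind ((k:ℝ) ≤ dL s * Real.log (mn p n))) ≤ mn p n ^ (-(gam s) + ε) := by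
  obtain ⟨c, C, hc, hC, h⟩ := EE_exp hs
  obtain ⟨S0, hS1, hS0⟩ := eventually_pow hC hε
  refine ⟨S0, hS1, ?_⟩
  intro p p0 p1 n hn hS
  set S := mn p n with hSd
  have hSp : 0 < S := by linarith
  have h1 : EE p n (fun k => ind ((k:ℝ) ≤ dL s * Real.log S)) ≤
      EE p n (fun k => Real.exp (-(s * (dL s * Real.log S))) * Real.exp (s * k)) := by
    apply EE_mono p0 p1
    intro k
    by_cases hk : (k:ℝ) ≤ dL s * Real.log S
    · rw [ind_of hk, ← Real.exp_add]
      apply Real.one_le_exp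
      nlinarith
    · rw [ind_not_of hk]; positivity
  rw [EE_mul] at h1
  refine h1.trans ?_
  have e1 : Real.exp (-(s * (dL s * Real.log S))) = S ^ (-(s * dL s)) := by
    rw [Real.rpow_def_of_pos hSp]; ring_nf
  rw [e1]
  calc S ^ (-(s * dL s)) * EE p n (fun k => Real.exp (s * k))
      ≤ S ^ (-(s * dL s)) * (C * S ^ Lam s) :=
        mul_le_mul_of_nonneg_left (h p p0 p1 n hn).2 (by positivity)
    _ = C * S ^ (-(gam s)) := by
        have : S ^ (-(gam s)) = S ^ (-(s * dL s)) * S ^ Lam s := by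
          rw [← Real.rpow_add hSp]; unfold gam; ring_nf
        rw [this]; ring
    _ ≤ S ^ ε * S ^ (-(gam s)) := mul_le_mul_of_nonneg_right (hS0 S hS) (by positivity)
    _ = _ := by rw [← Real.rpow_add hSp]; ring_nf

/-- few layers: lower bound -/
theorem few_lo {s : ℝ} (hs : s < 0) {ε : ℝ} (hε : 0 < ε) : ∃ S0 : ℝ, 1 < S0 ∧ ∀ p : ℝ, 0 ≤ p →
    p ≤ 1 → ∀ n : ℕ, 1 ≤ n → S0 ≤ mn p n → mn p n ^ (-(gam s) - ε) ≤
    EE p n (fun k => ind ((k:ℝ) ≤ dL s * Real.log (mn p n))) := by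
  -- the smaller density
  obtain ⟨s1, hs1, hg1⟩ : ∃ s1 < s, gam s1 ≤ gam s + ε / 4 := by
    have hcont := legB.gcont.continuousAt (x := s)
    have h1 : ∀ᶠ y in 𝓝 s, gam y < gam s + ε / 4 := hcont.eventually_lt_const (by linarith)
    obtain ⟨r, hr, h2⟩ := Metric.eventually_nhds_iff.1 h1
    refine ⟨s - r / 2, by linarith, (h2 ?_).le⟩
    rw [Real.dist_eq]
    rw [show s - r / 2 - s = -(r / 2) by ring, abs_neg, abs_of_pos (by linarith)]
    linarith
  have hs10 : s1 < 0 := by linarith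
  have hν : dL s1 < dL s := legA.mono hs1
  obtain ⟨δ, hδ, hδ1, hδ2⟩ : ∃ δ : ℝ, 0 < δ ∧ dL s1 + δ ≤ dL s ∧ |s1| * δ ≤ ε / 4 := by
    have h1 : 0 < |s1| := abs_pos.2 hs10.ne
    refine ⟨min (dL s - dL s1) (ε / 4 / |s1|), by apply lt_min; linarith; positivity, ?_, ?_⟩
    · have := min_le_left (dL s - dL s1) (ε / 4 / |s1|)
      linarith
    · have := mul_le_mul_of_nonneg_left (min_le_right (dL s - dL s1) (ε / 4 / |s1|)) h1.le
      refine this.trans (le_of_eq ?_)
      field_simp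
  -- the step
  obtain ⟨h, hh, hh0, hd1, hd2⟩ : ∃ h : ℝ, 0 < h ∧ s1 + h ≤ 0 ∧
      Lam (s1 + h) ≤ Lam s1 + h * dL s1 + h * (δ / 2) ∧
      Lam (s1 - h) ≤ Lam s1 - h * dL s1 + h * (δ / 2) := by
    have hd := legA.der s1
    have h1 := hasDerivAt_iff_isLittleO.1 hd
    have h2 := h1.def (show 0 < δ / 2 by linarith)
    obtain ⟨r, hr, h3⟩ := Metric.eventually_nhds_iff.1 h2
    refine ⟨min (r / 2) (-s1), by apply lt_min; linarith; linarith, ?_, ?_, ?_⟩
    · have := min_le_right (r / 2) (-s1)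
      linarith
    · set h := min (r / 2) (-s1) with hhd
      have hpos : 0 < h := by apply lt_min; linarith; linarith
      have hle : h ≤ r / 2 := min_le_left _ _
      have := h3 (y := s1 + h) (by
        rw [Real.dist_eq, add_sub_cancel_left, abs_of_pos hpos]; linarith)
      rw [add_sub_cancel_left, Real.norm_eq_abs, Real.norm_eq_abs, abs_of_pos hpos,
        smul_eq_mul] at this
      have h4 := (abs_le.1 this).2
      linarith
    · set h := min (r / 2) (-s1) with hhd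
      have hpos : 0 < h := by apply lt_min; linarith; linarith
      have hle : h ≤ r / 2 := min_le_left _ _
      have := h3 (y := s1 - h) (by
        rw [Real.dist_eq, show s1 - h - s1 = -h by ring, abs_neg, abs_of_pos hpos]; linarith)
      rw [show s1 - h - s1 = -h by ring, Real.norm_eq_abs, Real.norm_eq_abs, abs_neg,
        abs_of_pos hpos, smul_eq_mul] at this
      have h4 := (abs_le.1 this).2
      linarith
  obtain ⟨c, C, hc, hC, m1⟩ := EE_exp hs10.le
  obtain ⟨c2, C2, hc2, hC2, m2⟩ := EE_exp hh0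
  obtain ⟨c3, C3, hc3, hC3, m3⟩ := EE_exp (show s1 - h ≤ 0 by linarith)
  obtain ⟨S1, hS1, hS1'⟩ := eventually_pow (c := 2 * (C2 + C3) / c) (ε := h * (δ / 2))
    (by positivity) (by positivity)
  obtain ⟨S2, hS2, hS2'⟩ := eventually_pow (c := 2 / c) (ε := ε / 2) (by positivity) (by positivity)
  refine ⟨max S1 S2, lt_max_of_lt_left hS1, ?_⟩
  intro p p0 p1 n hn hS
  set S := mn p n with hSd
  have hSS1 : S1 ≤ S := (le_max_left _ _).trans hS
  have hSS2 : S2 ≤ S := (le_max_right _ _).trans hS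
  have hSp : 0 < S := by linarith
  have hL : 0 < Real.log S := Real.log_pos (by linarith)
  have key : EE p n (fun k => Real.exp (s1 * k)) -
      Real.exp (-(h * (dL s1 + δ) * Real.log S)) * EE p n (fun k => Real.exp ((s1 + h) * k)) -
      Real.exp (h * (dL s1 - δ) * Real.log S) * EE p n (fun k => Real.exp ((s1 - h) * k)) ≤
      Real.exp ((s1 * dL s1 + |s1| * δ) * Real.log S) *
        EE p n (fun k => ind ((k:ℝ) ≤ dL s * Real.log S)) := by
    rw [← EE_mul, ← EE_mul, ← EE_mul, ← EE_sub, ← EE_sub]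
    apply EE_mono p0 p1
    intro k
    refine (ldp_pt hh hL).trans ?_
    apply mul_le_mul_of_nonneg_left _ (by positivity)
    apply ind_mono
    intro hk
    have h1 := (abs_le.1 hk).2
    have h2 := mul_le_mul_of_nonneg_right hδ1 hL.le
    linarith
  have a1 := (m1 p p0 p1 n hn).1
  have a2 := (m2 p p0 p1 n hn).2
  have a3 := (m3 p p0 p1 n hn).2
  rw [← hSd] at a1 a2 a3
  have ex : ∀ y : ℝ, Real.exp (y * Real.log S) = S ^ y := fun y => by
    rw [Real.rpow_def_of_pos hSp, mul_comm]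
  have ex2 : Real.exp (-(h * (dL s1 + δ) * Real.log S)) = S ^ (-(h * (dL s1 + δ))) := by
    rw [← ex]; ring_nf
  rw [ex2, ex, ex] at key
  have hSx : 0 < S ^ Lam s1 := by positivity
  have hq : 0 < S ^ (-(h * (δ / 2))) := by positivity
  have b2 : S ^ (-(h * (dL s1 + δ))) * EE p n (fun k => Real.exp ((s1 + h) * k)) ≤
      C2 * (S ^ Lam s1 * S ^ (-(h * (δ / 2)))) := by
    calc _ ≤ S ^ (-(h * (dL s1 + δ))) * (C2 * S ^ Lam (s1 + h)) :=
          mul_le_mul_of_nonneg_left a2 (by positivity)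
      _ = C2 * S ^ (-(h * (dL s1 + δ)) + Lam (s1 + h)) := by rw [Real.rpow_add hSp]; ring
      _ ≤ C2 * S ^ (Lam s1 + -(h * (δ / 2))) := by
          apply mul_le_mul_of_nonneg_left _ hC2.le
          apply Real.rpow_le_rpow_of_exponent_le (by linarith)
          nlinarith
      _ = _ := by rw [Real.rpow_add hSp]
  have b3 : S ^ (h * (dL s1 - δ)) * EE p n (fun k => Real.exp ((s1 - h) * k)) ≤
      C3 * (S ^ Lam s1 * S ^ (-(h * (δ / 2)))) := by
    calc _ ≤ S ^ (h * (dL s1 - δ)) * (C3 * S ^ Lam (s1 - h)) :=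
          mul_le_mul_of_nonneg_left a3 (by positivity)
      _ = C3 * S ^ (h * (dL s1 - δ) + Lam (s1 - h)) := by rw [Real.rpow_add hSp]; ring
      _ ≤ C3 * S ^ (Lam s1 + -(h * (δ / 2))) := by
          apply mul_le_mul_of_nonneg_left _ hC3.le
          apply Real.rpow_le_rpow_of_exponent_le (by linarith)
          nlinarith
      _ = _ := by rw [Real.rpow_add hSp]
  have b4 : (C2 + C3) * S ^ (-(h * (δ / 2))) ≤ c / 2 := by
    have h1 := hS1' S hSS1
    rw [div_le_iff₀ hc] at h1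
    have h2 : S ^ (h * (δ / 2)) * S ^ (-(h * (δ / 2))) = 1 := by
      rw [← Real.rpow_add hSp, add_neg_cancel, Real.rpow_zero]
    have h3 := mul_le_mul_of_nonneg_right h1 hq.le
    nlinarith
  have b5 : c / 2 * S ^ Lam s1 ≤ S ^ (s1 * dL s1 + |s1| * δ) *
      EE p n (fun k => ind ((k:ℝ) ≤ dL s * Real.log S)) := by
    have h1 := mul_le_mul_of_nonneg_right b4 hSx.le
    nlinarith
  have b6 : 1 ≤ c / 2 * S ^ (ε / 2) := by
    have h1 := hS2' S hSS2
    rw [div_le_iff₀ hc] at h1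
    linarith
  have hP : 0 < S ^ (s1 * dL s1 + |s1| * δ) := by positivity
  have b7 : S ^ (-(gam s) - ε) * S ^ (s1 * dL s1 + |s1| * δ) ≤ c / 2 * S ^ Lam s1 := by
    rw [← Real.rpow_add hSp]
    calc S ^ (-(gam s) - ε + (s1 * dL s1 + |s1| * δ)) ≤ S ^ (Lam s1 + -(ε / 2)) := by
          apply Real.rpow_le_rpow_of_exponent_le (by linarith)
          have : gam s1 = s1 * dL s1 - Lam s1 := rfl
          linarith
      _ = S ^ Lam s1 * S ^ (-(ε / 2)) := by rw [Real.rpow_add hSp]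
      _ ≤ S ^ Lam s1 * (c / 2) := by
          apply mul_le_mul_of_nonneg_left _ hSx.le
          have h2 : S ^ (ε / 2) * S ^ (-(ε / 2)) = 1 := by
            rw [← Real.rpow_add hSp, add_neg_cancel, Real.rpow_zero]
          have h3 : 0 < S ^ (-(ε / 2)) := by positivity
          have h4 := mul_le_mul_of_nonneg_right b6 h3.le
          nlinarith
      _ = _ := by ring
  have b8 := b7.trans b5
  rw [mul_comm] at b8
  exact le_of_mul_le_mul_left b8 hP

end Pool.Agent.H953.Nst
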