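import Pool.Agent.H953.Nst25

/-!
Concentration of the number of layers; passage to the total number of layers.
-/

set_option autoImplicit false

namespace Pool.Agent.H953.Nst

open H974 H906.Cyl Finset Pool.Agent.W819.EN Pool.Agent.W819.NC
open Pool.Agent.H863R2.NL (psi changes meas_changes)
open Filter MeasureTheory
open scoped Topology

theorem xi_ge {p : ℝ} (hp : p ≠ 1/2) (p0 : 0 ≤ p) (p1 : p ≤ 1) : 2 ≤ xi p := by
  rcases lt_or_gt_of_ne hp with h | h
  · rw [← xi_symm]
    exact xi_two (by linarith) (by linarith)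
  · exact xi_two h p1

theorem mn_one {p : ℝ} (p0 : 0 ≤ p) (p1 : p ≤ 1) {n : ℕ} (hn : 1 ≤ n) : 1 ≤ mn p n := by
  have hn1 : (1:ℝ) ≤ n := by exact_mod_cast hn
  unfold mn
  split_ifs with h
  · exact hn1
  · exact le_min hn1 (by have := xi_ge h p0 p1; linarith)

theorem ev_mn {p : ℝ} (hp : p ≠ 1/2) : ∀ᶠ n : ℕ in atTop, mn p n = xi p ∧ 1 ≤ n := by
  obtain ⟨k, hk⟩ := exists_nat_ge (xi p)
  filter_upwards [eventually_ge_atTop (k + 1)] with n hn
  exact ⟨mn_ge hp (hk.trans (by exact_mod_cast (by omega : k ≤ n))), by omega⟩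

theorem nuc_pos : 0 < nuc := by unfold nuc; positivity

theorem few_s {ν : ℝ} (h0 : 0 < ν) (h1 : ν < nuc) : ∃ s < 0, dL s = ν ∧ Rate ν = gam s ∧
    0 < gam s := by
  obtain ⟨s, hs⟩ := legB.surj ν h0
  have hs0 : s < 0 := by
    by_contra hc
    push Not at hc
    have h2 : dL 0 ≤ dL s := legA.mono.monotone hc
    rw [legA.typ, hs] at h2
    linarith
  refine ⟨s, hs0, hs, by rw [← hs, legB.rate], ?_⟩
  have := legB.gneg (Set.mem_Iic.2 hs0.le) (Set.mem_Iic.2 le_rfl) hs0
  rw [legB.gzero] at this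
  exact this

theorem log_mul_pow {γ : ℝ} (hγ : 0 < γ) {S : ℝ} (hS : 1 ≤ S) :
    Real.log S * S ^ (-γ) ≤ 1 / γ := by
  have hSp : 0 < S := by linarith
  have h1 : S ^ (-γ) = Real.exp (-(γ * Real.log S)) := by
    rw [Real.rpow_def_of_pos hSp]; ring_nf
  have h2 := Real.add_one_le_exp (γ * Real.log S)
  have h3 : Real.exp (γ * Real.log S) * Real.exp (-(γ * Real.log S)) = 1 := by
    rw [← Real.exp_add, add_neg_cancel, Real.exp_zero]
  have h4 : 0 < Real.exp (-(γ * Real.log S)) := Real.exp_pos _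
  rw [h1, le_div_iff₀ hγ]
  nlinarith

/-- the number of layers concentrates -/
theorem conc {ε : ℝ} (hε : 0 < ε) : ∃ C : ℝ, 0 < C ∧ ∀ p : ℝ, 0 ≤ p → p ≤ 1 → ∀ n : ℕ, 1 ≤ n →
    EE p n (fun k => |(k:ℝ) - nuc * Real.log (mn p n)|) ≤ ε * Real.log (mn p n) + C := by
  obtain ⟨C1, hC1, h1⟩ := E1_full
  have hnuc := nuc_pos
  obtain ⟨ε', hε', hε1, hε2⟩ : ∃ ε' : ℝ, 0 < ε' ∧ 2 * ε' ≤ ε ∧ ε' < nuc :=
    ⟨min (ε / 2) (nuc / 2), by apply lt_min <;> linarith,
      by have := min_le_left (ε / 2) (nuc / 2); linarith,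
      by have := min_le_right (ε / 2) (nuc / 2); linarith⟩
  obtain ⟨s, hs0, hs, -, hg⟩ := few_s (ν := nuc - ε') (by linarith) (by linarith)
  obtain ⟨S0, hS0, hup⟩ := few_up hs0.le (show 0 < gam s / 2 by linarith)
  refine ⟨C1 + 2 * (nuc * Real.log S0) + 2 * (nuc * (1 / (gam s / 2))), ?_, ?_⟩
  · have := Real.log_pos hS0
    positivity
  intro p p0 p1 n hn
  have hS1 := mn_one p0 p1 hn
  have hm := h1 p p0 p1 n hn
  set S := mn p n with hSd
  have hSp : 0 < S := by linarith
  have hL : 0 ≤ Real.log S := Real.log_nonneg hS1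
  have hLS0 := Real.log_pos hS0
  have key : EE p n (fun k => |(k:ℝ) - nuc * Real.log S|) ≤
      (E1 p 0 n - nuc * Real.log S) + 2 * (ε' * Real.log S +
        nuc * Real.log S * EE p n (fun k => ind ((k:ℝ) ≤ (nuc - ε') * Real.log S))) := by
    have e : (E1 p 0 n - nuc * Real.log S) + 2 * (ε' * Real.log S +
        nuc * Real.log S * EE p n (fun k => ind ((k:ℝ) ≤ (nuc - ε') * Real.log S))) =
        EE p n (fun k => ((k:ℝ) - nuc * Real.log S) + 2 * (ε' * Real.log S +
        nuc * Real.log S * ind ((k:ℝ) ≤ (nuc - ε') * Real.log S))) := by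
      rw [EE_add p n (fun k => (k:ℝ) - nuc * Real.log S) (fun k => 2 * (ε' * Real.log S +
        nuc * Real.log S * ind ((k:ℝ) ≤ (nuc - ε') * Real.log S))),
        EE_sub p n (fun k => (k:ℝ)) (fun _ => nuc * Real.log S), EE_const,
        EE_mul p n 2 (fun k => ε' * Real.log S +
          nuc * Real.log S * ind ((k:ℝ) ≤ (nuc - ε') * Real.log S)),
        EE_add p n (fun _ => ε' * Real.log S)
          (fun k => nuc * Real.log S * ind ((k:ℝ) ≤ (nuc - ε') * Real.log S)), EE_const,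
        EE_mul p n (nuc * Real.log S) (fun k => ind ((k:ℝ) ≤ (nuc - ε') * Real.log S)), EE_id]
    rw [e]
    apply EE_mono p0 p1
    intro k
    have hk0 : (0:ℝ) ≤ k := Nat.cast_nonneg k
    have hε'L : 0 ≤ ε' * Real.log S := by positivity
    have hnL : 0 ≤ nuc * Real.log S := by positivity
    by_cases hk : (k:ℝ) ≤ (nuc - ε') * Real.log S
    · rw [ind_of hk, abs_le]
      constructor <;> nlinarith
    · rw [ind_not_of hk]
      push Not at hk
      rw [abs_le]
      constructor <;> nlinarith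
  have hP : nuc * Real.log S * EE p n (fun k => ind ((k:ℝ) ≤ (nuc - ε') * Real.log S)) ≤
      nuc * Real.log S0 + nuc * (1 / (gam s / 2)) := by
    have hx0 : 0 ≤ nuc * (1 / (gam s / 2)) := by positivity
    have hind : EE p n (fun k => ind ((k:ℝ) ≤ (nuc - ε') * Real.log S)) ≤ 1 := by
      rw [← EE_const p n 1]
      exact EE_mono p0 p1 n (fun k => ind_le_one _)
    rcases le_total S S0 with h | h
    · have h2 := Real.log_le_log hSp h
      have h3 : nuc * Real.log S * EE p n (fun k => ind ((k:ℝ) ≤ (nuc - ε') * Real.log S)) ≤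
          nuc * Real.log S * 1 := mul_le_mul_of_nonneg_left hind (by positivity)
      have h4 := mul_le_mul_of_nonneg_left h2 hnuc.le
      linarith
    · have h2 := hup p p0 p1 n hn h
      rw [hs, ← hSd] at h2
      have h3 := log_mul_pow (γ := gam s / 2) (by linarith) hS1
      have e2 : -(gam s) + gam s / 2 = -(gam s / 2) := by ring
      rw [e2] at h2
      have h4 : nuc * Real.log S * EE p n (fun k => ind ((k:ℝ) ≤ (nuc - ε') * Real.log S)) ≤
          nuc * Real.log S * S ^ (-(gam s / 2)) := mul_le_mul_of_nonneg_left h2 (by positivity)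
      have h5 := mul_le_mul_of_nonneg_left h3 hnuc.le
      have h6 : 0 ≤ nuc * Real.log S0 := by positivity
      nlinarith
  have hm2 := (abs_le.1 hm).2
  have h7 := mul_le_mul_of_nonneg_right hε1 hL
  linarith

/-- bounded means for `p ≠ 1/2` -/
theorem EE_bdd (p : unitInterval) (hp : (p:ℝ) ≠ 1/2) : ∃ C : ℝ, ∀ n : ℕ,
    EE p n (fun k => (k:ℝ)) ≤ C := by
  obtain ⟨C1, hC1, h1⟩ := E1_full
  have hx := xi_ge hp p.2.1 p.2.2
  refine ⟨nuc * Real.log (xi p) + C1, ?_⟩
  have hnuc := nuc_pos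
  have hl : 0 ≤ Real.log (xi p) := Real.log_nonneg (by linarith)
  intro n
  rcases Nat.eq_zero_or_pos n with rfl | hn
  · have : EE p 0 (fun k => (k:ℝ)) ≤ EE p 0 (fun _ => 0) := by
      apply Ex_mono (okP p.2.1 p.2.2)
      intro F _
      have := geoNA.le F (0, 0) 0 0
      have h0 : NA F (0, 0) 0 0 = 0 := by omega
      simp only [h0, Nat.cast_zero, le_refl]
    rw [EE_const] at this
    have : 0 ≤ nuc * Real.log (xi p) := by positivity
    linarith
  · have h2 := (abs_le.1 (h1 p p.2.1 p.2.2 n hn)).2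
    have h3 : mn p n ≤ xi p := by
      unfold mn; rw [if_neg hp]; exact min_le_right _ _
    have h4 := Real.log_le_log (mn_pos hn) h3
    have h5 := mul_le_mul_of_nonneg_left h4 hnuc.le
    rw [EE_id]
    linarith

/-- bounds for all large `n` pass to the total number of changes -/
theorem total_bd {p : unitInterval} (hp : (p:ℝ) ≠ 1/2) {g : ℕ → ℝ} {B a b : ℝ}
    (hg : ∀ k, |g k| ≤ B) (h : ∀ n : ℕ, 1 ≤ n → mn p n = xi p → a ≤ EE p n g ∧ EE p n g ≤ b) :
    a ≤ ∫ ω, g (total ω) ∂(bondLaw p) ∧ ∫ ω, g (total ω) ∂(bondLaw p) ≤ b := by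
  obtain ⟨C, hC⟩ := EE_bdd p hp
  have hl := int_total (ae_bdd hC) hg
  constructor
  · apply ge_of_tendsto hl
    filter_upwards [ev_mn hp] with n hn
    exact (h n hn.2 hn.1).1
  · apply le_of_tendsto hl
    filter_upwards [ev_mn hp] with n hn
    exact (h n hn.2 hn.1).2

theorem prob_total (p : unitInterval) (x : ℝ) :
    ∫ ω, ind ((total ω : ℝ) ≤ x) ∂(bondLaw p) = (bondLaw p).real {ω | (total ω : ℝ) ≤ x} := by
  have hms : MeasurableSet {ω : sqLattice.edgeSet → Bool | (total ω : ℝ) ≤ x} :=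
    measurableSet_le ((measurable_from_top (f := fun k : ℕ => (k : ℝ))).comp meas_total)
      measurable_const
  have e : (fun ω : sqLattice.edgeSet → Bool => ind ((total ω : ℝ) ≤ x)) =
      ({ω | (total ω : ℝ) ≤ x} : Set (sqLattice.edgeSet → Bool)).indicator (fun _ => (1:ℝ)) := by
    funext ω
    by_cases h : (total ω : ℝ) ≤ x
    · rw [ind_of h, Set.indicator_of_mem (by exact h)]
    · rw [ind_not_of h, Set.indicator_of_notMem (by exact h)]
  rw [e, integral_indicator_const _ hms]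
  simp

theorem abs_total {p : unitInterval} (hp : (p:ℝ) ≠ 1/2) {a b : ℝ}
    (h : ∀ n : ℕ, 1 ≤ n → mn p n = xi p → EE p n (fun k => |(k:ℝ) - a|) ≤ b) :
    ∫ ω, |(total ω : ℝ) - a| ∂(bondLaw p) ≤ b := by
  obtain ⟨C, hC⟩ := EE_bdd p hp
  have hb := ae_bdd hC
  have hI := (mean_total hC).1
  have hm : ∀ n : ℕ, Measurable (fun ω => (changes n ω : ℝ)) := fun n =>
    (measurable_from_top (f := fun k : ℕ => (k : ℝ))).comp (meas_changes n)
  have hl : Tendsto (fun n : ℕ => ∫ ω, |(changes n ω : ℝ) - a| ∂(bondLaw p)) atTop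
      (𝓝 (∫ ω, |(total ω : ℝ) - a| ∂(bondLaw p))) := by
    apply tendsto_integral_of_dominated_convergence (fun ω => (total ω : ℝ) + |a|)
    · intro n
      exact ((hm n).sub measurable_const).abs.aestronglyMeasurable
    · exact hI.add (integrable_const _)
    · intro n
      filter_upwards [hb] with ω hω
      rw [Real.norm_eq_abs, abs_abs]
      have h1 : (changes n ω : ℝ) ≤ total ω := by exact_mod_cast total_le hω n
      have h2 := abs_sub (changes n ω : ℝ) a
      rw [abs_of_nonneg (Nat.cast_nonneg _ : (0:ℝ) ≤ changes n ω)] at h2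
      linarith
    · filter_upwards [hb] with ω hω
      obtain ⟨n0, hn0⟩ := total_ev hω
      apply tendsto_const_nhds.congr'
      filter_upwards [eventually_ge_atTop n0] with n hn
      rw [hn0 n hn]
  have e : ∀ n : ℕ, ∫ ω, |(changes n ω : ℝ) - a| ∂(bondLaw p) = EE p n (fun k => |(k:ℝ) - a|) :=
    fun n => int_ch p n (fun k => |(k:ℝ) - a|)
  simp only [e] at hl
  apply le_of_tendsto hl
  filter_upwards [ev_mn hp] with n hn
  exact h n hn.2 hn.1

end Pool.Agent.H953.Nst
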