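import Pool.Agent.H953.Nst2
import Pool.Graph.R_pool_sql_team_seeded_3dad9d7b.NH39.W.Ann1

/-!
Probability of the arms of a pivotal edge.
-/

set_option autoImplicit false

namespace Pool.Agent.H953.Nst

open H974 H906.Cyl Finset Pool.Agent.W819.EN
open H12S (bdB blk)
open H389NS (A4a)
open Pool.Agent.NH39 (InB OutB ann_cross blk_ends notblk_ends A4a_congr)
open Pool.Agent.NH39.NC (hQ hQ_nonneg hQ_le_one le_hQ hQ_anti)
open Pool.Agent.NH39.W (pl wt wt_ratio)

/-- four arms of one of the two kinds -/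
def Ar (c : Vtx) (r k : ℕ) (G : Set Edg) : Prop := A4a c r k G ∨ A4a c r k (du G)

/-- `e` is pivotal -/
def Pvt (A B : ℤ × ℤ → Prop) (e : Edg) (G : Set Edg) : Prop :=
  ∃ K, (Cost (insert e G) A B K ∧ ¬ Cost G A B K) ∨ (Cost G A B K ∧ ¬ Cost (insert e G) A B K)

theorem Zo_s1 {c : Vtx} {k : ℕ} {p : ℤ × ℤ} (h : Zo c (k + 1) (s1 p)) : Zo c k p := by
  unfold Zo nmv s1 at *
  simp only at h
  push_cast at h
  have a1 := abs_cases (p.1 + 1 - (c.1 + c.2))
  have a2 := abs_cases (p.1 - (c.1 + c.2))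
  omega

theorem Zi_s1 {c : Vtx} {r : ℕ} {p : ℤ × ℤ} (hr : 1 ≤ r) (h : Zi c (r - 1) (s1 p)) : Zi c r p := by
  unfold Zi nmv s1 at *
  simp only at h
  push_cast [hr] at h
  have a1 := abs_cases (p.1 + 1 - (c.1 + c.2))
  have a2 := abs_cases (p.1 - (c.1 + c.2))
  omega

theorem mem_blk {c : Vtx} {k : ℕ} {e : Edg} : e ∈ blk c k ↔
    (c.1 - k ≤ e.1 ∧ e.1 + (if e.2.2 then 1 else 0) ≤ c.1 + k) ∧
      (c.2 - k ≤ e.2.1 ∧ e.2.1 + (if e.2.2 then 0 else 1) ≤ c.2 + k) := by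
  unfold H12S.blk
  obtain ⟨x, y, _ | _⟩ := e
  · rw [mem_RE_false]; simp only [Bool.false_eq_true, if_false]; omega
  · rw [mem_RE_true]; simp only [if_true]; omega

theorem sg_blk {c : Vtx} {k : ℕ} {e : Edg} (h : e ∈ blk c k) : sg e ∈ blk c (k + 1) := by
  rw [mem_blk] at h ⊢
  obtain ⟨x, y, _ | _⟩ := e
  · simp only [sg, Bool.false_eq_true, if_false, if_true] at h ⊢; push_cast; omega
  · simp only [sg, Bool.false_eq_true, if_false, if_true] at h ⊢; push_cast; omega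

theorem gs_blk {c : Vtx} {k : ℕ} {e : Edg} (h : e ∈ blk c k) : gs e ∈ blk c (k + 1) := by
  rw [mem_blk] at h ⊢
  obtain ⟨x, y, _ | _⟩ := e
  · simp only [gs, Bool.false_eq_true, if_false, if_true] at h ⊢; push_cast; omega
  · simp only [gs, Bool.false_eq_true, if_false, if_true] at h ⊢; push_cast; omega

theorem self_blk (e : Edg) : e ∈ blk (e.1, e.2.1) 1 ∧ gs e ∈ blk (e.1, e.2.1) 1 := by
  rw [mem_blk, mem_blk]
  obtain ⟨x, y, _ | _⟩ := e
  · simp only [gs, Bool.false_eq_true, if_false, if_true]; push_cast; omega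
  · simp only [gs, Bool.false_eq_true, if_false, if_true]; push_cast; omega

theorem blk_mono {c : Vtx} {r k : ℕ} (h : r ≤ k) : blk c r ⊆ blk c k := by
  intro e he
  rw [mem_blk] at he ⊢
  have : (r:ℤ) ≤ k := by exact_mod_cast h
  omega

theorem du_ann {c : Vtx} {r k : ℕ} {G : Set Edg} {e : Edg} (he : gs e ∉ blk c k \ blk c r) :
    A4a c r k (du (insert e G)) ↔ A4a c r k (du G) := by
  apply A4a_congr
  ext f
  simp only [Set.mem_inter_iff, Finset.mem_coe]
  constructor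
  · rintro ⟨h1, h2⟩
    refine ⟨fun h => h1 (Or.inr h), h2⟩
  · rintro ⟨h1, h2⟩
    refine ⟨?_, h2⟩
    rintro (h | h)
    · apply he
      rw [← h, gs_sg]; exact h2
    · exact h1 h

/-- four arms around a pivotal edge -/
theorem piv_out {G : Set Edg} {e : Edg} {A B : ℤ × ℤ → Prop} (heG : e ∉ G)
    (h : Pvt A B e G) {c : Vtx} {r k : ℕ} (hrk : r ≤ k)
    (he : e ∈ blk c r) (he' : gs e ∈ blk c r)
    (hA : ∀ p, A p → Zo c (k + 1) p) (hB : ∀ p, B p → Zo c (k + 1) p) : Ar c r k G := by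
  have m : ∀ p, Zo c (k + 1) p → Zo c k p := by
    intro p hp
    unfold Zo at *; push_cast at hp; omega
  obtain ⟨K, ⟨h1, h2⟩ | ⟨h1, h2⟩⟩ := h
  · exact Or.inl (A4a_out h1 h2 hrk he (fun p hp => m p (hA p hp)) (fun p hp => m p (hB p hp)))
  · right
    rw [Cost_du] at h1 h2
    rw [du_insert heG] at h1
    have := A4a_out h1 h2 hrk he' (fun p hp => Zo_s1 (hA _ hp)) (fun p hp => Zo_s1 (hB _ hp))
    refine (du_ann ?_).1 this
    intro h
    exact (Finset.mem_sdiff.1 h).2 he'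

/-- four arms in an annulus which separates the two sets from a pivotal edge -/
theorem piv_in {G : Set Edg} {e : Edg} {A B : ℤ × ℤ → Prop} (heG : e ∉ G)
    (h : Pvt A B e G) {c : Vtx} {r k : ℕ} (hr : 1 ≤ r) (hrk : r ≤ k)
    (he : e ∉ blk c (k + 1))
    (hA : ∀ p, A p → Zi c (r - 1) p) (hB : ∀ p, B p → Zi c (r - 1) p) : Ar c r k G := by
  have m : ∀ p, Zi c (r - 1) p → Zi c r p := by
    intro p hp
    unfold Zi at *; push_cast [hr] at hp; omega
  have he1 : e ∉ blk c k := fun h => he (blk_mono (by omega) h)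
  have he2 : gs e ∉ blk c k := fun h => he (by have := sg_blk h; rwa [sg_gs] at this)
  obtain ⟨K, ⟨h1, h2⟩ | ⟨h1, h2⟩⟩ := h
  · exact Or.inl (A4a_in h1 h2 hrk he1 (fun p hp => m p (hA p hp)) (fun p hp => m p (hB p hp)))
  · right
    rw [Cost_du] at h1 h2
    rw [du_insert heG] at h1
    have := A4a_in h1 h2 hrk he2 (fun p hp => Zi_s1 hr (hA _ hp)) (fun p hp => Zi_s1 hr (hB _ hp))
    refine (du_ann ?_).1 this
    intro h
    exact he2 (Finset.mem_sdiff.1 h).1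

/-- locality of the arms -/
theorem Ar_loc {c : Vtx} {r k : ℕ} (F : Finset Edg) {T : Finset Edg}
    (hT : blk c (k + 1) \ blk c (r - 1) ⊆ T) : Ar c r k (↑F : Set Edg) ↔
      Ar c r k (↑(F ∩ T) : Set Edg) := by
  have t1 : ∀ e ∈ blk c k \ blk c r, e ∈ T ∧ sg e ∈ T := by
    intro e he
    rw [Finset.mem_sdiff] at he
    constructor
    · apply hT
      rw [Finset.mem_sdiff]
      exact ⟨blk_mono (by omega) he.1, fun h => he.2 (blk_mono (by omega) h)⟩
    · apply hT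
      rw [Finset.mem_sdiff]
      refine ⟨sg_blk he.1, fun h => he.2 ?_⟩
      rcases Nat.eq_zero_or_pos r with h0 | h0
      · subst h0
        rw [mem_blk] at h
        exfalso
        simp only [Nat.zero_sub, Nat.cast_zero, sub_zero, add_zero] at h
        obtain ⟨⟨h1, h2⟩, ⟨h3, h4⟩⟩ := h
        by_cases hb : (sg e).2.2
        · simp only [hb, if_true] at h2; omega
        · simp only [hb, Bool.false_eq_true, if_false] at h4; omega
      · have := gs_blk h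
        rw [gs_sg] at this
        have e1 : r - 1 + 1 = r := by omega
        rwa [e1] at this
  unfold Ar
  apply or_congr
  · apply A4a_congr
    ext e
    simp only [Set.mem_inter_iff, Finset.mem_coe, Finset.mem_inter]
    constructor
    · rintro ⟨h1, h2⟩; exact ⟨⟨h1, (t1 e h2).1⟩, h2⟩
    · rintro ⟨⟨h1, -⟩, h2⟩; exact ⟨h1, h2⟩
  · apply A4a_congr
    ext e
    simp only [du, Set.mem_inter_iff, Finset.mem_coe, Finset.mem_inter, Set.mem_ofPred_eq]
    constructor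
    · rintro ⟨h1, h2⟩; exact ⟨fun h => h1 h.1, h2⟩
    · rintro ⟨h1, h2⟩; exact ⟨fun h => h1 ⟨h, (t1 e h2).2⟩, h2⟩

/-- `sg` as an equivalence -/
def sgE : Edg ≃ Edg := ⟨sg, gs, gs_sg, sg_gs⟩

theorem dual_hQ {q : ℝ} (q0 : 0 ≤ q) (q1 : q ≤ 1) {c : Vtx} {r k : ℕ} {S : Finset Edg}
    (hS : blk c (k + 1) ⊆ S) :
    Pr (fun _ => q) S (fun F => A4a c r k (du (↑F : Set Edg))) ≤ hQ (1 - q) r k := by
  have ok' : Ok (fun _ : Edg => 1 - q) := fun _ => ⟨by linarith, by linarith⟩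
  set S' : Finset Edg := S.map sgE.symm.toEmbedding with hS'
  have e0 : S = S'.map sgE.toEmbedding := by
    ext e
    simp only [hS', Finset.mem_map_equiv]
    simp
  have hbS : blk c k ⊆ S' := by
    intro e he
    rw [hS', Finset.mem_map_equiv]
    exact hS (sg_blk he)
  rw [e0, Pr_map]
  have e1 : Pr (fun e : Edg => (fun _ : Edg => q) (sgE.toEmbedding e)) S'
      (fun F => A4a c r k (du (↑(F.map sgE.toEmbedding) : Set Edg))) =
      Pr (fun _ => q) S' (fun F => A4a c r k (↑(S' \ F) : Set Edg)) := by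
    apply Pr_congr
    intro F hF
    apply A4a_congr
    ext e
    simp only [du, Set.mem_inter_iff, Finset.mem_coe, Set.mem_ofPred_eq, Finset.mem_map_equiv,
      Finset.mem_sdiff]
    have h1 : sgE.symm (sg e) = e := gs_sg e
    rw [h1]
    constructor
    · rintro ⟨h2, h3⟩; exact ⟨⟨hbS h3.1, h2⟩, h3⟩
    · rintro ⟨⟨-, h2⟩, h3⟩; exact ⟨h2, h3⟩
  rw [e1, ← Pr_compl (fun _ => q) S' (fun F => A4a c r k (↑F : Set Edg))]
  exact le_hQ ok' hbS

/-- the probability of the arms -/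
theorem Ar_pr : ∃ C : ℝ, 1 ≤ C ∧ ∀ q : ℝ, 0 ≤ q → q ≤ 1 → ∀ (c : Vtx) (r k : ℕ) (S : Finset Edg),
    1 ≤ r → r ≤ k → blk c (k + 1) ⊆ S →
    Pr (fun _ => q) S (fun F => Ar c r k (↑F : Set Edg)) ≤ C * ((r:ℝ) / k) ^ (5/4 : ℝ) := by
  obtain ⟨C, hC, h⟩ := pl
  refine ⟨2 * C, by linarith, ?_⟩
  intro q q0 q1 c r k S hr hrk hS
  have ok : Ok (fun _ : Edg => q) := fun _ => ⟨q0, q1⟩
  have key : ∀ p : ℝ, 0 ≤ p → p ≤ 1 → hQ p r k ≤ C * ((r:ℝ) / k) ^ (5/4 : ℝ) := by
    intro p p0 p1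
    refine (h p p0 p1 r k hr hrk).trans ?_
    rw [wt_ratio hr hrk]
    apply mul_le_mul_of_nonneg_left _ (by linarith)
    have h1 : (1 + |p - 1/2| ^ (4/3 : ℝ) * r) / (1 + |p - 1/2| ^ (4/3 : ℝ) * k) ≤ 1 := by
      rw [div_le_one (by positivity)]
      have : (r:ℝ) ≤ k := by exact_mod_cast hrk
      have h2 : 0 ≤ |p - 1/2| ^ (4/3 : ℝ) := by positivity
      nlinarith
    have h3 : 0 ≤ ((r:ℝ) / k) ^ (5/4 : ℝ) := by positivity
    nlinarith
  have h1 := Pr_or_le ok S (fun F => A4a c r k (↑F : Set Edg)) (fun F => A4a c r k (du (↑F : Set Edg)))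
  have h2 : Pr (fun _ => q) S (fun F => A4a c r k (↑F : Set Edg)) ≤ hQ q r k :=
    le_hQ ok ((blk_mono (by omega)).trans hS)
  have h3 := dual_hQ q0 q1 (r := r) hS
  have h4 := key q q0 q1
  have h5 := key (1 - q) (by linarith) (by linarith)
  calc Pr (fun _ => q) S (fun F => Ar c r k (↑F : Set Edg))
      ≤ _ := h1
    _ ≤ 2 * C * ((r:ℝ) / k) ^ (5/4 : ℝ) := by linarith

end Pool.Agent.H953.Nst
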