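import Pool.Agent.H953.Nst3
import Pool.Graph.R_seed8.W819.NC.Final

/-!
Generating functions of the number of colour changes above the critical point: doubling.
-/

set_option autoImplicit false

namespace Pool.Agent.H953.Nst

open H974 H906.Cyl Finset Pool.Agent.W819.EN Pool.Agent.W819.NC

/-- the homogeneous parameter -/
noncomputable abbrev Pq (q : ℝ) : Edg → ℝ := fun _ => q

theorem okP {q : ℝ} (q0 : 0 ≤ q) (q1 : q ≤ 1) : Ok (Pq q) := fun _ => ⟨q0, q1⟩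

/-- the generating function of the number of changes in an annulus -/
noncomputable def Gq (q t : ℝ) (r R : ℕ) : ℝ :=
  Ex (Pq q) (bx (0, 0) R) (fun F => t ^ NA F (0, 0) r R)

theorem Gq_loc (q t : ℝ) {v : Vtx} {r R : ℕ} {S : Finset Edg} (hrR : r ≤ R) (hS : bx v R ⊆ S) :
    Ex (Pq q) S (fun F => t ^ NA F v r R) = Gq q t r R := by
  rw [Ex_local hS (fun F _ => by
    rw [Pool.Agent.W672.NC.loc' geoNA hrR (sdiff_subset : an v r R ⊆ bx v R) F])]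
  rw [← Pool.Agent.W672.NC.trl_bx v, LSym.mp, Ex_map]
  unfold Gq
  apply Ex_congr
  intro F _
  have h2 := geoNA.tr F v (0, 0) r R
  have e : ((0 : ℤ) + v.1, (0 : ℤ) + v.2) = v := by simp
  simp only [LSym.mp] at h2
  rw [e] at h2
  rw [h2]

theorem Gq_half (t : ℝ) (r R : ℕ) : Gq (1/2) t r R = G NA t r R := rfl

theorem Gq_lower {q t : ℝ} (q0 : 0 ≤ q) (q1 : q ≤ 1) (t0 : 0 < t) (t1 : t ≤ 1) (r R : ℕ) :
    t ^ (2 * R) ≤ Gq q t r R := by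
  have h : Ex (Pq q) (bx (0, 0) R) (fun _ => t ^ (2 * R)) ≤ Gq q t r R := by
    apply Ex_mono (okP q0 q1)
    intro F _
    exact pow_le_pow_of_le_one t0.le t1 (geoNA.le F _ _ _)
  rwa [Ex_const] at h

theorem Gq_pos {q t : ℝ} (q0 : 0 ≤ q) (q1 : q ≤ 1) (t0 : 0 < t) (t1 : t ≤ 1) (r R : ℕ) :
    0 < Gq q t r R := lt_of_lt_of_le (by positivity) (Gq_lower q0 q1 t0 t1 r R)

theorem Gq_le_one {q t : ℝ} (q0 : 0 ≤ q) (q1 : q ≤ 1) (t0 : 0 < t) (t1 : t ≤ 1) (r R : ℕ) :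
    Gq q t r R ≤ 1 :=
  Ex_le_of_le (okP q0 q1) (fun F _ => pow_le_one₀ t0.le t1)

theorem Gq_mono {q t : ℝ} (q0 : 0 ≤ q) (q1 : q ≤ 1) (t0 : 0 < t) (t1 : t ≤ 1) {r r' R R' : ℕ}
    (h1 : r' ≤ r) (h2 : r ≤ R) (h3 : R ≤ R') : Gq q t r' R' ≤ Gq q t r R := by
  have hS : bx (0, 0) R ⊆ bx (0, 0) R' := by
    unfold bx
    exact RE_subset (by omega) (by omega) (by omega) (by omega)
  rw [← Gq_loc q t h2 hS]
  apply Ex_mono (okP q0 q1)
  intro F _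
  exact pow_le_pow_of_le_one t0.le t1 (geoNA.mono F _ _ _ _ _ h1 h3)

/-! ### costs -/

theorem Kc_spec (F : Finset Edg) {a b c d : ℤ} (h1 : a ≤ b) (h2 : c ≤ d) :
    Opn (Kc F a b c d) (LRE a b c d) (LRc a b c d) F := by
  have : ∃ k, Opn k (LRE a b c d) (LRc a b c d) F :=
    ⟨_, _, Finset.Subset.refl _, le_rfl, Pool.Agent.W320.EN.full_LR h1 h2 F⟩
  exact Nat.sInf_mem (s := {k | Opn k (LRE a b c d) (LRc a b c d) F}) this

theorem Opn_up {k : ℕ} {S F F' : Finset Edg} {C : Finset Edg → Prop}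
    (hC : ∀ A B : Finset Edg, A ⊆ B → C A → C B) (h : F ⊆ F') (hO : Opn k S C F) : Opn k S C F' := by
  obtain ⟨X, h1, h2, h3⟩ := hO
  exact ⟨X, h1, h2, hC _ _ (Finset.union_subset_union_left h) h3⟩

theorem Kc_anti {F F' : Finset Edg} (h : F ⊆ F') {a b c d : ℤ} (h1 : a ≤ b) (h2 : c ≤ d) :
    Kc F' a b c d ≤ Kc F a b c d :=
  Nat.sInf_le (Opn_up (fun A B hAB hA => LRc.mono hAB hA) h (Kc_spec F h1 h2))

theorem Wc_anti {F F' : Finset Edg} (h : F ⊆ F') (v : Vtx) (b : ℕ) : Wc F' v b ≤ Wc F v b := by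
  have h0 : Cir v b (sInf {k | Cir v b k F}) F :=
    Nat.sInf_mem (s := {k | Cir v b k F}) (Pool.Agent.W405.NC.cir_ex F v b)
  have h1 : Cir v b (sInf {k | Cir v b k F}) F' :=
    ⟨⟨Opn_up (fun A B hAB hA => LRc.mono hAB hA) h h0.1.1,
      Opn_up (fun A B hAB hA => LRc.mono hAB hA) h h0.1.2⟩,
      Opn_up (fun A B hAB hA => TBc.mono hAB hA) h h0.2.1,
      Opn_up (fun A B hAB hA => TBc.mono hAB hA) h h0.2.2⟩
  have h2 : sInf {k | Cir v b k F'} ≤ sInf {k | Cir v b k F} := Nat.sInf_le h1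
  unfold Wc
  omega

/-- tails of decreasing costs above the critical point -/
theorem tail_of {Y : Finset Edg → ℕ} {S : Finset Edg} {s C : ℝ} (hs : 1 ≤ s)
    (hY : ∀ F F' : Finset Edg, F ⊆ F' → Y F' ≤ Y F) (h : Ex P2 S (fun F => s ^ Y F) ≤ C)
    {q : ℝ} (q0 : 1/2 ≤ q) (q1 : q ≤ 1) (K : ℕ) :
    Pr (Pq q) S (fun F => K < Y F) ≤ C * s⁻¹ ^ K := by
  have ok := okP (by linarith : (0:ℝ) ≤ q) q1
  have ok2 : Ok P2 := Pool.Agent.W672.NC.okP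
  have h1 : Ex (Pq q) S (fun F => s ^ Y F) ≤ Ex P2 S (fun F => s ^ Y F) := by
    have hI : Incr S (fun F => -(s ^ Y F)) := by
      intro A B hAB _
      have := pow_le_pow_right₀ hs (hY A B hAB)
      simp only
      linarith
    have h2 := Ex_mono_param ok2 ok (fun e => q0) hI
    have e : ∀ p : Edg → ℝ, Ex p S (fun F => -(s ^ Y F)) = -Ex p S (fun F => s ^ Y F) := by
      intro p
      have := Ex_mul_left p S (-1) (fun F => s ^ Y F)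
      simpa using this
    rw [e, e] at h2
    linarith
  have h2 : Pr (Pq q) S (fun F => K < Y F) * s ^ K ≤ Ex (Pq q) S (fun F => s ^ Y F) := by
    unfold Pr
    rw [← Ex_mul_right]
    apply Ex_mono ok
    intro F _
    by_cases hF : K < Y F
    · rw [ind_of hF, one_mul]
      exact pow_le_pow_right₀ hs hF.le
    · rw [ind_not_of hF, zero_mul]
      positivity
  rw [inv_pow, ← div_eq_mul_inv, le_div_iff₀ (by positivity)]
  linarith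

theorem tailK : ∀ ρ : ℝ, 0 < ρ → ρ ≤ 1 → ∀ M : ℕ, ∃ C : ℝ, 0 < C ∧ ∀ q : ℝ, 1/2 ≤ q → q ≤ 1 →
    ∀ (a b c d : ℤ) (S : Finset Edg), 1 ≤ d - c → a < b → b - a ≤ M * (d - c) → LRE a b c d ⊆ S →
    ∀ K : ℕ, Pr (Pq q) S (fun F => K < Kc F a b c d) ≤ C * ρ ^ K := by
  intro ρ h0 h1 M
  have hs : 1 ≤ ρ⁻¹ := (one_le_inv₀ h0).2 h1
  obtain ⟨C, hC, h⟩ := sys.kmom ρ⁻¹ hs M
  refine ⟨C, hC, ?_⟩
  intro q q0 q1 a b c d S h2 h3 h4 hS K
  have := tail_of hs (fun F F' hF => Kc_anti hF h3.le (by omega : c ≤ d))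
    (h a b c d S h2 h3 h4 hS) q0 q1 K
  rwa [inv_inv] at this

theorem tailW : ∀ ρ : ℝ, 0 < ρ → ρ ≤ 1 → ∃ C : ℝ, 0 < C ∧ ∀ q : ℝ, 1/2 ≤ q → q ≤ 1 →
    ∀ (v : Vtx) (b : ℕ) (S : Finset Edg), 1 ≤ b → bx v (2 * b) ⊆ S →
    ∀ K : ℕ, Pr (Pq q) S (fun F => K < Wc F v b) ≤ C * ρ ^ K := by
  intro ρ h0 h1
  have hs : 1 ≤ ρ⁻¹ := (one_le_inv₀ h0).2 h1
  obtain ⟨C, hC, h⟩ := sys.wmom ρ⁻¹ hs
  refine ⟨C, hC, ?_⟩
  intro q q0 q1 v b S hb hS K
  have := tail_of hs (fun F F' hF => Wc_anti hF v b) (h v b S hb hS) q0 q1 K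
  rwa [inv_inv] at this

/-- decoupling -/
theorem decoup {q t : ℝ} (q0 : 0 ≤ q) (q1 : q ≤ 1) (t0 : 0 < t) (t1 : t ≤ 1)
    {U T1 T2 : Finset Edg} (s1 : T1 ⊆ U) (s2 : T2 ⊆ U) (hd : Disjoint T1 T2)
    {N X X' Y : Finset Edg → ℕ} (hN : ∀ F, F ⊆ U → N F ≤ X F + Y F)
    (hX : ∀ F, F ⊆ U → X' F ≤ X F) (lX : ∀ F, F ⊆ U → X' F = X' (F ∩ T1))
    (lY : ∀ F, F ⊆ U → Y F = Y (F ∩ T2)) (K : ℕ) :
    t ^ K * (Ex (Pq q) U (fun F => t ^ X F) -
      Ex (Pq q) U (fun F => t ^ X' F) * Pr (Pq q) U (fun F => K < Y F)) ≤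
        Ex (Pq q) U (fun F => t ^ N F) := by
  have ok := okP q0 q1
  have h1 : Ex (Pq q) U (fun F => t ^ X' F) * Pr (Pq q) U (fun F => K < Y F) =
      Ex (Pq q) U (fun F => t ^ X' F * ind (K < Y F)) := by
    unfold Pr
    rw [Ex_mul_indep s1 s2 hd (fun F hF => by rw [← lX F hF])
      (fun F hF => by rw [← lY F hF])]
  rw [h1, ← Ex_sub, ← Ex_mul_left]
  apply Ex_mono ok
  intro F hF
  by_cases hK : K < Y F
  · rw [ind_of hK, mul_one]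
    have h2 : t ^ X F ≤ t ^ X' F := pow_le_pow_of_le_one t0.le t1 (hX F hF)
    have h3 : 0 < t ^ K := by positivity
    have h4 : 0 < t ^ N F := by positivity
    nlinarith
  · rw [ind_not_of hK, mul_zero, sub_zero, ← pow_add]
    apply pow_le_pow_of_le_one t0.le t1
    have := hN F hF
    omega

end Pool.Agent.H953.Nst
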