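import Pool.Agent.H953.Nst4

/-!
Doubling of the radii above the critical point.
-/

set_option autoImplicit false

namespace Pool.Agent.H953.Nst

open H974 H906.Cyl Finset Pool.Agent.W819.EN Pool.Agent.W819.NC

/-- the cost of an annulus -/
noncomputable def YY (v : Vtx) (b' b c : ℕ) (F : Finset Edg) : ℕ :=
  Wc F v b' + 2 * Kc F (v.1 + b) (v.1 + c) (v.2 - b) (v.2 + b)

theorem LRE_bx {v : Vtx} {b c : ℕ} (h : b ≤ c) :
    LRE (v.1 + b) (v.1 + c) (v.2 - b) (v.2 + b) ⊆ bx v c := by
  refine LRE_subset_RE.trans ?_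
  unfold bx
  exact RE_subset (by omega) (by omega) (by omega) (by omega)

theorem LRE_an {v : Vtx} {b c : ℕ} (h : b ≤ c) :
    LRE (v.1 + b) (v.1 + c) (v.2 - b) (v.2 + b) ⊆ an v b c := by
  intro e he
  have h1 := LRE_bx h he
  unfold an
  rw [Finset.mem_sdiff]
  refine ⟨h1, ?_⟩
  unfold bx
  obtain ⟨x, y, _ | _⟩ := e
  · rw [mem_LRE_false] at he; rw [mem_RE_false]; omega
  · rw [mem_LRE_true] at he; rw [mem_RE_true]; omega

theorem YY_tail : ∀ ρ : ℝ, 0 < ρ → ρ ≤ 1 → ∃ C : ℝ, 0 < C ∧ ∀ q : ℝ, 1/2 ≤ q → q ≤ 1 →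
    ∀ (v : Vtx) (b' b c : ℕ) (S : Finset Edg), 1 ≤ b' → 1 ≤ b → b < c → c ≤ 64 * b →
    bx v c ⊆ S → bx v (2 * b') ⊆ S → ∀ K : ℕ,
    Pr (Pq q) S (fun F => 4 * K < YY v b' b c F) ≤ C * ρ ^ K := by
  intro ρ h0 h1
  obtain ⟨C1, hC1, hK⟩ := tailK ρ h0 h1 64
  obtain ⟨C2, hC2, hW⟩ := tailW ρ h0 h1
  refine ⟨C1 + C2, by linarith, ?_⟩
  intro q q0 q1 v b' b c S hb' hb hbc hc hS hS' K
  have ok := okP (by linarith : (0:ℝ) ≤ q) q1
  have e1 := hK q q0 q1 (v.1 + b) (v.1 + c) (v.2 - b) (v.2 + b) S (by omega) (by omega)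
    (by push_cast; omega) ((LRE_bx hbc.le).trans hS) K
  have e2 := hW q q0 q1 v b' S hb' hS' K
  have e3 : Pr (Pq q) S (fun F => 4 * K < YY v b' b c F) ≤ Pr (Pq q) S (fun F =>
      K < Kc F (v.1 + b) (v.1 + c) (v.2 - b) (v.2 + b) ∨ K < Wc F v b') := by
    apply Pr_mono ok
    intro F _ hF
    unfold YY at hF
    omega
  have e4 := Pr_or_le ok S (fun F => K < Kc F (v.1 + b) (v.1 + c) (v.2 - b) (v.2 + b))
    (fun F => K < Wc F v b')
  linarith

/-- the choice of the cost -/
theorem costs {t : ℝ} (t0 : 0 < t) (t1 : t ≤ 1) : ∃ K : ℕ, 32 ≤ K ∧ ∀ q : ℝ, 1/2 ≤ q → q ≤ 1 →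
    ∀ (v : Vtx) (b' b c : ℕ) (S : Finset Edg), 1 ≤ b' → 1 ≤ b → b < c → c ≤ 64 * b →
    bx v c ⊆ S → bx v (2 * b') ⊆ S →
    Pr (Pq q) S (fun F => K < YY v b' b c F) * (2 / t ^ K) ^ 2 ≤ 1/2 := by
  have ht8 : 0 < t ^ 8 := by positivity
  have ht81 : t ^ 8 ≤ 1 := pow_le_one₀ t0.le t1
  obtain ⟨C, hC, h⟩ := YY_tail (t ^ 8 / 2) (by positivity) (by linarith)
  obtain ⟨n, hn⟩ : ∃ n : ℕ, C * 8 < 2 ^ n := pow_unbounded_of_one_lt (C * 8) (by norm_num)
  refine ⟨4 * (n + 8), by omega, ?_⟩
  intro q q0 q1 v b' b c S hb' hb hbc hc hS hS'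
  have h1 := h q q0 q1 v b' b c S hb' hb hbc hc hS hS' (n + 8)
  have h2 : (0:ℝ) ≤ (2 / t ^ (4 * (n + 8))) ^ 2 := by positivity
  refine (mul_le_mul_of_nonneg_right h1 h2).trans ?_
  have e1 : (t ^ 8 / 2) ^ (n + 8) * (2 / t ^ (4 * (n + 8))) ^ 2 = 4 / 2 ^ (n + 8) := by
    rw [div_pow, div_pow, ← pow_mul, ← pow_mul, show 4 * (n + 8) * 2 = 8 * (n + 8) by ring]
    have : t ^ (8 * (n + 8)) ≠ 0 := by positivity
    field_simp
    norm_num
  rw [mul_assoc, e1, pow_add]
  have h3 : (0:ℝ) < 2 ^ n := by positivity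
  rw [mul_div_assoc', div_le_iff₀ (by positivity)]
  nlinarith

/-- doubling of the outer radius -/
theorem dblO {t : ℝ} (t0 : 0 < t) (t1 : t ≤ 1) : ∃ A : ℝ, 1 ≤ A ∧ ∀ q : ℝ, 1/2 ≤ q → q ≤ 1 →
    ∀ r n : ℕ, 1 ≤ n → r ≤ n → Gq q t r n ≤ A * Gq q t r (2 * n) := by
  obtain ⟨K, hK, hcost⟩ := costs t0 t1
  have hA1 : 1 ≤ 2 / t ^ K := by
    rw [le_div_iff₀ (by positivity)]
    have : t ^ K ≤ 1 := pow_le_one₀ t0.le t1
    linarith
  refine ⟨2 / t ^ K, hA1, ?_⟩
  intro q q0 q1 r n
  have q0' : (0:ℝ) ≤ q := by linarith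
  have ok := okP q0' q1
  induction n using Nat.strong_induction_on with
  | _ n ih =>
    intro hn hr
    have hsub : ∀ {a b : ℕ}, a ≤ b → bx (0, 0) a ⊆ bx (0, 0) b := by
      intro a b hab
      unfold bx
      exact RE_subset (by omega) (by omega) (by omega) (by omega)
    by_cases hbig : 8 ≤ n ∧ 2 * r + 4 ≤ n
    · obtain ⟨hn8, hnr⟩ := hbig
      obtain ⟨b, hb⟩ : ∃ b, b = n / 2 := ⟨_, rfl⟩
      have hb1 : 1 ≤ b := by omega
      set U := bx (0, 0) (8 * b : ℕ) with hU
      have l1 : ∀ F : Finset Edg, NA F (0, 0) r (8 * b) ≤ NA F (0, 0) r (2 * b) +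
          YY (0, 0) b b (8 * b) F := by
        intro F
        have j := Pool.Agent.W405.NC.t_JOIN F (0, 0) b r (8 * b) hb1 (by omega) (by omega)
        have k := Pool.Agent.W12.NC.t_RIGHT F (0, 0) b b (8 * b) le_rfl (by omega)
        unfold YY
        omega
      have l2 : ∀ F : Finset Edg, NA F (0, 0) r (b - 1) ≤ NA F (0, 0) r (2 * b) := fun F =>
        geoNA.mono F _ _ _ _ _ le_rfl (by omega)
      have d := decoup (q := q) (t := t) q0' q1 t0 t1 (U := U) (T1 := an (0, 0) r (b - 1))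
        (T2 := an (0, 0) b (8 * b)) (sdiff_subset.trans (hsub (by omega))) sdiff_subset
        (by
          rw [Finset.disjoint_left]
          intro e h1 h2
          unfold an at h1 h2
          rw [Finset.mem_sdiff] at h1 h2
          apply h2.2
          have h3 := h1.1
          have : ((b - 1 : ℕ) : ℤ) = (b : ℤ) - 1 := by omega
          rwa [this] at h3)
        (N := fun F => NA F (0, 0) r (8 * b)) (X := fun F => NA F (0, 0) r (2 * b))
        (X' := fun F => NA F (0, 0) r (b - 1)) (Y := YY (0, 0) b b (8 * b))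
        (fun F _ => l1 F) (fun F _ => l2 F) (fun F _ => geoNA.loc F _ _ _ (by omega))
        (fun F _ => by
          unfold YY
          have w := Pool.Agent.W405.NC.t_WLOC
          have k := Pool.Agent.W405.NC.t_KLOC
          have i2 : ∀ S : Finset Edg, S ⊆ an (0, 0) b (8 * b) →
              F ∩ an (0, 0) b (8 * b) ∩ S = F ∩ S := by
            intro S hS
            rw [Finset.inter_assoc, Finset.inter_eq_right.2 hS]
          have i1 : F ∩ an (0, 0) b (8 * b) ∩ an (0, 0) b (2 * b) = F ∩ an (0, 0) b (2 * b) := by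
            apply i2
            unfold an
            exact Finset.sdiff_subset_sdiff (hsub (by omega)) (Finset.Subset.refl _)
          rw [w F (0, 0) b hb1, w (F ∩ an (0, 0) b (8 * b)) (0, 0) b hb1, i1, k F,
            k (F ∩ an (0, 0) b (8 * b)), i2 _ (LRE_an (by omega))]) K
      have hp := hcost q q0 q1 (0, 0) b b (8 * b) U hb1 hb1 (by omega) (by omega) (by rw [hU])
        (by rw [hU]; exact_mod_cast hsub (by omega : 2 * b ≤ 8 * b))
      have g1 : Ex (Pq q) U (fun F => t ^ NA F (0, 0) r (2 * b)) = Gq q t r (2 * b) :=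
        Gq_loc q t (by omega) (hsub (by omega))
      have g2 : Ex (Pq q) U (fun F => t ^ NA F (0, 0) r (b - 1)) = Gq q t r (b - 1) :=
        Gq_loc q t (by omega) (hsub (by omega))
      have g3 : Ex (Pq q) U (fun F => t ^ NA F (0, 0) r (8 * b)) = Gq q t r (8 * b) :=
        Gq_loc q t (by omega) (by rw [hU])
      rw [g1, g2, g3] at d
      have i1 := ih (b - 1) (by omega) (by omega) (by omega)
      have i2 := ih (2 * (b - 1)) (by omega) (by omega) (by omega)
      have m1 : Gq q t r (2 * (2 * (b - 1))) ≤ Gq q t r n :=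
        Gq_mono q0' q1 t0 t1 le_rfl hr (by omega)
      have m2 : Gq q t r (8 * b) ≤ Gq q t r (2 * n) :=
        Gq_mono q0' q1 t0 t1 le_rfl (by omega) (by omega)
      have m3 : Gq q t r n ≤ Gq q t r (2 * b) :=
        Gq_mono q0' q1 t0 t1 le_rfl (by omega) (by omega)
      set A := 2 / t ^ K with hA
      have i3 : Gq q t r (b - 1) ≤ A ^ 2 * Gq q t r n := by
        calc Gq q t r (b - 1) ≤ A * Gq q t r (2 * (b - 1)) := i1
          _ ≤ A * (A * Gq q t r (2 * (2 * (b - 1)))) := mul_le_mul_of_nonneg_left i2 (by linarith)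
          _ ≤ A * (A * Gq q t r n) := by
              apply mul_le_mul_of_nonneg_left _ (by linarith)
              exact mul_le_mul_of_nonneg_left m1 (by linarith)
          _ = _ := by ring
      have hp0 := Pr_nonneg ok U (fun F => K < YY (0, 0) b b (8 * b) F)
      have hGn := Gq_pos q0' q1 t0 t1 r n
      have i4 : Gq q t r (b - 1) * Pr (Pq q) U (fun F => K < YY (0, 0) b b (8 * b) F) ≤
          1/2 * Gq q t r n := by
        calc Gq q t r (b - 1) * Pr (Pq q) U (fun F => K < YY (0, 0) b b (8 * b) F)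
            ≤ A ^ 2 * Gq q t r n * Pr (Pq q) U (fun F => K < YY (0, 0) b b (8 * b) F) :=
              mul_le_mul_of_nonneg_right i3 hp0
          _ = (Pr (Pq q) U (fun F => K < YY (0, 0) b b (8 * b) F) * A ^ 2) * Gq q t r n := by ring
          _ ≤ _ := mul_le_mul_of_nonneg_right hp hGn.le
      have htK : 0 < t ^ K := by positivity
      have i5 : t ^ K * (1/2 * Gq q t r n) ≤ Gq q t r (2 * n) := by
        refine (mul_le_mul_of_nonneg_left ?_ htK.le).trans (d.trans m2)
        linarith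
      rw [hA, div_mul_eq_mul_div, le_div_iff₀ htK]
      linarith
    · -- small radii
      have hle := Gq_le_one q0' q1 t0 t1 r n
      have htK : 0 < t ^ K := by positivity
      have fin : t ^ K * (1/2) ≤ Gq q t r (2 * n) := by
        rcases Nat.eq_zero_or_pos r with h0 | h0
        · have h16 : 2 * n ≤ 16 := by omega
          refine le_trans ?_ (Gq_lower q0' q1 t0 t1 r (2 * n))
          have : t ^ K ≤ t ^ (2 * (2 * n)) := pow_le_pow_of_le_one t0.le t1 (by omega)
          linarith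
        · have hn16 : 2 * n ≤ 16 * r := by omega
          have m : Gq q t r (16 * r) ≤ Gq q t r (2 * n) :=
            Gq_mono q0' q1 t0 t1 le_rfl (by omega) hn16
          refine le_trans ?_ m
          have hp := hcost q q0 q1 (0, 0) r r (16 * r) (bx (0, 0) (16 * r : ℕ)) h0 h0 (by omega)
            (by omega) (Finset.Subset.refl _)
            (by exact_mod_cast hsub (by omega : 2 * r ≤ 16 * r))
          have hA2 : (1:ℝ) ≤ (2 / t ^ K) ^ 2 := one_le_pow₀ hA1
          have hp0 := Pr_nonneg ok (bx (0, 0) (16 * r : ℕ)) (fun F => K < YY (0, 0) r r (16 * r) F)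
          have hp1 : Pr (Pq q) (bx (0, 0) (16 * r : ℕ)) (fun F => K < YY (0, 0) r r (16 * r) F) ≤
            1/2 := by nlinarith
          have e : Gq q t r (16 * r) ≥ Ex (Pq q) (bx (0, 0) (16 * r : ℕ))
              (fun F => t ^ K * (1 - ind (K < YY (0, 0) r r (16 * r) F))) := by
            apply Ex_mono ok
            intro F _
            by_cases hF : K < YY (0, 0) r r (16 * r) F
            · rw [ind_of hF]; simp only [sub_self, mul_zero]; positivity
            · rw [ind_not_of hF, sub_zero, mul_one]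
              apply pow_le_pow_of_le_one t0.le t1
              have k := Pool.Agent.W12.NC.t_RIGHT F (0, 0) r r (16 * r) le_rfl (by omega)
              unfold YY at hF
              omega
          rw [Ex_mul_left, Ex_sub, Ex_const] at e
          have e2 : Ex (Pq q) (bx (0, 0) (16 * r : ℕ)) (fun F => ind (K < YY (0, 0) r r (16 * r) F))
            = Pr (Pq q) (bx (0, 0) (16 * r : ℕ)) (fun F => K < YY (0, 0) r r (16 * r) F) := rfl
          rw [e2] at e
          refine le_trans ?_ e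
          apply mul_le_mul_of_nonneg_left _ htK.le
          linarith
      rw [div_mul_eq_mul_div, le_div_iff₀ htK]
      nlinarith

theorem YY_loc {v : Vtx} {b' b c : ℕ} {T : Finset Edg} (hb' : 1 ≤ b') (hbc : b ≤ c)
    (h1 : an v b' (2 * b') ⊆ T) (h2 : an v b c ⊆ T) (F : Finset Edg) :
    YY v b' b c F = YY v b' b c (F ∩ T) := by
  unfold YY
  have w := Pool.Agent.W405.NC.t_WLOC
  have k := Pool.Agent.W405.NC.t_KLOC
  have i2 : ∀ S : Finset Edg, S ⊆ T → F ∩ T ∩ S = F ∩ S := by
    intro S hS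
    rw [Finset.inter_assoc, Finset.inter_eq_right.2 hS]
  rw [w F v b' hb', w (F ∩ T) v b' hb', i2 _ h1, k F, k (F ∩ T), i2 _ ((LRE_an hbc).trans h2)]

theorem bx_sub {v : Vtx} {a b : ℕ} (hab : a ≤ b) : bx v a ⊆ bx v b := by
  unfold bx
  exact RE_subset (by omega) (by omega) (by omega) (by omega)

theorem base_low {q t : ℝ} (q0 : 0 ≤ q) (q1 : q ≤ 1) (t0 : 0 < t) (t1 : t ≤ 1) {r c K : ℕ}
    (hr : 1 ≤ r) (hrc : r < c)
    (hp : Pr (Pq q) (bx (0, 0) c) (fun F => K < YY (0, 0) r r c F) ≤ 1/2) :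
    t ^ K / 2 ≤ Gq q t r c := by
  have ok := okP q0 q1
  have htK : 0 < t ^ K := by positivity
  have e : Gq q t r c ≥ Ex (Pq q) (bx (0, 0) c)
      (fun F => t ^ K * (1 - ind (K < YY (0, 0) r r c F))) := by
    apply Ex_mono ok
    intro F _
    by_cases hF : K < YY (0, 0) r r c F
    · rw [ind_of hF]; simp only [sub_self, mul_zero]; positivity
    · rw [ind_not_of hF, sub_zero, mul_one]
      apply pow_le_pow_of_le_one t0.le t1
      have k := Pool.Agent.W12.NC.t_RIGHT F (0, 0) r r c le_rfl hrc.le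
      unfold YY at hF
      omega
  rw [Ex_mul_left, Ex_sub, Ex_const] at e
  have e2 : Ex (Pq q) (bx (0, 0) c) (fun F => ind (K < YY (0, 0) r r c F))
    = Pr (Pq q) (bx (0, 0) c) (fun F => K < YY (0, 0) r r c F) := rfl
  rw [e2] at e
  nlinarith

/-- doubling of the inner radius -/
theorem dblI {t : ℝ} (t0 : 0 < t) (t1 : t ≤ 1) : ∃ A : ℝ, 1 ≤ A ∧ ∀ q : ℝ, 1/2 ≤ q → q ≤ 1 →
    ∀ n R : ℕ, 1 ≤ n → 2 * n ≤ R → Gq q t (2 * n) R ≤ A * Gq q t n R := by
  obtain ⟨K, hK, hcost⟩ := costs t0 t1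
  have htK : 0 < t ^ K := by positivity
  have hA1 : 1 ≤ 2 / t ^ K := by
    rw [le_div_iff₀ (by positivity)]
    have : t ^ K ≤ 1 := pow_le_one₀ t0.le t1
    linarith
  refine ⟨2 / t ^ K, hA1, ?_⟩
  intro q q0 q1
  have q0' : (0:ℝ) ≤ q := by linarith
  have ok := okP q0' q1
  have key : ∀ m n R : ℕ, R - n = m → 1 ≤ n → 2 * n ≤ R →
      Gq q t (2 * n) R ≤ 2 / t ^ K * Gq q t n R := by
    intro m
    induction m using Nat.strong_induction_on with
    | _ m ih =>
      intro n R hm hn hR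
      by_cases h8 : 8 * n ≤ R
      · set U := bx (0, 0) (R : ℕ) with hU
        have l1 : ∀ F : Finset Edg, NA F (0, 0) n R ≤ NA F (0, 0) (2 * n) R +
            YY (0, 0) (2 * n) n (4 * n) F := by
          intro F
          have j := Pool.Agent.W405.NC.t_JOIN F (0, 0) (2 * n) n R (by omega) (by omega) (by omega)
          have k := Pool.Agent.W12.NC.t_RIGHT F (0, 0) n n (4 * n) le_rfl (by omega)
          have e : 2 * (2 * n) = 4 * n := by ring
          rw [e] at j
          unfold YY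
          omega
        have l2 : ∀ F : Finset Edg, NA F (0, 0) (4 * n + 1) R ≤ NA F (0, 0) (2 * n) R := fun F =>
          geoNA.mono F _ _ _ _ _ (by omega) le_rfl
        have d := decoup (q := q) (t := t) q0' q1 t0 t1 (U := U) (T1 := an (0, 0) (4 * n + 1) R)
          (T2 := an (0, 0) n (4 * n)) sdiff_subset (sdiff_subset.trans (bx_sub (by omega)))
          (by
            rw [Finset.disjoint_left]
            intro e h1 h2
            unfold an at h1 h2
            rw [Finset.mem_sdiff] at h1 h2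
            apply h1.2
            have h3 := h2.1
            have : ((4 * n + 1 : ℕ) : ℤ) - 1 = ((4 * n : ℕ) : ℤ) := by push_cast; ring
            rw [this]; exact h3)
          (N := fun F => NA F (0, 0) n R) (X := fun F => NA F (0, 0) (2 * n) R)
          (X' := fun F => NA F (0, 0) (4 * n + 1) R) (Y := YY (0, 0) (2 * n) n (4 * n))
          (fun F _ => l1 F) (fun F _ => l2 F) (fun F _ => geoNA.loc F _ _ _ (by omega))
          (fun F _ => YY_loc (by omega) (by omega) (by
            unfold an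
            have e : 2 * (2 * n) = 4 * n := by ring
            rw [e]
            apply Finset.sdiff_subset_sdiff (Finset.Subset.refl _)
            unfold bx
            exact RE_subset (by push_cast; omega) (by push_cast; omega) (by push_cast; omega)
              (by push_cast; omega)) (Finset.Subset.refl _) F) K
        have hp := hcost q q0 q1 (0, 0) (2 * n) n (4 * n) U (by omega) hn (by omega) (by omega)
          (bx_sub (by omega)) (by
            have : (2 * ((2 * n : ℕ) : ℤ)) = ((4 * n : ℕ) : ℤ) := by push_cast; ring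
            rw [this]; exact bx_sub (by omega))
        have g1 : Ex (Pq q) U (fun F => t ^ NA F (0, 0) (2 * n) R) = Gq q t (2 * n) R :=
          Gq_loc q t (by omega) (by rw [hU])
        have g2 : Ex (Pq q) U (fun F => t ^ NA F (0, 0) (4 * n + 1) R) = Gq q t (4 * n + 1) R :=
          Gq_loc q t (by omega) (by rw [hU])
        have g3 : Ex (Pq q) U (fun F => t ^ NA F (0, 0) n R) = Gq q t n R :=
          Gq_loc q t (by omega) (by rw [hU])
        rw [g1, g2, g3] at d
        have i1 := ih (R - 4 * n) (by omega) (4 * n) R rfl (by omega) (by omega)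
        have i2 := ih (R - 2 * n) (by omega) (2 * n) R rfl (by omega) (by omega)
        have m1 : Gq q t (4 * n + 1) R ≤ Gq q t (2 * (4 * n)) R :=
          Gq_mono q0' q1 t0 t1 (by omega) (by omega) le_rfl
        have e4 : 2 * (2 * n) = 4 * n := by ring
        rw [e4] at i2
        set A := 2 / t ^ K with hA
        have i3 : Gq q t (4 * n + 1) R ≤ A ^ 2 * Gq q t (2 * n) R := by
          calc Gq q t (4 * n + 1) R ≤ A * Gq q t (4 * n) R := m1.trans i1
            _ ≤ A * (A * Gq q t (2 * n) R) := mul_le_mul_of_nonneg_left i2 (by linarith)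
            _ = _ := by ring
        have hp0 := Pr_nonneg ok U (fun F => K < YY (0, 0) (2 * n) n (4 * n) F)
        have hGn := Gq_pos q0' q1 t0 t1 (2 * n) R
        have i4 : Gq q t (4 * n + 1) R * Pr (Pq q) U (fun F => K < YY (0, 0) (2 * n) n (4 * n) F) ≤
            1/2 * Gq q t (2 * n) R := by
          calc _ ≤ A ^ 2 * Gq q t (2 * n) R *
                Pr (Pq q) U (fun F => K < YY (0, 0) (2 * n) n (4 * n) F) :=
                mul_le_mul_of_nonneg_right i3 hp0
            _ = (Pr (Pq q) U (fun F => K < YY (0, 0) (2 * n) n (4 * n) F) * A ^ 2) *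
                Gq q t (2 * n) R := by ring
            _ ≤ _ := mul_le_mul_of_nonneg_right hp hGn.le
        have i5 : t ^ K * (1/2 * Gq q t (2 * n) R) ≤ Gq q t n R := by
          refine (mul_le_mul_of_nonneg_left ?_ htK.le).trans d
          linarith
        rw [hA, div_mul_eq_mul_div, le_div_iff₀ htK]
        linarith
      · have hle := Gq_le_one q0' q1 t0 t1 (2 * n) R
        have hp := hcost q q0 q1 (0, 0) n n (8 * n) (bx (0, 0) (8 * n : ℕ)) hn hn (by omega)
          (by omega) (Finset.Subset.refl _) (by exact_mod_cast bx_sub (by omega : 2 * n ≤ 8 * n))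
        have hA2 : (1:ℝ) ≤ (2 / t ^ K) ^ 2 := one_le_pow₀ hA1
        have hp0 := Pr_nonneg ok (bx (0, 0) (8 * n : ℕ)) (fun F => K < YY (0, 0) n n (8 * n) F)
        have hp1 : Pr (Pq q) (bx (0, 0) (8 * n : ℕ)) (fun F => K < YY (0, 0) n n (8 * n) F) ≤
          1/2 := by nlinarith
        have b := base_low q0' q1 t0 t1 hn (by omega) hp1
        have m : Gq q t n (8 * n) ≤ Gq q t n R :=
          Gq_mono q0' q1 t0 t1 le_rfl (by omega) (by omega)
        rw [div_mul_eq_mul_div, le_div_iff₀ htK]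
        nlinarith
  intro n R hn hR
  exact key _ n R rfl hn hR

end Pool.Agent.H953.Nst
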