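import Pool.Agent.H953.Nst5

/-!
The number of colour changes between two vertices.
-/

set_option autoImplicit false

namespace Pool.Agent.H953.Nst

open H974 H906.Cyl Finset Pool.Agent.W819.EN Pool.Agent.W819.NC
open Pool.Agent.W38.EN (Zv circ_v touch2 reach_chain ex_chain NA_spec)

/-- the number of colour changes between two vertices -/
noncomputable def N2 (F : Finset Edg) (v w : Vtx) : ℕ :=
  sInf {K | Ch (Mv (↑F : Set Edg)) St K (fc v) (fc w)}

theorem N2_spec (F : Finset Edg) (v w : Vtx) :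
    Ch (Mv (↑F : Set Edg)) St (N2 F v w) (fc v) (fc w) :=
  Nat.sInf_mem (s := {K | Ch (Mv (↑F : Set Edg)) St K (fc v) (fc w)}) (ex_chain _ _ _)

theorem N2_le {F : Finset Edg} {v w : Vtx} {K : ℕ}
    (h : Ch (Mv (↑F : Set Edg)) St K (fc v) (fc w)) : N2 F v w ≤ K := Nat.sInf_le h

theorem N2_le_iff {F : Finset Edg} {v w : Vtx} {K : ℕ} :
    N2 F v w ≤ K ↔ Cost (↑F : Set Edg) (fun p => p = fc v) (fun p => p = fc w) K := by
  constructor
  · intro h
    exact ⟨_, _, rfl, rfl, (N2_spec F v w).mono h⟩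
  · rintro ⟨p, q, rfl, rfl, h⟩
    exact N2_le h

/-- a cheap circuit -/
theorem Cir_Zv {F : Finset Edg} {v : Vtx} {b k : ℕ} (hb : 1 ≤ b) (hC : Cir v b k F) :
    ∃ X : Finset Edg, X.card ≤ 4 * k ∧ ∃ z, Zv v b (2 * b) (F ∪ X) z := by
  classical
  obtain ⟨⟨⟨Xa, _, ka, La⟩, ⟨Xb, _, kb, Lb⟩⟩, ⟨Xc, _, kc, Lc⟩, ⟨Xd, _, kd, Ld⟩⟩ := hC
  set X : Finset Edg := Xa ∪ Xb ∪ Xc ∪ Xd with hX
  have ta : Xa ⊆ X := Finset.subset_union_left.trans (Finset.subset_union_left.trans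
    Finset.subset_union_left)
  have tb : Xb ⊆ X := Finset.subset_union_right.trans (Finset.subset_union_left.trans
    Finset.subset_union_left)
  have tc : Xc ⊆ X := Finset.subset_union_right.trans Finset.subset_union_left
  have td : Xd ⊆ X := Finset.subset_union_right
  have hcard : X.card ≤ 4 * k := by
    have h1 := Finset.card_union_le (Xa ∪ Xb ∪ Xc) Xd
    have h2 := Finset.card_union_le (Xa ∪ Xb) Xc
    have h3 := Finset.card_union_le Xa Xb
    show (Xa ∪ Xb ∪ Xc ∪ Xd).card ≤ 4 * k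
    omega
  obtain ⟨z, hz⟩ := circ_v (v := v) (R1 := (b : ℤ)) (R2 := 2 * (b : ℤ)) (by omega) (by omega)
    (E := F ∪ X) (La.mono (Finset.union_subset_union_right ta))
    (Lb.mono (Finset.union_subset_union_right tb)) (Lc.mono (Finset.union_subset_union_right tc))
    (Ld.mono (Finset.union_subset_union_right td))
  exact ⟨X, hcard, z, hz⟩

theorem Zv_mono {v : Vtx} {R1 R2 : ℤ} {E E' : Finset Edg} {z : Vtx} (h : E ⊆ E')
    (hz : Zv v R1 R2 E z) : Zv v R1 R2 E' z :=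
  fun F hF => hz F (h.trans hF)

theorem Wc_Zv (F : Finset Edg) (v : Vtx) {b : ℕ} (hb : 1 ≤ b) :
    ∃ X : Finset Edg, 2 + 2 * X.card ≤ Wc F v b ∧ ∃ z, Zv v b (2 * b) (F ∪ X) z := by
  have h : Cir v b (sInf {k | Cir v b k F}) F :=
    Nat.sInf_mem (s := {k | Cir v b k F}) (Pool.Agent.W405.NC.cir_ex F v b)
  obtain ⟨X, h1, h2⟩ := Cir_Zv hb h
  refine ⟨X, ?_, h2⟩
  unfold Wc
  omega

theorem nmv_self {v : Vtx} {p : ℤ × ℤ} (h : nmv v p ≤ 2 * ((0 : ℕ) : ℤ)) : p = fc v :=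
  Pool.Agent.W819.EN.start_eq h

/-- the cost of the connection of the neighbourhoods of the two vertices -/
noncomputable def YT (m : ℕ) (F : Finset Edg) : ℕ :=
  Wc F (0, 0) m + Wc F (8 * m, 0) m + 2 * Kc F m (7 * m) (-m) m

/-- joining the neighbourhoods of the two vertices -/
theorem N2_join (F : Finset Edg) {m : ℕ} (hm : 1 ≤ m) :
    N2 F (0, 0) (8 * m, 0) ≤ NA F (0, 0) 0 (2 * m) + NA F (8 * m, 0) 0 (2 * m) + YT m F := by
  classical
  obtain ⟨X1, c1, z1, hz1⟩ := Wc_Zv F (0, 0) hm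
  obtain ⟨X2, c2, z2, hz2⟩ := Wc_Zv F (8 * m, 0) hm
  obtain ⟨X3, -, c3, y, y', hy, hy', h3⟩ := Kc_spec F (a := m) (b := 7 * m) (c := -m) (d := m)
    (by omega) (by omega)
  set X := X1 ∪ X2 ∪ X3 with hX
  set E := F ∪ X with hE
  have hcard : X.card ≤ X1.card + X2.card + X3.card := by
    have h1 := Finset.card_union_le (X1 ∪ X2) X3
    have h2 := Finset.card_union_le X1 X2
    rw [← hX] at h1
    omega
  have s1 : F ∪ X1 ⊆ E := Finset.union_subset_union_right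
    (Finset.subset_union_left.trans Finset.subset_union_left)
  have s2 : F ∪ X2 ⊆ E := Finset.union_subset_union_right
    (Finset.subset_union_right.trans Finset.subset_union_left)
  have s3 : F ∪ X3 ⊆ E := Finset.union_subset_union_right Finset.subset_union_right
  have hz1' := Zv_mono s1 hz1
  have hz2' := Zv_mono s2 hz2
  obtain ⟨p1, q1, hp1, hq1, ch1⟩ := NA_spec F (0, 0) 0 (2 * m)
  obtain ⟨p2, q2, hp2, hq2, ch2⟩ := NA_spec F (8 * m, 0) 0 (2 * m)
  obtain rfl := nmv_self hp1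
  obtain rfl := nmv_self hp2
  obtain ⟨w1, K1, K1', r1, k1, d1, _⟩ := touch2 (v := (0, 0)) (R1 := (m : ℤ)) (R := 2 * (m : ℤ))
    (by omega) (by omega) hz1' (by simp [nmv, fc]) (by push_cast at hq1; linarith) ch1
  obtain ⟨w2, K2, K2', r2, k2, d2, _⟩ := touch2 (v := (8 * (m:ℤ), 0)) (R1 := (m : ℤ))
    (R := 2 * (m : ℤ)) (by omega) (by omega) hz2' (by simp [nmv, fc])
    (by push_cast at hq2; linarith) ch2
  have hcr : Reach (↑E : Set Edg) ((m:ℤ), y) (7 * (m:ℤ), y') := by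
    refine h3.mono ?_
    rintro e ⟨he, -⟩
    exact s3 he
  have mE : ∀ {S : Set Edg} {a b : Vtx}, Reach ((↑E : Set Edg) ∩ S) a b → Reach (↑E : Set Edg) a b :=
    fun h => h.mono Set.inter_subset_left
  -- the crossing is connected with the two circuits
  have t1 : Reach (↑E : Set Edg) ((m:ℤ), y) z1 := by
    obtain ⟨w, hw1, hw2, hw3⟩ := first_exit (a := 0 - 2 * (m:ℤ)) (b := 0 + 2 * m) (c := 0 - 2 * m)
      (d := 0 + 2 * m) (u := ((m:ℤ), y)) (by unfold inR; simp only; omega) hcr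
      (by simp only; omega)
    exact mE (hz1' E (Finset.Subset.refl _) _ w (by unfold inR; simp only; omega) hw2 hw3)
  have t2 : Reach (↑E : Set Edg) (7 * (m:ℤ), y') z2 := by
    obtain ⟨w, hw1, hw2, hw3⟩ := first_exit (a := 8 * (m:ℤ) - 2 * (m:ℤ)) (b := 8 * (m:ℤ) + 2 * m)
      (c := 0 - 2 * m) (d := 0 + 2 * m) (u := (7 * (m:ℤ), y')) (by unfold inR; simp only; omega)
      hcr.symm (by simp only; omega)
    exact mE (hz2' E (Finset.Subset.refl _) _ w (by unfold inR; simp only; omega) hw2 hw3)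
  have hreach : Reach ((↑F : Set Edg) ∪ ↑X) w1 w2 := by
    have h4 : Reach (↑E : Set Edg) w1 w2 :=
      (mE r1).symm.trans (t1.symm.trans (hcr.trans (t2.trans (mE r2))))
    rwa [hE, Finset.coe_union] at h4
  have c4 := reach_chain X hreach
  have c5 := (d1.trans c4).trans (Ch_sym d2)
  have := N2_le c5
  unfold YT
  omega

theorem nmv_tri (v w : Vtx) (p : ℤ × ℤ) : nmv v (fc w) ≤ nmv v p + nmv w p := by
  unfold nmv fc
  simp only
  have a1 := abs_cases (w.1 + w.2 - (v.1 + v.2))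
  have a2 := abs_cases (w.1 - w.2 - (v.1 - v.2))
  have a3 := abs_cases (p.1 - (v.1 + v.2))
  have a4 := abs_cases (p.2 - (v.1 - v.2))
  have a5 := abs_cases (p.1 - (w.1 + w.2))
  have a6 := abs_cases (p.2 - (w.1 - w.2))
  omega

/-- superadditivity for two vertices -/
theorem N2_super (F : Finset Edg) {v w : Vtx} {r R : ℕ} (h : 2 * ((r:ℤ) + R) + 2 ≤ nmv v (fc w)) :
    NA F v 0 r + NA F w 0 R ≤ N2 F v w := by
  have hc := N2_spec F v w
  by_cases hr : r = 0
  · subst hr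
    have e1 : NA F v 0 0 ≤ 0 := Nat.sInf_le ⟨fc v, fc v, by simp [nmv, fc], by simp [nmv, fc],
      Ch.refl _ _⟩
    have e2 : NA F w 0 R ≤ N2 F v w := Nat.sInf_le ⟨fc w, fc v, by simp [nmv, fc], by
      have : nmv w (fc v) = nmv v (fc w) := by
        rw [nmv_fc, nmv_fc, abs_sub_comm, abs_sub_comm v.2]
      rw [this]; push_cast at h; linarith, Ch_sym hc⟩
    omega
  · have h0 : nmv v (fc v) < 2 * (r:ℤ) := by
      have : nmv v (fc v) = 0 := by simp [nmv, fc]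
      rw [this]; omega
    obtain ⟨c', c, K1, K2, hc1, hc2, hmv, hK, hch1, hch2⟩ :=
      Pool.Agent.W21.EN.Ch_exit (fun x => nmv v x < 2 * (r : ℤ)) hc h0 (by omega)
    have hm := Pool.Agent.W21.EN.nmv_move v hmv
    have ht := nmv_tri v w c
    have e1 : NA F v 0 r ≤ K1 := Nat.sInf_le ⟨fc v, c, by simp [nmv, fc], not_lt.1 hc2, hch1⟩
    have e2 : NA F w 0 R ≤ K2 := Nat.sInf_le ⟨fc w, c, by simp [nmv, fc], by omega, Ch_sym hch2⟩
    omega

end Pool.Agent.H953.Nst
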