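import Pool.Agent.H953.Nst6

/-!
Gluing above the critical point.
-/

set_option autoImplicit false

namespace Pool.Agent.H953.Nst

open H974 H906.Cyl Finset Pool.Agent.W819.EN Pool.Agent.W819.NC

theorem bx_disj {v w : Vtx} {a b : ℕ} (h : (a:ℤ) + b < |v.1 - w.1|) :
    Disjoint (bx v a) (bx w b) := by
  rw [Finset.disjoint_left]
  intro e h1 h2
  unfold bx at h1 h2
  have := abs_cases (v.1 - w.1)
  obtain ⟨x, y, _ | _⟩ := e
  · rw [mem_RE_false] at h1 h2; omega
  · rw [mem_RE_true] at h1 h2; omega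

/-- the second vertex -/
abbrev zz (m : ℕ) : Vtx := (8 * (m:ℤ), 0)

theorem Ex_two {q t : ℝ} {m a : ℕ} (ha : a ≤ 3 * m) (hm : 1 ≤ m) {U : Finset Edg}
    (h1 : bx (0, 0) a ⊆ U) (h2 : bx (zz m) a ⊆ U) :
    Ex (Pq q) U (fun F => t ^ (NA F (0, 0) 0 a + NA F (zz m) 0 a)) = Gq q t 0 a * Gq q t 0 a := by
  have hd : Disjoint (bx (0, 0) a) (bx (zz m) a) := by
    apply bx_disj
    have := abs_cases ((0:ℤ) - 8 * m)
    simp only
    omega
  have e1 : Ex (Pq q) U (fun F => t ^ (NA F (0, 0) 0 a + NA F (zz m) 0 a)) =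
      Ex (Pq q) U (fun F => t ^ NA F (0, 0) 0 a * t ^ NA F (zz m) 0 a) := by
    apply Ex_congr; intro F _; rw [pow_add]
  rw [e1, Ex_mul_indep h1 h2 hd
    (fun F _ => by rw [Pool.Agent.W672.NC.loc' geoNA (Nat.zero_le a) sdiff_subset F])
    (fun F _ => by rw [Pool.Agent.W672.NC.loc' geoNA (Nat.zero_le a) sdiff_subset F]),
    Gq_loc q t (Nat.zero_le a) h1, Gq_loc q t (Nat.zero_le a) h2]

/-- gluing of the neighbourhoods of the two vertices -/
theorem GL2 {t : ℝ} (t0 : 0 < t) (t1 : t ≤ 1) : ∃ B : ℝ, 1 ≤ B ∧ ∀ q : ℝ, 1/2 ≤ q → q ≤ 1 →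
    ∀ (m : ℕ) (U : Finset Edg), 2 ≤ m → bx (0, 0) (10 * m : ℕ) ⊆ U →
    Gq q t 0 (2 * m) * Gq q t 0 (2 * m) ≤
      B * Ex (Pq q) U (fun F => t ^ N2 F (0, 0) (zz m)) := by
  obtain ⟨A, hA, hdbl⟩ := dblO t0 t1
  obtain ⟨C1, hC1, hK⟩ := tailK (1/2) (by norm_num) (by norm_num) 3
  obtain ⟨C2, hC2, hW⟩ := tailW (1/2) (by norm_num) (by norm_num)
  obtain ⟨n, hn⟩ : ∃ n : ℕ, 2 * (A ^ 4 * (C1 + 2 * C2)) < 2 ^ n :=
    pow_unbounded_of_one_lt _ (by norm_num)
  have htK : 0 < t ^ (4 * n) := by positivity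
  have htK1 : t ^ (4 * n) ≤ 1 := pow_le_one₀ t0.le t1
  refine ⟨2 / t ^ (4 * n), by rw [le_div_iff₀ htK]; linarith, ?_⟩
  intro q q0 q1 m U hm hU
  have q0' : (0:ℝ) ≤ q := by linarith
  have ok := okP q0' q1
  have u1 : ∀ a : ℕ, a ≤ 10 * m → bx (0, 0) a ⊆ U := fun a ha => (bx_sub ha).trans hU
  have u2 : ∀ a : ℕ, a ≤ 2 * m → bx (zz m) a ⊆ U := by
    intro a ha
    refine Finset.Subset.trans ?_ hU
    unfold bx
    exact RE_subset (by simp only; push_cast; omega) (by simp only; push_cast; omega)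
      (by simp only; push_cast; omega) (by simp only; push_cast; omega)
  have u3 : LRE (m:ℤ) (7 * m) (-m) m ⊆ U := by
    refine LRE_subset_RE.trans (Finset.Subset.trans ?_ hU)
    unfold bx
    exact RE_subset (by simp only; push_cast; omega) (by simp only; push_cast; omega)
      (by simp only; push_cast; omega) (by simp only; push_cast; omega)
  set T2 : Finset Edg := an (0, 0) m (2 * m) ∪ an (zz m) m (2 * m) ∪
    LRE (m:ℤ) (7 * m) (-m) m with hT2
  have d := decoup (q := q) (t := t) q0' q1 t0 t1 (U := U)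
    (T1 := bx (0, 0) (m - 1 : ℕ) ∪ bx (zz m) (m - 1 : ℕ)) (T2 := T2)
    (Finset.union_subset (u1 _ (by omega)) (u2 _ (by omega)))
    (Finset.union_subset (Finset.union_subset (sdiff_subset.trans (u1 _ (by omega)))
      (sdiff_subset.trans (u2 _ le_rfl))) u3)
    (by
      rw [Finset.disjoint_left]
      intro e h1 h2
      rw [hT2] at h2
      unfold an at h2
      rw [Finset.mem_union] at h1
      rw [Finset.mem_union, Finset.mem_union, Finset.mem_sdiff, Finset.mem_sdiff] at h2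
      unfold bx at h1 h2
      simp only at h1 h2
      have c1 : ((m - 1 : ℕ) : ℤ) = m - 1 := by omega
      have c2 : ((2 * m : ℕ) : ℤ) = 2 * m := by push_cast; ring
      rw [c1] at h1
      rw [c2] at h2
      obtain ⟨x, y, _ | _⟩ := e
      · simp only [mem_RE_false, mem_LRE_false] at h1 h2
        omega
      · simp only [mem_RE_true, mem_LRE_true] at h1 h2
        omega)
    (N := fun F => N2 F (0, 0) (zz m))
    (X := fun F => NA F (0, 0) 0 (2 * m) + NA F (zz m) 0 (2 * m))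
    (X' := fun F => NA F (0, 0) 0 (m - 1) + NA F (zz m) 0 (m - 1)) (Y := YT m)
    (fun F _ => N2_join F (by omega))
    (fun F _ => Nat.add_le_add (geoNA.mono F _ _ _ _ _ le_rfl (by omega))
      (geoNA.mono F _ _ _ _ _ le_rfl (by omega)))
    (fun F _ => by
      rw [Pool.Agent.W672.NC.loc' geoNA (Nat.zero_le (m - 1)) (sdiff_subset.trans
        Finset.subset_union_left : an (0, 0) 0 (m - 1) ⊆ bx (0, 0) (m - 1 : ℕ) ∪ bx (zz m) (m - 1 : ℕ)) F,
        Pool.Agent.W672.NC.loc' geoNA (Nat.zero_le (m - 1)) (sdiff_subset.trans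
        Finset.subset_union_right : an (zz m) 0 (m - 1) ⊆ bx (0, 0) (m - 1 : ℕ) ∪ bx (zz m) (m - 1 : ℕ)) F])
    (fun F _ => by
      unfold YT
      have i2 : ∀ S : Finset Edg, S ⊆ T2 → F ∩ T2 ∩ S = F ∩ S := by
        intro S hS
        rw [Finset.inter_assoc, Finset.inter_eq_right.2 hS]
      have w := Pool.Agent.W405.NC.t_WLOC
      have k := Pool.Agent.W405.NC.t_KLOC
      rw [w F (0, 0) m (by omega), w (F ∩ T2) (0, 0) m (by omega),
        i2 _ (Finset.subset_union_left.trans Finset.subset_union_left),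
        w F (8 * (m:ℤ), 0) m (by omega), w (F ∩ T2) (8 * (m:ℤ), 0) m (by omega),
        i2 _ (Finset.subset_union_right.trans Finset.subset_union_left),
        k F, k (F ∩ T2), i2 _ Finset.subset_union_right]) (4 * n)
  rw [Ex_two (by omega) (by omega) (u1 _ (by omega)) (u2 _ le_rfl),
    Ex_two (by omega) (by omega) (u1 _ (by omega)) (u2 _ (by omega))] at d
  -- the tail
  have tl : Pr (Pq q) U (fun F => 4 * n < YT m F) ≤ (C1 + 2 * C2) * (1/2) ^ n := by
    have e1 := hK q q0 q1 m (7 * m) (-m) m U (by omega) (by omega) (by push_cast; omega) u3 n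
    have e2 := hW q q0 q1 (0, 0) m U (by omega) (by exact_mod_cast u1 (2 * m) (by omega)) n
    have e3 := hW q q0 q1 (zz m) m U (by omega) (by exact_mod_cast u2 (2 * m) le_rfl) n
    have e4 : Pr (Pq q) U (fun F => 4 * n < YT m F) ≤ Pr (Pq q) U (fun F =>
        n < Kc F m (7 * m) (-m) m ∨ (n < Wc F (0, 0) m ∨ n < Wc F (zz m) m)) := by
      apply Pr_mono ok
      intro F _ hF
      unfold YT at hF
      have : zz m = (8 * (m:ℤ), 0) := rfl
      rw [this]
      omega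
    have e5 := Pr_or_le ok U (fun F => n < Kc F m (7 * m) (-m) m)
      (fun F => n < Wc F (0, 0) m ∨ n < Wc F (zz m) m)
    have e6 := Pr_or_le ok U (fun F => n < Wc F (0, 0) m) (fun F => n < Wc F (zz m) m)
    linarith
  have g1 : Gq q t 0 (m - 1) ≤ A ^ 2 * Gq q t 0 (2 * m) := by
    have i1 := hdbl q q0 q1 0 (m - 1) (by omega) (by omega)
    have i2 := hdbl q q0 q1 0 (2 * (m - 1)) (by omega) (by omega)
    have m1 : Gq q t 0 (2 * (m - 1)) ≤ Gq q t 0 (m) :=
      Gq_mono q0' q1 t0 t1 le_rfl (by omega) (by omega)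
    have i3 := hdbl q q0 q1 0 m (by omega) (by omega)
    calc Gq q t 0 (m - 1) ≤ A * Gq q t 0 (2 * (m - 1)) := i1
      _ ≤ A * Gq q t 0 m := mul_le_mul_of_nonneg_left m1 (by linarith)
      _ ≤ A * (A * Gq q t 0 (2 * m)) := mul_le_mul_of_nonneg_left i3 (by linarith)
      _ = _ := by ring
  set g := Gq q t 0 (2 * m) with hg
  have hg0 : 0 < g := Gq_pos q0' q1 t0 t1 _ _
  have hg' : 0 < Gq q t 0 (m - 1) := Gq_pos q0' q1 t0 t1 _ _
  have hp0 := Pr_nonneg ok U (fun F => 4 * n < YT m F)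
  have k1 : Gq q t 0 (m - 1) * Gq q t 0 (m - 1) ≤ A ^ 4 * (g * g) := by
    calc _ ≤ (A ^ 2 * g) * (A ^ 2 * g) := mul_le_mul g1 g1 hg'.le (by positivity)
      _ = _ := by ring
  have k2 : Gq q t 0 (m - 1) * Gq q t 0 (m - 1) * Pr (Pq q) U (fun F => 4 * n < YT m F) ≤
      1/2 * (g * g) := by
    calc _ ≤ A ^ 4 * (g * g) * ((C1 + 2 * C2) * (1/2) ^ n) :=
          mul_le_mul k1 tl hp0 (by positivity)
      _ = (A ^ 4 * (C1 + 2 * C2)) * (1/2) ^ n * (g * g) := by ring
      _ ≤ 1/2 * (g * g) := by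
          apply mul_le_mul_of_nonneg_right _ (by positivity)
          rw [one_div, inv_pow, ← div_eq_mul_inv, div_le_iff₀ (by positivity)]
          linarith
  have k3 : t ^ (4 * n) * (1/2 * (g * g)) ≤ Ex (Pq q) U (fun F => t ^ N2 F (0, 0) (zz m)) := by
    refine (mul_le_mul_of_nonneg_left ?_ htK.le).trans d
    linarith
  rw [div_mul_eq_mul_div, le_div_iff₀ htK]
  linarith

end Pool.Agent.H953.Nst
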