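import Pool.Agent.H953.Nst7

/-!
Quasi-multiplicativity above the critical point.
-/

set_option autoImplicit false

namespace Pool.Agent.H953.Nst

open H974 H906.Cyl Finset Pool.Agent.W819.EN Pool.Agent.W819.NC

theorem an_sub {v : Vtx} {a b c d : ℕ} (h1 : c ≤ a) (h2 : b ≤ d) : an v a b ⊆ an v c d := by
  unfold an
  apply Finset.sdiff_subset_sdiff (bx_sub h2)
  unfold bx
  exact RE_subset (by omega) (by omega) (by omega) (by omega)

theorem an_disj {v : Vtx} {a b c d : ℕ} (h : b < c) : Disjoint (an v a b) (an v c d) := by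
  rw [Finset.disjoint_left]
  intro e h1 h2
  unfold an at h1 h2
  rw [Finset.mem_sdiff] at h1 h2
  apply h2.2
  have h3 := h1.1
  unfold bx at h3 ⊢
  exact RE_subset (by omega) (by omega) (by omega) (by omega) h3

theorem Ex_ann {q t : ℝ} {v : Vtx} {a b R : ℕ} (hab : a < b) (hbR : b ≤ R) {U : Finset Edg}
    (hU : bx v R ⊆ U) :
    Ex (Pq q) U (fun F => t ^ (NA F v 0 a + NA F v b R)) = Gq q t 0 a * Gq q t b R := by
  have e1 : Ex (Pq q) U (fun F => t ^ (NA F v 0 a + NA F v b R)) =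
      Ex (Pq q) U (fun F => t ^ NA F v 0 a * t ^ NA F v b R) := by
    apply Ex_congr; intro F _; rw [pow_add]
  rw [e1, Ex_mul_indep (S := an v 0 a) (T := an v b R)
    (sdiff_subset.trans ((bx_sub (by omega)).trans hU)) (sdiff_subset.trans hU) (an_disj hab)
    (fun F _ => by rw [geoNA.loc F v 0 a (Nat.zero_le a)])
    (fun F _ => by rw [geoNA.loc F v b R hbR]),
    Gq_loc q t (Nat.zero_le a) ((bx_sub (by omega)).trans hU), Gq_loc q t hbR hU]

/-- quasi-multiplicativity -/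
theorem QM {t : ℝ} (t0 : 0 < t) (t1 : t ≤ 1) : ∃ B : ℝ, 1 ≤ B ∧ ∀ q : ℝ, 1/2 ≤ q → q ≤ 1 →
    ∀ a b R : ℕ, a < b → b ≤ 4 * (a + 1) → 4 * b ≤ R →
    Gq q t 0 a * Gq q t b R ≤ B * Gq q t 0 R := by
  obtain ⟨A, hA, hdO⟩ := dblO t0 t1
  obtain ⟨A', hA', hdI⟩ := dblI t0 t1
  obtain ⟨C1, hC1, hY⟩ := YY_tail (1/2) (by norm_num) (by norm_num)
  obtain ⟨C2, hC2, hW⟩ := tailW (1/2) (by norm_num) (by norm_num)
  set D : ℝ := (A ^ 3 + (t ^ 6)⁻¹) * A' ^ 2 with hD
  have hD0 : 0 < D := by positivity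
  obtain ⟨n, hn⟩ : ∃ n : ℕ, 2 * (D * (C1 + C2)) < 2 ^ n :=
    pow_unbounded_of_one_lt _ (by norm_num)
  have htK : 0 < t ^ (4 + 5 * n) := by positivity
  have htK1 : t ^ (4 + 5 * n) ≤ 1 := pow_le_one₀ t0.le t1
  refine ⟨2 / t ^ (4 + 5 * n), by rw [le_div_iff₀ htK]; linarith, ?_⟩
  intro q q0 q1 a b R hab hba hbR
  have q0' : (0:ℝ) ≤ q := by linarith
  have ok := okP q0' q1
  obtain ⟨b1, hb1⟩ : ∃ b1, b1 = max 1 (a / 2) := ⟨_, rfl⟩
  have hb11 : 1 ≤ b1 := by omega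
  have hb12 : b1 ≤ b := by omega
  set U := bx (0, 0) (R : ℕ) with hU
  have d := decoup (q := q) (t := t) q0' q1 t0 t1 (U := U)
    (T1 := an (0, 0) 0 (b1 - 1) ∪ an (0, 0) (2 * b + 1) R) (T2 := an (0, 0) b1 (2 * b))
    (Finset.union_subset (sdiff_subset.trans (bx_sub (by omega))) sdiff_subset)
    (sdiff_subset.trans (bx_sub (by omega)))
    (by
      rw [Finset.disjoint_union_left]
      exact ⟨an_disj (by omega), (an_disj (by omega)).symm⟩)
    (N := fun F => NA F (0, 0) 0 R) (X := fun F => NA F (0, 0) 0 a + NA F (0, 0) b R)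
    (X' := fun F => NA F (0, 0) 0 (b1 - 1) + NA F (0, 0) (2 * b + 1) R)
    (Y := fun F => 4 + Wc F (0, 0) b + YY (0, 0) b1 b1 (2 * b) F)
    (fun F _ => by
      have j1 := Pool.Agent.W405.NC.t_JOIN F (0, 0) b1 0 R hb11 (by omega) (by omega)
      have j2 := Pool.Agent.W405.NC.t_JOIN F (0, 0) b b1 R (by omega) (by omega) (by omega)
      have k := Pool.Agent.W12.NC.t_RIGHT F (0, 0) b1 b1 (2 * b) le_rfl (by omega)
      have j3 : NA F (0, 0) 0 (2 * b1) ≤ NA F (0, 0) 0 a + 4 := by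
        by_cases ha : 2 ≤ a
        · have := geoNA.mono F (0, 0) 0 0 (2 * b1) a le_rfl (by omega)
          omega
        · have := geoNA.le F (0, 0) 0 (2 * b1)
          omega
      unfold YY
      omega)
    (fun F _ => Nat.add_le_add (geoNA.mono F _ _ _ _ _ le_rfl (by omega))
      (geoNA.mono F _ _ _ _ _ (by omega) le_rfl))
    (fun F _ => by
      rw [Pool.Agent.W672.NC.loc' geoNA (Nat.zero_le (b1 - 1)) Finset.subset_union_left F,
        Pool.Agent.W672.NC.loc' geoNA (by omega : 2 * b + 1 ≤ R) Finset.subset_union_right F])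
    (fun F _ => by
      have w := Pool.Agent.W405.NC.t_WLOC
      have i2 : F ∩ an (0, 0) b1 (2 * b) ∩ an (0, 0) b (2 * b) = F ∩ an (0, 0) b (2 * b) := by
        rw [Finset.inter_assoc, Finset.inter_eq_right.2 (an_sub hb12 le_rfl)]
      rw [w F (0, 0) b (by omega), w (F ∩ an (0, 0) b1 (2 * b)) (0, 0) b (by omega), i2,
        ← YY_loc hb11 (by omega) (an_sub le_rfl (by omega)) (Finset.Subset.refl _) F]) (4 + 5 * n)
  rw [Ex_ann hab (by omega) (by rw [hU]), Ex_ann (by omega) (by omega) (by rw [hU]),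
    Gq_loc q t (Nat.zero_le R) (by rw [hU])] at d
  -- the tail
  have tl : Pr (Pq q) U (fun F => 4 + 5 * n < 4 + Wc F (0, 0) b + YY (0, 0) b1 b1 (2 * b) F) ≤
      (C1 + C2) * (1/2) ^ n := by
    have e1 := hY q q0 q1 (0, 0) b1 b1 (2 * b) U hb11 hb11 (by omega) (by omega)
      (bx_sub (by omega)) (by exact_mod_cast bx_sub (by omega : 2 * b1 ≤ R)) n
    have e2 := hW q q0 q1 (0, 0) b U (by omega) (by exact_mod_cast bx_sub (by omega : 2 * b ≤ R)) n
    have e4 : Pr (Pq q) U (fun F => 4 + 5 * n < 4 + Wc F (0, 0) b + YY (0, 0) b1 b1 (2 * b) F) ≤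
        Pr (Pq q) U (fun F => 4 * n < YY (0, 0) b1 b1 (2 * b) F ∨ n < Wc F (0, 0) b) := by
      apply Pr_mono ok
      intro F _ hF
      omega
    have e5 := Pr_or_le ok U (fun F => 4 * n < YY (0, 0) b1 b1 (2 * b) F)
      (fun F => n < Wc F (0, 0) b)
    linarith
  have ga : 0 < Gq q t 0 a := Gq_pos q0' q1 t0 t1 _ _
  have gb : 0 < Gq q t b R := Gq_pos q0' q1 t0 t1 _ _
  have g1 : Gq q t 0 (b1 - 1) ≤ (A ^ 3 + (t ^ 6)⁻¹) * Gq q t 0 a := by
    by_cases hb2 : 2 ≤ b1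
    · have i1 := hdO q q0 q1 0 (b1 - 1) (by omega) (by omega)
      have i2 := hdO q q0 q1 0 (2 * (b1 - 1)) (by omega) (by omega)
      have i3 := hdO q q0 q1 0 (2 * (2 * (b1 - 1))) (by omega) (by omega)
      have m1 : Gq q t 0 (2 * (2 * (2 * (b1 - 1)))) ≤ Gq q t 0 a :=
        Gq_mono q0' q1 t0 t1 le_rfl (by omega) (by omega)
      have : 0 < (t ^ 6)⁻¹ := by positivity
      calc Gq q t 0 (b1 - 1) ≤ A * Gq q t 0 (2 * (b1 - 1)) := i1
        _ ≤ A * (A * Gq q t 0 (2 * (2 * (b1 - 1)))) := mul_le_mul_of_nonneg_left i2 (by linarith)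
        _ ≤ A * (A * (A * Gq q t 0 (2 * (2 * (2 * (b1 - 1)))))) := by
            apply mul_le_mul_of_nonneg_left _ (by linarith)
            exact mul_le_mul_of_nonneg_left i3 (by linarith)
        _ ≤ A * (A * (A * Gq q t 0 a)) := by
            apply mul_le_mul_of_nonneg_left _ (by linarith)
            apply mul_le_mul_of_nonneg_left _ (by linarith)
            exact mul_le_mul_of_nonneg_left m1 (by linarith)
        _ = A ^ 3 * Gq q t 0 a := by ring
        _ ≤ _ := by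
            apply mul_le_mul_of_nonneg_right _ ga.le
            linarith
    · have h1 := Gq_le_one q0' q1 t0 t1 0 (b1 - 1)
      have h2 := Gq_lower q0' q1 t0 t1 0 a
      have h3 : t ^ 6 ≤ t ^ (2 * a) := pow_le_pow_of_le_one t0.le t1 (by omega)
      have h4 : 1 ≤ (t ^ 6)⁻¹ * Gq q t 0 a := by
        rw [inv_mul_eq_div, le_div_iff₀ (by positivity)]
        linarith
      have h5 : 0 ≤ A ^ 3 * Gq q t 0 a := by positivity
      rw [add_mul]
      linarith
  have g2 : Gq q t (2 * b + 1) R ≤ A' ^ 2 * Gq q t b R := by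
    have i1 := hdI q q0 q1 (2 * b) R (by omega) (by omega)
    have i2 := hdI q q0 q1 b R (by omega) (by omega)
    have m1 : Gq q t (2 * b + 1) R ≤ Gq q t (2 * (2 * b)) R :=
      Gq_mono q0' q1 t0 t1 (by omega) (by omega) le_rfl
    calc _ ≤ A' * Gq q t (2 * b) R := m1.trans i1
      _ ≤ A' * (A' * Gq q t b R) := mul_le_mul_of_nonneg_left i2 (by linarith)
      _ = _ := by ring
  have g3 : Gq q t 0 (b1 - 1) * Gq q t (2 * b + 1) R ≤ D * (Gq q t 0 a * Gq q t b R) := by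
    calc _ ≤ ((A ^ 3 + (t ^ 6)⁻¹) * Gq q t 0 a) * (A' ^ 2 * Gq q t b R) :=
          mul_le_mul g1 g2 (Gq_pos q0' q1 t0 t1 _ _).le (by positivity)
      _ = _ := by rw [hD]; ring
  have hp0 := Pr_nonneg ok U
    (fun F => 4 + 5 * n < 4 + Wc F (0, 0) b + YY (0, 0) b1 b1 (2 * b) F)
  set g := Gq q t 0 a * Gq q t b R with hg
  have hg0 : 0 < g := by positivity
  have k2 : Gq q t 0 (b1 - 1) * Gq q t (2 * b + 1) R *
      Pr (Pq q) U (fun F => 4 + 5 * n < 4 + Wc F (0, 0) b + YY (0, 0) b1 b1 (2 * b) F) ≤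
      1/2 * g := by
    calc _ ≤ D * g * ((C1 + C2) * (1/2) ^ n) := mul_le_mul g3 tl hp0 (by positivity)
      _ = (D * (C1 + C2)) * (1/2) ^ n * g := by ring
      _ ≤ 1/2 * g := by
          apply mul_le_mul_of_nonneg_right _ hg0.le
          rw [one_div, inv_pow, ← div_eq_mul_inv, div_le_iff₀ (by positivity)]
          linarith
  have k3 : t ^ (4 + 5 * n) * (1/2 * g) ≤ Gq q t 0 R := by
    refine (mul_le_mul_of_nonneg_left ?_ htK.le).trans d
    linarith
  rw [div_mul_eq_mul_div, le_div_iff₀ htK]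
  linarith

end Pool.Agent.H953.Nst
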