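import Pool.Agent.H953.Nst8

/-!
The contribution of one edge to the derivative.
-/

set_option autoImplicit false

namespace Pool.Agent.H953.Nst

open H974 H906.Cyl Finset Pool.Agent.W819.EN Pool.Agent.W819.NC
open H12S (bdB)
open H389NS (A4a)
open Pool.Agent.NH39 (A4a_congr)

/-- position of an edge -/
abbrev ps (e : Edg) : Vtx := (e.1, e.2.1)

/-- `e` is pivotal for the number of changes between the two vertices -/
def Pi (m : ℕ) (e : Edg) (F : Finset Edg) : Prop :=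
  N2 (insert e F) (0, 0) (zz m) ≠ N2 F (0, 0) (zz m)

theorem Pi_Pvt {m : ℕ} {e : Edg} {F : Finset Edg} (h : Pi m e F) :
    Pvt (fun p => p = fc (0, 0)) (fun p => p = fc (zz m)) e (↑F : Set Edg) := by
  have hc : (↑(insert e F) : Set Edg) = insert e (↑F : Set Edg) := Finset.coe_insert _ _
  rcases lt_or_gt_of_ne h with h | h
  · refine ⟨N2 (insert e F) (0, 0) (zz m), Or.inl ⟨?_, ?_⟩⟩
    · rw [← hc]; exact N2_le_iff.1 le_rfl
    · intro h2; have := N2_le_iff.2 h2; omega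
  · refine ⟨N2 F (0, 0) (zz m), Or.inr ⟨N2_le_iff.1 le_rfl, ?_⟩⟩
    rw [← hc]
    intro h2; have := N2_le_iff.2 h2; omega

/-- the arms around an edge -/
def Qk (e : Edg) (k : ℕ) (F : Finset Edg) : Prop := 1 ≤ k → Ar (ps e) 1 k (↑F : Set Edg)

theorem ann_not_self {e f : Edg} {k : ℕ} (h : f ∈ H12S.blk (ps e) k \ H12S.blk (ps e) 1) :
    f ≠ e ∧ sg f ≠ e := by
  have h1 := self_blk e
  constructor
  · rintro rfl
    exact (Finset.mem_sdiff.1 h).2 h1.1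
  · rintro rfl
    have := h1.2
    rw [gs_sg] at this
    exact (Finset.mem_sdiff.1 h).2 this

theorem Ar_loc' {c : Vtx} {r k : ℕ} (F : Finset Edg) {T : Finset Edg}
    (hT : ∀ f ∈ H12S.blk c k \ H12S.blk c r, f ∈ T ∧ sg f ∈ T) : Ar c r k (↑F : Set Edg) ↔
      Ar c r k (↑(F ∩ T) : Set Edg) := by
  unfold Ar
  apply or_congr
  · apply A4a_congr
    ext e
    simp only [Set.mem_inter_iff, Finset.mem_coe, Finset.mem_inter]
    constructor
    · rintro ⟨h1, h2⟩; exact ⟨⟨h1, (hT e h2).1⟩, h2⟩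
    · rintro ⟨⟨h1, -⟩, h2⟩; exact ⟨h1, h2⟩
  · apply A4a_congr
    ext e
    simp only [du, Set.mem_inter_iff, Finset.mem_coe, Finset.mem_inter, Set.mem_ofPred_eq]
    constructor
    · rintro ⟨h1, h2⟩; exact ⟨fun h => h1 h.1, h2⟩
    · rintro ⟨h1, h2⟩; exact ⟨fun h => h1 ⟨h, (hT e h2).2⟩, h2⟩

theorem Qk_loc (e : Edg) (k : ℕ) (F : Finset Edg) {T : Finset Edg}
    (hT : (H12S.blk (ps e) (k + 1)).erase e ⊆ T) : Qk e k F ↔ Qk e k (F ∩ T) := by
  unfold Qk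
  apply imp_congr_right
  intro hk
  apply Ar_loc'
  intro f hf
  have h1 := ann_not_self hf
  constructor
  · apply hT
    rw [Finset.mem_erase]
    exact ⟨h1.1, blk_mono (by omega) (Finset.mem_sdiff.1 hf).1⟩
  · apply hT
    rw [Finset.mem_erase]
    exact ⟨h1.2, sg_blk (Finset.mem_sdiff.1 hf).1⟩

theorem Qk_pr : ∃ C : ℝ, 1 ≤ C ∧ ∀ q : ℝ, 0 ≤ q → q ≤ 1 → ∀ (e : Edg) (k : ℕ) (S : Finset Edg),
    (1 ≤ k → H12S.blk (ps e) (k + 1) ⊆ S) →
    Pr (Pq q) (S.erase e) (Qk e k) ≤ C * ((k:ℝ) + 1) ^ (-(5/4) : ℝ) := by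
  obtain ⟨C, hC, h⟩ := Ar_pr
  refine ⟨C * 4, by linarith, ?_⟩
  intro q q0 q1 e k S hS
  have ok := okP q0 q1
  rcases Nat.eq_zero_or_pos k with rfl | hk
  · have := Pr_le_one ok (S.erase e) (Qk e 0)
    simp only [Nat.cast_zero, zero_add, Real.one_rpow, mul_one]
    linarith
  · have e1 : Pr (Pq q) (S.erase e) (Qk e k) = Pr (Pq q) S (Qk e k) := by
      symm
      apply Pr_local (Finset.erase_subset _ _)
      intro F _
      apply Qk_loc
      exact Finset.erase_subset_erase _ (hS hk)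
    have e2 : Pr (Pq q) S (Qk e k) ≤ C * ((1:ℝ) / k) ^ (5/4 : ℝ) := by
      refine le_trans (Pr_mono ok (fun F _ hF => hF hk)) ?_
      have := h q q0 q1 (ps e) 1 k S le_rfl hk (hS hk)
      simpa using this
    rw [e1]
    refine e2.trans ?_
    rw [mul_assoc]
    apply mul_le_mul_of_nonneg_left _ (by linarith)
    have k0 : (0:ℝ) < k := by exact_mod_cast hk
    have k1 : (1:ℝ) ≤ k := by exact_mod_cast hk
    rw [one_div, Real.inv_rpow k0.le, ← Real.rpow_neg k0.le]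
    have h2 : ((k:ℝ) + 1) ≤ 2 * k := by linarith
    have h3 : (2 * (k:ℝ)) ^ (-(5/4) : ℝ) ≤ ((k:ℝ) + 1) ^ (-(5/4) : ℝ) :=
      Real.rpow_le_rpow_of_nonpos (by positivity) h2 (by norm_num)
    rw [Real.mul_rpow (by norm_num) k0.le] at h3
    have h4 : (1:ℝ)/4 ≤ 2 ^ (-(5/4) : ℝ) := by
      have : (2:ℝ) ^ (-(2:ℝ)) ≤ 2 ^ (-(5/4) : ℝ) :=
        Real.rpow_le_rpow_of_exponent_le (by norm_num) (by norm_num)
      refine le_trans ?_ this
      rw [Real.rpow_neg (by norm_num)]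
      norm_num
    have h5 : 0 < (k:ℝ) ^ (-(5/4) : ℝ) := by positivity
    nlinarith

/-- the contribution of one edge -/
noncomputable def JJ (q t : ℝ) (m : ℕ) (S : Finset Edg) (e : Edg) : ℝ :=
  Ex (Pq q) (S.erase e) (fun F => ind (Pi m e F) *
    t ^ min (N2 F (0, 0) (zz m)) (N2 (insert e F) (0, 0) (zz m)))

/-- bound by independent pieces -/
theorem JJ_le {q t : ℝ} (q0 : 0 ≤ q) (q1 : q ≤ 1) (t0 : 0 < t) (t1 : t ≤ 1) {m : ℕ}
    {S : Finset Edg} {e : Edg} {L : Finset Edg → ℕ} {Q : Finset Edg → Prop} {TL TQ : Finset Edg}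
    (hTL : TL ⊆ S.erase e) (hTQ : TQ ⊆ S.erase e) (hd : Disjoint TQ TL)
    (hL : ∀ F, L F ≤ N2 F (0, 0) (zz m)) (lL : ∀ F, L F = L (F ∩ TL))
    (hQ : ∀ F, F ⊆ S.erase e → Pi m e F → Q F) (lQ : ∀ F, Q F ↔ Q (F ∩ TQ)) :
    JJ q t m S e ≤ Pr (Pq q) (S.erase e) Q * Ex (Pq q) (S.erase e) (fun F => t ^ L F) := by
  have ok := okP q0 q1
  unfold Pr
  rw [← Ex_mul_indep hTQ hTL hd (fun F _ => by rw [ind_congr (lQ F)]) (fun F _ => by rw [← lL F])]
  unfold JJ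
  apply Ex_mono ok
  intro F hF
  have hins : L (insert e F) = L F := by
    rw [lL (insert e F), lL F]
    congr 1
    ext f
    simp only [Finset.mem_inter, Finset.mem_insert]
    constructor
    · rintro ⟨rfl | h, h2⟩
      · have := hTL h2
        rw [Finset.mem_erase] at this
        exact absurd rfl this.1
      · exact ⟨h, h2⟩
    · rintro ⟨h, h2⟩; exact ⟨Or.inr h, h2⟩
  have h1 := hL F
  have h2 := hL (insert e F)
  rw [hins] at h2
  apply mul_le_mul (ind_mono (hQ F hF)) _ (by positivity) (ind_nonneg _)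
  exact pow_le_pow_of_le_one t0.le t1 (le_min h1 h2)

theorem N2_pieces (F : Finset Edg) {m : ℕ} (hm : 1 ≤ m) :
    NA F (0, 0) 0 (2 * m) + NA F (zz m) 0 (2 * m) ≤ N2 F (0, 0) (zz m) := by
  apply N2_super
  rw [nmv_fc]
  simp only
  have a1 := abs_cases (8 * (m:ℤ) - 0)
  push_cast
  omega

theorem Zo_of_dist {e : Edg} {k : ℕ} {v : Vtx}
    (h : (k:ℤ) ≤ |v.1 - e.1| ∨ (k:ℤ) ≤ |v.2 - e.2.1|) : Zo (ps e) k (fc v) := by
  rw [Zo_fc]
  exact h

end Pool.Agent.H953.Nst
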