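import Pool.Agent.H953.Sg1

/-!
Below the critical point: the crossing of one annulus, uniform bound.
-/

set_option autoImplicit false
set_option maxHeartbeats 1000000

namespace Pool.Agent.H953

open H974 H12S H389NS Finset
open Pool.Agent.NH39 (InB OutB ann_cross A4a_congr)
open Pool.Agent.NH39.W (wt lam_nonneg lam_le_one)

/-- The law of the crossing of the annulus does not depend on the box. -/
theorem pr_X1_box (p : ℝ) {r D M : ℕ} (hM : D ≤ M) :
    Pr (fun _ => p) (boxE M) (fun F => X1 r D (↑F : Set Edg)) =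
      Pr (fun _ => p) (boxE D) (fun F => X1 r D (↑F : Set Edg)) := by
  apply Pr_local (boxE_mono hM)
  intro F _
  apply X1_congr
  ext e
  have hb : blk (0, 0) D = boxE D := H389NS.S4C_blk0 D
  simp only [Set.mem_inter_iff, Finset.coe_inter, Finset.mem_coe, Finset.mem_sdiff, hb]
  tauto

/-- The product bound for two annuli. -/
theorem X1_mul {p : ℝ} (h0 : 0 ≤ p) (h1 : p ≤ 1) {r s D : ℕ} (hrs : r ≤ s) (hsD : s ≤ D) :
    Pr (fun _ => p) (boxE D) (fun F => X1 r D (↑F : Set Edg)) ≤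
      Pr (fun _ => p) (boxE D) (fun F => X1 r s (↑F : Set Edg)) *
        Pr (fun _ => p) (boxE D) (fun F => X1 s D (↑F : Set Edg)) := by
  have ok := okq h0 h1
  have hbs : blk (0, 0) s = boxE s := H389NS.S4C_blk0 s
  have hbD : blk (0, 0) D = boxE D := H389NS.S4C_blk0 D
  have i1 : Pr (fun _ => p) (boxE D) (fun F => X1 r D (↑F : Set Edg)) ≤
      Pr (fun _ => p) (boxE D) (fun F => X1 r s (↑F : Set Edg) ∧ X1 s D (↑F : Set Edg)) :=
    Pr_mono ok (fun F _ h => X1_split hrs hsD h)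
  refine i1.trans (le_of_eq ?_)
  refine Pr_indep (S := boxE s) (T := boxE D \ boxE s) (boxE_mono hsD) Finset.sdiff_subset
    Finset.disjoint_sdiff ?_ ?_
  · intro F _
    apply X1_congr
    ext e
    simp only [Set.mem_inter_iff, Finset.coe_inter, Finset.mem_coe, Finset.mem_sdiff, hbs]
    tauto
  · intro F _
    apply X1_congr
    ext e
    simp only [Set.mem_inter_iff, Finset.coe_inter, Finset.mem_coe, Finset.mem_sdiff, hbs, hbD]
    tauto

/-- The crossing of an annulus around the origin, below the critical point. -/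
theorem X1b : ∃ C : ℝ, 1 ≤ C ∧ ∀ p : ℝ, 0 ≤ p → p < 1/2 → ∀ r D M : ℕ, 1 ≤ r → r ≤ D → D ≤ M →
    Pr (fun _ => p) (boxE M) (fun F => X1 r D (↑F : Set Edg)) ≤ C * (vb p D / vb p r) := by
  obtain ⟨C1, hC1, hsup⟩ := X1_le
  obtain ⟨E, hE, hfar⟩ := Pool.Agent.W424.NC.farS
  obtain ⟨A, hA⟩ : ∃ A : ℝ, A = C1 * (2 * E) * (1 + 2 * E) ^ 2 := ⟨_, rfl⟩
  have hA1 : 1 ≤ A := by
    rw [hA]
    have h1 : 1 ≤ C1 * (2 * E) := by nlinarith
    have h2 : 1 ≤ (1 + 2 * E) ^ 2 := one_le_pow₀ (by linarith)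
    nlinarith
  refine ⟨A * 512, by linarith, ?_⟩
  intro p p0 hp r D M hr hrD hDM
  have p1 : p ≤ 1 := by linarith
  have ok := okq p0 p1
  obtain ⟨t, ht⟩ : ∃ t : ℝ, t = 1/2 - p := ⟨_, rfl⟩
  have ht0 : 0 < t := by rw [ht]; linarith
  have ht1 : t ≤ 1 := by rw [ht]; linarith
  obtain ⟨l, hl⟩ : ∃ l : ℝ, l = t ^ (4/3 : ℝ) := ⟨_, rfl⟩
  have hl0 : 0 < l := by rw [hl]; positivity
  have hl1 : l ≤ 1 := by rw [hl]; exact Real.rpow_le_one ht0.le ht1 (by norm_num)
  have hlp : |p - 1/2| ^ (4/3 : ℝ) = l := by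
    rw [hl, ht, abs_sub_comm, abs_of_pos (by linarith)]
  have hl' : t ^ (5/36 : ℝ) = l ^ (5/48 : ℝ) := by
    rw [hl, ← Real.rpow_mul ht0.le]; norm_num
  -- the ratio of the weights
  have hratio : ∀ a b : ℕ, 1 ≤ a → a ≤ b → vb p b / vb p a =
      ((b:ℝ) / a) ^ (-(5/48) : ℝ) * ((1 + l * a) / (1 + l * b)) ^ 2 := by
    intro a b ha hb
    have ha0 : (0:ℝ) < a := by exact_mod_cast ha
    have hb0 : (0:ℝ) < b := by exact_mod_cast (by omega : 0 < b)
    unfold vb
    rw [hlp, Real.div_rpow hb0.le ha0.le]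
    have h1 : (0:ℝ) < (a:ℝ) ^ (-(5/48) : ℝ) := by positivity
    have h2 : (0:ℝ) < (b:ℝ) ^ (-(5/48) : ℝ) := by positivity
    field_simp
  -- the scale
  obtain ⟨N0, hN0a, hN0b⟩ : ∃ N0 : ℕ, E / l ≤ N0 ∧ (N0:ℝ) ≤ 2 * (E / l) := by
    have h1 : 1 ≤ E / l := by rw [le_div_iff₀ hl0]; linarith
    refine ⟨⌈E / l⌉₊, Nat.le_ceil _, ?_⟩
    have := Nat.ceil_lt_add_one (show 0 ≤ E / l by positivity)
    linarith
  have hN01 : 1 ≤ N0 := by
    have h1 : 1 ≤ E / l := by rw [le_div_iff₀ hl0]; linarith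
    have h2 : (1:ℝ) ≤ N0 := h1.trans hN0a
    exact_mod_cast h2
  have hlN : l * N0 ≤ 2 * E := by
    have := mul_le_mul_of_nonneg_left hN0b hl0.le
    calc l * N0 ≤ l * (2 * (E / l)) := this
      _ = 2 * E := by field_simp
  -- near
  have near : ∀ a b M : ℕ, 1 ≤ a → a ≤ b → b ≤ N0 → b ≤ M →
      Pr (fun _ => p) (boxE M) (fun F => X1 a b (↑F : Set Edg)) ≤ A * (vb p b / vb p a) := by
    intro a b M ha hab hbN hbM
    have ha0 : (0:ℝ) < a := by exact_mod_cast ha
    have hb0 : (0:ℝ) < b := by exact_mod_cast (by omega : 0 < b)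
    have hab' : (a:ℝ) ≤ b := by exact_mod_cast hab
    have hbN' : (b:ℝ) ≤ N0 := by exact_mod_cast hbN
    have hlb : l * b ≤ 2 * E := (mul_le_mul_of_nonneg_left hbN' hl0.le).trans hlN
    have h1 : Pr (fun _ => p) (boxE M) (fun F => X1 a b (↑F : Set Edg)) ≤
        Pr (fun _ => 1 - p) (boxE M) (fun F => X1 a b (↑F : Set Edg)) := by
      apply Pr_mono_param ok (okq (by linarith) (by linarith)) (fun _ => by linarith)
      intro F G hFG _ hF
      exact X1_mono (by exact_mod_cast hFG) hF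
    have h2 := hsup (1 - p) (by linarith) (by linarith) a b M ha hab hbM
    have h3 : va (1 - p) b ≤ 2 * E * (b:ℝ) ^ (-(5/48) : ℝ) := by
      unfold va
      have e1 : 1 - p - 1/2 = t := by rw [ht]; ring
      rw [e1, hl']
      apply max_le
      · have : (0:ℝ) < (b:ℝ) ^ (-(5/48) : ℝ) := by positivity
        nlinarith
      · have e2 : l ≤ 2 * E / b := by rw [le_div_iff₀ hb0]; exact hlb
        have e3 : l ^ (5/48 : ℝ) ≤ (2 * E / b) ^ (5/48 : ℝ) :=
          Real.rpow_le_rpow hl0.le e2 (by norm_num)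
        refine e3.trans ?_
        rw [Real.div_rpow (by linarith) hb0.le, Real.rpow_neg hb0.le, ← div_eq_mul_inv]
        apply div_le_div_of_nonneg_right _ (by positivity)
        calc (2 * E) ^ (5/48 : ℝ) ≤ (2 * E) ^ (1:ℝ) :=
              Real.rpow_le_rpow_of_exponent_le (by linarith) (by norm_num)
          _ = 2 * E := Real.rpow_one _
    have h4 : (a:ℝ) ^ (-(5/48) : ℝ) ≤ va (1 - p) a := le_max_left _ _
    have h5 : (0:ℝ) < (a:ℝ) ^ (-(5/48) : ℝ) := by positivity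
    have h6 : va (1 - p) b / va (1 - p) a ≤ 2 * E * ((b:ℝ) / a) ^ (-(5/48) : ℝ) := by
      rw [Real.div_rpow hb0.le ha0.le, ← mul_div_assoc]
      exact div_le_div₀ (by positivity) h3 h5 h4
    rw [hratio a b ha hab]
    have h7 : 1 ≤ (1 + 2 * E) ^ 2 * ((1 + l * a) / (1 + l * b)) ^ 2 := by
      rw [← mul_pow]
      apply one_le_pow₀
      rw [← mul_div_assoc, le_div_iff₀ (by positivity)]
      have : 0 ≤ l * a := by positivity
      nlinarith
    have h8 : 0 ≤ C1 * (2 * E * ((b:ℝ) / a) ^ (-(5/48) : ℝ)) := by positivity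
    calc Pr (fun _ => p) (boxE M) (fun F => X1 a b (↑F : Set Edg))
        ≤ C1 * (va (1 - p) b / va (1 - p) a) := h1.trans h2
      _ ≤ C1 * (2 * E * ((b:ℝ) / a) ^ (-(5/48) : ℝ)) :=
          mul_le_mul_of_nonneg_left h6 (by linarith)
      _ ≤ C1 * (2 * E * ((b:ℝ) / a) ^ (-(5/48) : ℝ)) *
          ((1 + 2 * E) ^ 2 * ((1 + l * a) / (1 + l * b)) ^ 2) := le_mul_of_one_le_right h8 h7
      _ = _ := by rw [hA]; ring
  -- far
  have far : ∀ a b M : ℕ, 1 ≤ a → a ≤ b → N0 ≤ a → b ≤ M →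
      Pr (fun _ => p) (boxE M) (fun F => X1 a b (↑F : Set Edg)) ≤ 512 * (vb p b / vb p a) := by
    intro a b M ha hab haN hbM
    have ha0 : (0:ℝ) < a := by exact_mod_cast ha
    have hb0 : (0:ℝ) < b := by exact_mod_cast (by omega : 0 < b)
    have hab' : (a:ℝ) ≤ b := by exact_mod_cast hab
    have he : eps (1 - p) (a + 1) ≤ 1/100 := by
      apply hfar (1 - p) (by linarith) (by linarith)
      have e1 : 1 - p - 1/2 = t := by rw [ht]; ring
      have e2 : t ^ (-(4/3) : ℝ) = l⁻¹ := by rw [Real.rpow_neg ht0.le, hl]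
      rw [e1, e2, ← div_eq_mul_inv]
      refine hN0a.trans ?_
      have : (N0:ℝ) ≤ a := by exact_mod_cast haN
      push_cast
      linarith
    have h1 := X1_far p0 p1 ha hab hbM he
    refine h1.trans ?_
    apply mul_le_mul_of_nonneg_left _ (by norm_num)
    rw [hratio a b ha hab]
    have h2 := u_ratio hl0.le ha0 hab'
    have h3 := pow_le_pow_left₀ (by positivity) h2 2
    have h4 : (a:ℝ) / b ≤ ((b:ℝ) / a) ^ (-(5/48) : ℝ) := by
      have h5 : (1:ℝ) ≤ (b:ℝ) / a := by rw [le_div_iff₀ ha0, one_mul]; exact hab'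
      have h6 : ((b:ℝ) / a) ^ (-(1:ℝ)) ≤ ((b:ℝ) / a) ^ (-(5/48) : ℝ) :=
        Real.rpow_le_rpow_of_exponent_le h5 (by norm_num)
      rw [Real.rpow_neg_one, inv_div] at h6
      exact h6
    calc ((a:ℝ) / b) ^ 3 = (a:ℝ) / b * ((a:ℝ) / b) ^ 2 := by ring
      _ ≤ _ := mul_le_mul h4 h3 (by positivity) (by positivity)
  have vr := vb_pos p hr
  have vD := vb_pos p (hr.trans hrD)
  rcases le_total D N0 with hc | hc
  · refine (near r D M hr hrD hc hDM).trans ?_
    have : 0 < vb p D / vb p r := by positivity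
    nlinarith
  · rcases le_total N0 r with hc2 | hc2
    · refine (far r D M hr hrD hc2 hDM).trans ?_
      have : 0 < vb p D / vb p r := by positivity
      nlinarith
    · have vN := vb_pos p hN01
      rw [pr_X1_box p hDM]
      have h1 := near r N0 D hr hc2 le_rfl hc
      have h2 := far N0 D D hN01 hc le_rfl le_rfl
      refine (X1_mul p0 p1 hc2 hc).trans ?_
      calc _ ≤ (A * (vb p N0 / vb p r)) * (512 * (vb p D / vb p N0)) :=
            mul_le_mul h1 h2 (Pr_nonneg ok _ _) (by positivity)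
        _ = _ := by field_simp

end Pool.Agent.H953
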