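import Pool.Agent.H953.Sg2
import Pool.Agent.H953.Key2

/-!
The bound for the mixed difference of the connection event in one set of edges, below the critical
point.
-/

set_option autoImplicit false
set_option maxHeartbeats 1000000

namespace Pool.Agent.H953

open H974 H12S H389NS Finset
open Pool.Agent.NH39 (InB OutB ann_cross A4a_congr)
open Pool.Agent.NH39.W (Dl psi dm wt Dl_split WW_one)
open Pool.Agent.NH39.NC (hQ le_hQ)

/-! ### crossing of an annulus around a point -/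

/-- Crossing of the annulus around `c`. -/
def X1c (c : ℤ × ℤ) (r D : ℕ) (F : Set Edg) : Prop :=
  ∃ u ∈ bdB c r, ∃ w ∈ bdB c D, Reach (F ∩ ↑(blk c D \ blk c r)) u w

theorem X1c_congr {c : ℤ × ℤ} {r D : ℕ} {F G : Set Edg}
    (h : F ∩ ↑(blk c D \ blk c r) = G ∩ ↑(blk c D \ blk c r)) :
    X1c c r D F ↔ X1c c r D G := by
  unfold X1c
  rw [h]

theorem X1c_trl {c : ℤ × ℤ} {d k : ℕ} {F : Finset Edg}
    (h : X1c c d k (↑((trl c.1 c.2).mp F) : Set Edg)) : X1 d k (↑F : Set Edg) := by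
  have hblk : ∀ j : ℕ, (trl c.1 c.2).mp (blk (0, 0) j) = blk c j := by
    intro j
    unfold blk
    rw [trl_RE]
    congr 1 <;> ring
  have hset : (↑((trl c.1 c.2).mp F) : Set Edg) ∩ ↑(blk c k \ blk c d) =
      (trl c.1 c.2).φ '' ((↑F : Set Edg) ∩ ↑(blk (0, 0) k \ blk (0, 0) d)) := by
    rw [← hblk k, ← hblk d, ← LSym.mp_sdiff, ← Finset.coe_inter, ← LSym.mp_inter, LSym.coe_mp,
      Finset.coe_inter]
  have hb : ∀ (j : ℕ) (w : Vtx), w ∈ bdB c j → ∃ w0 ∈ bdB (0, 0) j, (trl c.1 c.2).ψ w0 = w := by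
    rintro j ⟨w1, w2⟩ ⟨g1, g2, g3⟩
    refine ⟨(w1 - c.1, w2 - c.2), ⟨?_, ?_, ?_⟩, ?_⟩
    · simpa using g1
    · simpa using g2
    · simpa using g3
    · rw [trl_ψ, sub_add_cancel, sub_add_cancel]
  unfold X1c at h
  unfold X1
  rw [hset] at h
  obtain ⟨u, hu, w, hw, hr⟩ := h
  obtain ⟨u0, hu0, rfl⟩ := hb d u hu
  obtain ⟨w0, hw0, rfl⟩ := hb k w hw
  rw [LSym.reach_iff] at hr
  exact ⟨u0, hu0, w0, hw0, hr⟩

theorem pr_X1c {q : ℝ} (hok : Ok (fun _ : Edg => q)) {c : ℤ × ℤ} {d k : ℕ} {S : Finset Edg}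
    (hS : blk c k ⊆ S) :
    Pr (fun _ => q) S (fun F => X1c c d k (↑F : Set Edg)) ≤
      Pr (fun _ => q) (boxE k) (fun F => X1 d k (↑F : Set Edg)) := by
  have e1 : Pr (fun _ => q) S (fun F => X1c c d k (↑F : Set Edg)) =
      Pr (fun _ => q) (blk c k) (fun F => X1c c d k (↑F : Set Edg)) := by
    apply Pr_local hS
    intro F _
    apply X1c_congr
    ext e
    simp only [Set.mem_inter_iff, Finset.coe_inter, Finset.mem_coe, Finset.mem_sdiff]
    tauto
  rw [e1]
  have hblk : (trl c.1 c.2).mp (boxE k) = blk c k := by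
    unfold blk boxE
    rw [trl_RE]
    congr 1 <;> ring
  rw [← hblk]
  rw [LSym.pr]
  exact Pr_mono hok (fun F _ hF => X1c_trl hF)

/-- A connection to the outside crosses the annulus. -/
theorem X1c_of {c : ℤ × ℤ} {r D : ℕ} (hrD : r ≤ D) {H : Set Edg} {u w : Vtx} (hu : InB c r u)
    (hw : OutB c D w) (h : Reach H u w) : X1c c r D H := by
  obtain ⟨u1, hu1, w1, hw1, r1, -⟩ := ann_cross hrD hu hw h
  exact ⟨u1, hu1, w1, hw1, r1⟩

/-- A pivotal edge for a connection has four arms. -/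
theorem conn_A4a {r D : ℕ} {y : Edg} {u w : Vtx} {H : Finset Edg}
    (h1 : Reach (↑(insert y H) : Set Edg) u w) (h2 : ¬ Reach (↑H : Set Edg) u w)
    (hr : 1 ≤ r) (hrD : r ≤ D) (o1 : OutB (y.1, y.2.1) D u) (o2 : OutB (y.1, y.2.1) D w) :
    A4a (y.1, y.2.1) r D (↑H : Set Edg) := by
  have hx1 : InB (y.1, y.2.1) r (src y) := by
    obtain ⟨x1, x2, bx⟩ := y
    unfold InB
    simp only [src_mk, sub_self, abs_zero]
    omega
  have hx2 : InB (y.1, y.2.1) r (tgt y) := by
    obtain ⟨x1, x2, bx⟩ := y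
    unfold InB
    cases bx
    · simp only [tgt_false, sub_self, abs_zero, add_sub_cancel_left, abs_one]
      omega
    · simp only [tgt_true, sub_self, abs_zero, add_sub_cancel_left, abs_one]
      omega
  have hr2 : Reach (insert y (↑H : Set Edg)) u w := by
    rw [← Finset.coe_insert]
    exact h1
  -- the two cases
  have main : ∀ a b : Vtx, InB (y.1, y.2.1) r a → InB (y.1, y.2.1) r b →
      Reach (↑H : Set Edg) u a → Reach (↑H : Set Edg) b w →
      A4a (y.1, y.2.1) r D (↑H : Set Edg) := by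
    intro a b ha hb h3 h4
    obtain ⟨u1, hu1, w1, hw1, r1, r1'⟩ := ann_cross hrD ha o1 h3.symm
    obtain ⟨u2, hu2, w2, hw2, r2, r2'⟩ := ann_cross hrD hb o2 h4
    refine ⟨u1, hu1, u2, hu2, ⟨w1, hw1, r1⟩, ⟨w2, hw2, r2⟩, fun hc => ?_⟩
    have i1 := r1.mono Set.inter_subset_left
    have i2 := r2.mono Set.inter_subset_left
    have i3 := hc.mono Set.inter_subset_left
    exact h2 (h3.trans (r1'.trans (i1.symm.trans (i3.trans (i2.trans (r2'.symm.trans h4))))))
  rcases GR_insert.mp (reach_GR.mp hr2) with h3 | ⟨h3, h4⟩ | ⟨h3, h4⟩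
  · exact absurd (reach_GR.mpr h3) h2
  · exact main _ _ hx1 hx2 (reach_GR.mpr h3) (reach_GR.mpr h4)
  · exact main _ _ hx2 hx1 (reach_GR.mpr h3) (reach_GR.mpr h4)

/-! ### mixed differences of the connection event -/

/-- The connection event. -/
noncomputable def fx (M : ℕ) (x : ℤ × ℤ) (F : Finset (EM M)) : ℝ :=
  ind (Reach (↑(im F) : Set Edg) (0, 0) x)

theorem Dlx_piv {M : ℕ} {x : ℤ × ℤ} {S F : Finset (EM M)} {y : EM M} (hy : y ∈ S)
    (h : Dl (fx M x) S F ≠ 0) :
    ∃ T, T ⊆ S.erase y ∧ Reach (↑(insert y.1 (im ((F \ S) ∪ T))) : Set Edg) (0, 0) x ∧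
      ¬ Reach (↑(im ((F \ S) ∪ T)) : Set Edg) (0, 0) x := by
  rw [Dl_split hy] at h
  obtain ⟨T, hT, h1⟩ := Finset.exists_ne_zero_of_sum_ne_zero h
  refine ⟨T, Finset.mem_powerset.1 hT, ?_⟩
  have h2 : fx M x (insert y ((F \ S) ∪ T)) ≠ fx M x ((F \ S) ∪ T) := by
    intro h3
    apply h1
    rw [h3, sub_self, mul_zero]
  have hmono : Reach (↑(im ((F \ S) ∪ T)) : Set Edg) (0, 0) x →
      Reach (↑(im (insert y ((F \ S) ∪ T))) : Set Edg) (0, 0) x :=
    fun h => h.mono (by exact_mod_cast im_mono (Finset.subset_insert _ _))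
  rw [← im_insert]
  by_cases a1 : Reach (↑(im ((F \ S) ∪ T)) : Set Edg) (0, 0) x
  · exfalso
    apply h2
    unfold fx
    rw [ind_of a1, ind_of (hmono a1)]
  · refine ⟨?_, a1⟩
    by_contra a2
    apply h2
    unfold fx
    rw [ind_not_of a1, ind_not_of a2]

theorem Dlx_conn {M : ℕ} {x : ℤ × ℤ} {S F : Finset (EM M)} (h : Dl (fx M x) S F ≠ 0) :
    ∃ T, T ⊆ S ∧ Reach (↑(im ((F \ S) ∪ T)) : Set Edg) (0, 0) x := by
  unfold Dl at h
  obtain ⟨T, hT, h1⟩ := Finset.exists_ne_zero_of_sum_ne_zero h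
  refine ⟨T, Finset.mem_powerset.1 hT, ?_⟩
  by_contra h2
  apply h1
  unfold fx
  rw [ind_not_of h2, mul_zero]

/-- The marked edge at `x`. -/
def gx (m : ℕ) (x : ℤ × ℤ) (hx : x.1.natAbs ≤ m ∧ x.2.natAbs ≤ m) (h : 1 ≤ m) : EM (2 * m) :=
  ⟨(x.1, x.2, true), by unfold boxE; rw [mem_RE_true]; omega⟩

/-- The event for the induction. -/
def Dsx (m : ℕ) (x : ℤ × ℤ) (o z : EM (2 * m)) (S F : Finset (EM (2 * m))) : Prop :=
  (∀ y ∈ S, eds y.1 o.1 ≤ m) ∧ ∃ S' : Finset (EM (2 * m)), S' ⊆ S ∧ (∀ y ∈ S, y ≠ o → y ≠ z → y ∈ S') ∧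
    Dl (fx (2 * m) x) S' F ≠ 0

/-- The hypotheses of the induction over the scales. -/
theorem ks_conn : ∃ C : ℝ, 1 ≤ C ∧ ∀ p : ℝ, 0 ≤ p → p < 1/2 → ∀ (m : ℕ) (hm : 1 ≤ m)
    (x : ℤ × ℤ) (hx : x.1.natAbs ≤ m ∧ x.2.natAbs ≤ m), x ≠ (0, 0) →
    K2.KS (fun a b : EM (2 * m) => eds a.1 b.1) m p (wt p) (vb p) (og (2 * m) (by omega))
      (gx m x hx hm) (Dsx m x (og (2 * m) (by omega)) (gx m x hx hm)) C
      Pool.Agent.NH39.W.WW := by
  obtain ⟨C1, hC1, h1⟩ := Pool.Agent.NH39.W.pl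
  obtain ⟨C2, hC2, h2⟩ := X1b
  refine ⟨max C1 C2, hC1.trans (le_max_left _ _), ?_⟩
  intro p p0 hp m hm x hx hx0
  have hp1 : p ≤ 1 := by linarith
  have ok := okq p0 hp1
  have oko : Ok (fun _ : EM (2 * m) => p) := fun _ => ⟨p0, hp1⟩
  obtain ⟨o, ho⟩ : ∃ o : EM (2 * m), o = og (2 * m) (by omega) := ⟨_, rfl⟩
  obtain ⟨z, hz⟩ : ∃ z : EM (2 * m), z = gx m x hx hm := ⟨_, rfl⟩
  have ho1 : o.1 = (0, 0, true) := by rw [ho]; rfl
  have hz1 : z.1 = (x.1, x.2, true) := by rw [hz]; rfl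
  rw [← ho, ← hz]
  have hoz : eds o.1 z.1 = max x.1.natAbs x.2.natAbs := by
    rw [ho1, hz1]; unfold eds; simp only; omega
  have hxne : 0 < max x.1.natAbs x.2.natAbs := by
    by_contra hcon
    apply hx0
    have : x.1 = 0 ∧ x.2 = 0 := by omega
    exact Prod.ext this.1 this.2
  -- agreement off the set
  have agree : ∀ (S S' F T : Finset (EM (2 * m))) (c : Edg) (r D : ℕ), S' ⊆ S → T ⊆ S' →
      (∀ y ∈ S, eds y.1 c < r ∨ D < eds y.1 c) →
      (↑(im ((F \ S') ∪ T)) : Set Edg) ∩ ↑(blk (c.1, c.2.1) D \ blk (c.1, c.2.1) r) =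
      (↑(im F) : Set Edg) ∩ ↑(blk (c.1, c.2.1) D \ blk (c.1, c.2.1) r) := by
    intro S S' F T c r D hS' hT hgap
    apply im_ann
    intro e he1 he2
    have heS : e ∉ S := by
      intro h
      have := hgap e h
      omega
    rw [Finset.mem_union, Finset.mem_sdiff]
    constructor
    · rintro (h | h)
      · exact h.1
      · exact absurd (hS' (hT h)) heS
    · intro h
      exact Or.inl ⟨h, fun h' => heS (hS' h')⟩
  refine ⟨fun a => eds_self _, fun a b => eds_comm _ _, fun a b c => eds_tri _ _ _,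
    by rw [hoz]; exact hxne, hm, p0, hp1,
    Pool.Agent.NH39.W.wt_one p, fun r hr => Pool.Agent.NH39.W.wt_pos p hr,
    fun r s hr hs => Pool.Agent.NH39.W.wt_anti p hr hs,
    fun r s hr hs h8 => Pool.Agent.NH39.W.wt_doub p hr hs h8, vb_one p,
    fun r hr => vb_pos p hr, fun r s hr hs => vb_anti p hr hs,
    fun r s hr hs h8 => vb_doub p hr hs h8, fun r s hr hs => wt_vb p hr hs, ?_, ?_, ?_,
    hC1.trans (le_max_left _ _), WW_one⟩
  · -- four arms
    intro y r D hr hrD hDm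
    have wr := Pool.Agent.NH39.W.wt_pos p hr
    have wD := Pool.Agent.NH39.W.wt_pos p (hr.trans hrD)
    by_cases hy : eds y.1 o.1 ≤ m ∧ D < eds y.1 o.1 ∧ D < eds y.1 z.1
    · rw [ho1, hz1] at hy
      have hy1 : y.1.1.natAbs ≤ m ∧ y.1.2.1.natAbs ≤ m := by
        have := hy.1
        unfold eds at this
        simp only at this
        omega
      have hb : y.1.1.natAbs + D ≤ 2 * m ∧ y.1.2.1.natAbs + D ≤ 2 * m := by omega
      have o1 : OutB (y.1.1, y.1.2.1) D (0, 0) := by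
        have := hy.2.1
        unfold eds at this
        unfold OutB
        simp only at this ⊢
        have a1 := abs_cases (0 - y.1.1)
        have a2 := abs_cases (0 - y.1.2.1)
        omega
      have o2 : OutB (y.1.1, y.1.2.1) D x := by
        have := hy.2.2
        unfold eds at this
        unfold OutB
        simp only at this ⊢
        have a1 := abs_cases (x.1 - y.1.1)
        have a2 := abs_cases (x.2 - y.1.2.1)
        omega
      refine ⟨fun F => A4a (y.1.1, y.1.2.1) r D (↑(im F) : Set Edg), ?_, ?_, ?_⟩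
      · intro F F' hFF
        exact A4a_congr (im_ann hFF)
      · intro S F hoS hzS hyS hgap hfar hfar2 hF
        obtain ⟨S', hS', hall, hne⟩ := hF.2
        have hyo : y ≠ o := by
          intro h
          rw [h] at hfar
          rw [eds_self] at hfar
          omega
        have hyz : y ≠ z := by
          intro h
          rw [h] at hfar2
          rw [eds_self] at hfar2
          omega
        have hyS' : y ∈ S' := hall y hyS hyo hyz
        obtain ⟨T, hT, hp1, hp2⟩ := Dlx_piv hyS' hne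
        have h4 := conn_A4a hp1 hp2 hr hrD o1 o2
        exact (A4a_congr (agree S S' F T y.1 r D hS' (hT.trans (Finset.erase_subset _ _))
          hgap)).1 h4
      · have e1 := pr_im (M := 2 * m) p (fun F => A4a (y.1.1, y.1.2.1) r D (↑F : Set Edg))
        rw [e1]
        have e2 : Pr (fun _ => p) (boxE (2 * m)) (fun F => A4a (y.1.1, y.1.2.1) r D (↑F : Set Edg)) ≤
            hQ p r D := le_hQ ok (blk_box hb)
        have e3 := h1 p p0 hp1 r D hr hrD
        refine e2.trans (e3.trans (mul_le_mul_of_nonneg_right (le_max_left _ _) (by positivity)))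
    · refine ⟨fun _ => False, fun _ _ _ => Iff.rfl, ?_, ?_⟩
      · intro S F hoS hzS hyS _ hfar hfar2 hF
        apply hy
        refine ⟨hF.1 y hyS, ?_, ?_⟩
        · rw [eds_comm]; exact hfar
        · rw [eds_comm]; exact hfar2
      · rw [pr_false]
        have : 0 ≤ max C1 C2 := le_trans (by linarith) (le_max_left _ _)
        positivity
  · -- one arm around the origin
    intro r D hr hrD hDm
    have vr := vb_pos p hr
    have vD := vb_pos p (hr.trans hrD)
    refine ⟨fun F => X1 r D (↑(im F) : Set Edg), ?_, ?_, ?_⟩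
    · intro F F' hFF
      apply X1_congr
      have := im_ann (x := o.1) (r := r) (D := D) (F := F) (F' := F') hFF
      rw [ho1] at this
      exact this
    · intro S F hoS hzS hgap hfar hF
      obtain ⟨S', hS', hall, hne⟩ := hF.2
      obtain ⟨T, hT, hc⟩ := Dlx_conn hne
      have o2 : OutB (0, 0) D x := by
        rw [eds_comm] at hfar
        rw [hoz] at hfar
        unfold OutB
        simp only [sub_zero]
        have a1 := abs_cases x.1
        have a2 := abs_cases x.2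
        omega
      obtain ⟨u1, hu1, w1, hw1, r1, -⟩ := ann_cross hrD (x := (0, 0))
        (by unfold InB; simp) o2 hc
      have h4 : X1 r D (↑(im ((F \ S') ∪ T)) : Set Edg) := ⟨u1, hu1, w1, hw1, r1⟩
      refine (X1_congr ?_).1 h4
      have := agree S S' F T o.1 r D hS' hT hgap
      rw [ho1] at this
      exact this
    · have e1 := pr_im (M := 2 * m) p (fun F => X1 r D (↑F : Set Edg))
      rw [e1]
      refine (h2 p p0 hp r D (2 * m) hr hrD (by omega)).trans ?_
      exact mul_le_mul_of_nonneg_right (le_max_right _ _) (by positivity)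
  · -- one arm around `x`
    intro r D hr hrD hDm
    have vr := vb_pos p hr
    have vD := vb_pos p (hr.trans hrD)
    refine ⟨fun F => X1c x r D (↑(im F) : Set Edg), ?_, ?_, ?_⟩
    · intro F F' hFF
      apply X1c_congr
      have := im_ann (x := z.1) (r := r) (D := D) (F := F) (F' := F') hFF
      rw [hz1] at this
      exact this
    · intro S F hoS hzS hgap hfar hF
      obtain ⟨S', hS', hall, hne⟩ := hF.2
      obtain ⟨T, hT, hc⟩ := Dlx_conn hne
      have o2 : OutB x D (0, 0) := by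
        rw [hoz] at hfar
        unfold OutB
        simp only
        have a1 := abs_cases (0 - x.1)
        have a2 := abs_cases (0 - x.2)
        omega
      have h4 : X1c x r D (↑(im ((F \ S') ∪ T)) : Set Edg) :=
        X1c_of hrD (by unfold InB; simp) o2 hc.symm
      refine (X1c_congr ?_).1 h4
      have := agree S S' F T z.1 r D hS' hT hgap
      rw [hz1] at this
      exact this
    · have e1 := pr_im (M := 2 * m) p (fun F => X1c x r D (↑F : Set Edg))
      rw [e1]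
      have e2 := pr_X1c (q := p) ok (c := x) (d := r) (k := D) (S := boxE (2 * m))
        (blk_box (by omega))
      refine e2.trans ((h2 p p0 hp r D D hr hrD le_rfl).trans ?_)
      exact mul_le_mul_of_nonneg_right (le_max_right _ _) (by positivity)

/-- The bound for one set. -/
theorem one_setx : ∃ a : ℝ, 1 ≤ a ∧ ∀ p : ℝ, 0 ≤ p → p < 1/2 → ∀ (m : ℕ) (hm : 1 ≤ m)
    (x : ℤ × ℤ) (hx : x.1.natAbs ≤ m ∧ x.2.natAbs ≤ m), x ≠ (0, 0) →
    ∀ S : Finset (EM (2 * m)), og (2 * m) (by omega) ∈ S → gx m x hx hm ∈ S →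
    (∀ y ∈ S, eds y.1 (0, 0, true) ≤ m) →
    ∃ (par : EM (2 * m) → EM (2 * m)) (rk : EM (2 * m) → ℕ) (sp : EM (2 * m)),
      (∀ y ∈ S, y ≠ og (2 * m) (by omega) → par y ∈ S ∧ rk (par y) < rk y) ∧
      sp ∈ S ∧ sp ≠ og (2 * m) (by omega) ∧
      Pr (fun _ => p) Finset.univ (Dsx m x (og (2 * m) (by omega)) (gx m x hx hm) S) ≤
        a ^ (4 * S.card) * ∏ y ∈ S.erase (og (2 * m) (by omega)),
          K2.fc (wt p) (vb p) m sp y (eds y.1 (par y).1) := by
  obtain ⟨C, hC, h⟩ := ks_conn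
  refine ⟨C * Pool.Agent.NH39.W.WW ^ 2, by nlinarith [one_le_pow₀ WW_one (n := 2)], ?_⟩
  intro p p0 hp m hm x hx hx0 S hoS hzS hS
  exact K2.key (h p p0 hp m hm x hx hx0) hoS hzS hS

end Pool.Agent.H953
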