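import Pool.Agent.H953.Pl3
import Pool.Graph.R_pool_sql_team_seeded_3dad9d7b.NH39.T7

/-!
Sum over all sets of `k` edges of the probability that the mixed difference does not vanish.
-/

set_option autoImplicit false
set_option maxHeartbeats 1000000

namespace Pool.Agent.H953

open H974 H12S H389NS Finset
open Pool.Agent.NH39.W (Dl psi dm wt psi_nn psi_le sum1d)

/-- The edges of the inner box. -/
noncomputable def Vi (m : ℕ) : Finset (EM (2 * m)) :=
  Finset.univ.filter (fun y => eds y.1 (0, 0, true) ≤ m)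

theorem mem_Vi {m : ℕ} {y : EM (2 * m)} : y ∈ Vi m ↔ eds y.1 (0, 0, true) ≤ m := by
  unfold Vi
  rw [Finset.mem_filter]
  exact ⟨fun h => h.2, fun h => ⟨Finset.mem_univ _, h⟩⟩

/-- Sum of the kernel. -/
theorem kern {p : ℝ} (hp : 1/2 < p) (hp1 : p ≤ 1) {m : ℕ} (hm : 1 ≤ m) (z : EM (2 * m))
    (hz : z ∈ Vi m) : ∑ y ∈ Vi m, psi (wt p) m (eds y.1 z.1) ≤
      360 * Pool.Agent.NH39.W.WW * (p - 1/2)⁻¹ := by
  have p0 : 0 ≤ p := by linarith
  obtain ⟨t, ht⟩ : ∃ t : ℝ, t = p - 1/2 := ⟨_, rfl⟩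
  have ht0 : 0 < t := by rw [ht]; linarith
  have ht1 : t ≤ 1 := by rw [ht]; linarith
  rw [← ht]
  have hW := Pool.Agent.NH39.W.WW_one
  obtain ⟨Q, hQ⟩ : ∃ Q : Finset Edg, Q = (Vi m).map (Function.Embedding.subtype _) := ⟨_, rfl⟩
  have e1 : ∑ y ∈ Vi m, psi (wt p) m (eds y.1 z.1) =
      ∑ f ∈ Q, psi (wt p) m (Pool.Agent.NH39.dd z.1 f) := by
    rw [hQ, Finset.sum_map]
    apply Finset.sum_congr rfl
    intro y _
    congr 1
    exact eds_comm _ _
  have e2 := Pool.Agent.NH39.sum_dist z.1 (2 * m) Q (by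
    intro f hf
    rw [hQ, Finset.mem_map] at hf
    obtain ⟨y, hy, rfl⟩ := hf
    rw [mem_Vi] at hy hz
    have h1 := eds_tri z.1 (0, 0, true) y.1
    have h2 := eds_comm (0, 0, true) y.1
    have h3 : Pool.Agent.NH39.dd z.1 ((Function.Embedding.subtype _) y) = eds z.1 y.1 := rfl
    rw [h3]
    omega) (psi (wt p) m) (fun b => psi_nn p m b)
  rw [e1]
  refine e2.trans ?_
  have e3 : ∀ b ∈ range (2 * m + 1), ((b:ℝ) + 1) * psi (wt p) m b ≤
      2 * Pool.Agent.NH39.W.WW * (((b:ℝ) + 1) ^ (-(1/4) : ℝ) / (1 + t ^ (4/3 : ℝ) * ((b:ℝ) + 1))) := by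
    intro b hb
    rw [Finset.mem_range] at hb
    have h1 := psi_le p0 hp1 (N := m) (s := b) (t := b + 1) (by omega) (by omega)
    rw [← ht, abs_of_pos ht0] at h1
    push_cast at h1
    have hb0 : (0:ℝ) < (b:ℝ) + 1 := by positivity
    have h2 := mul_le_mul_of_nonneg_left h1 hb0.le
    refine h2.trans (le_of_eq ?_)
    have h3 : ((b:ℝ) + 1) ^ (-(1/4) : ℝ) = ((b:ℝ) + 1) * ((b:ℝ) + 1) ^ (-(5/4) : ℝ) := by
      nth_rewrite 2 [← Real.rpow_one ((b:ℝ) + 1)]
      rw [← Real.rpow_add hb0]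
      norm_num
    rw [h3]
    ring
  have e4 := Finset.sum_le_sum e3
  rw [← Finset.mul_sum] at e4
  have e5 := (sum1d (l := t ^ (4/3 : ℝ)) (by positivity)
    (Real.rpow_le_one ht0.le ht1 (by norm_num)) (2 * m + 1)).2 (by positivity)
  have e6 : ((t ^ (4/3 : ℝ)) ^ (3/4 : ℝ)) = t := by
    rw [← Real.rpow_mul ht0.le]; norm_num
  rw [e6] at e5
  have h7 : 0 ≤ 2 * Pool.Agent.NH39.W.WW := by linarith
  calc 18 * ∑ b ∈ range (2 * m + 1), ((b:ℝ) + 1) * psi (wt p) m b
      ≤ 18 * (2 * Pool.Agent.NH39.W.WW * ∑ b ∈ range (2 * m + 1),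
        (((b:ℝ) + 1) ^ (-(1/4) : ℝ) / (1 + t ^ (4/3 : ℝ) * ((b:ℝ) + 1)))) := by linarith
    _ ≤ 18 * (2 * Pool.Agent.NH39.W.WW * (10 * t⁻¹)) := by
        apply mul_le_mul_of_nonneg_left _ (by norm_num)
        exact mul_le_mul_of_nonneg_left e5 h7
    _ = _ := by ring

/-- The sum over all sets of `k` edges. -/
theorem sumG : ∃ C : ℝ, 1 ≤ C ∧ ∀ p : ℝ, 1/2 < p → p ≤ 1 → ∀ m : ℕ, 1 ≤ m → ∀ k : ℕ, 1 ≤ k →
    ∑ G ∈ (Vi m).powersetCard k, Pr (fun _ => p) Finset.univ (fun F => Dl (fa (2 * m)) G F ≠ 0) ≤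
      C ^ k * (((p - 1/2)⁻¹) ^ k * va p m) := by
  classical
  obtain ⟨a, ha, hone⟩ := one_set
  have hW := Pool.Agent.NH39.W.WW_one
  refine ⟨6 * a ^ 8 * (1080 * Pool.Agent.NH39.W.WW), ?_, ?_⟩
  · have h1 : 1 ≤ a ^ 8 := one_le_pow₀ ha
    nlinarith
  intro p hp hp1 m hm k hk
  have p0 : 0 ≤ p := by linarith
  obtain ⟨t, ht⟩ : ∃ t : ℝ, t = p - 1/2 := ⟨_, rfl⟩
  have ht0 : 0 < t := by rw [ht]; linarith
  have ht1 : t ≤ 1 := by rw [ht]; linarith
  have hti : 1 ≤ t⁻¹ := (one_le_inv₀ ht0).2 ht1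
  obtain ⟨o, ho⟩ : ∃ o : EM (2 * m), o = og (2 * m) (by omega) := ⟨_, rfl⟩
  have oko : Ok (fun _ : EM (2 * m) => p) := fun _ => ⟨p0, hp1⟩
  have hoV : o ∈ Vi m := by
    rw [mem_Vi, ho]
    have : eds (og (2 * m) (by omega)).1 (0, 0, true) = 0 := eds_self _
    rw [this]
    omega
  obtain ⟨Mk, hMk⟩ : ∃ Mk : ℝ, Mk = 360 * Pool.Agent.NH39.W.WW * t⁻¹ := ⟨_, rfl⟩
  have hMk1 : 1 ≤ 3 * Mk := by
    rw [hMk]
    nlinarith
  have hMk0 : 0 < Mk := by linarith
  have vp := va_pos hp m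
  -- the weights
  have H : ∀ S : Finset (EM (2 * m)), ∃ W : ℝ, 0 ≤ W ∧ (o ∈ S → S ⊆ Vi m →
      (∃ (par : EM (2 * m) → EM (2 * m)) (rk : EM (2 * m) → ℕ),
        (∀ y ∈ S, y ≠ o → par y ∈ S ∧ rk (par y) < rk y) ∧
        W ≤ ∏ y ∈ S.erase o, psi (wt p) m (eds y.1 (par y).1)) ∧
      Pr (fun _ => p) Finset.univ (Dsf (2 * m) m o S) ≤ a ^ (4 * S.card) * W * va p m) := by
    intro S
    by_cases hc : o ∈ S ∧ S ⊆ Vi m
    · obtain ⟨par, rk, h1, h2⟩ := hone p hp hp1 m hm S (by rw [← ho]; exact hc.1)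
        (fun y hy => mem_Vi.1 (hc.2 hy))
      rw [← ho] at h1 h2
      exact ⟨∏ y ∈ S.erase o, psi (wt p) m (eds y.1 (par y).1),
        Finset.prod_nonneg (fun y _ => psi_nn p m _), fun _ _ => ⟨⟨par, rk, h1, le_rfl⟩, h2⟩⟩
    · exact ⟨0, le_rfl, fun h1 h2 => absurd ⟨h1, h2⟩ hc⟩
  choose W hW0 hW1 using H
  have htree := Pool.Agent.Y21.NE.tree (Vi m) (fun y z => psi (wt p) m (eds y.1 z.1))
    (fun S x => if x = o then W S else 0) Mk (3 * Mk)⁻¹ (fun y z => psi_nn p m _)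
    (fun z hz => by
      have := kern hp hp1 hm z hz
      rw [← ht, ← hMk] at this
      exact this) (by positivity) (by rw [mul_inv_cancel₀ (by positivity)])
    (by
      intro S hS x hx
      by_cases hxo : x = o
      · rw [hxo] at hx ⊢
        obtain ⟨⟨par, rk, h1, h2⟩, -⟩ := hW1 S hx hS
        refine ⟨par, rk, h1, ?_⟩
        rw [if_pos rfl]
        exact h2
      · refine ⟨fun _ => x, fun y => if y = x then 0 else 1, ?_, ?_⟩
        · intro y _ hyx
          simp [hx, hyx]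
        · rw [if_neg hxo]
          exact Finset.prod_nonneg (fun y _ => psi_nn p m _)) o hoV
  -- sums for one cardinality
  have card_sum : ∀ j : ℕ, ∑ S ∈ ((Vi m).powersetCard (j + 1)).filter (fun S => o ∈ S), W S ≤
      3 * (3 * Mk) ^ j := by
    intro j
    have h1 : ∑ S ∈ ((Vi m).powersetCard (j + 1)).filter (fun S => o ∈ S),
        ((3 * Mk)⁻¹) ^ (j + 1) * W S ≤ 3 * (3 * Mk)⁻¹ := by
      refine le_trans ?_ htree
      have h2 : ∑ S ∈ ((Vi m).powersetCard (j + 1)).filter (fun S => o ∈ S),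
          ((3 * Mk)⁻¹) ^ (j + 1) * W S = ∑ S ∈ ((Vi m).powersetCard (j + 1)).filter
            (fun S => o ∈ S), ((3 * Mk)⁻¹) ^ S.card * (if o = o then W S else 0) := by
        apply Finset.sum_congr rfl
        intro S hS
        rw [Finset.mem_filter, Finset.mem_powersetCard] at hS
        rw [hS.1.2, if_pos rfl]
      rw [h2]
      apply Finset.sum_le_sum_of_subset_of_nonneg
      · intro S hS
        rw [Finset.mem_filter, Finset.mem_powersetCard] at hS
        rw [Finset.mem_filter, Finset.mem_powerset]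
        exact ⟨hS.1.1, hS.2⟩
      · intro S _ _
        rw [if_pos rfl]
        exact mul_nonneg (by positivity) (hW0 _)
    rw [← Finset.mul_sum, pow_succ] at h1
    have h3 : 0 < (3 * Mk)⁻¹ := by positivity
    have h4 : (((3 * Mk)⁻¹) ^ j * ∑ S ∈ ((Vi m).powersetCard (j + 1)).filter (fun S => o ∈ S), W S) *
        (3 * Mk)⁻¹ ≤ 3 * (3 * Mk)⁻¹ := by
      calc _ = ((3 * Mk)⁻¹) ^ j * (3 * Mk)⁻¹ *
            ∑ S ∈ ((Vi m).powersetCard (j + 1)).filter (fun S => o ∈ S), W S := by ring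
        _ ≤ _ := h1
    have h5 := le_of_mul_le_mul_right h4 h3
    have h6 : ((3 * Mk)⁻¹) ^ j * (3 * Mk) ^ j = 1 := by
      rw [← mul_pow, inv_mul_cancel₀ (by positivity), one_pow]
    have h7 : 0 ≤ (3 * Mk) ^ j := by positivity
    have h8 := mul_le_mul_of_nonneg_right h5 h7
    calc _ = (((3 * Mk)⁻¹) ^ j * (3 * Mk) ^ j) *
          ∑ S ∈ ((Vi m).powersetCard (j + 1)).filter (fun S => o ∈ S), W S := by
            rw [h6, one_mul]
      _ = (((3 * Mk)⁻¹) ^ j * ∑ S ∈ ((Vi m).powersetCard (j + 1)).filter (fun S => o ∈ S), W S) *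
          (3 * Mk) ^ j := by ring
      _ ≤ _ := h8
  -- one set
  have one : ∀ G ∈ (Vi m).powersetCard k,
      Pr (fun _ => p) Finset.univ (fun F => Dl (fa (2 * m)) G F ≠ 0) ≤
        a ^ (4 * (k + 1)) * W (insert o G) * va p m := by
    intro G hG
    rw [Finset.mem_powersetCard] at hG
    have hsub : insert o G ⊆ Vi m := Finset.insert_subset hoV hG.1
    have h1 := (hW1 (insert o G) (Finset.mem_insert_self _ _) hsub).2
    have h2 : Pr (fun _ => p) Finset.univ (fun F => Dl (fa (2 * m)) G F ≠ 0) ≤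
        Pr (fun _ => p) Finset.univ (Dsf (2 * m) m o (insert o G)) := by
      apply Pr_mono oko
      intro F _ hF
      refine ⟨?_, ?_⟩
      · intro y hy
        have := mem_Vi.1 (hsub hy)
        rw [ho]
        exact this
      · by_cases hoG : o ∈ G
        · left
          rw [Finset.insert_eq_self.2 hoG]
          exact hF
        · right
          rw [Finset.erase_insert hoG]
          exact hF
    refine h2.trans (h1.trans ?_)
    apply mul_le_mul_of_nonneg_right _ vp.le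
    apply mul_le_mul_of_nonneg_right _ (hW0 _)
    apply pow_le_pow_right₀ ha
    have := Finset.card_insert_le o G
    omega
  refine (Finset.sum_le_sum one).trans ?_
  have e1 : ∑ G ∈ (Vi m).powersetCard k, a ^ (4 * (k + 1)) * W (insert o G) * va p m =
      a ^ (4 * (k + 1)) * va p m * ∑ G ∈ (Vi m).powersetCard k, W (insert o G) := by
    rw [Finset.mul_sum]
    apply Finset.sum_congr rfl
    intros; ring
  rw [e1]
  have e2 : ∑ G ∈ (Vi m).powersetCard k, W (insert o G) ≤ 6 * (3 * Mk) ^ k := by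
    rw [← Finset.sum_filter_add_sum_filter_not ((Vi m).powersetCard k) (fun G => o ∈ G)]
    obtain ⟨j, hj⟩ : ∃ j, k = j + 1 := ⟨k - 1, by omega⟩
    have h1 : ∑ G ∈ ((Vi m).powersetCard k).filter (fun G => o ∈ G), W (insert o G) ≤
        3 * (3 * Mk) ^ k := by
      have h2 : ∑ G ∈ ((Vi m).powersetCard k).filter (fun G => o ∈ G), W (insert o G) =
          ∑ G ∈ ((Vi m).powersetCard k).filter (fun G => o ∈ G), W G := by
        apply Finset.sum_congr rfl
        intro G hG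
        rw [Finset.mem_filter] at hG
        rw [Finset.insert_eq_self.2 hG.2]
      rw [h2, hj]
      refine (card_sum j).trans ?_
      apply mul_le_mul_of_nonneg_left _ (by norm_num)
      exact pow_le_pow_right₀ hMk1 (by omega)
    have h3 : ∑ G ∈ ((Vi m).powersetCard k).filter (fun G => ¬ o ∈ G), W (insert o G) ≤
        3 * (3 * Mk) ^ k := by
      refine le_trans ?_ (card_sum k)
      have h4 : ∑ G ∈ ((Vi m).powersetCard k).filter (fun G => ¬ o ∈ G), W (insert o G) =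
          ∑ S ∈ (((Vi m).powersetCard k).filter (fun G => ¬ o ∈ G)).image (fun G => insert o G),
            W S := by
        rw [Finset.sum_image]
        intro G hG G' hG' h
        have hG2 : o ∉ G := (Finset.mem_filter.1 hG).2
        have hG2' : o ∉ G' := (Finset.mem_filter.1 hG').2
        have h5 : (insert o G).erase o = (insert o G').erase o := by
          have h' : insert o G = insert o G' := h
          rw [h']
        rwa [Finset.erase_insert hG2, Finset.erase_insert hG2'] at h5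
      rw [h4]
      apply Finset.sum_le_sum_of_subset_of_nonneg
      · intro S hS
        rw [Finset.mem_image] at hS
        obtain ⟨G, hG, rfl⟩ := hS
        rw [Finset.mem_filter, Finset.mem_powersetCard] at hG
        rw [Finset.mem_filter, Finset.mem_powersetCard]
        refine ⟨⟨Finset.insert_subset hoV hG.1.1, ?_⟩, Finset.mem_insert_self _ _⟩
        rw [Finset.card_insert_of_notMem hG.2, hG.1.2]
      · intro S _ _
        exact hW0 _
    linarith
  have e3 : 0 ≤ a ^ (4 * (k + 1)) * va p m := by positivity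
  refine (mul_le_mul_of_nonneg_left e2 e3).trans ?_
  rw [← ht]
  have e4 : (3 * Mk) ^ k = (1080 * Pool.Agent.NH39.W.WW) ^ k * (t⁻¹) ^ k := by
    rw [← mul_pow, hMk]
    congr 1
    ring
  have e8 : (6 * a ^ 8 * (1080 * Pool.Agent.NH39.W.WW)) ^ k =
      6 ^ k * (a ^ 8) ^ k * (1080 * Pool.Agent.NH39.W.WW) ^ k := by
    rw [mul_pow (6 * a ^ 8), mul_pow 6]
  rw [e4, e8]
  have e5 : a ^ (4 * (k + 1)) ≤ (a ^ 8) ^ k := by
    rw [← pow_mul]
    apply pow_le_pow_right₀ ha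
    omega
  have e6 : (6:ℝ) ≤ 6 ^ k := by
    calc (6:ℝ) = 6 ^ 1 := by norm_num
      _ ≤ 6 ^ k := pow_le_pow_right₀ (by norm_num) hk
  have e7 : 0 ≤ (1080 * Pool.Agent.NH39.W.WW) ^ k * ((t⁻¹) ^ k * va p m) := by positivity
  calc a ^ (4 * (k + 1)) * va p m * (6 * ((1080 * Pool.Agent.NH39.W.WW) ^ k * (t⁻¹) ^ k))
      = (6 * a ^ (4 * (k + 1))) * ((1080 * Pool.Agent.NH39.W.WW) ^ k * ((t⁻¹) ^ k * va p m)) := by
        ring
    _ ≤ (6 ^ k * (a ^ 8) ^ k) * ((1080 * Pool.Agent.NH39.W.WW) ^ k * ((t⁻¹) ^ k * va p m)) := by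
        apply mul_le_mul_of_nonneg_right _ e7
        exact mul_le_mul e6 e5 (by positivity) (by positivity)
    _ = _ := by ring

end Pool.Agent.H953
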