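import Pool.Agent.H953.Sg3
import Pool.Agent.H953.Pl4

/-!
Below the critical point: sums of the kernels over the box.
-/

set_option autoImplicit false
set_option maxHeartbeats 1000000

namespace Pool.Agent.H953

open H974 H12S H389NS Finset
open Pool.Agent.NH39.W (Dl psi dm wt psi_nn psi_le sum1d lam_nonneg)

/-- Sum over the box of a function of the distance. -/
theorem sum_eds {m : ℕ} (z : EM (2 * m)) (hz : z ∈ Vi m) (φ : ℕ → ℝ) (hφ : ∀ b, 0 ≤ φ b) :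
    ∑ y ∈ Vi m, φ (eds y.1 z.1) ≤ 18 * ∑ b ∈ range (2 * m + 1), ((b:ℝ) + 1) * φ b := by
  obtain ⟨Q, hQ⟩ : ∃ Q : Finset Edg, Q = (Vi m).map (Function.Embedding.subtype _) := ⟨_, rfl⟩
  have e1 : ∑ y ∈ Vi m, φ (eds y.1 z.1) =
      ∑ f ∈ Q, φ (Pool.Agent.NH39.dd z.1 f) := by
    rw [hQ, Finset.sum_map]
    apply Finset.sum_congr rfl
    intro y _
    congr 1
    exact eds_comm _ _
  rw [e1]
  exact Pool.Agent.NH39.sum_dist z.1 (2 * m) Q (by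
    intro f hf
    rw [hQ, Finset.mem_map] at hf
    obtain ⟨y, hy, rfl⟩ := hf
    rw [mem_Vi] at hy hz
    have h1 := eds_tri z.1 (0, 0, true) y.1
    have h2 := eds_comm (0, 0, true) y.1
    have h3 : Pool.Agent.NH39.dd z.1 ((Function.Embedding.subtype _) y) = eds z.1 y.1 := rfl
    rw [h3]
    omega) φ hφ

/-- Sum of the four-arm kernel, below the critical point. -/
theorem kernw {p : ℝ} (p0 : 0 ≤ p) (hp : p < 1/2) {m : ℕ} (hm : 1 ≤ m) (z : EM (2 * m))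
    (hz : z ∈ Vi m) : ∑ y ∈ Vi m, psi (wt p) m (eds y.1 z.1) ≤
      360 * Pool.Agent.NH39.W.WW * (1/2 - p)⁻¹ := by
  have hp1 : p ≤ 1 := by linarith
  obtain ⟨t, ht⟩ : ∃ t : ℝ, t = 1/2 - p := ⟨_, rfl⟩
  have ht0 : 0 < t := by rw [ht]; linarith
  have ht1 : t ≤ 1 := by rw [ht]; linarith
  have hpt : |p - 1/2| = t := by rw [abs_sub_comm, abs_of_pos (by linarith), ht]
  rw [← ht]
  have hW := Pool.Agent.NH39.W.WW_one
  refine (sum_eds z hz (psi (wt p) m) (fun b => psi_nn p m b)).trans ?_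
  have e3 : ∀ b ∈ range (2 * m + 1), ((b:ℝ) + 1) * psi (wt p) m b ≤
      2 * Pool.Agent.NH39.W.WW * (((b:ℝ) + 1) ^ (-(1/4) : ℝ) / (1 + t ^ (4/3 : ℝ) * ((b:ℝ) + 1))) := by
    intro b hb
    rw [Finset.mem_range] at hb
    have h1 := psi_le p0 hp1 (N := m) (s := b) (t := b + 1) (by omega) (by omega)
    rw [hpt] at h1
    push_cast at h1
    have hb0 : (0:ℝ) < (b:ℝ) + 1 := by positivity
    have h2 := mul_le_mul_of_nonneg_left h1 hb0.le
    refine h2.trans (le_of_eq ?_)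
    have h3 : ((b:ℝ) + 1) ^ (-(1/4) : ℝ) = ((b:ℝ) + 1) * ((b:ℝ) + 1) ^ (-(5/4) : ℝ) := by
      nth_rewrite 2 [← Real.rpow_one ((b:ℝ) + 1)]
      rw [← Real.rpow_add hb0]
      norm_num
    rw [h3]
    ring
  have e4 := Finset.sum_le_sum e3
  rw [← Finset.mul_sum] at e4
  have e5 := (sum1d (l := t ^ (4/3 : ℝ)) (by positivity)
    (Real.rpow_le_one ht0.le ht1 (by norm_num)) (2 * m + 1)).2 (by positivity)
  have e6 : ((t ^ (4/3 : ℝ)) ^ (3/4 : ℝ)) = t := by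
    rw [← Real.rpow_mul ht0.le]; norm_num
  rw [e6] at e5
  have h7 : 0 ≤ 2 * Pool.Agent.NH39.W.WW := by linarith
  calc 18 * ∑ b ∈ range (2 * m + 1), ((b:ℝ) + 1) * psi (wt p) m b
      ≤ 18 * (2 * Pool.Agent.NH39.W.WW * ∑ b ∈ range (2 * m + 1),
        (((b:ℝ) + 1) ^ (-(1/4) : ℝ) / (1 + t ^ (4/3 : ℝ) * ((b:ℝ) + 1)))) := by linarith
    _ ≤ 18 * (2 * Pool.Agent.NH39.W.WW * (10 * t⁻¹)) := by
        apply mul_le_mul_of_nonneg_left _ (by norm_num)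
        exact mul_le_mul_of_nonneg_left e5 h7
    _ = _ := by ring

/-- A telescoping sum. -/
theorem tele {l : ℝ} (hl : 0 < l) (n : ℕ) :
    ∑ b ∈ range n, 1 / (1 + l * ((b:ℝ) + 1)) ^ 2 ≤ l⁻¹ * (1 - 1 / (1 + l * n)) := by
  induction n with
  | zero => simp
  | succ n ih =>
    rw [Finset.sum_range_succ]
    have h1 : 1 / (1 + l * ((n:ℝ) + 1)) ^ 2 ≤ l⁻¹ * (1 / (1 + l * n) - 1 / (1 + l * ((n:ℝ) + 1))) := by
      have a1 : (0:ℝ) < 1 + l * n := by positivity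
      have a2 : (0:ℝ) < 1 + l * ((n:ℝ) + 1) := by positivity
      have e1 : l⁻¹ * (1 / (1 + l * n) - 1 / (1 + l * ((n:ℝ) + 1))) =
          1 / ((1 + l * n) * (1 + l * ((n:ℝ) + 1))) := by
        field_simp
        ring
      rw [e1, sq]
      apply one_div_le_one_div_of_le (by positivity)
      apply mul_le_mul_of_nonneg_right _ a2.le
      nlinarith
    push_cast
    have h2 : l⁻¹ * (1 - 1 / (1 + l * n)) + l⁻¹ * (1 / (1 + l * n) - 1 / (1 + l * ((n:ℝ) + 1))) =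
        l⁻¹ * (1 - 1 / (1 + l * ((n:ℝ) + 1))) := by ring
    linarith

/-- Sum of the square of the one-arm kernel. -/
theorem kernv {p : ℝ} (hp : p < 1/2) (p0 : 0 ≤ p) {m : ℕ} (hm : 1 ≤ m) (z : EM (2 * m))
    (hz : z ∈ Vi m) : ∑ y ∈ Vi m, psi (vb p) m (eds y.1 z.1) ^ 2 ≤
      288 * Pool.Agent.NH39.W.WW ^ 2 * (1/2 - p) ^ (-(43/18) : ℝ) := by
  obtain ⟨t, ht⟩ : ∃ t : ℝ, t = 1/2 - p := ⟨_, rfl⟩
  have ht0 : 0 < t := by rw [ht]; linarith
  have ht1 : t ≤ 1 := by rw [ht]; linarith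
  have hpt : |p - 1/2| = t := by rw [abs_sub_comm, abs_of_pos (by linarith), ht]
  rw [← ht]
  have hW := Pool.Agent.NH39.W.WW_one
  obtain ⟨l, hl⟩ : ∃ l : ℝ, l = t ^ (4/3 : ℝ) := ⟨_, rfl⟩
  have hl0 : 0 < l := by rw [hl]; positivity
  have hl1 : l ≤ 1 := by rw [hl]; exact Real.rpow_le_one ht0.le ht1 (by norm_num)
  refine (sum_eds z hz (fun b => psi (vb p) m b ^ 2) (fun b => sq_nonneg _)).trans ?_
  have e3 : ∀ b ∈ range (2 * m + 1), ((b:ℝ) + 1) * psi (vb p) m b ^ 2 ≤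
      16 * Pool.Agent.NH39.W.WW ^ 2 * l ^ (-(19/24) : ℝ) * (1 / (1 + l * ((b:ℝ) + 1)) ^ 2) := by
    intro b hb
    rw [Finset.mem_range] at hb
    have hb0 : (0:ℝ) < (b:ℝ) + 1 := by positivity
    have hx0 : 0 < l * ((b:ℝ) + 1) := by positivity
    have h1 : psi (vb p) m b ≤ Pool.Agent.NH39.W.WW * vb p (b + 1) := by
      unfold psi
      exact vb_doub p (le_max_left _ _) (by omega) (by omega)
    have h0 : 0 ≤ psi (vb p) m b := (vb_pos p (le_max_left _ _)).le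
    have h2 : vb p (b + 1) ≤ ((b:ℝ) + 1) ^ (-(5/48) : ℝ) * (4 * (1 / (1 + l * ((b:ℝ) + 1)) ^ 2)) := by
      unfold vb
      rw [hpt, ← hl]
      push_cast
      apply mul_le_mul_of_nonneg_left _ (by positivity)
      rw [div_pow, mul_one_div]
      apply div_le_div_of_nonneg_right _ (by positivity)
      nlinarith
    have h3 := pow_le_pow_left₀ h0 (h1.trans (mul_le_mul_of_nonneg_left h2 (by linarith))) 2
    have h4 := mul_le_mul_of_nonneg_left h3 hb0.le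
    refine h4.trans ?_
    -- the power of `b + 1`
    have h5 : ((b:ℝ) + 1) * (((b:ℝ) + 1) ^ (-(5/48) : ℝ)) ^ 2 = ((b:ℝ) + 1) ^ (19/24 : ℝ) := by
      rw [← Real.rpow_natCast, ← Real.rpow_mul hb0.le]
      nth_rewrite 1 [← Real.rpow_one ((b:ℝ) + 1)]
      rw [← Real.rpow_add hb0]
      norm_num
    have h6 : ((b:ℝ) + 1) ^ (19/24 : ℝ) ≤ l ^ (-(19/24) : ℝ) * (1 + l * ((b:ℝ) + 1)) := by
      have h7 : ((b:ℝ) + 1) ^ (19/24 : ℝ) = l ^ (-(19/24) : ℝ) * (l * ((b:ℝ) + 1)) ^ (19/24 : ℝ) := by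
        rw [Real.mul_rpow hl0.le hb0.le, ← mul_assoc, ← Real.rpow_add hl0]
        norm_num
      rw [h7]
      apply mul_le_mul_of_nonneg_left _ (by positivity)
      rcases le_total (l * ((b:ℝ) + 1)) 1 with h | h
      · exact (Real.rpow_le_one hx0.le h (by norm_num)).trans (by linarith)
      · calc (l * ((b:ℝ) + 1)) ^ (19/24 : ℝ) ≤ (l * ((b:ℝ) + 1)) ^ (1:ℝ) :=
              Real.rpow_le_rpow_of_exponent_le h (by norm_num)
          _ = l * ((b:ℝ) + 1) := Real.rpow_one _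
          _ ≤ _ := by linarith
    have h8 : (1:ℝ) ≤ 1 + l * ((b:ℝ) + 1) := by linarith
    obtain ⟨X, hX⟩ : ∃ X : ℝ, X = 1 + l * ((b:ℝ) + 1) := ⟨_, rfl⟩
    rw [← hX] at h6 h8 ⊢
    have hX0 : 0 < X := by linarith
    obtain ⟨L, hL⟩ : ∃ L : ℝ, L = l ^ (-(19/24) : ℝ) := ⟨_, rfl⟩
    have hL0 : 0 < L := by rw [hL]; positivity
    rw [← hL] at h6 ⊢
    have h9 : ((b:ℝ) + 1) * (Pool.Agent.NH39.W.WW * (((b:ℝ) + 1) ^ (-(5/48) : ℝ) *
        (4 * (1 / X ^ 2)))) ^ 2 = 16 * Pool.Agent.NH39.W.WW ^ 2 * (((b:ℝ) + 1) ^ (19/24 : ℝ)) *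
        (1 / X ^ 4) := by
      rw [← h5]
      field_simp
      ring
    rw [h9]
    calc 16 * Pool.Agent.NH39.W.WW ^ 2 * (((b:ℝ) + 1) ^ (19/24 : ℝ)) * (1 / X ^ 4)
        ≤ 16 * Pool.Agent.NH39.W.WW ^ 2 * (L * X) * (1 / X ^ 4) := by
          apply mul_le_mul_of_nonneg_right _ (by positivity)
          exact mul_le_mul_of_nonneg_left h6 (by positivity)
      _ = 16 * Pool.Agent.NH39.W.WW ^ 2 * L * (1 / X ^ 3) := by field_simp
      _ ≤ _ := by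
          apply mul_le_mul_of_nonneg_left _ (by positivity)
          apply one_div_le_one_div_of_le (by positivity)
          exact pow_le_pow_right₀ h8 (by norm_num)
  have e4 := Finset.sum_le_sum e3
  rw [← Finset.mul_sum] at e4
  have e5 := tele hl0 (2 * m + 1)
  have e6 : l⁻¹ * (1 - 1 / (1 + l * ((2 * m + 1 : ℕ) : ℝ))) ≤ l⁻¹ := by
    have : (0:ℝ) < 1 / (1 + l * ((2 * m + 1 : ℕ) : ℝ)) := by positivity
    have h1 : 0 < l⁻¹ := by positivity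
    nlinarith
  have e7 : l ^ (-(19/24) : ℝ) * l⁻¹ = t ^ (-(43/18) : ℝ) := by
    rw [← Real.rpow_neg_one, ← Real.rpow_add hl0, hl, ← Real.rpow_mul ht0.le]
    norm_num
  have h7 : 0 ≤ 16 * Pool.Agent.NH39.W.WW ^ 2 * l ^ (-(19/24) : ℝ) := by positivity
  calc 18 * ∑ b ∈ range (2 * m + 1), ((b:ℝ) + 1) * psi (vb p) m b ^ 2
      ≤ 18 * (16 * Pool.Agent.NH39.W.WW ^ 2 * l ^ (-(19/24) : ℝ) *
        ∑ b ∈ range (2 * m + 1), 1 / (1 + l * ((b:ℝ) + 1)) ^ 2) := by linarith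
    _ ≤ 18 * (16 * Pool.Agent.NH39.W.WW ^ 2 * l ^ (-(19/24) : ℝ) * l⁻¹) := by
        apply mul_le_mul_of_nonneg_left _ (by norm_num)
        exact mul_le_mul_of_nonneg_left (e5.trans e6) h7
    _ = 288 * Pool.Agent.NH39.W.WW ^ 2 * (l ^ (-(19/24) : ℝ) * l⁻¹) := by ring
    _ = _ := by rw [e7]

end Pool.Agent.H953
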