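import Pool.Graph.R_seed8.H12R2.Sep.Defs4
import Pool.Graph.R_seed8.H974R2.Circ

/-!
The open arms of the plus event, continued by open crossings of two tubes.
-/

set_option maxHeartbeats 400000

namespace Pool.Agent.H953

open H974 Finset H12S

/-- The open arms through the mouths. -/
theorem open_mid {b w N : ℕ} (hw : 1 ≤ w) (hwb : w < b) (hbN : b + 2 * w < N) {A1 A2 : ℤ}
    (hA1 : A1 ≤ -(N:ℤ)) (hA2 : (N:ℤ) ≤ A2) {e : Edg} (heb : e ∈ boxE b) {F : Finset Edg}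
    (hA : Cn (botV N) (topV N) (insert e ((↑F : Set Edg) ∩ ↑(XV b w N))))
    (hS1 : LRc (-(w:ℤ)) w (-(N:ℤ)) (-(N:ℤ) + 2 * w) F)
    (hS2 : LRc (-(w:ℤ)) w ((N:ℤ) - 2 * w) N F)
    (hT1 : TBc (-(w:ℤ)) w A1 (-(N:ℤ) + 2 * w) F)
    (hT2 : TBc (-(w:ℤ)) w ((N:ℤ) - 2 * w) A2 F) :
    ∃ x1 x2 : ℤ, (-(w:ℤ) ≤ x1 ∧ x1 ≤ w) ∧ (-(w:ℤ) ≤ x2 ∧ x2 ≤ w) ∧
      Reach (insert e (↑F : Set Edg)) (x1, A1) (x2, A2) := by
  obtain ⟨u, hu, v, hv, hr⟩ := hA
  have hu2 : u.2 = -(N:ℤ) := hu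
  have hv2 : v.2 = (N:ℤ) := hv
  obtain ⟨G, hG⟩ : ∃ G : Set Edg, G = insert e ((↑F : Set Edg) ∩ ↑(XV b w N)) := ⟨_, rfl⟩
  rw [← hG] at hr
  obtain ⟨H, hH⟩ : ∃ H : Set Edg, H = insert e (↑F : Set Edg) := ⟨_, rfl⟩
  rw [← hH]
  have hGH : G ⊆ H := by
    rw [hG, hH]
    exact Set.insert_subset_insert Set.inter_subset_left
  have hFH : (↑F : Set Edg) ⊆ H := by
    rw [hH]; exact Set.subset_insert _ _
  have gV : ∀ x y, ((x, y, false) : Edg) ∈ G → (-(b:ℤ) ≤ y ∧ y < b) ∨ (-(w:ℤ) ≤ x ∧ x ≤ w) := by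
    intro x y h
    rw [hG] at h
    rcases h with h | ⟨-, h⟩
    · rw [← h] at heb
      unfold boxE at heb
      rw [mem_RE_false] at heb
      omega
    · have h' : ((x, y, false) : Edg) ∈ XV b w N := by exact_mod_cast h
      unfold XV boxE at h'
      rw [Finset.mem_union, mem_RE_false, mem_RE_false] at h'
      omega
  have gH : ∀ x y, ((x, y, true) : Edg) ∈ G → (-(b:ℤ) ≤ y ∧ y ≤ b) ∨ (-(w:ℤ) ≤ x ∧ x < w) := by
    intro x y h
    rw [hG] at h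
    rcases h with h | ⟨-, h⟩
    · rw [← h] at heb
      unfold boxE at heb
      rw [mem_RE_true] at heb
      omega
    · have h' : ((x, y, true) : Edg) ∈ XV b w N := by exact_mod_cast h
      unfold XV boxE at h'
      rw [Finset.mem_union, mem_RE_true, mem_RE_true] at h'
      omega
  -- the lower part
  obtain ⟨p1, p2, hp1, hp2, hp3, hp4⟩ := sub_TB (G := G) (a := -(w:ℤ)) (b := w) (c := -(N:ℤ))
    (d := -(N:ℤ) + 2 * w) (by omega)
    (fun x y h h1 h2 => by have := gV x y h; omega)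
    (fun x y h h1 h2 => by have := gH x y h; omega) hr hu2.le (by omega)
  obtain ⟨t1, t2, ht1, ht2, ht3⟩ := hT1
  obtain ⟨p3, p4, hp5, hp6, hp7, hp8⟩ := sub_TB (G := (↑F : Set Edg) ∩ ↑(TBE (-(w:ℤ)) w A1
    (-(N:ℤ) + 2 * w))) (a := -(w:ℤ)) (b := w) (c := -(N:ℤ))
    (d := -(N:ℤ) + 2 * w) (by omega)
    (by rintro x y ⟨-, h⟩ _ _; simp only [mem_coe, mem_TBE_false] at h; omega)
    (by rintro x y ⟨-, h⟩ _ _; simp only [mem_coe, mem_TBE_true] at h; omega) ht3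
    (by simp only; omega) (by simp only; omega)
  obtain ⟨s1, s2, hs1, hs2, hs3⟩ := hS1
  have m1 : Reach (H ∩ ↑(RE (-(w:ℤ)) w (-(N:ℤ)) (-(N:ℤ) + 2 * w))) (-(w:ℤ), s1) (p1, -(N:ℤ)) :=
    crossings_meet (by omega) (by omega) hs2 hp1
      (hs3.mono (Set.inter_subset_inter_left _ hFH)) (hp3.mono (Set.inter_subset_inter_left _ hGH))
  have m2 : Reach (H ∩ ↑(RE (-(w:ℤ)) w (-(N:ℤ)) (-(N:ℤ) + 2 * w))) (-(w:ℤ), s1) (p3, -(N:ℤ)) :=
    crossings_meet (by omega) (by omega) hs2 hp5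
      (hs3.mono (Set.inter_subset_inter_left _ hFH)) (hp7.mono (by
        rintro g ⟨⟨h1, -⟩, h2⟩; exact ⟨hFH h1, h2⟩))
  -- the upper part
  obtain ⟨q1, q2, hq1, hq2, hq3, hq4⟩ := sub_TB (G := G) (a := -(w:ℤ)) (b := w)
    (c := (N:ℤ) - 2 * w) (d := (N:ℤ)) (by omega)
    (fun x y h h1 h2 => by have := gV x y h; omega)
    (fun x y h h1 h2 => by have := gH x y h; omega) hr (by omega) (by omega)
  obtain ⟨t3, t4, ht4, ht5, ht6⟩ := hT2
  obtain ⟨q3, q4, hq5, hq6, hq7, hq8⟩ := sub_TB (G := (↑F : Set Edg) ∩ ↑(TBE (-(w:ℤ)) w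
    ((N:ℤ) - 2 * w) A2)) (a := -(w:ℤ)) (b := w) (c := (N:ℤ) - 2 * w) (d := (N:ℤ)) (by omega)
    (by rintro x y ⟨-, h⟩ _ _; simp only [mem_coe, mem_TBE_false] at h; omega)
    (by rintro x y ⟨-, h⟩ _ _; simp only [mem_coe, mem_TBE_true] at h; omega) ht6
    (by simp only; omega) (by simp only; omega)
  obtain ⟨s3, s4, hs4, hs5, hs6⟩ := hS2
  have m3 : Reach (H ∩ ↑(RE (-(w:ℤ)) w ((N:ℤ) - 2 * w) N)) (-(w:ℤ), s3) (q1, (N:ℤ) - 2 * w) :=
    crossings_meet (by omega) (by omega) hs5 hq1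
      (hs6.mono (Set.inter_subset_inter_left _ hFH)) (hq3.mono (Set.inter_subset_inter_left _ hGH))
  have m4 : Reach (H ∩ ↑(RE (-(w:ℤ)) w ((N:ℤ) - 2 * w) N)) (-(w:ℤ), s3) (q3, (N:ℤ) - 2 * w) :=
    crossings_meet (by omega) (by omega) hs5 hq5
      (hs6.mono (Set.inter_subset_inter_left _ hFH)) (hq7.mono (by
        rintro g ⟨⟨h1, -⟩, h2⟩; exact ⟨hFH h1, h2⟩))
  have i1 := hp8.mono (Set.inter_subset_left.trans hFH)
  have i2 := m1.mono (Set.inter_subset_left)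
  have i3 := m2.mono (Set.inter_subset_left)
  have i4 := hp4.mono hGH
  have i5 := hq4.mono hGH
  have i6 := m3.mono (Set.inter_subset_left)
  have i7 := m4.mono (Set.inter_subset_left)
  have i8 := hq8.mono (Set.inter_subset_left.trans hFH)
  have i9 := ht6.mono (Set.inter_subset_left.trans hFH)
  refine ⟨t1, t4, ht1, ht5, ?_⟩
  exact i1.trans (i3.symm.trans (i2.trans (i4.symm.trans (i5.trans (i6.symm.trans
    (i7.trans (i8.symm.trans i9)))))))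

end Pool.Agent.H953
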