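import Pool.Graph.R_seed8.H12R2.Sep.Defs4
import Pool.Graph.R_seed8.H974R2.Circ

/-!
A four-arm event in a cross-shaped region, continued by closed dual crossings of two strips, blocks
the crossings of a wide rectangle.
-/

set_option maxHeartbeats 400000

namespace Pool.Agent.H953

open H974 Finset H12S

/-- The first exit of a path from a set of vertices. -/
theorem exitP {G : Set Edg} {P : Vtx → Prop} {u v : Vtx} (h : Reach G u v) (hu : P u) :
    (P v ∧ Reach (G ∩ {e | P (src e) ∧ P (tgt e)}) u v) ∨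
      ∃ a b, P a ∧ ¬ P b ∧ Adj G a b ∧ Reach (G ∩ {e | P (src e) ∧ P (tgt e)}) u a ∧
        Reach G b v := by
  induction h with
  | refl => exact Or.inl ⟨hu, Relation.ReflTransGen.refl⟩
  | @tail w v hw hadj ih =>
    rcases ih with ⟨h1, h2⟩ | ⟨a, b, h1, h2, h3, h4, h5⟩
    · by_cases hv : P v
      · refine Or.inl ⟨hv, Relation.ReflTransGen.tail h2 ?_⟩
        obtain ⟨e, he, hh⟩ := hadj
        refine ⟨e, ⟨he, ?_⟩, hh⟩
        rcases hh with ⟨h3, h4⟩ | ⟨h3, h4⟩
        · exact ⟨by rw [h3]; exact h1, by rw [h4]; exact hv⟩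
        · exact ⟨by rw [h3]; exact hv, by rw [h4]; exact h1⟩
      · exact Or.inr ⟨w, v, h1, hv, hadj, h2, Relation.ReflTransGen.refl⟩
    · exact Or.inr ⟨a, b, h1, h2, h3, h4, Relation.ReflTransGen.tail h5 hadj⟩

/-- A path stays in a set or visits its complement. -/
theorem viaP {G : Set Edg} (P : Vtx → Prop) {u v : Vtx} (h : Reach G u v) :
    (P u ∧ P v ∧ Reach (G ∩ {e | P (src e) ∧ P (tgt e)}) u v) ∨
      ∃ z, ¬ P z ∧ Reach G u z ∧ Reach G z v := by
  by_cases hu : P u
  · rcases exitP h hu with ⟨h1, h2⟩ | ⟨a, b, h1, h2, h3, h4, h5⟩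
    · exact Or.inl ⟨hu, h1, h2⟩
    · refine Or.inr ⟨b, h2, ?_, h5⟩
      exact (h4.mono Set.inter_subset_left).trans h3.reach
  · exact Or.inr ⟨u, hu, Reach.refl _ _, h⟩

theorem adj_coord {G : Set Edg} {u v : Vtx} (h : Adj G u v) :
    (u.1 = v.1 ∧ (u.2 = v.2 + 1 ∨ v.2 = u.2 + 1)) ∨ (u.2 = v.2 ∧ (u.1 = v.1 + 1 ∨ v.1 = u.1 + 1)) := by
  obtain ⟨⟨x, y, b⟩, -, h⟩ := h
  obtain ⟨u1, u2⟩ := u
  obtain ⟨v1, v2⟩ := v
  cases b
  · simp only [src_mk, tgt_false, Prod.mk.injEq] at h
    simp only
    omega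
  · simp only [src_mk, tgt_true, Prod.mk.injEq] at h
    simp only
    omega

/-- A vertical line. -/
theorem reach_col {G : Set Edg} {x y1 y2 : ℤ} (h12 : y1 ≤ y2)
    (h : ∀ y : ℤ, y1 ≤ y → y < y2 → ((x, y, false) : Edg) ∈ G) : Reach G (x, y1) (x, y2) := by
  obtain ⟨n, rfl⟩ := Int.le.dest h12
  induction n with
  | zero => simpa using Reach.refl G (x, y1)
  | succ n ih =>
    have h1 := ih (by omega) (fun y hy hy2 => h y hy (by push_cast; omega))
    refine Relation.ReflTransGen.tail h1 ⟨(x, y1 + n, false), h _ (by omega) (by push_cast; omega), ?_⟩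
    left
    simp only [src_mk, tgt_false, true_and]
    push_cast
    rw [add_assoc]

/-- The blocked crossing. -/
theorem top_block {b w N : ℕ} (hw : 1 ≤ w) (hwb : w < b) (hbN : b + 2 * w < N) {A1 A2 : ℤ}
    (hA1 : (N:ℤ) ≤ A1) (hA2 : (N:ℤ) ≤ A2) {e : Edg} {F : Finset Edg} (he : e ∉ F)
    (heb : e ∈ boxE b)
    (hD : ¬ Cn (botV N) (topV N)
      ((((↑F : Set Edg) ∩ ↑(XH b w N)) ∪ ↑(boxE N \ XH b w N)) \ {e}))
    (hV1 : ¬ LRc ((N:ℤ) - 2 * w) N (-w) w F) (hV2 : ¬ LRc (-(N:ℤ)) (-(N:ℤ) + 2 * w) (-w) w F)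
    (hT1 : ¬ TBc ((N:ℤ) - 2 * w) A2 (-w) w F) (hT2 : ¬ TBc (-A1) (-(N:ℤ) + 2 * w) (-w) w F) :
    ¬ TBc (-A1) A2 (-(N:ℤ)) N F := by
  rintro ⟨x1, x2, hx1, hx2, hr⟩
  obtain ⟨G, hG⟩ : ∃ G : Set Edg, G = (↑F : Set Edg) ∩ ↑(TBE (-A1) A2 (-(N:ℤ)) N) := ⟨_, rfl⟩
  rw [← hG] at hr
  obtain ⟨Low, hLow⟩ : ∃ Low : Vtx → Prop, Low = fun v => v.2 ≤ -(w:ℤ) ∧
    ((b:ℤ) < |v.1| ∨ v.2 < -(b:ℤ)) := ⟨_, rfl⟩
  obtain ⟨Up, hUp⟩ : ∃ Up : Vtx → Prop, Up = fun v => (w:ℤ) ≤ v.2 ∧
    ((b:ℤ) < |v.1| ∨ (b:ℤ) < v.2) := ⟨_, rfl⟩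
  have dLow : ∀ v, Low v ↔ (v.2 ≤ -(w:ℤ) ∧ ((b:ℤ) < |v.1| ∨ v.2 < -(b:ℤ))) := by
    intro v; rw [hLow]
  have dUp : ∀ v, Up v ↔ ((w:ℤ) ≤ v.2 ∧ ((b:ℤ) < |v.1| ∨ (b:ℤ) < v.2)) := by
    intro v; rw [hUp]
  have hM : ∀ v, ¬ Low v → ¬ Up v → (-(w:ℤ) < v.2 ∧ v.2 < w) ∨
      (|v.1| ≤ b ∧ -(b:ℤ) ≤ v.2 ∧ v.2 ≤ b) := by
    intro v h1 h2
    rw [dLow] at h1
    rw [dUp] at h2
    omega
  have hsL : Low (x1, -(N:ℤ)) := by
    rw [dLow]; simp only; omega
  have hsU : ¬ Up (x1, -(N:ℤ)) := by
    rw [dUp]; simp only; omega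
  have heU : Up (x2, (N:ℤ)) := by
    rw [dUp]; simp only; omega
  -- the last vertex before the first upper vertex
  rcases exitP (P := fun v => ¬ Up v) hr hsU with ⟨h1, -⟩ | ⟨a, b', ha, hb', hab, hua, -⟩
  · exact h1 heU
  rw [not_not] at hb'
  obtain ⟨GZ, hGZ⟩ : ∃ GZ : Set Edg, GZ = G ∩ {e | ¬ Up (src e) ∧ ¬ Up (tgt e)} := ⟨_, rfl⟩
  rw [← hGZ] at hua
  have haL : ¬ Low a := by
    intro h
    have := adj_coord hab
    rw [dLow] at h
    rw [dUp] at hb'
    omega
  rcases exitP (P := fun v => ¬ Low v) hua.symm haL with ⟨h1, -⟩ | ⟨m, z, hm, hz, hmz, ham, -⟩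
  · exact h1 hsL
  rw [not_not] at hz
  obtain ⟨GM, hGM⟩ : ∃ GM : Set Edg, GM = GZ ∩ {e | ¬ Low (src e) ∧ ¬ Low (tgt e)} := ⟨_, rfl⟩
  rw [← hGM] at ham
  have hma : Reach GM m a := ham.symm
  have hmU : ¬ Up m := by
    obtain ⟨g, hg, hh⟩ := hmz
    rw [hGZ] at hg
    rcases hh with ⟨h1, -⟩ | ⟨-, h1⟩
    · rw [← h1]; exact hg.2.1
    · rw [← h1]; exact hg.2.2
  have hzm : Adj G z m := (hmz.symm).mono (by rw [hGZ]; exact Set.inter_subset_left)
  have gmF : ∀ g ∈ GM, g ∈ F ∧ g ∈ TBE (-A1) A2 (-(N:ℤ)) N ∧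
      (¬ Up (src g) ∧ ¬ Low (src g)) ∧ (¬ Up (tgt g) ∧ ¬ Low (tgt g)) := by
    intro g hg
    rw [hGM, hGZ, hG] at hg
    obtain ⟨⟨⟨g1, g2⟩, g3⟩, g4⟩ := hg
    exact ⟨by exact_mod_cast g1, by exact_mod_cast g2, ⟨g3.1, g4.1⟩, ⟨g3.2, g4.2⟩⟩
  have gF : ∀ g ∈ G, g ∈ F ∧ g ∈ TBE (-A1) A2 (-(N:ℤ)) N := by
    intro g hg
    rw [hG] at hg
    exact ⟨by exact_mod_cast hg.1, by exact_mod_cast hg.2⟩
  have hMm := hM m hm hmU
  have hMa := hM a haL ha
  have czm := adj_coord hzm
  have cab := adj_coord hab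
  have zL := (dLow z).1 hz
  have bU := (dUp b').1 hb'
  rcases viaP (fun v : Vtx => |v.1| ≤ (N:ℤ)) hma with ⟨k1, k2, k3⟩ | ⟨z1, hz1, r1, r1'⟩
  · -- the path stays in the middle
    apply hD
    have a1 := abs_cases z.1
    have a2 := abs_cases m.1
    have a3 := abs_cases a.1
    have a4 := abs_cases b'.1
    have kz : |z.1| ≤ (N:ℤ) := by omega
    have kb : |b'.1| ≤ (N:ℤ) := by omega
    have e0n : ∀ g ∈ F, g ≠ e := by
      intro g hg h
      rw [h] at hg
      exact he hg
    have hedge : ∀ g ∈ F, g ∈ TBE (-A1) A2 (-(N:ℤ)) N → |(src g).1| ≤ (N:ℤ) → |(tgt g).1| ≤ (N:ℤ) →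
        g ∈ ((((↑F : Set Edg) ∩ ↑(XH b w N)) ∪ ↑(boxE N \ XH b w N)) \ {e}) := by
      intro g hg1 hg2 hg3 hg4
      refine ⟨?_, by simpa using e0n g hg1⟩
      by_cases hx : g ∈ XH b w N
      · left
        exact ⟨by exact_mod_cast hg1, by exact_mod_cast hx⟩
      · right
        rw [Finset.coe_sdiff]
        refine ⟨?_, by exact_mod_cast hx⟩
        have : g ∈ boxE N := by
          obtain ⟨x, y, bb⟩ := g
          unfold boxE
          cases bb
          · rw [mem_TBE_false] at hg2
            rw [mem_RE_false]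
            simp only [src_mk] at hg3
            rw [abs_le] at hg3
            omega
          · rw [mem_TBE_true] at hg2
            rw [mem_RE_true]
            simp only [src_mk, tgt_true] at hg3 hg4
            rw [abs_le] at hg3 hg4
            omega
        exact_mod_cast this
    have hcol : ∀ x y : ℤ, |x| ≤ (N:ℤ) → (-(N:ℤ) ≤ y) → y < N →
        (b:ℤ) < |x| ∨ y + 1 < -(b:ℤ) ∨ (b:ℤ) < y → (y < -(w:ℤ) ∨ (w:ℤ) ≤ y) →
        ((x, y, false) : Edg) ∈ ((((↑F : Set Edg) ∩ ↑(XH b w N)) ∪ ↑(boxE N \ XH b w N)) \ {e}) := by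
      intro x y h1 h2 h3 h4 h5
      rw [abs_le] at h1
      have hnb : ((x, y, false) : Edg) ∉ boxE b := by
        unfold boxE
        rw [mem_RE_false]
        intro h
        rcases h4 with h4 | h4 | h4
        · rw [lt_abs] at h4; omega
        · omega
        · omega
      refine ⟨Or.inr ?_, ?_⟩
      · rw [Finset.coe_sdiff]
        refine ⟨?_, ?_⟩
        · have : ((x, y, false) : Edg) ∈ boxE N := by
            unfold boxE
            rw [mem_RE_false]
            omega
          exact_mod_cast this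
        · have : ((x, y, false) : Edg) ∉ XH b w N := by
            unfold XH
            rw [Finset.mem_union, not_or]
            refine ⟨hnb, ?_⟩
            rw [mem_RE_false]
            omega
          exact_mod_cast this
      · simp only [Set.mem_singleton_iff]
        intro h
        rw [h] at hnb
        exact hnb heb
    have hzN : -(N:ℤ) ≤ z.2 ∧ z.2 ≤ N := by
      obtain ⟨g, hg, hh⟩ := hzm
      have hg2 := (gF g hg).2
      obtain ⟨x, y, bb⟩ := g
      obtain ⟨z1, z2⟩ := z
      cases bb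
      · rw [mem_TBE_false] at hg2
        simp only [src_mk, tgt_false, Prod.mk.injEq] at hh
        simp only
        omega
      · rw [mem_TBE_true] at hg2
        simp only [src_mk, tgt_true, Prod.mk.injEq] at hh
        simp only
        omega
    have hbN' : -(N:ℤ) ≤ b'.2 ∧ b'.2 ≤ N := by
      obtain ⟨g, hg, hh⟩ := hab
      have hg2 := (gF g hg).2
      obtain ⟨x, y, bb⟩ := g
      obtain ⟨z1, z2⟩ := b'
      cases bb
      · rw [mem_TBE_false] at hg2
        simp only [src_mk, tgt_false, Prod.mk.injEq] at hh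
        simp only
        omega
      · rw [mem_TBE_true] at hg2
        simp only [src_mk, tgt_true, Prod.mk.injEq] at hh
        simp only
        omega
    refine ⟨(z.1, -(N:ℤ)), rfl, (b'.1, (N:ℤ)), rfl, ?_⟩
    have s1 : Reach ((((↑F : Set Edg) ∩ ↑(XH b w N)) ∪ ↑(boxE N \ XH b w N)) \ {e})
        (z.1, -(N:ℤ)) (z.1, z.2) := by
      refine reach_col hzN.1 (fun y hy1 hy2 => hcol z.1 y kz hy1 (by omega) (by omega) (by omega))
    have s5 : Reach ((((↑F : Set Edg) ∩ ↑(XH b w N)) ∪ ↑(boxE N \ XH b w N)) \ {e})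
        (b'.1, b'.2) (b'.1, (N:ℤ)) := by
      refine reach_col hbN'.2 (fun y hy1 hy2 => hcol b'.1 y kb (by omega) hy2 (by omega) (by omega))
    have s2 : Adj ((((↑F : Set Edg) ∩ ↑(XH b w N)) ∪ ↑(boxE N \ XH b w N)) \ {e}) z m := by
      obtain ⟨g, hg, hh⟩ := hzm
      refine ⟨g, hedge g (gF g hg).1 (gF g hg).2 ?_ ?_, hh⟩
      · rcases hh with ⟨h1, h2⟩ | ⟨h1, h2⟩
        · rw [h1]; exact kz
        · rw [h1]; exact k1
      · rcases hh with ⟨h1, h2⟩ | ⟨h1, h2⟩
        · rw [h2]; exact k1
        · rw [h2]; exact kz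
    have s4 : Adj ((((↑F : Set Edg) ∩ ↑(XH b w N)) ∪ ↑(boxE N \ XH b w N)) \ {e}) a b' := by
      obtain ⟨g, hg, hh⟩ := hab
      refine ⟨g, hedge g (gF g hg).1 (gF g hg).2 ?_ ?_, hh⟩
      · rcases hh with ⟨h1, h2⟩ | ⟨h1, h2⟩
        · rw [h1]; exact k2
        · rw [h1]; exact kb
      · rcases hh with ⟨h1, h2⟩ | ⟨h1, h2⟩
        · rw [h2]; exact kb
        · rw [h2]; exact k2
    have s3 : Reach ((((↑F : Set Edg) ∩ ↑(XH b w N)) ∪ ↑(boxE N \ XH b w N)) \ {e}) m a := by
      refine k3.mono ?_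
      rintro g ⟨hg1, hg2⟩
      have := gmF g hg1
      exact hedge g this.1 this.2.1 hg2.1 hg2.2
    exact s1.trans (s2.reach.trans (s3.trans (s4.reach.trans s5)))
  · rw [not_le] at hz1
    rcases viaP (fun v : Vtx => (N:ℤ) - 2 * w ≤ |v.1|) hma with ⟨k1, k2, k3⟩ | ⟨z2, hz2, r2, r2'⟩
    · -- the path stays away from the middle
      have hthin : ∀ v : Vtx, ¬ Low v → ¬ Up v → (N:ℤ) - 2 * w ≤ |v.1| → -(w:ℤ) < v.2 ∧ v.2 < w := by
        intro v h1 h2 h3
        have := hM v h1 h2
        omega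
      have tm := hthin m hm hmU k1
      have ta := hthin a haL ha k2
      have hz' : z.1 = m.1 ∧ z.2 = -(w:ℤ) := by omega
      have hb'' : b'.1 = a.1 ∧ b'.2 = (w:ℤ) := by omega
      obtain ⟨GH, hGH⟩ : ∃ GH : Set Edg, GH = GM ∩ {e | (N:ℤ) - 2 * w ≤ |(src e).1| ∧
        (N:ℤ) - 2 * w ≤ |(tgt e).1|} := ⟨_, rfl⟩
      have k3' : Reach GH m a := by rw [hGH]; exact k3
      rcases le_or_gt ((N:ℤ) - 2 * w) m.1 with hs | hs
      · rcases exitP (P := fun v : Vtx => (N:ℤ) - 2 * w ≤ v.1) k3' hs with ⟨l1, l2⟩ | ⟨c, d, c1, d1, cd, -, -⟩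
        · -- right strip
          apply hT1
          have hsub : GH ∩ {e | (N:ℤ) - 2 * w ≤ (src e).1 ∧ (N:ℤ) - 2 * w ≤ (tgt e).1} ⊆
              (↑F : Set Edg) ∩ ↑(RE ((N:ℤ) - 2 * w) A2 (-w) w) := by
            rintro g ⟨hg1, hg2, hg3⟩
            rw [hGH] at hg1
            have h1 := gmF g hg1.1
            refine ⟨by exact_mod_cast h1.1, ?_⟩
            have t1 := hthin (src g) h1.2.2.1.2 h1.2.2.1.1 hg1.2.1
            have t2 := hthin (tgt g) h1.2.2.2.2 h1.2.2.2.1 hg1.2.2
            have h3 := h1.2.1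
            have : g ∈ RE ((N:ℤ) - 2 * w) A2 (-w) w := by
              obtain ⟨x, y, bb⟩ := g
              cases bb
              · rw [mem_TBE_false] at h3
                rw [mem_RE_false]
                simp only [src_mk, tgt_false] at t1 t2 hg2
                omega
              · rw [mem_TBE_true] at h3
                rw [mem_RE_true]
                simp only [src_mk, tgt_true] at t1 t2 hg2
                omega
            exact_mod_cast this
          have l3 := l2.mono hsub
          have q1 : Adj ((↑F : Set Edg) ∩ ↑(RE ((N:ℤ) - 2 * w) A2 (-w) w)) z m := by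
            obtain ⟨g, hg, hh⟩ := hzm
            refine ⟨g, ⟨by exact_mod_cast (gF g hg).1, ?_⟩, hh⟩
            have h3 := (gF g hg).2
            have : g ∈ RE ((N:ℤ) - 2 * w) A2 (-w) w := by
              obtain ⟨x, y, bb⟩ := g
              obtain ⟨z1, z2⟩ := z
              obtain ⟨m1, m2⟩ := m
              cases bb
              · rw [mem_TBE_false] at h3
                rw [mem_RE_false]
                simp only [src_mk, tgt_false, Prod.mk.injEq] at hh
                simp only at hs tm hz'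
                omega
              · simp only [src_mk, tgt_true, Prod.mk.injEq] at hh
                simp only at hs tm hz'
                omega
            exact_mod_cast this
          have q2 : Adj ((↑F : Set Edg) ∩ ↑(RE ((N:ℤ) - 2 * w) A2 (-w) w)) a b' := by
            obtain ⟨g, hg, hh⟩ := hab
            refine ⟨g, ⟨by exact_mod_cast (gF g hg).1, ?_⟩, hh⟩
            have h3 := (gF g hg).2
            have : g ∈ RE ((N:ℤ) - 2 * w) A2 (-w) w := by
              obtain ⟨x, y, bb⟩ := g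
              obtain ⟨z1, z2⟩ := b'
              obtain ⟨m1, m2⟩ := a
              cases bb
              · rw [mem_TBE_false] at h3
                rw [mem_RE_false]
                simp only [src_mk, tgt_false, Prod.mk.injEq] at hh
                simp only at l1 ta hb''
                omega
              · simp only [src_mk, tgt_true, Prod.mk.injEq] at hh
                simp only at l1 ta hb''
                omega
            exact_mod_cast this
          exact TBc_of_reach (by omega) (q1.reach.trans (l3.trans q2.reach)) hz'.2 hb''.2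
        · exfalso
          obtain ⟨g, hg, hh⟩ := cd
          rw [hGH] at hg
          have cc := adj_coord (⟨g, hg.1, hh⟩ : Adj GM c d)
          have hd : (N:ℤ) - 2 * w ≤ |d.1| := by
            rcases hh with ⟨h1, h2⟩ | ⟨h1, h2⟩
            · rw [← h2]; exact hg.2.2
            · rw [← h1]; exact hg.2.1
          have a1 := abs_cases d.1
          have a2 := abs_cases c.1
          omega
      · have hs' : m.1 ≤ -((N:ℤ) - 2 * w) := by
          have a1 := abs_cases m.1
          omega
        rcases exitP (P := fun v : Vtx => v.1 ≤ -((N:ℤ) - 2 * w)) k3' hs' with ⟨l1, l2⟩ | ⟨c, d, c1, d1, cd, -, -⟩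
        · -- left strip
          apply hT2
          have hsub : GH ∩ {e | (src e).1 ≤ -((N:ℤ) - 2 * w) ∧ (tgt e).1 ≤ -((N:ℤ) - 2 * w)} ⊆
              (↑F : Set Edg) ∩ ↑(RE (-A1) (-(N:ℤ) + 2 * w) (-w) w) := by
            rintro g ⟨hg1, hg2, hg3⟩
            rw [hGH] at hg1
            have h1 := gmF g hg1.1
            refine ⟨by exact_mod_cast h1.1, ?_⟩
            have t1 := hthin (src g) h1.2.2.1.2 h1.2.2.1.1 hg1.2.1
            have t2 := hthin (tgt g) h1.2.2.2.2 h1.2.2.2.1 hg1.2.2
            have h3 := h1.2.1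
            have : g ∈ RE (-A1) (-(N:ℤ) + 2 * w) (-w) w := by
              obtain ⟨x, y, bb⟩ := g
              cases bb
              · rw [mem_TBE_false] at h3
                rw [mem_RE_false]
                simp only [src_mk, tgt_false] at t1 t2 hg2
                omega
              · rw [mem_TBE_true] at h3
                rw [mem_RE_true]
                simp only [src_mk, tgt_true] at t1 t2 hg2 hg3
                omega
            exact_mod_cast this
          have l3 := l2.mono hsub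
          have q1 : Adj ((↑F : Set Edg) ∩ ↑(RE (-A1) (-(N:ℤ) + 2 * w) (-w) w)) z m := by
            obtain ⟨g, hg, hh⟩ := hzm
            refine ⟨g, ⟨by exact_mod_cast (gF g hg).1, ?_⟩, hh⟩
            have h3 := (gF g hg).2
            have : g ∈ RE (-A1) (-(N:ℤ) + 2 * w) (-w) w := by
              obtain ⟨x, y, bb⟩ := g
              obtain ⟨z1, z2⟩ := z
              obtain ⟨m1, m2⟩ := m
              cases bb
              · rw [mem_TBE_false] at h3
                rw [mem_RE_false]
                simp only [src_mk, tgt_false, Prod.mk.injEq] at hh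
                simp only at hs' tm hz'
                omega
              · simp only [src_mk, tgt_true, Prod.mk.injEq] at hh
                simp only at hs' tm hz'
                omega
            exact_mod_cast this
          have q2 : Adj ((↑F : Set Edg) ∩ ↑(RE (-A1) (-(N:ℤ) + 2 * w) (-w) w)) a b' := by
            obtain ⟨g, hg, hh⟩ := hab
            refine ⟨g, ⟨by exact_mod_cast (gF g hg).1, ?_⟩, hh⟩
            have h3 := (gF g hg).2
            have : g ∈ RE (-A1) (-(N:ℤ) + 2 * w) (-w) w := by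
              obtain ⟨x, y, bb⟩ := g
              obtain ⟨z1, z2⟩ := b'
              obtain ⟨m1, m2⟩ := a
              cases bb
              · rw [mem_TBE_false] at h3
                rw [mem_RE_false]
                simp only [src_mk, tgt_false, Prod.mk.injEq] at hh
                simp only at l1 ta hb''
                omega
              · simp only [src_mk, tgt_true, Prod.mk.injEq] at hh
                simp only at l1 ta hb''
                omega
            exact_mod_cast this
          exact TBc_of_reach (by omega) (q1.reach.trans (l3.trans q2.reach)) hz'.2 hb''.2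
        · exfalso
          obtain ⟨g, hg, hh⟩ := cd
          rw [hGH] at hg
          have cc := adj_coord (⟨g, hg.1, hh⟩ : Adj GM c d)
          have hd : (N:ℤ) - 2 * w ≤ |d.1| := by
            rcases hh with ⟨h1, h2⟩ | ⟨h1, h2⟩
            · rw [← h2]; exact hg.2.2
            · rw [← h1]; exact hg.2.1
          have a1 := abs_cases d.1
          have a2 := abs_cases c.1
          omega
    · -- a crossing of one of the two squares
      rw [not_le] at hz2
      have r12 : Reach GM z1 z2 := r1.symm.trans r2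
      have prop : ∀ g ∈ GM, (N:ℤ) - 2 * w ≤ |(src g).1| → -(w:ℤ) < (src g).2 ∧ (src g).2 < w := by
        intro g hg h
        have h1 := gmF g hg
        have := hM (src g) h1.2.2.1.2 h1.2.2.1.1
        omega
      have hFsub : ∀ T : Finset Edg, GM ∩ (↑T : Set Edg) ⊆ (↑F : Set Edg) ∩ ↑T := by
        intro T g hg
        exact ⟨by exact_mod_cast (gmF g hg.1).1, hg.2⟩
      rcases lt_or_ge 0 z1.1 with hs | hs
      · apply hV1
        have a1 := abs_cases z1.1
        have a2 := abs_cases z2.1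
        have hz1' : (N:ℤ) < z1.1 := by omega
        obtain ⟨y1, y2, hy1, hy2, hr3, -⟩ := sub_LR (G := GM) (a := (N:ℤ) - 2 * w) (b := N)
          (c := -(w:ℤ)) (d := w) (by omega)
          (fun x y h h1 h2 => by
            have := prop _ h (by
              have := abs_cases x
              simp only [src_mk]; omega)
            simp only [src_mk] at this
            omega)
          (fun x y h h1 h2 => by
            have := prop _ h (by
              have := abs_cases x
              simp only [src_mk]; omega)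
            simp only [src_mk] at this
            omega)
          r12.symm (by omega) (by omega)
        exact ⟨y1, y2, hy1, hy2, hr3.mono (hFsub _)⟩
      · apply hV2
        have a1 := abs_cases z1.1
        have a2 := abs_cases z2.1
        have hz1' : z1.1 < -(N:ℤ) := by omega
        obtain ⟨y1, y2, hy1, hy2, hr3, -⟩ := sub_LR (G := GM) (a := -(N:ℤ)) (b := -(N:ℤ) + 2 * w)
          (c := -(w:ℤ)) (d := w) (by omega)
          (fun x y h h1 h2 => by
            have := prop _ h (by
              have := abs_cases x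
              simp only [src_mk]; omega)
            simp only [src_mk] at this
            omega)
          (fun x y h h1 h2 => by
            have := prop _ h (by
              have := abs_cases x
              simp only [src_mk]; omega)
            simp only [src_mk] at this
            omega)
          r12 (by omega) (by omega)
        exact ⟨y1, y2, hy1, hy2, hr3.mono (hFsub _)⟩

end Pool.Agent.H953
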