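import Pool.Agent.H953.OpenMid
import Pool.Agent.H953.TopBlock
import Pool.Graph.R_seed8.H31R3.Kes.Circuits
import Pool.Graph.R_seed8.H31R3.Kes.Prob

/-!
A configuration in which an edge of a given far box is pivotal for the one-arm event.
-/

set_option maxHeartbeats 400000

namespace Pool.Agent.H953

open H974 Finset H12S

theorem TBc_trl_iff {a b c d s t : ℤ} {F : Finset Edg} :
    TBc (a + s) (b + s) (c + t) (d + t) ((trl s t).mp F) ↔ TBc a b c d F := by
  constructor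
  · intro h
    have := TBc_trl (s := -s) (t := -t) h
    rw [trl_trl] at this
    simpa using this
  · exact TBc_trl

/-- The first two parts of the plus event, for the edge `(c, β)`. -/
def EA (b w N : ℕ) (c : ℤ × ℤ) (β : Bool) (F : Finset Edg) : Prop :=
  Cn (botV N) (topV N) (insert (e0 β) ((↑((trl (-c.1) (-c.2)).mp F) : Set Edg) ∩ ↑(XV b w N)))

def EB (b w N : ℕ) (c : ℤ × ℤ) (β : Bool) (F : Finset Edg) : Prop :=
  ¬ Cn (botV N) (topV N) ((((↑((trl (-c.1) (-c.2)).mp F) : Set Edg) ∩ ↑(XH b w N)) ∪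
    ↑(boxE N \ XH b w N)) \ {e0 β})

/-- The open parts. -/
def EI (w N n : ℕ) (c : ℤ × ℤ) (F : Finset Edg) : Prop :=
  (Arm (8 * N) F ∧ H31K.OC 0 0 N F) ∧
  ((TBc (c.1 - w) (c.1 + w) 0 (c.2 - N + 2 * w) F ∧
      LRc (c.1 - w) (c.1 + w) (c.2 - N) (c.2 - N + 2 * w) F) ∧
    (LRc (c.1 - w) (c.1 + w) (c.2 + N - 2 * w) (c.2 + N) F ∧
      TBc (c.1 - w) (c.1 + w) (c.2 + N - 2 * w) (32 * N) F)) ∧
  (H31K.OC 0 0 (4 * N) F ∧ XArm (16 * N) n F)

/-- The dual parts. -/
def ED (w N : ℕ) (c : ℤ × ℤ) (F : Finset Edg) : Prop :=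
  ((¬ LRc (c.1 + N - 2 * w) (c.1 + N) (c.2 - w) (c.2 + w) F ∧
      ¬ LRc (c.1 - N) (c.1 - N + 2 * w) (c.2 - w) (c.2 + w) F) ∧
    (¬ TBc (c.1 + N - 2 * w) (c.2 + N) (c.2 - w) (c.2 + w) F ∧
      ¬ TBc (-(c.2 + N)) (c.1 - N + 2 * w) (c.2 - w) (c.2 + w) F)) ∧
  ((¬ LRc (c.2 - N) (c.2 + N) (-(c.2 + N)) (c.2 + N) F ∧
      ¬ LRc (-(c.2 + N)) (-(c.2 - N)) (-(c.2 + N)) (c.2 + N) F) ∧
    ¬ TBc (-(c.2 + N)) (c.2 + N) (-(c.2 + N)) (-(c.2 - N)) F)

theorem LRc_shift {a b c d a' b' c' d' cx cy : ℤ} {F : Finset Edg} (ha : a = a' + cx)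
    (hb : b = b' + cx) (hc : c = c' + cy) (hd : d = d' + cy) :
    LRc a' b' c' d' ((trl (-cx) (-cy)).mp F) ↔ LRc a b c d F := by
  subst ha hb hc hd
  have := LRc_trl_iff (a := a' + cx) (b := b' + cx) (c := c' + cy) (d := d' + cy) (s := -cx)
    (t := -cy) (F := F)
  simpa using this

theorem TBc_shift {a b c d a' b' c' d' cx cy : ℤ} {F : Finset Edg} (ha : a = a' + cx)
    (hb : b = b' + cx) (hc : c = c' + cy) (hd : d = d' + cy) :
    TBc a' b' c' d' ((trl (-cx) (-cy)).mp F) ↔ TBc a b c d F := by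
  subst ha hb hc hd
  have := TBc_trl_iff (a := a' + cx) (b := b' + cx) (c := c' + cy) (d := d' + cy) (s := -cx)
    (t := -cy) (F := F)
  simpa using this

theorem e0_mem {b : ℕ} (hb : 1 ≤ b) (β : Bool) : e0 β ∈ boxE b := by
  unfold boxE e0
  cases β
  · rw [mem_RE_false]; omega
  · rw [mem_RE_true]; omega

theorem piv_geo {b w N n : ℕ} (hw : 1 ≤ w) (hwb : w < b) (hbN : b + 2 * w < N) {c : ℤ × ℤ}
    (hc1 : 0 ≤ c.1) (hc1' : c.1 ≤ w) (hc2 : 12 * (N:ℤ) ≤ c.2) (hc2' : c.2 ≤ 12 * N + w)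
    (hn : 32 * N ≤ n) {β : Bool} {F : Finset Edg} (hF : F ⊆ (boxE n).erase (c.1, c.2, β))
    (hA : EA b w N c β F) (hB : EB b w N c β F) (hI : EI w N n c F) (hD : ED w N c F) :
    PivA n (c.1, c.2, β) F := by
  obtain ⟨F', hF'⟩ : ∃ F' : Finset Edg, F' = (trl (-c.1) (-c.2)).mp F := ⟨_, rfl⟩
  unfold EA at hA
  unfold EB at hB
  rw [← hF'] at hA hB
  obtain ⟨⟨hI1, hI2⟩, ⟨⟨hI3, hI4⟩, hI5, hI6⟩, hI7, hI8⟩ := hI
  obtain ⟨⟨⟨hD1, hD2⟩, hD3, hD4⟩, ⟨hD5, hD6⟩, hD7⟩ := hD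
  have heF : ((c.1, c.2, β) : Edg) ∉ F := fun h => (Finset.notMem_erase _ _) (hF h)
  have heF' : e0 β ∉ F' := by
    intro h
    rw [hF', LSym.mem_mp] at h
    unfold e0 at h
    rw [trl_φs] at h
    apply heF
    have e1 : (0:ℤ) - -c.1 = c.1 := by ring
    have e2 : (0:ℤ) - -c.2 = c.2 := by ring
    rwa [e1, e2] at h
  have heb : e0 β ∈ boxE b := e0_mem (by omega) β
  have hFb : F ⊆ boxE n := hF.trans (Finset.erase_subset _ _)
  have hen : ((c.1, c.2, β) : Edg) ∈ boxE n := by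
    unfold boxE
    cases β
    · rw [mem_RE_false]; omega
    · rw [mem_RE_true]; omega
  refine ⟨?_, ?_⟩
  · -- the open path
    have j3 : TBc (-(w:ℤ)) w (-c.2) (-(N:ℤ) + 2 * w) F' := by
      rw [hF']
      exact (TBc_shift (by ring) (by ring) (by ring) (by ring)).2 hI3
    have j4 : LRc (-(w:ℤ)) w (-(N:ℤ)) (-(N:ℤ) + 2 * w) F' := by
      rw [hF']
      exact (LRc_shift (by ring) (by ring) (by ring) (by ring)).2 hI4
    have j5 : LRc (-(w:ℤ)) w ((N:ℤ) - 2 * w) N F' := by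
      rw [hF']
      exact (LRc_shift (by ring) (by ring) (by ring) (by ring)).2 hI5
    have j6 : TBc (-(w:ℤ)) w ((N:ℤ) - 2 * w) (32 * N - c.2) F' := by
      rw [hF']
      exact (TBc_shift (by ring) (by ring) (by ring) (by ring)).2 hI6
    obtain ⟨x1, x2, hx1, hx2, hr⟩ := open_mid hw hwb hbN (A1 := -c.2) (A2 := 32 * N - c.2)
      (by omega) (by omega) heb hA j4 j5 j3 j6
    have hr2 := (trl c.1 c.2).reach hr
    have hset : (trl c.1 c.2).φ '' (insert (e0 β) (↑F' : Set Edg)) =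
        (↑(insert ((c.1, c.2, β) : Edg) F) : Set Edg) := by
      rw [Set.image_insert_eq, ← LSym.coe_mp, hF', Finset.coe_insert]
      congr 1
      · unfold e0
        rw [trl_φ]
        simp
      · have := trl_trl (-c.1) (-c.2) F
        rw [neg_neg, neg_neg] at this
        rw [this]
    rw [hset, trl_ψ, trl_ψ] at hr2
    have e1 : -c.2 + c.2 = 0 := by ring
    have e2 : 32 * (N:ℤ) - c.2 + c.2 = 32 * N := by ring
    rw [e1, e2] at hr2
    -- the circuits
    have hsub : F ⊆ insert ((c.1, c.2, β) : Edg) F := Finset.subset_insert _ _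
    have hO1 : H31K.OC 0 0 N (insert ((c.1, c.2, β) : Edg) F) := H31K.OC_mono hsub hI2
    have hO2 : H31K.OC 0 0 (4 * N) (insert ((c.1, c.2, β) : Edg) F) := H31K.OC_mono hsub hI7
    obtain ⟨z1, hz1⟩ := H31K.circ_pt (by omega) hO1
    obtain ⟨z2, hz2⟩ := H31K.circ_pt (by omega) hO2
    obtain ⟨v, hv, hrv⟩ := hI1
    have hrv' : Reach (↑(insert ((c.1, c.2, β) : Edg) F) : Set Edg) (0, 0) v :=
      hrv.mono (Set.inter_subset_left.trans (by exact_mod_cast hsub))
    have a1 := hz1 (0, 0) v (by unfold inR; simp only; omega)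
      (by unfold onB at hv; push_cast at hv; omega) hrv'
    have a2 := hz1 (x1 + c.1, 0) (x2 + c.1, 32 * N) (by unfold inR; simp only; omega)
      (by simp only; omega) hr2
    obtain ⟨u', v', hu', hv', hr'⟩ := hI8
    have hr3 : Reach (↑(insert ((c.1, c.2, β) : Edg) F) : Set Edg) u' v' :=
      hr'.mono (Set.inter_subset_left.trans (by exact_mod_cast hsub))
    have b1 := hz2 (x1 + c.1, 0) (x2 + c.1, 32 * N) (by unfold inR; push_cast; omega)
      (by push_cast; omega) hr2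
    have b2 := hz2 u' v' (by unfold onB inR at hu'; unfold inR; push_cast at hu' ⊢; omega)
      (by unfold onB at hv'; push_cast; omega) hr3
    have f1 := a1.mono Set.inter_subset_left
    have f2 := a2.mono Set.inter_subset_left
    have f3 := b1.mono Set.inter_subset_left
    have f4 := b2.mono Set.inter_subset_left
    have tot := f1.trans (f2.symm.trans (f3.trans (f4.symm.trans hr3)))
    refine ⟨v', hv', tot.mono ?_⟩
    intro g hg
    refine ⟨hg, ?_⟩
    rw [Finset.mem_coe, Finset.mem_insert] at hg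
    rcases hg with hg | hg
    · rw [hg]; exact_mod_cast hen
    · exact_mod_cast hFb hg
  · -- no open path
    rintro ⟨v, hv, hr⟩
    have hr' : Reach (↑F : Set Edg) (0, 0) v := hr.mono Set.inter_subset_left
    have k1 : ¬ LRc ((N:ℤ) - 2 * w) N (-(w:ℤ)) w F' := by
      rw [hF']
      exact fun h => hD1 ((LRc_shift (by ring) (by ring) (by ring) (by ring)).1 h)
    have k2 : ¬ LRc (-(N:ℤ)) (-(N:ℤ) + 2 * w) (-(w:ℤ)) w F' := by
      rw [hF']
      exact fun h => hD2 ((LRc_shift (by ring) (by ring) (by ring) (by ring)).1 h)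
    have k3 : ¬ TBc ((N:ℤ) - 2 * w) (c.2 + N - c.1) (-(w:ℤ)) w F' := by
      rw [hF']
      exact fun h => hD3 ((TBc_shift (by ring) (by ring) (by ring) (by ring)).1 h)
    have k4 : ¬ TBc (-(c.2 + N + c.1)) (-(N:ℤ) + 2 * w) (-(w:ℤ)) w F' := by
      rw [hF']
      exact fun h => hD4 ((TBc_shift (by ring) (by ring) (by ring) (by ring)).1 h)
    have k5 := top_block hw hwb hbN (A1 := c.2 + N + c.1) (A2 := c.2 + N - c.1) (by omega)
      (by omega) heF' heb hB k1 k2 k3 k4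
    have k6 : ¬ TBc (-(c.2 + N)) (c.2 + N) (c.2 - N) (c.2 + N) F := by
      intro h
      apply k5
      rw [hF']
      exact (TBc_shift (by ring) (by ring) (by ring) (by ring)).2 h
    have hblk : Blk (c.2 - N) (c.2 + N) F := by
      refine ⟨?_, ?_⟩
      · rintro (h | h)
        · exact hD5 h
        · exact hD6 h
      · rintro (h | h)
        · exact k6 h
        · exact hD7 h
    exact not_blk_of_arm (by omega) (by omega) hr' (by unfold onB at hv; omega) hblk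

end Pool.Agent.H953
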