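import Pool.Agent.H953.PivSets

/-!
Locality of the open and of the dual parts of the pivotal event.
-/

set_option maxHeartbeats 1000000

namespace Pool.Agent.H953

open H974 Finset H12S

variable {b w N n : ℕ} {c : ℤ × ℤ}

theorem mem_T1_false {x y : ℤ} : ((x, y, false) : Edg) ∈ T1 b w N n c ↔
    (-(n:ℤ) ≤ x ∧ x ≤ n ∧ -(n:ℤ) ≤ y ∧ y < n) ∧
    ¬ (c.1 - b ≤ x ∧ x ≤ c.1 + b ∧ c.2 - b ≤ y ∧ y < c.2 + b) ∧
    ¬ (-(c.2 + N) ≤ x ∧ x ≤ c.2 + N ∧ c.2 - w ≤ y ∧ y < c.2 + w) ∧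
    ¬ (c.2 - N ≤ x ∧ x ≤ c.2 + N ∧ -(c.2 + N) ≤ y ∧ y < c.2 + N) ∧
    ¬ (-(c.2 + N) ≤ x ∧ x ≤ -(c.2 - N) ∧ -(c.2 + N) ≤ y ∧ y < c.2 + N) ∧
    ¬ (-(c.2 + N) ≤ x ∧ x ≤ c.2 + N ∧ -(c.2 + N) ≤ y ∧ y < -(c.2 - N)) := by
  unfold T1
  rw [Finset.mem_sdiff, Finset.mem_union, mem_Sb_false, mem_Sr_false]
  unfold boxE
  rw [mem_RE_false, not_or, not_or, not_or, not_or]

theorem mem_T1_true {x y : ℤ} : ((x, y, true) : Edg) ∈ T1 b w N n c ↔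
    (-(n:ℤ) ≤ x ∧ x < n ∧ -(n:ℤ) ≤ y ∧ y ≤ n) ∧
    ¬ (c.1 - b ≤ x ∧ x < c.1 + b ∧ c.2 - b ≤ y ∧ y ≤ c.2 + b) ∧
    ¬ (-(c.2 + N) ≤ x ∧ x < c.2 + N ∧ c.2 - w ≤ y ∧ y ≤ c.2 + w) ∧
    ¬ (c.2 - N ≤ x ∧ x < c.2 + N ∧ -(c.2 + N) ≤ y ∧ y ≤ c.2 + N) ∧
    ¬ (-(c.2 + N) ≤ x ∧ x < -(c.2 - N) ∧ -(c.2 + N) ≤ y ∧ y ≤ c.2 + N) ∧
    ¬ (-(c.2 + N) ≤ x ∧ x < c.2 + N ∧ -(c.2 + N) ≤ y ∧ y ≤ -(c.2 - N)) := by
  unfold T1
  rw [Finset.mem_sdiff, Finset.mem_union, mem_Sb_true, mem_Sr_true]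
  unfold boxE
  rw [mem_RE_true, not_or, not_or, not_or, not_or]

theorem mem_T2_false {x y : ℤ} : ((x, y, false) : Edg) ∈ T2 b w N c ↔
    ((-(c.2 + N) ≤ x ∧ x ≤ c.2 + N ∧ c.2 - w ≤ y ∧ y < c.2 + w) ∨
    (c.2 - N ≤ x ∧ x ≤ c.2 + N ∧ -(c.2 + N) ≤ y ∧ y < c.2 + N) ∨
    (-(c.2 + N) ≤ x ∧ x ≤ -(c.2 - N) ∧ -(c.2 + N) ≤ y ∧ y < c.2 + N) ∨
    (-(c.2 + N) ≤ x ∧ x ≤ c.2 + N ∧ -(c.2 + N) ≤ y ∧ y < -(c.2 - N))) ∧
    ¬ (c.1 - b ≤ x ∧ x ≤ c.1 + b ∧ c.2 - b ≤ y ∧ y < c.2 + b) := by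
  unfold T2
  rw [Finset.mem_sdiff, mem_Sb_false, mem_Sr_false]

theorem mem_T2_true {x y : ℤ} : ((x, y, true) : Edg) ∈ T2 b w N c ↔
    ((-(c.2 + N) ≤ x ∧ x < c.2 + N ∧ c.2 - w ≤ y ∧ y ≤ c.2 + w) ∨
    (c.2 - N ≤ x ∧ x < c.2 + N ∧ -(c.2 + N) ≤ y ∧ y ≤ c.2 + N) ∨
    (-(c.2 + N) ≤ x ∧ x < -(c.2 - N) ∧ -(c.2 + N) ≤ y ∧ y ≤ c.2 + N) ∨
    (-(c.2 + N) ≤ x ∧ x < c.2 + N ∧ -(c.2 + N) ≤ y ∧ y ≤ -(c.2 - N))) ∧
    ¬ (c.1 - b ≤ x ∧ x < c.1 + b ∧ c.2 - b ≤ y ∧ y ≤ c.2 + b) := by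
  unfold T2
  rw [Finset.mem_sdiff, mem_Sb_true, mem_Sr_true]

theorem Geo.i1 (H : Geo b w N n c) : boxE (8 * N) ⊆ T1 b w N n c := by
  obtain ⟨h1, h2, h3, h4, h5, h6, h7, h8⟩ := H
  unfold boxE
  rintro ⟨x, y, _ | _⟩ h
  · rw [mem_RE_false] at h
    rw [mem_T1_false]
    push_cast at h
    omega
  · rw [mem_RE_true] at h
    rw [mem_T1_true]
    push_cast at h
    omega

theorem Geo.i2 (H : Geo b w N n c) : CSub ((4 * N : ℕ) : ℤ) ((8 * N : ℕ) : ℤ) (T1 b w N n c) := by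
  obtain ⟨h1, h2, h3, h4, h5, h6, h7, h8⟩ := H
  refine ⟨?_, ?_, ?_, ?_⟩
  · rintro ⟨x, y, _ | _⟩ h
    · rw [mem_LRE_false] at h
      rw [mem_T1_false]
      push_cast at h
      omega
    · rw [mem_LRE_true] at h
      rw [mem_T1_true]
      push_cast at h
      omega
  · rintro ⟨x, y, _ | _⟩ h
    · rw [mem_LRE_false] at h
      rw [mem_T1_false]
      push_cast at h
      omega
    · rw [mem_LRE_true] at h
      rw [mem_T1_true]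
      push_cast at h
      omega
  · rintro ⟨x, y, _ | _⟩ h
    · rw [mem_TBE_false] at h
      rw [mem_T1_false]
      push_cast at h
      omega
    · rw [mem_TBE_true] at h
      rw [mem_T1_true]
      push_cast at h
      omega
  · rintro ⟨x, y, _ | _⟩ h
    · rw [mem_TBE_false] at h
      rw [mem_T1_false]
      push_cast at h
      omega
    · rw [mem_TBE_true] at h
      rw [mem_T1_true]
      push_cast at h
      omega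

theorem Geo.i3 (H : Geo b w N n c) :
    TBE (c.1 - w) (c.1 + w) 0 (c.2 - N + 2 * w) ⊆ T1 b w N n c := by
  obtain ⟨h1, h2, h3, h4, h5, h6, h7, h8⟩ := H
  rintro ⟨x, y, _ | _⟩ h
  · rw [mem_TBE_false] at h
    rw [mem_T1_false]
    omega
  · rw [mem_TBE_true] at h
    rw [mem_T1_true]
    omega

theorem Geo.i4 (H : Geo b w N n c) :
    LRE (c.1 - w) (c.1 + w) (c.2 - N) (c.2 - N + 2 * w) ⊆ T1 b w N n c := by
  obtain ⟨h1, h2, h3, h4, h5, h6, h7, h8⟩ := H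
  rintro ⟨x, y, _ | _⟩ h
  · rw [mem_LRE_false] at h
    rw [mem_T1_false]
    omega
  · rw [mem_LRE_true] at h
    rw [mem_T1_true]
    omega

theorem Geo.i5 (H : Geo b w N n c) :
    LRE (c.1 - w) (c.1 + w) (c.2 + N - 2 * w) (c.2 + N) ⊆ T1 b w N n c := by
  obtain ⟨h1, h2, h3, h4, h5, h6, h7, h8⟩ := H
  rintro ⟨x, y, _ | _⟩ h
  · rw [mem_LRE_false] at h
    rw [mem_T1_false]
    omega
  · rw [mem_LRE_true] at h
    rw [mem_T1_true]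
    omega

theorem Geo.i6 (H : Geo b w N n c) :
    TBE (c.1 - w) (c.1 + w) (c.2 + N - 2 * w) (32 * N) ⊆ T1 b w N n c := by
  obtain ⟨h1, h2, h3, h4, h5, h6, h7, h8⟩ := H
  rintro ⟨x, y, _ | _⟩ h
  · rw [mem_TBE_false] at h
    rw [mem_T1_false]
    omega
  · rw [mem_TBE_true] at h
    rw [mem_T1_true]
    omega

theorem Geo.i7 (H : Geo b w N n c) :
    CSub ((4 * (4 * N) : ℕ) : ℤ) ((8 * (4 * N) : ℕ) : ℤ) (T1 b w N n c) := by
  obtain ⟨h1, h2, h3, h4, h5, h6, h7, h8⟩ := H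
  refine ⟨?_, ?_, ?_, ?_⟩
  · rintro ⟨x, y, _ | _⟩ h
    · rw [mem_LRE_false] at h
      rw [mem_T1_false]
      push_cast at h
      omega
    · rw [mem_LRE_true] at h
      rw [mem_T1_true]
      push_cast at h
      omega
  · rintro ⟨x, y, _ | _⟩ h
    · rw [mem_LRE_false] at h
      rw [mem_T1_false]
      push_cast at h
      omega
    · rw [mem_LRE_true] at h
      rw [mem_T1_true]
      push_cast at h
      omega
  · rintro ⟨x, y, _ | _⟩ h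
    · rw [mem_TBE_false] at h
      rw [mem_T1_false]
      push_cast at h
      omega
    · rw [mem_TBE_true] at h
      rw [mem_T1_true]
      push_cast at h
      omega
  · rintro ⟨x, y, _ | _⟩ h
    · rw [mem_TBE_false] at h
      rw [mem_T1_false]
      push_cast at h
      omega
    · rw [mem_TBE_true] at h
      rw [mem_T1_true]
      push_cast at h
      omega

theorem Geo.i8 (H : Geo b w N n c) : boxE n \ boxE (16 * N) ⊆ T1 b w N n c := by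
  obtain ⟨h1, h2, h3, h4, h5, h6, h7, h8⟩ := H
  unfold boxE
  rintro ⟨x, y, _ | _⟩ h
  · rw [Finset.mem_sdiff, mem_RE_false, mem_RE_false] at h
    rw [mem_T1_false]
    push_cast at h
    omega
  · rw [Finset.mem_sdiff, mem_RE_true, mem_RE_true] at h
    rw [mem_T1_true]
    push_cast at h
    omega

theorem Geo.j1 (H : Geo b w N n c) :
    LRE (c.1 + N - 2 * w) (c.1 + N) (c.2 - w) (c.2 + w) ⊆ T2 b w N c := by
  obtain ⟨h1, h2, h3, h4, h5, h6, h7, h8⟩ := H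
  rintro ⟨x, y, _ | _⟩ h
  · rw [mem_LRE_false] at h
    rw [mem_T2_false]
    omega
  · rw [mem_LRE_true] at h
    rw [mem_T2_true]
    omega

theorem Geo.j2 (H : Geo b w N n c) :
    LRE (c.1 - N) (c.1 - N + 2 * w) (c.2 - w) (c.2 + w) ⊆ T2 b w N c := by
  obtain ⟨h1, h2, h3, h4, h5, h6, h7, h8⟩ := H
  rintro ⟨x, y, _ | _⟩ h
  · rw [mem_LRE_false] at h
    rw [mem_T2_false]
    omega
  · rw [mem_LRE_true] at h
    rw [mem_T2_true]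
    omega

theorem Geo.j3 (H : Geo b w N n c) :
    TBE (c.1 + N - 2 * w) (c.2 + N) (c.2 - w) (c.2 + w) ⊆ T2 b w N c := by
  obtain ⟨h1, h2, h3, h4, h5, h6, h7, h8⟩ := H
  rintro ⟨x, y, _ | _⟩ h
  · rw [mem_TBE_false] at h
    rw [mem_T2_false]
    omega
  · rw [mem_TBE_true] at h
    rw [mem_T2_true]
    omega

theorem Geo.j4 (H : Geo b w N n c) :
    TBE (-(c.2 + N)) (c.1 - N + 2 * w) (c.2 - w) (c.2 + w) ⊆ T2 b w N c := by
  obtain ⟨h1, h2, h3, h4, h5, h6, h7, h8⟩ := H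
  rintro ⟨x, y, _ | _⟩ h
  · rw [mem_TBE_false] at h
    rw [mem_T2_false]
    omega
  · rw [mem_TBE_true] at h
    rw [mem_T2_true]
    omega

theorem Geo.j5 (H : Geo b w N n c) :
    LRE (c.2 - N) (c.2 + N) (-(c.2 + N)) (c.2 + N) ⊆ T2 b w N c := by
  obtain ⟨h1, h2, h3, h4, h5, h6, h7, h8⟩ := H
  rintro ⟨x, y, _ | _⟩ h
  · rw [mem_LRE_false] at h
    rw [mem_T2_false]
    omega
  · rw [mem_LRE_true] at h
    rw [mem_T2_true]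
    omega

theorem Geo.j6 (H : Geo b w N n c) :
    LRE (-(c.2 + N)) (-(c.2 - N)) (-(c.2 + N)) (c.2 + N) ⊆ T2 b w N c := by
  obtain ⟨h1, h2, h3, h4, h5, h6, h7, h8⟩ := H
  rintro ⟨x, y, _ | _⟩ h
  · rw [mem_LRE_false] at h
    rw [mem_T2_false]
    omega
  · rw [mem_LRE_true] at h
    rw [mem_T2_true]
    omega

theorem Geo.j7 (H : Geo b w N n c) :
    TBE (-(c.2 + N)) (c.2 + N) (-(c.2 + N)) (-(c.2 - N)) ⊆ T2 b w N c := by
  obtain ⟨h1, h2, h3, h4, h5, h6, h7, h8⟩ := H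
  rintro ⟨x, y, _ | _⟩ h
  · rw [mem_TBE_false] at h
    rw [mem_T2_false]
    omega
  · rw [mem_TBE_true] at h
    rw [mem_T2_true]
    omega

theorem EI_local (H : Geo b w N n c) (F : Finset Edg) :
    EI w N n c F ↔ EI w N n c (F ∩ T1 b w N n c) := by
  unfold EI
  rw [Arm_local (F := F) H.i1, OC_zero, OC_zero, OC_zero, OC_zero, Circ_local H.i2 F,
    TBc_local (F := F) H.i3, LRc_local (F := F) H.i4, LRc_local (F := F) H.i5,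
    TBc_local (F := F) H.i6, Circ_local H.i7 F, XArm_local (F := F) H.i8]

theorem ED_local (H : Geo b w N n c) (F : Finset Edg) :
    ED w N c F ↔ ED w N c (F ∩ T2 b w N c) := by
  unfold ED
  rw [LRc_local (F := F) H.j1, LRc_local (F := F) H.j2, TBc_local (F := F) H.j3,
    TBc_local (F := F) H.j4, LRc_local (F := F) H.j5, LRc_local (F := F) H.j6,
    TBc_local (F := F) H.j7]

end Pool.Agent.H953
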