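import Pool.Agent.H953.PivPr

/-!
Lower bound for the probability that an edge of a given far box is pivotal for the one-arm event.
-/

set_option maxHeartbeats 1000000

namespace Pool.Agent.H953

open H974 Finset H12S

variable {b w N n : ℕ} {c : ℤ × ℤ}

theorem XV_sub (hbN : b + 2 * w < N) : XV b w N ⊆ boxE N := by
  unfold XV boxE
  rintro ⟨x, y, _ | _⟩ h
  · rw [Finset.mem_union, mem_RE_false, mem_RE_false] at h
    rw [mem_RE_false]
    omega
  · rw [Finset.mem_union, mem_RE_true, mem_RE_true] at h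
    rw [mem_RE_true]
    omega

theorem XH_sub (hbN : b + 2 * w < N) : XH b w N ⊆ boxE N := by
  unfold XH boxE
  rintro ⟨x, y, _ | _⟩ h
  · rw [Finset.mem_union, mem_RE_false, mem_RE_false] at h
    rw [mem_RE_false]
    omega
  · rw [Finset.mem_union, mem_RE_true, mem_RE_true] at h
    rw [mem_RE_true]
    omega

theorem trl_back (s t : ℤ) (F : Finset Edg) : (trl (-s) (-t)).mp ((trl s t).mp F) = F :=
  trl_trl s t F

theorem AB_box (hbN : b + 2 * w < N) {β : Bool} (F : Finset Edg) :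
    (EA b w N c β F ∧ EB b w N c β F) ↔
      (EA b w N c β (F ∩ (trl c.1 c.2).mp (boxE N)) ∧
        EB b w N c β (F ∩ (trl c.1 c.2).mp (boxE N))) := by
  have e1 : (↑((trl (-c.1) (-c.2)).mp (F ∩ (trl c.1 c.2).mp (boxE N))) : Set Edg) =
      (↑((trl (-c.1) (-c.2)).mp F) : Set Edg) ∩ ↑(boxE N) := by
    rw [LSym.mp_inter, trl_back, Finset.coe_inter]
  have e2 : (↑((trl (-c.1) (-c.2)).mp F) : Set Edg) ∩ ↑(boxE N) ∩ ↑(XV b w N) =
      (↑((trl (-c.1) (-c.2)).mp F) : Set Edg) ∩ ↑(XV b w N) := by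
    rw [Set.inter_assoc, Set.inter_eq_self_of_subset_right
      (by exact_mod_cast XV_sub hbN : (↑(XV b w N) : Set Edg) ⊆ ↑(boxE N))]
  have e3 : (↑((trl (-c.1) (-c.2)).mp F) : Set Edg) ∩ ↑(boxE N) ∩ ↑(XH b w N) =
      (↑((trl (-c.1) (-c.2)).mp F) : Set Edg) ∩ ↑(XH b w N) := by
    rw [Set.inter_assoc, Set.inter_eq_self_of_subset_right
      (by exact_mod_cast XH_sub hbN : (↑(XH b w N) : Set Edg) ⊆ ↑(boxE N))]
  unfold EA EB
  rw [e1, e2, e3]

theorem Geo.box_sub (H : Geo b w N n c) : (trl c.1 c.2).mp (boxE N) ⊆ boxE n := by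
  obtain ⟨h1, h2, h3, h4, h5, h6, h7, h8⟩ := H
  unfold boxE
  rintro ⟨x, y, _ | _⟩ h
  · rw [LSym.mem_mp, trl_φs, mem_RE_false] at h
    rw [mem_RE_false]
    omega
  · rw [LSym.mem_mp, trl_φs, mem_RE_true] at h
    rw [mem_RE_true]
    omega

theorem Geo.pr_AB (H : Geo b w N n c) (q : ℝ) (β : Bool) :
    Pr (fun _ => q) ((boxE n).erase (c.1, c.2, β))
      (fun F => EA b w N c β F ∧ EB b w N c β F) =
    PQ q (boxE N) (fun F => Plus b w N (e0 β) ↑F) := by
  have s1 : Pr (fun _ : Edg => q) (boxE n) (fun F => EA b w N c β F ∧ EB b w N c β F) =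
      Pr (fun _ => q) ((boxE n).erase (c.1, c.2, β))
      (fun F => EA b w N c β F ∧ EB b w N c β F) := by
    apply Pr_local (Finset.erase_subset _ _)
    intro F _
    rw [← H.union β]
    have i1 : F ∩ (T0 b c β ∪ (T1 b w N n c ∪ T2 b w N c)) ∩ (T0 b c β ∪ T1 b w N n c) =
        F ∩ (T0 b c β ∪ T1 b w N n c) := by
      ext x; simp only [Finset.mem_inter, Finset.mem_union]; tauto
    have i2 : F ∩ (T0 b c β ∪ (T1 b w N n c ∪ T2 b w N c)) ∩ (T0 b c β ∪ T2 b w N c) =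
        F ∩ (T0 b c β ∪ T2 b w N c) := by
      ext x; simp only [Finset.mem_inter, Finset.mem_union]; tauto
    rw [EA_local H F, EA_local H (F ∩ (T0 b c β ∪ (T1 b w N n c ∪ T2 b w N c))), i1,
      EB_local H F, EB_local H (F ∩ (T0 b c β ∪ (T1 b w N n c ∪ T2 b w N c))), i2]
  have s2 : Pr (fun _ : Edg => q) (boxE n) (fun F => EA b w N c β F ∧ EB b w N c β F) =
      Pr (fun _ => q) ((trl c.1 c.2).mp (boxE N))
      (fun F => EA b w N c β F ∧ EB b w N c β F) :=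
    Pr_local H.box_sub (fun F _ => AB_box H.hbN F)
  rw [← s1, s2, LSym.pr]
  apply Pr_congr
  intro F _
  unfold EA EB Plus
  rw [trl_back]

/-- Lower bound for the pivotal probability. -/
theorem piv_low {q κ : ℝ} (hW : Win q κ (16 * N)) (H : Geo b w N n c) {L : ℕ}
    (hN : N = 16 * L * w) (β : Bool) :
    PQ q (boxE N) (fun F => Plus b w N (e0 β) ↑F) *
      (((arm q (8 * N) * κ ^ 4) * (((κ ^ (2 * (16 * L) + 1) * κ) * (κ * κ ^ (2 * (16 * L) + 1))) *
      (κ ^ 4 * Pr (fun _ => q) (boxE n) (XArm (16 * N) n)))) *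
      (((κ * κ) * (κ ^ (2 * (16 * L) + 1) * κ ^ (2 * (16 * L) + 1))) * ((κ * κ) * κ))) ≤
    Pr (fun _ => q) ((boxE n).erase (c.1, c.2, β)) (PivA n (c.1, c.2, β)) := by
  have h0 : 0 ≤ q := by linarith [hW.lo]
  have h1 : q ≤ 1 := by linarith [hW.hi]
  have ok := okq h0 h1
  have hk := hW.kpos
  have m1 := mixed ok (d01 (b := b) (w := w) (N := N) (n := n) (c := c) β)
    (d02 (b := b) (w := w) (N := N) (c := c) β) d12 (A := EA b w N c β) (B := EB b w N c β)
    (I := EI w N n c) (D := ED w N c) (EA_local H) (EB_local H) (EI_local H) (ED_local H)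
    EA_mono EB_anti EI_mono ED_anti
  rw [H.union β, H.pr_AB q β] at m1
  have m2 : Pr (fun _ => q) ((boxE n).erase (c.1, c.2, β))
      (fun F => (EA b w N c β F ∧ EB b w N c β F) ∧ EI w N n c F ∧ ED w N c F) ≤
      Pr (fun _ => q) ((boxE n).erase (c.1, c.2, β)) (PivA n (c.1, c.2, β)) := by
    apply Pr_mono ok
    rintro F hF ⟨⟨hA, hB⟩, hI, hD⟩
    exact piv_geo H.hw H.hwb H.hbN H.hc1 H.hc1' H.hc2 H.hc2' H.hn hF hA hB hI hD
  refine le_trans ?_ (m1.trans m2)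
  apply mul_le_mul_of_nonneg_left _ (Pr_nonneg ok _ _)
  have e1 := EI_ge hW H hN
  have e2 := ED_ge hW H hN
  have x0 : 0 ≤ Pr (fun _ => q) (boxE n) (XArm (16 * N) n) := Pr_nonneg ok _ _
  have a0 : 0 ≤ arm q (8 * N) := arm_nonneg h0 h1 _
  exact mul_le_mul e1 e2 (by positivity) (Pr_nonneg ok _ _)

end Pool.Agent.H953
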