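import Pool.Agent.H953.PivLoc
import Pool.Graph.R_seed8.W424.NC.ArmLow

/-!
Probabilities of the open and of the dual parts of the pivotal event.
-/

set_option maxHeartbeats 1000000

namespace Pool.Agent.H953

open H974 Finset H12S

variable {b w N n : ℕ} {c : ℤ × ℤ}

/-- Harris' inequality with lower bounds, increasing events. -/
theorem har {q : ℝ} (hq : Ok (fun _ : Edg => q)) {S : Finset Edg} {A B : Finset Edg → Prop}
    (hA : ∀ F G, F ⊆ G → A F → A G) (hB : ∀ F G, F ⊆ G → B F → B G) {x y : ℝ}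
    (hx : x ≤ Pr (fun _ => q) S A) (hy : y ≤ Pr (fun _ => q) S B) (hx0 : 0 ≤ x) (hy0 : 0 ≤ y) :
    x * y ≤ Pr (fun _ => q) S (fun F => A F ∧ B F) :=
  (mul_le_mul hx hy hy0 (hx0.trans hx)).trans (Pr_harris hq (fun F G h _ => hA F G h)
    (fun F G h _ => hB F G h))

/-- Harris' inequality with lower bounds, decreasing events. -/
theorem had {q : ℝ} (hq : Ok (fun _ : Edg => q)) {S : Finset Edg} {A B : Finset Edg → Prop}
    (hA : ∀ F G, F ⊆ G → A G → A F) (hB : ∀ F G, F ⊆ G → B G → B F) {x y : ℝ}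
    (hx : x ≤ Pr (fun _ => q) S A) (hy : y ≤ Pr (fun _ => q) S B) (hx0 : 0 ≤ x) (hy0 : 0 ≤ y) :
    x * y ≤ Pr (fun _ => q) S (fun F => A F ∧ B F) :=
  (mul_le_mul hx hy hy0 (hx0.trans hx)).trans (harris_dec hq hA hB)

theorem Circ_ge {q : ℝ} (h0 : 0 ≤ q) (h1 : q ≤ 1) {R1 R2 : ℤ} {S : Finset Edg}
    (hS : CSub R1 R2 S) {a : ℝ} (ha : 0 ≤ a) (h : a ≤ hh q (2 * R2) (R2 - R1)) :
    a ^ 4 ≤ Pr (fun _ => q) S (Circ R1 R2) := by
  obtain ⟨s1, s2, s3, s4⟩ := hS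
  have e1 := pr_LRc q s1
  have e2 := pr_LRc q s2
  have e3 := pr_TBc q s3
  have e4 := pr_TBc q s4
  have d1 : R2 - -R2 = 2 * R2 := by ring
  have d2 : -R1 - -R2 = R2 - R1 := by ring
  rw [d1] at e1
  rw [d1, d2] at e2
  rw [d1] at e3
  rw [d1, d2] at e4
  have i1 := har (okq h0 h1) (S := S) (A := LRc (-R2) R2 R1 R2) (B := LRc (-R2) R2 (-R2) (-R1))
    (fun F G h hF => hF.mono h) (fun F G h hF => hF.mono h) (e1 ▸ h) (e2 ▸ h) ha ha
  have i2 := har (okq h0 h1) (S := S) (A := TBc R1 R2 (-R2) R2) (B := TBc (-R2) (-R1) (-R2) R2)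
    (fun F G h hF => hF.mono h) (fun F G h hF => hF.mono h) (e3 ▸ h) (e4 ▸ h) ha ha
  have i3 := har (okq h0 h1) (S := S)
    (A := fun F => LRc (-R2) R2 R1 R2 F ∧ LRc (-R2) R2 (-R2) (-R1) F)
    (B := fun F => TBc R1 R2 (-R2) R2 F ∧ TBc (-R2) (-R1) (-R2) R2 F)
    (fun F G h hF => ⟨hF.1.mono h, hF.2.mono h⟩) (fun F G h hF => ⟨hF.1.mono h, hF.2.mono h⟩)
    i1 i2 (mul_nonneg ha ha) (mul_nonneg ha ha)
  calc a ^ 4 = (a * a) * (a * a) := by ring
    _ ≤ _ := i3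

/-- Open crossings of long rectangles. -/
theorem long_open {q κ : ℝ} {M : ℕ} (hW : Win q κ M) {w : ℕ} (hw : 1 ≤ w) (hwM : 2 * w ≤ M) (j : ℕ)
    {a d : ℤ} (ha : 0 < a) (ha' : a ≤ 32 * w + 30 * w * j) (hd : 2 * (w:ℤ) ≤ d) :
    κ ^ (2 * j + 1) ≤ hh q a d := by
  have h0 : 0 ≤ q := by linarith [hW.lo]
  have h1 : q ≤ 1 := by linarith [hW.hi]
  refine (Pool.Agent.W424.NC.hh_long (hW.anti hwM) (by omega) j).trans ?_
  apply hh_mono h0 h1 ha
  · refine ha'.trans (le_of_eq ?_)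
    push_cast
    ring
  · push_cast; omega

/-- Dual crossings of long rectangles. -/
theorem long_dual {q κ : ℝ} {M : ℕ} (hW : Win q κ M) {w : ℕ} (hw : 1 ≤ w) (hwM : 2 * w ≤ M) (j : ℕ)
    {a d : ℤ} (ha : 0 ≤ a) (ha' : a + 1 ≤ 16 * w + 15 * w * j) (hd : 2 * (w:ℤ) ≤ d) :
    κ ^ (2 * j + 1) ≤ 1 - hh q d a := by
  have h0 : 0 ≤ 1 - q := by linarith [hW.hi]
  have h1 : 1 - q ≤ 1 := by linarith [hW.lo]
  have hd1 := hh_dual (q := q) (w := d) (h := a) (by omega) ha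
  have h2 := Pool.Agent.W424.NC.hh_long (hW.symm.anti (show 2 * w - 1 ≤ M by omega))
    (by omega) j
  have h3 : hh (1 - q) (16 * ((2 * w - 1 : ℕ) : ℤ) + 15 * ((2 * w - 1 : ℕ) : ℤ) * j)
      ((2 * w - 1 : ℕ) : ℤ) ≤ hh (1 - q) (a + 1) (d - 1) := by
    apply hh_mono h0 h1 (by omega)
    · have e : ((2 * w - 1 : ℕ) : ℤ) = 2 * w - 1 := by omega
      rw [e]
      have hj : (0:ℤ) ≤ j := by positivity
      have hw' : (1:ℤ) ≤ w := by exact_mod_cast hw
      nlinarith [mul_nonneg (sub_nonneg.2 hw') hj]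
    · omega
  linarith

theorem EI_ge {q κ : ℝ} (hW : Win q κ (16 * N)) (H : Geo b w N n c) {L : ℕ} (hN : N = 16 * L * w) :
    (arm q (8 * N) * κ ^ 4) * (((κ ^ (2 * (16 * L) + 1) * κ) * (κ * κ ^ (2 * (16 * L) + 1))) *
      (κ ^ 4 * Pr (fun _ => q) (boxE n) (XArm (16 * N) n))) ≤
      Pr (fun _ => q) (T1 b w N n c) (EI w N n c) := by
  have h0 : 0 ≤ q := by linarith [hW.lo]
  have h1 : q ≤ 1 := by linarith [hW.hi]
  have ok := okq h0 h1
  have hk := hW.kpos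
  obtain ⟨h1', h2', h3', h4', h5', h6', h7', h8'⟩ := id H
  have hNL : (N:ℤ) = 16 * L * w := by rw [hN]; push_cast; ring
  have hw0 : (1:ℤ) ≤ w := by exact_mod_cast h1'
  have p1 : Pr (fun _ => q) (T1 b w N n c) (Arm (8 * N)) = arm q (8 * N) := pr_Arm q H.i1
  have p2 : κ ^ 4 ≤ Pr (fun _ => q) (T1 b w N n c) (H31K.OC 0 0 N) := by
    have := Circ_ge h0 h1 H.i2 hk.le (by
      refine (hW.pri (4 * N) (by omega) (by omega)).trans ?_
      apply hh_mono h0 h1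
      · push_cast; omega
      · push_cast; omega
      · push_cast; omega)
    refine this.trans (le_of_eq ?_)
    exact Pr_congr (fun F _ => OC_zero.symm)
  have p7 : κ ^ 4 ≤ Pr (fun _ => q) (T1 b w N n c) (H31K.OC 0 0 (4 * N)) := by
    have := Circ_ge h0 h1 H.i7 hk.le (by
      refine (hW.pri (16 * N) (by omega) (by omega)).trans ?_
      apply hh_mono h0 h1
      · push_cast; omega
      · push_cast; omega
      · push_cast; omega)
    refine this.trans (le_of_eq ?_)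
    exact Pr_congr (fun F _ => OC_zero.symm)
  have p3 : κ ^ (2 * (16 * L) + 1) ≤ Pr (fun _ => q) (T1 b w N n c)
      (TBc (c.1 - w) (c.1 + w) 0 (c.2 - N + 2 * w)) := by
    rw [pr_TBc q H.i3]
    refine long_open hW h1' (by omega) (16 * L) (by omega) ?_ (by omega)
    have e : 30 * (w:ℤ) * ((16 * L : ℕ) : ℤ) = 30 * N := by rw [hNL]; push_cast; ring
    rw [e]
    omega
  have p4 : κ ≤ Pr (fun _ => q) (T1 b w N n c)
      (LRc (c.1 - w) (c.1 + w) (c.2 - N) (c.2 - N + 2 * w)) := by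
    rw [pr_LRc q H.i4]
    have := long_open hW h1' (by omega) 0 (a := c.1 + w - (c.1 - w))
      (d := c.2 - N + 2 * w - (c.2 - N)) (by omega) (by push_cast; omega) (by omega)
    simpa using this
  have p5 : κ ≤ Pr (fun _ => q) (T1 b w N n c)
      (LRc (c.1 - w) (c.1 + w) (c.2 + N - 2 * w) (c.2 + N)) := by
    rw [pr_LRc q H.i5]
    have := long_open hW h1' (by omega) 0 (a := c.1 + w - (c.1 - w))
      (d := c.2 + N - (c.2 + N - 2 * w)) (by omega) (by push_cast; omega) (by omega)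
    simpa using this
  have p6 : κ ^ (2 * (16 * L) + 1) ≤ Pr (fun _ => q) (T1 b w N n c)
      (TBc (c.1 - w) (c.1 + w) (c.2 + N - 2 * w) (32 * N)) := by
    rw [pr_TBc q H.i6]
    refine long_open hW h1' (by omega) (16 * L) (by omega) ?_ (by omega)
    have e : 30 * (w:ℤ) * ((16 * L : ℕ) : ℤ) = 30 * N := by rw [hNL]; push_cast; ring
    rw [e]
    omega
  have p8 : Pr (fun _ => q) (T1 b w N n c) (XArm (16 * N) n) =
      Pr (fun _ => q) (boxE n) (XArm (16 * N) n) := by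
    have t1 := Pr_local (p := fun _ : Edg => q) H.i8 (A := XArm (16 * N) n)
      (fun F _ => XArm_local (Finset.Subset.refl _))
    have t2 := Pr_local (p := fun _ : Edg => q)
      (Finset.sdiff_subset : boxE n \ boxE (16 * N) ⊆ boxE n) (A := XArm (16 * N) n)
      (fun F _ => XArm_local (Finset.Subset.refl _))
    rw [t1, t2]
  have a0 : 0 ≤ arm q (8 * N) := arm_nonneg h0 h1 _
  have x0 : 0 ≤ Pr (fun _ => q) (boxE n) (XArm (16 * N) n) := Pr_nonneg ok _ _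
  have k1 : 0 ≤ κ ^ 4 := by positivity
  have k2 : 0 ≤ κ ^ (2 * (16 * L) + 1) := by positivity
  unfold EI
  apply har ok (A := fun F => Arm (8 * N) F ∧ H31K.OC 0 0 N F)
    (fun F G h hF => ⟨hF.1.mono h, H31K.OC_mono h hF.2⟩)
    (fun F G h hF => ⟨⟨⟨hF.1.1.1.mono h, hF.1.1.2.mono h⟩, hF.1.2.1.mono h, hF.1.2.2.mono h⟩,
      H31K.OC_mono h hF.2.1, hF.2.2.mono h⟩)
  · exact har ok (fun F G h hF => hF.mono h) (fun F G h hF => H31K.OC_mono h hF) p1.ge p2 a0 k1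
  · apply har ok (A := fun F => (TBc (c.1 - w) (c.1 + w) 0 (c.2 - N + 2 * w) F ∧
        LRc (c.1 - w) (c.1 + w) (c.2 - N) (c.2 - N + 2 * w) F) ∧
        (LRc (c.1 - w) (c.1 + w) (c.2 + N - 2 * w) (c.2 + N) F ∧
        TBc (c.1 - w) (c.1 + w) (c.2 + N - 2 * w) (32 * N) F))
      (B := fun F => H31K.OC 0 0 (4 * N) F ∧ XArm (16 * N) n F)
      (fun F G h hF => ⟨⟨hF.1.1.mono h, hF.1.2.mono h⟩, hF.2.1.mono h, hF.2.2.mono h⟩)
      (fun F G h hF => ⟨H31K.OC_mono h hF.1, hF.2.mono h⟩)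
    · apply har ok (A := fun F => TBc (c.1 - w) (c.1 + w) 0 (c.2 - N + 2 * w) F ∧
        LRc (c.1 - w) (c.1 + w) (c.2 - N) (c.2 - N + 2 * w) F)
        (fun F G h hF => ⟨hF.1.mono h, hF.2.mono h⟩) (fun F G h hF => ⟨hF.1.mono h, hF.2.mono h⟩)
      · exact har ok (fun F G h hF => hF.mono h) (fun F G h hF => hF.mono h) p3 p4 k2 hk.le
      · exact har ok (fun F G h hF => hF.mono h) (fun F G h hF => hF.mono h) p5 p6 hk.le k2
      · positivity
      · positivity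
    · exact har ok (fun F G h hF => H31K.OC_mono h hF) (fun F G h hF => hF.mono h) p7 p8.ge k1 x0
    · positivity
    · positivity
  · positivity
  · positivity

theorem ED_ge {q κ : ℝ} (hW : Win q κ (16 * N)) (H : Geo b w N n c) {L : ℕ} (hN : N = 16 * L * w) :
    ((κ * κ) * (κ ^ (2 * (16 * L) + 1) * κ ^ (2 * (16 * L) + 1))) * ((κ * κ) * κ) ≤
      Pr (fun _ => q) (T2 b w N c) (ED w N c) := by
  have h0 : 0 ≤ q := by linarith [hW.lo]
  have h1 : q ≤ 1 := by linarith [hW.hi]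
  have ok := okq h0 h1
  have hk := hW.kpos
  obtain ⟨h1', h2', h3', h4', h5', h6', h7', h8'⟩ := id H
  have hNL : (N:ℤ) = 16 * L * w := by rw [hN]; push_cast; ring
  have hw0 : (1:ℤ) ≤ w := by exact_mod_cast h1'
  have p1 : κ ≤ Pr (fun _ => q) (T2 b w N c)
      (fun F => ¬ LRc (c.1 + N - 2 * w) (c.1 + N) (c.2 - w) (c.2 + w) F) := by
    rw [Pr_not, pr_LRc q H.j1]
    have := long_dual hW h1' (by omega) 0 (a := c.2 + w - (c.2 - w))
      (d := c.1 + N - (c.1 + N - 2 * w)) (by omega) (by push_cast; omega) (by omega)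
    simpa using this
  have p2 : κ ≤ Pr (fun _ => q) (T2 b w N c)
      (fun F => ¬ LRc (c.1 - N) (c.1 - N + 2 * w) (c.2 - w) (c.2 + w) F) := by
    rw [Pr_not, pr_LRc q H.j2]
    have := long_dual hW h1' (by omega) 0 (a := c.2 + w - (c.2 - w))
      (d := c.1 - N + 2 * w - (c.1 - N)) (by omega) (by push_cast; omega) (by omega)
    simpa using this
  have e : 15 * (w:ℤ) * ((16 * L : ℕ) : ℤ) = 15 * N := by rw [hNL]; push_cast; ring
  have p3 : κ ^ (2 * (16 * L) + 1) ≤ Pr (fun _ => q) (T2 b w N c)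
      (fun F => ¬ TBc (c.1 + N - 2 * w) (c.2 + N) (c.2 - w) (c.2 + w) F) := by
    rw [Pr_not, pr_TBc q H.j3]
    refine long_dual hW h1' (by omega) (16 * L) (by omega) ?_ (by omega)
    rw [e]
    omega
  have p4 : κ ^ (2 * (16 * L) + 1) ≤ Pr (fun _ => q) (T2 b w N c)
      (fun F => ¬ TBc (-(c.2 + N)) (c.1 - N + 2 * w) (c.2 - w) (c.2 + w) F) := by
    rw [Pr_not, pr_TBc q H.j4]
    refine long_dual hW h1' (by omega) (16 * L) (by omega) ?_ (by omega)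
    rw [e]
    omega
  have hN5 : (5:ℤ) ≤ N := by omega
  have ring5 : ∀ a d : ℤ, 0 ≤ a → a + 1 ≤ 32 * N - 16 → 2 * (N:ℤ) ≤ d → κ ≤ 1 - hh q d a := by
    intro a d ha ha' hd
    have hd1 := hh_dual (q := q) (w := d) (h := a) (by omega) ha
    have h2 := hW.dua (2 * N - 1) (by omega) (by omega)
    have h3 : hh (1 - q) (16 * ((2 * N - 1 : ℕ) : ℤ)) ((2 * N - 1 : ℕ) : ℤ) ≤
        hh (1 - q) (a + 1) (d - 1) := by
      apply hh_mono (by linarith) (by linarith) (by omega)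
      · omega
      · omega
    linarith
  have p5 : κ ≤ Pr (fun _ => q) (T2 b w N c)
      (fun F => ¬ LRc (c.2 - N) (c.2 + N) (-(c.2 + N)) (c.2 + N) F) := by
    rw [Pr_not, pr_LRc q H.j5]
    exact ring5 _ _ (by omega) (by omega) (by omega)
  have p6 : κ ≤ Pr (fun _ => q) (T2 b w N c)
      (fun F => ¬ LRc (-(c.2 + N)) (-(c.2 - N)) (-(c.2 + N)) (c.2 + N) F) := by
    rw [Pr_not, pr_LRc q H.j6]
    exact ring5 _ _ (by omega) (by omega) (by omega)
  have p7 : κ ≤ Pr (fun _ => q) (T2 b w N c)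
      (fun F => ¬ TBc (-(c.2 + N)) (c.2 + N) (-(c.2 + N)) (-(c.2 - N)) F) := by
    rw [Pr_not, pr_TBc q H.j7]
    exact ring5 _ _ (by omega) (by omega) (by omega)
  have k2 : 0 ≤ κ ^ (2 * (16 * L) + 1) := by positivity
  unfold ED
  apply had ok (A := fun F => (¬ LRc (c.1 + N - 2 * w) (c.1 + N) (c.2 - w) (c.2 + w) F ∧
      ¬ LRc (c.1 - N) (c.1 - N + 2 * w) (c.2 - w) (c.2 + w) F) ∧
      (¬ TBc (c.1 + N - 2 * w) (c.2 + N) (c.2 - w) (c.2 + w) F ∧
      ¬ TBc (-(c.2 + N)) (c.1 - N + 2 * w) (c.2 - w) (c.2 + w) F))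
    (B := fun F => (¬ LRc (c.2 - N) (c.2 + N) (-(c.2 + N)) (c.2 + N) F ∧
      ¬ LRc (-(c.2 + N)) (-(c.2 - N)) (-(c.2 + N)) (c.2 + N) F) ∧
      ¬ TBc (-(c.2 + N)) (c.2 + N) (-(c.2 + N)) (-(c.2 - N)) F)
    (fun F G h hG => ⟨⟨fun k => hG.1.1 (k.mono h), fun k => hG.1.2 (k.mono h)⟩,
      fun k => hG.2.1 (k.mono h), fun k => hG.2.2 (k.mono h)⟩)
    (fun F G h hG => ⟨⟨fun k => hG.1.1 (k.mono h), fun k => hG.1.2 (k.mono h)⟩,
      fun k => hG.2 (k.mono h)⟩)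
  · apply had ok (A := fun F => ¬ LRc (c.1 + N - 2 * w) (c.1 + N) (c.2 - w) (c.2 + w) F ∧
      ¬ LRc (c.1 - N) (c.1 - N + 2 * w) (c.2 - w) (c.2 + w) F)
      (fun F G h hG => ⟨fun k => hG.1 (k.mono h), fun k => hG.2 (k.mono h)⟩)
      (fun F G h hG => ⟨fun k => hG.1 (k.mono h), fun k => hG.2 (k.mono h)⟩)
    · exact had ok (fun F G h hG => fun k => hG (k.mono h)) (fun F G h hG => fun k => hG (k.mono h))
        p1 p2 hk.le hk.le
    · exact had ok (fun F G h hG => fun k => hG (k.mono h)) (fun F G h hG => fun k => hG (k.mono h))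
        p3 p4 k2 k2
    · positivity
    · positivity
  · apply had ok (A := fun F => ¬ LRc (c.2 - N) (c.2 + N) (-(c.2 + N)) (c.2 + N) F ∧
      ¬ LRc (-(c.2 + N)) (-(c.2 - N)) (-(c.2 + N)) (c.2 + N) F)
      (fun F G h hG => ⟨fun k => hG.1 (k.mono h), fun k => hG.2 (k.mono h)⟩)
      (fun F G h hG => fun k => hG (k.mono h))
    · exact had ok (fun F G h hG => fun k => hG (k.mono h)) (fun F G h hG => fun k => hG (k.mono h))
        p5 p6 hk.le hk.le
    · exact p7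
    · positivity
    · positivity
  · positivity
  · positivity

end Pool.Agent.H953
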