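import Pool.Agent.H953.PivGeo
import Pool.Agent.H953.Mix

/-!
Locality and monotonicity of the parts of the pivotal event.
-/

set_option maxHeartbeats 400000

namespace Pool.Agent.H953

open H974 Finset H12S

/-- The box of radius `b` around `c`. -/
noncomputable def Sb (b : ℕ) (c : ℤ × ℤ) : Finset Edg := RE (c.1 - b) (c.1 + b) (c.2 - b) (c.2 + b)

/-- The ring of the dual parts. -/
noncomputable def Sr (w N : ℕ) (c : ℤ × ℤ) : Finset Edg :=
  RE (-(c.2 + N)) (c.2 + N) (c.2 - w) (c.2 + w) ∪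
    (RE (c.2 - N) (c.2 + N) (-(c.2 + N)) (c.2 + N) ∪
      (RE (-(c.2 + N)) (-(c.2 - N)) (-(c.2 + N)) (c.2 + N) ∪
        RE (-(c.2 + N)) (c.2 + N) (-(c.2 + N)) (-(c.2 - N))))

noncomputable def T0 (b : ℕ) (c : ℤ × ℤ) (β : Bool) : Finset Edg := (Sb b c).erase (c.1, c.2, β)

noncomputable def T1 (b w N n : ℕ) (c : ℤ × ℤ) : Finset Edg := boxE n \ (Sb b c ∪ Sr w N c)

noncomputable def T2 (b w N : ℕ) (c : ℤ × ℤ) : Finset Edg := Sr w N c \ Sb b c

theorem mem_Sb_true {b : ℕ} {c : ℤ × ℤ} {x y : ℤ} : ((x, y, true) : Edg) ∈ Sb b c ↔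
    c.1 - b ≤ x ∧ x < c.1 + b ∧ c.2 - b ≤ y ∧ y ≤ c.2 + b := by
  unfold Sb; rw [mem_RE_true]

theorem mem_Sb_false {b : ℕ} {c : ℤ × ℤ} {x y : ℤ} : ((x, y, false) : Edg) ∈ Sb b c ↔
    c.1 - b ≤ x ∧ x ≤ c.1 + b ∧ c.2 - b ≤ y ∧ y < c.2 + b := by
  unfold Sb; rw [mem_RE_false]

theorem mem_Sr_true {w N : ℕ} {c : ℤ × ℤ} {x y : ℤ} : ((x, y, true) : Edg) ∈ Sr w N c ↔
    (-(c.2 + N) ≤ x ∧ x < c.2 + N ∧ c.2 - w ≤ y ∧ y ≤ c.2 + w) ∨
    (c.2 - N ≤ x ∧ x < c.2 + N ∧ -(c.2 + N) ≤ y ∧ y ≤ c.2 + N) ∨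
    (-(c.2 + N) ≤ x ∧ x < -(c.2 - N) ∧ -(c.2 + N) ≤ y ∧ y ≤ c.2 + N) ∨
    (-(c.2 + N) ≤ x ∧ x < c.2 + N ∧ -(c.2 + N) ≤ y ∧ y ≤ -(c.2 - N)) := by
  unfold Sr; rw [Finset.mem_union, Finset.mem_union, Finset.mem_union, mem_RE_true, mem_RE_true,
    mem_RE_true, mem_RE_true]

theorem mem_Sr_false {w N : ℕ} {c : ℤ × ℤ} {x y : ℤ} : ((x, y, false) : Edg) ∈ Sr w N c ↔
    (-(c.2 + N) ≤ x ∧ x ≤ c.2 + N ∧ c.2 - w ≤ y ∧ y < c.2 + w) ∨
    (c.2 - N ≤ x ∧ x ≤ c.2 + N ∧ -(c.2 + N) ≤ y ∧ y < c.2 + N) ∨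
    (-(c.2 + N) ≤ x ∧ x ≤ -(c.2 - N) ∧ -(c.2 + N) ≤ y ∧ y < c.2 + N) ∨
    (-(c.2 + N) ≤ x ∧ x ≤ c.2 + N ∧ -(c.2 + N) ≤ y ∧ y < -(c.2 - N)) := by
  unfold Sr; rw [Finset.mem_union, Finset.mem_union, Finset.mem_union, mem_RE_false, mem_RE_false,
    mem_RE_false, mem_RE_false]

/-- The geometry. -/
structure Geo (b w N n : ℕ) (c : ℤ × ℤ) : Prop where
  hw : 1 ≤ w
  hwb : w < b
  hbN : b + 2 * w < N
  hc1 : 0 ≤ c.1
  hc1' : c.1 ≤ w
  hc2 : 12 * (N:ℤ) ≤ c.2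
  hc2' : c.2 ≤ 12 * N + w
  hn : 32 * N ≤ n

variable {b w N n : ℕ} {c : ℤ × ℤ}

theorem Geo.Sb_sub (H : Geo b w N n c) : Sb b c ⊆ boxE n := by
  obtain ⟨h1, h2, h3, h4, h5, h6, h7, h8⟩ := H
  rintro ⟨x, y, _ | _⟩ h
  · rw [mem_Sb_false] at h
    unfold boxE
    rw [mem_RE_false]
    omega
  · rw [mem_Sb_true] at h
    unfold boxE
    rw [mem_RE_true]
    omega

theorem Geo.Sr_sub (H : Geo b w N n c) : Sr w N c ⊆ boxE n := by
  obtain ⟨h1, h2, h3, h4, h5, h6, h7, h8⟩ := H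
  rintro ⟨x, y, _ | _⟩ h
  · rw [mem_Sr_false] at h
    unfold boxE
    rw [mem_RE_false]
    omega
  · rw [mem_Sr_true] at h
    unfold boxE
    rw [mem_RE_true]
    omega

theorem Geo.e_mem (H : Geo b w N n c) (β : Bool) : ((c.1, c.2, β) : Edg) ∈ Sb b c := by
  obtain ⟨h1, h2, h3, h4, h5, h6, h7, h8⟩ := H
  cases β
  · rw [mem_Sb_false]; omega
  · rw [mem_Sb_true]; omega

theorem Geo.union (H : Geo b w N n c) (β : Bool) :
    T0 b c β ∪ (T1 b w N n c ∪ T2 b w N c) = (boxE n).erase (c.1, c.2, β) := by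
  have s1 := H.Sb_sub
  have s2 := H.Sr_sub
  have s3 := H.e_mem β
  ext g
  unfold T0 T1 T2
  simp only [Finset.mem_union, Finset.mem_erase, Finset.mem_sdiff]
  constructor
  · rintro (⟨h1, h2⟩ | ⟨h1, h2⟩ | ⟨h1, h2⟩)
    · exact ⟨h1, s1 h2⟩
    · exact ⟨fun h => h2 (Or.inl (h ▸ s3)), h1⟩
    · exact ⟨fun h => h2 (h ▸ s3), s2 h1⟩
  · rintro ⟨h1, h2⟩
    by_cases k1 : g ∈ Sb b c
    · exact Or.inl ⟨h1, k1⟩
    · by_cases k2 : g ∈ Sr w N c
      · exact Or.inr (Or.inr ⟨k2, k1⟩)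
      · exact Or.inr (Or.inl ⟨h2, fun h => h.elim k1 k2⟩)

theorem d01 (β : Bool) : Disjoint (T0 b c β) (T1 b w N n c) := by
  rw [Finset.disjoint_left]
  unfold T0 T1
  intro g h1 h2
  rw [Finset.mem_erase] at h1
  rw [Finset.mem_sdiff, Finset.mem_union] at h2
  exact h2.2 (Or.inl h1.2)

theorem d02 (β : Bool) : Disjoint (T0 b c β) (T2 b w N c) := by
  rw [Finset.disjoint_left]
  unfold T0 T2
  intro g h1 h2
  rw [Finset.mem_erase] at h1
  rw [Finset.mem_sdiff] at h2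
  exact h2.2 h1.2

theorem d12 : Disjoint (T1 b w N n c) (T2 b w N c) := by
  rw [Finset.disjoint_left]
  unfold T1 T2
  intro g h1 h2
  rw [Finset.mem_sdiff, Finset.mem_union] at h1
  rw [Finset.mem_sdiff] at h2
  exact h1.2 (Or.inr h2.1)

/-! ### monotonicity -/

theorem mp_mono {s t : ℤ} {F G : Finset Edg} (h : F ⊆ G) : (trl s t).mp F ⊆ (trl s t).mp G :=
  LSym.mp_mono _ h

theorem EA_mono {β : Bool} (F G : Finset Edg) (h : F ⊆ G) (hF : EA b w N c β F) :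
    EA b w N c β G := by
  obtain ⟨u, hu, v, hv, hr⟩ := hF
  refine ⟨u, hu, v, hv, hr.mono (Set.insert_subset_insert (Set.inter_subset_inter_left _ ?_))⟩
  exact_mod_cast mp_mono h

theorem EB_anti {β : Bool} (F G : Finset Edg) (h : F ⊆ G) (hG : EB b w N c β G) :
    EB b w N c β F := by
  intro hF
  apply hG
  obtain ⟨u, hu, v, hv, hr⟩ := hF
  refine ⟨u, hu, v, hv, hr.mono (Set.diff_subset_diff_left (Set.union_subset_union_left _
    (Set.inter_subset_inter_left _ ?_)))⟩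
  exact_mod_cast mp_mono h

theorem EI_mono (F G : Finset Edg) (h : F ⊆ G) (hF : EI w N n c F) : EI w N n c G := by
  obtain ⟨⟨hI1, hI2⟩, ⟨⟨hI3, hI4⟩, hI5, hI6⟩, hI7, hI8⟩ := hF
  exact ⟨⟨hI1.mono h, H31K.OC_mono h hI2⟩, ⟨⟨hI3.mono h, hI4.mono h⟩, hI5.mono h, hI6.mono h⟩,
    H31K.OC_mono h hI7, hI8.mono h⟩

theorem ED_anti (F G : Finset Edg) (h : F ⊆ G) (hG : ED w N c G) : ED w N c F := by
  obtain ⟨⟨⟨hD1, hD2⟩, hD3, hD4⟩, ⟨hD5, hD6⟩, hD7⟩ := hG
  exact ⟨⟨⟨fun k => hD1 (k.mono h), fun k => hD2 (k.mono h)⟩, fun k => hD3 (k.mono h),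
    fun k => hD4 (k.mono h)⟩, ⟨fun k => hD5 (k.mono h), fun k => hD6 (k.mono h)⟩,
    fun k => hD7 (k.mono h)⟩

/-! ### locality -/

theorem OC_zero {r : ℕ} {F : Finset Edg} :
    H31K.OC 0 0 r F ↔ Circ ((4 * r : ℕ) : ℤ) ((8 * r : ℕ) : ℤ) F := by
  unfold H31K.OC
  have : (trl (-0) (-0)).mp F = F := by
    ext ⟨x, y, b⟩
    rw [LSym.mem_mp, trl_φs]
    simp
  rw [this]

/-- The four rectangles of a circuit. -/
def CSub (R1 R2 : ℤ) (S : Finset Edg) : Prop :=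
  LRE (-R2) R2 R1 R2 ⊆ S ∧ LRE (-R2) R2 (-R2) (-R1) ⊆ S ∧
    TBE R1 R2 (-R2) R2 ⊆ S ∧ TBE (-R2) (-R1) (-R2) R2 ⊆ S

theorem Circ_local {R1 R2 : ℤ} {S : Finset Edg} (h : CSub R1 R2 S) (F : Finset Edg) :
    Circ R1 R2 F ↔ Circ R1 R2 (F ∩ S) := by
  unfold Circ
  rw [LRc_local (F := F) h.1, LRc_local (F := F) h.2.1, TBc_local (F := F) h.2.2.1,
    TBc_local (F := F) h.2.2.2]

theorem EA_local (H : Geo b w N n c) {β : Bool} (F : Finset Edg) :
    EA b w N c β F ↔ EA b w N c β (F ∩ (T0 b c β ∪ T1 b w N n c)) := by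
  unfold EA
  have : insert (e0 β) ((↑((trl (-c.1) (-c.2)).mp F) : Set Edg) ∩ ↑(XV b w N)) =
      insert (e0 β) ((↑((trl (-c.1) (-c.2)).mp (F ∩ (T0 b c β ∪ T1 b w N n c))) : Set Edg) ∩
        ↑(XV b w N)) := by
    obtain ⟨h1, h2, h3, h4, h5, h6, h7, h8⟩ := H
    ext ⟨x, y, bb⟩
    simp only [Set.mem_insert_iff, Set.mem_inter_iff, Finset.mem_coe, LSym.mem_mp, trl_φs,
      Finset.mem_inter, sub_neg_eq_add]
    constructor
    · rintro (h | ⟨ha, hb⟩)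
      · exact Or.inl h
      · by_cases he : ((x, y, bb) : Edg) = e0 β
        · exact Or.inl he
        · refine Or.inr ⟨⟨ha, ?_⟩, hb⟩
          rw [Finset.mem_union]
          unfold XV boxE at hb
          have hne : ((x + c.1, y + c.2, bb) : Edg) ≠ (c.1, c.2, β) := by
            intro h
            apply he
            unfold e0
            rw [Prod.mk.injEq, Prod.mk.injEq] at h
            rw [Prod.mk.injEq, Prod.mk.injEq]
            exact ⟨by omega, by omega, h.2.2⟩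
          by_cases hs : ((x + c.1, y + c.2, bb) : Edg) ∈ Sb b c
          · left
            unfold T0
            rw [Finset.mem_erase]
            exact ⟨hne, hs⟩
          · right
            unfold T1
            rw [Finset.mem_sdiff, Finset.mem_union]
            unfold boxE
            cases bb
            · rw [mem_Sb_false] at hs ⊢
              rw [mem_Sr_false]
              rw [Finset.mem_union, mem_RE_false, mem_RE_false] at hb
              rw [mem_RE_false]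
              omega
            · rw [mem_Sb_true] at hs ⊢
              rw [mem_Sr_true]
              rw [Finset.mem_union, mem_RE_true, mem_RE_true] at hb
              rw [mem_RE_true]
              omega
    · rintro (h | ⟨⟨ha, -⟩, hb⟩)
      · exact Or.inl h
      · exact Or.inr ⟨ha, hb⟩
  rw [this]

theorem EB_local (H : Geo b w N n c) {β : Bool} (F : Finset Edg) :
    EB b w N c β F ↔ EB b w N c β (F ∩ (T0 b c β ∪ T2 b w N c)) := by
  unfold EB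
  have : (((↑((trl (-c.1) (-c.2)).mp F) : Set Edg) ∩ ↑(XH b w N)) ∪
        ↑(boxE N \ XH b w N)) \ {e0 β} =
      (((↑((trl (-c.1) (-c.2)).mp (F ∩ (T0 b c β ∪ T2 b w N c))) : Set Edg) ∩ ↑(XH b w N)) ∪
        ↑(boxE N \ XH b w N)) \ {e0 β} := by
    obtain ⟨h1, h2, h3, h4, h5, h6, h7, h8⟩ := H
    ext ⟨x, y, bb⟩
    simp only [Set.mem_diff, Set.mem_union, Set.mem_singleton_iff, Set.mem_inter_iff,
      Finset.mem_coe, LSym.mem_mp, trl_φs, Finset.mem_inter, sub_neg_eq_add]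
    constructor
    · rintro ⟨⟨ha, hb⟩ | ha, he⟩
      · refine ⟨Or.inl ⟨⟨ha, ?_⟩, hb⟩, he⟩
        rw [Finset.mem_union]
        unfold XH boxE at hb
        have hne : ((x + c.1, y + c.2, bb) : Edg) ≠ (c.1, c.2, β) := by
          intro h
          apply he
          unfold e0
          rw [Prod.mk.injEq, Prod.mk.injEq] at h
          rw [Prod.mk.injEq, Prod.mk.injEq]
          exact ⟨by omega, by omega, h.2.2⟩
        by_cases hs : ((x + c.1, y + c.2, bb) : Edg) ∈ Sb b c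
        · left
          unfold T0
          rw [Finset.mem_erase]
          exact ⟨hne, hs⟩
        · right
          unfold T2
          rw [Finset.mem_sdiff]
          cases bb
          · rw [mem_Sb_false] at hs ⊢
            rw [mem_Sr_false]
            rw [Finset.mem_union, mem_RE_false, mem_RE_false] at hb
            omega
          · rw [mem_Sb_true] at hs ⊢
            rw [mem_Sr_true]
            rw [Finset.mem_union, mem_RE_true, mem_RE_true] at hb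
            omega
      · exact ⟨Or.inr ha, he⟩
    · rintro ⟨⟨⟨ha, -⟩, hb⟩ | ha, he⟩
      · exact ⟨Or.inl ⟨ha, hb⟩, he⟩
      · exact ⟨Or.inr ha, he⟩
  rw [this]

end Pool.Agent.H953
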