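import Pool.Agent.H953.Key1
import Pool.Graph.R_pool_sql_team_seeded_3dad9d7b.NH39.W.Ann3
import Pool.Graph.R_pool_sql_team_seeded_3dad9d7b.NH39.W.Sum1
import Pool.Graph.R_pool_sql_team_seeded_3dad9d7b.NH39.W.Tay
import Pool.Graph.R_seed8.H974R2.Circ
import Pool.Graph.R_seed8.H974R2.Piv

/-!
Mixed differences of the one-arm event: four arms around every element, one arm around the origin.
-/

set_option autoImplicit false
set_option maxHeartbeats 1000000

namespace Pool.Agent.H953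

open H974 H12S H389NS Finset
open Pool.Agent.NH39 (InB OutB ann_cross A4a_congr)
open Pool.Agent.NH39.W (Dl psi dm wt)
open Pool.Agent.NH39.NC (hQ le_hQ)

/-- The edges of the box. -/
abbrev EM (M : ℕ) := {e : Edg // e ∈ boxE M}

/-- The configuration in the plane. -/
def im {M : ℕ} (F : Finset (EM M)) : Finset Edg := F.map (Function.Embedding.subtype _)

theorem mem_im {M : ℕ} {F : Finset (EM M)} {e : Edg} : e ∈ im F ↔ ∃ h : e ∈ boxE M, (⟨e, h⟩ : EM M) ∈ F := by
  unfold im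
  rw [Finset.mem_map]
  constructor
  · rintro ⟨⟨a, ha⟩, h1, rfl⟩
    exact ⟨ha, h1⟩
  · rintro ⟨h, h1⟩
    exact ⟨⟨e, h⟩, h1, rfl⟩

theorem im_sub {M : ℕ} (F : Finset (EM M)) : im F ⊆ boxE M := by
  intro e he
  exact (mem_im.1 he).1

theorem im_insert {M : ℕ} (a : EM M) (F : Finset (EM M)) : im (insert a F) = insert a.1 (im F) := by
  unfold im
  rw [Finset.map_insert]
  rfl

theorem pr_im {M : ℕ} (q : ℝ) (A : Finset Edg → Prop) :
    Pr (fun _ : EM M => q) Finset.univ (fun F => A (im F)) = Pr (fun _ => q) (boxE M) A := by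
  have h := Pr_map (fun _ : Edg => q) (Function.Embedding.subtype (fun e => e ∈ boxE M))
    (Finset.univ : Finset (EM M)) A
  have e : (Finset.univ : Finset (EM M)).map (Function.Embedding.subtype (fun e => e ∈ boxE M)) =
      boxE M := by
    ext x
    rw [Finset.mem_map]
    constructor
    · rintro ⟨⟨a, ha⟩, -, rfl⟩
      exact ha
    · intro hx
      exact ⟨⟨x, hx⟩, Finset.mem_univ _, rfl⟩
  rw [e] at h
  exact h.symm

/-- Distance of two edges. -/
def eds (e f : Edg) : ℕ := max (e.1 - f.1).natAbs (e.2.1 - f.2.1).natAbs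

theorem eds_self (e : Edg) : eds e e = 0 := by unfold eds; simp

theorem eds_comm (e f : Edg) : eds e f = eds f e := by unfold eds; omega

theorem eds_tri (e f g : Edg) : eds e g ≤ eds e f + eds f g := by unfold eds; omega

/-- The annulus consists of edges at the right distance. -/
theorem ann_eds {x e : Edg} {r D : ℕ} (he : e ∈ blk (x.1, x.2.1) D \ blk (x.1, x.2.1) r) :
    r ≤ eds e x ∧ eds e x ≤ D := by
  obtain ⟨x1, x2, bx⟩ := x
  obtain ⟨e1, e2, be⟩ := e
  unfold blk at he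
  unfold eds
  cases be
  · rw [Finset.mem_sdiff, mem_RE_false, mem_RE_false] at he
    simp only at he ⊢
    omega
  · rw [Finset.mem_sdiff, mem_RE_true, mem_RE_true] at he
    simp only at he ⊢
    omega

/-- Two configurations which agree at the right distances agree in the annulus. -/
theorem im_ann {M : ℕ} {x : Edg} {r D : ℕ} {F F' : Finset (EM M)}
    (h : ∀ e : EM M, r ≤ eds e.1 x → eds e.1 x ≤ D → (e ∈ F ↔ e ∈ F')) :
    (↑(im F) : Set Edg) ∩ ↑(blk (x.1, x.2.1) D \ blk (x.1, x.2.1) r) =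
      (↑(im F') : Set Edg) ∩ ↑(blk (x.1, x.2.1) D \ blk (x.1, x.2.1) r) := by
  ext e
  rw [Set.mem_inter_iff, Set.mem_inter_iff, Finset.mem_coe, Finset.mem_coe, Finset.mem_coe]
  constructor
  · rintro ⟨h1, h2⟩
    obtain ⟨hb, h3⟩ := mem_im.1 h1
    obtain ⟨g1, g2⟩ := ann_eds h2
    exact ⟨mem_im.2 ⟨hb, (h ⟨e, hb⟩ g1 g2).1 h3⟩, h2⟩
  · rintro ⟨h1, h2⟩
    obtain ⟨hb, h3⟩ := mem_im.1 h1
    obtain ⟨g1, g2⟩ := ann_eds h2
    exact ⟨mem_im.2 ⟨hb, (h ⟨e, hb⟩ g1 g2).2 h3⟩, h2⟩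

/-- A pivotal edge has four arms. -/
theorem piv_A4a {M r D : ℕ} {x : Edg} {H : Finset Edg} (hH : H ⊆ boxE M)
    (h : PivA M x H) (hr : 1 ≤ r) (hrD : r ≤ D)
    (hD : x.1.natAbs + D ≤ M ∧ x.2.1.natAbs + D ≤ M)
    (ho : D ≤ x.1.natAbs ∨ D ≤ x.2.1.natAbs) : A4a (x.1, x.2.1) r D (↑H : Set Edg) := by
  obtain ⟨⟨w, hw, hr1⟩, hno⟩ := h
  have hD1 : (x.1.natAbs : ℤ) = |x.1| := Int.natCast_natAbs _
  have hD2 : (x.2.1.natAbs : ℤ) = |x.2.1| := Int.natCast_natAbs _
  have hset : (↑(insert x H) : Set Edg) ∩ ↑(boxE M) ⊆ insert x (↑H : Set Edg) := by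
    rw [Finset.coe_insert]
    exact Set.inter_subset_left
  have hr2 := hr1.mono hset
  have hne : ∀ v, onB M v → ¬ Reach (↑H : Set Edg) (0, 0) v := by
    intro v hv h2
    apply hno
    refine ⟨v, hv, h2.mono ?_⟩
    intro g hg
    exact ⟨hg, by exact_mod_cast hH hg⟩
  have hx1 : InB (x.1, x.2.1) r (src x) := by
    obtain ⟨x1, x2, bx⟩ := x
    unfold InB
    simp only [src_mk, sub_self, abs_zero]
    omega
  have hx2 : InB (x.1, x.2.1) r (tgt x) := by
    obtain ⟨x1, x2, bx⟩ := x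
    unfold InB
    cases bx
    · simp only [tgt_false, sub_self, abs_zero, add_sub_cancel_left, abs_one]
      omega
    · simp only [tgt_true, sub_self, abs_zero, add_sub_cancel_left, abs_one]
      omega
  have o1 : OutB (x.1, x.2.1) D (0, 0) := by
    unfold OutB
    simp only [zero_sub, abs_neg]
    omega
  have o2 : OutB (x.1, x.2.1) D w := by
    unfold onB at hw
    unfold OutB
    simp only
    obtain ⟨-, hw⟩ := hw
    have a1 := abs_cases x.1
    have a2 := abs_cases x.2.1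
    have a3 := abs_cases (w.1 - x.1)
    have a4 := abs_cases (w.2 - x.2.1)
    omega
  -- the two cases
  have main : ∀ u v : Vtx, InB (x.1, x.2.1) r u → InB (x.1, x.2.1) r v →
      Reach (↑H : Set Edg) (0, 0) u → Reach (↑H : Set Edg) v w → A4a (x.1, x.2.1) r D (↑H : Set Edg) := by
    intro u v hu hv h1 h2
    obtain ⟨u1, hu1, w1, hw1, r1, r1'⟩ := ann_cross hrD hu o1 h1.symm
    obtain ⟨u2, hu2, w2, hw2, r2, r2'⟩ := ann_cross hrD hv o2 h2
    refine ⟨u1, hu1, u2, hu2, ⟨w1, hw1, r1⟩, ⟨w2, hw2, r2⟩, fun hc => ?_⟩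
    have i1 := r1.mono Set.inter_subset_left
    have i2 := r2.mono Set.inter_subset_left
    have i3 := hc.mono Set.inter_subset_left
    exact hne w hw (h1.trans (r1'.trans (i1.symm.trans (i3.trans (i2.trans (r2'.symm.trans h2))))))
  rcases GR_insert.mp (reach_GR.mp hr2) with h1 | ⟨h1, h2⟩ | ⟨h1, h2⟩
  · exact absurd (reach_GR.mpr h1) (hne w hw)
  · exact main _ _ hx1 hx2 (reach_GR.mpr h1) (reach_GR.mpr h2)
  · exact main _ _ hx2 hx1 (reach_GR.mpr h1) (reach_GR.mpr h2)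

/-- Crossing of the annulus around the origin. -/
def X1 (r D : ℕ) (F : Set Edg) : Prop :=
  ∃ u ∈ bdB (0, 0) r, ∃ w ∈ bdB (0, 0) D, Reach (F ∩ ↑(blk (0, 0) D \ blk (0, 0) r)) u w

theorem X1_of_arm {M r D : ℕ} {H : Finset Edg} (h : Arm M H) (hrD : r ≤ D) (hD : D ≤ M) :
    X1 r D (↑H : Set Edg) := by
  obtain ⟨w, hw, hr⟩ := h
  have o2 : OutB (0, 0) D w := by
    unfold onB at hw
    unfold OutB
    simp only [sub_zero]
    obtain ⟨-, hw⟩ := hw
    have a3 := abs_cases w.1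
    have a4 := abs_cases w.2
    omega
  obtain ⟨u1, hu1, w1, hw1, r1, -⟩ := ann_cross hrD (x := (0, 0))
    (by unfold InB; simp) o2 (hr.mono Set.inter_subset_left)
  exact ⟨u1, hu1, w1, hw1, r1⟩

theorem X1_barm {r D : ℕ} (hrD : r ≤ D) {H : Finset Edg} (h : X1 r D (↑H : Set Edg)) : BArm r D H := by
  obtain ⟨u, ⟨hu1, hu2, -⟩, w, hw, hr⟩ := h
  have hb : blk (0, 0) D = boxE D := H389NS.S4C_blk0 D
  rw [hb] at hr
  refine ⟨u, w, ?_, ?_, hr.mono ?_⟩
  · unfold inR
    simp only [sub_zero, abs_le] at hu1 hu2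
    omega
  · obtain ⟨a1, a2, a3⟩ := hw
    simp only [sub_zero] at a1 a2 a3
    unfold onB inR
    have b1 := abs_cases w.1
    have b2 := abs_cases w.2
    omega
  · rintro g ⟨h1, h2⟩
    rw [Finset.mem_coe, Finset.mem_sdiff] at h2
    exact ⟨h1, by exact_mod_cast h2.1⟩

end Pool.Agent.H953
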