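import Pool.Agent.H953.Pl1
import Pool.Graph.R_seed8.Y554.NC.Theta

/-!
The weight of the one-arm event above the critical point, and the bound for one set of edges.
-/

set_option autoImplicit false
set_option maxHeartbeats 1000000

namespace Pool.Agent.H953

open H974 H12S H389NS Finset
open Pool.Agent.NH39 (InB OutB ann_cross A4a_congr)
open Pool.Agent.NH39.W (Dl psi dm wt Dl_split)
open Pool.Agent.NH39.NC (hQ le_hQ)

/-- The weight of one arm, up to constants. -/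
noncomputable def va (p : ℝ) (s : ℕ) : ℝ := max ((s:ℝ) ^ (-(5/48) : ℝ)) ((p - 1/2) ^ (5/36 : ℝ))

theorem va_one {p : ℝ} (h : 1/2 < p) (h1 : p ≤ 1) : va p 1 = 1 := by
  unfold va
  rw [Nat.cast_one, Real.one_rpow]
  exact max_eq_left (Real.rpow_le_one (by linarith) (by linarith) (by norm_num))

theorem va_pos {p : ℝ} (h : 1/2 < p) (s : ℕ) : 0 < va p s := by
  unfold va
  exact lt_max_of_lt_right (Real.rpow_pos_of_pos (by linarith) _)

theorem va_anti (p : ℝ) {r s : ℕ} (hr : 1 ≤ r) (hs : r ≤ s) : va p s ≤ va p r := by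
  unfold va
  apply max_le_max _ le_rfl
  have h1 : (0:ℝ) < r := by exact_mod_cast hr
  exact Real.rpow_le_rpow_of_nonpos h1 (by exact_mod_cast hs) (by norm_num)

/-- Comparison of the weights at two radii. -/
theorem va_ratio {p : ℝ} (h : 1/2 < p) {r s : ℕ} (hr : 1 ≤ r) (hs : r ≤ s) :
    ((s:ℝ) / r) ^ (-(5/48) : ℝ) * va p r ≤ va p s := by
  have h1 : (0:ℝ) < r := by exact_mod_cast hr
  have h2 : (r:ℝ) ≤ s := by exact_mod_cast hs
  have h3 : (0:ℝ) < s := by linarith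
  have h4 : ((s:ℝ) / r) ^ (-(5/48) : ℝ) ≤ 1 :=
    Real.rpow_le_one_of_one_le_of_nonpos (by rw [le_div_iff₀ h1]; linarith) (by norm_num)
  have h5 : 0 ≤ ((s:ℝ) / r) ^ (-(5/48) : ℝ) := by positivity
  have h6 : 0 ≤ (p - 1/2) ^ (5/36 : ℝ) := Real.rpow_nonneg (by linarith) _
  unfold va
  rw [mul_max_of_nonneg _ _ h5]
  apply max_le
  · refine le_trans (le_of_eq ?_) (le_max_left _ _)
    rw [← Real.mul_rpow (by positivity) h1.le, div_mul_cancel₀ _ h1.ne']
  · refine le_trans ?_ (le_max_right _ _)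
    nlinarith

theorem va_doub {p : ℝ} (h : 1/2 < p) {r s : ℕ} (hr : 1 ≤ r) (hs : r ≤ s) (h8 : s ≤ 8 * r) :
    va p r ≤ Pool.Agent.NH39.W.WW * va p s := by
  have h1 : (0:ℝ) < r := by exact_mod_cast hr
  have h2 := va_ratio h hr hs
  have h3 : (s:ℝ) / r ≤ 8 := by
    rw [div_le_iff₀ h1]
    exact_mod_cast h8
  have h4 : (1/8 : ℝ) ≤ ((s:ℝ) / r) ^ (-(5/48) : ℝ) := by
    have h5 : (0:ℝ) < (s:ℝ) / r := by
      have : (0:ℝ) < s := by exact_mod_cast (by omega : 0 < s)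
      positivity
    have h6 := Real.rpow_le_rpow_of_nonpos h5 h3 (by norm_num : (-(5/48) : ℝ) ≤ 0)
    refine le_trans ?_ h6
    have h7 : (8:ℝ) ^ (-(1:ℝ)) ≤ (8:ℝ) ^ (-(5/48) : ℝ) :=
      Real.rpow_le_rpow_of_exponent_le (by norm_num) (by norm_num)
    rw [Real.rpow_neg_one] at h7
    linarith
  have h5 := va_pos h r
  have h6 : va p r ≤ 8 * va p s := by nlinarith
  refine h6.trans (mul_le_mul_of_nonneg_right ?_ (va_pos h s).le)
  unfold Pool.Agent.NH39.W.WW
  have : 1 ≤ (8:ℝ) ^ (5/4 : ℝ) := Real.one_le_rpow (by norm_num) (by norm_num)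
  linarith

/-- The quotient of the weights is decreasing. -/
theorem wt_va {p : ℝ} (h : 1/2 < p) {r s : ℕ} (hr : 1 ≤ r) (hs : r ≤ s) :
    wt p s * va p r ≤ wt p r * va p s := by
  have h1 : (0:ℝ) < r := by exact_mod_cast hr
  have h2 : (r:ℝ) ≤ s := by exact_mod_cast hs
  have h3 : (0:ℝ) < s := by linarith
  have h4 := va_ratio h hr hs
  have h5 := Pool.Agent.NH39.W.wt_ratio (q := p) hr hs
  have w1 := Pool.Agent.NH39.W.wt_pos p hr
  have l0 : 0 ≤ |p - 1/2| ^ (4/3 : ℝ) := by positivity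
  have h6 : wt p s / wt p r ≤ ((s:ℝ) / r) ^ (-(5/48) : ℝ) := by
    rw [h5]
    have h7 : (1 + |p - 1/2| ^ (4/3 : ℝ) * r) / (1 + |p - 1/2| ^ (4/3 : ℝ) * s) ≤ 1 := by
      rw [div_le_one (by positivity)]
      nlinarith
    have h8 : ((r:ℝ) / s) ^ (5/4 : ℝ) ≤ ((r:ℝ) / s) ^ (5/48 : ℝ) :=
      Real.rpow_le_rpow_of_exponent_ge (by positivity) (by rw [div_le_one h3]; exact h2)
        (by norm_num)
    have h9 : ((s:ℝ) / r) ^ (-(5/48) : ℝ) = ((r:ℝ) / s) ^ (5/48 : ℝ) := by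
      rw [Real.rpow_neg (by positivity), ← Real.inv_rpow (by positivity), inv_div]
    rw [h9]
    have h10 : 0 ≤ ((r:ℝ) / s) ^ (5/4 : ℝ) := by positivity
    calc _ ≤ ((r:ℝ) / s) ^ (5/4 : ℝ) * 1 := mul_le_mul_of_nonneg_left h7 h10
      _ ≤ _ := by rw [mul_one]; exact h8
  rw [div_le_iff₀ w1] at h6
  have v1 := va_pos h r
  calc wt p s * va p r ≤ (((s:ℝ) / r) ^ (-(5/48) : ℝ) * wt p r) * va p r :=
        mul_le_mul_of_nonneg_right h6 v1.le
    _ = wt p r * (((s:ℝ) / r) ^ (-(5/48) : ℝ) * va p r) := by ring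
    _ ≤ wt p r * va p s := mul_le_mul_of_nonneg_left h4 w1.le

/-- The one-arm probability above the critical point. -/
theorem arm_va : ∃ c C : ℝ, 0 < c ∧ 0 < C ∧ ∀ p : ℝ, 1/2 < p → p ≤ 1 → ∀ n : ℕ, 1 ≤ n →
    c * va p n ≤ arm p n ∧ arm p n ≤ C * va p n := by
  obtain ⟨κ, b, hκ, hb, harm⟩ := Pool.Agent.W424.NC.armS
  obtain ⟨cc, Cc, hcc, hCc, hcrit⟩ := Pool.Agent.W424.NC.arm_crit
  obtain ⟨ct, hct, hth⟩ := Pool.Agent.Y554.NC.theta_lower'
  refine ⟨min cc ct, max (3 * Cc) (max (b ^ (-(5/36) : ℝ)) (3 * Cc * ((2:ℝ) ^ (5/48 : ℝ) *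
    b ^ (-(5/36) : ℝ)))), lt_min hcc hct, lt_max_of_lt_left (by positivity), ?_⟩
  intro p hp hp1 n hn
  obtain ⟨t, ht⟩ : ∃ t : ℝ, t = p - 1/2 := ⟨_, rfl⟩
  have ht0 : 0 < t := by rw [ht]; linarith
  have hn0 : (0:ℝ) < n := by exact_mod_cast hn
  have hcr := hcrit n hn
  have p0 : 0 ≤ p := by linarith
  have vp := va_pos hp n
  have hv2 : t ^ (5/36 : ℝ) ≤ va p n := by
    unfold va; rw [← ht]; exact le_max_right _ _
  have hv1 : (n:ℝ) ^ (-(5/48) : ℝ) ≤ va p n := by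
    unfold va; exact le_max_left _ _
  constructor
  · have h1 : arm (1/2) n ≤ arm p n := arm_mono_param (by norm_num) hp.le hp1 n
    have h2 := (hth ⟨p, p0, hp1⟩ hp).trans (theta_le_arm ⟨p, p0, hp1⟩ n)
    simp only [← ht] at h2
    rcases le_total ((n:ℝ) ^ (-(5/48) : ℝ)) (t ^ (5/36 : ℝ)) with h | h
    · have e : va p n = t ^ (5/36 : ℝ) := by
        unfold va; rw [← ht]; exact max_eq_right h
      rw [e]
      exact (mul_le_mul_of_nonneg_right (min_le_right _ _) (by positivity)).trans h2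
    · have e : va p n = (n:ℝ) ^ (-(5/48) : ℝ) := by
        unfold va; rw [← ht]; exact max_eq_left h
      rw [e]
      exact ((mul_le_mul_of_nonneg_right (min_le_left _ _) (by positivity)).trans hcr.1).trans h1
  · by_cases hw : t ≤ b * (n:ℝ) ^ (-(3/4) : ℝ)
    · have h1 := (harm n hn p (by rw [← ht, abs_of_pos ht0]; exact hw)).2.1
      calc arm p n ≤ 3 * (Cc * (n:ℝ) ^ (-(5/48) : ℝ)) := by linarith [hcr.2]
        _ = (3 * Cc) * (n:ℝ) ^ (-(5/48) : ℝ) := by ring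
        _ ≤ (3 * Cc) * va p n := mul_le_mul_of_nonneg_left hv1 (by positivity)
        _ ≤ _ := mul_le_mul_of_nonneg_right (le_max_left _ _) vp.le
    · rw [not_le] at hw
      by_cases htb : t ≤ b
      · obtain ⟨k, hk1, hk2, hk3, hk4⟩ := Pool.Agent.Y554.NC.scale_exists hb ht0 htb
        have hk0 : (0:ℝ) < k := by exact_mod_cast hk1
        have hkn : k ≤ n := by
          have h1 : (b / t) ^ (4/3 : ℝ) ≤ n := by
            have h2 : b / t ≤ (n:ℝ) ^ (3/4 : ℝ) := by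
              rw [div_le_iff₀ ht0]
              have h3 : (n:ℝ) ^ (3/4 : ℝ) * (n:ℝ) ^ (-(3/4) : ℝ) = 1 := by
                rw [← Real.rpow_add hn0]; norm_num
              have h4 := mul_le_mul_of_nonneg_left hw.le (by positivity : 0 ≤ (n:ℝ) ^ (3/4 : ℝ))
              calc b = b * ((n:ℝ) ^ (3/4 : ℝ) * (n:ℝ) ^ (-(3/4) : ℝ)) := by rw [h3, mul_one]
                _ = (n:ℝ) ^ (3/4 : ℝ) * (b * (n:ℝ) ^ (-(3/4) : ℝ)) := by ring
                _ ≤ _ := h4
            have h5 := Real.rpow_le_rpow (by positivity) h2 (by norm_num : (0:ℝ) ≤ 4/3)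
            rw [← Real.rpow_mul hn0.le] at h5
            norm_num at h5
            exact_mod_cast h5
          have h2 : (k:ℝ) ≤ n := hk3.trans h1
          exact_mod_cast h2
        have h1 := (harm k hk1 p (by rw [← ht, abs_of_pos ht0]; exact hk2)).2.1
        have h2 := (hcrit k hk1).2
        have h3 : arm p n ≤ arm p k := arm_anti p0 hp1 hkn
        have h4 : (k:ℝ) ^ (-(5/48) : ℝ) ≤ ((2:ℝ) ^ (5/48 : ℝ) * b ^ (-(5/36) : ℝ)) * t ^ (5/36 : ℝ) := by
          have h5 : (b / t) ^ (4/3 : ℝ) / 2 ≤ k := by linarith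
          have h6 := Real.rpow_le_rpow_of_nonpos (by positivity) h5 (by norm_num : (-(5/48) : ℝ) ≤ 0)
          refine h6.trans (le_of_eq ?_)
          rw [Real.div_rpow (by positivity) (by norm_num), ← Real.rpow_mul (by positivity),
            Real.div_rpow hb.le ht0.le, Real.rpow_neg (by norm_num : (0:ℝ) ≤ 2)]
          have e1 : (4/3 : ℝ) * -(5/48) = -(5/36) := by norm_num
          rw [e1, Real.rpow_neg ht0.le]
          field_simp
        calc arm p n ≤ 3 * (Cc * (k:ℝ) ^ (-(5/48) : ℝ)) := by linarith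
          _ = (3 * Cc) * (k:ℝ) ^ (-(5/48) : ℝ) := by ring
          _ ≤ (3 * Cc) * (((2:ℝ) ^ (5/48 : ℝ) * b ^ (-(5/36) : ℝ)) * t ^ (5/36 : ℝ)) :=
              mul_le_mul_of_nonneg_left h4 (by positivity)
          _ = (3 * Cc * ((2:ℝ) ^ (5/48 : ℝ) * b ^ (-(5/36) : ℝ))) * t ^ (5/36 : ℝ) := by ring
          _ ≤ (3 * Cc * ((2:ℝ) ^ (5/48 : ℝ) * b ^ (-(5/36) : ℝ))) * va p n :=
              mul_le_mul_of_nonneg_left hv2 (by positivity)
          _ ≤ _ := mul_le_mul_of_nonneg_right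
              ((le_max_right _ _).trans (le_max_right _ _)) vp.le
      · rw [not_le] at htb
        have h1 : 1 ≤ b ^ (-(5/36) : ℝ) * t ^ (5/36 : ℝ) := by
          rw [Real.rpow_neg hb.le, ← div_eq_inv_mul, ← Real.div_rpow ht0.le hb.le]
          exact Real.one_le_rpow (by rw [le_div_iff₀ hb]; linarith) (by norm_num)
        calc arm p n ≤ 1 := arm_le_one p0 hp1 n
          _ ≤ b ^ (-(5/36) : ℝ) * t ^ (5/36 : ℝ) := h1
          _ ≤ b ^ (-(5/36) : ℝ) * va p n := mul_le_mul_of_nonneg_left hv2 (by positivity)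
          _ ≤ _ := mul_le_mul_of_nonneg_right
              ((le_max_left _ _).trans (le_max_right _ _)) vp.le

/-- The crossing of an annulus around the origin. -/
theorem X1_le : ∃ C : ℝ, 1 ≤ C ∧ ∀ p : ℝ, 1/2 < p → p ≤ 1 → ∀ r D M : ℕ, 1 ≤ r → r ≤ D → D ≤ M →
    Pr (fun _ => p) (boxE M) (fun F => X1 r D (↑F : Set Edg)) ≤ C * (va p D / va p r) := by
  obtain ⟨c, C, hc, hC, harm⟩ := arm_va
  obtain ⟨c3, hc3⟩ : ∃ c3 : ℝ, c3 = (1/2 : ℝ) ^ 188 * (c * (1/8)) := ⟨_, rfl⟩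
  have hc30 : 0 < c3 := by rw [hc3]; positivity
  refine ⟨max 8 (C / c3), le_trans (by norm_num) (le_max_left _ _), ?_⟩
  intro p hp hp1 r D M hr hrD hDM
  have p0 : 0 ≤ p := by linarith
  have ok := okq p0 hp1
  have vr := va_pos hp r
  have vD := va_pos hp D
  have h1 : Pr (fun _ => p) (boxE M) (fun F => X1 r D (↑F : Set Edg)) ≤ barm p r D := by
    have e1 : Pr (fun _ => p) (boxE M) (fun F => X1 r D (↑F : Set Edg)) ≤
        Pr (fun _ => p) (boxE M) (BArm r D) :=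
      Pr_mono ok (fun F _ h => X1_barm hrD h)
    refine e1.trans (le_of_eq ?_)
    unfold barm
    apply Pr_local (boxE_mono hDM)
    intro F _
    unfold BArm
    rw [coe_inter_eq (Finset.Subset.refl (boxE D))]
  have hle1 : Pr (fun _ => p) (boxE M) (fun F => X1 r D (↑F : Set Edg)) ≤ 1 := Pr_le_one ok _ _
  by_cases h3 : 3 * r ≤ D
  · have h4 := arm_glue hp.le hp1 (r := r) (n := D) (by omega) h3
    have h5 := (harm p hp hp1 (3 * r) (by omega)).1
    have h6 := (harm p hp hp1 D (by omega)).2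
    have h7 : (1/8) * va p r ≤ va p (3 * r) := by
      have h8 := va_ratio hp hr (show r ≤ 3 * r by omega)
      refine le_trans (mul_le_mul_of_nonneg_right ?_ vr.le) h8
      have hr0 : (0:ℝ) < r := by exact_mod_cast hr
      have e : (((3 * r : ℕ) : ℝ) / r) = 3 := by push_cast; field_simp
      rw [e]
      have h9 : (3:ℝ) ^ (-(1:ℝ)) ≤ (3:ℝ) ^ (-(5/48) : ℝ) :=
        Real.rpow_le_rpow_of_exponent_le (by norm_num) (by norm_num)
      rw [Real.rpow_neg_one] at h9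
      linarith
    have h8 : c3 * va p r * barm p r D ≤ C * va p D := by
      have hb : 0 ≤ barm p r D := barm_nonneg p0 hp1 _ _
      have h9 : c * (1/8) * va p r ≤ arm p (3 * r) := by nlinarith
      calc c3 * va p r * barm p r D = (1/2 : ℝ) ^ 188 * ((c * (1/8) * va p r) * barm p r D) := by
            rw [hc3]; ring
        _ ≤ (1/2 : ℝ) ^ 188 * (arm p (3 * r) * barm p r D) :=
            mul_le_mul_of_nonneg_left (mul_le_mul_of_nonneg_right h9 hb) (by positivity)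
        _ ≤ arm p D := h4
        _ ≤ _ := h6
    refine h1.trans (le_trans ?_ (mul_le_mul_of_nonneg_right (le_max_right _ _) (by positivity)))
    rw [div_mul_div_comm, le_div_iff₀ (by positivity)]
    linarith
  · refine hle1.trans (le_trans ?_ (mul_le_mul_of_nonneg_right (le_max_left _ _) (by positivity)))
    rw [mul_div_assoc', le_div_iff₀ vr, one_mul]
    have h8 := va_ratio hp hr hrD
    have hr0 : (0:ℝ) < r := by exact_mod_cast hr
    have hD0 : (0:ℝ) < D := by exact_mod_cast (by omega : 0 < D)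
    have h9 : (1/8 : ℝ) ≤ ((D:ℝ) / r) ^ (-(5/48) : ℝ) := by
      have h10 : (D:ℝ) / r ≤ 8 := by
        rw [div_le_iff₀ hr0]
        have : D ≤ 8 * r := by omega
        exact_mod_cast this
      have h11 := Real.rpow_le_rpow_of_nonpos (by positivity) h10 (by norm_num : (-(5/48) : ℝ) ≤ 0)
      refine le_trans ?_ h11
      have h7 : (8:ℝ) ^ (-(1:ℝ)) ≤ (8:ℝ) ^ (-(5/48) : ℝ) :=
        Real.rpow_le_rpow_of_exponent_le (by norm_num) (by norm_num)
      rw [Real.rpow_neg_one] at h7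
      linarith
    nlinarith

end Pool.Agent.H953
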