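import Pool.Agent.H953.Pl2

/-!
The bound for the mixed difference of the one-arm event in one set of edges.
-/

set_option autoImplicit false
set_option maxHeartbeats 1000000

namespace Pool.Agent.H953

open H974 H12S H389NS Finset
open Pool.Agent.NH39 (InB OutB ann_cross A4a_congr)
open Pool.Agent.NH39.W (Dl psi dm wt Dl_split WW WW_one)
open Pool.Agent.NH39.NC (hQ le_hQ)

/-- The one-arm event. -/
noncomputable def fa (M : ℕ) (F : Finset (EM M)) : ℝ := ind (Arm M (im F))

theorem im_mono {M : ℕ} {F G : Finset (EM M)} (h : F ⊆ G) : im F ⊆ im G := by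
  unfold im
  exact Finset.map_subset_map.2 h

/-- A mixed difference which does not vanish, and one of its elements. -/
theorem Dl_piv {M : ℕ} {S F : Finset (EM M)} {x : EM M} (hx : x ∈ S) (h : Dl (fa M) S F ≠ 0) :
    ∃ T, T ⊆ S.erase x ∧ PivA M x.1 (im ((F \ S) ∪ T)) := by
  rw [Dl_split hx] at h
  obtain ⟨T, hT, h1⟩ := Finset.exists_ne_zero_of_sum_ne_zero h
  refine ⟨T, Finset.mem_powerset.1 hT, ?_⟩
  have h2 : fa M (insert x ((F \ S) ∪ T)) ≠ fa M ((F \ S) ∪ T) := by
    intro h3
    apply h1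
    rw [h3, sub_self, mul_zero]
  have hmono : Arm M (im ((F \ S) ∪ T)) → Arm M (im (insert x ((F \ S) ∪ T))) :=
    fun h => h.mono (im_mono (Finset.subset_insert _ _))
  unfold PivA
  rw [← im_insert]
  by_cases a1 : Arm M (im ((F \ S) ∪ T))
  · exfalso
    apply h2
    unfold fa
    rw [ind_of a1, ind_of (hmono a1)]
  · refine ⟨?_, a1⟩
    by_contra a2
    apply h2
    unfold fa
    rw [ind_not_of a1, ind_not_of a2]

theorem Dl_arm {M : ℕ} {S F : Finset (EM M)} (h : Dl (fa M) S F ≠ 0) :
    ∃ T, T ⊆ S ∧ Arm M (im ((F \ S) ∪ T)) := by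
  unfold Dl at h
  obtain ⟨T, hT, h1⟩ := Finset.exists_ne_zero_of_sum_ne_zero h
  refine ⟨T, Finset.mem_powerset.1 hT, ?_⟩
  by_contra h2
  apply h1
  unfold fa
  rw [ind_not_of h2, mul_zero]

/-- The event for the induction. -/
def Dsf (M m : ℕ) (o : EM M) (S F : Finset (EM M)) : Prop :=
  (∀ y ∈ S, eds y.1 o.1 ≤ m) ∧ (Dl (fa M) S F ≠ 0 ∨ Dl (fa M) (S.erase o) F ≠ 0)

/-- The edge at the origin. -/
def og (M : ℕ) (h : 1 ≤ M) : EM M := ⟨(0, 0, true), by unfold boxE; rw [mem_RE_true]; omega⟩

theorem X1_congr {r D : ℕ} {F G : Set Edg}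
    (h : F ∩ ↑(blk (0, 0) D \ blk (0, 0) r) = G ∩ ↑(blk (0, 0) D \ blk (0, 0) r)) :
    X1 r D F ↔ X1 r D G := by
  unfold X1
  rw [h]

theorem blk_box {c : ℤ × ℤ} {D M : ℕ} (hD : c.1.natAbs + D ≤ M ∧ c.2.natAbs + D ≤ M) :
    blk c D ⊆ boxE M := by
  unfold blk boxE
  exact RE_subset (by omega) (by omega) (by omega) (by omega)

theorem pr_false {M : ℕ} (p : ℝ) : Pr (fun _ : EM M => p) Finset.univ (fun _ => False) = 0 := by
  unfold Pr
  rw [Ex_congr (g := fun _ => 0) (fun F _ => ind_not_of (fun h => h)), Ex_const]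

/-- The hypotheses of the induction over the scales. -/
theorem ks_arm : ∃ C : ℝ, 1 ≤ C ∧ ∀ p : ℝ, 1/2 < p → p ≤ 1 → ∀ (m : ℕ) (hm : 1 ≤ m),
    K1.KS (fun a b : EM (2 * m) => eds a.1 b.1) m p (wt p) (va p) (og (2 * m) (by omega))
      (Dsf (2 * m) m (og (2 * m) (by omega))) C WW := by
  obtain ⟨C1, hC1, h1⟩ := Pool.Agent.NH39.W.pl
  obtain ⟨C2, hC2, h2⟩ := X1_le
  refine ⟨max C1 C2, hC1.trans (le_max_left _ _), ?_⟩
  intro p hp hp1 m hm
  have p0 : 0 ≤ p := by linarith
  have ok := okq p0 hp1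
  have oko : Ok (fun _ : EM (2 * m) => p) := fun _ => ⟨p0, hp1⟩
  obtain ⟨M, hM⟩ : ∃ M, M = 2 * m := ⟨_, rfl⟩
  subst hM
  refine ⟨fun a => eds_self _, fun a b => eds_comm _ _, fun a b c => eds_tri _ _ _, hm, p0, hp1,
    Pool.Agent.NH39.W.wt_one p, fun r hr => Pool.Agent.NH39.W.wt_pos p hr,
    fun r s hr hs => Pool.Agent.NH39.W.wt_anti p hr hs,
    fun r s hr hs h8 => Pool.Agent.NH39.W.wt_doub p hr hs h8, va_one hp hp1,
    fun r _ => va_pos hp r, fun r s hr hs => va_anti p hr hs,
    fun r s hr hs h8 => va_doub hp hr hs h8, fun r s hr hs => wt_va hp hr hs, ?_, ?_,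
    hC1.trans (le_max_left _ _), WW_one⟩
  · -- four arms
    intro x r D hr hrD hDm
    have wr := Pool.Agent.NH39.W.wt_pos p hr
    have wD := Pool.Agent.NH39.W.wt_pos p (hr.trans hrD)
    by_cases hx : eds x.1 (0, 0, true) ≤ m ∧ D < eds x.1 (0, 0, true)
    · have hx1 : x.1.1.natAbs ≤ m ∧ x.1.2.1.natAbs ≤ m := by
        have := hx.1
        unfold eds at this
        simp only at this
        omega
      have hb : x.1.1.natAbs + D ≤ 2 * m ∧ x.1.2.1.natAbs + D ≤ 2 * m := by omega
      have ho : D ≤ x.1.1.natAbs ∨ D ≤ x.1.2.1.natAbs := by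
        have := hx.2
        unfold eds at this
        simp only at this
        omega
      refine ⟨fun F => A4a (x.1.1, x.1.2.1) r D (↑(im F) : Set Edg), ?_, ?_, ?_⟩
      · intro F F' hFF
        exact A4a_congr (im_ann hFF)
      · intro S F hoS hxS hgap hfar hF
        have hxo : x ≠ og (2 * m) (by omega) := by
          intro h
          rw [h] at hfar
          rw [eds_self] at hfar
          omega
        have main : ∀ S' : Finset (EM (2 * m)), S' ⊆ S → x ∈ S' → Dl (fa (2 * m)) S' F ≠ 0 →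
            A4a (x.1.1, x.1.2.1) r D (↑(im F) : Set Edg) := by
          intro S' hS' hxS' hne
          obtain ⟨T, hT, hpiv⟩ := Dl_piv hxS' hne
          have h4 := piv_A4a (im_sub _) hpiv hr hrD hb ho
          refine (A4a_congr (im_ann ?_)).1 h4
          intro e he1 he2
          have heS : e ∉ S := by
            intro h
            have := hgap e h
            omega
          rw [Finset.mem_union, Finset.mem_sdiff]
          constructor
          · rintro (h | h)
            · exact h.1
            · exact absurd (hS' (Finset.mem_of_mem_erase (hT h))) heS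
          · intro h
            exact Or.inl ⟨h, fun h' => heS (hS' h')⟩
        rcases hF.2 with h | h
        · exact main S (Finset.Subset.refl _) hxS h
        · exact main (S.erase (og (2 * m) (by omega))) (Finset.erase_subset _ _)
            (Finset.mem_erase.2 ⟨hxo, hxS⟩) h
      · have e1 := pr_im (M := 2 * m) p (fun F => A4a (x.1.1, x.1.2.1) r D (↑F : Set Edg))
        rw [e1]
        have e2 : Pr (fun _ => p) (boxE (2 * m)) (fun F => A4a (x.1.1, x.1.2.1) r D (↑F : Set Edg)) ≤
            hQ p r D := le_hQ ok (blk_box hb)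
        have e3 := h1 p p0 hp1 r D hr hrD
        refine e2.trans (e3.trans (mul_le_mul_of_nonneg_right (le_max_left _ _) (by positivity)))
    · refine ⟨fun _ => False, fun _ _ _ => Iff.rfl, ?_, ?_⟩
      · intro S F hoS hxS _ hfar hF
        apply hx
        refine ⟨hF.1 x hxS, ?_⟩
        have h3 : eds (og (2 * m) (by omega)).1 x.1 = eds x.1 (0, 0, true) := eds_comm _ _
        rw [← h3]
        exact hfar
      · rw [pr_false]
        have : 0 ≤ max C1 C2 := le_trans (by linarith) (le_max_left _ _)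
        positivity
  · -- one arm
    intro r D hr hrD hDm
    have vr := va_pos hp r
    have vD := va_pos hp D
    refine ⟨fun F => X1 r D (↑(im F) : Set Edg), ?_, ?_, ?_⟩
    · intro F F' hFF
      exact X1_congr (im_ann (x := (0, 0, true)) hFF)
    · intro S F hoS hgap hF
      have main : ∀ S' : Finset (EM (2 * m)), S' ⊆ S → Dl (fa (2 * m)) S' F ≠ 0 →
          X1 r D (↑(im F) : Set Edg) := by
        intro S' hS' hne
        obtain ⟨T, hT, harm⟩ := Dl_arm hne
        have h4 := X1_of_arm harm hrD (by omega)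
        refine (X1_congr (im_ann (x := (0, 0, true)) ?_)).1 h4
        intro e he1 he2
        have heS : e ∉ S := by
          intro h
          have h5 := hgap e h
          have h6 : eds e.1 (og (2 * m) (by omega)).1 = eds e.1 (0, 0, true) := rfl
          rw [h6] at h5
          omega
        rw [Finset.mem_union, Finset.mem_sdiff]
        constructor
        · rintro (h | h)
          · exact h.1
          · exact absurd (hS' (hT h)) heS
        · intro h
          exact Or.inl ⟨h, fun h' => heS (hS' h')⟩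
      rcases hF.2 with h | h
      · exact main S (Finset.Subset.refl _) h
      · exact main (S.erase (og (2 * m) (by omega))) (Finset.erase_subset _ _) h
    · have e1 := pr_im (M := 2 * m) p (fun F => X1 r D (↑F : Set Edg))
      rw [e1]
      refine (h2 p hp hp1 r D (2 * m) hr hrD (by omega)).trans ?_
      exact mul_le_mul_of_nonneg_right (le_max_right _ _) (by positivity)

/-- The bound for one set. -/
theorem one_set : ∃ a : ℝ, 1 ≤ a ∧ ∀ p : ℝ, 1/2 < p → p ≤ 1 → ∀ (m : ℕ) (hm : 1 ≤ m)
    (S : Finset (EM (2 * m))), og (2 * m) (by omega) ∈ S →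
    (∀ y ∈ S, eds y.1 (0, 0, true) ≤ m) →
    ∃ (par : EM (2 * m) → EM (2 * m)) (rk : EM (2 * m) → ℕ),
      (∀ y ∈ S, y ≠ og (2 * m) (by omega) → par y ∈ S ∧ rk (par y) < rk y) ∧
      Pr (fun _ => p) Finset.univ (Dsf (2 * m) m (og (2 * m) (by omega)) S) ≤
        a ^ (4 * S.card) * (∏ y ∈ S.erase (og (2 * m) (by omega)),
          psi (wt p) m (eds y.1 (par y).1)) * va p m := by
  obtain ⟨C, hC, h⟩ := ks_arm
  refine ⟨C * Pool.Agent.NH39.W.WW ^ 2, by nlinarith [one_le_pow₀ WW_one (n := 2)], ?_⟩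
  intro p hp hp1 m hm S hoS hS
  exact K1.key (h p hp hp1 m hm) hoS hS

end Pool.Agent.H953
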