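import Pool.Agent.H953.Pl4
import Pool.Graph.R_seed8.H974R2.FinalFin
import Pool.Graph.R_seed8.H31R3.Kes.Decay

/-!
Derivatives of all orders of the one-arm probability.
-/

set_option autoImplicit false
set_option maxHeartbeats 1000000

namespace Pool.Agent.H953

open H974 H12S H389NS Finset
open Pool.Agent.NH39.W (Dl psi dm wt Dl_split der dl_bound_h76)

/-- Forcing the configuration on `G` costs at most a factor `δ` per element. -/
theorem force {E : Type} [DecidableEq E] {p δ : ℝ} (hδ : 0 ≤ δ) (h1 : δ ≤ p) (h2 : δ ≤ 1 - p)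
    (G : Finset E) : ∀ (S : Finset E) (T : Finset E) (g : Finset E → ℝ), G ⊆ S → T ⊆ G →
    (∀ F, 0 ≤ g F) →
    δ ^ G.card * Ex (fun _ => p) S (fun F => g ((F \ G) ∪ T)) ≤ Ex (fun _ => p) S g := by
  have ok : Ok (fun _ : E => p) := fun _ => ⟨by linarith, by linarith⟩
  induction G using Finset.induction_on with
  | empty =>
    intro S T g _ hT _
    rw [Finset.subset_empty] at hT
    subst hT
    simp
  | insert a G ha ih =>
    intro S T g hGS hTG hg
    have haS : a ∈ S := hGS (Finset.mem_insert_self _ _)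
    obtain ⟨S', hS'⟩ : ∃ S', S' = S.erase a := ⟨_, rfl⟩
    have haS' : a ∉ S' := by rw [hS']; simp
    have hS : S = insert a S' := by rw [hS', Finset.insert_erase haS]
    have hGS' : G ⊆ S' := by
      rw [hS']
      intro x hx
      rw [Finset.mem_erase]
      exact ⟨fun h => ha (h ▸ hx), hGS (Finset.mem_insert_of_mem hx)⟩
    rw [hS, Ex_insert _ haS', Ex_insert _ haS', Finset.card_insert_of_notMem ha]
    -- the left side does not depend on `a`
    have e1 : Ex (fun _ => p) S' (fun F => g ((insert a F \ insert a G) ∪ T)) =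
        Ex (fun _ => p) S' (fun F => g ((F \ G) ∪ T)) := by
      apply Ex_congr
      intro F hF
      congr 2
      ext x
      simp only [Finset.mem_sdiff, Finset.mem_insert]
      constructor
      · rintro ⟨h3 | h3, h4⟩
        · exact absurd (Or.inl h3) h4
        · exact ⟨h3, fun h => h4 (Or.inr h)⟩
      · rintro ⟨h3, h4⟩
        refine ⟨Or.inr h3, ?_⟩
        rintro (h5 | h5)
        · exact haS' (h5 ▸ hF h3)
        · exact h4 h5
    have e2 : Ex (fun _ => p) S' (fun F => g ((F \ insert a G) ∪ T)) =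
        Ex (fun _ => p) S' (fun F => g ((F \ G) ∪ T)) := by
      apply Ex_congr
      intro F hF
      congr 2
      ext x
      simp only [Finset.mem_sdiff, Finset.mem_insert]
      constructor
      · rintro ⟨h3, h4⟩
        exact ⟨h3, fun h => h4 (Or.inr h)⟩
      · rintro ⟨h3, h4⟩
        refine ⟨h3, ?_⟩
        rintro (h5 | h5)
        · exact haS' (h5 ▸ hF h3)
        · exact h4 h5
    rw [e1, e2]
    have e3 : p * Ex (fun _ => p) S' (fun F => g ((F \ G) ∪ T)) +
        (1 - p) * Ex (fun _ => p) S' (fun F => g ((F \ G) ∪ T)) =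
        Ex (fun _ => p) S' (fun F => g ((F \ G) ∪ T)) := by ring
    rw [e3]
    have n1 : 0 ≤ Ex (fun _ => p) S' (fun F => g (insert a F)) := Ex_nonneg ok (fun F _ => hg _)
    have n2 : 0 ≤ Ex (fun _ => p) S' g := Ex_nonneg ok (fun F _ => hg _)
    have hδG : 0 ≤ δ ^ G.card := by positivity
    by_cases haT : a ∈ T
    · have h3 := ih S' (T.erase a) (fun F => g (insert a F)) hGS' (by
        intro x hx
        rw [Finset.mem_erase] at hx
        have := hTG hx.2
        rw [Finset.mem_insert] at this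
        exact this.resolve_left hx.1) (fun F => hg _)
      have e4 : Ex (fun _ => p) S' (fun F => g (insert a ((F \ G) ∪ T.erase a))) =
          Ex (fun _ => p) S' (fun F => g ((F \ G) ∪ T)) := by
        apply Ex_congr
        intro F _
        congr 1
        rw [← Finset.union_insert, Finset.insert_erase haT]
      rw [e4] at h3
      calc δ ^ (G.card + 1) * Ex (fun _ => p) S' (fun F => g ((F \ G) ∪ T))
          = δ * (δ ^ G.card * Ex (fun _ => p) S' (fun F => g ((F \ G) ∪ T))) := by
            rw [pow_succ]; ring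
        _ ≤ δ * Ex (fun _ => p) S' (fun F => g (insert a F)) := mul_le_mul_of_nonneg_left h3 hδ
        _ ≤ p * Ex (fun _ => p) S' (fun F => g (insert a F)) := mul_le_mul_of_nonneg_right h1 n1
        _ ≤ _ := by
            have : 0 ≤ (1 - p) * Ex (fun _ => p) S' g := mul_nonneg (by linarith) n2
            linarith
    · have h3 := ih S' T g hGS' (by
        intro x hx
        have := hTG hx
        rw [Finset.mem_insert] at this
        exact this.resolve_left (fun h => haT (h ▸ hx))) hg
      calc δ ^ (G.card + 1) * Ex (fun _ => p) S' (fun F => g ((F \ G) ∪ T))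
          = δ * (δ ^ G.card * Ex (fun _ => p) S' (fun F => g ((F \ G) ∪ T))) := by
            rw [pow_succ]; ring
        _ ≤ δ * Ex (fun _ => p) S' g := mul_le_mul_of_nonneg_left h3 hδ
        _ ≤ (1 - p) * Ex (fun _ => p) S' g := mul_le_mul_of_nonneg_right h2 n2
        _ ≤ _ := by
            have : 0 ≤ p * Ex (fun _ => p) S' (fun F => g (insert a F)) :=
              mul_nonneg (by linarith) n1
            linarith

/-- The mean mixed difference of an event. -/
theorem Dl_crude {E : Type} [DecidableEq E] {p δ : ℝ} (hδ : 0 < δ) (h1 : δ ≤ p) (h2 : δ ≤ 1 - p)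
    (S G : Finset E) (hG : G ⊆ S) (g : Finset E → ℝ) (hg : ∀ F, 0 ≤ g F) :
    |Ex (fun _ => p) S (Dl g G)| ≤ (2 / δ) ^ G.card * Ex (fun _ => p) S g := by
  have ok : Ok (fun _ : E => p) := fun _ => ⟨by linarith, by linarith⟩
  have e1 : Ex (fun _ => p) S (Dl g G) = ∑ T ∈ G.powerset,
      (-1 : ℝ) ^ (G \ T).card * Ex (fun _ => p) S (fun F => g ((F \ G) ∪ T)) := by
    have : Dl g G = fun F => ∑ T ∈ G.powerset, (-1 : ℝ) ^ (G \ T).card * g ((F \ G) ∪ T) := by
      funext F
      rfl
    rw [this, Ex_sum]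
    apply Finset.sum_congr rfl
    intro T _
    rw [Ex_mul_left]
  rw [e1]
  refine (Finset.abs_sum_le_sum_abs _ _).trans ?_
  have e2 : ∀ T ∈ G.powerset, |(-1 : ℝ) ^ (G \ T).card * Ex (fun _ => p) S
      (fun F => g ((F \ G) ∪ T))| ≤ (1 / δ) ^ G.card * Ex (fun _ => p) S g := by
    intro T hT
    have h3 := force hδ.le h1 h2 G S T g hG (Finset.mem_powerset.1 hT) hg
    have n1 : 0 ≤ Ex (fun _ => p) S (fun F => g ((F \ G) ∪ T)) := Ex_nonneg ok (fun F _ => hg _)
    rw [abs_mul, abs_pow, abs_neg, abs_one, one_pow, one_mul, abs_of_nonneg n1]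
    rw [one_div, inv_pow, ← div_eq_inv_mul, le_div_iff₀ (by positivity)]
    linarith
  refine (Finset.sum_le_sum e2).trans (le_of_eq ?_)
  rw [Finset.sum_const, Finset.card_powerset, nsmul_eq_mul]
  push_cast
  rw [div_pow, div_pow, one_pow]
  ring

/-- A function which does not look at an element of `G` has no mixed difference in `G`. -/
theorem Dl_indep {E : Type} [DecidableEq E] {G : Finset E} {x : E} (hx : x ∈ G)
    (g : Finset E → ℝ) (h : ∀ F, g (insert x F) = g F) (F : Finset E) : Dl g G F = 0 := by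
  rw [Dl_split hx]
  apply Finset.sum_eq_zero
  intro T _
  rw [h, sub_self, mul_zero]

theorem Dl_add {E : Type} [DecidableEq E] (G : Finset E) (g1 g2 : Finset E → ℝ) (F : Finset E) :
    Dl (fun F => g1 F + g2 F) G F = Dl g1 G F + Dl g2 G F := by
  unfold Dl
  rw [← Finset.sum_add_distrib]
  apply Finset.sum_congr rfl
  intros; ring

/-- The inner one-arm event. -/
noncomputable def fi (m : ℕ) (F : Finset (EM (2 * m))) : ℝ := ind (Arm m (im F))

/-- The difference. -/
noncomputable def fd (m : ℕ) (F : Finset (EM (2 * m))) : ℝ :=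
  ind (Arm m (im F) ∧ ¬ Arm (2 * m) (im F))

theorem arm_down {r n : ℕ} (hr : r ≤ n) {F : Finset Edg} (h : Arm n F) : Arm r F := by
  obtain ⟨w, hw, h⟩ := h
  have hr' : (r:ℤ) ≤ n := by exact_mod_cast hr
  obtain ⟨z, k1, k2, k3⟩ := first_exit (a := -r) (b := r) (c := -r) (d := r)
    (by unfold inR; simp) h (by unfold onB at hw; omega)
  refine ⟨z, ⟨k1, k2⟩, k3.mono ?_⟩
  rintro g ⟨⟨k4, -⟩, k5⟩
  exact ⟨k4, k5⟩

theorem fi_eq (m : ℕ) (F : Finset (EM (2 * m))) : fi m F = fa (2 * m) F + fd m F := by
  unfold fi fa fd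
  by_cases h1 : Arm m (im F)
  · by_cases h2 : Arm (2 * m) (im F)
    · rw [ind_of h1, ind_of h2, ind_not_of (fun h => h.2 h2)]; ring
    · rw [ind_of h1, ind_not_of h2, ind_of ⟨h1, h2⟩]; ring
  · have h2 : ¬ Arm (2 * m) (im F) := fun h => h1 (arm_down (by omega) h)
    rw [ind_not_of h1, ind_not_of h2, ind_not_of (fun h => h1 h.1)]; ring

theorem arm_eq_Ex (m : ℕ) (q : ℝ) : arm q m = Ex (fun _ : EM (2 * m) => q) Finset.univ (fi m) := by
  have h1 := pr_im (M := 2 * m) q (Arm m)
  rw [pr_Arm q (boxE_mono (by omega : m ≤ 2 * m))] at h1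
  exact h1.symm

/-- The derivatives of the one-arm probability. -/
theorem der_bound : ∃ C : ℝ, 1 ≤ C ∧ ∀ p : ℝ, 1/2 < p → p < 1 → ∀ m : ℕ, 1 ≤ m →
    ∀ k : ℕ, 1 ≤ k → |iteratedDeriv k (fun q => arm q m) p| ≤ k.factorial *
      (C ^ k * (((p - 1/2)⁻¹) ^ k * va p m) +
        (64 * (m:ℝ) ^ 2 / (1 - p)) ^ k * (arm p m - arm p (2 * m))) := by
  classical
  obtain ⟨C, hC, hsum⟩ := sumG
  refine ⟨2 * C, by linarith, ?_⟩
  intro p hp hp1 m hm k hk
  have p0 : 0 ≤ p := by linarith
  have oko : Ok (fun _ : EM (2 * m) => p) := fun _ => ⟨p0, hp1.le⟩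
  have e1 : (fun q => arm q m) = fun q => Ex (fun _ : EM (2 * m) => q) Finset.univ (fi m) := by
    funext q; exact arm_eq_Ex m q
  rw [e1, der (EM (2 * m)) Finset.univ (fi m) p k, abs_mul, Nat.abs_cast]
  apply mul_le_mul_of_nonneg_left _ (by positivity)
  -- restriction to the inner sets
  obtain ⟨Vm, hVm⟩ : ∃ Vm : Finset (EM (2 * m)), Vm = Finset.univ.filter (fun y => y.1 ∈ boxE m) :=
    ⟨_, rfl⟩
  have hVsub : Vm ⊆ Vi m := by
    intro y hy
    rw [hVm, Finset.mem_filter] at hy
    rw [mem_Vi]
    obtain ⟨⟨y1, y2, bb⟩, hyb⟩ := y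
    have h3 := hy.2
    unfold boxE at h3
    unfold eds
    cases bb
    · rw [mem_RE_false] at h3
      simp only
      omega
    · rw [mem_RE_true] at h3
      simp only
      omega
  have hVcard : (Vm.card : ℝ) ≤ 32 * (m:ℝ) ^ 2 := by
    have h3 : Vm.card ≤ (boxE m).card := by
      have h4 : (Vm.map (Function.Embedding.subtype _)) ⊆ boxE m := by
        intro e he
        rw [Finset.mem_map] at he
        obtain ⟨y, hy, rfl⟩ := he
        rw [hVm, Finset.mem_filter] at hy
        exact hy.2
      have h5 := Finset.card_le_card h4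
      rwa [Finset.card_map] at h5
    have h6 : (boxE m).card ≤ 2 * (2 * m + 1) ^ 2 := by
      have h7 : boxE m ⊆ (Finset.Icc (-(m:ℤ)) m) ×ˢ ((Finset.Icc (-(m:ℤ)) m) ×ˢ
          (Finset.univ : Finset Bool)) := by
        rintro ⟨x, y, bb⟩ he
        unfold boxE at he
        rw [Finset.mem_product, Finset.mem_product, Finset.mem_Icc, Finset.mem_Icc]
        cases bb
        · rw [mem_RE_false] at he
          simp only [Finset.mem_univ, and_true]
          omega
        · rw [mem_RE_true] at he
          simp only [Finset.mem_univ, and_true]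
          omega
      refine (Finset.card_le_card h7).trans (le_of_eq ?_)
      rw [Finset.card_product, Finset.card_product, Int.card_Icc, Finset.card_univ,
        Fintype.card_bool]
      have : ((m:ℤ) + 1 - -(m:ℤ)).toNat = 2 * m + 1 := by omega
      rw [this]
      ring
    have h8 : (Vm.card : ℝ) ≤ ((2 * (2 * m + 1) ^ 2 : ℕ) : ℝ) := by exact_mod_cast h3.trans h6
    push_cast at h8
    have hm1 : (1:ℝ) ≤ m := by exact_mod_cast hm
    nlinarith
  have hrestrict : ∑ G ∈ (Finset.univ : Finset (EM (2 * m))).powersetCard k,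
      Ex (fun _ => p) Finset.univ (Dl (fi m) G) =
      ∑ G ∈ Vm.powersetCard k, Ex (fun _ => p) Finset.univ (Dl (fi m) G) := by
    symm
    apply Finset.sum_subset
    · intro G hG
      rw [Finset.mem_powersetCard] at hG ⊢
      exact ⟨Finset.subset_univ _, hG.2⟩
    · intro G hG hG'
      rw [Finset.mem_powersetCard] at hG hG'
      have h3 : ¬ G ⊆ Vm := fun h => hG' ⟨h, hG.2⟩
      rw [Finset.not_subset] at h3
      obtain ⟨x, hx, hxV⟩ := h3
      have h4 : ∀ F, Dl (fi m) G F = 0 := by
        intro F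
        apply Dl_indep hx
        intro F
        unfold fi
        apply ind_congr
        rw [im_insert]
        have hxb : x.1 ∉ boxE m := by
          intro h
          apply hxV
          rw [hVm, Finset.mem_filter]
          exact ⟨Finset.mem_univ _, h⟩
        rw [Arm_local (F := insert x.1 (im F)) (Finset.Subset.refl _),
          Arm_local (F := im F) (Finset.Subset.refl _), Finset.insert_inter_of_notMem hxb]
      rw [Ex_congr (g := fun _ => 0) (fun F _ => h4 F), Ex_const]
  rw [hrestrict]
  refine (Finset.abs_sum_le_sum_abs _ _).trans ?_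
  -- one set
  obtain ⟨A, hA⟩ : ∃ A : ℝ, A = arm p m - arm p (2 * m) := ⟨_, rfl⟩
  have hAE : Ex (fun _ : EM (2 * m) => p) Finset.univ (fd m) = A := by
    have h3 : Ex (fun _ : EM (2 * m) => p) Finset.univ (fi m) =
        Ex (fun _ : EM (2 * m) => p) Finset.univ (fa (2 * m)) +
          Ex (fun _ : EM (2 * m) => p) Finset.univ (fd m) := by
      rw [← Ex_add]
      exact Ex_congr (fun F _ => fi_eq m F)
    rw [← arm_eq_Ex] at h3
    have h4 : Ex (fun _ : EM (2 * m) => p) Finset.univ (fa (2 * m)) = arm p (2 * m) :=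
      pr_im (M := 2 * m) p (Arm (2 * m))
    rw [h4] at h3
    rw [hA]
    linarith
  have hone : ∀ G ∈ Vm.powersetCard k, |Ex (fun _ => p) Finset.univ (Dl (fi m) G)| ≤
      2 ^ k * Pr (fun _ => p) Finset.univ (fun F => Dl (fa (2 * m)) G F ≠ 0) +
        (2 / (1 - p)) ^ k * A := by
    intro G hG
    rw [Finset.mem_powersetCard] at hG
    have h3 : Ex (fun _ : EM (2 * m) => p) Finset.univ (Dl (fi m) G) =
        Ex (fun _ => p) Finset.univ (Dl (fa (2 * m)) G) + Ex (fun _ => p) Finset.univ (Dl (fd m) G) := by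
      rw [← Ex_add]
      apply Ex_congr
      intro F _
      rw [← Dl_add]
      congr 1
      funext F
      exact fi_eq m F
    rw [h3]
    refine (abs_add_le _ _).trans (add_le_add ?_ ?_)
    · have hGne : G.Nonempty := by
        rw [← Finset.card_pos, hG.2]; omega
      have h4 : ∀ F, |Dl (fa (2 * m)) G F| ≤ 2 ^ k * ind (Dl (fa (2 * m)) G F ≠ 0) := by
        intro F
        by_cases h5 : Dl (fa (2 * m)) G F = 0
        · rw [h5, abs_zero]
          exact mul_nonneg (by positivity) (ind_nonneg _)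
        · rw [ind_of h5, mul_one, ← hG.2]
          apply dl_bound_h76 _ _ G F hGne
          intro e F
          unfold fa
          have b1 := ind_nonneg (Arm (2 * m) (im (insert e F)))
          have b2 := ind_nonneg (Arm (2 * m) (im F))
          have b3 := ind_le_one (Arm (2 * m) (im (insert e F)))
          have b4 := ind_le_one (Arm (2 * m) (im F))
          rw [abs_le]
          constructor <;> linarith
      have h5 : |Ex (fun _ => p) Finset.univ (Dl (fa (2 * m)) G)| ≤
          Ex (fun _ => p) Finset.univ (fun F => 2 ^ k * ind (Dl (fa (2 * m)) G F ≠ 0)) := by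
        rw [abs_le]
        constructor
        · rw [← sub_nonneg, sub_neg_eq_add, ← Ex_add]
          apply Ex_nonneg oko
          intro F _
          have := (abs_le.1 (h4 F)).1
          linarith
        · exact Ex_mono oko (fun F _ => (le_abs_self _).trans (h4 F))
      rw [Ex_mul_left] at h5
      exact h5
    · have h4 := Dl_crude (p := p) (δ := 1 - p) (by linarith) (by linarith) le_rfl Finset.univ G
        (Finset.subset_univ _) (fd m) (fun F => ind_nonneg _)
      rw [hG.2, hAE] at h4
      exact h4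
  refine (Finset.sum_le_sum hone).trans ?_
  rw [Finset.sum_add_distrib, ← Finset.mul_sum, Finset.sum_const, nsmul_eq_mul, ← hA]
  have hA0 : 0 ≤ A := by
    rw [← hAE]
    exact Ex_nonneg oko (fun F _ => ind_nonneg _)
  apply add_le_add
  · have h3 : ∑ G ∈ Vm.powersetCard k,
        Pr (fun _ => p) Finset.univ (fun F => Dl (fa (2 * m)) G F ≠ 0) ≤
        ∑ G ∈ (Vi m).powersetCard k,
        Pr (fun _ => p) Finset.univ (fun F => Dl (fa (2 * m)) G F ≠ 0) := by
      apply Finset.sum_le_sum_of_subset_of_nonneg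
      · exact Finset.powersetCard_mono hVsub
      · intro G _ _
        exact Pr_nonneg oko _ _
    have h4 := h3.trans (hsum p hp hp1.le m hm k hk)
    calc 2 ^ k * _ ≤ 2 ^ k * (C ^ k * (((p - 1/2)⁻¹) ^ k * va p m)) :=
          mul_le_mul_of_nonneg_left h4 (by positivity)
      _ = _ := by rw [mul_pow 2 C]; ring
  · have h3 : (((Vm.powersetCard k).card : ℕ) : ℝ) ≤ (32 * (m:ℝ) ^ 2) ^ k := by
      rw [Finset.card_powersetCard]
      have h4 : (Vm.card.choose k : ℝ) ≤ (Vm.card : ℝ) ^ k := by
        exact_mod_cast Nat.choose_le_pow _ _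
      exact h4.trans (pow_le_pow_left₀ (by positivity) hVcard k)
    have hp1' : 0 < 1 - p := by linarith
    calc _ ≤ (32 * (m:ℝ) ^ 2) ^ k * ((2 / (1 - p)) ^ k * A) :=
          mul_le_mul_of_nonneg_right h3 (by positivity)
      _ = _ := by
          rw [← mul_assoc, ← mul_pow]
          congr 2
          ring

end Pool.Agent.H953
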