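import Pool.Agent.H953.Pl5
import Pool.Graph.R_pool_sql_team_seeded_3dad9d7b.NH39.W.Lim
import Pool.Graph.R_seed8.Y554.NC.Theta

/-!
Smoothness of the percolation probability above the critical point, and the bounds for its
derivatives.
-/

set_option autoImplicit false
set_option maxHeartbeats 1000000

namespace Pool.Agent.H953

open H974 H12S H389NS Finset Filter Topology
open scoped ContDiff

/-- The percolation probability as a function on the reals. -/
noncomputable def th (p : ℝ) : ℝ := theta (Set.projIcc 0 1 zero_le_one p)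

theorem th_eq (p : unitInterval) : th p = theta p := by
  unfold th
  rw [Set.projIcc_val]

/-- The increments of the one-arm probabilities. -/
theorem arm_diff {p : ℝ} (h0 : 0 ≤ p) (h1 : p ≤ 1) {N : ℕ} (hN : 2 ≤ N) :
    arm p (2 * N) - arm p (2 * (2 * N)) ≤ 21 * eps p N + eps p (2 * N) := by
  have ok := okq h0 h1
  obtain ⟨S, hS⟩ : ∃ S, S = boxE (2 * (2^1 * N)) := ⟨_, rfl⟩
  have hb0 : boxE (2 * N) ⊆ S := by rw [hS]; exact boxE_mono (by omega)
  have hb1 : boxE (2 * (2^0 * N)) ⊆ S := by rw [hS]; exact boxE_mono (by omega)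
  have e1 := pr_Arm p hb0
  have e2 := pr_circ_ge h0 h1 hN hb0
  have e3 := pr_step (p := p) (N := N) (j := 0) hb1
  have e4 := pr_step (p := p) (N := N) (j := 1) (S := S) (by rw [hS])
  have i1 := Pr_and_ge ok S (Arm (2 * N)) (Circ N (2 * N : ℕ))
  have i2 := Pr_and_ge ok S (Step N 0) (Step N 1)
  have i3 := Pr_and_ge ok S (fun F => Arm (2 * N) F ∧ Circ N (2 * N : ℕ) F)
    (fun F => Step N 0 F ∧ Step N 1 F)
  have i4 : Pr (fun _ => p) S (fun F => (Arm (2 * N) F ∧ Circ N (2 * N : ℕ) F) ∧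
      (Step N 0 F ∧ Step N 1 F)) ≤ arm p (2 * (2^1 * N)) := by
    unfold arm
    rw [← hS]
    apply Pr_mono ok
    rintro F _ ⟨⟨k1, k2⟩, k3, k4⟩
    refine arm_of_chain hN 1 k1 k2 ?_
    intro j hj
    have : j = 0 ∨ j = 1 := by omega
    rcases this with h | h
    · rw [h]; exact k3
    · rw [h]; exact k4
  have h5 : 2 * (2^1 * N) = 2 * (2 * N) := by ring
  have h6 : 2^0 * N = N := by ring
  have h7 : 2^1 * N = 2 * N := by ring
  rw [h6] at e3
  rw [h7] at e4 i4
  have e4' : Pr (fun _ => p) S (Step N 1) = 1 - eps p (2 * N) := e4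
  linarith

/-- The increments along dyadic scales. -/
theorem arm_diff_far {p : ℝ} (h0 : 0 ≤ p) (h1 : p ≤ 1) {N : ℕ} (hN : 2 ≤ N)
    (he : eps p N ≤ 1/100) (j : ℕ) :
    arm p (2 * (2^j * N)) - arm p (2 * (2 * (2^j * N))) ≤ (1/4)^(2^j) := by
  have h2 : 2 ≤ 2^j * N := by
    calc 2 ≤ N := hN
      _ ≤ 2^j * N := Nat.le_mul_of_pos_left _ (by positivity)
  have h3 := arm_diff h0 h1 h2
  have h4 := H31K.eps_pow2 h0 h1 hN he j
  have h5 := H31K.eps_pow2 h0 h1 hN he (j + 1)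
  have h6 : 2^(j+1) * N = 2 * (2^j * N) := by rw [pow_succ]; ring
  rw [h6] at h5
  have h7 : ((1:ℝ)/4)^(2^(j+1)) ≤ (1/4)^(2^j) := by
    apply pow_le_pow_of_le_one (by norm_num) (by norm_num)
    exact Nat.pow_le_pow_right (by norm_num) (Nat.le_succ j)
  have h8 : (0:ℝ) < (1/4)^(2^j) := by positivity
  linarith

/-- The scale sequence. -/
def ms (N j : ℕ) : ℕ := 2 * (2^j * N)

theorem ms_tendsto {N : ℕ} (hN : 1 ≤ N) : Tendsto (ms N) atTop atTop := by
  apply tendsto_atTop_mono (f := fun j => j)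
  · intro j
    unfold ms
    have h2 : j < 2^j := Nat.lt_two_pow_self
    nlinarith [Nat.zero_le (2^j * N)]
  · exact tendsto_id

/-- The one-arm probabilities converge to the percolation probability. -/
theorem arm_tendsto {p : ℝ} (h0 : 0 ≤ p) (h1 : p ≤ 1) :
    Tendsto (fun n => arm p n) atTop (𝓝 (th p)) := by
  have hanti : Antitone (fun n => arm p n) := fun m n h => arm_anti h0 h1 h
  have hbdd : BddBelow (Set.range (fun n => arm p n)) := ⟨0, by
    rintro x ⟨n, rfl⟩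
    exact arm_nonneg h0 h1 n⟩
  have ht := tendsto_atTop_ciInf hanti hbdd
  obtain ⟨q, hq⟩ : ∃ q : unitInterval, q = ⟨p, h0, h1⟩ := ⟨_, rfl⟩
  have hqp : (q:ℝ) = p := by rw [hq]
  have e : th p = ⨅ n, arm p n := by
    apply le_antisymm
    · apply le_ciInf
      intro n
      rw [← hqp, th_eq]
      exact theta_le_arm q n
    · rw [← hqp, th_eq]
      apply le_theta
      intro n
      rw [hqp]
      exact ciInf_le hbdd n
  rw [e]
  exact ht

/-- The error term tends to zero. -/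
theorem err_tendsto (A : ℝ) (k : ℕ) :
    Tendsto (fun j : ℕ => (A * ((2:ℝ)^j)^2) ^ k * (1/4 : ℝ)^(2^j)) atTop (𝓝 0) := by
  have h1 : Tendsto (fun n : ℕ => (n:ℝ)^(2 * k) * (1/4 : ℝ)^n) atTop (𝓝 0) :=
    tendsto_pow_const_mul_const_pow_of_abs_lt_one (2 * k) (by
      rw [abs_of_pos (by norm_num)]; norm_num)
  have h2 : Tendsto (fun j : ℕ => 2^j) atTop atTop :=
    tendsto_pow_atTop_atTop_of_one_lt (by norm_num : 1 < 2)
  have h3 := (h1.comp h2).const_mul (A ^ k)
  rw [mul_zero] at h3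
  refine h3.congr ?_
  intro j
  simp only [Function.comp]
  push_cast
  rw [mul_pow A, ← pow_mul ((2:ℝ)^j)]
  ring

theorem arm_smooth (m : ℕ) : ContDiff ℝ ∞ (fun q => arm q m) := by
  unfold arm Pr Ex
  apply ContDiff.sum
  intro F _
  apply ContDiff.mul _ contDiff_const
  apply ContDiff.mul
  · apply contDiff_prod
    intro e _
    exact contDiff_id
  · apply contDiff_prod
    intro e _
    exact contDiff_const.sub contDiff_id

/-- The percolation probability is smooth above the critical point, its derivatives are the limits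
of the derivatives of the one-arm probabilities, and they satisfy the bounds of the scaling
theory. -/
theorem th_smooth : ∃ C : ℝ, 1 ≤ C ∧ ∀ p : ℝ, 1/2 < p → p < 1 →
    ContDiffAt ℝ ∞ th p ∧
    (∀ k : ℕ, 1 ≤ k → |iteratedDeriv k th p| ≤
      C ^ k * k.factorial * (p - 1/2) ^ ((5:ℝ)/36 - k)) ∧
    ∃ N : ℕ, 1 ≤ N ∧ ∀ k : ℕ, Tendsto (fun j => iteratedDeriv k (fun q => arm q (ms N j)) p) atTop
      (𝓝 (iteratedDeriv k th p)) := by
  obtain ⟨C, hC, hb⟩ := der_bound
  obtain ⟨E, hE, hfar⟩ := Pool.Agent.W424.NC.farS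
  refine ⟨C, hC, ?_⟩
  intro p hp hp1
  obtain ⟨a, ha⟩ : ∃ a, a = (p + 1/2) / 2 := ⟨_, rfl⟩
  obtain ⟨b, hb'⟩ : ∃ b, b = (p + 1) / 2 := ⟨_, rfl⟩
  have ha1 : 1/2 < a := by rw [ha]; linarith
  have hap : a < p := by rw [ha]; linarith
  have hpb : p < b := by rw [hb']; linarith
  have hb1 : b < 1 := by rw [hb']; linarith
  have hab : a < b := by linarith
  obtain ⟨N, hN2, hNE⟩ : ∃ N : ℕ, 2 ≤ N ∧ E * (a - 1/2) ^ (-(4/3 : ℝ)) ≤ N := by
    obtain ⟨n, hn⟩ := exists_nat_ge (E * (a - 1/2) ^ (-(4/3 : ℝ)))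
    exact ⟨n + 2, by omega, hn.trans (by push_cast; linarith)⟩
  have heps : ∀ x : ℝ, a < x → x < b → eps x N ≤ 1/100 := by
    intro x hx hx1
    apply hfar x (by linarith) (by linarith)
    refine le_trans ?_ hNE
    apply mul_le_mul_of_nonneg_left _ (by linarith)
    exact Real.rpow_le_rpow_of_nonpos (by linarith) (by linarith) (by norm_num)
  have hms1 : ∀ j, 1 ≤ ms N j := by
    intro j
    unfold ms
    have : 1 ≤ 2^j * N := Nat.le_trans (by omega) (Nat.le_mul_of_pos_left N (by positivity))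
    omega
  obtain ⟨A, hA⟩ : ∃ A : ℝ, A = 256 * (N:ℝ)^2 / (1 - b) := ⟨_, rfl⟩
  have hA0 : 0 ≤ A := by rw [hA]; apply div_nonneg <;> nlinarith
  -- the bound along the sequence
  have key : ∀ k : ℕ, 1 ≤ k → ∀ j : ℕ, ∀ x : ℝ, a < x → x < b →
      |iteratedDeriv k (fun q => arm q (ms N j)) x| ≤ k.factorial *
        (C ^ k * (((x - 1/2)⁻¹) ^ k * va x (ms N j)) +
          (A * ((2:ℝ)^j)^2) ^ k * (1/4 : ℝ)^(2^j)) := by
    intro k hk j x hx hx1
    refine (hb x (by linarith) (by linarith) (ms N j) (hms1 j) k hk).trans ?_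
    apply mul_le_mul_of_nonneg_left _ (by positivity)
    have h1 := arm_diff_far (by linarith : (0:ℝ) ≤ x) (by linarith : x ≤ 1) hN2 (heps x hx hx1) j
    have h2 : 0 ≤ arm x (ms N j) - arm x (2 * ms N j) := by
      have := arm_anti (q := x) (by linarith) (by linarith) (show ms N j ≤ 2 * ms N j by omega)
      linarith
    have h3 : 64 * ((ms N j : ℕ) : ℝ) ^ 2 / (1 - x) ≤ A * ((2:ℝ)^j)^2 := by
      rw [hA]
      unfold ms
      push_cast
      have e1 : 64 * (2 * ((2:ℝ)^j * N))^2 = 256 * (N:ℝ)^2 * ((2:ℝ)^j)^2 := by ring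
      rw [e1, div_mul_eq_mul_div]
      exact div_le_div_of_nonneg_left (by positivity) (by linarith) (by linarith)
    have h4 : 0 ≤ 64 * ((ms N j : ℕ) : ℝ) ^ 2 / (1 - x) := by
      apply div_nonneg (by positivity) (by linarith)
    have h5 : (64 * ((ms N j : ℕ) : ℝ) ^ 2 / (1 - x)) ^ k ≤ (A * ((2:ℝ)^j)^2) ^ k :=
      pow_le_pow_left₀ h4 h3 k
    have h6 : (64 * ((ms N j : ℕ) : ℝ) ^ 2 / (1 - x)) ^ k *
        (arm x (ms N j) - arm x (2 * ms N j)) ≤
        (A * ((2:ℝ)^j)^2) ^ k * (1/4 : ℝ)^(2^j) :=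
      mul_le_mul h5 h1 h2 (by positivity)
    linarith
  -- uniform bounds
  have hM : ∀ k : ℕ, ∃ M : ℝ, ∀ j : ℕ, (A * ((2:ℝ)^j)^2) ^ k * (1/4 : ℝ)^(2^j) ≤ M := by
    intro k
    obtain ⟨M, hM⟩ := (err_tendsto A k).bddAbove_range
    exact ⟨M, fun j => hM ⟨j, rfl⟩⟩
  choose M hM using hM
  obtain ⟨h1, h2⟩ := Pool.Agent.NH39.W.lim (fun j q => arm q (ms N j)) th a b
    (fun k => k.factorial * (C ^ k * (((a - 1/2)⁻¹) ^ k * 1) + M k)) hab
    (fun j => arm_smooth _)
    (fun x hx => (arm_tendsto (by linarith [hx.1]) (by linarith [hx.2])).comp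
      (ms_tendsto (by omega)))
    (by
      intro k hk j x hx
      refine (key k (by omega) j x hx.1 hx.2).trans ?_
      apply mul_le_mul_of_nonneg_left _ (by positivity)
      apply add_le_add _ (hM k j)
      apply mul_le_mul_of_nonneg_left _ (by positivity)
      have hx1 := hx.1
      have hx2 := hx.2
      apply mul_le_mul
      · apply pow_le_pow_left₀ (inv_nonneg.mpr (by linarith))
        exact inv_anti₀ (by linarith) (by linarith)
      · calc va x (ms N j) ≤ va x 1 := va_anti x le_rfl (hms1 j)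
          _ = 1 := va_one (by linarith) (by linarith)
      · exact (va_pos (by linarith) _).le
      · exact pow_nonneg (inv_nonneg.mpr (by linarith)) _)
  refine ⟨h1.contDiffAt (Ioo_mem_nhds hap hpb), ?_, N, by omega, fun k => h2 k p ⟨hap, hpb⟩⟩
  intro k hk
  have hlim := (h2 k p ⟨hap, hpb⟩).abs
  have hva : Tendsto (fun j => va p (ms N j)) atTop (𝓝 ((p - 1/2) ^ (5/36 : ℝ))) := by
    have h3 : Tendsto (fun j => (((ms N j : ℕ) : ℝ)) ^ (-(5/48) : ℝ)) atTop (𝓝 0) := by
      have h4 := tendsto_rpow_neg_atTop (show (0:ℝ) < 5/48 by norm_num)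
      exact h4.comp (tendsto_natCast_atTop_atTop.comp (ms_tendsto (by omega)))
    have h5 : 0 < (p - 1/2) ^ (5/36 : ℝ) := Real.rpow_pos_of_pos (by linarith) _
    have h6 := h3.max (tendsto_const_nhds (x := (p - 1/2) ^ (5/36 : ℝ)))
    rw [max_eq_right h5.le] at h6
    exact h6
  have hbd : Tendsto (fun j : ℕ => (k.factorial : ℝ) *
        (C ^ k * (((p - 1/2)⁻¹) ^ k * va p (ms N j)) +
          (A * ((2:ℝ)^j)^2) ^ k * (1/4 : ℝ)^(2^j))) atTop
      (𝓝 ((k.factorial : ℝ) * (C ^ k * (((p - 1/2)⁻¹) ^ k * (p - 1/2) ^ (5/36 : ℝ)) + 0))) :=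
    (((hva.const_mul _).const_mul _).add (err_tendsto A k)).const_mul _
  have hle := le_of_tendsto_of_tendsto' hlim hbd (fun j => key k hk j p hap hpb)
  refine hle.trans (le_of_eq ?_)
  have hs : 0 < p - 1/2 := by linarith
  rw [Real.rpow_sub hs, Real.rpow_natCast]
  rw [inv_pow]
  ring

end Pool.Agent.H953
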