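import Pool.Graph.R_pool_sql_team_seeded_3dad9d7b.NH39.W.SecA

/-!
Analytic continuation to a sector of a real function with scaling bounds for all its derivatives
(the scheme of `NH39.W.SecA`, on one side of the singular point and for every exponent).
-/

set_option autoImplicit false

namespace Pool.Agent.H953.Sec

open Set Filter Topology
open scoped ContDiff Nat
open Pool.Agent.NH39.W.SecA (co G tay G_diff G_sum norm_sub_re)

/-- the hypotheses -/
structure Hyp (f : ℝ → ℝ) (B C β : ℝ) : Prop where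
  hB : 0 < B
  hC : 1 ≤ C
  smooth : ∀ p : ℝ, 1/2 < p → p < 1 → ContDiffAt ℝ ∞ f p
  high : ∀ p : ℝ, 1/2 < p → p < 1 → ∀ k : ℕ,
    |iteratedDeriv k f p| ≤ B * C ^ k * k.factorial * (p - 1/2) ^ (β - k)

variable {f : ℝ → ℝ} {B C β : ℝ}

theorem co_high (H : Hyp f B C β) {p : ℝ} (h0 : 1/2 < p) (h1 : p < 1) (k : ℕ) :
    |co f p k| ≤ (B * (p - 1/2) ^ β) * (C / (p - 1/2)) ^ k := by
  have hs : 0 < p - 1/2 := by linarith
  have hf : (0 : ℝ) < k ! := by exact_mod_cast Nat.factorial_pos k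
  unfold co
  rw [abs_div, abs_of_pos hf, div_le_iff₀ hf]
  refine (H.high p h0 h1 k).trans (le_of_eq ?_)
  rw [Real.rpow_sub_natCast hs.ne', div_pow]
  field_simp

/-- `G f p` is holomorphic near `p` -/
theorem G_hol (H : Hyp f B C β) {p : ℝ} (h0 : 1/2 < p) (h1 : p < 1) :
    DifferentiableOn ℂ (G f p) (Metric.ball (p : ℂ) ((p - 1/2) / (4 * C))) := by
  have hs : 0 < p - 1/2 := by linarith
  have hC : 0 < C := lt_of_lt_of_le one_pos H.hC
  refine (G_diff (div_pos hC hs) (co_high H h0 h1)).mono (Metric.ball_subset_ball ?_)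
  generalize p - 1/2 = s at hs
  rw [div_le_div_iff₀ (by positivity) (by positivity)]
  field_simp
  norm_num

/-- `G f p` extends `f` -/
theorem G_real (H : Hyp f B C β) {p : ℝ} (h0 : 1/2 < p) (h1 : p < 1) {x : ℝ}
    (hx1 : x < 1) (hx : |x - p| < (p - 1/2) / (4 * C)) : G f p x = f x := by
  have hs : 0 < p - 1/2 := by linarith
  have hC : 0 < C := lt_of_lt_of_le one_pos H.hC
  have hC1 := H.hC
  obtain ⟨s, hsdef⟩ : ∃ s, s = p - 1/2 := ⟨_, rfl⟩
  rw [← hsdef] at hs hx
  have hx4 : |x - p| < s / 4 := by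
    refine lt_of_lt_of_le hx ?_
    rw [div_le_div_iff₀ (by positivity) (by norm_num)]
    nlinarith
  -- the points between
  have hbet : ∀ y ∈ uIcc p x, y < 1 ∧ s / 2 ≤ y - 1/2 := by
    intro y hy
    have hy1 : |y - p| ≤ |x - p| := abs_sub_left_of_mem_uIcc hy
    have hy2 := neg_abs_le (y - p)
    refine ⟨?_, by linarith⟩
    exact lt_of_le_of_lt hy.2 (max_lt h1 hx1)
  -- summability
  have hsum : Summable fun k : ℕ => co f p k * (x - p) ^ k := by
    have h3 := G_sum (z := (x : ℂ)) (div_pos hC (by rw [← hsdef]; exact hs)) (co_high H h0 h1) (by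
      rw [← Complex.ofReal_sub, Complex.norm_real, Real.norm_eq_abs]
      refine hx.le.trans ?_
      rw [← hsdef, div_le_div_iff₀ (by positivity) (by positivity)]
      field_simp
      norm_num)
    rw [← Complex.summable_ofReal]
    refine h3.congr fun k => ?_
    push_cast
    rfl
  obtain ⟨D, hD⟩ : ∃ D : ℝ, D = B * ((s / 2) ^ β + 1) := ⟨_, rfl⟩
  have hD0 : 0 ≤ D := by
    rw [hD]
    have := H.hB
    positivity
  have hpow : ∀ y ∈ uIcc p x, B * (y - 1/2) ^ β ≤ D := by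
    intro y hy
    obtain ⟨hy1, hy2⟩ := hbet y hy
    rw [hD]
    apply mul_le_mul_of_nonneg_left _ H.hB.le
    have hy0 : 0 < y - 1/2 := by linarith
    rcases le_or_gt 0 β with hb | hb
    · have h5 : (y - 1/2) ^ β ≤ 1 := Real.rpow_le_one hy0.le (by linarith) hb
      have h6 : 0 ≤ (s / 2) ^ β := by positivity
      linarith
    · have h5 : (y - 1/2) ^ β ≤ (s / 2) ^ β :=
        Real.rpow_le_rpow_of_nonpos (by positivity) hy2 hb.le
      linarith
  have hlim : Tendsto (fun n => ∑ k ∈ Finset.range (n + 1), co f p k * (x - p) ^ k) atTop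
      (𝓝 (f x)) := by
    by_cases hpx : p = x
    · subst hpx
      have : ∀ n, ∑ k ∈ Finset.range (n + 1), co f p k * (p - p) ^ k = f p := by
        intro n
        rw [Finset.sum_range_succ']
        simp [co]
      simp only [this]
      exact tendsto_const_nhds
    · have hbd : ∀ n : ℕ, |∑ k ∈ Finset.range (n + 1), co f p k * (x - p) ^ k - f x| ≤
          D * (1 / 2) ^ (n + 1) := by
        intro n
        obtain ⟨y, hy, h⟩ := tay hpx (fun y hy => H.smooth y (by linarith [(hbet y hy).2])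
          (hbet y hy).1) n
        have hyI : y ∈ uIcc p x := uIoo_subset_uIcc_self hy
        obtain ⟨hy1, hy2⟩ := hbet y hyI
        rw [abs_sub_comm, h, abs_mul, abs_pow]
        have h3 := co_high H (by linarith : 1/2 < y) hy1 (n + 1)
        have h7 : 0 < y - 1/2 := by linarith
        have h6 : (C / (y - 1/2)) * |x - p| ≤ 1 / 2 := by
          rw [div_mul_eq_mul_div, div_le_iff₀ h7]
          have h8 : |x - p| * (4 * C) < s := (lt_div_iff₀ (by positivity)).1 hx
          nlinarith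
        calc |co f y (n + 1)| * |x - p| ^ (n + 1)
            ≤ ((B * (y - 1/2) ^ β) * (C / (y - 1/2)) ^ (n + 1)) * |x - p| ^ (n + 1) :=
              mul_le_mul_of_nonneg_right h3 (by positivity)
          _ = (B * (y - 1/2) ^ β) * ((C / (y - 1/2)) * |x - p|) ^ (n + 1) := by
              rw [mul_assoc, mul_pow]
          _ ≤ D * (1 / 2) ^ (n + 1) := by
              apply mul_le_mul (hpow y hyI) (pow_le_pow_left₀ (by positivity) h6 _)
                (by positivity) hD0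
      rw [tendsto_iff_norm_sub_tendsto_zero]
      refine squeeze_zero (fun n => norm_nonneg _) hbd ?_
      have h3 : Tendsto (fun n : ℕ => ((1 : ℝ) / 2) ^ (n + 1)) atTop (𝓝 0) :=
        (tendsto_pow_atTop_nhds_zero_of_lt_one (by norm_num) (by norm_num)).comp
          (tendsto_add_atTop_nat 1)
      have h4 := h3.const_mul D
      rwa [mul_zero] at h4
  have hval : ∑' k : ℕ, co f p k * (x - p) ^ k = f x := by
    have h3 := hsum.hasSum.tendsto_sum_nat
    have h4 := h3.comp (tendsto_add_atTop_nat 1)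
    exact tendsto_nhds_unique h4 hlim
  unfold G
  rw [← hval, Complex.ofReal_tsum]
  refine tsum_congr fun k => ?_
  push_cast
  rfl

/-- two series agree -/
theorem G_agree (H : Hyp f B C β) {p q : ℝ} (h0 : 1/2 < p) (h1 : p < 1)
    (g0 : 1/2 < q) (g1 : q < 1) (hpq : |p - q| < (q - 1/2) / (4 * C)) {z : ℂ}
    (hz : z ∈ Metric.ball (p : ℂ) ((p - 1/2) / (4 * C)))
    (hz' : z ∈ Metric.ball (q : ℂ) ((q - 1/2) / (4 * C))) : G f p z = G f q z := by
  have hs : 0 < p - 1/2 := by linarith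
  have hC : 0 < C := lt_of_lt_of_le one_pos H.hC
  set U := Metric.ball (p : ℂ) ((p - 1/2) / (4 * C)) ∩ Metric.ball (q : ℂ) ((q - 1/2) / (4 * C))
    with hU
  have hUo : IsOpen U := Metric.isOpen_ball.inter Metric.isOpen_ball
  have hUc : IsPreconnected U := ((convex_ball _ _).inter (convex_ball _ _)).isPreconnected
  have hpU : (p : ℂ) ∈ U := by
    refine ⟨Metric.mem_ball_self (by positivity), ?_⟩
    rw [Metric.mem_ball, dist_eq_norm, ← Complex.ofReal_sub, Complex.norm_real, Real.norm_eq_abs]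
    exact hpq
  have hA : AnalyticOnNhd ℂ (G f p) U :=
    ((G_hol H h0 h1).mono inter_subset_left).analyticOnNhd hUo
  have hB : AnalyticOnNhd ℂ (G f q) U :=
    ((G_hol H g0 g1).mono inter_subset_right).analyticOnNhd hUo
  refine hA.eqOn_of_preconnected_of_frequently_eq hB hUc hpU ?_ ⟨hz, hz'⟩
  -- frequently equal
  have ht : Tendsto (fun x : ℝ => (x : ℂ)) (𝓝[≠] p) (𝓝[≠] (p : ℂ)) := by
    apply tendsto_nhdsWithin_of_tendsto_nhds_of_eventually_within
    · exact (Complex.continuous_ofReal.tendsto p).mono_left nhdsWithin_le_nhds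
    · filter_upwards [self_mem_nhdsWithin] with x hx
      intro h
      exact hx (Complex.ofReal_injective h)
  refine ht.frequently ?_
  refine Eventually.frequently ?_
  have e1 : ∀ᶠ x : ℝ in 𝓝[≠] p, x < 1 := nhdsWithin_le_nhds (gt_mem_nhds h1)
  have e2 : ∀ᶠ x : ℝ in 𝓝[≠] p, |x - p| < (p - 1/2) / (4 * C) := by
    apply nhdsWithin_le_nhds
    have hc : Continuous fun x : ℝ => |x - p| := by fun_prop
    apply (hc.tendsto p).eventually_lt_const
    rw [sub_self, abs_zero]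
    positivity
  have e3 : ∀ᶠ x : ℝ in 𝓝[≠] p, |x - q| < (q - 1/2) / (4 * C) := by
    apply nhdsWithin_le_nhds
    have hc : Continuous fun x : ℝ => |x - q| := by fun_prop
    exact (hc.tendsto p).eventually_lt_const hpq
  filter_upwards [e1, e2, e3] with x x1 x2 x3
  rw [G_real H h0 h1 x1 x2, G_real H g0 g1 x1 x3]

/-- the sector -/
def sec (c : ℝ) : Set ℂ := {z | |z.im| < c * (z.re - 1/2) ∧ z.re < 1}

/-- the continuation -/
noncomputable def K (f : ℝ → ℝ) (z : ℂ) : ℂ := G f z.re z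

theorem sec_re {c : ℝ} (hc : 0 < c) {z : ℂ} (hz : z ∈ sec c) : 1/2 < z.re := by
  have h1 := hz.1
  have h2 := (abs_nonneg z.im).trans_lt h1
  have := (mul_pos_iff_of_pos_left hc).1 h2
  linarith

theorem K_diff (H : Hyp f B C β) {c : ℝ} (hc : 0 < c) (hcC : c ≤ 1 / (8 * C)) :
    DifferentiableOn ℂ (K f) (sec c) := by
  have hC : 0 < C := lt_of_lt_of_le one_pos H.hC
  intro w hw
  have hw2 := sec_re hc hw
  obtain ⟨hw1, hw4⟩ := hw
  have hs : 0 < w.re - 1/2 := by linarith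
  have hlt : ∀ s : ℝ, 0 < s → c * s < s / (4 * C) := by
    intro s hs
    calc c * s ≤ (1 / (8 * C)) * s := mul_le_mul_of_nonneg_right hcC hs.le
      _ < s / (4 * C) := by
        rw [div_mul_eq_mul_div, one_mul, div_lt_div_iff₀ (by positivity) (by positivity)]
        nlinarith
  have hwb : w ∈ Metric.ball (w.re : ℂ) ((w.re - 1/2) / (4 * C)) := by
    rw [Metric.mem_ball, dist_eq_norm, norm_sub_re]
    exact hw1.trans (hlt _ hs)
  have hd : DifferentiableAt ℂ (G f w.re) w :=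
    (G_hol H hw2 hw4).differentiableAt (Metric.isOpen_ball.mem_nhds hwb)
  refine DifferentiableAt.differentiableWithinAt (hd.congr_of_eventuallyEq ?_)
  have c1 : Continuous fun z : ℂ => |z.im| := by fun_prop
  have c2 : Continuous fun z : ℂ => c * (z.re - 1/2) := by fun_prop
  have c3 : Continuous fun z : ℂ => z.re := Complex.continuous_re
  have e1 : ∀ᶠ z in 𝓝 w, |z.im| < c * (z.re - 1/2) :=
    (isOpen_lt c1 c2).mem_nhds hw1
  have e3 : ∀ᶠ z in 𝓝 w, z.re < 1 := (isOpen_lt c3 continuous_const).mem_nhds hw4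
  have e4 : ∀ᶠ z in 𝓝 w, z ∈ Metric.ball (w.re : ℂ) ((w.re - 1/2) / (4 * C)) :=
    Metric.isOpen_ball.mem_nhds hwb
  have e5 : ∀ᶠ z : ℂ in 𝓝 w, |z.re - w.re| < (w.re - 1/2) / (4 * C) := by
    have hc : Continuous fun z : ℂ => |z.re - w.re| := by fun_prop
    apply (hc.tendsto w).eventually_lt_const
    simp only [sub_self, abs_zero]
    positivity
  filter_upwards [e1, e3, e4, e5] with z z1 z3 z4 z5
  have hz : z ∈ sec c := ⟨z1, z3⟩
  have hz2 := sec_re hc hz
  refine G_agree H hz2 z3 hw2 hw4 z5 ?_ z4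
  rw [Metric.mem_ball, dist_eq_norm, norm_sub_re]
  exact z1.trans (hlt _ (by linarith))

theorem K_real (H : Hyp f B C β) {p : ℝ} (h0 : 1/2 < p) (h1 : p < 1) :
    K f p = f p := by
  have hs : 0 < p - 1/2 := by linarith
  have hC : 0 < C := lt_of_lt_of_le one_pos H.hC
  unfold K
  rw [Complex.ofReal_re]
  apply G_real H h0 h1 h1
  rw [sub_self, abs_zero]
  positivity

/-- in a thin sector the continuation is close to its value at the real part -/
theorem K_bound (H : Hyp f B C β) {c : ℝ} (hc : 0 < c) (hcC : c ≤ 1 / (8 * C)) {z : ℂ}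
    (hz : z ∈ sec c) : ‖K f z - (f z.re : ℂ)‖ ≤ 2 * (B * C * c) * (z.re - 1/2) ^ β := by
  have hC : 0 < C := lt_of_lt_of_le one_pos H.hC
  have hB := H.hB
  have hz2 := sec_re hc hz
  obtain ⟨z1, z3⟩ := hz
  obtain ⟨p, hp⟩ : ∃ p, p = z.re := ⟨_, rfl⟩
  rw [← hp] at z1 z3 hz2 ⊢
  obtain ⟨s, hsdef⟩ : ∃ s, s = p - 1/2 := ⟨_, rfl⟩
  have hs : 0 < s := by rw [hsdef]; linarith
  obtain ⟨u, hu⟩ : ∃ u : ℂ, u = z - p := ⟨_, rfl⟩
  have hun : ‖u‖ ≤ c * s := by
    rw [hu, hp, norm_sub_re, hsdef]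
    exact z1.le
  have hcC2 : C * c ≤ 1/8 := by
    rw [le_div_iff₀ (by positivity)] at hcC
    linarith
  have hun1 : (C / s) * ‖u‖ ≤ C * c := by
    rw [div_mul_eq_mul_div, div_le_iff₀ hs]
    nlinarith
  have hco := co_high H hz2 z3
  rw [← hsdef] at hco
  have hsum : Summable fun k : ℕ => (co f p k : ℂ) * (z - p) ^ k := by
    apply G_sum (div_pos hC hs) hco
    rw [← hu]
    refine hun.trans ?_
    rw [le_div_iff₀ (by positivity)]
    have e : c * s * (2 * (C / s)) = 2 * (C * c) := by field_simp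
    rw [e]
    linarith
  have hsplit : K f z - (f p : ℂ) = ∑' k : ℕ, (co f p (k + 1) : ℂ) * u ^ (k + 1) := by
    unfold K G
    rw [← hp, hsum.tsum_eq_zero_add]
    simp only [co, iteratedDeriv_zero, Nat.factorial, ← hu]
    push_cast
    ring
  rw [hsplit]
  have htail : ‖∑' k : ℕ, (co f p (k + 1) : ℂ) * u ^ (k + 1)‖ ≤ (B * s ^ β * (C * c)) * 2 := by
    refine tsum_of_norm_bounded (g := fun k : ℕ => (B * s ^ β * (C * c)) * (1 / 2) ^ k)
      (hasSum_geometric_two.mul_left _) (fun k => ?_)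
    rw [norm_mul, norm_pow, Complex.norm_real, Real.norm_eq_abs]
    calc |co f p (k + 1)| * ‖u‖ ^ (k + 1) ≤ ((B * s ^ β) * (C / s) ^ (k + 1)) * ‖u‖ ^ (k + 1) :=
          mul_le_mul_of_nonneg_right (hco (k + 1)) (by positivity)
      _ = (B * s ^ β) * ((C / s) * ‖u‖) ^ (k + 1) := by rw [mul_assoc, mul_pow]
      _ ≤ (B * s ^ β) * (C * c) ^ (k + 1) := by
          apply mul_le_mul_of_nonneg_left _ (by positivity)
          exact pow_le_pow_left₀ (by positivity) hun1 _
      _ = (B * s ^ β * (C * c)) * (C * c) ^ k := by rw [pow_succ]; ring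
      _ ≤ (B * s ^ β * (C * c)) * (1 / 2) ^ k := by
          apply mul_le_mul_of_nonneg_left _ (by positivity)
          exact pow_le_pow_left₀ (by positivity) (by linarith) _
  refine htail.trans (le_of_eq ?_)
  rw [hsdef]
  ring

/-- powers of the distance to the vertex of a thin sector -/
theorem sec_pow {c : ℝ} (hc : 0 < c) (hc1 : c ≤ 1) {z : ℂ} (hz : z ∈ sec c) (β : ℝ) :
    (2:ℝ) ^ (-|β|) * ‖z - 1/2‖ ^ β ≤ (z.re - 1/2) ^ β ∧
    (z.re - 1/2) ^ β ≤ (2:ℝ) ^ |β| * ‖z - 1/2‖ ^ β := by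
  have hz2 := sec_re hc hz
  obtain ⟨z1, z3⟩ := hz
  obtain ⟨s, hsdef⟩ : ∃ s, s = z.re - 1/2 := ⟨_, rfl⟩
  have hs : 0 < s := by rw [hsdef]; linarith
  have hre : (z - 1/2).re = s := by
    rw [Complex.sub_re, hsdef]; norm_num
  have him : (z - 1/2).im = z.im := by
    rw [Complex.sub_im]; norm_num
  have h1 : s ≤ ‖z - 1/2‖ := by
    have h3 := Complex.abs_re_le_norm (z - 1/2)
    rw [hre, abs_of_pos hs] at h3
    exact h3
  have h2 : ‖z - 1/2‖ ≤ 2 * s := by
    have h3 := Complex.norm_le_abs_re_add_abs_im (z - 1/2)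
    rw [hre, him, abs_of_pos hs] at h3
    rw [← hsdef] at z1
    nlinarith
  rw [← hsdef]
  obtain ⟨r, hr⟩ : ∃ r, r = ‖z - 1/2‖ := ⟨_, rfl⟩
  rw [← hr] at h1 h2 ⊢
  have hr0 : 0 < r := by linarith
  have h2b : 0 < (2:ℝ) ^ |β| := by positivity
  rcases le_or_gt 0 β with hb | hb
  · rw [abs_of_nonneg hb]
    constructor
    · have h3 : r ^ β ≤ (2 * s) ^ β := Real.rpow_le_rpow hr0.le h2 hb
      rw [Real.mul_rpow (by norm_num) hs.le] at h3
      rw [Real.rpow_neg (by norm_num), inv_mul_le_iff₀ (by positivity)]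
      exact h3
    · have h3 : s ^ β ≤ r ^ β := Real.rpow_le_rpow hs.le h1 hb
      have h4 : (1:ℝ) ≤ 2 ^ β := Real.one_le_rpow (by norm_num) hb
      have h5 : 0 < r ^ β := by positivity
      nlinarith
  · rw [abs_of_neg hb, neg_neg]
    constructor
    · have h3 : r ^ β ≤ s ^ β := Real.rpow_le_rpow_of_nonpos hs h1 hb.le
      have h4 : (2:ℝ) ^ β ≤ 1 := Real.rpow_le_one_of_one_le_of_nonpos (by norm_num) hb.le
      have h5 : 0 < r ^ β := by positivity
      nlinarith
    · have h3 : (2 * s) ^ β ≤ r ^ β := Real.rpow_le_rpow_of_nonpos hr0 h2 hb.le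
      rw [Real.mul_rpow (by norm_num) hs.le] at h3
      rw [Real.rpow_neg (by norm_num), ← div_eq_inv_mul, le_div_iff₀ (by positivity)]
      linarith

/-- the continuation to a thin sector, with bounds on both sides -/
theorem main (H : Hyp f B C β) {b : ℝ} (hb : 0 < b)
    (hlow : ∀ p : ℝ, 1/2 < p → p < 1 → b * (p - 1/2) ^ β ≤ f p) :
    ∃ (c c' C' : ℝ) (K : ℂ → ℂ), 0 < c ∧ 0 < c' ∧ 0 < C' ∧
    DifferentiableOn ℂ K (sec c) ∧
    (∀ p : ℝ, 1/2 < p → p < 1 → K (p : ℂ) = (f p : ℂ)) ∧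
    ∀ z ∈ sec c, c' * ‖z - 1/2‖ ^ β ≤ (K z).re ∧ ‖K z‖ ≤ C' * ‖z - 1/2‖ ^ β := by
  have hC : 0 < C := lt_of_lt_of_le one_pos H.hC
  have hB := H.hB
  obtain ⟨c, hcdef⟩ : ∃ c : ℝ, c = min (1 / (8 * C)) (b / (4 * (B * C))) := ⟨_, rfl⟩
  have hc0 : 0 < c := by rw [hcdef]; exact lt_min (by positivity) (by positivity)
  have hcC : c ≤ 1 / (8 * C) := by rw [hcdef]; exact min_le_left _ _
  have hcb : c ≤ b / (4 * (B * C)) := by rw [hcdef]; exact min_le_right _ _
  have hc1 : c ≤ 1 := by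
    refine hcC.trans ?_
    rw [div_le_one (by positivity)]
    have := H.hC
    linarith
  have hBCc : 2 * (B * C * c) ≤ b / 2 := by
    rw [le_div_iff₀ (by positivity)] at hcb
    linarith
  have h2b : 0 < (2:ℝ) ^ |β| := by positivity
  have h2c : 0 < (2:ℝ) ^ (-|β|) := by positivity
  refine ⟨c, b / 2 * (2:ℝ) ^ (-|β|), (B + b / 2) * (2:ℝ) ^ |β|, K f, hc0, by positivity,
    by positivity, K_diff H hc0 hcC, fun p h0 h1 => K_real H h0 h1, ?_⟩
  intro z hz
  have hz2 := sec_re hc0 hz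
  have hz3 := hz.2
  have k1 := K_bound H hc0 hcC hz
  obtain ⟨k2, k3⟩ := sec_pow hc0 hc1 hz β
  obtain ⟨y, hy⟩ : ∃ y, y = (z.re - 1/2) ^ β := ⟨_, rfl⟩
  have hy0 : 0 < y := by rw [hy]; exact Real.rpow_pos_of_pos (by linarith) _
  rw [← hy] at k1 k2 k3
  have k4 : ‖K f z - (f z.re : ℂ)‖ ≤ b / 2 * y :=
    k1.trans (mul_le_mul_of_nonneg_right hBCc hy0.le)
  have k5 := hlow z.re hz2 hz3
  rw [← hy] at k5
  have k6 : |f z.re| ≤ B * y := by
    have := H.high z.re hz2 hz3 0
    simp only [iteratedDeriv_zero, pow_zero, mul_one, Nat.factorial_zero, Nat.cast_one,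
      Nat.cast_zero, sub_zero] at this
    rw [hy]
    exact this
  constructor
  · have k7 : |(K f z - (f z.re : ℂ)).re| ≤ b / 2 * y := (Complex.abs_re_le_norm _).trans k4
    rw [Complex.sub_re, Complex.ofReal_re] at k7
    have k8 := (abs_le.1 k7).1
    have k9 : b / 2 * ((2:ℝ) ^ (-|β|) * ‖z - 1/2‖ ^ β) ≤ b / 2 * y :=
      mul_le_mul_of_nonneg_left k2 (by positivity)
    linarith
  · have k7 : ‖K f z‖ ≤ ‖K f z - (f z.re : ℂ)‖ + ‖(f z.re : ℂ)‖ := by
      have := norm_add_le (K f z - (f z.re : ℂ)) (f z.re : ℂ)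
      rwa [sub_add_cancel] at this
    rw [Complex.norm_real, Real.norm_eq_abs] at k7
    have k9 : (B + b / 2) * y ≤ (B + b / 2) * ((2:ℝ) ^ |β| * ‖z - 1/2‖ ^ β) :=
      mul_le_mul_of_nonneg_left k3 (by positivity)
    linarith

end Pool.Agent.H953.Sec
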