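import Pool.Agent.H953.Pl3
import Pool.Graph.R_seed8.H31R3.Kes.Decay

/-!
Below the critical point: the weight of the one-arm event, and the crossing of one annulus.
-/

set_option autoImplicit false
set_option maxHeartbeats 1000000

namespace Pool.Agent.H953

open H974 H12S H389NS Finset
open Pool.Agent.NH39 (InB OutB ann_cross A4a_congr)
open Pool.Agent.NH39.W (wt WW_one lam_nonneg lam_le_one)

/-! ### the weight -/

/-- The weight of one arm below the critical point, up to constants. -/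
noncomputable def vb (q : ℝ) (s : ℕ) : ℝ :=
  (s:ℝ) ^ (-(5/48) : ℝ) * ((1 + |q - 1/2| ^ (4/3 : ℝ)) / (1 + |q - 1/2| ^ (4/3 : ℝ) * s)) ^ 2

theorem vb_one (q : ℝ) : vb q 1 = 1 := by
  have := lam_nonneg q
  unfold vb
  rw [Nat.cast_one, Real.one_rpow, mul_one, div_self (by positivity), one_pow, one_mul]

theorem vb_pos (q : ℝ) {r : ℕ} (hr : 1 ≤ r) : 0 < vb q r := by
  have := lam_nonneg q
  have hr0 : (0:ℝ) < r := by exact_mod_cast hr
  unfold vb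
  positivity

theorem vb_anti (q : ℝ) {r s : ℕ} (hr : 1 ≤ r) (hs : r ≤ s) : vb q s ≤ vb q r := by
  have hl := lam_nonneg q
  have hr0 : (0:ℝ) < r := by exact_mod_cast hr
  have hrs : (r:ℝ) ≤ s := by exact_mod_cast hs
  unfold vb
  apply mul_le_mul
  · exact Real.rpow_le_rpow_of_nonpos hr0 hrs (by norm_num)
  · apply pow_le_pow_left₀ (by positivity)
    apply div_le_div_of_nonneg_left (by positivity) (by positivity)
    have := mul_le_mul_of_nonneg_left hrs hl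
    linarith
  · positivity
  · positivity

theorem vb_doub (q : ℝ) {r s : ℕ} (hr : 1 ≤ r) (hs : r ≤ s) (h8 : s ≤ 8 * r) :
    vb q r ≤ Pool.Agent.NH39.W.WW * vb q s := by
  have hl := lam_nonneg q
  obtain ⟨l, hl'⟩ : ∃ l : ℝ, l = |q - 1/2| ^ (4/3 : ℝ) := ⟨_, rfl⟩
  rw [← hl'] at hl
  have hr0 : (0:ℝ) < r := by exact_mod_cast hr
  have hs0 : (0:ℝ) < s := by exact_mod_cast (by omega : 0 < s)
  have hrs : (s:ℝ) ≤ 8 * r := by exact_mod_cast h8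
  unfold vb
  rw [← hl']
  have e1 : (r:ℝ) ^ (-(5/48) : ℝ) ≤ (8:ℝ) ^ (5/48 : ℝ) * (s:ℝ) ^ (-(5/48) : ℝ) := by
    have h1 : ((s:ℝ) / 8) ^ (5/48 : ℝ) ≤ (r:ℝ) ^ (5/48 : ℝ) :=
      Real.rpow_le_rpow (by positivity) (by linarith) (by norm_num)
    rw [Real.div_rpow hs0.le (by norm_num), div_le_iff₀ (by positivity)] at h1
    rw [Real.rpow_neg hr0.le, Real.rpow_neg hs0.le, ← div_eq_mul_inv, inv_eq_one_div,
      div_le_div_iff₀ (by positivity) (by positivity)]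
    linarith
  have e2 : (1 + l) / (1 + l * r) ≤ 8 * ((1 + l) / (1 + l * s)) := by
    rw [← mul_div_assoc, div_le_div_iff₀ (by positivity) (by positivity)]
    have h1 : 1 + l * s ≤ 8 * (1 + l * r) := by
      have := mul_le_mul_of_nonneg_left hrs hl
      nlinarith
    have h2 : 0 ≤ 1 + l := by positivity
    nlinarith
  have e3 := pow_le_pow_left₀ (by positivity) e2 2
  have e4 : (8:ℝ) ^ (5/48 : ℝ) * 8 ≤ (8:ℝ) ^ (5/4 : ℝ) := by
    have h1 : (8:ℝ) ^ (5/48 : ℝ) * 8 = (8:ℝ) ^ (5/48 + 1 : ℝ) := by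
      rw [Real.rpow_add (by norm_num), Real.rpow_one]
    rw [h1]
    exact Real.rpow_le_rpow_of_exponent_le (by norm_num) (by norm_num)
  calc (r:ℝ) ^ (-(5/48) : ℝ) * ((1 + l) / (1 + l * r)) ^ 2 ≤
        ((8:ℝ) ^ (5/48 : ℝ) * (s:ℝ) ^ (-(5/48) : ℝ)) * (8 * ((1 + l) / (1 + l * s))) ^ 2 :=
        mul_le_mul e1 e3 (by positivity) (by positivity)
    _ = (((8:ℝ) ^ (5/48 : ℝ) * 8) * 8) * ((s:ℝ) ^ (-(5/48) : ℝ) * ((1 + l) / (1 + l * s)) ^ 2) := by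
        ring
    _ ≤ ((8:ℝ) ^ (5/4 : ℝ) * 8) * ((s:ℝ) ^ (-(5/48) : ℝ) * ((1 + l) / (1 + l * s)) ^ 2) := by
        apply mul_le_mul_of_nonneg_right _ (by positivity)
        linarith
    _ = _ := by unfold Pool.Agent.NH39.W.WW; ring

/-- The ratio of the two factors. -/
theorem u_ratio {l x y : ℝ} (hl : 0 ≤ l) (hx : 0 < x) (hxy : x ≤ y) :
    x / y ≤ (1 + l * x) / (1 + l * y) := by
  have hy : 0 < y := by linarith
  rw [div_le_div_iff₀ hy (by positivity)]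
  nlinarith

theorem wt_vb (q : ℝ) {r s : ℕ} (hr : 1 ≤ r) (hs : r ≤ s) :
    wt q s * vb q r ≤ wt q r * vb q s := by
  have hl := lam_nonneg q
  obtain ⟨l, hl'⟩ : ∃ l : ℝ, l = |q - 1/2| ^ (4/3 : ℝ) := ⟨_, rfl⟩
  rw [← hl'] at hl
  have hr0 : (0:ℝ) < r := by exact_mod_cast hr
  have hs0 : (0:ℝ) < s := by exact_mod_cast (by omega : 0 < s)
  have hrs : (r:ℝ) ≤ s := by exact_mod_cast hs
  unfold vb wt
  rw [← hl']
  obtain ⟨x, hx⟩ : ∃ x : ℝ, x = (1 + l) / (1 + l * r) := ⟨_, rfl⟩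
  obtain ⟨y, hy⟩ : ∃ y : ℝ, y = (1 + l) / (1 + l * s) := ⟨_, rfl⟩
  have hx0 : 0 < x := by rw [hx]; positivity
  have hy0 : 0 < y := by rw [hy]; positivity
  have hxy : (r:ℝ) / s * x ≤ y := by
    have h1 := u_ratio hl hr0 hrs
    have h2 : y = (1 + l * r) / (1 + l * s) * x := by
      rw [hx, hy]; field_simp
    rw [h2]
    exact mul_le_mul_of_nonneg_right h1 hx0.le
  rw [← hx, ← hy]
  -- the powers
  have e1 : (s:ℝ) ^ (-(5/4) : ℝ) = (s:ℝ) ^ (-(5/48) : ℝ) * (s:ℝ) ^ (-(55/48) : ℝ) := by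
    rw [← Real.rpow_add hs0]; norm_num
  have e2 : (r:ℝ) ^ (-(5/4) : ℝ) = (r:ℝ) ^ (-(5/48) : ℝ) * (r:ℝ) ^ (-(55/48) : ℝ) := by
    rw [← Real.rpow_add hr0]; norm_num
  have e3 : (s:ℝ) ^ (-(55/48) : ℝ) ≤ (r:ℝ) / s * (r:ℝ) ^ (-(55/48) : ℝ) := by
    have h1 : (s:ℝ) ^ (-(55/48) : ℝ) = (s:ℝ)⁻¹ * (s:ℝ) ^ (-(7/48) : ℝ) := by
      rw [← Real.rpow_neg_one, ← Real.rpow_add hs0]; norm_num
    have h2 : (r:ℝ) ^ (-(55/48) : ℝ) = (r:ℝ)⁻¹ * (r:ℝ) ^ (-(7/48) : ℝ) := by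
      rw [← Real.rpow_neg_one, ← Real.rpow_add hr0]; norm_num
    rw [h1, h2]
    have h3 : (s:ℝ) ^ (-(7/48) : ℝ) ≤ (r:ℝ) ^ (-(7/48) : ℝ) :=
      Real.rpow_le_rpow_of_nonpos hr0 hrs (by norm_num)
    calc (s:ℝ)⁻¹ * (s:ℝ) ^ (-(7/48) : ℝ) ≤ (s:ℝ)⁻¹ * (r:ℝ) ^ (-(7/48) : ℝ) :=
          mul_le_mul_of_nonneg_left h3 (by positivity)
      _ = _ := by field_simp
  have e4 : (s:ℝ) ^ (-(55/48) : ℝ) * x ≤ (r:ℝ) ^ (-(55/48) : ℝ) * y := by
    calc (s:ℝ) ^ (-(55/48) : ℝ) * x ≤ ((r:ℝ) / s * (r:ℝ) ^ (-(55/48) : ℝ)) * x :=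
          mul_le_mul_of_nonneg_right e3 hx0.le
      _ = (r:ℝ) ^ (-(55/48) : ℝ) * ((r:ℝ) / s * x) := by ring
      _ ≤ _ := mul_le_mul_of_nonneg_left hxy (by positivity)
  have e5 : 0 ≤ (s:ℝ) ^ (-(5/48) : ℝ) * (r:ℝ) ^ (-(5/48) : ℝ) * x * y := by positivity
  rw [e1, e2]
  calc (s:ℝ) ^ (-(5/48) : ℝ) * (s:ℝ) ^ (-(55/48) : ℝ) * y * ((r:ℝ) ^ (-(5/48) : ℝ) * x ^ 2)
      = ((s:ℝ) ^ (-(5/48) : ℝ) * (r:ℝ) ^ (-(5/48) : ℝ) * x * y) *
        ((s:ℝ) ^ (-(55/48) : ℝ) * x) := by ring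
    _ ≤ ((s:ℝ) ^ (-(5/48) : ℝ) * (r:ℝ) ^ (-(5/48) : ℝ) * x * y) *
        ((r:ℝ) ^ (-(55/48) : ℝ) * y) := mul_le_mul_of_nonneg_left e4 e5
    _ = _ := by ring

/-! ### one annulus around the origin -/

/-- The crossing of the annulus splits. -/
theorem X1_split {r s D : ℕ} (hrs : r ≤ s) (hsD : s ≤ D) {H : Finset Edg}
    (h : X1 r D (↑H : Set Edg)) : X1 r s (↑H : Set Edg) ∧ X1 s D (↑H : Set Edg) := by
  obtain ⟨u, hu, w, hw, hr⟩ := h
  have hr' := hr.mono (Set.inter_subset_left)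
  have i1 : InB (0, 0) r u := ⟨hu.1, hu.2.1⟩
  have i2 : InB (0, 0) s u := ⟨hu.1.trans (by exact_mod_cast hrs), hu.2.1.trans (by exact_mod_cast hrs)⟩
  have o1 : OutB (0, 0) D w := by
    rcases hw.2.2 with h | h
    · left; exact h.ge
    · right; exact h.ge
  have o2 : OutB (0, 0) s w := by
    rcases o1 with h | h
    · left; exact le_trans (by exact_mod_cast hsD) h
    · right; exact le_trans (by exact_mod_cast hsD) h
  obtain ⟨u1, hu1, w1, hw1, r1, -⟩ := ann_cross hrs i1 o2 hr'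
  obtain ⟨u2, hu2, w2, hw2, r2, -⟩ := ann_cross hsD i2 o1 hr'
  exact ⟨⟨u1, hu1, w1, hw1, r1⟩, ⟨u2, hu2, w2, hw2, r2⟩⟩

theorem X1_mono {r D : ℕ} {H H' : Set Edg} (hH : H ⊆ H') (h : X1 r D H) : X1 r D H' := by
  obtain ⟨u, hu, w, hw, hr⟩ := h
  exact ⟨u, hu, w, hw, hr.mono (Set.inter_subset_inter_left _ hH)⟩

/-- Dual circuits block the crossing. -/
theorem X1_eps {p : ℝ} (h0 : 0 ≤ p) (h1 : p ≤ 1) {N r D M : ℕ} (hN : 2 ≤ N) (hr : r + 1 ≤ N)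
    (hD : 2 * N ≤ D) (hM : D ≤ M) :
    Pr (fun _ => p) (boxE M) (fun F => X1 r D (↑F : Set Edg)) ≤ 20 * eps (1 - p) N := by
  have hN' : (2:ℤ) ≤ N := by exact_mod_cast hN
  have ok := okq h0 h1
  obtain ⟨n, hn⟩ : ∃ n : ℤ, n = (N:ℤ) := ⟨_, rfl⟩
  rw [← hn] at hN'
  obtain ⟨S, hS⟩ : ∃ S, S = boxE M := ⟨_, rfl⟩
  rw [← hS]
  have sub : ∀ a b c d : ℤ, -(2 * n) ≤ a → b ≤ 2 * n → -(2 * n) ≤ c → d ≤ 2 * n →
      RE a b c d ⊆ S := by
    intro a b c d ha hb hc hd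
    rw [hS]
    unfold boxE
    exact RE_subset (by omega) (by omega) (by omega) (by omega)
  have e1 : Pr (fun _ => p) S (LRc (n - 1) (2 * n - 1) (-(2 * n - 1)) (2 * n - 1)) =
      hh p n (4 * n - 2) := by
    rw [pr_LRc p (LRE_subset_RE.trans (sub _ _ _ _ (by omega) (by omega) (by omega) (by omega)))]
    congr 1 <;> ring
  have e2 : Pr (fun _ => p) S (LRc (-(2 * n - 1)) (-(n - 1)) (-(2 * n - 1)) (2 * n - 1)) =
      hh p n (4 * n - 2) := by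
    rw [pr_LRc p (LRE_subset_RE.trans (sub _ _ _ _ (by omega) (by omega) (by omega) (by omega)))]
    congr 1 <;> ring
  have e3 : Pr (fun _ => p) S (TBc (-(2 * n - 1)) (2 * n - 1) (n - 1) (2 * n - 1)) =
      hh p n (4 * n - 2) := by
    rw [pr_TBc p (TBE_subset_RE.trans (sub _ _ _ _ (by omega) (by omega) (by omega) (by omega)))]
    congr 1 <;> ring
  have e4 : Pr (fun _ => p) S (TBc (-(2 * n - 1)) (2 * n - 1) (-(2 * n - 1)) (-(n - 1))) =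
      hh p n (4 * n - 2) := by
    rw [pr_TBc p (TBE_subset_RE.trans (sub _ _ _ _ (by omega) (by omega) (by omega) (by omega)))]
    congr 1 <;> ring
  have i1 : Pr (fun _ => p) S (fun F => X1 r D (↑F : Set Edg)) ≤ Pr (fun _ => p) S (fun F =>
      ((LRc (n - 1) (2 * n - 1) (-(2 * n - 1)) (2 * n - 1) F ∨
        LRc (-(2 * n - 1)) (-(n - 1)) (-(2 * n - 1)) (2 * n - 1) F)) ∨
      (TBc (-(2 * n - 1)) (2 * n - 1) (n - 1) (2 * n - 1) F ∨
        TBc (-(2 * n - 1)) (2 * n - 1) (-(2 * n - 1)) (-(n - 1)) F)) := by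
    apply Pr_mono ok
    rintro F hF ⟨u, hu, v, hv, hrr⟩
    have hnb := not_blk_of_reach (F := F) (R1 := n - 1) (R2 := 2 * n - 1) (by omega)
      (u := u) (by
        obtain ⟨a1, a2, -⟩ := hu
        simp only [sub_zero] at a1 a2
        have b1 := abs_cases u.1
        have b2 := abs_cases u.2
        unfold inR
        omega)
      (v := v) (hrr.mono Set.inter_subset_left) (by
        obtain ⟨-, -, a3⟩ := hv
        simp only [sub_zero] at a3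
        have b1 := abs_cases v.1
        have b2 := abs_cases v.2
        omega)
    unfold Blk at hnb
    tauto
  have i2 := Pr_or_le ok S (fun F => LRc (n - 1) (2 * n - 1) (-(2 * n - 1)) (2 * n - 1) F ∨
        LRc (-(2 * n - 1)) (-(n - 1)) (-(2 * n - 1)) (2 * n - 1) F)
      (fun F => TBc (-(2 * n - 1)) (2 * n - 1) (n - 1) (2 * n - 1) F ∨
        TBc (-(2 * n - 1)) (2 * n - 1) (-(2 * n - 1)) (-(n - 1)) F)
  have i3 := Pr_or_le ok S (LRc (n - 1) (2 * n - 1) (-(2 * n - 1)) (2 * n - 1))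
    (LRc (-(2 * n - 1)) (-(n - 1)) (-(2 * n - 1)) (2 * n - 1))
  have i4 := Pr_or_le ok S (TBc (-(2 * n - 1)) (2 * n - 1) (n - 1) (2 * n - 1))
    (TBc (-(2 * n - 1)) (2 * n - 1) (-(2 * n - 1)) (-(n - 1)))
  rw [e1, e2] at i3
  rw [e3, e4] at i4
  have d1 := hh_dual (q := p) (w := n) (h := 4 * n - 2) (by omega) (by omega)
  have d2 : hh (1 - p) (4 * n) (n - 1) ≤ hh (1 - p) (4 * n - 2 + 1) (n - 1) :=
    hh_mono (by linarith) (by linarith) (by omega) (by omega) le_rfl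
  have d3 := long_cross (p := 1 - p) (by linarith) (by linarith) hN
  rw [← hn] at d3
  linarith

theorem three_pow (j : ℕ) : 3 * j ≤ 2 * 2 ^ j := by
  induction j with
  | zero => norm_num
  | succ j ih =>
    rw [pow_succ]
    rcases Nat.eq_zero_or_pos j with h | h
    · subst h; norm_num
    · have : 2 ≤ 2 ^ j := by
        calc 2 = 2 ^ 1 := by norm_num
          _ ≤ 2 ^ j := Nat.pow_le_pow_right (by norm_num) h
      omega

/-- Far beyond the correlation length. -/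
theorem X1_far {p : ℝ} (h0 : 0 ≤ p) (h1 : p ≤ 1) {r D M : ℕ} (hr : 1 ≤ r) (hrD : r ≤ D)
    (hM : D ≤ M) (he : eps (1 - p) (r + 1) ≤ 1/100) :
    Pr (fun _ => p) (boxE M) (fun F => X1 r D (↑F : Set Edg)) ≤ 512 * ((r:ℝ) / D) ^ 3 := by
  have ok := okq h0 h1
  have hr0 : (0:ℝ) < r := by exact_mod_cast hr
  have hD0 : (0:ℝ) < D := by exact_mod_cast (by omega : 0 < D)
  by_cases hc : D < 2 * (r + 1)
  · have h3 : D ≤ 4 * r := by omega
    have h4 : (D:ℝ) ≤ 4 * r := by exact_mod_cast h3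
    have h5 : 1 ≤ 4 * ((r:ℝ) / D) := by
      rw [← mul_div_assoc, le_div_iff₀ hD0]; linarith
    have h6 := one_le_pow₀ h5 (n := 3)
    have h7 : (4 * ((r:ℝ) / D)) ^ 3 = 64 * ((r:ℝ) / D) ^ 3 := by ring
    rw [h7] at h6
    have h8 : (0:ℝ) ≤ ((r:ℝ) / D) ^ 3 := by positivity
    refine (Pr_le_one ok _ _).trans ?_
    linarith
  · -- the dyadic scale
    obtain ⟨j, hj1, hj2⟩ : ∃ j : ℕ, 2 * (2 ^ j * (r + 1)) ≤ D ∧ D < 2 * (2 ^ (j + 1) * (r + 1)) := by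
      have hex : ∃ j : ℕ, D < 2 * (2 ^ (j + 1) * (r + 1)) := by
        refine ⟨D, ?_⟩
        have h2 : D < 2 ^ D := Nat.lt_two_pow_self
        have h3 : 2 ^ D ≤ 2 ^ (D + 1) := Nat.pow_le_pow_right (by norm_num) (by omega)
        nlinarith
      classical
      obtain ⟨j, hj, hmin⟩ : ∃ j, D < 2 * (2 ^ (j + 1) * (r + 1)) ∧
          ∀ i < j, ¬ D < 2 * (2 ^ (i + 1) * (r + 1)) :=
        ⟨Nat.find hex, Nat.find_spec hex, fun i hi => Nat.find_min hex hi⟩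
      refine ⟨j, ?_, hj⟩
      rcases Nat.eq_zero_or_pos j with h | h
      · subst h
        rw [pow_zero, one_mul]
        omega
      · have := hmin (j - 1) (by omega)
        rw [Nat.sub_add_cancel h] at this
        omega
    have hN2 : 2 ≤ 2 ^ j * (r + 1) := by
      calc 2 ≤ r + 1 := by omega
        _ ≤ 2 ^ j * (r + 1) := Nat.le_mul_of_pos_left _ (by positivity)
    have hrN : r + 1 ≤ 2 ^ j * (r + 1) := Nat.le_mul_of_pos_left _ (by positivity)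
    have e1 := X1_eps h0 h1 hN2 hrN hj1 hM
    have e2 := H31K.eps_pow2 (p := 1 - p) (by linarith) (by linarith) (by omega) he j
    have e3 : ((1:ℝ) / 4) ^ (2 ^ j) ≤ ((1:ℝ) / 2) ^ (3 * j) := by
      have : ((1:ℝ) / 4) ^ (2 ^ j) = ((1:ℝ) / 2) ^ (2 * 2 ^ j) := by
        rw [pow_mul]; norm_num
      rw [this]
      exact pow_le_pow_of_le_one (by norm_num) (by norm_num) (three_pow j)
    have e4 : ((1:ℝ) / 2) ^ j ≤ 8 * ((r:ℝ) / D) := by
      have h3 : (D:ℝ) ≤ 8 * (2 ^ j * r) := by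
        have : D ≤ 8 * (2 ^ j * r) := by
          have h4 : 2 * (2 ^ (j + 1) * (r + 1)) ≤ 8 * (2 ^ j * r) := by
            rw [pow_succ]
            have : 2 ^ j * (r + 1) ≤ 2 ^ j * (2 * r) := Nat.mul_le_mul_left _ (by omega)
            nlinarith
          omega
        exact_mod_cast this
      rw [← mul_div_assoc, le_div_iff₀ hD0, one_div, inv_pow, inv_mul_le_iff₀ (by positivity)]
      linarith
    have e5 : ((1:ℝ) / 2) ^ (3 * j) = (((1:ℝ) / 2) ^ j) ^ 3 := by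
      rw [← pow_mul, mul_comm]
    have e6 := pow_le_pow_left₀ (by positivity) e4 3
    have e7 : (8 * ((r:ℝ) / D)) ^ 3 = 512 * ((r:ℝ) / D) ^ 3 := by ring
    have e8 : (0:ℝ) < ((1:ℝ) / 4) ^ (2 ^ j) := by positivity
    rw [e5] at e3
    rw [e7] at e6
    linarith

end Pool.Agent.H953
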