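import Pool.Agent.H953.Sg4

/-!
Below the critical point: the sum over all vertices and all sets of `k` edges.
-/

set_option autoImplicit false
set_option maxHeartbeats 1000000

namespace Pool.Agent.H953

open H974 H12S H389NS Finset
open Pool.Agent.NH39.W (Dl psi dm wt psi_nn)

/-- The vertices of the box without the origin. -/
noncomputable def BX (m : ℕ) : Finset (ℤ × ℤ) :=
  ((Finset.Icc (-(m:ℤ)) m) ×ˢ (Finset.Icc (-(m:ℤ)) m)).erase (0, 0)

theorem mem_BX {m : ℕ} {x : ℤ × ℤ} :
    x ∈ BX m ↔ x ≠ (0, 0) ∧ x.1.natAbs ≤ m ∧ x.2.natAbs ≤ m := by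
  unfold BX
  rw [Finset.mem_erase, Finset.mem_product, Finset.mem_Icc, Finset.mem_Icc]
  constructor
  · rintro ⟨h1, h2⟩; exact ⟨h1, by omega⟩
  · rintro ⟨h1, h2⟩; exact ⟨h1, by omega⟩

/-- The marked edge, total version. -/
def gt (m : ℕ) (hm : 1 ≤ m) (x : ℤ × ℤ) : EM (2 * m) :=
  if h : x.1.natAbs ≤ m ∧ x.2.natAbs ≤ m then gx m x h hm else og (2 * m) (by omega)

theorem gt_eq {m : ℕ} (hm : 1 ≤ m) {x : ℤ × ℤ} (h : x.1.natAbs ≤ m ∧ x.2.natAbs ≤ m) :
    gt m hm x = gx m x h hm := by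
  unfold gt
  rw [dif_pos h]

theorem gt_inj {m : ℕ} (hm : 1 ≤ m) {x x' : ℤ × ℤ} (h : x ∈ BX m) (h' : x' ∈ BX m)
    (he : gt m hm x = gt m hm x') : x = x' := by
  rw [gt_eq hm (mem_BX.1 h).2, gt_eq hm (mem_BX.1 h').2] at he
  have h1 := congrArg (fun e : EM (2 * m) => e.1) he
  have h2 : ((x.1, x.2, true) : Edg) = (x'.1, x'.2, true) := h1
  rw [Prod.ext_iff, Prod.ext_iff] at h2
  exact Prod.ext h2.1 h2.2.1

theorem gt_Vi {m : ℕ} (hm : 1 ≤ m) {x : ℤ × ℤ} (h : x ∈ BX m) : gt m hm x ∈ Vi m := by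
  rw [gt_eq hm (mem_BX.1 h).2, mem_Vi]
  have h1 := (mem_BX.1 h).2
  have h2 : eds (gx m x h1 hm).1 (0, 0, true) = eds (x.1, x.2, true) (0, 0, true) := rfl
  rw [h2]
  unfold eds
  simp only
  omega

/-- The sum over all vertices and all sets of `k` edges. -/
theorem sumX : ∃ C : ℝ, 1 ≤ C ∧ ∀ p : ℝ, 0 ≤ p → p < 1/2 → ∀ m : ℕ, 1 ≤ m → ∀ k : ℕ, 1 ≤ k →
    ∑ x ∈ BX m, ∑ G ∈ (Vi m).powersetCard k,
      Pr (fun _ => p) Finset.univ (fun F => Dl (fx (2 * m) x) G F ≠ 0) ≤
      C ^ k * (((1/2 - p)⁻¹) ^ k * (1/2 - p) ^ (-(43/18) : ℝ)) := by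
  classical
  obtain ⟨a, ha, hone⟩ := one_setx
  have hW := Pool.Agent.NH39.W.WW_one
  obtain ⟨A0, hA0⟩ : ∃ A0 : ℝ, A0 = 360 * Pool.Agent.NH39.W.WW +
    288 * Pool.Agent.NH39.W.WW ^ 2 := ⟨_, rfl⟩
  have hA01 : 1 ≤ A0 := by rw [hA0]; nlinarith
  refine ⟨3 * (36 * (a ^ 12 * (3 * A0) ^ 2)), ?_, ?_⟩
  · have h1 : 1 ≤ a ^ 12 := one_le_pow₀ ha
    have h2 : 1 ≤ (3 * A0) ^ 2 := one_le_pow₀ (by linarith)
    nlinarith
  intro p p0 hp m hm k hk
  have hp1 : p ≤ 1 := by linarith
  obtain ⟨t, ht⟩ : ∃ t : ℝ, t = 1/2 - p := ⟨_, rfl⟩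
  have ht0 : 0 < t := by rw [ht]; linarith
  have ht1 : t ≤ 1 := by rw [ht]; linarith
  have hti : 1 ≤ t⁻¹ := (one_le_inv₀ ht0).2 ht1
  rw [← ht]
  obtain ⟨ε, hε⟩ : ∃ ε : ℝ, ε = t ^ (25/18 : ℝ) := ⟨_, rfl⟩
  have hε0 : 0 < ε := by rw [hε]; positivity
  obtain ⟨o, ho⟩ : ∃ o : EM (2 * m), o = og (2 * m) (by omega) := ⟨_, rfl⟩
  have oko : Ok (fun _ : EM (2 * m) => p) := fun _ => ⟨p0, hp1⟩
  have hoV : o ∈ Vi m := by
    rw [mem_Vi, ho]
    have : eds (og (2 * m) (by omega)).1 (0, 0, true) = 0 := eds_self _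
    rw [this]
    omega
  obtain ⟨Mk, hMk⟩ : ∃ Mk : ℝ, Mk = A0 * t⁻¹ := ⟨_, rfl⟩
  have hMk1 : 1 ≤ 3 * Mk := by
    rw [hMk]
    nlinarith
  have hMk0 : 0 < Mk := by linarith
  -- the kernel
  obtain ⟨K, hK⟩ : ∃ K : EM (2 * m) → EM (2 * m) → ℝ, K = fun y z =>
    psi (wt p) m (eds y.1 z.1) + ε * psi (vb p) m (eds y.1 z.1) ^ 2 := ⟨_, rfl⟩
  have hKn : ∀ y z, 0 ≤ K y z := by
    intro y z
    rw [hK]
    have := psi_nn p m (eds y.1 z.1)
    positivity
  have hKs : ∀ z ∈ Vi m, ∑ y ∈ Vi m, K y z ≤ Mk := by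
    intro z hz
    rw [hK]
    simp only
    rw [Finset.sum_add_distrib, ← Finset.mul_sum]
    have h1 := kernw p0 hp hm z hz
    have h2 := kernv hp p0 hm z hz
    rw [← ht] at h1 h2
    have h3 := mul_le_mul_of_nonneg_left h2 hε0.le
    have h4 : ε * (288 * Pool.Agent.NH39.W.WW ^ 2 * t ^ (-(43/18) : ℝ)) =
        288 * Pool.Agent.NH39.W.WW ^ 2 * t⁻¹ := by
      have h5 : ε * t ^ (-(43/18) : ℝ) = t⁻¹ := by
        rw [hε, ← Real.rpow_add ht0, ← Real.rpow_neg_one]; norm_num
      calc _ = 288 * Pool.Agent.NH39.W.WW ^ 2 * (ε * t ^ (-(43/18) : ℝ)) := by ring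
        _ = _ := by rw [h5]
    rw [h4] at h3
    have h6 : Mk = 360 * Pool.Agent.NH39.W.WW * t⁻¹ + 288 * Pool.Agent.NH39.W.WW ^ 2 * t⁻¹ := by
      rw [hMk, hA0]; ring
    linarith
  -- the weights
  have H : ∀ S : Finset (EM (2 * m)), ∃ W : ℝ, 0 ≤ W ∧ (o ∈ S → S ⊆ Vi m →
      (∃ (par : EM (2 * m) → EM (2 * m)) (rk : EM (2 * m) → ℕ),
        (∀ y ∈ S, y ≠ o → par y ∈ S ∧ rk (par y) < rk y) ∧
        W ≤ ∏ y ∈ S.erase o, K y (par y)) ∧
      ∀ x ∈ BX m, gt m hm x ∈ S →
        Pr (fun _ => p) Finset.univ (Dsx m x o (gt m hm x) S) ≤ a ^ (4 * S.card) * ε⁻¹ * W) := by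
    intro S
    by_cases hc : o ∈ S ∧ S ⊆ Vi m
    · by_cases hX : ((BX m).filter (fun x => gt m hm x ∈ S)).Nonempty
      · obtain ⟨x, hx, hmax⟩ := Finset.exists_max_image _
          (fun x => Pr (fun _ => p) Finset.univ (Dsx m x o (gt m hm x) S)) hX
        rw [Finset.mem_filter] at hx
        have hxb := (mem_BX.1 hx.1)
        obtain ⟨par, rk, sp, h1, h2, h3, h4⟩ := hone p p0 hp m hm x hxb.2 hxb.1 S
          (by rw [← ho]; exact hc.1) (by rw [← gt_eq hm hxb.2]; exact hx.2)
          (fun y hy => mem_Vi.1 (hc.2 hy))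
        rw [← ho] at h1 h3 h4
        rw [← gt_eq hm hxb.2] at h4
        obtain ⟨P, hP⟩ : ∃ P, P = Pr (fun _ => p) Finset.univ (Dsx m x o (gt m hm x) S) := ⟨_, rfl⟩
        have hP0 : 0 ≤ P := by rw [hP]; exact Pr_nonneg oko _ _
        have haS : 0 < a ^ (4 * S.card) := by positivity
        refine ⟨P * ε / a ^ (4 * S.card), by positivity, fun _ _ => ⟨⟨par, rk, h1, ?_⟩, ?_⟩⟩
        · rw [div_le_iff₀ haS]
          rw [← hP] at h4
          have h5 : ε * ∏ y ∈ S.erase o, K2.fc (wt p) (vb p) m sp y (eds y.1 (par y).1) ≤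
              ∏ y ∈ S.erase o, K y (par y) := by
            have hsp : sp ∈ S.erase o := Finset.mem_erase.2 ⟨h3, h2⟩
            rw [← Finset.mul_prod_erase _ _ hsp, ← Finset.mul_prod_erase _ _ hsp, ← mul_assoc]
            apply mul_le_mul
            · unfold K2.fc
              rw [if_pos rfl, hK]
              have := psi_nn p m (eds sp.1 (par sp).1)
              simp only
              linarith
            · apply Finset.prod_le_prod
              · intro y hy
                unfold K2.fc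
                rw [if_neg (Finset.ne_of_mem_erase hy)]
                exact psi_nn p m _
              · intro y hy
                unfold K2.fc
                rw [if_neg (Finset.ne_of_mem_erase hy), hK]
                have : 0 ≤ ε * psi (vb p) m (eds y.1 (par y).1) ^ 2 := by positivity
                simp only
                linarith
            · apply Finset.prod_nonneg
              intro y hy
              unfold K2.fc
              rw [if_neg (Finset.ne_of_mem_erase hy)]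
              exact psi_nn p m _
            · exact hKn _ _
          calc P * ε ≤ (a ^ (4 * S.card) *
                ∏ y ∈ S.erase o, K2.fc (wt p) (vb p) m sp y (eds y.1 (par y).1)) * ε :=
                mul_le_mul_of_nonneg_right h4 hε0.le
            _ = (ε * ∏ y ∈ S.erase o, K2.fc (wt p) (vb p) m sp y (eds y.1 (par y).1)) *
                a ^ (4 * S.card) := by ring
            _ ≤ _ := mul_le_mul_of_nonneg_right h5 haS.le
        · intro x' hx' hx'S
          have h5 := hmax x' (Finset.mem_filter.2 ⟨hx', hx'S⟩)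
          rw [← hP] at h5
          refine h5.trans (le_of_eq ?_)
          field_simp
      · refine ⟨0, le_rfl, fun h1 h2 => ⟨⟨fun _ => o, fun y => if y = o then 0 else 1, ?_, ?_⟩, ?_⟩⟩
        · intro y _ hyo
          simp [h1, hyo]
        · exact Finset.prod_nonneg (fun y _ => hKn _ _)
        · intro x hx hxS
          exact absurd ⟨x, Finset.mem_filter.2 ⟨hx, hxS⟩⟩ hX
    · exact ⟨0, le_rfl, fun h1 h2 => absurd ⟨h1, h2⟩ hc⟩
  choose W hW0 hW1 using H
  have htree := Pool.Agent.Y21.NE.tree (Vi m) K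
    (fun S x => if x = o then W S else 0) Mk (3 * Mk)⁻¹ hKn hKs (by positivity)
    (by rw [mul_inv_cancel₀ (by positivity)])
    (by
      intro S hS x hx
      by_cases hxo : x = o
      · rw [hxo] at hx ⊢
        obtain ⟨⟨par, rk, h1, h2⟩, -⟩ := hW1 S hx hS
        refine ⟨par, rk, h1, ?_⟩
        rw [if_pos rfl]
        exact h2
      · refine ⟨fun _ => x, fun y => if y = x then 0 else 1, ?_, ?_⟩
        · intro y _ hyx
          simp [hx, hyx]
        · rw [if_neg hxo]
          exact Finset.prod_nonneg (fun y _ => hKn _ _)) o hoV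
  -- sums for one cardinality
  have card_sum : ∀ j : ℕ, ∑ S ∈ ((Vi m).powersetCard (j + 1)).filter (fun S => o ∈ S), W S ≤
      3 * (3 * Mk) ^ j := by
    intro j
    have h1 : ∑ S ∈ ((Vi m).powersetCard (j + 1)).filter (fun S => o ∈ S),
        ((3 * Mk)⁻¹) ^ (j + 1) * W S ≤ 3 * (3 * Mk)⁻¹ := by
      refine le_trans ?_ htree
      have h2 : ∑ S ∈ ((Vi m).powersetCard (j + 1)).filter (fun S => o ∈ S),
          ((3 * Mk)⁻¹) ^ (j + 1) * W S = ∑ S ∈ ((Vi m).powersetCard (j + 1)).filter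
            (fun S => o ∈ S), ((3 * Mk)⁻¹) ^ S.card * (if o = o then W S else 0) := by
        apply Finset.sum_congr rfl
        intro S hS
        rw [Finset.mem_filter, Finset.mem_powersetCard] at hS
        rw [hS.1.2, if_pos rfl]
      rw [h2]
      apply Finset.sum_le_sum_of_subset_of_nonneg
      · intro S hS
        rw [Finset.mem_filter, Finset.mem_powersetCard] at hS
        rw [Finset.mem_filter, Finset.mem_powerset]
        exact ⟨hS.1.1, hS.2⟩
      · intro S _ _
        rw [if_pos rfl]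
        exact mul_nonneg (by positivity) (hW0 _)
    rw [← Finset.mul_sum, pow_succ] at h1
    have h3 : 0 < (3 * Mk)⁻¹ := by positivity
    have h4 : (((3 * Mk)⁻¹) ^ j * ∑ S ∈ ((Vi m).powersetCard (j + 1)).filter (fun S => o ∈ S), W S) *
        (3 * Mk)⁻¹ ≤ 3 * (3 * Mk)⁻¹ := by
      calc _ = ((3 * Mk)⁻¹) ^ j * (3 * Mk)⁻¹ *
            ∑ S ∈ ((Vi m).powersetCard (j + 1)).filter (fun S => o ∈ S), W S := by ring
        _ ≤ _ := h1
    have h5 := le_of_mul_le_mul_right h4 h3
    have h6 : ((3 * Mk)⁻¹) ^ j * (3 * Mk) ^ j = 1 := by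
      rw [← mul_pow, inv_mul_cancel₀ (by positivity), one_pow]
    have h7 : 0 ≤ (3 * Mk) ^ j := by positivity
    have h8 := mul_le_mul_of_nonneg_right h5 h7
    calc _ = (((3 * Mk)⁻¹) ^ j * (3 * Mk) ^ j) *
          ∑ S ∈ ((Vi m).powersetCard (j + 1)).filter (fun S => o ∈ S), W S := by
            rw [h6, one_mul]
      _ = (((3 * Mk)⁻¹) ^ j * ∑ S ∈ ((Vi m).powersetCard (j + 1)).filter (fun S => o ∈ S), W S) *
          (3 * Mk) ^ j := by ring
      _ ≤ _ := h8
  -- the map to the marked sets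
  obtain ⟨φ, hφ⟩ : ∃ φ : (ℤ × ℤ) × Finset (EM (2 * m)) → Finset (EM (2 * m)),
    φ = fun q => insert o (insert (gt m hm q.1) q.2) := ⟨_, rfl⟩
  obtain ⟨PP, hPP⟩ : ∃ PP, PP = BX m ×ˢ (Vi m).powersetCard k := ⟨_, rfl⟩
  have hφV : ∀ q ∈ PP, φ q ⊆ Vi m := by
    intro q hq
    rw [hPP, Finset.mem_product, Finset.mem_powersetCard] at hq
    rw [hφ]
    exact Finset.insert_subset hoV (Finset.insert_subset (gt_Vi hm hq.1) hq.2.1)
  have hφo : ∀ q, o ∈ φ q := by intro q; rw [hφ]; exact Finset.mem_insert_self _ _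
  have hφz : ∀ q, gt m hm q.1 ∈ φ q := by
    intro q; rw [hφ]
    exact Finset.mem_insert_of_mem (Finset.mem_insert_self _ _)
  have hφc : ∀ q ∈ PP, k ≤ (φ q).card ∧ (φ q).card ≤ k + 2 := by
    intro q hq
    rw [hPP, Finset.mem_product, Finset.mem_powersetCard] at hq
    rw [hφ]
    have h1 := Finset.card_insert_le o (insert (gt m hm q.1) q.2)
    have h2 := Finset.card_insert_le (gt m hm q.1) q.2
    have h3 : q.2.card ≤ (insert o (insert (gt m hm q.1) q.2)).card :=
      Finset.card_le_card ((Finset.subset_insert _ _).trans (Finset.subset_insert _ _))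
    simp only
    omega
  -- one pair
  have one : ∀ q ∈ PP, Pr (fun _ => p) Finset.univ (fun F => Dl (fx (2 * m) q.1) q.2 F ≠ 0) ≤
        a ^ (4 * (k + 2)) * ε⁻¹ * W (φ q) := by
    intro q hq
    have h1 := (hW1 (φ q) (hφo q) (hφV q hq)).2 q.1 (by
      rw [hPP, Finset.mem_product] at hq; exact hq.1) (hφz q)
    have h2 : Pr (fun _ => p) Finset.univ (fun F => Dl (fx (2 * m) q.1) q.2 F ≠ 0) ≤
        Pr (fun _ => p) Finset.univ (Dsx m q.1 o (gt m hm q.1) (φ q)) := by
      apply Pr_mono oko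
      intro F _ hF
      refine ⟨?_, q.2, ?_, ?_, hF⟩
      · intro y hy
        have := mem_Vi.1 (hφV q hq hy)
        rw [ho]
        exact this
      · rw [hφ]
        exact (Finset.subset_insert _ _).trans (Finset.subset_insert _ _)
      · intro y hy hyo hyz
        rw [hφ] at hy
        simp only [Finset.mem_insert] at hy
        rcases hy with h | h | h
        · exact absurd h hyo
        · exact absurd h hyz
        · exact h
    refine h2.trans (h1.trans ?_)
    apply mul_le_mul_of_nonneg_right _ (hW0 _)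
    apply mul_le_mul_of_nonneg_right _ (by positivity)
    apply pow_le_pow_right₀ ha
    have := (hφc q hq).2
    omega
  rw [← Finset.sum_product', ← hPP]
  refine (Finset.sum_le_sum one).trans ?_
  rw [← Finset.mul_sum]
  -- fibers
  obtain ⟨SS, hSS⟩ : ∃ SS : Finset (Finset (EM (2 * m))), SS = (Vi m).powerset.filter
    (fun S => o ∈ S ∧ k ≤ S.card ∧ S.card ≤ k + 2) := ⟨_, rfl⟩
  have hmaps : ∀ q ∈ PP, φ q ∈ SS := by
    intro q hq
    rw [hSS, Finset.mem_filter, Finset.mem_powerset]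
    exact ⟨hφV q hq, hφo q, hφc q hq⟩
  have hfib : ∀ S ∈ SS, ((PP.filter (fun q => φ q = S)).card : ℝ) ≤ 4 * (k + 2) := by
    intro S hS
    rw [hSS, Finset.mem_filter] at hS
    have h1 : (PP.filter (fun q => φ q = S)).card ≤ (S ×ˢ (Finset.univ : Finset (Bool × Bool))).card := by
      apply Finset.card_le_card_of_injOn
        (fun q => (gt m hm q.1, (decide (o ∈ q.2), decide (gt m hm q.1 ∈ q.2))))
      · intro q hq
        rw [Finset.mem_coe, Finset.mem_filter] at hq
        rw [Finset.mem_coe, Finset.mem_product]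
        refine ⟨?_, Finset.mem_univ _⟩
        simp only
        rw [← hq.2]
        exact hφz q
      · intro q hq q' hq' heq
        rw [Finset.mem_coe, Finset.mem_filter] at hq hq'
        simp only [Prod.mk.injEq, decide_eq_decide] at heq
        obtain ⟨e1, e2, e3⟩ := heq
        have hx : q.1 = q'.1 := by
          have g1 := hq.1
          have g2 := hq'.1
          rw [hPP, Finset.mem_product] at g1 g2
          exact gt_inj hm g1.1 g2.1 e1
        have hG : q.2 = q'.2 := by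
          have f1 := hq.2.trans hq'.2.symm
          rw [hφ] at f1
          simp only at f1
          ext y
          by_cases hyo : y = o
          · rw [hyo]; exact e2
          · by_cases hyz : y = gt m hm q.1
            · rw [hyz, e3, e1]
            · have f2 : y ∈ insert o (insert (gt m hm q.1) q.2) ↔
                  y ∈ insert o (insert (gt m hm q'.1) q'.2) := by rw [f1]
              simp only [Finset.mem_insert] at f2
              rw [← hx] at f2
              constructor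
              · intro h
                rcases f2.1 (Or.inr (Or.inr h)) with h' | h' | h'
                · exact absurd h' hyo
                · exact absurd h' hyz
                · exact h'
              · intro h
                rcases f2.2 (Or.inr (Or.inr h)) with h' | h' | h'
                · exact absurd h' hyo
                · exact absurd h' hyz
                · exact h'
        exact Prod.ext hx hG
    rw [Finset.card_product] at h1
    have h2 : (Finset.univ : Finset (Bool × Bool)).card = 4 := rfl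
    rw [h2] at h1
    have h3 : (PP.filter (fun q => φ q = S)).card ≤ 4 * (k + 2) := by
      have := hS.2.2.2
      omega
    exact_mod_cast h3
  have hsum1 : ∑ q ∈ PP, W (φ q) ≤ 4 * (k + 2) * ∑ S ∈ SS, W S := by
    rw [← Finset.sum_fiberwise_of_maps_to hmaps, Finset.mul_sum]
    apply Finset.sum_le_sum
    intro S hS
    have h1 : ∑ q ∈ PP.filter (fun q => φ q = S), W (φ q) =
        ((PP.filter (fun q => φ q = S)).card : ℝ) * W S := by
      rw [Finset.sum_congr rfl (g := fun _ => W S), Finset.sum_const, nsmul_eq_mul]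
      intro q hq
      rw [(Finset.mem_filter.1 hq).2]
    rw [h1]
    exact mul_le_mul_of_nonneg_right (hfib S hS) (hW0 S)
  have hsum2 : ∑ S ∈ SS, W S ≤ 9 * (3 * Mk) ^ (k + 1) := by
    have h1 : ∑ S ∈ SS, W S ≤ ∑ i ∈ range 3,
        ∑ S ∈ ((Vi m).powersetCard (k + i)).filter (fun S => o ∈ S), W S := by
      rw [← Finset.sum_biUnion]
      · apply Finset.sum_le_sum_of_subset_of_nonneg
        · intro S hS
          rw [hSS, Finset.mem_filter, Finset.mem_powerset] at hS
          rw [Finset.mem_biUnion]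
          refine ⟨S.card - k, Finset.mem_range.2 (by omega), ?_⟩
          rw [Finset.mem_filter, Finset.mem_powersetCard]
          exact ⟨⟨hS.1, by omega⟩, hS.2.1⟩
        · intro S _ _
          exact hW0 S
      · intro i _ j _ hij
        rw [Function.onFun, Finset.disjoint_left]
        intro S h1 h2
        rw [Finset.mem_filter, Finset.mem_powersetCard] at h1 h2
        apply hij
        omega
    refine h1.trans ?_
    have h2 : ∀ i ∈ range 3, ∑ S ∈ ((Vi m).powersetCard (k + i)).filter (fun S => o ∈ S), W S ≤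
        3 * (3 * Mk) ^ (k + 1) := by
      intro i hi
      rw [Finset.mem_range] at hi
      have h3 := card_sum (k + i - 1)
      have h4 : k + i - 1 + 1 = k + i := by omega
      rw [h4] at h3
      refine h3.trans ?_
      apply mul_le_mul_of_nonneg_left _ (by norm_num)
      exact pow_le_pow_right₀ hMk1 (by omega)
    refine (Finset.sum_le_sum h2).trans (le_of_eq ?_)
    rw [Finset.sum_const, Finset.card_range, nsmul_eq_mul]
    push_cast
    ring
  have hE : 0 ≤ a ^ (4 * (k + 2)) * ε⁻¹ := by positivity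
  refine (mul_le_mul_of_nonneg_left (hsum1.trans
    (mul_le_mul_of_nonneg_left hsum2 (by positivity))) hE).trans ?_
  -- the constants
  have c1 : ε⁻¹ * Mk ^ (k + 1) = A0 ^ (k + 1) * ((t⁻¹) ^ k * t ^ (-(43/18) : ℝ)) := by
    rw [hMk, mul_pow, pow_succ (t⁻¹)]
    have h1 : ε⁻¹ * t⁻¹ = t ^ (-(43/18) : ℝ) := by
      rw [hε, ← Real.rpow_neg ht0.le, ← Real.rpow_neg_one, ← Real.rpow_add ht0]
      norm_num
    rw [← h1]
    ring
  have c2 : ((k:ℝ) + 2) ≤ 3 ^ k := by
    have hk' : ∀ j : ℕ, j + 1 + 2 ≤ 3 ^ (j + 1) := by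
      intro j
      induction j with
      | zero => norm_num
      | succ j ih =>
        rw [pow_succ]
        omega
    have : k + 2 ≤ 3 ^ k := by
      have h := hk' (k - 1)
      have h2 : k - 1 + 1 = k := by omega
      rw [h2] at h
      exact h
    exact_mod_cast this
  have c3 : (36:ℝ) ≤ 36 ^ k := by
    calc (36:ℝ) = 36 ^ 1 := by norm_num
      _ ≤ 36 ^ k := pow_le_pow_right₀ (by norm_num) hk
  have c4 : a ^ (4 * (k + 2)) ≤ (a ^ 12) ^ k := by
    rw [← pow_mul]
    exact pow_le_pow_right₀ ha (by omega)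
  have c5 : (3 * A0) ^ (k + 1) ≤ ((3 * A0) ^ 2) ^ k := by
    rw [← pow_mul]
    exact pow_le_pow_right₀ (by linarith) (by omega)
  have c6 : 0 ≤ (t⁻¹) ^ k * t ^ (-(43/18) : ℝ) := by positivity
  calc a ^ (4 * (k + 2)) * ε⁻¹ * (4 * (k + 2) * (9 * (3 * Mk) ^ (k + 1)))
      = (((k:ℝ) + 2) * (36 * (a ^ (4 * (k + 2)) * 3 ^ (k + 1)))) * (ε⁻¹ * Mk ^ (k + 1)) := by
        rw [mul_pow]; ring
    _ = (((k:ℝ) + 2) * (36 * (a ^ (4 * (k + 2)) * (3 * A0) ^ (k + 1)))) *
        ((t⁻¹) ^ k * t ^ (-(43/18) : ℝ)) := by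
        rw [c1, mul_pow]; ring
    _ ≤ (3 ^ k * (36 ^ k * ((a ^ 12) ^ k * ((3 * A0) ^ 2) ^ k))) *
        ((t⁻¹) ^ k * t ^ (-(43/18) : ℝ)) := by
        apply mul_le_mul_of_nonneg_right _ c6
        apply mul_le_mul c2 _ (by positivity) (by positivity)
        apply mul_le_mul c3 _ (by positivity) (by positivity)
        exact mul_le_mul c4 c5 (by positivity) (by positivity)
    _ = _ := by
        rw [mul_pow (3:ℝ) (36 * (a ^ 12 * (3 * A0) ^ 2)) k, mul_pow (36:ℝ) (a ^ 12 * (3 * A0) ^ 2) k,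
          mul_pow (a ^ 12) ((3 * A0) ^ 2) k]

end Pool.Agent.H953
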