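import Pool.Agent.H953.Sg5
import Pool.Agent.H953.Pl5
import Pool.Graph.R_seed8.H974R2.Sus

/-!
Derivatives of all orders of the mean size of the cluster of the origin in a box, below the
critical point.
-/

set_option autoImplicit false
set_option maxHeartbeats 1000000

namespace Pool.Agent.H953

open H974 H12S H389NS Finset
open Pool.Agent.NH39.W (Dl psi dm wt Dl_split der dl_bound_h76)

/-- The vertices of the box. -/
noncomputable def BB (m : ℕ) : Finset (ℤ × ℤ) :=
  (Finset.Icc (-(m:ℤ)) m) ×ˢ (Finset.Icc (-(m:ℤ)) m)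

theorem BX_eq (m : ℕ) : BX m = (BB m).erase (0, 0) := rfl

theorem zero_BB (m : ℕ) : ((0, 0) : ℤ × ℤ) ∈ BB m := by
  unfold BB
  rw [Finset.mem_product, Finset.mem_Icc]
  simp

/-- The mean size of the cluster of the origin in the box. -/
noncomputable def sgm (m : ℕ) (q : ℝ) : ℝ := ∑ x ∈ BB m, Pr (fun _ => q) (boxE m) (H974.TP x)

/-- The connection inside the inner box. -/
noncomputable def fix (m : ℕ) (x : ℤ × ℤ) (F : Finset (EM (2 * m))) : ℝ :=
  ind (H974.TP x (im F ∩ boxE m))

/-- The difference. -/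
noncomputable def fdx (m : ℕ) (x : ℤ × ℤ) (F : Finset (EM (2 * m))) : ℝ :=
  ind (H974.TP x (im F) ∧ ¬ H974.TP x (im F ∩ boxE m))

theorem TP_mono {x : ℤ × ℤ} {F G : Finset Edg} (h : F ⊆ G) (hF : H974.TP x F) : H974.TP x G := by
  unfold H974.TP at hF ⊢
  exact hF.mono (by exact_mod_cast h)

theorem fx_eq (m : ℕ) (x : ℤ × ℤ) (F : Finset (EM (2 * m))) :
    fx (2 * m) x F = fix m x F + fdx m x F := by
  unfold fix fx fdx
  have e : ind (Reach (↑(im F) : Set Edg) (0, 0) x) = ind (H974.TP x (im F)) := rfl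
  rw [e]
  by_cases h1 : H974.TP x (im F)
  · by_cases h2 : H974.TP x (im F ∩ boxE m)
    · rw [ind_of h1, ind_of h2, ind_not_of (fun h => h.2 h2)]; ring
    · rw [ind_of h1, ind_not_of h2, ind_of ⟨h1, h2⟩]; ring
  · have h2 : ¬ H974.TP x (im F ∩ boxE m) := fun h => h1 (TP_mono Finset.inter_subset_left h)
    rw [ind_not_of h1, ind_not_of h2, ind_not_of (fun h => h1 h.1)]; ring

/-- A connection which leaves the box gives an arm. -/
theorem leave {m : ℕ} {F : Finset Edg} {x : ℤ × ℤ} (h : H974.TP x F) (h2 : ¬ H974.TP x (F ∩ boxE m)) :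
    Arm m F := by
  by_contra hA
  have hstay : ∀ v, Reach (↑F : Set Edg) (0, 0) v →
      Reach (↑F ∩ ↑(boxE m)) (0, 0) v ∧ inR (-m) m (-m) m v := by
    intro v hv
    induction hv with
    | refl =>
      refine ⟨Reach.refl _ _, ?_⟩
      unfold inR
      simp
    | @tail v' v'' _ hs ih =>
      obtain ⟨i1, i2⟩ := ih
      have hnb : ¬ onB m v' := fun hb => hA ⟨v', hb, i1⟩
      have hint : -(m:ℤ) < v'.1 ∧ v'.1 < m ∧ -(m:ℤ) < v'.2 ∧ v'.2 < m := by
        unfold onB at hnb
        unfold inR at i2 hnb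
        omega
      obtain ⟨⟨x0, y0, bo⟩, heG, hcase⟩ := hs
      have hmem : ((x0, y0, bo) : Edg) ∈ boxE m := by
        unfold boxE
        cases bo
        · rw [mem_RE_false]
          simp only [src_mk, tgt_false] at hcase
          rcases hcase with ⟨h3, h4⟩ | ⟨h3, h4⟩
          · rw [← h3] at hint; simp only at hint; omega
          · rw [← h4] at hint; simp only at hint; omega
        · rw [mem_RE_true]
          simp only [src_mk, tgt_true] at hcase
          rcases hcase with ⟨h3, h4⟩ | ⟨h3, h4⟩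
          · rw [← h3] at hint; simp only at hint; omega
          · rw [← h4] at hint; simp only at hint; omega
      have hadj : Adj (↑F ∩ ↑(boxE m)) v' v'' := ⟨_, ⟨heG, by exact_mod_cast hmem⟩, hcase⟩
      refine ⟨i1.trans hadj.reach, ?_⟩
      unfold inR
      cases bo
      · simp only [src_mk, tgt_false] at hcase
        rcases hcase with ⟨h3, h4⟩ | ⟨h3, h4⟩
        · rw [← h4]; rw [← h3] at hint; simp only at hint ⊢; omega
        · rw [← h3]; rw [← h4] at hint; simp only at hint ⊢; omega
      · simp only [src_mk, tgt_true] at hcase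
        rcases hcase with ⟨h3, h4⟩ | ⟨h3, h4⟩
        · rw [← h4]; rw [← h3] at hint; simp only at hint ⊢; omega
        · rw [← h3]; rw [← h4] at hint; simp only at hint ⊢; omega
  apply h2
  unfold H974.TP at h ⊢
  rw [Finset.coe_inter]
  exact (hstay x h).1

theorem pr_fix (m : ℕ) (x : ℤ × ℤ) (q : ℝ) :
    Pr (fun _ => q) (boxE m) (H974.TP x) = Ex (fun _ : EM (2 * m) => q) Finset.univ (fix m x) := by
  have h1 := pr_im (M := 2 * m) q (fun F => H974.TP x (F ∩ boxE m))
  have h2 : Pr (fun _ => q) (boxE (2 * m)) (fun F => H974.TP x (F ∩ boxE m)) =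
      Pr (fun _ => q) (boxE m) (fun F => H974.TP x (F ∩ boxE m)) := by
    apply Pr_local (boxE_mono (by omega : m ≤ 2 * m))
    intro F _
    rw [Finset.inter_assoc, Finset.inter_self]
  have h3 : Pr (fun _ => q) (boxE m) (fun F => H974.TP x (F ∩ boxE m)) =
      Pr (fun _ => q) (boxE m) (H974.TP x) := by
    apply Pr_congr
    intro F hF
    rw [Finset.inter_eq_left.mpr hF]
  rw [h2, h3] at h1
  exact h1.symm

theorem ex_fdx {p : ℝ} (h0 : 0 ≤ p) (h1 : p ≤ 1) (m : ℕ) (x : ℤ × ℤ) :
    Ex (fun _ : EM (2 * m) => p) Finset.univ (fdx m x) ≤ arm p m := by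
  have h3 : Ex (fun _ : EM (2 * m) => p) Finset.univ (fdx m x) ≤
      Pr (fun _ : EM (2 * m) => p) Finset.univ (fun F => Arm m (im F)) := by
    unfold Pr
    apply Ex_mono (fun _ => ⟨h0, h1⟩)
    intro F _
    unfold fdx
    apply ind_mono
    rintro ⟨a1, a2⟩
    exact leave a1 a2
  rw [pr_im p (Arm m), pr_Arm p (boxE_mono (by omega : m ≤ 2 * m))] at h3
  exact h3

/-- The sum over the box. -/
noncomputable def fs (m : ℕ) (F : Finset (EM (2 * m))) : ℝ := ∑ x ∈ BB m, fix m x F

theorem sgm_eq (m : ℕ) (q : ℝ) : sgm m q = Ex (fun _ : EM (2 * m) => q) Finset.univ (fs m) := by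
  unfold sgm fs
  rw [Ex_sum]
  exact Finset.sum_congr rfl (fun x _ => pr_fix m x q)

theorem Dl_sum {E : Type} [DecidableEq E] {ι : Type} (A : Finset ι) (G : Finset E)
    (g : ι → Finset E → ℝ) (F : Finset E) :
    Dl (fun F => ∑ i ∈ A, g i F) G F = ∑ i ∈ A, Dl (g i) G F := by
  unfold Dl
  rw [Finset.sum_comm]
  apply Finset.sum_congr rfl
  intro T _
  rw [Finset.mul_sum]

/-- The derivatives of the mean cluster size of the box. -/
theorem der_sg : ∃ C : ℝ, 1 ≤ C ∧ ∀ p : ℝ, 0 < p → p < 1/2 → ∀ m : ℕ, 1 ≤ m →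
    ∀ k : ℕ, 1 ≤ k → |iteratedDeriv k (sgm m) p| ≤ k.factorial *
      (C ^ k * (((1/2 - p)⁻¹) ^ k * (1/2 - p) ^ (-(43/18) : ℝ)) +
        9 * (m:ℝ) ^ 2 * ((64 * (m:ℝ) ^ 2 / p) ^ k * arm p m)) := by
  classical
  obtain ⟨C, hC, hsum⟩ := sumX
  refine ⟨2 * C, by linarith, ?_⟩
  intro p p0' hp m hm k hk
  have p0 : 0 ≤ p := p0'.le
  have hp1 : p ≤ 1 := by linarith
  have oko : Ok (fun _ : EM (2 * m) => p) := fun _ => ⟨p0, hp1⟩
  have e1 : (fun q => sgm m q) = fun q => Ex (fun _ : EM (2 * m) => q) Finset.univ (fs m) := by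
    funext q; exact sgm_eq m q
  have e1' : sgm m = fun q => Ex (fun _ : EM (2 * m) => q) Finset.univ (fs m) := e1
  rw [e1', der (EM (2 * m)) Finset.univ (fs m) p k, abs_mul, Nat.abs_cast]
  apply mul_le_mul_of_nonneg_left _ (by positivity)
  -- restriction to the inner sets
  obtain ⟨Vm, hVm⟩ : ∃ Vm : Finset (EM (2 * m)), Vm = Finset.univ.filter (fun y => y.1 ∈ boxE m) :=
    ⟨_, rfl⟩
  have hVsub : Vm ⊆ Vi m := by
    intro y hy
    rw [hVm, Finset.mem_filter] at hy
    rw [mem_Vi]
    obtain ⟨⟨y1, y2, bb⟩, hyb⟩ := y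
    have h3 := hy.2
    unfold boxE at h3
    unfold eds
    cases bb
    · rw [mem_RE_false] at h3
      simp only
      omega
    · rw [mem_RE_true] at h3
      simp only
      omega
  have hm1 : (1:ℝ) ≤ m := by exact_mod_cast hm
  have hVcard : (Vm.card : ℝ) ≤ 32 * (m:ℝ) ^ 2 := by
    have h3 : Vm.card ≤ (boxE m).card := by
      have h4 : (Vm.map (Function.Embedding.subtype _)) ⊆ boxE m := by
        intro e he
        rw [Finset.mem_map] at he
        obtain ⟨y, hy, rfl⟩ := he
        rw [hVm, Finset.mem_filter] at hy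
        exact hy.2
      have h5 := Finset.card_le_card h4
      rwa [Finset.card_map] at h5
    have h6 : (boxE m).card ≤ 2 * (2 * m + 1) ^ 2 := by
      have h7 : boxE m ⊆ (Finset.Icc (-(m:ℤ)) m) ×ˢ ((Finset.Icc (-(m:ℤ)) m) ×ˢ
          (Finset.univ : Finset Bool)) := by
        rintro ⟨x, y, bb⟩ he
        unfold boxE at he
        rw [Finset.mem_product, Finset.mem_product, Finset.mem_Icc, Finset.mem_Icc]
        cases bb
        · rw [mem_RE_false] at he
          simp only [Finset.mem_univ, and_true]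
          omega
        · rw [mem_RE_true] at he
          simp only [Finset.mem_univ, and_true]
          omega
      refine (Finset.card_le_card h7).trans (le_of_eq ?_)
      rw [Finset.card_product, Finset.card_product, Int.card_Icc, Finset.card_univ,
        Fintype.card_bool]
      have : ((m:ℤ) + 1 - -(m:ℤ)).toNat = 2 * m + 1 := by omega
      rw [this]
      ring
    have h8 : (Vm.card : ℝ) ≤ ((2 * (2 * m + 1) ^ 2 : ℕ) : ℝ) := by exact_mod_cast h3.trans h6
    push_cast at h8
    nlinarith
  have hBcard : ((BX m).card : ℝ) ≤ 9 * (m:ℝ) ^ 2 := by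
    have h3 : (BX m).card ≤ (BB m).card := by
      rw [BX_eq]
      exact Finset.card_le_card (Finset.erase_subset _ _)
    have h4 : (BB m).card = (2 * m + 1) ^ 2 := by
      unfold BB
      rw [Finset.card_product, Int.card_Icc]
      have : ((m:ℤ) + 1 - -(m:ℤ)).toNat = 2 * m + 1 := by omega
      rw [this]
      ring
    have h5 : ((BX m).card : ℝ) ≤ (((2 * m + 1) ^ 2 : ℕ) : ℝ) := by
      rw [← h4]; exact_mod_cast h3
    push_cast at h5
    nlinarith
  have hloc : ∀ (x : ℤ × ℤ) (G : Finset (EM (2 * m))), ¬ G ⊆ Vm → ∀ F, Dl (fix m x) G F = 0 := by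
    intro x G h3 F
    rw [Finset.not_subset] at h3
    obtain ⟨y, hy, hyV⟩ := h3
    apply Dl_indep hy
    intro F
    unfold fix
    apply ind_congr
    rw [im_insert]
    have hyb : y.1 ∉ boxE m := by
      intro h
      apply hyV
      rw [hVm, Finset.mem_filter]
      exact ⟨Finset.mem_univ _, h⟩
    rw [Finset.insert_inter_of_notMem hyb]
  -- expansion
  have hexp : ∀ G ∈ (Finset.univ : Finset (EM (2 * m))).powersetCard k,
      Ex (fun _ => p) Finset.univ (Dl (fs m) G) =
        ∑ x ∈ BX m, Ex (fun _ => p) Finset.univ (Dl (fix m x) G) := by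
    intro G hG
    rw [Finset.mem_powersetCard] at hG
    have h3 : Dl (fs m) G = fun F => ∑ x ∈ BB m, Dl (fix m x) G F := by
      funext F
      exact Dl_sum _ _ _ _
    rw [h3, Ex_sum, ← Finset.add_sum_erase _ _ (zero_BB m), ← BX_eq]
    have h4 : Ex (fun _ : EM (2 * m) => p) Finset.univ (fun F => Dl (fix m (0, 0)) G F) = 0 := by
      have hGne : G.Nonempty := by
        rw [← Finset.card_pos, hG.2]; omega
      obtain ⟨y, hy⟩ := hGne
      rw [Ex_congr (g := fun _ => 0), Ex_const]
      intro F _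
      apply Dl_indep hy
      intro F
      unfold fix
      have : ∀ F, H974.TP (0, 0) F := fun F => Reach.refl _ _
      rw [ind_of (this _), ind_of (this _)]
    rw [h4, zero_add]
  rw [Finset.sum_congr rfl hexp, Finset.sum_comm]
  refine (Finset.abs_sum_le_sum_abs _ _).trans ?_
  -- one vertex
  have hvert : ∀ x ∈ BX m, |∑ G ∈ (Finset.univ : Finset (EM (2 * m))).powersetCard k,
      Ex (fun _ => p) Finset.univ (Dl (fix m x) G)| ≤
      2 ^ k * ∑ G ∈ (Vi m).powersetCard k,
        Pr (fun _ => p) Finset.univ (fun F => Dl (fx (2 * m) x) G F ≠ 0) +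
      (64 * (m:ℝ) ^ 2 / p) ^ k * arm p m := by
    intro x hx
    have hrestrict : ∑ G ∈ (Finset.univ : Finset (EM (2 * m))).powersetCard k,
        Ex (fun _ => p) Finset.univ (Dl (fix m x) G) =
        ∑ G ∈ Vm.powersetCard k, Ex (fun _ => p) Finset.univ (Dl (fix m x) G) := by
      symm
      apply Finset.sum_subset
      · intro G hG
        rw [Finset.mem_powersetCard] at hG ⊢
        exact ⟨Finset.subset_univ _, hG.2⟩
      · intro G hG hG'
        rw [Finset.mem_powersetCard] at hG hG'
        have h3 : ¬ G ⊆ Vm := fun h => hG' ⟨h, hG.2⟩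
        rw [Ex_congr (g := fun _ => 0) (fun F _ => hloc x G h3 F), Ex_const]
    rw [hrestrict]
    refine (Finset.abs_sum_le_sum_abs _ _).trans ?_
    have hA := ex_fdx p0 hp1 m x
    have hA0 : 0 ≤ Ex (fun _ : EM (2 * m) => p) Finset.univ (fdx m x) :=
      Ex_nonneg oko (fun F _ => ind_nonneg _)
    have harm0 : 0 ≤ arm p m := hA0.trans hA
    have hone : ∀ G ∈ Vm.powersetCard k, |Ex (fun _ => p) Finset.univ (Dl (fix m x) G)| ≤
        2 ^ k * Pr (fun _ => p) Finset.univ (fun F => Dl (fx (2 * m) x) G F ≠ 0) +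
          (2 / p) ^ k * arm p m := by
      intro G hG
      rw [Finset.mem_powersetCard] at hG
      have h3 : Ex (fun _ : EM (2 * m) => p) Finset.univ (Dl (fix m x) G) =
          Ex (fun _ => p) Finset.univ (Dl (fx (2 * m) x) G) -
            Ex (fun _ => p) Finset.univ (Dl (fdx m x) G) := by
        have h4 : Ex (fun _ : EM (2 * m) => p) Finset.univ (Dl (fx (2 * m) x) G) =
            Ex (fun _ => p) Finset.univ (Dl (fix m x) G) +
              Ex (fun _ => p) Finset.univ (Dl (fdx m x) G) := by
          rw [← Ex_add]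
          apply Ex_congr
          intro F _
          rw [← Dl_add]
          congr 1
          funext F
          exact fx_eq m x F
        linarith
      rw [h3]
      refine (abs_sub _ _).trans (add_le_add ?_ ?_)
      · have hGne : G.Nonempty := by
          rw [← Finset.card_pos, hG.2]; omega
        have h4 : ∀ F, |Dl (fx (2 * m) x) G F| ≤ 2 ^ k * ind (Dl (fx (2 * m) x) G F ≠ 0) := by
          intro F
          by_cases h5 : Dl (fx (2 * m) x) G F = 0
          · rw [h5, abs_zero]
            exact mul_nonneg (by positivity) (ind_nonneg _)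
          · rw [ind_of h5, mul_one, ← hG.2]
            apply dl_bound_h76 _ _ G F hGne
            intro e F
            unfold fx
            have b1 := ind_nonneg (Reach (↑(im (insert e F)) : Set Edg) (0, 0) x)
            have b2 := ind_nonneg (Reach (↑(im F) : Set Edg) (0, 0) x)
            have b3 := ind_le_one (Reach (↑(im (insert e F)) : Set Edg) (0, 0) x)
            have b4 := ind_le_one (Reach (↑(im F) : Set Edg) (0, 0) x)
            rw [abs_le]
            constructor <;> linarith
        have h5 : |Ex (fun _ => p) Finset.univ (Dl (fx (2 * m) x) G)| ≤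
            Ex (fun _ => p) Finset.univ (fun F => 2 ^ k * ind (Dl (fx (2 * m) x) G F ≠ 0)) := by
          rw [abs_le]
          constructor
          · rw [← sub_nonneg, sub_neg_eq_add, ← Ex_add]
            apply Ex_nonneg oko
            intro F _
            have := (abs_le.1 (h4 F)).1
            linarith
          · exact Ex_mono oko (fun F _ => (le_abs_self _).trans (h4 F))
        rw [Ex_mul_left] at h5
        exact h5
      · have h4 := Dl_crude (p := p) (δ := p) p0' le_rfl (by linarith) Finset.univ G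
          (Finset.subset_univ _) (fdx m x) (fun F => ind_nonneg _)
        rw [hG.2] at h4
        exact h4.trans (mul_le_mul_of_nonneg_left hA (by positivity))
    refine (Finset.sum_le_sum hone).trans ?_
    rw [Finset.sum_add_distrib, ← Finset.mul_sum, Finset.sum_const, nsmul_eq_mul]
    apply add_le_add
    · apply mul_le_mul_of_nonneg_left _ (by positivity)
      apply Finset.sum_le_sum_of_subset_of_nonneg
      · exact Finset.powersetCard_mono hVsub
      · intro G _ _
        exact Pr_nonneg oko _ _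
    · have h3 : (((Vm.powersetCard k).card : ℕ) : ℝ) ≤ (32 * (m:ℝ) ^ 2) ^ k := by
        rw [Finset.card_powersetCard]
        have h4 : (Vm.card.choose k : ℝ) ≤ (Vm.card : ℝ) ^ k := by
          exact_mod_cast Nat.choose_le_pow _ _
        exact h4.trans (pow_le_pow_left₀ (by positivity) hVcard k)
      calc _ ≤ (32 * (m:ℝ) ^ 2) ^ k * ((2 / p) ^ k * arm p m) :=
            mul_le_mul_of_nonneg_right h3 (by positivity)
        _ = _ := by
            rw [← mul_assoc, ← mul_pow]
            congr 2
            ring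
  refine (Finset.sum_le_sum hvert).trans ?_
  rw [Finset.sum_add_distrib, ← Finset.mul_sum, Finset.sum_const, nsmul_eq_mul]
  have harm0 : 0 ≤ arm p m := arm_nonneg p0 hp1 m
  apply add_le_add
  · have h4 := hsum p p0 hp m hm k hk
    calc 2 ^ k * _ ≤ 2 ^ k * (C ^ k * (((1/2 - p)⁻¹) ^ k * (1/2 - p) ^ (-(43/18) : ℝ))) :=
          mul_le_mul_of_nonneg_left h4 (by positivity)
      _ = _ := by rw [mul_pow 2 C]; ring
  · exact mul_le_mul_of_nonneg_right hBcard (by positivity)

end Pool.Agent.H953
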