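import Pool.Agent.H953.Sg6
import Pool.Agent.H953.Pl6
import Pool.Graph.R_seed8.H31R3.Kes.SigUp
import Pool.Graph.R_seed8.W424.NC.TwoUp

/-!
Smoothness of the mean cluster size below the critical point, and the bounds for its derivatives.
-/

set_option autoImplicit false
set_option maxHeartbeats 1000000

namespace Pool.Agent.H953

open H974 H12S H389NS Finset Filter Topology MeasureTheory
open scoped ContDiff

/-- The mean cluster size as a function on the reals. -/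
noncomputable def sg (p : ℝ) : ℝ := (sigma (Set.projIcc 0 1 zero_le_one p)).toReal

theorem sg_eq (p : unitInterval) : sg p = (sigma p).toReal := by
  unfold sg
  rw [Set.projIcc_val]

theorem sigma_fin {p : unitInterval} (hp : (p:ℝ) < 1/2) : sigma p ≠ ⊤ := by
  obtain ⟨C, hC, h⟩ := Pool.Agent.W424.NC.sigma_upper
  exact ne_top_of_le_ne_top ENNReal.ofReal_ne_top (h p hp)

theorem sgm_nonneg {p : ℝ} (h0 : 0 ≤ p) (h1 : p ≤ 1) (m : ℕ) : 0 ≤ sgm m p := by
  unfold sgm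
  exact Finset.sum_nonneg (fun x _ => Pr_nonneg (okq h0 h1) _ _)

theorem sgm_le {p : unitInterval} (hp : (p:ℝ) < 1/2) (m : ℕ) : sgm m p ≤ (sigma p).toReal := by
  have h1 := sigma_ge p (boxE m) (BB m)
  exact (ENNReal.ofReal_le_iff_le_toReal (sigma_fin hp)).1 h1

theorem BB_mono {m n : ℕ} (h : m ≤ n) : BB m ⊆ BB n := by
  intro x hx
  unfold BB at hx ⊢
  rw [Finset.mem_product, Finset.mem_Icc, Finset.mem_Icc] at hx ⊢
  omega

theorem pr_tp_mono {p : ℝ} (h0 : 0 ≤ p) (h1 : p ≤ 1) {m n : ℕ} (h : m ≤ n) (x : ℤ × ℤ) :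
    Pr (fun _ => p) (boxE m) (H974.TP x) ≤ Pr (fun _ => p) (boxE n) (H974.TP x) := by
  have h2 : Pr (fun _ => p) (boxE n) (fun F => H974.TP x (F ∩ boxE m)) =
      Pr (fun _ => p) (boxE m) (fun F => H974.TP x (F ∩ boxE m)) := by
    apply Pr_local (boxE_mono h)
    intro F _
    rw [Finset.inter_assoc, Finset.inter_self]
  have h3 : Pr (fun _ => p) (boxE m) (fun F => H974.TP x (F ∩ boxE m)) =
      Pr (fun _ => p) (boxE m) (H974.TP x) := by
    apply Pr_congr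
    intro F hF
    rw [Finset.inter_eq_left.mpr hF]
  rw [← h3, ← h2]
  apply Pr_mono (okq h0 h1)
  intro F _ hF
  exact TP_mono Finset.inter_subset_left hF

theorem sgm_mono {p : ℝ} (h0 : 0 ≤ p) (h1 : p ≤ 1) {m n : ℕ} (h : m ≤ n) :
    sgm m p ≤ sgm n p := by
  unfold sgm
  calc ∑ x ∈ BB m, Pr (fun _ => p) (boxE m) (H974.TP x)
      ≤ ∑ x ∈ BB m, Pr (fun _ => p) (boxE n) (H974.TP x) :=
        Finset.sum_le_sum (fun x _ => pr_tp_mono h0 h1 h x)
    _ ≤ ∑ x ∈ BB n, Pr (fun _ => p) (boxE n) (H974.TP x) :=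
        Finset.sum_le_sum_of_subset_of_nonneg (BB_mono h)
          (fun x _ _ => Pr_nonneg (okq h0 h1) _ _)

theorem tau_lim (p : unitInterval) (x : ℤ × ℤ) :
    Tendsto (fun m => Pr (fun _ => (p:ℝ)) (boxE m) (H974.TP x)) atTop (𝓝 (H31K.tau p x)) := by
  have h1 : Monotone (fun n : ℕ => {w | H974.TP x (FF (boxE n) w)}) := by
    intro a b hab w hw
    have hw' : H974.TP x (FF (boxE a) w) := hw
    show H974.TP x (FF (boxE b) w)
    unfold H974.TP at hw' ⊢
    rw [FF_coe] at hw' ⊢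
    exact hw'.mono (Set.inter_subset_inter_right _ (by exact_mod_cast boxE_mono hab))
  have h2 := tendsto_measure_iUnion_atTop (μ := bondLaw p) h1
  rw [← H31K.t10_union] at h2
  have h3 := (ENNReal.tendsto_toReal (measure_ne_top _ _)).comp h2
  refine h3.congr ?_
  intro m
  exact law_event p (boxE m) (H974.TP x)

theorem exh (s : Finset (ℤ × ℤ)) : ∃ m : ℕ, s ⊆ BB m := by
  refine ⟨∑ x ∈ s, (x.1.natAbs + x.2.natAbs), ?_⟩
  intro x hx
  have h := Finset.single_le_sum (f := fun x : ℤ × ℤ => x.1.natAbs + x.2.natAbs)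
    (fun i _ => Nat.zero_le _) hx
  unfold BB
  rw [Finset.mem_product, Finset.mem_Icc, Finset.mem_Icc]
  have h' : x.1.natAbs + x.2.natAbs ≤ ∑ x ∈ s, (x.1.natAbs + x.2.natAbs) := h
  generalize ∑ x ∈ s, (x.1.natAbs + x.2.natAbs) = M at h' ⊢
  omega

theorem sigma_le_of {p : unitInterval} {L : ℝ} (hL : ∀ m, sgm m p ≤ L) :
    sigma p ≤ ENNReal.ofReal L := by
  refine (H31K.sigma_le p).trans ?_
  rw [ENNReal.tsum_eq_iSup_sum]
  apply iSup_le
  intro s
  have ht0 : ∀ x ∈ s, 0 ≤ H31K.tau p x := by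
    intro x _
    unfold H31K.tau
    exact measureReal_nonneg
  rw [← ENNReal.ofReal_sum_of_nonneg ht0]
  apply ENNReal.ofReal_le_ofReal
  have h1 : Tendsto (fun m => ∑ x ∈ s, Pr (fun _ => (p:ℝ)) (boxE m) (H974.TP x)) atTop
      (𝓝 (∑ x ∈ s, H31K.tau p x)) := tendsto_finsetSum s (fun x _ => tau_lim p x)
  apply le_of_tendsto h1
  obtain ⟨M, hM⟩ := exh s
  filter_upwards [eventually_ge_atTop M] with m hm
  refine le_trans ?_ (hL m)
  unfold sgm
  exact Finset.sum_le_sum_of_subset_of_nonneg (hM.trans (BB_mono hm))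
    (fun x _ _ => Pr_nonneg (okq p.2.1 p.2.2) _ _)

/-- The mean cluster sizes of the boxes converge to the mean cluster size. -/
theorem sgm_tendsto {p : ℝ} (h0 : 0 ≤ p) (h1 : p < 1/2) :
    Tendsto (fun n => sgm n p) atTop (𝓝 (sg p)) := by
  have h1' : p ≤ 1 := by linarith
  obtain ⟨q, hq⟩ : ∃ q : unitInterval, q = ⟨p, h0, h1'⟩ := ⟨_, rfl⟩
  have hqp : (q:ℝ) = p := by rw [hq]
  have hmono : Monotone (fun n => sgm n p) := fun m n h => sgm_mono h0 h1' h
  have hq2 : (q:ℝ) < 1/2 := by rw [hqp]; exact h1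
  have hbdd : BddAbove (Set.range (fun n => sgm n p)) := ⟨(sigma q).toReal, by
    rintro x ⟨n, rfl⟩
    simp only
    rw [← hqp]
    exact sgm_le hq2 n⟩
  have ht := tendsto_atTop_ciSup hmono hbdd
  have e : sg p = ⨆ n, sgm n p := by
    apply le_antisymm
    · rw [← hqp, sg_eq]
      have hpos : 0 ≤ ⨆ n, sgm n (q:ℝ) := by
        rw [hqp]
        exact (sgm_nonneg h0 h1' 0).trans (le_ciSup hbdd 0)
      apply ENNReal.toReal_le_of_le_ofReal hpos
      apply sigma_le_of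
      intro m
      rw [hqp]
      exact le_ciSup hbdd m
    · apply ciSup_le
      intro n
      rw [← hqp, sg_eq]
      exact sgm_le hq2 n
  rw [e]
  exact ht

theorem sgm_smooth (m : ℕ) : ContDiff ℝ ∞ (sgm m) := by
  unfold sgm Pr Ex
  apply ContDiff.sum
  intro x _
  apply ContDiff.sum
  intro F _
  apply ContDiff.mul _ contDiff_const
  apply ContDiff.mul
  · apply contDiff_prod
    intro e _
    exact contDiff_id
  · apply contDiff_prod
    intro e _
    exact contDiff_const.sub contDiff_id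

/-- The mean cluster size is smooth below the critical point, and its derivatives satisfy the
bounds of the scaling theory. -/
theorem sg_smooth : ∃ C : ℝ, 1 ≤ C ∧ ∀ p : ℝ, 0 < p → p < 1/2 →
    ContDiffAt ℝ ∞ sg p ∧
    (∀ k : ℕ, 1 ≤ k → |iteratedDeriv k sg p| ≤
      C ^ k * k.factorial * (1/2 - p) ^ (-(43:ℝ)/18 - k)) := by
  obtain ⟨C, hC, hb⟩ := der_sg
  obtain ⟨E, hE, hfar⟩ := Pool.Agent.W424.NC.farS
  refine ⟨C, hC, ?_⟩
  intro p hp0 hp
  obtain ⟨a, ha⟩ : ∃ a, a = p / 2 := ⟨_, rfl⟩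
  obtain ⟨b, hb'⟩ : ∃ b, b = (p + 1/2) / 2 := ⟨_, rfl⟩
  have ha0 : 0 < a := by rw [ha]; linarith
  have hap : a < p := by rw [ha]; linarith
  have hpb : p < b := by rw [hb']; linarith
  have hb1 : b < 1/2 := by rw [hb']; linarith
  have hab : a < b := by linarith
  obtain ⟨N, hN2, hNE⟩ : ∃ N : ℕ, 2 ≤ N ∧ E * (1/2 - b) ^ (-(4/3 : ℝ)) ≤ N := by
    obtain ⟨n, hn⟩ := exists_nat_ge (E * (1/2 - b) ^ (-(4/3 : ℝ)))
    exact ⟨n + 2, by omega, hn.trans (by push_cast; linarith)⟩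
  have heps : ∀ x : ℝ, a < x → x < b → eps (1 - x) N ≤ 1/100 := by
    intro x hx hx1
    apply hfar (1 - x) (by linarith) (by linarith)
    refine le_trans ?_ hNE
    apply mul_le_mul_of_nonneg_left _ (by linarith)
    exact Real.rpow_le_rpow_of_nonpos (by linarith) (by linarith) (by norm_num)
  have hms1 : ∀ j, 1 ≤ ms N j := by
    intro j
    unfold ms
    have : 1 ≤ 2^j * N := Nat.le_trans (by omega) (Nat.le_mul_of_pos_left N (by positivity))
    omega
  obtain ⟨A, hA⟩ : ∃ A : ℝ, A = 256 * (N:ℝ)^2 / a := ⟨_, rfl⟩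
  have hA0 : 0 ≤ A := by rw [hA]; apply div_nonneg <;> nlinarith
  have hA36 : 36 * (N:ℝ)^2 ≤ A := by
    rw [hA, le_div_iff₀ ha0]
    nlinarith [sq_nonneg (N:ℝ)]
  -- the bound along the sequence
  have key : ∀ k : ℕ, 1 ≤ k → ∀ j : ℕ, ∀ x : ℝ, a < x → x < b →
      |iteratedDeriv k (sgm (ms N j)) x| ≤ k.factorial *
        (C ^ k * (((1/2 - x)⁻¹) ^ k * (1/2 - x) ^ (-(43/18) : ℝ)) +
          (A * ((2:ℝ)^j)^2) ^ (k + 1) * (1/4 : ℝ)^(2^j)) := by
    intro k hk j x hx hx1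
    refine (hb x (by linarith) (by linarith) (ms N j) (hms1 j) k hk).trans ?_
    apply mul_le_mul_of_nonneg_left _ (by positivity)
    have h1 : arm x (ms N j) ≤ (1/4)^(2^j) :=
      H31K.arm_decay_far (by linarith : (0:ℝ) ≤ x) (by linarith : x ≤ 1) hN2 (heps x hx hx1) j
    have h2 : 0 ≤ arm x (ms N j) := arm_nonneg (by linarith) (by linarith) _
    have h3 : 64 * ((ms N j : ℕ) : ℝ) ^ 2 / x ≤ A * ((2:ℝ)^j)^2 := by
      rw [hA]
      unfold ms
      push_cast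
      have e1 : 64 * (2 * ((2:ℝ)^j * N))^2 = 256 * (N:ℝ)^2 * ((2:ℝ)^j)^2 := by ring
      rw [e1, div_mul_eq_mul_div]
      exact div_le_div_of_nonneg_left (by positivity) (by linarith) (by linarith)
    have h4 : 0 ≤ 64 * ((ms N j : ℕ) : ℝ) ^ 2 / x := by
      apply div_nonneg (by positivity) (by linarith)
    have h5 : (64 * ((ms N j : ℕ) : ℝ) ^ 2 / x) ^ k ≤ (A * ((2:ℝ)^j)^2) ^ k :=
      pow_le_pow_left₀ h4 h3 k
    have h7 : 9 * ((ms N j : ℕ) : ℝ)^2 ≤ A * ((2:ℝ)^j)^2 := by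
      unfold ms
      push_cast
      have e1 : 9 * (2 * ((2:ℝ)^j * N))^2 = (36 * (N:ℝ)^2) * ((2:ℝ)^j)^2 := by ring
      rw [e1]
      exact mul_le_mul_of_nonneg_right hA36 (by positivity)
    have h6 : 9 * ((ms N j : ℕ) : ℝ)^2 * ((64 * ((ms N j : ℕ) : ℝ) ^ 2 / x) ^ k *
        arm x (ms N j)) ≤
        (A * ((2:ℝ)^j)^2) * ((A * ((2:ℝ)^j)^2) ^ k * (1/4 : ℝ)^(2^j)) := by
      apply mul_le_mul h7 _ (mul_nonneg (pow_nonneg h4 k) h2) (by positivity)
      exact mul_le_mul h5 h1 h2 (by positivity)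
    have h8 : (A * ((2:ℝ)^j)^2) * ((A * ((2:ℝ)^j)^2) ^ k * (1/4 : ℝ)^(2^j)) =
        (A * ((2:ℝ)^j)^2) ^ (k + 1) * (1/4 : ℝ)^(2^j) := by ring
    linarith
  -- uniform bounds
  have hM : ∀ k : ℕ, ∃ M : ℝ, ∀ j : ℕ, (A * ((2:ℝ)^j)^2) ^ (k + 1) * (1/4 : ℝ)^(2^j) ≤ M := by
    intro k
    obtain ⟨M, hM⟩ := (err_tendsto A (k + 1)).bddAbove_range
    exact ⟨M, fun j => hM ⟨j, rfl⟩⟩
  choose M hM using hM
  obtain ⟨h1, h2⟩ := Pool.Agent.NH39.W.lim (fun j q => sgm (ms N j) q) sg a b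
    (fun k => k.factorial * (C ^ k * (((1/2 - b)⁻¹) ^ k * (1/2 - b) ^ (-(43/18) : ℝ)) + M k)) hab
    (fun j => sgm_smooth _)
    (fun x hx => (sgm_tendsto (by linarith [hx.1]) (by linarith [hx.2])).comp
      (ms_tendsto (by omega)))
    (by
      intro k hk j x hx
      refine (key k (by omega) j x hx.1 hx.2).trans ?_
      apply mul_le_mul_of_nonneg_left _ (by positivity)
      apply add_le_add _ (hM k j)
      apply mul_le_mul_of_nonneg_left _ (by positivity)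
      have hx1 := hx.1
      have hx2 := hx.2
      apply mul_le_mul
      · apply pow_le_pow_left₀ (inv_nonneg.mpr (by linarith))
        exact inv_anti₀ (by linarith) (by linarith)
      · exact Real.rpow_le_rpow_of_nonpos (by linarith) (by linarith) (by norm_num)
      · exact (Real.rpow_pos_of_pos (by linarith) _).le
      · exact pow_nonneg (inv_nonneg.mpr (by linarith)) _)
  refine ⟨h1.contDiffAt (Ioo_mem_nhds hap hpb), ?_⟩
  intro k hk
  have hlim := (h2 k p ⟨hap, hpb⟩).abs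
  have hbd : Tendsto (fun j : ℕ => (k.factorial : ℝ) *
        (C ^ k * (((1/2 - p)⁻¹) ^ k * (1/2 - p) ^ (-(43/18) : ℝ)) +
          (A * ((2:ℝ)^j)^2) ^ (k + 1) * (1/4 : ℝ)^(2^j))) atTop
      (𝓝 ((k.factorial : ℝ) *
        (C ^ k * (((1/2 - p)⁻¹) ^ k * (1/2 - p) ^ (-(43/18) : ℝ)) + 0))) :=
    (tendsto_const_nhds.add (err_tendsto A (k + 1))).const_mul _
  have hle := le_of_tendsto_of_tendsto' hlim hbd (fun j => key k hk j p hap hpb)
  refine hle.trans (le_of_eq ?_)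
  have hs : 0 < 1/2 - p := by linarith
  rw [Real.rpow_sub hs, Real.rpow_natCast]
  rw [inv_pow]
  have e9 : (-(43:ℝ)/18) = -(43/18) := by ring
  rw [e9]
  ring

end Pool.Agent.H953
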