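import Pool.Agent.H953.Sg7
import Pool.Agent.H953.Sec

/-!
The mean cluster size in a sector.
-/

set_option autoImplicit false

namespace Pool.Agent.H953

open H974 Set
open scoped ContDiff

/-- The reflection. -/
noncomputable def rg (s : ℝ) : ℝ := sg (1 - s)

theorem rg_hyp : ∃ B C : ℝ, Sec.Hyp rg B C (-(43/18)) := by
  obtain ⟨C, hC, hs⟩ := sg_smooth
  obtain ⟨C2, hC2, h2⟩ := Pool.Agent.W424.NC.sigma_upper
  refine ⟨C2 + 1, C, by linarith, hC, ?_, ?_⟩
  · intro p h0 h1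
    have h3 := (hs (1 - p) (by linarith) (by linarith)).1
    have h4 : ContDiffAt ℝ ∞ (fun s : ℝ => 1 - s) p := contDiffAt_const.sub contDiffAt_id
    exact ContDiffAt.comp p h3 h4
  intro p h0 h1 k
  have hs0 : 0 < p - 1/2 := by linarith
  rcases Nat.eq_zero_or_pos k with hk | hk
  · subst hk
    obtain ⟨q, hq⟩ : ∃ q : unitInterval, q = ⟨1 - p, by linarith, by linarith⟩ := ⟨_, rfl⟩
    have hqp : (q:ℝ) = 1 - p := by rw [hq]
    have k3 := h2 q (by rw [hqp]; linarith)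
    have k4 := sg_eq q
    have k5 : 0 ≤ (sigma q).toReal := ENNReal.toReal_nonneg
    rw [hqp] at k3 k4
    have e : 1/2 - (1 - p) = p - 1/2 := by ring
    rw [e] at k3
    have hp : 0 < (p - 1/2) ^ (-(43/18) : ℝ) := Real.rpow_pos_of_pos hs0 _
    have k6 : (sigma q).toReal ≤ C2 * (p - 1/2) ^ (-(43/18) : ℝ) :=
      ENNReal.toReal_le_of_le_ofReal (by positivity) k3
    simp only [iteratedDeriv_zero, pow_zero, mul_one, Nat.factorial_zero, Nat.cast_one,
      Nat.cast_zero, sub_zero]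
    unfold rg
    rw [k4, abs_of_nonneg k5]
    linarith
  · have e1 : iteratedDeriv k rg p = (-1 : ℝ) ^ k * iteratedDeriv k sg (1 - p) := by
      have := iteratedDeriv_comp_const_sub k sg (1:ℝ)
      exact congrFun this p
    have h3 := (hs (1 - p) (by linarith) (by linarith)).2 k hk
    have e : 1/2 - (1 - p) = p - 1/2 := by ring
    rw [e] at h3
    rw [e1, abs_mul, abs_pow, abs_neg, abs_one, one_pow, one_mul]
    have e2 : (-(43:ℝ)/18) = -(43/18) := by ring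
    rw [e2] at h3
    have h4 : 0 < (p - 1/2) ^ (-(43/18) - k : ℝ) := Real.rpow_pos_of_pos hs0 _
    refine h3.trans ?_
    have h5 : 0 ≤ C ^ k * k.factorial := by positivity
    have h6 : (0:ℝ) ≤ C ^ k * k.factorial * (p - 1/2) ^ (-(43/18) - k : ℝ) := by positivity
    have h7 : (C2 + 1) * C ^ k * k.factorial * (p - 1/2) ^ (-(43/18) - k : ℝ) =
        C2 * (C ^ k * k.factorial * (p - 1/2) ^ (-(43/18) - k : ℝ)) +
        C ^ k * k.factorial * (p - 1/2) ^ (-(43/18) - k : ℝ) := by ring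
    rw [h7]
    have := mul_nonneg hC2.le h6
    linarith

theorem sg_sector : ∃ (c c' C' : ℝ) (K : ℂ → ℂ), 0 < c ∧ 0 < c' ∧ 0 < C' ∧
    DifferentiableOn ℂ K {z : ℂ | |z.im| < c * (1/2 - z.re) ∧ 0 < z.re} ∧
    (∀ p : unitInterval, (0 : ℝ) < p → (p : ℝ) < 1/2 → sigma p ≠ ⊤ ∧
      K ((p : ℝ) : ℂ) = (((sigma p).toReal : ℝ) : ℂ)) ∧
    ∀ z : ℂ, |z.im| < c * (1/2 - z.re) → 0 < z.re →
      c' * ‖z - 1/2‖ ^ (-(43/18) : ℝ) ≤ (K z).re ∧ ‖K z‖ ≤ C' * ‖z - 1/2‖ ^ (-(43/18) : ℝ) := by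
  obtain ⟨B, C, H⟩ := rg_hyp
  obtain ⟨b, hb, hl⟩ := Pool.Agent.Y554.NC.sigma_lower
  obtain ⟨c, c', C', K, hc, hc', hC', h1, h2, h3⟩ := Sec.main H hb (by
    intro p h0 h1
    obtain ⟨q, hq⟩ : ∃ q : unitInterval, q = ⟨1 - p, by linarith, by linarith⟩ := ⟨_, rfl⟩
    have hqp : (q:ℝ) = 1 - p := by rw [hq]
    have k3 := hl q (by rw [hqp]; linarith)
    have k4 := sg_eq q
    have k5 := sigma_fin (p := q) (by rw [hqp]; linarith)
    rw [hqp] at k3 k4
    have e : 1/2 - (1 - p) = p - 1/2 := by ring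
    rw [e] at k3
    unfold rg
    rw [k4]
    exact (ENNReal.ofReal_le_iff_le_toReal k5).1 k3)
  have hmem : ∀ z : ℂ, |z.im| < c * (1/2 - z.re) → 0 < z.re → 1 - z ∈ Sec.sec c := by
    intro z hz hz1
    refine ⟨?_, ?_⟩
    · rw [Complex.sub_im, Complex.sub_re, Complex.one_im, Complex.one_re, zero_sub, abs_neg]
      have e : 1 - z.re - 1/2 = 1/2 - z.re := by ring
      rw [e]
      exact hz
    · rw [Complex.sub_re, Complex.one_re]
      linarith
  have hnorm : ∀ z : ℂ, ‖(1 - z) - 1/2‖ = ‖z - 1/2‖ := by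
    intro z
    rw [← norm_neg]
    congr 1
    ring
  refine ⟨c, c', C', fun z => K (1 - z), hc, hc', hC', ?_, ?_, ?_⟩
  · apply h1.comp ((differentiable_const (1:ℂ)).sub differentiable_id).differentiableOn
    intro z hz
    exact hmem z hz.1 hz.2
  · intro p hp hp1
    refine ⟨sigma_fin hp1, ?_⟩
    have h4 := h2 (1 - p) (by linarith) (by linarith)
    show K (1 - ((p:ℝ):ℂ)) = _
    rw [← sg_eq]
    push_cast at h4
    rw [h4]
    unfold rg
    rw [sub_sub_cancel]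
  · intro z hz hz1
    have h4 := h3 (1 - z) (hmem z hz hz1)
    rw [hnorm] at h4
    exact h4

end Pool.Agent.H953
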