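import Pool.Agent.H953.Pl6
import Pool.Agent.H953.Sec

/-!
The percolation probability in a sector.
-/

set_option autoImplicit false

namespace Pool.Agent.H953

open H974 Set

theorem th_hyp : ∃ B C : ℝ, Sec.Hyp th B C (5/36) := by
  obtain ⟨C, hC, hs⟩ := th_smooth
  obtain ⟨C2, hC2, h2⟩ := Pool.Agent.Y554.NC.theta_upper
  refine ⟨C2 + 1, C, by linarith, hC, fun p h0 h1 => (hs p h0 h1).1, ?_⟩
  intro p h0 h1 k
  have hs0 : 0 < p - 1/2 := by linarith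
  rcases Nat.eq_zero_or_pos k with hk | hk
  · subst hk
    obtain ⟨q, hq⟩ : ∃ q : unitInterval, q = ⟨p, by linarith, h1.le⟩ := ⟨_, rfl⟩
    have hqp : (q:ℝ) = p := by rw [hq]
    have k3 := h2 q (by rw [hqp]; exact h0)
    have k4 := th_eq q
    have k5 := theta_nonneg q
    rw [hqp] at k3 k4
    simp only [iteratedDeriv_zero, pow_zero, mul_one, Nat.factorial_zero, Nat.cast_one,
      Nat.cast_zero, sub_zero]
    rw [k4, abs_of_nonneg k5]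
    have : 0 < (p - 1/2) ^ (5/36 : ℝ) := Real.rpow_pos_of_pos hs0 _
    linarith
  · have h3 := (hs p h0 h1).2.1 k hk
    have h4 : 0 < (p - 1/2) ^ ((5:ℝ)/36 - k) := Real.rpow_pos_of_pos hs0 _
    refine h3.trans ?_
    have h5 : 0 ≤ C ^ k * k.factorial := by positivity
    have h6 : (0:ℝ) ≤ C ^ k * k.factorial * (p - 1/2) ^ ((5:ℝ)/36 - k) := by positivity
    have h7 : (C2 + 1) * C ^ k * k.factorial * (p - 1/2) ^ ((5:ℝ)/36 - k) =
        C2 * (C ^ k * k.factorial * (p - 1/2) ^ ((5:ℝ)/36 - k)) +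
        C ^ k * k.factorial * (p - 1/2) ^ ((5:ℝ)/36 - k) := by ring
    rw [h7]
    have := mul_nonneg hC2.le h6
    linarith

theorem th_sector : ∃ (c c' C' : ℝ) (K : ℂ → ℂ), 0 < c ∧ 0 < c' ∧ 0 < C' ∧
    DifferentiableOn ℂ K {z : ℂ | |z.im| < c * (z.re - 1/2) ∧ z.re < 1} ∧
    (∀ p : unitInterval, (1/2 : ℝ) < p → (p : ℝ) < 1 → K ((p : ℝ) : ℂ) = ((theta p : ℝ) : ℂ)) ∧
    ∀ z : ℂ, |z.im| < c * (z.re - 1/2) → z.re < 1 →
      c' * ‖z - 1/2‖ ^ (5/36 : ℝ) ≤ (K z).re ∧ ‖K z‖ ≤ C' * ‖z - 1/2‖ ^ (5/36 : ℝ) := by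
  obtain ⟨B, C, H⟩ := th_hyp
  obtain ⟨b, hb, hl⟩ := Pool.Agent.Y554.NC.theta_lower'
  obtain ⟨c, c', C', K, hc, hc', hC', h1, h2, h3⟩ := Sec.main H hb (by
    intro p h0 h1
    obtain ⟨q, hq⟩ : ∃ q : unitInterval, q = ⟨p, by linarith, h1.le⟩ := ⟨_, rfl⟩
    have hqp : (q:ℝ) = p := by rw [hq]
    have k3 := hl q (by rw [hqp]; exact h0)
    have k4 := th_eq q
    rw [hqp] at k3 k4
    rw [k4]
    exact k3)
  refine ⟨c, c', C', K, hc, hc', hC', h1, ?_, fun z hz hz1 => h3 z ⟨hz, hz1⟩⟩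
  intro p hp hp1
  rw [h2 p hp hp1, th_eq]

end Pool.Agent.H953
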